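import Mathlib

/-!
# MP_a91488_pr: the abstract comparison theorem, definitions

`w k ω x` (`k ∈ ι`, a finite type) are independent random positive fields on `D` with mean one, on the product
space `∀ k, Ω k`; `m` is a finite measure on `D`; `mass C ω = ∫ ∏_{k ∈ C} w k (ω k) x dm(x)`.
-/

set_option autoImplicit false

open MeasureTheory

namespace Pool.Agent.MChaos

/-- covariance of the weight `w` -/
noncomputable def cw {Ω D : Type} [MeasurableSpace Ω] (P : Measure Ω) (w : Ω → D → ℝ) (x y : D) : ℝ := ∫ ω, w ω x * w ω y ∂P - 1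

/-- a positive random weight with mean one, all moments bounded by `M p`, and third order size at most `a` -/
structure Wt {Ω D : Type} [MeasurableSpace Ω] [MeasurableSpace D] (P : Measure Ω) (w : Ω → D → ℝ) (a : D → ℝ) (s : ℝ) (M : ℝ → ℝ) : Prop where
  meas : Measurable (Function.uncurry w)
  pos : ∀ ω x, 0 < w ω x
  bdd : ∀ ω, ∃ B : ℝ, ∀ x, w ω x ≤ B
  mean : ∀ x, ∫ ω, w ω x ∂P = 1
  mom : ∀ x p, Integrable (fun ω => w ω x ^ p) P ∧ ∫ ω, w ω x ^ p ∂P ≤ M p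
  ameas : Measurable a
  a0 : ∀ x, 0 ≤ a x
  ab : ∃ B : ℝ, ∀ x, a x ≤ B
  thr : ∀ x, (∫ ω, |w ω x - 1| ^ s ∂P) ^ (3 / s) ≤ a x

section fam

variable {ι : Type} [Fintype ι] [DecidableEq ι] {Ω : ι → Type} [∀ k, MeasurableSpace (Ω k)] (P : ∀ k, Measure (Ω k))
  {D : Type} [MeasurableSpace D] (m : Measure D) (w : ∀ k, Ω k → D → ℝ)

/-- `∏_{k ∈ C} w k (ω k) x` -/
noncomputable def fC (C : Finset ι) (ω : ∀ k, Ω k) (x : D) : ℝ := ∏ k ∈ C, w k (ω k) x

noncomputable def mass (C : Finset ι) (ω : ∀ k, Ω k) : ℝ := ∫ x, fC w C ω x ∂m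

noncomputable def phi (q : ℝ) (C : Finset ι) : ℝ := ∫ ω, mass m w C ω ^ q ∂(Measure.pi P)

noncomputable def Tq (q : ℝ) (C : Finset ι) (c : D → D → ℝ) : ℝ :=
  ∫ ω, mass m w C ω ^ (q - 2) * (∫ x, ∫ y, c x y * (fC w C ω x * fC w C ω y) ∂m ∂m) ∂(Measure.pi P)

noncomputable def Aq (q : ℝ) (C : Finset ι) (a : D → ℝ) : ℝ :=
  ∫ ω, mass m w C ω ^ (q - 1) * (∫ x, a x * fC w C ω x ∂m) ∂(Measure.pi P)

end fam

end Pool.Agent.MChaos
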