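import Pool.Agent.Lib_MP_a91488.MOMN

/-!
# Piece MOMC: moments of the masses of dyadic cubes
-/

set_option autoImplicit false

open MeasureTheory ProbabilityTheory

namespace Pool.Agent.MChaos

variable {d : ℕ} {Ω : Type} [MeasurableSpace Ω] {P : Measure Ω} [IsProbabilityMeasure P] {X : ℕ → Ω → E d → ℝ}

/-- bounded moments of `TN` for all exponents below the critical one -/
theorem momc_tn (hX : CP d P X) (γ q : ℝ) (hγ : γ ^ 2 < 2 * d) (hq : q * γ ^ 2 < 2 * d) : ∃ (C : ℝ) (t₀ : ℕ), 0 < C ∧ ∀ m N : ℕ, t₀ ≤ m → cut P X m ≤ N → ∀ z ∈ Idx d m,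
    ∫ ω, TN P X γ m N z ω ^ q ∂P ≤ C := by
  rcases lt_or_ge q 0 with h0 | h0
  · obtain ⟨C, t₀, hC, h⟩ := momn hX γ (-q) (by linarith) hγ
    refine ⟨C, t₀, hC, fun m N hm hN z hz => ?_⟩
    have := h m N hm hN z hz
    rwa [neg_neg] at this
  · rcases lt_or_ge 1 q with h1 | h1
    · exact momp hX γ q h1 hq
    · refine ⟨2, 0, by norm_num, fun m N _ _ z _ => ?_⟩
      obtain ⟨-, hpos, hmean, hint⟩ := tn_facts hX γ m N z
      have hi1 : Integrable (TN P X γ m N z) P := by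
        have := hint 1
        simpa using this
      have hle : ∀ ω, TN P X γ m N z ω ^ q ≤ 1 + TN P X γ m N z ω := by
        intro ω
        have hp := hpos ω
        rcases le_total (TN P X γ m N z ω) 1 with h2 | h2
        · have := Real.rpow_le_one hp.le h2 h0
          linarith
        · have := Real.rpow_le_rpow_of_exponent_le h2 h1
          rw [Real.rpow_one] at this
          linarith
      have := integral_mono (hint q) ((integrable_const (1 : ℝ)).add hi1) hle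
      rw [integral_add' (integrable_const _) hi1, hmean] at this
      simp at this
      linarith

/-- `froz` and `momp` (`q > 1`), `momn` (`q < 0`), `TN^q ≤ 1 + TN` (`0 ≤ q ≤ 1`) -/
theorem momc (hX : CP d P X) (γ q : ℝ) (hγ : γ ^ 2 < 2 * d) (hq : q * γ ^ 2 < 2 * d) : ∃ (C : ℝ) (t₀ : ℕ), 0 < C ∧ ∀ m n N : ℕ, t₀ ≤ m → n ≤ cut P X m → cut P X m ≤ N → ∀ z ∈ Idx d m,
    ∫ ω, (TT P X γ n N (cb m z) ω * 2 ^ (d * m)) ^ q ∂P ≤ C * Real.exp ((q ^ 2 - q) * γ ^ 2 / 2 * (sig2 P X (cut P X m) - sig2 P X n)) := by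
  obtain ⟨C, t₁, hC, h⟩ := froz hX γ q
  obtain ⟨C', t₂, hC', h'⟩ := momc_tn hX γ q hγ hq
  refine ⟨C * C', max t₁ t₂, mul_pos hC hC', fun m n N hm hn hN z hz => ?_⟩
  refine (h m n N ((le_max_left _ _).trans hm) hn hN z hz).trans ?_
  have h1 := h' m N ((le_max_right _ _).trans hm) hN z hz
  calc C * Real.exp ((q ^ 2 - q) * γ ^ 2 / 2 * (sig2 P X (cut P X m) - sig2 P X n)) * ∫ ω, TN P X γ m N z ω ^ q ∂P
      ≤ C * Real.exp ((q ^ 2 - q) * γ ^ 2 / 2 * (sig2 P X (cut P X m) - sig2 P X n)) * C' :=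
        mul_le_mul_of_nonneg_left h1 (by positivity)
    _ = C * C' * Real.exp ((q ^ 2 - q) * γ ^ 2 / 2 * (sig2 P X (cut P X m) - sig2 P X n)) := by ring

end Pool.Agent.MChaos
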