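import Pool.Agent.Lib_MP_a91488.BLZ
import Pool.Agent.Lib_MP_a91488.MOMC

/-!
# Piece BLK: the number of children of a given type in one block
-/

set_option autoImplicit false

open MeasureTheory ProbabilityTheory

namespace Pool.Agent.MChaos

variable {d : ℕ} {Ω : Type} [MeasurableSpace Ω] {P : Measure Ω} [IsProbabilityMeasure P] {X : ℕ → Ω → E d → ℝ}

private theorem num_mono {d : ℕ} {Ω : Type} (X : ℕ → Ω → E d → ℝ) (n n' k M : ℕ) (τ ε₁ ε : ℝ)
    (h : ε₁ ≤ ε) (z : V d) (ω : Ω) : Num X n n' k M τ ε₁ z ω ≤ Num X n n' k M τ ε z ω := by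
  unfold Num
  refine Finset.card_le_card fun c hc => ?_
  simp only [Finset.mem_filter] at hc ⊢
  refine ⟨hc.1, ?_⟩
  have h1 : |SS X n n' ω (cor M c) - τ * (k * Real.log 2)| ≤ ε₁ * k := hc.2
  show |SS X n n' ω (cor M c) - τ * (k * Real.log 2)| ≤ ε * k
  exact h1.trans (mul_le_mul_of_nonneg_right h (Nat.cast_nonneg k))

private theorem blk_split {d : ℕ} {Ω : Type} [MeasurableSpace Ω] (P : Measure Ω)
    (X : ℕ → Ω → E d → ℝ) (τ e : ℝ) (n n' m k : ℕ) (z : V d) (ω : Ω) (M : ℝ)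
    (hM : ∀ c ∈ Chd k z, ω ∈ Typ X n n' k (m + k) τ e c → Ew P X τ n n' (m + k) c ω ≤ M) :
    1 / 2 ^ (d * k) * ∑ c ∈ Chd k z, Ew P X τ n n' (m + k) c ω ≤
      1 / 2 ^ (d * k) * ((Num X n n' k (m + k) τ e z ω : ℝ) * M) + ZA P X τ e n n' m k z ω := by
  classical
  unfold ZA Num
  rw [← mul_add]
  refine mul_le_mul_of_nonneg_left ?_ (by positivity)
  have h1 : ∑ c ∈ Chd k z, Ew P X τ n n' (m + k) c ω =
      ∑ c ∈ (Chd k z).filter (fun c => ω ∈ Typ X n n' k (m + k) τ e c),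
        Ew P X τ n n' (m + k) c ω +
      ∑ c ∈ Chd k z, if ω ∈ Typ X n n' k (m + k) τ e c then 0 else
        Ew P X τ n n' (m + k) c ω := by
    rw [Finset.sum_filter, ← Finset.sum_add_distrib]
    refine Finset.sum_congr rfl fun c _ => ?_
    split_ifs <;> simp
  have h2 : ∑ c ∈ (Chd k z).filter (fun c => ω ∈ Typ X n n' k (m + k) τ e c),
        Ew P X τ n n' (m + k) c ω ≤
      (((Chd k z).filter (fun c => ω ∈ Typ X n n' k (m + k) τ e c)).card : ℝ) * M := by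
    rw [← nsmul_eq_mul, ← Finset.sum_const]
    refine Finset.sum_le_sum fun c hc => ?_
    have := Finset.mem_filter.1 hc
    exact hM c this.1 this.2
  rw [h1]
  refine add_le_add ?_ (le_of_eq ?_)
  · convert h2 using 3
  · refine Finset.sum_congr rfl fun c _ => ?_
    split_ifs <;> rfl

/-- Let `n = cut (m - l)`, `n' = cut (m + k - l')`, `|sig2 n' - sig2 n - k log 2| ≤ 1 + (l + l') log 2` (`cut_diff`). Choose a window `ε₁ ≤ ε` and `η₁` with `|τ| ε₁ + η₁ + .. < ε log 2 / 2`. Outside of `Osc`, and outside of the events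
`TT τ n n' (cb m z) 2^(d m) < 2^(-η₁ k)` (probability `≤ C 2^(τ^2 l) 2^(-η₁ k)` by `momc` with `q = -1` and Markov) and `ZA > 2^(-η₁ k)/(2 C₁)` (probability `≤ C 2^(η₁ k) exp (-c k)`, `blz`, `η₁` small):
`2^(-η₁ k) ≤ C₁ (ZT + ZA)`, so the typical children contribute at least `2^(-η₁ k)/(2 C₁)`, and each of them contributes at most `2^(-d k) C₁ exp (τ^2/2 k log 2 + |τ| ε₁ k + τ^2/2 η k)`, hence
`Num ≥ (2 C₁^2)⁻¹ 2^(k (d - τ^2/2 - η₁)) exp (-(|τ| ε₁ + τ^2 η/2) k) ≥ 2 * 2^(k (d - τ^2/2 - ε))` for large `k`. `Num` increases with the window. For small `k` the constant `C` makes the bound trivial. -/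
theorem blk (hX : CP d P X) (τ ε : ℝ) (hτ : τ ^ 2 < 2 * d) (hε : 0 < ε) : ∃ η c C : ℝ, 0 < η ∧ 0 < c ∧ 0 < C ∧ ∃ t₀ : ℕ, ∀ m k l l' : ℕ, l + t₀ ≤ m → l' ≤ k → (l : ℝ) ≤ η * k → (l' : ℝ) ≤ η * k → ∀ z ∈ Idx d m,
    P.real {ω | (Num X (cut P X (m - l)) (cut P X (m + k - l')) k (m + k) τ ε z ω : ℝ) < 2 * (2 : ℝ) ^ ((k : ℝ) * (d - τ ^ 2 / 2 - ε))} ≤
      C * 2 ^ (-(c * k)) + P.real (Osc X (cut P X (m - l)) (cut P X (m + k - l')) (m + k) 3) := by
  have hd : (0 : ℝ) < d := by exact_mod_cast hX.dpos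
  obtain ⟨C₁, hC₁, hblc⟩ := blc hX τ
  set L := Real.log 2 with hLdef
  have hL : 0 < L := Real.log_pos (by norm_num)
  have h2e : ∀ x : ℝ, (2 : ℝ) ^ x = Real.exp (x * L) := fun x => by
    rw [Real.rpow_def_of_pos (by norm_num), mul_comm]
  set ε₁ := min ε (ε * L / (4 * (|τ| + 1))) with hε₁def
  have hε₁ : 0 < ε₁ := lt_min hε (by positivity)
  have hε₁a : |τ| * ε₁ ≤ ε * L / 4 := by
    have h1 : ε₁ ≤ ε * L / (4 * (|τ| + 1)) := min_le_right _ _
    have h2 : (|τ| + 1) * ε₁ ≤ ε * L / 4 := by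
      rw [le_div_iff₀ (by positivity)] at h1
      linarith only [h1]
    linarith only [h2, hε₁]
  obtain ⟨η₀, c₀, C₀, hη₀, hc₀, hC₀, hblz⟩ := blz hX τ ε₁ hε₁
  obtain ⟨C₂, t₁, hC₂, hmom⟩ := momc hX τ (-1) hτ (by nlinarith [sq_nonneg τ])
  obtain ⟨t₂, hcut⟩ := cut_diff hX
  set η₁ := min (ε / 4) (c₀ / (2 * L)) with hη₁def
  have hη₁ : 0 < η₁ := lt_min (by positivity) (by positivity)
  have hη₁a : η₁ * L ≤ ε * L / 4 := by
    have : η₁ ≤ ε / 4 := min_le_left _ _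
    have h9 := mul_le_mul_of_nonneg_right this hL.le
    linarith only [h9]
  have hη₁b : η₁ * L ≤ c₀ / 2 := by
    have h1 : η₁ ≤ c₀ / (2 * L) := min_le_right _ _
    rw [le_div_iff₀ (by positivity)] at h1
    linarith
  set η₂ := min η₀ (ε * L / (2 * (τ ^ 2 + 1))) with hη₂def
  have hη₂ : 0 < η₂ := lt_min hη₀ (by positivity)
  have hη₂a : τ ^ 2 * η₂ / 2 ≤ ε * L / 4 := by
    have h1 : η₂ ≤ ε * L / (2 * (τ ^ 2 + 1)) := min_le_right _ _
    rw [le_div_iff₀ (by positivity)] at h1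
    linarith only [h1, hη₂]
  set η := min (η₁ / (2 * (τ ^ 2 + 1))) (η₂ / (4 * L)) with hηdef
  have hη : 0 < η := lt_min (by positivity) (by positivity)
  have hηa : τ ^ 2 * η ≤ η₁ / 2 := by
    have h1 : η ≤ η₁ / (2 * (τ ^ 2 + 1)) := min_le_left _ _
    rw [le_div_iff₀ (by positivity)] at h1
    linarith only [h1, hη]
  have hηb : 2 * η * L ≤ η₂ / 2 := by
    have h1 : η ≤ η₂ / (4 * L) := min_le_right _ _
    rw [le_div_iff₀ (by positivity)] at h1
    linarith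
  set c := min (η₁ / 2) (c₀ / (2 * L)) with hcdef
  have hc : 0 < c := lt_min (by positivity) (by positivity)
  have hca : c ≤ η₁ / 2 := min_le_left _ _
  have hcb : c * L ≤ c₀ / 2 := by
    have h1 : c ≤ c₀ / (2 * L) := min_le_right _ _
    rw [le_div_iff₀ (by positivity)] at h1
    linarith
  obtain ⟨k₀, hk₀⟩ : ∃ k₀ : ℕ, ∀ k : ℕ, k₀ ≤ k → 1 ≤ η₂ * k / 2 ∧
      4 * C₁ ^ 2 ≤ Real.exp (ε * L / 4 * k) := by
    have h1 : Filter.Tendsto (fun k : ℕ => η₂ * (k : ℝ) / 2) Filter.atTop Filter.atTop :=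
      (tendsto_natCast_atTop_atTop.const_mul_atTop hη₂).atTop_div_const (by norm_num)
    have h2 : Filter.Tendsto (fun k : ℕ => Real.exp (ε * L / 4 * (k : ℝ))) Filter.atTop
        Filter.atTop :=
      Real.tendsto_exp_atTop.comp (tendsto_natCast_atTop_atTop.const_mul_atTop (by positivity))
    obtain ⟨k₀, h⟩ := Filter.eventually_atTop.1
      ((h1.eventually_ge_atTop 1).and (h2.eventually_ge_atTop (4 * C₁ ^ 2)))
    exact ⟨k₀, fun k hk => h k hk⟩
  refine ⟨η, c, C₂ * Real.exp (τ ^ 2) + 2 * C₁ * C₀ + 2 ^ (c * k₀), hη, hc, by positivity,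
    max t₁ t₂, ?_⟩
  intro m k l l' hm hl' hl1 hl2 z hz
  rcases lt_or_ge k k₀ with hk | hk
  · have h1 : (1 : ℝ) ≤ 2 ^ (c * k₀) * 2 ^ (-(c * k)) := by
      rw [← Real.rpow_add (by norm_num)]
      apply Real.one_le_rpow (by norm_num)
      have : (k : ℝ) ≤ k₀ := by exact_mod_cast hk.le
      have h9 := mul_le_mul_of_nonneg_left this hc.le
      linarith only [h9]
    have h2 : (0 : ℝ) < 2 ^ (-(c * k)) := by positivity
    have h3 : (1 : ℝ) ≤ (C₂ * Real.exp (τ ^ 2) + 2 * C₁ * C₀ + 2 ^ (c * k₀)) * 2 ^ (-(c * k)) := by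
      have h4 : 0 ≤ (C₂ * Real.exp (τ ^ 2) + 2 * C₁ * C₀) * 2 ^ (-(c * k)) := by positivity
      linarith only [h1, h4]
    have h5 : P.real {ω | (Num X (cut P X (m - l)) (cut P X (m + k - l')) k (m + k) τ ε z ω : ℝ) <
        2 * (2 : ℝ) ^ ((k : ℝ) * (d - τ ^ 2 / 2 - ε))} ≤ 1 := measureReal_le_one
    have h6 : 0 ≤ P.real (Osc X (cut P X (m - l)) (cut P X (m + k - l')) (m + k) 3) :=
      measureReal_nonneg
    linarith
  obtain ⟨hk1, hk2⟩ := hk₀ k hk
  have hm1 : t₁ ≤ m := by have := le_max_left t₁ t₂; omega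
  have hm2 : t₂ ≤ m - l := by have := le_max_right t₁ t₂; omega
  have hml' : m - l + l = m := by omega
  have hml2 : m - l + (k + l - l') = m + k - l' := by omega
  have hcast : ((k + l - l' : ℕ) : ℝ) = k + l - l' := by
    rw [Nat.cast_sub (by omega)]
    push_cast
    ring
  set n := cut P X (m - l) with hn
  set n' := cut P X (m + k - l') with hn'
  have hncut : n ≤ cut P X m := cut_mono hX (Nat.sub_le m l)
  have hncut' : cut P X m ≤ n' := cut_mono hX (by omega)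
  have hk0 : (0 : ℝ) ≤ k := Nat.cast_nonneg k
  have hl0 : (0 : ℝ) ≤ l := Nat.cast_nonneg l
  have hl'0 : (0 : ℝ) ≤ l' := Nat.cast_nonneg l'
  have hd1 : sig2 P X (cut P X m) - sig2 P X n ≤ 1 + l * L := by
    have h4 := hcut (m - l) l hm2
    rw [hml', ← hn] at h4
    have h7 := (abs_le.1 h4).2
    linarith
  have hd2 : |sig2 P X n' - sig2 P X n - k * L| ≤ η₂ * k := by
    have h4 := hcut (m - l) (k + l - l') hm2
    rw [hml2, ← hn, ← hn', hcast] at h4
    have h7 := abs_le.1 h4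
    have h8 : (l : ℝ) * L ≤ η * k * L := mul_le_mul_of_nonneg_right hl1 hL.le
    have h9 : (l' : ℝ) * L ≤ η * k * L := mul_le_mul_of_nonneg_right hl2 hL.le
    have h10 : 2 * η * L * k ≤ η₂ / 2 * k := mul_le_mul_of_nonneg_right hηb hk0
    have h11 : 0 ≤ (l : ℝ) * L := mul_nonneg hl0 hL.le
    have h12 : 0 ≤ (l' : ℝ) * L := mul_nonneg hl'0 hL.le
    rw [abs_le]
    constructor <;> linarith only [h7.1, h7.2, h8, h9, h10, h11, h12, hk1]
  obtain ⟨hZi, hZ0, hZe⟩ := hblz m k n n' (hncut.trans hncut')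
    (hd2.trans (mul_le_mul_of_nonneg_right (min_le_left _ _) hk0)) z hz
  have hv : volume (cb m z) ≠ ⊤ := by
    rw [cb_vol]
    exact ENNReal.ofReal_ne_top
  have hv0 : volume (cb m z) ≠ 0 := by
    rw [cb_vol]
    exact (ENNReal.ofReal_pos.2 (by positivity)).ne'
  have hpos : ∀ ω, 0 < TT P X τ n n' (cb m z) ω * 2 ^ (d * m) := fun ω =>
    mul_pos (tt_pos hX τ n n' ω (cb m z) (cb_meas m z) hv hv0) (by positivity)
  set a : ℝ := Real.exp (-(η₁ * L) * k) with ha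
  have ha0 : 0 < a := Real.exp_pos _
  -- the subset relation
  have hsub : {ω | (Num X n n' k (m + k) τ ε z ω : ℝ) <
      2 * (2 : ℝ) ^ ((k : ℝ) * (d - τ ^ 2 / 2 - ε))} ⊆
      Osc X n n' (m + k) 3 ∪ ({ω | TT P X τ n n' (cb m z) ω * 2 ^ (d * m) < a} ∪
        {ω | a / (2 * C₁) ≤ ZA P X τ ε₁ n n' m k z ω}) := by
    intro ω hω
    by_contra hnot
    simp only [Set.mem_union, not_or] at hnot
    obtain ⟨hno, hnW, hnZ⟩ := hnot
    have hW : a ≤ TT P X τ n n' (cb m z) ω * 2 ^ (d * m) := not_lt.1 hnW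
    have hZ : ZA P X τ ε₁ n n' m k z ω < a / (2 * C₁) := not_le.1 hnZ
    obtain ⟨hb1, hb2⟩ := hblc m k n n' (hncut.trans hncut') z hz ω hno
    set M : ℝ := C₁ * Real.exp (τ ^ 2 * (k * L) + |τ| * ε₁ * k -
      τ ^ 2 / 2 * (sig2 P X n' - sig2 P X n)) with hM
    have hM0 : 0 < M := by positivity
    have hsp := blk_split P X τ ε₁ n n' m k z ω M (fun c hc ht => hb2 ε₁ hε₁.le c hc ht)
    have h1 : a ≤ C₁ * (1 / 2 ^ (d * k) * ((Num X n n' k (m + k) τ ε₁ z ω : ℝ) * M) +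
        ZA P X τ ε₁ n n' m k z ω) :=
      hW.trans (hb1.trans (mul_le_mul_of_nonneg_left hsp hC₁.le))
    have h2 : C₁ * ZA P X τ ε₁ n n' m k z ω ≤ a / 2 := by
      have := mul_le_mul_of_nonneg_left hZ.le hC₁.le
      have h3 : C₁ * (a / (2 * C₁)) = a / 2 := by field_simp
      linarith
    have h3 : a / 2 ≤ C₁ * (1 / 2 ^ (d * k) * ((Num X n n' k (m + k) τ ε₁ z ω : ℝ) * M)) := by
      rw [mul_add] at h1
      linarith only [h1, h2]
    have hNN : (Num X n n' k (m + k) τ ε₁ z ω : ℝ) ≤ (Num X n n' k (m + k) τ ε z ω : ℝ) := by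
      exact_mod_cast num_mono X n n' k (m + k) τ ε₁ ε (min_le_left _ _) z ω
    have hlt : (Num X n n' k (m + k) τ ε₁ z ω : ℝ) <
        2 * (2 : ℝ) ^ ((k : ℝ) * (d - τ ^ 2 / 2 - ε)) := lt_of_le_of_lt hNN hω
    have hMle : M ≤ C₁ * Real.exp (τ ^ 2 / 2 * (k * L) + ε * L / 2 * k) := by
      rw [hM]
      refine mul_le_mul_of_nonneg_left (Real.exp_le_exp.2 ?_) hC₁.le
      have h5 := (abs_le.1 hd2).1
      have h6 : τ ^ 2 / 2 * (k * L - η₂ * k) ≤ τ ^ 2 / 2 * (sig2 P X n' - sig2 P X n) :=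
        mul_le_mul_of_nonneg_left (by linarith) (by positivity)
      have h7 : |τ| * ε₁ * k ≤ ε * L / 4 * k := mul_le_mul_of_nonneg_right hε₁a hk0
      have h8 : τ ^ 2 * η₂ / 2 * k ≤ ε * L / 4 * k := mul_le_mul_of_nonneg_right hη₂a hk0
      linarith only [h6, h7, h8]
    have hdk : (1 : ℝ) / 2 ^ (d * k) = Real.exp (-(d * (k * L))) := by
      rw [← Real.rpow_natCast, h2e, one_div, ← Real.exp_neg]
      congr 1
      push_cast
      ring
    have h9 : C₁ * (1 / 2 ^ (d * k) * ((Num X n n' k (m + k) τ ε₁ z ω : ℝ) * M)) <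
        C₁ * (Real.exp (-(d * (k * L))) * ((2 * Real.exp ((k : ℝ) * (d - τ ^ 2 / 2 - ε) * L)) *
          (C₁ * Real.exp (τ ^ 2 / 2 * (k * L) + ε * L / 2 * k)))) := by
      rw [hdk, ← h2e ((k : ℝ) * (d - τ ^ 2 / 2 - ε))]
      refine mul_lt_mul_of_pos_left (mul_lt_mul_of_pos_left ?_ (Real.exp_pos _)) hC₁
      exact mul_lt_mul hlt hMle hM0 (by positivity)
    have h10 : C₁ * (Real.exp (-(d * (k * L))) * ((2 * Real.exp ((k : ℝ) * (d - τ ^ 2 / 2 - ε) * L)) *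
          (C₁ * Real.exp (τ ^ 2 / 2 * (k * L) + ε * L / 2 * k)))) =
        2 * C₁ ^ 2 * Real.exp (-(ε * L / 2) * k) := by
      have h11 : Real.exp (-(ε * L / 2) * k) = Real.exp (-(d * (k * L))) *
          (Real.exp ((k : ℝ) * (d - τ ^ 2 / 2 - ε) * L) *
            Real.exp (τ ^ 2 / 2 * (k * L) + ε * L / 2 * k)) := by
        rw [← Real.exp_add, ← Real.exp_add]
        congr 1
        ring
      rw [h11]
      ring
    have h12 : 2 * C₁ ^ 2 * Real.exp (-(ε * L / 2) * k) ≤ a / 2 := by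
      have h13 : Real.exp (ε * L / 4 * k) * Real.exp (-(ε * L / 2) * k) ≤ a := by
        rw [← Real.exp_add, ha]
        apply Real.exp_le_exp.2
        have h14 : η₁ * L * k ≤ ε * L / 4 * k := mul_le_mul_of_nonneg_right hη₁a hk0
        linarith
      have h15 : 4 * C₁ ^ 2 * Real.exp (-(ε * L / 2) * k) ≤
          Real.exp (ε * L / 4 * k) * Real.exp (-(ε * L / 2) * k) :=
        mul_le_mul_of_nonneg_right hk2 (Real.exp_pos _).le
      linarith only [h13, h15]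
    linarith only [h3, h9, h10, h12]
  have hP1 : P.real {ω | TT P X τ n n' (cb m z) ω * 2 ^ (d * m) < a} ≤
      C₂ * Real.exp (τ ^ 2) * 2 ^ (-(c * k)) := by
    have hint : Integrable (fun ω => (TT P X τ n n' (cb m z) ω * 2 ^ (d * m)) ^ (-1 : ℝ)) P := by
      have h1 := (tt_pow hX τ (-1) n n' (cb m z) (cb_meas m z) hv hv0).mul_const
        (((2 : ℝ) ^ (d * m)) ^ (-1 : ℝ))
      refine h1.congr (Filter.Eventually.of_forall fun ω => ?_)
      exact (Real.mul_rpow (tt_nonneg hX τ n n' ω _) (by positivity)).symm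
    have h1 := mul_meas_ge_le_integral_of_nonneg (μ := P)
      (f := fun ω => (TT P X τ n n' (cb m z) ω * 2 ^ (d * m)) ^ (-1 : ℝ))
      (Filter.Eventually.of_forall fun ω => Real.rpow_nonneg (hpos ω).le _) hint (1 / a)
    have h2 := hmom m n n' hm1 hncut hncut' z hz
    have h3 : P.real {ω | TT P X τ n n' (cb m z) ω * 2 ^ (d * m) < a} ≤
        P.real {ω | 1 / a ≤ (TT P X τ n n' (cb m z) ω * 2 ^ (d * m)) ^ (-1 : ℝ)} := by
      refine measureReal_mono (fun ω hω => ?_) (measure_ne_top P _)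
      have hω' : TT P X τ n n' (cb m z) ω * 2 ^ (d * m) < a := hω
      show 1 / a ≤ (TT P X τ n n' (cb m z) ω * 2 ^ (d * m)) ^ (-1 : ℝ)
      rw [Real.rpow_neg_one, ← one_div]
      exact one_div_le_one_div_of_le (hpos ω) hω'.le
    have h9 : 1 / a * P.real {ω | TT P X τ n n' (cb m z) ω * 2 ^ (d * m) < a} ≤
        C₂ * Real.exp ((((-1 : ℝ)) ^ 2 - (-1)) * τ ^ 2 / 2 *
          (sig2 P X (cut P X m) - sig2 P X n)) :=
      le_trans (mul_le_mul_of_nonneg_left h3 (by positivity)) (h1.trans h2)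
    rw [one_div, inv_mul_le_iff₀ ha0] at h9
    refine h9.trans ?_
    rw [h2e, ha]
    have h4 : Real.exp (-(η₁ * L) * k) * (C₂ * Real.exp ((((-1 : ℝ)) ^ 2 - (-1)) * τ ^ 2 / 2 *
          (sig2 P X (cut P X m) - sig2 P X n))) = C₂ * Real.exp (-(η₁ * L) * k +
          (((-1 : ℝ)) ^ 2 - (-1)) * τ ^ 2 / 2 * (sig2 P X (cut P X m) - sig2 P X n)) := by
      rw [Real.exp_add]
      ring
    rw [h4, mul_assoc, ← Real.exp_add]
    refine mul_le_mul_of_nonneg_left (Real.exp_le_exp.2 ?_) hC₂.le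
    have h5 : τ ^ 2 * (sig2 P X (cut P X m) - sig2 P X n) ≤ τ ^ 2 * (1 + l * L) :=
      mul_le_mul_of_nonneg_left hd1 (sq_nonneg τ)
    have h6 : τ ^ 2 * (l * L) ≤ η₁ / 2 * (k * L) := by
      have h7 : (l : ℝ) * L ≤ η * k * L := mul_le_mul_of_nonneg_right hl1 hL.le
      have h8 := mul_le_mul_of_nonneg_left h7 (sq_nonneg τ)
      have h10 : τ ^ 2 * η * (k * L) ≤ η₁ / 2 * (k * L) :=
        mul_le_mul_of_nonneg_right hηa (by positivity)
      linarith only [h8, h10]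
    have h7 : c * (k * L) ≤ η₁ / 2 * (k * L) := mul_le_mul_of_nonneg_right hca (by positivity)
    linarith only [h5, h6, h7]
  have hP2 : P.real {ω | a / (2 * C₁) ≤ ZA P X τ ε₁ n n' m k z ω} ≤
      2 * C₁ * C₀ * 2 ^ (-(c * k)) := by
    have h1 := mul_meas_ge_le_integral_of_nonneg (μ := P)
      (f := fun ω => ZA P X τ ε₁ n n' m k z ω)
      (Filter.Eventually.of_forall fun ω => hZ0 ω) hZi (a / (2 * C₁))
    have h2 := h1.trans hZe
    have h3 : P.real {ω | a / (2 * C₁) ≤ ZA P X τ ε₁ n n' m k z ω} ≤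
        C₀ * Real.exp (-(c₀ * k)) * (2 * C₁ / a) := by
      have h4 : P.real {ω | a / (2 * C₁) ≤ ZA P X τ ε₁ n n' m k z ω} =
          (a / (2 * C₁) * P.real {ω | a / (2 * C₁) ≤ ZA P X τ ε₁ n n' m k z ω}) *
            (2 * C₁ / a) := by
        field_simp
      rw [h4]
      exact mul_le_mul_of_nonneg_right h2 (by positivity)
    refine h3.trans ?_
    have h5 : C₀ * Real.exp (-(c₀ * k)) * (2 * C₁ / a) =
        2 * C₁ * C₀ * Real.exp (-(c₀ * k) + η₁ * L * k) := by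
      have h6 : 2 * C₁ / a = 2 * C₁ * Real.exp (η₁ * L * k) := by
        rw [ha, div_eq_mul_inv, ← Real.exp_neg]
        congr 2
        ring
      rw [Real.exp_add, h6]
      ring
    rw [h5, h2e]
    refine mul_le_mul_of_nonneg_left (Real.exp_le_exp.2 ?_) (by positivity)
    have h6 : η₁ * L * k ≤ c₀ / 2 * k := mul_le_mul_of_nonneg_right hη₁b hk0
    have h7 : c * L * k ≤ c₀ / 2 * k := mul_le_mul_of_nonneg_right hcb hk0
    linarith only [h6, h7]
  have hU1 := measureReal_mono hsub (measure_ne_top P _)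
  have hU2 := measureReal_union_le (μ := P) (Osc X n n' (m + k) 3)
    ({ω | TT P X τ n n' (cb m z) ω * 2 ^ (d * m) < a} ∪
        {ω | a / (2 * C₁) ≤ ZA P X τ ε₁ n n' m k z ω})
  have hU3 := measureReal_union_le (μ := P) {ω | TT P X τ n n' (cb m z) ω * 2 ^ (d * m) < a}
        {ω | a / (2 * C₁) ≤ ZA P X τ ε₁ n n' m k z ω}
  have h2c : (0 : ℝ) < 2 ^ (c * k₀) * 2 ^ (-(c * k)) := by positivity
  linarith only [hU1, hU2, hU3, hP1, hP2, h2c]

end Pool.Agent.MChaos
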