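import Pool.Agent.Lib_MP_a91488.WKA

/-!
# Piece IDN: independence of the maps used in the comparison
-/

set_option autoImplicit false

open MeasureTheory ProbabilityTheory

namespace Pool.Agent.MChaos

/-- indices: frozen fields `n ≤ k < n'`, and one copy of the fields `n' ≤ k < N` for each cell -/
abbrev Kp (n n' N : ℕ) (C : Type) : Type := ↥(Finset.Ico n n') ⊕ (↥(Finset.Ico n' N) × C)

/-- the number of the field -/
def kx {n n' N : ℕ} {C : Type} (k : Kp n n' N C) : ℕ := Sum.elim (fun j : ↥(Finset.Ico n n') => (j : ℕ)) (fun j : ↥(Finset.Ico n' N) × C => (j.1 : ℕ)) k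

/-- the copy which is used -/
def kg {Ω : Type} {n n' N : ℕ} {C : Type} (k : Kp n n' N C) (ω : Ω × (C → Ω)) : Ω := Sum.elim (fun _ : ↥(Finset.Ico n n') => ω.1) (fun j : ↥(Finset.Ico n' N) × C => ω.2 j.2) k

/-- the coordinates -/
private def idnZ {Ω : Type} {C : Type} (o : Option C) (ω : Ω × (C → Ω)) : Ω :=
  match o with
  | none => ω.1
  | some c => ω.2 c

private theorem idnZ_meas {Ω : Type} [MeasurableSpace Ω] {C : Type} (o : Option C) :
    Measurable (idnZ o : Ω × (C → Ω) → Ω) := by
  cases o with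
  | none => exact measurable_fst
  | some c => exact (measurable_pi_apply c).comp measurable_snd

private theorem idnZ_map {Ω : Type} [MeasurableSpace Ω] (P : Measure Ω) [IsProbabilityMeasure P]
    {C : Type} [Fintype C] (o : Option C) :
    Measure.map (idnZ o) (P.prod (Measure.pi fun _ : C => P)) = P := by
  cases o with
  | none =>
    have : (idnZ none : Ω × (C → Ω) → Ω) = Prod.fst := rfl
    rw [this, Measure.map_fst_prod, measure_univ, one_smul]
  | some c =>
    have : (idnZ (some c) : Ω × (C → Ω) → Ω) = (fun f => f c) ∘ Prod.snd := rfl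
    rw [this, ← Measure.map_map (measurable_pi_apply c) measurable_snd, Measure.map_snd_prod,
      measure_univ, one_smul]
    exact (measurePreserving_eval (fun _ : C => P) c).map_eq

private theorem idnZ_indep {Ω : Type} [MeasurableSpace Ω] (P : Measure Ω)
    [IsProbabilityMeasure P] {C : Type} [Fintype C] :
    iIndepFun (fun o : Option C => (idnZ o : Ω × (C → Ω) → Ω))
      (P.prod (Measure.pi fun _ : C => P)) := by
  rw [iIndepFun_iff_map_fun_eq_pi_map (fun o => (idnZ_meas o).aemeasurable)]
  have h1 : (fun o : Option C => Measure.map (idnZ o) (P.prod (Measure.pi fun _ : C => P))) =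
      fun _ => P := funext fun o => idnZ_map P o
  rw [h1]
  symm
  refine Measure.pi_eq fun s hs => ?_
  rw [Measure.map_apply (measurable_pi_lambda _ fun o => idnZ_meas o)
    (MeasurableSet.univ_pi hs)]
  have h2 : (fun (ω : Ω × (C → Ω)) (o : Option C) => idnZ o ω) ⁻¹' Set.univ.pi s =
      s none ×ˢ Set.univ.pi (fun c => s (some c)) := by
    ext ω
    simp only [Set.mem_preimage, Set.mem_univ_pi, Set.mem_prod]
    constructor
    · intro h
      exact ⟨h none, fun c => h (some c)⟩
    · rintro ⟨h3, h4⟩ o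
      cases o with
      | none => exact h3
      | some c => exact h4 c
  rw [h2, Measure.prod_prod, Measure.pi_pi, Fintype.prod_option]

private theorem idn_gen {Ω : Type} [MeasurableSpace Ω] (P : Measure Ω) [IsProbabilityMeasure P]
    {C : Type} [Fintype C] {β : ℕ → Type} [∀ k, MeasurableSpace (β k)] (f : ∀ k, Ω → β k)
    (hf : ∀ k, Measurable (f k)) (hi : iIndepFun f P) :
    iIndepFun (fun (p : Option C × ℕ) (ω : Ω × (C → Ω)) => f p.2 (idnZ p.1 ω))
      (P.prod (Measure.pi fun _ : C => P)) := by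
  refine iIndepFun_uncurry' (X := fun (o : Option C) (k : ℕ) (ω : Ω × (C → Ω)) => f k (idnZ o ω))
    (fun o k => (hf k).comp (idnZ_meas o)) ?_ ?_
  · exact (idnZ_indep P).comp (fun _ ω k => f k ω) (fun _ => measurable_pi_lambda _ hf)
  · intro o
    have hfo : ∀ k, Measurable (fun ω : Ω × (C → Ω) => f k (idnZ o ω)) :=
      fun k => (hf k).comp (idnZ_meas o)
    rw [iIndepFun_iff_map_fun_eq_infinitePi_map hfo]
    have h1 : (fun (ω : Ω × (C → Ω)) (k : ℕ) => f k (idnZ o ω)) = (fun ω k => f k ω) ∘ idnZ o := rfl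
    rw [h1, ← Measure.map_map (measurable_pi_lambda _ hf) (idnZ_meas o), idnZ_map,
      (iIndepFun_iff_map_fun_eq_infinitePi_map hf).1 hi]
    congr 1
    funext k
    have h2 : (fun (ω : Ω × (C → Ω)) => f k (idnZ o ω)) = f k ∘ idnZ o := rfl
    rw [h2, ← Measure.map_map (hf k) (idnZ_meas o), idnZ_map]

/-- the cell -/
private def kz {n n' N : ℕ} {C : Type} (k : Kp n n' N C) : Option C :=
  Sum.elim (fun _ => none) (fun j => some j.2) k

private theorem kg_eq {Ω : Type} {n n' N : ℕ} {C : Type} (k : Kp n n' N C) (ω : Ω × (C → Ω)) :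
    kg k ω = idnZ (kz k) ω := by
  rcases k with k | k <;> rfl

private theorem kzx_inj {n n' N : ℕ} {C : Type} :
    Function.Injective (fun k : Kp n n' N C => (kz k, kx k)) := by
  rintro (a | a) (b | b) h
  · have h2 : (a : ℕ) = b := (Prod.ext_iff.1 h).2
    exact congrArg Sum.inl (Subtype.ext h2)
  · have h1 : (none : Option C) = some b.2 := (Prod.ext_iff.1 h).1
    cases h1
  · have h1 : some a.2 = (none : Option C) := (Prod.ext_iff.1 h).1
    cases h1
  · have h1 : some a.2 = some b.2 := (Prod.ext_iff.1 h).1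
    have h2 : (a.1 : ℕ) = b.1 := (Prod.ext_iff.1 h).2
    exact congrArg Sum.inr (Prod.ext (Subtype.ext h2) (Option.some.inj h1))

private theorem idn_SP {d : ℕ} {Ω : Type} [MeasurableSpace Ω] {P : Measure Ω}
    {X : ℕ → Ω → E d → ℝ} (hX : CP d P X) :
    iIndepFun (β := fun k : ℕ => SP X k) (fun _ (ω : Ω) => ω) P := by
  have h := hX.indep
  rw [iIndepFun_iff_iIndep] at h ⊢
  have h1 : (fun k : ℕ => MeasurableSpace.comap (fun ω : Ω => (ω : SP X k))
      (inferInstance : MeasurableSpace (SP X k))) =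
      fun k : ℕ => MeasurableSpace.comap (fun (ω : Ω) (x : E d) => X k ω x)
        MeasurableSpace.pi := by
    funext k
    exact MeasurableSpace.comap_id
  exact h1 ▸ h

variable {d : ℕ} {Ω : Type} [MeasurableSpace Ω] {P : Measure Ω} [IsProbabilityMeasure P] {X : ℕ → Ω → E d → ℝ}

/-- `iIndepFun` is independence of the comap sigma algebras, `hX.indep`, restricted to the indices of `Ico n N` -/
theorem idn_A (hX : CP d P X) (n N : ℕ) :
    iIndepFun (β := fun k : ↥(Finset.Ico n N) => SP X (k : ℕ)) (fun _ (ω : Ω) => ω) P := by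
  exact (idn_SP hX).precomp (g := fun k : ↥(Finset.Ico n N) => (k : ℕ)) Subtype.val_injective

/-- one frozen copy (`n ≤ k < n'`) and one copy for every cell (`n' ≤ k < N`): the family indexed by `Kp` is independent.
`iIndepFun_uncurry'` / `iIndepFun_uncurry` for the coordinates `Option C → Ω` (`iIndepFun_pi`), restriction to a set of indices, and `Ω × (C → Ω) ≃ (Option C → Ω)`; or directly with the product measure of rectangles -/
theorem idn_B (hX : CP d P X) (n n' N : ℕ) (C : Type) [Fintype C] [DecidableEq C] :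
    iIndepFun (β := fun k : Kp n n' N C => SP X (kx k)) (fun k (ω : Ω × (C → Ω)) => (kg k ω : Ω)) (P.prod (Measure.pi fun _ : C => P)) := by
  have h := idn_gen P (C := C) (β := fun k => SP X k) (fun _ (ω : Ω) => ω) (fun k => meas_SP hX k)
    (idn_SP hX)
  have h2 := h.precomp (g := fun k : Kp n n' N C => (kz k, kx k)) kzx_inj
  have h3 : (fun (k : Kp n n' N C) (ω : Ω × (C → Ω)) => ((kg k ω : Ω) : SP X (kx k))) =
      fun k ω => ((idnZ (kz k) ω : Ω) : SP X (kx k)) := by
    funext k ω
    exact kg_eq k ω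
  exact h3 ▸ h2

/-- the image measures and measurability -/
theorem idn_map (hX : CP d P X) (n n' N : ℕ) (C : Type) [Fintype C] [DecidableEq C] (k : Kp n n' N C) :
    @Measurable (Ω × (C → Ω)) (SP X (kx k)) _ _ (fun ω => (kg k ω : Ω)) ∧
      @Measure.map (Ω × (C → Ω)) (SP X (kx k)) _ _ (fun ω => (kg k ω : Ω)) (P.prod (Measure.pi fun _ : C => P)) = PP P X (kx k) := by
  have h3 : (fun (ω : Ω × (C → Ω)) => ((kg k ω : Ω) : SP X (kx k))) =
      (fun ω : Ω => (ω : SP X (kx k))) ∘ idnZ (kz k) := by
    funext ω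
    exact kg_eq k ω
  have hm : @Measurable Ω (SP X (kx k)) _ _ (fun ω => ω) := meas_SP hX (kx k)
  constructor
  · exact h3 ▸ hm.comp (idnZ_meas (kz k))
  · have h4 : @Measure.map (Ω × (C → Ω)) (SP X (kx k)) _ _
        ((fun ω : Ω => (ω : SP X (kx k))) ∘ idnZ (kz k)) (P.prod (Measure.pi fun _ : C => P)) =
        PP P X (kx k) := by
      rw [← Measure.map_map hm (idnZ_meas (kz k)), idnZ_map]
      rfl
    exact h3 ▸ h4

end Pool.Agent.MChaos
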