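import Pool.Agent.Lib_MP_a91488.INTA

/-!
# Piece PUSH: `phi` as an integral over a probability space which carries independent maps
-/

set_option autoImplicit false

open MeasureTheory ProbabilityTheory

namespace Pool.Agent.MChaos

/-- `iIndepFun_iff_map_fun_eq_pi_map`: the image of `P₀` under `ω ↦ (k ↦ g k ω)` is `Measure.pi R`; then `integral_map` (`mass_meas`) -/
theorem phi_push {κ : Type} [Fintype κ] [DecidableEq κ] {Θ : κ → Type} [∀ k, MeasurableSpace (Θ k)] (R : ∀ k, Measure (Θ k)) [∀ k, IsProbabilityMeasure (R k)]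
    {Ω₀ : Type} [MeasurableSpace Ω₀] (P₀ : Measure Ω₀) [IsProbabilityMeasure P₀] (g : ∀ k, Ω₀ → Θ k) (hg : ∀ k, Measurable (g k)) (hi : iIndepFun g P₀)
    (hR : ∀ k, P₀.map (g k) = R k) {D : Type} [MeasurableSpace D] (m : Measure D) [IsFiniteMeasure m]
    (v : ∀ k, Θ k → D → ℝ) (b : κ → D → ℝ) (s : ℝ) (M : ℝ → ℝ) (hv : ∀ k, Wt (R k) (v k) (b k) s M) (q : ℝ) :
    phi R m v q Finset.univ = ∫ ω, (∫ x, ∏ k, v k (g k ω) x ∂m) ^ q ∂P₀ := by
  have h1 : Measure.map (fun ω k => g k ω) P₀ = Measure.pi R := by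
    have h2 := (iIndepFun_iff_map_fun_eq_pi_map (fun k => (hg k).aemeasurable)).1 hi
    rw [h2]
    congr 1
    funext k
    exact hR k
  have hm : Measurable (fun ω : ∀ k, Θ k => mass m v Finset.univ ω ^ q) :=
    (mass_meas hv Finset.univ).pow_const q
  unfold phi
  rw [← h1, integral_map (measurable_pi_lambda _ hg).aemeasurable hm.aestronglyMeasurable]
  rfl

end Pool.Agent.MChaos
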