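import Pool.Agent.Lib_MP_a91488.COVS
import Pool.Agent.Lib_MP_a91488.IDN
import Pool.Agent.Lib_MP_a91488.PUSH

/-!
# Piece TTI: the masses `TT`
-/

set_option autoImplicit false

open MeasureTheory ProbabilityTheory

namespace Pool.Agent.MChaos

variable {d : ℕ} {Ω : Type} [MeasurableSpace Ω] {P : Measure Ω} [IsProbabilityMeasure P] {X : ℕ → Ω → E d → ℝ}

private theorem ttU (hX : CP d P X) (γ : ℝ) (n N : ℕ) :
    Measurable (fun p : Ω × E d => ∏ k ∈ Finset.Ico n N, wt P X γ k p.1 p.2) :=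
  Finset.measurable_fun_prod _ fun k _ => wt_unc hX γ k

private theorem ttX (hX : CP d P X) (γ : ℝ) (n N : ℕ) (ω : Ω) :
    Measurable (fun x : E d => ∏ k ∈ Finset.Ico n N, wt P X γ k ω x) :=
  (ttU hX γ n N).comp (measurable_const.prodMk measurable_id)

private theorem ttP (hX : CP d P X) (γ : ℝ) (n N : ℕ) (ω : Ω) (x : E d) :
    0 < ∏ k ∈ Finset.Ico n N, wt P X γ k ω x :=
  Finset.prod_pos fun k _ => wt_pos hX γ k ω x

private theorem ttB (hX : CP d P X) (γ : ℝ) (n N : ℕ) (ω : Ω) :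
    ∃ B : ℝ, ∀ x, ∏ k ∈ Finset.Ico n N, wt P X γ k ω x ≤ B := by
  choose B hB using fun k => wt_bdd hX γ k ω
  exact ⟨∏ k ∈ Finset.Ico n N, B k, fun x =>
    Finset.prod_le_prod (fun k _ => (wt_pos hX γ k ω x).le) fun k _ => hB k x⟩

/-- the integrand is measurable and bounded -/
theorem tt_integrable (hX : CP d P X) (γ : ℝ) (n N : ℕ) (ω : Ω) (A : Set (E d)) (hv : volume A ≠ ⊤) :
    IntegrableOn (fun x => ∏ k ∈ Finset.Ico n N, wt P X γ k ω x) A := by
  obtain ⟨B, hB⟩ := ttB hX γ n N ω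
  have : IsFiniteMeasure (volume.restrict A) := ⟨by simpa using lt_top_iff_ne_top.mpr hv⟩
  refine Integrable.of_bound (ttX hX γ n N ω).aestronglyMeasurable B ?_
  filter_upwards with x
  rw [Real.norm_of_nonneg (ttP hX γ n N ω x).le]
  exact hB x

theorem tt_meas (hX : CP d P X) (γ : ℝ) (n N : ℕ) (A : Set (E d)) (hv : volume A ≠ ⊤) : Measurable (TT P X γ n N A) := by
  have : IsFiniteMeasure (volume.restrict A) := ⟨by simpa using lt_top_iff_ne_top.mpr hv⟩
  have h : StronglyMeasurable (fun ω => ∫ x, ∏ k ∈ Finset.Ico n N, wt P X γ k ω x ∂(volume.restrict A)) :=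
    StronglyMeasurable.integral_prod_right (ν := volume.restrict A)
      (f := fun ω x => ∏ k ∈ Finset.Ico n N, wt P X γ k ω x) (ttU hX γ n N).stronglyMeasurable
  exact h.measurable

theorem tt_pos (hX : CP d P X) (γ : ℝ) (n N : ℕ) (ω : Ω) (A : Set (E d)) (hA : MeasurableSet A) (hv : volume A ≠ ⊤) (h0 : volume A ≠ 0) : 0 < TT P X γ n N A ω := by
  unfold TT
  have h := (integral_pos_iff_support_of_nonneg (μ := volume.restrict A)
    (f := fun x => ∏ k ∈ Finset.Ico n N, wt P X γ k ω x)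
    (fun x => (ttP hX γ n N ω x).le) (tt_integrable hX γ n N ω A hv))
  rw [h]
  have h1 : Function.support (fun x => ∏ k ∈ Finset.Ico n N, wt P X γ k ω x) = Set.univ := by
    ext x
    simp only [Function.mem_support, Set.mem_univ, iff_true]
    exact (ttP hX γ n N ω x).ne'
  rw [h1, Measure.restrict_apply_univ]
  exact pos_iff_ne_zero.mpr h0

theorem tt_nonneg (hX : CP d P X) (γ : ℝ) (n N : ℕ) (ω : Ω) (A : Set (E d)) : 0 ≤ TT P X γ n N A ω :=
  integral_nonneg fun x => (ttP hX γ n N ω x).le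

theorem tt_mono (hX : CP d P X) (γ : ℝ) (n N : ℕ) (ω : Ω) (A B : Set (E d)) (hAB : A ⊆ B) (hv : volume B ≠ ⊤) : TT P X γ n N A ω ≤ TT P X γ n N B ω :=
  setIntegral_mono_set (tt_integrable hX γ n N ω B hv)
    (Filter.Eventually.of_forall fun x => (ttP hX γ n N ω x).le) hAB.eventuallyLE

/-- joint integrability -/
private theorem ttI (hX : CP d P X) (γ : ℝ) (n N : ℕ) (A : Set (E d)) (hv : volume A ≠ ⊤) :
    Integrable (Function.uncurry fun ω x => ∏ k ∈ Finset.Ico n N, wt P X γ k ω x)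
      (P.prod (volume.restrict A)) := by
  have : IsFiniteMeasure (volume.restrict A) := ⟨by simpa using lt_top_iff_ne_top.mpr hv⟩
  have hm : Measurable (Function.uncurry fun ω x => ∏ k ∈ Finset.Ico n N, wt P X γ k ω x) :=
    ttU hX γ n N
  have hx : ∀ x : E d, Integrable (fun ω => ∏ k ∈ Finset.Ico n N, wt P X γ k ω x) P := by
    intro x
    by_contra h
    have h1 := prod_wt_mean hX γ n N x
    rw [integral_undef h] at h1
    exact zero_ne_one h1
  rw [integrable_prod_iff' hm.aestronglyMeasurable]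
  refine ⟨Filter.Eventually.of_forall fun x => hx x, ?_⟩
  have : (fun y => ∫ x, ‖Function.uncurry (fun ω x => ∏ k ∈ Finset.Ico n N, wt P X γ k ω x) (x, y)‖ ∂P)
      = fun _ => (1 : ℝ) := by
    funext x
    rw [← prod_wt_mean hX γ n N x]
    refine integral_congr_ae (Filter.Eventually.of_forall fun ω => ?_)
    exact Real.norm_of_nonneg (ttP hX γ n N ω x).le
  rw [this]
  exact integrable_const _

/-- the expectation: Fubini and `prod_wt_mean` -/
theorem tt_mean (hX : CP d P X) (γ : ℝ) (n N : ℕ) (A : Set (E d)) (hA : MeasurableSet A) (hv : volume A ≠ ⊤) :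
    Integrable (TT P X γ n N A) P ∧ ∫ ω, TT P X γ n N A ω ∂P = (volume A).toReal := by
  have : IsFiniteMeasure (volume.restrict A) := ⟨by simpa using lt_top_iff_ne_top.mpr hv⟩
  have hI := ttI hX γ n N A hv
  refine ⟨hI.integral_prod_left, ?_⟩
  have h := integral_integral_swap (f := fun ω x => ∏ k ∈ Finset.Ico n N, wt P X γ k ω x) hI
  unfold TT
  rw [h]
  simp only [prod_wt_mean hX γ n N]
  simp [Measure.real]

/-- all powers are integrable: `phi_push` (its proof) with `mass_mom`, or Jensen directly -/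
theorem tt_pow (hX : CP d P X) (γ q : ℝ) (n N : ℕ) (A : Set (E d)) (hA : MeasurableSet A) (hv : volume A ≠ ⊤) (h0 : volume A ≠ 0) :
    Integrable (fun ω => TT P X γ n N A ω ^ q) P := by
  have : IsFiniteMeasure (volume.restrict A) := ⟨by simpa using lt_top_iff_ne_top.mpr hv⟩
  obtain ⟨s, M, b, C, hs, hM, hW, -, -⟩ := wt_Wt hX γ
  have : ∀ k, IsProbabilityMeasure (PP P X k) := PP_prob hX
  have hm0 : volume.restrict A ≠ 0 := by
    intro h
    have := congrArg (fun μ => μ Set.univ) h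
    simp at this
    exact h0 this
  have hmom := mass_mom (P := fun k : ↥(Finset.Ico n N) => PP P X (k : ℕ)) (m := volume.restrict A)
    (w := fun k : ↥(Finset.Ico n N) => wS P X γ (k : ℕ)) (a := fun k => b (k : ℕ)) (s := s) (M := M)
    (fun k => hW k) hm0 Finset.univ q
  have hind := idn_A hX n N
  have hmeas : ∀ k : ↥(Finset.Ico n N), @Measurable Ω (SP X (k : ℕ)) _ _ (fun ω => ω) :=
    fun k => meas_SP hX k
  have hmap := (iIndepFun_iff_map_fun_eq_pi_map (β := fun k : ↥(Finset.Ico n N) => SP X (k : ℕ))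
    (f := fun _ (ω : Ω) => ω) (μ := P) (fun k => (hmeas k).aemeasurable)).mp hind
  let G : Ω → ∀ k : ↥(Finset.Ico n N), SP X (k : ℕ) := fun ω _ => ω
  have hmap' : P.map G = Measure.pi (fun k : ↥(Finset.Ico n N) => PP P X (k : ℕ)) := hmap
  rw [← hmap'] at hmom
  have hmm : Measurable G := measurable_pi_lambda _ fun k => hmeas k
  have hfin := hmom.comp_measurable hmm
  refine hfin.congr (Filter.Eventually.of_forall fun ω => ?_)
  show mass (volume.restrict A) (fun k : ↥(Finset.Ico n N) => wS P X γ (k : ℕ)) Finset.univ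
    (fun k => (ω : SP X (k : ℕ))) ^ q = TT P X γ n N A ω ^ q
  congr 1
  unfold mass TT fC
  congr 1
  funext x
  exact Finset.prod_coe_sort (Finset.Ico n N) (fun k => wt P X γ k ω x)

/-- disjoint unions -/
theorem tt_union (hX : CP d P X) (γ : ℝ) (n N : ℕ) (ω : Ω) (Cs : Finset (V d)) (A : V d → Set (E d)) (hA : ∀ c ∈ Cs, MeasurableSet (A c)) (hv : ∀ c ∈ Cs, volume (A c) ≠ ⊤)
    (hd : ∀ c ∈ Cs, ∀ c' ∈ Cs, c ≠ c' → volume (A c ∩ A c') = 0) :
    TT P X γ n N (⋃ c ∈ Cs, A c) ω = ∑ c ∈ Cs, TT P X γ n N (A c) ω := by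
  classical
  induction Cs using Finset.induction_on with
  | empty => simp [TT]
  | insert a s ha ih =>
    have ih' := ih (fun c hc => hA c (Finset.mem_insert_of_mem hc))
      (fun c hc => hv c (Finset.mem_insert_of_mem hc))
      (fun c hc c' hc' => hd c (Finset.mem_insert_of_mem hc) c' (Finset.mem_insert_of_mem hc'))
    rw [Finset.sum_insert ha, ← ih', Finset.set_biUnion_insert]
    unfold TT
    refine setIntegral_union₀ ?_ ?_ ?_ ?_
    · show volume (A a ∩ ⋃ c ∈ s, A c) = 0
      have h3 : volume (⋃ i ∈ (↑s : Set (V d)), A a ∩ A i) = 0 := by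
        refine (measure_biUnion_null_iff s.countable_toSet).mpr ?_
        intro c hc
        refine hd a (Finset.mem_insert_self _ _) c (Finset.mem_insert_of_mem hc) ?_
        rintro rfl
        exact ha hc
      rw [Set.inter_iUnion₂]
      exact h3
    · exact (Finset.measurableSet_biUnion _ fun c hc => hA c (Finset.mem_insert_of_mem hc)).nullMeasurableSet
    · exact tt_integrable hX γ n N ω _ (hv a (Finset.mem_insert_self _ _))
    · refine tt_integrable hX γ n N ω _ ?_
      have h1 : volume (⋃ c ∈ s, A c) ≤ ∑ c ∈ s, volume (A c) := measure_biUnion_finset_le _ _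
      have h2 : ∑ c ∈ s, volume (A c) < ⊤ :=
        ENNReal.sum_lt_top.mpr fun c hc => lt_top_iff_ne_top.mpr (hv c (Finset.mem_insert_of_mem hc))
      exact (h1.trans_lt h2).ne

end Pool.Agent.MChaos
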