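import Pool.Agent.Lib_MP_a91488.GEO
import Pool.Agent.Lib_MP_a91488.TTI

/-!
# Piece DYA: decomposition of dyadic cubes, parity classes
-/

set_option autoImplicit false

open MeasureTheory Metric

namespace Pool.Agent.MChaos

/-- parity vectors -/
def Par (d : ℕ) : Finset (V d) := Fintype.piFinset (fun _ => Finset.range 2)

variable {d : ℕ}

theorem Par_card : (Par d).card = 2 ^ d := by
  simp [Par]

theorem sum_par (j : ℕ) (z : V d) (f : V d → ℝ) : ∑ c ∈ Chd j z, f c = ∑ e ∈ Par d, ∑ c ∈ Chp j z e, f c := by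
  have h := Finset.sum_fiberwise_of_maps_to (s := Chd j z) (t := Par d)
    (g := fun c : V d => fun i => c i % 2) (fun c _ => by
      rw [Par, Fintype.mem_piFinset]
      intro i
      exact Finset.mem_range.2 (Nat.mod_lt _ (by norm_num))) f
  rw [← h]
  refine Finset.sum_congr rfl fun e _ => ?_
  refine Finset.sum_congr ?_ fun _ _ => rfl
  ext c
  simp only [Chp, Finset.mem_filter, funext_iff]

theorem par_ico (j a e : ℕ) (hj : 0 < j) (he : e < 2) :
    ((Finset.Ico (2 ^ j * a) (2 ^ j * (a + 1))).filter fun c => c % 2 = e).card = 2 ^ (j - 1) := by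
  obtain ⟨k, rfl⟩ : ∃ k, j = k + 1 := ⟨j - 1, by omega⟩
  have h : ((Finset.Ico (2 ^ (k + 1) * a) (2 ^ (k + 1) * (a + 1))).filter fun c => c % 2 = e) =
      (Finset.Ico (2 ^ k * a) (2 ^ k * (a + 1))).image fun c => 2 * c + e := by
    ext c
    simp only [Finset.mem_filter, Finset.mem_Ico, Finset.mem_image]
    have e1 : 2 ^ (k + 1) * a = 2 * (2 ^ k * a) := by ring
    have e2 : 2 ^ (k + 1) * (a + 1) = 2 * (2 ^ k * (a + 1)) := by ring
    rw [e1, e2]
    constructor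
    · rintro ⟨⟨h1, h2⟩, h3⟩
      exact ⟨c / 2, ⟨by omega, by omega⟩, by omega⟩
    · rintro ⟨b, ⟨h1, h2⟩, rfl⟩
      exact ⟨⟨by omega, by omega⟩, by omega⟩
  have hinj : Function.Injective fun c : ℕ => 2 * c + e := fun x y hxy => by
    have h1 : 2 * x + e = 2 * y + e := hxy
    omega
  have h2 : 2 ^ k * (a + 1) = 2 ^ k * a + 2 ^ k := by ring
  rw [h, Finset.card_image_of_injective _ hinj, Nat.card_Ico, h2, Nat.add_sub_cancel_left,
    Nat.add_sub_cancel]

/-- the length of the interval is `2 ^ j`, half of the integers have the given parity -/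
theorem Chp_card (j : ℕ) (hj : 0 < j) (z e : V d) (he : e ∈ Par d) : (Chp j z e).card = 2 ^ (d * (j - 1)) := by
  have h : Chp j z e = Fintype.piFinset fun i =>
      (Finset.Ico (2 ^ j * z i) (2 ^ j * (z i + 1))).filter fun c => c % 2 = e i := by
    ext c
    simp only [Chp, Chd, Finset.mem_filter, Fintype.mem_piFinset]
    exact ⟨fun h i => ⟨h.1 i, h.2 i⟩, fun h => ⟨fun i => (h i).1, fun i => (h i).2⟩⟩
  rw [h, Fintype.card_piFinset]
  rw [Finset.prod_congr rfl fun i _ => par_ico j (z i) (e i) hj (by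
    have := Fintype.mem_piFinset.1 he i
    exact Finset.mem_range.1 this)]
  rw [Finset.prod_const, Finset.card_univ, Fintype.card_fin, ← pow_mul, mul_comm]

/-- two different cubes with the same parities: some coordinate of the indices differs by at least `2` -/
theorem Chp_sep (m j : ℕ) (z e c c' : V d) (hc : c ∈ Chp j z e) (hc' : c' ∈ Chp j z e) (hn : c ≠ c') (x y : E d) (hx : x ∈ cb (m + j) c) (hy : y ∈ cb (m + j) c') :
    1 / 2 ^ (m + j) ≤ ‖x - y‖ := by
  obtain ⟨i, hi⟩ := Function.ne_iff.1 hn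
  have h1 : c i % 2 = c' i % 2 := by
    rw [(Finset.mem_filter.1 hc).2 i, (Finset.mem_filter.1 hc').2 i]
  have h2 : ‖(x - y) i‖ ≤ ‖x - y‖ := PiLp.norm_apply_le (x - y) i
  refine le_trans ?_ h2
  have hp : (0 : ℝ) < 2 ^ (m + j) := by positivity
  obtain ⟨hx1, hx2⟩ := hx i
  obtain ⟨hy1, hy2⟩ := hy i
  rw [PiLp.sub_apply, Real.norm_eq_abs]
  rcases lt_or_gt_of_ne hi with h | h
  · have h3 : c i + 2 ≤ c' i := by omega
    have h4 : (c i : ℝ) + 2 ≤ c' i := by exact_mod_cast h3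
    rw [abs_sub_comm]
    refine le_trans ?_ (le_abs_self _)
    have h5 : ((c i : ℝ) + 1) / 2 ^ (m + j) + 1 / 2 ^ (m + j) ≤ (c' i : ℝ) / 2 ^ (m + j) := by
      rw [← add_div]
      exact div_le_div_of_nonneg_right (by linarith) hp.le
    linarith
  · have h3 : c' i + 2 ≤ c i := by omega
    have h4 : (c' i : ℝ) + 2 ≤ c i := by exact_mod_cast h3
    refine le_trans ?_ (le_abs_self _)
    have h5 : ((c' i : ℝ) + 1) / 2 ^ (m + j) + 1 / 2 ^ (m + j) ≤ (c i : ℝ) / 2 ^ (m + j) := by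
      rw [← add_div]
      exact div_le_div_of_nonneg_right (by linarith) hp.le
    linarith

theorem child_ico (m j z : ℕ) (t : ℝ) (h1 : (z : ℝ) / 2 ^ m ≤ t) (h2 : t ≤ ((z : ℝ) + 1) / 2 ^ m) :
    ∃ c ∈ Finset.Ico (2 ^ j * z) (2 ^ j * (z + 1)),
      (c : ℝ) / 2 ^ (m + j) ≤ t ∧ t ≤ ((c : ℝ) + 1) / 2 ^ (m + j) := by
  have hm : (0 : ℝ) < 2 ^ m := by positivity
  have hj : (0 : ℝ) < 2 ^ j := by positivity
  have hp : (0 : ℝ) < 2 ^ (m + j) := by positivity
  rw [div_le_iff₀ hm] at h1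
  rw [le_div_iff₀ hm] at h2
  have e1 : ((2 ^ j * z : ℕ) : ℝ) ≤ t * 2 ^ (m + j) := by
    push_cast
    rw [pow_add]
    nlinarith [mul_le_mul_of_nonneg_left h1 hj.le]
  have e2 : t * 2 ^ (m + j) ≤ ((2 ^ j * (z + 1) : ℕ) : ℝ) := by
    push_cast
    rw [pow_add]
    nlinarith [mul_le_mul_of_nonneg_left h2 hj.le]
  have hs0 : 0 ≤ t * 2 ^ (m + j) := le_trans (Nat.cast_nonneg _) e1
  by_cases h : t * 2 ^ (m + j) < ((2 ^ j * (z + 1) : ℕ) : ℝ)
  · refine ⟨⌊t * 2 ^ (m + j)⌋₊, Finset.mem_Ico.2 ⟨Nat.le_floor e1, (Nat.floor_lt hs0).2 h⟩, ?_, ?_⟩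
    · rw [div_le_iff₀ hp]
      exact Nat.floor_le hs0
    · rw [le_div_iff₀ hp]
      exact (Nat.lt_floor_add_one _).le
  · push Not at h
    have e3 := le_antisymm e2 h
    have hpos : 0 < 2 ^ j * (z + 1) := by positivity
    have hjn : 0 < 2 ^ j := by positivity
    refine ⟨2 ^ j * (z + 1) - 1, Finset.mem_Ico.2 ⟨?_, by omega⟩, ?_, ?_⟩
    · have : 2 ^ j * (z + 1) = 2 ^ j * z + 2 ^ j := by ring
      omega
    · rw [div_le_iff₀ hp, e3, Nat.cast_sub hpos]
      simp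
    · rw [le_div_iff₀ hp, e3, Nat.cast_sub hpos]
      simp

theorem cb_union (m j : ℕ) (z : V d) : ⋃ c ∈ Chd j z, cb (m + j) c = cb m z := by
  refine Set.Subset.antisymm (Set.iUnion₂_subset fun c hc => Chd_sub m j z c hc) fun x hx => ?_
  choose c hc hc1 hc2 using fun i => child_ico m j (z i) (x i) (hx i).1 (hx i).2
  exact Set.mem_iUnion₂.2 ⟨c, Fintype.mem_piFinset.2 hc, fun i => ⟨hc1 i, hc2 i⟩⟩

theorem hyper_null (i : Fin d) (a : ℝ) : volume {x : E d | x i = a} = 0 := by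
  have h := (PiLp.volume_preserving_ofLp (Fin d)).measure_preimage
    (s := {f : Fin d → ℝ | f i = a})
    ((measurableSet_eq_fun (measurable_pi_apply i) measurable_const).nullMeasurableSet)
  have h2 : (volume : Measure (Fin d → ℝ)) {f : Fin d → ℝ | f i = a} = 0 := by
    rw [volume_pi]
    exact Measure.pi_hyperplane (α := fun _ => ℝ) (fun _ => volume) i a
  rw [h2] at h
  exact h

theorem cb_inter_null (m : ℕ) (c c' : V d) (hn : c ≠ c') : volume (cb m c ∩ cb m c') = 0 := by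
  obtain ⟨i, hi⟩ := Function.ne_iff.1 hn
  have hp : (0 : ℝ) < 2 ^ m := by positivity
  rcases lt_or_gt_of_ne hi with h | h
  · refine measure_mono_null ?_ (hyper_null i ((c' i : ℝ) / 2 ^ m))
    rintro x ⟨hx, hy⟩
    have h4 : (c i : ℝ) + 1 ≤ c' i := by exact_mod_cast h
    have h5 : ((c i : ℝ) + 1) / 2 ^ m ≤ (c' i : ℝ) / 2 ^ m := div_le_div_of_nonneg_right h4 hp.le
    exact le_antisymm ((hx i).2.trans h5) (hy i).1
  · refine measure_mono_null ?_ (hyper_null i ((c i : ℝ) / 2 ^ m))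
    rintro x ⟨hx, hy⟩
    have h4 : (c' i : ℝ) + 1 ≤ c i := by exact_mod_cast h
    have h5 : ((c' i : ℝ) + 1) / 2 ^ m ≤ (c i : ℝ) / 2 ^ m := div_le_div_of_nonneg_right h4 hp.le
    exact le_antisymm ((hy i).2.trans h5) (hx i).1

variable {Ω : Type} [MeasurableSpace Ω] {P : Measure Ω} [IsProbabilityMeasure P] {X : ℕ → Ω → E d → ℝ}

/-- `tt_union`; two different cubes of the same level meet in a null set -/
theorem tt_chd (hX : CP d P X) (γ : ℝ) (n N m j : ℕ) (z : V d) (ω : Ω) : TT P X γ n N (cb m z) ω = ∑ c ∈ Chd j z, TT P X γ n N (cb (m + j) c) ω := by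
  rw [← cb_union m j z]
  exact tt_union hX γ n N ω (Chd j z) (fun c => cb (m + j) c) (fun c _ => cb_meas _ _)
    (fun c _ => by rw [cb_vol]; exact ENNReal.ofReal_ne_top)
    (fun c _ c' _ hn => cb_inter_null _ _ _ hn)

theorem tt_cube (hX : CP d P X) (γ : ℝ) (n N m : ℕ) (ω : Ω) : TT P X γ n N (cube d) ω = ∑ c ∈ Idx d m, TT P X γ n N (cb m c) ω := by
  have h1 : cube d = cb 0 (fun _ => 0 : V d) := by
    ext x
    simp [cube, cb]
  have h2 : Idx d m = Chd m (fun _ => 0 : V d) := by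
    simp [Idx, Chd]
  rw [h1, h2, tt_chd hX γ n N 0 m]
  simp only [zero_add]

end Pool.Agent.MChaos
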