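import Pool.Agent.Lib_MP_a91488.COVS

/-!
# Piece TLT: tilted large deviations at one point
-/

set_option autoImplicit false

open MeasureTheory ProbabilityTheory

namespace Pool.Agent.MChaos

variable {d : ℕ} {Ω : Type} [MeasurableSpace Ω] {P : Measure Ω} [IsProbabilityMeasure P] {X : ℕ → Ω → E d → ℝ}

private theorem tlt_arith (τ ε η s K L A B C₁ C₂ : ℝ) (hε : 0 < ε) (hη : η = min (1 / 4) (ε / (4 * (|τ| + 1))))
    (hK : 0 ≤ K) (hL : L ≤ 3 / 4) (hs : |s - K * L| ≤ η * K) (lam : ℝ) (hlam : |lam| = ε / 4)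
    (hA : |A - (τ + lam) ^ 2 / 2 * s| ≤ C₁) (hB : |B - τ ^ 2 / 2 * s| ≤ C₂) :
    A - lam * τ * (K * L) - |lam| * ε * K ≤ (C₁ + C₂) - ε ^ 2 / 8 * K + B := by
  have h1 : |τ| * η ≤ ε / 4 := by
    have h2 : η ≤ ε / (4 * (|τ| + 1)) := by rw [hη]; exact min_le_right _ _
    have h3 : 0 ≤ |τ| := abs_nonneg _
    have h4 : |τ| * (ε / (4 * (|τ| + 1))) ≤ ε / 4 := by
      have h5 : 0 < 4 * (|τ| + 1) := by positivity
      rw [mul_div_assoc', div_le_div_iff₀ h5 (by norm_num)]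
      nlinarith
    exact (mul_le_mul_of_nonneg_left h2 h3).trans h4
  have h2 : η ≤ 1 / 4 := by rw [hη]; exact min_le_left _ _
  have h6 : |lam * τ * (s - K * L)| ≤ ε / 4 * (ε / 4 * K) := by
    rw [abs_mul, abs_mul, hlam, mul_assoc]
    refine mul_le_mul_of_nonneg_left ?_ (by positivity)
    calc |τ| * |s - K * L| ≤ |τ| * (η * K) := mul_le_mul_of_nonneg_left hs (abs_nonneg _)
      _ = (|τ| * η) * K := by ring
      _ ≤ ε / 4 * K := mul_le_mul_of_nonneg_right h1 hK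
  have hs' := abs_le.mp hs
  have h7 : s ≤ K := by nlinarith [hs'.2]
  have h8 : lam ^ 2 = (ε / 4) ^ 2 := by rw [← sq_abs, hlam]
  have h9 : lam ^ 2 / 2 * s ≤ (ε / 4) ^ 2 / 2 * K := by
    rw [h8]; exact mul_le_mul_of_nonneg_left h7 (by positivity)
  have hA' := abs_le.mp hA
  have hB' := abs_le.mp hB
  have h6' := abs_le.mp h6
  rw [hlam]
  nlinarith [hA'.2, hB'.1, h6'.2, h9, mul_nonneg (sq_nonneg ε) hK]

/-- `s = sig2 n' - sig2 n ≤ (log 2 + η) k`. With `λ > 0`: `E[exp (τ SS); SS > τ k log 2 + ε k] ≤ exp (-λ (τ k log 2 + ε k)) E exp ((τ + λ) SS) ≤ C exp ((τ+λ)^2 s/2 - λ τ k log 2 - λ ε k)`,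
divided by `E exp (τ SS) ≥ C⁻¹ exp (τ^2 s/2)`: `C exp (λ τ (s - k log 2) + λ^2 s/2 - λ ε k) ≤ C exp (k (λ |τ| η + λ^2 - λ ε))`; choose `λ = ε/4`, `η` small (`|τ| η ≤ ε/4`, `η ≤ 1/4`), `c = ε^2/8`. The other side in the same way. (`exp1` for `τ`, `τ ± λ`, `0`.) -/
theorem tlt (hX : CP d P X) (τ ε : ℝ) (hε : 0 < ε) : ∃ η c C : ℝ, 0 < η ∧ 0 < c ∧ 0 < C ∧ ∀ n n' k : ℕ, n ≤ n' → |sig2 P X n' - sig2 P X n - k * Real.log 2| ≤ η * k → ∀ x ∈ cube d,
    ∫ ω in {ω | ε * k < |SS X n n' ω x - τ * (k * Real.log 2)|}, Real.exp (τ * SS X n n' ω x) ∂P ≤ C * Real.exp (-(c * k)) * ∫ ω, Real.exp (τ * SS X n n' ω x) ∂P := by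
  obtain ⟨C₁, hC₁, h1⟩ := exp1 hX (τ + ε / 4)
  obtain ⟨C₂, hC₂, h2⟩ := exp1 hX τ
  obtain ⟨C₃, hC₃, h3⟩ := exp1 hX (τ + -(ε / 4))
  refine ⟨min (1 / 4) (ε / (4 * (|τ| + 1))), ε ^ 2 / 8, Real.exp (C₁ + C₂) + Real.exp (C₃ + C₂), ?_, by positivity, by positivity, ?_⟩
  · have : 0 < 4 * (|τ| + 1) := by positivity
    exact lt_min (by norm_num) (div_pos hε this)
  intro n n' k hn hs x hx
  obtain ⟨Cb, hCb⟩ := hX.rv
  have hone : ∀ t : ℝ, 0 < ∫ ω, Real.exp (t * SS X n n' ω x) ∂P := by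
    intro t
    rw [(mgf_prod hX t n n' x).2]
    refine Finset.prod_pos (fun k _ => ?_)
    have := rv_one_le (hCb k x) t
    linarith
  have hm : Measurable (fun ω => SS X n n' ω x) := by
    unfold SS
    exact Finset.measurable_sum _ (fun k _ => hX.meas k x)
  set L := Real.log 2
  have hL : L ≤ 3 / 4 := by
    have := Real.log_two_lt_d9
    have h : L = Real.log 2 := rfl
    rw [h]; linarith
  set A : Set Ω := {ω | ε * k < |SS X n n' ω x - τ * (k * L)|}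
  have hA : MeasurableSet A := measurableSet_lt measurable_const ((hm.sub_const _).abs)
  set g₁ : Ω → ℝ := fun ω => Real.exp (-(ε / 4 * τ * (k * L)) - ε / 4 * ε * k) * Real.exp ((τ + ε / 4) * SS X n n' ω x)
  set g₂ : Ω → ℝ := fun ω => Real.exp (ε / 4 * τ * (k * L) - ε / 4 * ε * k) * Real.exp ((τ + -(ε / 4)) * SS X n n' ω x)
  have hg₁ : Integrable g₁ P := (mgf_prod hX (τ + ε / 4) n n' x).1.const_mul _
  have hg₂ : Integrable g₂ P := (mgf_prod hX (τ + -(ε / 4)) n n' x).1.const_mul _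
  have hf : Integrable (fun ω => Real.exp (τ * SS X n n' ω x)) P := (mgf_prod hX τ n n' x).1
  have hk : (0 : ℝ) ≤ k := Nat.cast_nonneg _
  have step1 : ∫ ω in A, Real.exp (τ * SS X n n' ω x) ∂P ≤ ∫ ω, (g₁ ω + g₂ ω) ∂P := by
    refine (setIntegral_mono_on hf.integrableOn (hg₁.add hg₂).integrableOn hA ?_).trans ?_
    · intro ω hω
      simp only [g₁, g₂, Pi.add_apply]
      rw [← Real.exp_add, ← Real.exp_add]
      have hω' : ε * k < |SS X n n' ω x - τ * (k * L)| := hω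
      rcases lt_abs.mp hω' with h | h
      · have : Real.exp (τ * SS X n n' ω x) ≤ Real.exp (-(ε / 4 * τ * (k * L)) - ε / 4 * ε * k + (τ + ε / 4) * SS X n n' ω x) := by
          apply Real.exp_le_exp.mpr
          nlinarith
        have := Real.exp_pos (ε / 4 * τ * (k * L) - ε / 4 * ε * k + (τ + -(ε / 4)) * SS X n n' ω x)
        linarith
      · have : Real.exp (τ * SS X n n' ω x) ≤ Real.exp (ε / 4 * τ * (k * L) - ε / 4 * ε * k + (τ + -(ε / 4)) * SS X n n' ω x) := by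
          apply Real.exp_le_exp.mpr
          nlinarith
        have := Real.exp_pos (-(ε / 4 * τ * (k * L)) - ε / 4 * ε * k + (τ + ε / 4) * SS X n n' ω x)
        linarith
    · refine setIntegral_le_integral (hg₁.add hg₂) ?_
      filter_upwards with ω
      simp only [g₁, g₂, Pi.add_apply, Pi.zero_apply]
      positivity
  refine step1.trans ?_
  rw [integral_add hg₁ hg₂, add_mul, add_mul]
  have e1 : ∫ ω, g₁ ω ∂P = Real.exp (-(ε / 4 * τ * (k * L)) - ε / 4 * ε * k) * ∫ ω, Real.exp ((τ + ε / 4) * SS X n n' ω x) ∂P :=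
    integral_const_mul _ _
  have e2 : ∫ ω, g₂ ω ∂P = Real.exp (ε / 4 * τ * (k * L) - ε / 4 * ε * k) * ∫ ω, Real.exp ((τ + -(ε / 4)) * SS X n n' ω x) ∂P :=
    integral_const_mul _ _
  rw [e1, e2]
  have hB := h2 n n' hn x hx
  have hA1 := h1 n n' hn x hx
  have hA3 := h3 n n' hn x hx
  have p1 := hone (τ + ε / 4)
  have p2 := hone τ
  have p3 := hone (τ + -(ε / 4))
  set Z := ∫ ω, Real.exp (τ * SS X n n' ω x) ∂P
  set W₁ := ∫ ω, Real.exp ((τ + ε / 4) * SS X n n' ω x) ∂P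
  set W₃ := ∫ ω, Real.exp ((τ + -(ε / 4)) * SS X n n' ω x) ∂P
  have ar1 := tlt_arith τ ε _ _ (k : ℝ) L _ _ C₁ C₂ hε rfl hk hL hs (ε / 4) (abs_of_pos (by positivity)) hA1 hB
  have ar3 := tlt_arith τ ε _ _ (k : ℝ) L _ _ C₃ C₂ hε rfl hk hL hs (-(ε / 4)) (by rw [abs_neg, abs_of_pos (by positivity)]) hA3 hB
  rw [abs_of_pos (by positivity)] at ar1
  rw [abs_neg, abs_of_pos (by positivity)] at ar3
  have hW1 : W₁ = Real.exp (Real.log W₁) := (Real.exp_log p1).symm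
  have hW3 : W₃ = Real.exp (Real.log W₃) := (Real.exp_log p3).symm
  have hZ : Z = Real.exp (Real.log Z) := (Real.exp_log p2).symm
  refine add_le_add ?_ ?_
  · rw [hW1, hZ, ← Real.exp_add, ← Real.exp_add, ← Real.exp_add]
    apply Real.exp_le_exp.mpr
    linarith
  · rw [hW3, hZ, ← Real.exp_add, ← Real.exp_add, ← Real.exp_add]
    apply Real.exp_le_exp.mpr
    linarith

end Pool.Agent.MChaos
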