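import Pool.Agent.Lib_MP_a91488.LDefs
import Pool.Agent.Lib_MP_a91488.TLT
import Pool.Agent.Lib_MP_a91488.DYA

/-!
# Piece BLZ: typical and atypical children
-/

set_option autoImplicit false

open MeasureTheory ProbabilityTheory

namespace Pool.Agent.MChaos

variable {d : ℕ} {Ω : Type} [MeasurableSpace Ω] {P : Measure Ω} [IsProbabilityMeasure P] {X : ℕ → Ω → E d → ℝ}

theorem blz_pos (hX : CP d P X) (t : ℝ) (n N : ℕ) (x : E d) :
    0 < ∫ ω, Real.exp (t * SS X n N ω x) ∂P := by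
  have hi := (mgf_prod hX t n N x).1
  exact integral_exp_pos hi

/-- `tlt` at the points `cor (m + k) c`, `Chd_card` -/
theorem blz (hX : CP d P X) (τ ε : ℝ) (hε : 0 < ε) : ∃ η c C : ℝ, 0 < η ∧ 0 < c ∧ 0 < C ∧ ∀ m k n n' : ℕ, n ≤ n' → |sig2 P X n' - sig2 P X n - k * Real.log 2| ≤ η * k → ∀ z ∈ Idx d m,
    Integrable (ZA P X τ ε n n' m k z) P ∧ (∀ ω, 0 ≤ ZA P X τ ε n n' m k z ω) ∧ ∫ ω, ZA P X τ ε n n' m k z ω ∂P ≤ C * Real.exp (-(c * k)) := by
  obtain ⟨η, c, C, hη, hc, hC, h⟩ := tlt hX τ ε hε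
  refine ⟨η, c, C, hη, hc, hC, ?_⟩
  intro m k n n' hn hs z hz
  have hpos : ∀ x : E d, 0 < ∫ ω', Real.exp (τ * SS X n n' ω' x) ∂P := fun x => blz_pos hX τ n n' x
  have hEw : ∀ (e : V d) (ω : Ω), 0 ≤ Ew P X τ n n' (m + k) e ω := by
    intro e ω
    exact div_nonneg (Real.exp_pos _).le (hpos _).le
  have hterm : ∀ (e : V d) (ω : Ω), (@ite ℝ (ω ∈ Typ X n n' k (m + k) τ ε e) (Classical.propDecidable _) 0
      (Ew P X τ n n' (m + k) e ω)) =
      Set.indicator {ω | ε * k < |SS X n n' ω (cor (m + k) e) - τ * (k * Real.log 2)|}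
        (fun ω => Ew P X τ n n' (m + k) e ω) ω := by
    intro e ω
    by_cases ht : ω ∈ Typ X n n' k (m + k) τ ε e
    · rw [if_pos ht, Set.indicator_of_notMem]
      intro h2
      have h3 : |SS X n n' ω (cor (m + k) e) - τ * (k * Real.log 2)| ≤ ε * k := ht
      have h4 : ε * k < |SS X n n' ω (cor (m + k) e) - τ * (k * Real.log 2)| := h2
      linarith
    · rw [if_neg ht, Set.indicator_of_mem]
      have h3 : ¬ |SS X n n' ω (cor (m + k) e) - τ * (k * Real.log 2)| ≤ ε * k := ht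
      exact not_le.1 h3
  have hms : ∀ e : V d, MeasurableSet {ω | ε * k < |SS X n n' ω (cor (m + k) e) - τ * (k * Real.log 2)|} := by
    intro e
    have hm : Measurable (fun ω => SS X n n' ω (cor (m + k) e)) :=
      (SS_meas hX n n').comp (measurable_id.prodMk measurable_const)
    have hm2 : Measurable (fun ω => |SS X n n' ω (cor (m + k) e) - τ * (k * Real.log 2)|) :=
      continuous_abs.measurable.comp (hm.sub_const _)
    exact measurableSet_lt measurable_const hm2
  have hEwi : ∀ e : V d, Integrable (fun ω => Ew P X τ n n' (m + k) e ω) P := fun e =>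
    (mgf_prod hX τ n n' (cor (m + k) e)).1.div_const _
  have hti : ∀ e : V d, Integrable (fun ω => (@ite ℝ (ω ∈ Typ X n n' k (m + k) τ ε e) (Classical.propDecidable _) 0
      (Ew P X τ n n' (m + k) e ω))) P := by
    intro e
    simp only [hterm]
    exact (hEwi e).indicator (hms e)
  have htb : ∀ e ∈ Chd k z, ∫ ω, (@ite ℝ (ω ∈ Typ X n n' k (m + k) τ ε e) (Classical.propDecidable _) 0
      (Ew P X τ n n' (m + k) e ω)) ∂P ≤ C * Real.exp (-(c * k)) := by
    intro e he
    have hcor : cor (m + k) e ∈ cube d := cb_sub (m + k) e (Chd_Idx m k z e hz he) (cor_mem (m + k) e)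
    simp only [hterm]
    rw [integral_indicator (hms e)]
    unfold Ew
    rw [integral_div, div_le_iff₀ (hpos _)]
    exact h n n' k hn hs _ hcor
  have hsum : Integrable (fun ω => ∑ e ∈ Chd k z, (@ite ℝ (ω ∈ Typ X n n' k (m + k) τ ε e) (Classical.propDecidable _) 0
      (Ew P X τ n n' (m + k) e ω))) P := integrable_finsetSum _ fun e _ => hti e
  refine ⟨hsum.const_mul _, ?_, ?_⟩
  · intro ω
    refine mul_nonneg (by positivity) (Finset.sum_nonneg fun e _ => ?_)
    rw [hterm]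
    exact Set.indicator_nonneg (fun ω' _ => hEw e ω') ω
  · have h1 : ∫ ω, ZA P X τ ε n n' m k z ω ∂P = 1 / 2 ^ (d * k) * ∑ e ∈ Chd k z,
        ∫ ω, (@ite ℝ (ω ∈ Typ X n n' k (m + k) τ ε e) (Classical.propDecidable _) 0
          (Ew P X τ n n' (m + k) e ω)) ∂P := by
      unfold ZA
      rw [integral_const_mul, integral_finsetSum _ fun e _ => hti e]
    rw [h1]
    have h2 : ∑ e ∈ Chd k z, ∫ ω, (@ite ℝ (ω ∈ Typ X n n' k (m + k) τ ε e) (Classical.propDecidable _) 0
          (Ew P X τ n n' (m + k) e ω)) ∂P ≤ (2 : ℝ) ^ (d * k) * (C * Real.exp (-(c * k))) := by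
      refine (Finset.sum_le_sum htb).trans ?_
      rw [Finset.sum_const, nsmul_eq_mul, Chd_card]
      push_cast
      exact le_rfl
    have h3 : (0 : ℝ) < 2 ^ (d * k) := by positivity
    calc 1 / 2 ^ (d * k) * ∑ e ∈ Chd k z, ∫ ω, (@ite ℝ (ω ∈ Typ X n n' k (m + k) τ ε e) (Classical.propDecidable _) 0
          (Ew P X τ n n' (m + k) e ω)) ∂P
        ≤ 1 / 2 ^ (d * k) * ((2 : ℝ) ^ (d * k) * (C * Real.exp (-(c * k)))) :=
          mul_le_mul_of_nonneg_left h2 (by positivity)
      _ = C * Real.exp (-(c * k)) := by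
          field_simp

/-- `tt_chd`; on `cb (m + k) c` the field differs by at most `3` from its value at the corner, and `E exp (τ SS)` is `exp (τ^2/2 (sig2 n' - sig2 n))` up to a constant at all points of the cube (`exp1`) -/
theorem blc (hX : CP d P X) (τ : ℝ) : ∃ C₁ : ℝ, 0 < C₁ ∧ ∀ m k n n' : ℕ, n ≤ n' → ∀ z ∈ Idx d m, ∀ ω, ω ∉ Osc X n n' (m + k) 3 →
    TT P X τ n n' (cb m z) ω * 2 ^ (d * m) ≤ C₁ * (1 / 2 ^ (d * k) * ∑ c ∈ Chd k z, Ew P X τ n n' (m + k) c ω) ∧
    ∀ ε : ℝ, 0 ≤ ε → ∀ c ∈ Chd k z, ω ∈ Typ X n n' k (m + k) τ ε c →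
      Ew P X τ n n' (m + k) c ω ≤ C₁ * Real.exp (τ ^ 2 * (k * Real.log 2) + |τ| * ε * k - τ ^ 2 / 2 * (sig2 P X n' - sig2 P X n)) := by
  obtain ⟨C, hC, h⟩ := exp1 hX τ
  refine ⟨Real.exp (3 * |τ| + 2 * C), Real.exp_pos _, ?_⟩
  intro m k n n' hn z hz ω hω
  have hpos : ∀ x : E d, 0 < ∫ ω', Real.exp (τ * SS X n n' ω' x) ∂P := fun x => blz_pos hX τ n n' x
  have hlo : ∀ x ∈ cube d, Real.exp (τ ^ 2 / 2 * (sig2 P X n' - sig2 P X n) - C) ≤
      ∫ ω', Real.exp (τ * SS X n n' ω' x) ∂P := by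
    intro x hx
    have h1 := (abs_le.1 (h n n' hn x hx)).1
    rw [← Real.exp_log (hpos x)]
    exact Real.exp_le_exp.2 (by linarith)
  have hhi : ∀ x ∈ cube d, ∫ ω', Real.exp (τ * SS X n n' ω' x) ∂P ≤
      Real.exp (τ ^ 2 / 2 * (sig2 P X n' - sig2 P X n) + C) := by
    intro x hx
    have h1 := (abs_le.1 (h n n' hn x hx)).2
    rw [← Real.exp_log (hpos x)]
    exact Real.exp_le_exp.2 (by linarith)
  constructor
  · have hcb : ∀ e ∈ Chd k z, TT P X τ n n' (cb (m + k) e) ω ≤
        Real.exp (3 * |τ| + 2 * C) * Ew P X τ n n' (m + k) e ω * (1 / 2 ^ (d * (m + k))) := by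
      intro e he
      have hI := Chd_Idx m k z e hz he
      have hsub := cb_sub (m + k) e hI
      have hcor : cor (m + k) e ∈ cb (m + k) e := cor_mem (m + k) e
      have hvol : volume (cb (m + k) e) = ENNReal.ofReal (1 / 2 ^ (d * (m + k))) := cb_vol (m + k) e
      have hpt : ∀ x ∈ cb (m + k) e, ∏ j ∈ Finset.Ico n n', wt P X τ j ω x ≤
          Real.exp (3 * |τ| + 2 * C) * Ew P X τ n n' (m + k) e ω := by
        intro x hx
        rw [prod_wt hX]
        unfold Ew
        have hosc : |SS X n n' ω x - SS X n n' ω (cor (m + k) e)| ≤ 3 := by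
          by_contra hcon
          push Not at hcon
          exact hω ⟨e, hI, x, hx, _, hcor, hcon⟩
        have h1 : Real.exp (τ * SS X n n' ω x) ≤
            Real.exp (3 * |τ|) * Real.exp (τ * SS X n n' ω (cor (m + k) e)) := by
          rw [← Real.exp_add]
          apply Real.exp_le_exp.2
          have h2 : τ * (SS X n n' ω x - SS X n n' ω (cor (m + k) e)) ≤ |τ| * 3 := by
            calc τ * (SS X n n' ω x - SS X n n' ω (cor (m + k) e))
                ≤ |τ * (SS X n n' ω x - SS X n n' ω (cor (m + k) e))| := le_abs_self _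
              _ = |τ| * |SS X n n' ω x - SS X n n' ω (cor (m + k) e)| := abs_mul _ _
              _ ≤ |τ| * 3 := mul_le_mul_of_nonneg_left hosc (abs_nonneg _)
          linarith
        have h3 : ∫ ω', Real.exp (τ * SS X n n' ω' (cor (m + k) e)) ∂P ≤
            Real.exp (2 * C) * ∫ ω', Real.exp (τ * SS X n n' ω' x) ∂P := by
          refine (hhi _ (hsub hcor)).trans ?_
          have h4 := mul_le_mul_of_nonneg_left (hlo x (hsub hx)) (Real.exp_pos (2 * C)).le
          refine le_trans (le_of_eq ?_) h4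
          rw [← Real.exp_add]
          congr 1
          ring
        rw [div_le_iff₀ (hpos x)]
        have h5 : Real.exp (3 * |τ| + 2 * C) * (Real.exp (τ * SS X n n' ω (cor (m + k) e)) /
            ∫ ω', Real.exp (τ * SS X n n' ω' (cor (m + k) e)) ∂P) * ∫ ω', Real.exp (τ * SS X n n' ω' x) ∂P =
            (Real.exp (3 * |τ|) * Real.exp (τ * SS X n n' ω (cor (m + k) e))) *
            ((Real.exp (2 * C) * ∫ ω', Real.exp (τ * SS X n n' ω' x) ∂P) /
              ∫ ω', Real.exp (τ * SS X n n' ω' (cor (m + k) e)) ∂P) := by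
          rw [Real.exp_add]
          ring
        rw [h5]
        refine h1.trans ?_
        have h6 : 1 ≤ (Real.exp (2 * C) * ∫ ω', Real.exp (τ * SS X n n' ω' x) ∂P) /
              ∫ ω', Real.exp (τ * SS X n n' ω' (cor (m + k) e)) ∂P := by
          rw [le_div_iff₀ (hpos _), one_mul]
          exact h3
        exact le_mul_of_one_le_right (by positivity) h6
      unfold TT
      have hfin : volume (cb (m + k) e) ≠ ⊤ := by
        rw [hvol]
        exact ENNReal.ofReal_ne_top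
      have h7 : ∫ x in cb (m + k) e, ∏ j ∈ Finset.Ico n n', wt P X τ j ω x ≤
          ∫ _x in cb (m + k) e, Real.exp (3 * |τ| + 2 * C) * Ew P X τ n n' (m + k) e ω := by
        refine setIntegral_mono_on (tt_integrable hX τ n n' ω _ hfin) ?_ (cb_meas _ _) hpt
        exact integrableOn_const hfin
      refine h7.trans (le_of_eq ?_)
      rw [setIntegral_const, smul_eq_mul, measureReal_def, hvol, ENNReal.toReal_ofReal (by positivity)]
      ring
    rw [tt_chd hX τ n n' m k z ω]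
    calc (∑ e ∈ Chd k z, TT P X τ n n' (cb (m + k) e) ω) * 2 ^ (d * m)
        ≤ (∑ e ∈ Chd k z, Real.exp (3 * |τ| + 2 * C) * Ew P X τ n n' (m + k) e ω * (1 / 2 ^ (d * (m + k)))) * 2 ^ (d * m) :=
          mul_le_mul_of_nonneg_right (Finset.sum_le_sum hcb) (by positivity)
      _ = Real.exp (3 * |τ| + 2 * C) * (1 / 2 ^ (d * k) * ∑ e ∈ Chd k z, Ew P X τ n n' (m + k) e ω) := by
          rw [← Finset.sum_mul, ← Finset.mul_sum]
          have h8 : (2 : ℝ) ^ (d * (m + k)) = 2 ^ (d * m) * 2 ^ (d * k) := by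
            rw [← pow_add]
            congr 1
            ring
          rw [h8]
          field_simp
  · intro ε hε e he hT
    have hI := Chd_Idx m k z e hz he
    have hcor : cor (m + k) e ∈ cube d := cb_sub (m + k) e hI (cor_mem (m + k) e)
    have hT' : |SS X n n' ω (cor (m + k) e) - τ * (k * Real.log 2)| ≤ ε * k := hT
    unfold Ew
    rw [div_le_iff₀ (hpos _)]
    have h1 : Real.exp (τ * SS X n n' ω (cor (m + k) e)) ≤ Real.exp (τ ^ 2 * (k * Real.log 2) + |τ| * ε * k) := by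
      apply Real.exp_le_exp.2
      have h2 : τ * (SS X n n' ω (cor (m + k) e) - τ * (k * Real.log 2)) ≤ |τ| * (ε * k) := by
        calc τ * (SS X n n' ω (cor (m + k) e) - τ * (k * Real.log 2))
            ≤ |τ * (SS X n n' ω (cor (m + k) e) - τ * (k * Real.log 2))| := le_abs_self _
          _ = |τ| * |SS X n n' ω (cor (m + k) e) - τ * (k * Real.log 2)| := abs_mul _ _
          _ ≤ |τ| * (ε * k) := mul_le_mul_of_nonneg_left hT' (abs_nonneg _)
      nlinarith
    refine h1.trans ?_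
    have h3 := mul_le_mul_of_nonneg_left (hlo _ hcor) (Real.exp_pos (3 * |τ| + 2 * C +
      (τ ^ 2 * (k * Real.log 2) + |τ| * ε * k - τ ^ 2 / 2 * (sig2 P X n' - sig2 P X n)))).le
    rw [← Real.exp_add] at h3
    rw [← Real.exp_add]
    refine le_trans (Real.exp_le_exp.2 ?_) h3
    have h4 : 0 ≤ |τ| := abs_nonneg _
    linarith

end Pool.Agent.MChaos
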