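import Pool.Agent.Lib_MP_a91488.CPA

/-!
# Piece CUTS: the number of fields which belong to a dyadic scale
-/

set_option autoImplicit false

open MeasureTheory ProbabilityTheory Filter
open scoped Topology

namespace Pool.Agent.MChaos

variable {d : ℕ} {Ω : Type} [MeasurableSpace Ω] {P : Measure Ω} [IsProbabilityMeasure P] {X : ℕ → Ω → E d → ℝ}

private theorem cut_nonempty (hX : CP d P X) (T : ℝ) : {n : ℕ | T < sig2 P X (n + 1)}.Nonempty := by
  have h := (sig2_tendsto hX).eventually_gt_atTop T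
  obtain ⟨N, hN⟩ := eventually_atTop.mp h
  exact ⟨N, hN (N + 1) (Nat.le_succ N)⟩

theorem cut_mono (hX : CP d P X) : Monotone (cut P X) := by
  intro t t' htt
  unfold cut
  have hm := Nat.sInf_mem (cut_nonempty hX ((t' : ℝ) * Real.log 2 - Real.log d / 2))
  apply Nat.sInf_le
  have hl : (t : ℝ) * Real.log 2 ≤ (t' : ℝ) * Real.log 2 :=
    mul_le_mul_of_nonneg_right (by exact_mod_cast htt) (Real.log_pos (by norm_num)).le
  have hm' : (t' : ℝ) * Real.log 2 - Real.log d / 2 < sig2 P X (sInf {n : ℕ | (t' : ℝ) * Real.log 2 - Real.log d / 2 < sig2 P X (n + 1)} + 1) := hm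
  show (t : ℝ) * Real.log 2 - Real.log d / 2 < _
  linarith

private theorem cut_T_tendsto : Tendsto (fun t : ℕ => (t : ℝ) * Real.log 2 - Real.log d / 2) atTop atTop := by
  have h : Tendsto (fun t : ℕ => (t : ℝ) * Real.log 2) atTop atTop :=
    Tendsto.atTop_mul_const (Real.log_pos (by norm_num)) tendsto_natCast_atTop_atTop
  exact tendsto_atTop_add_const_right _ _ h

theorem cut_tendsto (hX : CP d P X) : Tendsto (cut P X) atTop atTop := by
  refine tendsto_atTop.mpr (fun M => ?_)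
  have h := (cut_T_tendsto (d := d)).eventually_ge_atTop (sig2 P X M)
  filter_upwards [h] with t ht
  by_contra hlt
  rw [not_le] at hlt
  have hm : (t : ℝ) * Real.log 2 - Real.log d / 2 < sig2 P X (cut P X t + 1) :=
    Nat.sInf_mem (cut_nonempty hX ((t : ℝ) * Real.log 2 - Real.log d / 2))
  have := sig2_mono (P := P) (X := X) (show cut P X t + 1 ≤ M from hlt)
  linarith

/-- `T = t log 2 - log d / 2` tends to infinity; by definition `sig2 n ≤ T < sig2 (n + 1)` for `n = cut t` (as soon as `T ≥ 0`), and the increments are at most `1` for large `n` -/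
theorem cut_prop (hX : CP d P X) : ∃ t₀ : ℕ, ∀ t : ℕ, t₀ ≤ t →
    (t : ℝ) * Real.log 2 - Real.log d / 2 - 1 ≤ sig2 P X (cut P X t) ∧ sig2 P X (cut P X t) ≤ (t : ℝ) * Real.log 2 - Real.log d / 2 := by
  obtain ⟨K, hK⟩ := sig2_small hX 1 one_pos
  have h1 := (cut_tendsto hX).eventually_ge_atTop K
  have h2 := (cut_T_tendsto (d := d)).eventually_ge_atTop 0
  obtain ⟨t₀, h0⟩ := eventually_atTop.mp (h1.and h2)
  refine ⟨t₀, fun t ht => ?_⟩
  obtain ⟨ha, hb⟩ := h0 t ht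
  have hm : (t : ℝ) * Real.log 2 - Real.log d / 2 < sig2 P X (cut P X t + 1) :=
    Nat.sInf_mem (cut_nonempty hX ((t : ℝ) * Real.log 2 - Real.log d / 2))
  refine ⟨?_, ?_⟩
  · have := hK (cut P X t) ha
    linarith
  · rcases Nat.eq_zero_or_pos (cut P X t) with h | h
    · rw [h, sig2_zero]; exact hb
    · have hnm : cut P X t - 1 ∉ {n : ℕ | (t : ℝ) * Real.log 2 - Real.log d / 2 < sig2 P X (n + 1)} :=
        Nat.notMem_of_lt_sInf (show cut P X t - 1 < cut P X t by omega)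
      have hnm' : ¬ ((t : ℝ) * Real.log 2 - Real.log d / 2 < sig2 P X (cut P X t - 1 + 1)) := hnm
      rw [Nat.sub_add_cancel h] at hnm'
      exact not_lt.mp hnm'

theorem cut_diff (hX : CP d P X) : ∃ t₀ : ℕ, ∀ t j : ℕ, t₀ ≤ t →
    |sig2 P X (cut P X (t + j)) - sig2 P X (cut P X t) - j * Real.log 2| ≤ 1 := by
  obtain ⟨t₀, h⟩ := cut_prop hX
  refine ⟨t₀, fun t j ht => ?_⟩
  obtain ⟨a, b⟩ := h t ht
  obtain ⟨a', b'⟩ := h (t + j) (by omega)
  push_cast at a' b'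
  rw [abs_le]
  constructor <;> linarith

/-- `exp (-sig2 (cut t)) → 0` -/
theorem cut_small (hX : CP d P X) (δ : ℝ) (hδ : 0 < δ) : ∃ t₀ : ℕ, ∀ t : ℕ, t₀ ≤ t → Real.exp (-sig2 P X (cut P X t)) ≤ δ ∧ Real.sqrt d / 2 ^ t ≤ δ := by
  have h1 := ((sig2_tendsto hX).comp (cut_tendsto hX)).eventually_ge_atTop (-Real.log δ)
  have h2 : Tendsto (fun t : ℕ => Real.sqrt d / (2 : ℝ) ^ t) atTop (𝓝 0) := by
    have h := (tendsto_pow_atTop_nhds_zero_of_lt_one (r := (1 / 2 : ℝ)) (by norm_num) (by norm_num)).const_mul (Real.sqrt d)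
    rw [mul_zero] at h
    refine h.congr (fun t => ?_)
    rw [one_div, inv_pow, div_eq_mul_inv]
  have h3 := h2.eventually (eventually_le_nhds hδ)
  obtain ⟨t₀, h0⟩ := eventually_atTop.mp (h1.and h3)
  refine ⟨t₀, fun t ht => ?_⟩
  obtain ⟨ha, hb⟩ := h0 t ht
  refine ⟨?_, hb⟩
  have ha' : -Real.log δ ≤ sig2 P X (cut P X t) := ha
  calc Real.exp (-sig2 P X (cut P X t)) ≤ Real.exp (Real.log δ) := Real.exp_le_exp.mpr (by linarith)
    _ = δ := Real.exp_log hδ

/-- `√d / 2 ^ t ≤ exp (-sig2 (cut t))` and `exp (-sig2 (cut t) - (log d / 2 + 1)) ≤ 1 / 2 ^ t` (from `cut_prop`) -/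
theorem cut_scale (hX : CP d P X) : ∃ t₀ : ℕ, ∀ t : ℕ, t₀ ≤ t →
    Real.sqrt d / 2 ^ t ≤ Real.exp (-sig2 P X (cut P X t)) ∧ Real.exp (-sig2 P X (cut P X t) - (Real.log d / 2 + 1)) ≤ 1 / 2 ^ t := by
  obtain ⟨t₀, h⟩ := cut_prop hX
  refine ⟨t₀, fun t ht => ?_⟩
  obtain ⟨a, b⟩ := h t ht
  have hd : (0 : ℝ) < d := by exact_mod_cast hX.dpos
  have hp : (2 : ℝ) ^ t = Real.exp (t * Real.log 2) := by
    rw [mul_comm, Real.exp_mul, Real.exp_log (by norm_num : (0 : ℝ) < 2), Real.rpow_natCast]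
  have hs : Real.sqrt d = Real.exp (Real.log d / 2) := by
    rw [Real.sqrt_eq_rpow, Real.rpow_def_of_pos hd]
    congr 1
    ring
  constructor
  · rw [hs, hp, ← Real.exp_sub]
    exact Real.exp_le_exp.mpr (by linarith)
  · rw [hp, one_div, ← Real.exp_neg]
    exact Real.exp_le_exp.mpr (by linarith)

end Pool.Agent.MChaos
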