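import Pool.Agent.Lib_MP_a91488.GENB
import Pool.Agent.Lib_MP_a91488.DYA
import Pool.Agent.Lib_MP_a91488.CUTS

/-!
# Piece BRAN: the branching inequality for dyadic cubes
-/

set_option autoImplicit false

open MeasureTheory ProbabilityTheory

namespace Pool.Agent.MChaos

variable {d : ℕ} {Ω : Type} [MeasurableSpace Ω] (P : Measure Ω) (X : ℕ → Ω → E d → ℝ)

/-- normalised mass of a dyadic cube at its own scale (expectation one) -/
noncomputable def TN (γ : ℝ) (m N : ℕ) (z : V d) (ω : Ω) : ℝ := TT P X γ (cut P X m) N (cb m z) ω * 2 ^ (d * m)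

variable {P X} [IsProbabilityMeasure P]

omit [IsProbabilityMeasure P] in
private theorem bran_vol (m : ℕ) (z : V d) :
    MeasurableSet (cb m z) ∧ volume (cb m z) ≠ ⊤ ∧ volume (cb m z) ≠ 0 := by
  refine ⟨cb_meas m z, ?_, ?_⟩
  · rw [cb_vol]; exact ENNReal.ofReal_ne_top
  · rw [cb_vol]
    simp only [ne_eq, ENNReal.ofReal_eq_zero, not_le]
    positivity

/-- measurability, positivity, expectation one, all powers integrable (TTI, `cb_vol`) -/
theorem tn_facts (hX : CP d P X) (γ : ℝ) (m N : ℕ) (z : V d) : Measurable (TN P X γ m N z) ∧ (∀ ω, 0 < TN P X γ m N z ω) ∧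
    ∫ ω, TN P X γ m N z ω ∂P = 1 ∧ ∀ q : ℝ, Integrable (fun ω => TN P X γ m N z ω ^ q) P := by
  obtain ⟨h1, h2, h3⟩ := bran_vol m z
  have hK : (0 : ℝ) < 2 ^ (d * m) := by positivity
  have hpos : ∀ ω, 0 < TT P X γ (cut P X m) N (cb m z) ω :=
    fun ω => tt_pos hX γ (cut P X m) N ω (cb m z) h1 h2 h3
  refine ⟨(tt_meas hX γ (cut P X m) N (cb m z) h2).mul_const _, fun ω => mul_pos (hpos ω) hK, ?_,
    fun q => ?_⟩
  · unfold TN
    rw [integral_mul_const, (tt_mean hX γ (cut P X m) N (cb m z) h1 h2).2, cb_vol,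
      ENNReal.toReal_ofReal (by positivity), one_div, inv_mul_cancel₀ hK.ne']
  · have h := (tt_pow hX γ q (cut P X m) N (cb m z) h1 h2 h3).mul_const ((2 ^ (d * m) : ℝ) ^ q)
    refine h.congr (Filter.Eventually.of_forall fun ω => ?_)
    unfold TN
    simp only []
    rw [Real.mul_rpow (hpos ω).le hK.le]

/-- `genb` for `n' = cut m` and the single cell `cb m z` (`cb_diam`, `cut_small`, `cut_scale`) -/
theorem froz (hX : CP d P X) (γ q : ℝ) : ∃ (C : ℝ) (t₀ : ℕ), 0 < C ∧ ∀ m n N : ℕ, t₀ ≤ m → n ≤ cut P X m → cut P X m ≤ N → ∀ z ∈ Idx d m,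
    ∫ ω, (TT P X γ n N (cb m z) ω * 2 ^ (d * m)) ^ q ∂P ≤
      C * Real.exp ((q ^ 2 - q) * γ ^ 2 / 2 * (sig2 P X (cut P X m) - sig2 P X n)) * ∫ ω, TN P X γ m N z ω ^ q ∂P := by
  obtain ⟨C, δ₀, hC, hδ, hg⟩ := genb hX γ q 0
  obtain ⟨t1, ht1⟩ := cut_small hX δ₀ hδ
  obtain ⟨t2, ht2⟩ := cut_scale hX
  refine ⟨C, max t1 t2, hC, fun m n N hm hn hN z hz => ?_⟩
  obtain ⟨v1, v2, v3⟩ := bran_vol m z
  have hK : (0 : ℝ) < 2 ^ (d * m) := by positivity
  have key := hg n (cut P X m) N hn hN {z} (fun c => cb m c) (Finset.singleton_nonempty z)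
    (fun c _ => cb_meas m c)
    (fun c hc => by
      rw [Finset.mem_singleton] at hc
      subst hc
      exact cb_sub m c hz)
    (fun c _ => (bran_vol m c).2.2)
    (fun c hc c' hc' x hx y hy => by
      rw [Finset.mem_singleton] at hc hc'
      subst hc
      subst hc'
      exact (cb_diam m _ x y hx hy).trans (ht1 m (le_trans (le_max_left _ _) hm)).2)
    (fun c _ x hx y hy =>
      (cb_diam m c x y hx hy).trans (ht2 m (le_trans (le_max_right _ _) hm)).1)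
    (fun c hc c' hc' hne => by
      rw [Finset.mem_singleton] at hc hc'
      exact absurd (hc.trans hc'.symm) hne)
  simp only [Finset.sum_singleton] at key
  have hsum : ∀ ω : ↥({z} : Finset (V d)) → Ω,
      ∑ c : ↥({z} : Finset (V d)), TT P X γ (cut P X m) N (cb m c) (ω c) =
        TT P X γ (cut P X m) N (cb m z) (ω ⟨z, Finset.mem_singleton_self z⟩) := by
    intro ω
    refine Fintype.sum_eq_single (⟨z, Finset.mem_singleton_self z⟩ : ↥({z} : Finset (V d))) ?_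
    intro c hc
    exact absurd (Subtype.ext (Finset.mem_singleton.1 c.2)) hc
  have hint : ∫ ω : ↥({z} : Finset (V d)) → Ω,
      (∑ c : ↥({z} : Finset (V d)), TT P X γ (cut P X m) N (cb m c) (ω c)) ^ q
        ∂(Measure.pi fun _ : ↥({z} : Finset (V d)) => P) =
      ∫ ω, TT P X γ (cut P X m) N (cb m z) ω ^ q ∂P := by
    simp only [hsum]
    have hmp := measurePreserving_eval (fun _ : ↥({z} : Finset (V d)) => P)
      ⟨z, Finset.mem_singleton_self z⟩
    have hmeas : Measurable fun ω => TT P X γ (cut P X m) N (cb m z) ω ^ q :=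
      (tt_meas hX γ (cut P X m) N (cb m z) v2).pow_const q
    have h := integral_map (μ := Measure.pi fun _ : ↥({z} : Finset (V d)) => P)
      hmp.measurable.aemeasurable (hmeas.aestronglyMeasurable)
    rw [hmp.map_eq] at h
    exact h.symm
  rw [hint] at key
  have e1 : ∫ ω, (TT P X γ n N (cb m z) ω * 2 ^ (d * m)) ^ q ∂P =
      (∫ ω, TT P X γ n N (cb m z) ω ^ q ∂P) * (2 ^ (d * m) : ℝ) ^ q := by
    rw [← integral_mul_const]
    refine integral_congr_ae (Filter.Eventually.of_forall fun ω => ?_)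
    simp only []
    rw [Real.mul_rpow (tt_nonneg hX γ n N ω _) hK.le]
  have e2 : ∫ ω, TN P X γ m N z ω ^ q ∂P =
      (∫ ω, TT P X γ (cut P X m) N (cb m z) ω ^ q ∂P) * (2 ^ (d * m) : ℝ) ^ q := by
    rw [← integral_mul_const]
    refine integral_congr_ae (Filter.Eventually.of_forall fun ω => ?_)
    unfold TN
    simp only []
    rw [Real.mul_rpow (tt_nonneg hX γ _ N ω _) hK.le]
  rw [e1, e2, ← mul_assoc]
  exact mul_le_mul_of_nonneg_right key (Real.rpow_nonneg hK.le q)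

/-- `genb` for `n = cut m`, `n' = cut (m + j)` and the cells `cb (m + j) c`, `c ∈ Chp j z e` (`c₀ = log d / 2 + 1`, `Chp_sep`, `cut_scale`), `cut_diff`;
`2^(d m) ∑ TT = 2^(-d j) ∑ TN (m + j)` -/
theorem bran (hX : CP d P X) (γ q : ℝ) (hq : 0 ≤ q * (q - 1)) : ∃ (C : ℝ) (t₀ : ℕ), 0 < C ∧ ∀ m j N : ℕ, t₀ ≤ m → 0 < j → cut P X (m + j) ≤ N → ∀ z ∈ Idx d m, ∀ e ∈ Par d,
    ∫ ω, (2 ^ (d * m) * ∑ c ∈ Chp j z e, TT P X γ (cut P X m) N (cb (m + j) c) ω) ^ q ∂P ≤
      C * 2 ^ ((q ^ 2 - q) * γ ^ 2 / 2 * j) * ∫ ω, (1 / 2 ^ (d * j) * ∑ c : ↥(Chp j z e), TN P X γ (m + j) N c (ω c)) ^ q ∂(Measure.pi fun _ : ↥(Chp j z e) => P) := by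
  obtain ⟨C, δ₀, hC, hδ, hg⟩ := genb hX γ q (Real.log d / 2 + 1)
  obtain ⟨t1, ht1⟩ := cut_small hX δ₀ hδ
  obtain ⟨t2, ht2⟩ := cut_scale hX
  obtain ⟨t3, ht3⟩ := cut_diff hX
  refine ⟨C * Real.exp ((q ^ 2 - q) * γ ^ 2 / 2), max t1 (max t2 t3), by positivity,
    fun m j N hm hj hN z hz e he => ?_⟩
  have hm1 : t1 ≤ m := le_trans (le_max_left _ _) hm
  have hm2 : t2 ≤ m := le_trans (le_trans (le_max_left _ _) (le_max_right _ _)) hm
  have hm3 : t3 ≤ m := le_trans (le_trans (le_max_right _ _) (le_max_right _ _)) hm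
  have hK : (0 : ℝ) < 2 ^ (d * m) := by positivity
  have hCd : ∀ c ∈ Chp j z e, cb (m + j) c ⊆ cb m z :=
    fun c hc => Chd_sub m j z c (Finset.mem_filter.1 hc).1
  have key := hg (cut P X m) (cut P X (m + j)) N (cut_mono hX (Nat.le_add_right m j)) hN
    (Chp j z e) (fun c => cb (m + j) c)
    (by
      rw [← Finset.card_pos, Chp_card j hj z e he]
      positivity)
    (fun c _ => cb_meas (m + j) c)
    (fun c hc => (hCd c hc).trans (cb_sub m z hz))
    (fun c _ => (bran_vol (m + j) c).2.2)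
    (fun c hc c' hc' x hx y hy =>
      (cb_diam m z x y (hCd c hc hx) (hCd c' hc' hy)).trans (ht1 m hm1).2)
    (fun c _ x hx y hy => (cb_diam (m + j) c x y hx hy).trans
      (ht2 (m + j) (le_trans hm2 (Nat.le_add_right m j))).1)
    (fun c hc c' hc' hne => ⟨hq, fun x hx y hy =>
      ((ht2 (m + j) (le_trans hm2 (Nat.le_add_right m j))).2).trans
        (Chp_sep m j z e c c' hc hc' hne x y hx hy)⟩)
  have hA : 0 ≤ (q ^ 2 - q) * γ ^ 2 / 2 := by
    have h1 : 0 ≤ q ^ 2 - q := by nlinarith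
    positivity
  have hexp : Real.exp ((q ^ 2 - q) * γ ^ 2 / 2 *
      (sig2 P X (cut P X (m + j)) - sig2 P X (cut P X m))) ≤
      Real.exp ((q ^ 2 - q) * γ ^ 2 / 2) * 2 ^ ((q ^ 2 - q) * γ ^ 2 / 2 * j) := by
    rw [Real.rpow_def_of_pos (by norm_num : (0 : ℝ) < 2), ← Real.exp_add]
    refine Real.exp_le_exp.2 ?_
    have h2 := (abs_le.1 (ht3 m j hm3)).2
    have h3 := mul_le_mul_of_nonneg_left h2 hA
    nlinarith
  have hI : 0 ≤ ∫ ω, (∑ c : ↥(Chp j z e), TT P X γ (cut P X (m + j)) N (cb (m + j) c) (ω c)) ^ q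
      ∂(Measure.pi fun _ : ↥(Chp j z e) => P) :=
    integral_nonneg fun ω => Real.rpow_nonneg
      (Finset.sum_nonneg fun c _ => tt_nonneg hX γ (cut P X (m + j)) N _ _) q
  have e1 : ∫ ω, (2 ^ (d * m) * ∑ c ∈ Chp j z e,
      TT P X γ (cut P X m) N (cb (m + j) c) ω) ^ q ∂P =
      (2 ^ (d * m) : ℝ) ^ q *
        ∫ ω, (∑ c ∈ Chp j z e, TT P X γ (cut P X m) N (cb (m + j) c) ω) ^ q ∂P := by
    rw [← integral_const_mul]
    refine integral_congr_ae (Filter.Eventually.of_forall fun ω => ?_)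
    simp only []
    rw [Real.mul_rpow hK.le (Finset.sum_nonneg fun c _ => tt_nonneg hX γ _ N ω _)]
  have e2 : ∫ ω, (1 / 2 ^ (d * j) * ∑ c : ↥(Chp j z e), TN P X γ (m + j) N c (ω c)) ^ q
      ∂(Measure.pi fun _ : ↥(Chp j z e) => P) =
      (2 ^ (d * m) : ℝ) ^ q *
        ∫ ω, (∑ c : ↥(Chp j z e), TT P X γ (cut P X (m + j)) N (cb (m + j) c) (ω c)) ^ q
          ∂(Measure.pi fun _ : ↥(Chp j z e) => P) := by
    rw [← integral_const_mul]
    refine integral_congr_ae (Filter.Eventually.of_forall fun ω => ?_)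
    simp only []
    rw [← Real.mul_rpow hK.le
      (Finset.sum_nonneg fun c _ => tt_nonneg hX γ (cut P X (m + j)) N _ _)]
    congr 1
    unfold TN
    rw [← Finset.sum_mul]
    have h4 : (2 : ℝ) ^ (d * (m + j)) = 2 ^ (d * m) * 2 ^ (d * j) := by
      rw [← pow_add]; ring_nf
    have h5 : (2 : ℝ) ^ (d * j) ≠ 0 := by positivity
    rw [h4]
    field_simp
  rw [e1, e2]
  calc (2 ^ (d * m) : ℝ) ^ q *
        ∫ ω, (∑ c ∈ Chp j z e, TT P X γ (cut P X m) N (cb (m + j) c) ω) ^ q ∂P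
      ≤ (2 ^ (d * m) : ℝ) ^ q * (C * (Real.exp ((q ^ 2 - q) * γ ^ 2 / 2) *
          2 ^ ((q ^ 2 - q) * γ ^ 2 / 2 * j)) *
        ∫ ω, (∑ c : ↥(Chp j z e), TT P X γ (cut P X (m + j)) N (cb (m + j) c) (ω c)) ^ q
          ∂(Measure.pi fun _ : ↥(Chp j z e) => P)) := by
        refine mul_le_mul_of_nonneg_left (key.trans ?_) (Real.rpow_nonneg hK.le q)
        exact mul_le_mul_of_nonneg_right (mul_le_mul_of_nonneg_left hexp hC.le) hI
    _ = _ := by ring

end Pool.Agent.MChaos
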