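import Mathlib

/-!
# Piece CES: weighted Cesaro means
-/

set_option autoImplicit false

open Filter
open scoped Topology

namespace Pool.Agent.MChaos

/-- For `δ > 0` and `i ≥ i₁`: `|a (i+1) - a i - τ log 2 (m (i+1) - m i)| ≤ δ (m (i+1) - m i) + 2`, sum over `i₁ ≤ j < i`, divide by `m i → ∞` -/
theorem ces (m k : ℕ → ℕ) (hm : ∀ i, m (i + 1) = m i + k i) (hk : ∀ i, 0 < k i) (hi : Tendsto (fun i : ℕ => (i : ℝ) / m i) atTop (𝓝 0)) (a T e : ℕ → ℝ) (τ : ℝ) (hT : Tendsto T atTop (𝓝 τ)) (he : Tendsto e atTop (𝓝 0))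
    (h : ∀ i, |a (i + 1) - a i - T i * (k i * Real.log 2)| ≤ e i * k i + 2) : Tendsto (fun i => a i / m i) atTop (𝓝 (τ * Real.log 2)) := by
  have hlog : 0 ≤ Real.log 2 := Real.log_nonneg (by norm_num)
  have hmi : ∀ i : ℕ, (i : ℝ) ≤ m i := by
    intro i
    have : i ≤ m i := by
      induction i with
      | zero => exact Nat.zero_le _
      | succ n ih => rw [hm n]; have := hk n; omega
    exact_mod_cast this
  have hmt : Tendsto (fun i => (m i : ℝ)) atTop atTop :=
    tendsto_atTop_mono hmi tendsto_natCast_atTop_atTop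
  have hsum : ∀ i, ∑ j ∈ Finset.range i, (k j : ℝ) = m i - m 0 := by
    intro i
    induction i with
    | zero => simp
    | succ n ih => rw [Finset.sum_range_succ, ih, hm n]; push_cast; ring
  set f : ℕ → ℝ := fun j => (|T j - τ| * Real.log 2 + e j) * k j with hf
  have hε : Tendsto (fun j => |T j - τ| * Real.log 2 + e j) atTop (𝓝 0) := by
    have h1 : Tendsto (fun j => |T j - τ|) atTop (𝓝 0) := by
      have := (hT.sub_const τ).abs
      simpa using this
    have h2 := (h1.mul_const (Real.log 2)).add he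
    simpa using h2
  have ho : f =o[atTop] (fun j => (k j : ℝ)) := by
    have h1 := ((Asymptotics.isLittleO_one_iff ℝ).2 hε).mul_isBigO
      (Asymptotics.isBigO_refl (fun j => (k j : ℝ)) atTop)
    simpa [hf] using h1
  have hkt : Tendsto (fun i => ∑ j ∈ Finset.range i, (k j : ℝ)) atTop atTop := by
    simp_rw [hsum]
    exact tendsto_atTop_add_const_right _ _ hmt
  have hS := ho.sum_range (fun i => Nat.cast_nonneg (k i)) hkt
  have hO : (fun i => ∑ j ∈ Finset.range i, (k j : ℝ)) =O[atTop] (fun i => (m i : ℝ)) := by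
    refine Asymptotics.IsBigO.of_bound 1 (Eventually.of_forall fun i => ?_)
    rw [hsum, one_mul, Real.norm_eq_abs, Real.norm_eq_abs, ← hsum,
      abs_of_nonneg (Finset.sum_nonneg fun j _ => Nat.cast_nonneg _), hsum,
      abs_of_nonneg (Nat.cast_nonneg _)]
    have : (0 : ℝ) ≤ m 0 := Nat.cast_nonneg _
    linarith
  have hS2 : Tendsto (fun i => (∑ j ∈ Finset.range i, f j) / (m i : ℝ)) atTop (𝓝 0) :=
    (hS.trans_isBigO hO).tendsto_div_nhds_zero
  have hb : ∀ i, |a i - τ * Real.log 2 * m i| ≤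
      |a 0 - τ * Real.log 2 * m 0| + ∑ j ∈ Finset.range i, f j + 2 * i := by
    intro i
    induction i with
    | zero => simp
    | succ n ih =>
      have h1 := h n
      have h2 : a (n + 1) - τ * Real.log 2 * m (n + 1) = (a n - τ * Real.log 2 * m n) +
          (a (n + 1) - a n - T n * (k n * Real.log 2)) + (T n - τ) * (k n * Real.log 2) := by
        rw [hm n]; push_cast; ring
      have h3 : |(T n - τ) * (k n * Real.log 2)| = |T n - τ| * Real.log 2 * k n := by
        rw [abs_mul, abs_of_nonneg (mul_nonneg (Nat.cast_nonneg (k n)) hlog)]; ring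
      have h4 : f n = |T n - τ| * Real.log 2 * k n + e n * k n := by simp only [hf]; ring
      rw [h2, Finset.sum_range_succ]
      push_cast
      have h5 := abs_add_le ((a n - τ * Real.log 2 * m n) +
        (a (n + 1) - a n - T n * (k n * Real.log 2))) ((T n - τ) * (k n * Real.log 2))
      have h6 := abs_add_le (a n - τ * Real.log 2 * m n)
        (a (n + 1) - a n - T n * (k n * Real.log 2))
      linarith
  rw [tendsto_iff_norm_sub_tendsto_zero]
  have hlim : Tendsto (fun i : ℕ => |a 0 - τ * Real.log 2 * m 0| / (m i : ℝ) +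
      (∑ j ∈ Finset.range i, f j) / (m i : ℝ) + 2 * ((i : ℝ) / m i)) atTop (𝓝 0) := by
    have h1 : Tendsto (fun i : ℕ => |a 0 - τ * Real.log 2 * m 0| / (m i : ℝ)) atTop (𝓝 0) :=
      hmt.const_div_atTop _
    have h2 := (h1.add hS2).add (hi.const_mul 2)
    simpa using h2
  refine squeeze_zero' (Eventually.of_forall fun i => norm_nonneg _) ?_ hlim
  filter_upwards [eventually_gt_atTop 0] with i hi0
  have hmpos : (0 : ℝ) < m i := lt_of_lt_of_le (by exact_mod_cast hi0) (hmi i)
  have h1 : a i / m i - τ * Real.log 2 = (a i - τ * Real.log 2 * m i) / m i := by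
    field_simp
  rw [h1, Real.norm_eq_abs, abs_div, abs_of_pos hmpos]
  have h2 : |a 0 - τ * Real.log 2 * m 0| / (m i : ℝ) + (∑ j ∈ Finset.range i, f j) / (m i : ℝ) +
      2 * ((i : ℝ) / m i) = (|a 0 - τ * Real.log 2 * m 0| + ∑ j ∈ Finset.range i, f j + 2 * i) / m i := by
    ring
  rw [h2]
  exact div_le_div_of_nonneg_right (hb i) hmpos.le

end Pool.Agent.MChaos
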