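import Pool.Agent.Lib_MP_a91488.GEO

/-!
# Piece CHN: Kolmogorov's chaining on a dyadic cube
-/

set_option autoImplicit false

open MeasureTheory ProbabilityTheory

namespace Pool.Agent.MChaos

private theorem chn_mem_Chd {d : ℕ} (j : ℕ) (z c : V d) : c ∈ Chd j z ↔ ∀ i, 2 ^ j * z i ≤ c i ∧ c i < 2 ^ j * (z i + 1) := by
  simp [Chd, Fintype.mem_piFinset]

/-- a point of a dyadic cube belongs to one of the children -/
private theorem chn_child {d : ℕ} (x : E d) (m : ℕ) (z : V d) : ∃ c : V d, x ∈ cb m z → c ∈ Chd 1 z ∧ x ∈ cb (m + 1) c := by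
  by_cases hx : x ∈ cb m z
  swap
  · exact ⟨z, fun h => absurd h hx⟩
  have hp : (0 : ℝ) < 2 ^ m := by positivity
  have key : ∀ i, ∃ k : ℕ, (2 * z i ≤ k ∧ k < 2 * (z i + 1)) ∧ (k : ℝ) / 2 ^ (m + 1) ≤ x i ∧ x i ≤ ((k : ℝ) + 1) / 2 ^ (m + 1) := by
    intro i
    obtain ⟨h1, h2⟩ := hx i
    rw [div_le_iff₀ hp] at h1
    rw [le_div_iff₀ hp] at h2
    by_cases h : x i * 2 ^ m ≤ (z i : ℝ) + 1 / 2
    · refine ⟨2 * z i, ⟨le_refl _, by omega⟩, ?_, ?_⟩
      · rw [div_le_iff₀ (by positivity), pow_succ]; push_cast; linarith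
      · rw [le_div_iff₀ (by positivity), pow_succ]; push_cast; linarith
    · push Not at h
      refine ⟨2 * z i + 1, ⟨by omega, by omega⟩, ?_, ?_⟩
      · rw [div_le_iff₀ (by positivity), pow_succ]; push_cast; linarith
      · rw [le_div_iff₀ (by positivity), pow_succ]; push_cast; linarith
  choose k hk1 hk2 using key
  refine ⟨k, fun _ => ⟨?_, hk2⟩⟩
  rw [chn_mem_Chd]
  intro i
  simpa using hk1 i

/-- the nested sequence of dyadic cubes which contain a given point -/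
private theorem chn_seq {d : ℕ} (x : E d) (m : ℕ) (z : V d) (hx : x ∈ cb m z) :
    ∃ s : ℕ → V d, s 0 = z ∧ ∀ j, x ∈ cb (m + j) (s j) ∧ s j ∈ Chd j z ∧ s (j + 1) ∈ Chd 1 (s j) := by
  choose F hF using chn_child x
  let s : ℕ → V d := fun j => Nat.rec z (fun j c => F (m + j) c) j
  have hs : ∀ j, s (j + 1) = F (m + j) (s j) := fun j => rfl
  have hmem : ∀ j, x ∈ cb (m + j) (s j) := by
    intro j
    induction j with
    | zero => exact hx
    | succ j ih =>
      rw [hs]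
      exact (hF _ _ ih).2
  have hch : ∀ j, s (j + 1) ∈ Chd 1 (s j) := by
    intro j
    rw [hs]
    exact (hF _ _ (hmem j)).1
  refine ⟨s, rfl, fun j => ⟨hmem j, ?_, hch j⟩⟩
  induction j with
  | zero =>
    rw [chn_mem_Chd]
    intro i
    have : s 0 = z := rfl
    rw [this]
    simp
  | succ j ih =>
    have h := hch j
    rw [chn_mem_Chd] at h ih ⊢
    intro i
    obtain ⟨h1, h2⟩ := h i
    obtain ⟨h3, h4⟩ := ih i
    rw [pow_one] at h1 h2
    rw [pow_succ']
    constructor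
    · calc 2 * 2 ^ j * z i = 2 * (2 ^ j * z i) := by ring
        _ ≤ 2 * s j i := Nat.mul_le_mul_left _ h3
        _ ≤ _ := h1
    · calc s (j + 1) i < 2 * (s j i + 1) := h2
        _ ≤ 2 * (2 ^ j * (z i + 1)) := Nat.mul_le_mul_left _ h4
        _ = 2 * 2 ^ j * (z i + 1) := by ring

/-- the deterministic part: small increments along all chains give small oscillation -/
private theorem chn_det {d : ℕ} (m : ℕ) (z : V d) (g : E d → ℝ) (hg : Continuous g) (q c : ℝ) (hq : 0 < q) (hq1 : q < 1) (hc : c = (1 - q) / 2)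
    (h : ∀ j, ∀ a ∈ Chd j z, ∀ b ∈ Chd 1 a, |g (cor (m + j + 1) b) - g (cor (m + j) a)| ≤ c * q ^ j)
    (x : E d) (hx : x ∈ cb m z) : |g x - g (cor m z)| ≤ 1 / 2 := by
  obtain ⟨s, hs0, hs⟩ := chn_seq x m z hx
  -- partial sums
  have h1 : ∀ J, |g (cor (m + J) (s J)) - g (cor m z)| ≤ (1 - q ^ J) / 2 := by
    intro J
    induction J with
    | zero => simp [hs0]
    | succ J ih =>
      have h2 := h J (s J) (hs J).2.1 (s (J + 1)) (hs J).2.2
      have h3 : g (cor (m + (J + 1)) (s (J + 1))) - g (cor m z) =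
          (g (cor (m + J + 1) (s (J + 1))) - g (cor (m + J) (s J))) + (g (cor (m + J) (s J)) - g (cor m z)) := by
        rw [show m + (J + 1) = m + J + 1 from rfl]
        ring
      rw [h3]
      refine le_trans (abs_add_le _ _) (le_trans (add_le_add h2 ih) ?_)
      rw [hc, pow_succ]
      apply le_of_eq
      ring
  have h1' : ∀ J, |g (cor (m + J) (s J)) - g (cor m z)| ≤ 1 / 2 := by
    intro J
    refine le_trans (h1 J) ?_
    have : 0 < q ^ J := pow_pos hq J
    linarith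
  -- the corners converge to `x`
  have hlim : Filter.Tendsto (fun J => cor (m + J) (s J)) Filter.atTop (nhds x) := by
    rw [tendsto_iff_norm_sub_tendsto_zero]
    have h0 : Filter.Tendsto (fun J : ℕ => Real.sqrt d / 2 ^ m * (1 / 2 : ℝ) ^ J) Filter.atTop (nhds 0) := by
      have := (tendsto_pow_atTop_nhds_zero_of_lt_one (r := (1 / 2 : ℝ)) (by norm_num) (by norm_num)).const_mul (Real.sqrt d / 2 ^ m)
      simpa using this
    refine squeeze_zero (fun J => norm_nonneg _) (fun J => ?_) h0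
    refine le_trans (cb_diam (m + J) (s J) _ x (cor_mem _ _) (hs J).1) ?_
    rw [pow_add]
    apply le_of_eq
    rw [one_div, inv_pow]
    field_simp
  have hlim2 : Filter.Tendsto (fun J => |g (cor (m + J) (s J)) - g (cor m z)|) Filter.atTop (nhds |g x - g (cor m z)|) :=
    (((hg.tendsto x).comp hlim).sub_const _).abs
  exact le_of_tendsto hlim2 (Filter.Eventually.of_forall h1')

/-- Grid points of mesh `2^(-(m+j))` in `cb m z`. If all differences of `f` between neighbouring grid points of level `j` are at most `c 2^(-j/2)` (for all `j ≥ 0`, `c` small, depending only on `d`), then by continuity `|f x - f y| ≤ 1` on `cb m z`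
(chaining: every grid point of level `j + 1` is at most `d` steps of level `j + 1` away from a grid point of level `j`). The probability that this fails is at most
`∑_j (number of pairs ≤ C 2^(d j)) K (2^(-j))^r / (c 2^(-j/2))^r ≤ C' K ∑_j 2^(d j - j r/2)`, summable since `r ≥ 2 d + 1`. -/
theorem chain (d : ℕ) (r : ℝ) (hr : 2 * d + 1 ≤ r) : ∃ C : ℝ, 0 < C ∧ ∀ (Ω : Type) [MeasurableSpace Ω] (P : Measure Ω) [IsProbabilityMeasure P] (f : Ω → E d → ℝ),
    (∀ x, Measurable (fun ω => f ω x)) → (∀ ω, Continuous (f ω)) → ∀ (m : ℕ) (z : V d) (K : ℝ), 0 ≤ K →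
    (∀ x ∈ cb m z, ∀ y ∈ cb m z, Integrable (fun ω => |f ω x - f ω y| ^ r) P ∧ ∫ ω, |f ω x - f ω y| ^ r ∂P ≤ K * (2 ^ m * ‖x - y‖) ^ r) →
    P.real {ω | ∃ x ∈ cb m z, ∃ y ∈ cb m z, 1 < |f ω x - f ω y|} ≤ C * K := by
  set q : ℝ := (Real.sqrt 2)⁻¹ with hqdef
  have hs2 : (1 : ℝ) < Real.sqrt 2 := by
    rw [show (1 : ℝ) = Real.sqrt 1 by simp]
    exact Real.sqrt_lt_sqrt (by norm_num) (by norm_num)
  have hq : 0 < q := by positivity
  have hq1 : q < 1 := inv_lt_one_of_one_lt₀ hs2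
  have hqq : q ^ 2 = 1 / 2 := by
    rw [hqdef, inv_pow, Real.sq_sqrt (by norm_num)]
    norm_num
  set c : ℝ := (1 - q) / 2 with hc
  have hcpos : 0 < c := by rw [hc]; linarith
  have hr0 : 0 < r := by
    have : (0 : ℝ) ≤ d := Nat.cast_nonneg d
    linarith
  set D : ℝ := (Real.sqrt d / c) ^ r with hD
  have hD0 : 0 ≤ D := by positivity
  refine ⟨2 ^ d * D * (1 - q)⁻¹ + 1, by
    have : 0 < 1 - q := by linarith
    positivity, ?_⟩
  intro Ω _ P _ f hfm hfc m z K hK hmom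
  -- the bad events
  let B : ℕ → V d → V d → Set Ω := fun j a b => {ω | c * q ^ j < |f ω (cor (m + j + 1) b) - f ω (cor (m + j) a)|}
  have hsub : {ω | ∃ x ∈ cb m z, ∃ y ∈ cb m z, 1 < |f ω x - f ω y|} ⊆ ⋃ j, ⋃ a ∈ Chd j z, ⋃ b ∈ Chd 1 a, B j a b := by
    intro ω hω
    by_contra hcon
    have hall : ∀ j, ∀ a ∈ Chd j z, ∀ b ∈ Chd 1 a, |f ω (cor (m + j + 1) b) - f ω (cor (m + j) a)| ≤ c * q ^ j := by
      intro j a ha b hb
      by_contra hlt
      push Not at hlt
      apply hcon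
      simp only [Set.mem_iUnion]
      exact ⟨j, a, ha, b, hb, hlt⟩
    obtain ⟨x, hx, y, hy, hxy⟩ := hω
    have h1 := chn_det m z (f ω) (hfc ω) q c hq hq1 hc hall x hx
    have h2 := chn_det m z (f ω) (hfc ω) q c hq hq1 hc hall y hy
    have h3 : f ω x - f ω y = (f ω x - f ω (cor m z)) - (f ω y - f ω (cor m z)) := by ring
    rw [h3] at hxy
    have h4 := abs_sub (f ω x - f ω (cor m z)) (f ω y - f ω (cor m z))
    linarith
  -- bound for one event
  have hone : ∀ j, ∀ a ∈ Chd j z, ∀ b ∈ Chd 1 a, P (B j a b) ≤ ENNReal.ofReal (K * D * (q ^ j) ^ (2 * d + 1)) := by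
    intro j a ha b hb
    have hbm : cor (m + j + 1) b ∈ cb (m + j) a := Chd_sub (m + j) 1 a b hb (cor_mem _ _)
    have ham : cor (m + j) a ∈ cb (m + j) a := cor_mem _ _
    have hsubz : cb (m + j) a ⊆ cb m z := Chd_sub m j z a ha
    obtain ⟨hint, hle⟩ := hmom _ (hsubz hbm) _ (hsubz ham)
    have hdiam := cb_diam (m + j) a _ _ hbm ham
    set ε : ℝ := (c * q ^ j) ^ r with hε
    have hεpos : 0 < ε := by positivity
    have hmark := mul_meas_ge_le_integral_of_nonneg (μ := P) (f := fun ω => |f ω (cor (m + j + 1) b) - f ω (cor (m + j) a)| ^ r)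
      (Filter.Eventually.of_forall fun ω => by positivity) hint ε
    have hBsub : B j a b ⊆ {ω | ε ≤ |f ω (cor (m + j + 1) b) - f ω (cor (m + j) a)| ^ r} := by
      intro ω hω
      exact Real.rpow_le_rpow (by positivity) (le_of_lt hω) hr0.le
    have hPB : P.real (B j a b) ≤ P.real {ω | ε ≤ |f ω (cor (m + j + 1) b) - f ω (cor (m + j) a)| ^ r} :=
      measureReal_mono hBsub
    have hqj : q ^ (2 * j) = 1 / 2 ^ j := by
      rw [pow_mul, hqq, div_pow, one_pow]
    have hnorm : 2 ^ m * ‖cor (m + j + 1) b - cor (m + j) a‖ ≤ Real.sqrt d / c * q ^ j * (c * q ^ j) := by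
      calc 2 ^ m * ‖cor (m + j + 1) b - cor (m + j) a‖ ≤ 2 ^ m * (Real.sqrt d / 2 ^ (m + j)) := by gcongr
        _ = Real.sqrt d * (1 / 2 ^ j) := by rw [pow_add]; field_simp
        _ = Real.sqrt d * q ^ (2 * j) := by rw [hqj]
        _ = Real.sqrt d / c * q ^ j * (c * q ^ j) := by
          rw [two_mul, pow_add]; field_simp
    have hpow : (2 ^ m * ‖cor (m + j + 1) b - cor (m + j) a‖) ^ r ≤ D * (q ^ j) ^ (2 * d + 1) * ε := by
      calc (2 ^ m * ‖cor (m + j + 1) b - cor (m + j) a‖) ^ r ≤ (Real.sqrt d / c * q ^ j * (c * q ^ j)) ^ r :=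
            Real.rpow_le_rpow (by positivity) hnorm hr0.le
        _ = D * (q ^ j) ^ r * ε := by
            rw [Real.mul_rpow (by positivity) (by positivity), Real.mul_rpow (by positivity) (by positivity)]
        _ ≤ D * (q ^ j) ^ (2 * d + 1) * ε := by
            gcongr
            have h5 : (q ^ j) ^ r ≤ (q ^ j) ^ ((2 * d + 1 : ℕ) : ℝ) := by
              apply Real.rpow_le_rpow_of_exponent_ge (by positivity) (pow_le_one₀ hq.le hq1.le)
              push_cast
              exact hr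
            rwa [Real.rpow_natCast] at h5
    have hfin : P.real (B j a b) ≤ K * D * (q ^ j) ^ (2 * d + 1) := by
      have h6 : ε * P.real (B j a b) ≤ ε * (K * D * (q ^ j) ^ (2 * d + 1)) := by
        calc ε * P.real (B j a b) ≤ ε * P.real {ω | ε ≤ |f ω (cor (m + j + 1) b) - f ω (cor (m + j) a)| ^ r} := by gcongr
          _ ≤ _ := hmark
          _ ≤ _ := hle
          _ ≤ K * (D * (q ^ j) ^ (2 * d + 1) * ε) := by gcongr
          _ = ε * (K * D * (q ^ j) ^ (2 * d + 1)) := by ring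
      exact le_of_mul_le_mul_left h6 hεpos
    rw [← ofReal_measureReal]
    exact ENNReal.ofReal_le_ofReal hfin
  -- union bound
  have hqd : ∀ j : ℕ, (2 : ℝ) ^ (d * j) * (q ^ j) ^ (2 * d + 1) = q ^ j := by
    intro j
    have h7 : (q ^ j) ^ (2 * d + 1) = (q ^ 2) ^ (d * j) * q ^ j := by
      rw [← pow_mul, ← pow_mul, ← pow_add]
      congr 1
      ring
    rw [h7, hqq, ← mul_assoc, ← mul_pow]
    norm_num
  have hlev : ∀ j, P (⋃ a ∈ Chd j z, ⋃ b ∈ Chd 1 a, B j a b) ≤ ENNReal.ofReal (2 ^ d * D * K * q ^ j) := by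
    intro j
    calc P (⋃ a ∈ Chd j z, ⋃ b ∈ Chd 1 a, B j a b) ≤ ∑ a ∈ Chd j z, P (⋃ b ∈ Chd 1 a, B j a b) := measure_biUnion_finset_le _ _
      _ ≤ ∑ a ∈ Chd j z, ∑ b ∈ Chd 1 a, P (B j a b) := Finset.sum_le_sum fun a _ => measure_biUnion_finset_le _ _
      _ ≤ ∑ a ∈ Chd j z, ∑ b ∈ Chd 1 a, ENNReal.ofReal (K * D * (q ^ j) ^ (2 * d + 1)) :=
          Finset.sum_le_sum fun a ha => Finset.sum_le_sum fun b hb => hone j a ha b hb
      _ = (2 ^ (d * j) * 2 ^ d : ℕ) * ENNReal.ofReal (K * D * (q ^ j) ^ (2 * d + 1)) := by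
          rw [Finset.sum_congr rfl (fun a _ => by rw [Finset.sum_const, Chd_card, mul_one]), Finset.sum_const, Chd_card]
          simp only [nsmul_eq_mul]
          push_cast
          ring
      _ = ENNReal.ofReal (2 ^ d * D * K * q ^ j) := by
          rw [← ENNReal.ofReal_natCast, ← ENNReal.ofReal_mul (by positivity)]
          congr 1
          push_cast
          calc (2 : ℝ) ^ (d * j) * 2 ^ d * (K * D * (q ^ j) ^ (2 * d + 1)) = 2 ^ d * D * K * (2 ^ (d * j) * (q ^ j) ^ (2 * d + 1)) := by ring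
            _ = _ := by rw [hqd]
  have htot : P (⋃ j, ⋃ a ∈ Chd j z, ⋃ b ∈ Chd 1 a, B j a b) ≤ ENNReal.ofReal (2 ^ d * D * K * (1 - q)⁻¹) := by
    have hsum : Summable (fun j : ℕ => 2 ^ d * D * K * q ^ j) := (summable_geometric_of_lt_one hq.le hq1).mul_left _
    calc P (⋃ j, ⋃ a ∈ Chd j z, ⋃ b ∈ Chd 1 a, B j a b) ≤ ∑' j, P (⋃ a ∈ Chd j z, ⋃ b ∈ Chd 1 a, B j a b) := measure_iUnion_le _
      _ ≤ ∑' j : ℕ, ENNReal.ofReal (2 ^ d * D * K * q ^ j) := ENNReal.tsum_le_tsum hlev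
      _ = ENNReal.ofReal (∑' j : ℕ, 2 ^ d * D * K * q ^ j) := (ENNReal.ofReal_tsum_of_nonneg (fun j => by positivity) hsum).symm
      _ = ENNReal.ofReal (2 ^ d * D * K * (1 - q)⁻¹) := by
          rw [tsum_mul_left, tsum_geometric_of_lt_one hq.le hq1]
  have h1q : 0 < 1 - q := by linarith
  have hres : P.real {ω | ∃ x ∈ cb m z, ∃ y ∈ cb m z, 1 < |f ω x - f ω y|} ≤ 2 ^ d * D * K * (1 - q)⁻¹ := by
    rw [Measure.real]
    refine ENNReal.toReal_le_of_le_ofReal (by positivity) ?_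
    exact le_trans (measure_mono hsub) htot
  calc P.real {ω | ∃ x ∈ cb m z, ∃ y ∈ cb m z, 1 < |f ω x - f ω y|} ≤ 2 ^ d * D * K * (1 - q)⁻¹ := hres
    _ = (2 ^ d * D * (1 - q)⁻¹) * K := by ring
    _ ≤ (2 ^ d * D * (1 - q)⁻¹ + 1) * K := by
        gcongr
        linarith

end Pool.Agent.MChaos
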