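import Pool.Agent.Lib_MP_a91488.CMPS

/-!
# Piece CMP: the comparison theorem for two families
-/

set_option autoImplicit false

open MeasureTheory

namespace Pool.Agent.MChaos

section cmp

variable {ι κ : Type} {Ω : ι → Type} {Θ : κ → Type}

/-- the sample spaces of both families -/
def cmpO (Ω : ι → Type) (Θ : κ → Type) : ι ⊕ κ → Type
  | .inl i => Ω i
  | .inr j => Θ j

instance cmpOms [h1 : ∀ k, MeasurableSpace (Ω k)] [h2 : ∀ k, MeasurableSpace (Θ k)] :
    ∀ k, MeasurableSpace (cmpO Ω Θ k)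
  | .inl i => h1 i
  | .inr j => h2 j

/-- the measures of both families -/
noncomputable def cmpP [∀ k, MeasurableSpace (Ω k)] [∀ k, MeasurableSpace (Θ k)]
    (P : ∀ k, Measure (Ω k)) (R : ∀ k, Measure (Θ k)) : ∀ k, Measure (cmpO Ω Θ k)
  | .inl i => P i
  | .inr j => R j

/-- the weights of both families -/
def cmpW {D : Type} (w : ∀ k, Ω k → D → ℝ) (v : ∀ k, Θ k → D → ℝ) : ∀ k, cmpO Ω Θ k → D → ℝ
  | .inl i => w i
  | .inr j => v j

theorem cmpP_prob [∀ k, MeasurableSpace (Ω k)] [∀ k, MeasurableSpace (Θ k)]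
    (P : ∀ k, Measure (Ω k)) (R : ∀ k, Measure (Θ k)) [h1 : ∀ k, IsProbabilityMeasure (P k)]
    [h2 : ∀ k, IsProbabilityMeasure (R k)] (k : ι ⊕ κ) : IsProbabilityMeasure (cmpP P R k) := by
  cases k with
  | inl i => exact h1 i
  | inr j => exact h2 j

variable [Fintype ι] [DecidableEq ι] [Fintype κ] [DecidableEq κ]

theorem cmp_left {D : Type} [MeasurableSpace D] (m : Measure D) [∀ k, MeasurableSpace (Ω k)]
    [∀ k, MeasurableSpace (Θ k)] (P : ∀ k, Measure (Ω k)) (R : ∀ k, Measure (Θ k))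
    [∀ k, IsProbabilityMeasure (P k)] [∀ k, IsProbabilityMeasure (R k)]
    (w : ∀ k, Ω k → D → ℝ) (v : ∀ k, Θ k → D → ℝ) (q : ℝ) :
    phi (cmpP P R) m (cmpW w v) q (Finset.univ.map Function.Embedding.inl) =
      phi P m w q Finset.univ := by
  have : ∀ k, IsProbabilityMeasure (cmpP P R k) := cmpP_prob P R
  have h1 : phi (cmpP P R) m (cmpW w v) q (Finset.univ.map Function.Embedding.inl) =
      ∫ ω, (fun z : (∀ i, cmpO Ω Θ (.inl i)) × (∀ j, cmpO Ω Θ (.inr j)) =>
        mass m w Finset.univ z.1 ^ q) (MeasurableEquiv.sumPiEquivProdPi (cmpO Ω Θ) ω)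
        ∂(Measure.pi (cmpP P R)) := by
    unfold phi
    congr 1
    ext ω
    congr 1
    unfold mass
    congr 1
    ext x
    unfold fC
    rw [Finset.prod_map]
    rfl
  have h4 := (measurePreserving_sumPiEquivProdPi (cmpP P R)).integral_comp'
    (fun z : (∀ i, cmpO Ω Θ (.inl i)) × (∀ j, cmpO Ω Θ (.inr j)) => mass m w Finset.univ z.1 ^ q)
  have h2 := integral_fun_fst (μ := Measure.pi fun i => cmpP P R (.inl i))
    (ν := Measure.pi fun j => cmpP P R (.inr j))
    (fun z : (∀ i, cmpO Ω Θ (.inl i)) => mass m w Finset.univ z ^ q)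
  have h3 : (Measure.pi fun j => cmpP P R (.inr j)).real Set.univ = 1 := by
    have : ∀ j, IsProbabilityMeasure ((fun j => cmpP P R (.inr j)) j) := fun j => cmpP_prob P R _
    exact probReal_univ
  rw [h3, one_smul] at h2
  exact h1.trans (h4.trans h2)

theorem cmp_right {D : Type} [MeasurableSpace D] (m : Measure D) [∀ k, MeasurableSpace (Ω k)]
    [∀ k, MeasurableSpace (Θ k)] (P : ∀ k, Measure (Ω k)) (R : ∀ k, Measure (Θ k))
    [∀ k, IsProbabilityMeasure (P k)] [∀ k, IsProbabilityMeasure (R k)]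
    (w : ∀ k, Ω k → D → ℝ) (v : ∀ k, Θ k → D → ℝ) (q : ℝ) :
    phi (cmpP P R) m (cmpW w v) q (Finset.univ.map Function.Embedding.inr) =
      phi R m v q Finset.univ := by
  have : ∀ k, IsProbabilityMeasure (cmpP P R k) := cmpP_prob P R
  have h1 : phi (cmpP P R) m (cmpW w v) q (Finset.univ.map Function.Embedding.inr) =
      ∫ ω, (fun z : (∀ i, cmpO Ω Θ (.inl i)) × (∀ j, cmpO Ω Θ (.inr j)) =>
        mass m v Finset.univ z.2 ^ q) (MeasurableEquiv.sumPiEquivProdPi (cmpO Ω Θ) ω)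
        ∂(Measure.pi (cmpP P R)) := by
    unfold phi
    congr 1
    ext ω
    congr 1
    unfold mass
    congr 1
    ext x
    unfold fC
    rw [Finset.prod_map]
    rfl
  have h4 := (measurePreserving_sumPiEquivProdPi (cmpP P R)).integral_comp'
    (fun z : (∀ i, cmpO Ω Θ (.inl i)) × (∀ j, cmpO Ω Θ (.inr j)) => mass m v Finset.univ z.2 ^ q)
  have h2 := integral_fun_snd (μ := Measure.pi fun i => cmpP P R (.inl i))
    (ν := Measure.pi fun j => cmpP P R (.inr j))
    (fun z : (∀ j, cmpO Ω Θ (.inr j)) => mass m v Finset.univ z ^ q)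
  have h3 : (Measure.pi fun i => cmpP P R (.inl i)).real Set.univ = 1 := by
    have : ∀ i, IsProbabilityMeasure ((fun i => cmpP P R (.inl i)) i) := fun i => cmpP_prob P R _
    exact probReal_univ
  rw [h3, one_smul] at h2
  exact h1.trans (h4.trans h2)

end cmp

/-- `compare_sum` for `ι ⊕ κ`; `phi` for `A = univ.map inl` is the `phi` of the first family: `mass` depends only on the coordinates in `A`, `measurePreserving_sumPiEquivProdPi` -/
theorem compare (q s : ℝ) (hs : 3 < s) (M : ℝ → ℝ) : ∃ K : ℝ, 0 < K ∧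
    ∀ (D : Type) [MeasurableSpace D] (m : Measure D) [IsFiniteMeasure m] (_ : m ≠ 0)
      (ι : Type) [Fintype ι] [DecidableEq ι] (Ω : ι → Type) [∀ k, MeasurableSpace (Ω k)] (P : ∀ k, Measure (Ω k)) [∀ k, IsProbabilityMeasure (P k)]
      (w : ∀ k, Ω k → D → ℝ) (a : ι → D → ℝ) (_ : ∀ k, Wt (P k) (w k) (a k) s M)
      (κ : Type) [Fintype κ] [DecidableEq κ] (Θ : κ → Type) [∀ k, MeasurableSpace (Θ k)] (R : ∀ k, Measure (Θ k)) [∀ k, IsProbabilityMeasure (R k)]
      (v : ∀ k, Θ k → D → ℝ) (b : κ → D → ℝ) (_ : ∀ k, Wt (R k) (v k) (b k) s M)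
      (A₀ A₁ : ℝ) (_ : 0 ≤ A₁) (_ : ∀ x, ∑ k, a k x + ∑ k, b k x ≤ A₀)
      (_ : ∀ᵐ x ∂m, ∀ᵐ y ∂m, q * (q - 1) * (∑ k, cw (P k) (w k) x y - ∑ k, cw (R k) (v k) x y) ≤ A₁),
      phi P m w q Finset.univ ≤ Real.exp (K * (A₀ + A₁)) * phi R m v q Finset.univ := by
  obtain ⟨K, hK, hmain⟩ := compare_sum q s hs M
  refine ⟨K, hK, ?_⟩
  intro D _ m _ hm ι _ _ Ω _ P _ w a hw κ _ _ Θ _ R _ v b hv A₀ A₁ hA₁ hA₀ hc
  have hprob : ∀ k, IsProbabilityMeasure (cmpP P R k) := cmpP_prob P R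
  have hW : ∀ k, Wt (cmpP P R k) (cmpW w v k) ((Sum.elim a b : ι ⊕ κ → D → ℝ) k) s M := by
    intro k
    cases k with
    | inl i => exact hw i
    | inr j => exact hv j
  have hd : Disjoint (Finset.univ.map (Function.Embedding.inl : ι ↪ ι ⊕ κ))
      (Finset.univ.map (Function.Embedding.inr : κ ↪ ι ⊕ κ)) := by
    rw [Finset.disjoint_left]
    intro k hk hk'
    obtain ⟨i, _, rfl⟩ := Finset.mem_map.1 hk
    obtain ⟨j, _, hj⟩ := Finset.mem_map.1 hk'
    exact absurd hj (by simp)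
  have hu : Finset.univ.map (Function.Embedding.inl : ι ↪ ι ⊕ κ) ∪
      Finset.univ.map (Function.Embedding.inr : κ ↪ ι ⊕ κ) = Finset.univ := by
    ext k
    cases k with
    | inl i => simp
    | inr j => simp
  have h := hmain D m hm (ι ⊕ κ) (cmpO Ω Θ) (cmpP P R) (cmpW w v) (Sum.elim a b) hW _ _ hd hu
    A₀ A₁ hA₁ (fun x => by
      rw [Fintype.sum_sum_type]
      exact hA₀ x) (by
      filter_upwards [hc] with x hx
      filter_upwards [hx] with y hy
      rw [Finset.sum_map, Finset.sum_map]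
      exact hy)
  rw [cmp_left, cmp_right] at h
  exact h

end Pool.Agent.MChaos
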