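import Mathlib

/-!
# Piece RUS: interpolation along a path of product measures on subsets (Russo's formula and Gronwall)
-/

set_option autoImplicit false

namespace Pool.Agent.MChaos

namespace RusAux

variable {ι : Type} [Fintype ι] [DecidableEq ι]

/-- the probability of `k` -/
noncomputable def pr (A : Finset ι) (k : ι) (t : ℝ) : ℝ := if k ∈ A then t else 1 - t

/-- the factor of `k` in the weight of `C` -/
noncomputable def fc (A C : Finset ι) (k : ι) (t : ℝ) : ℝ :=
  if k ∈ C then pr A k t else 1 - pr A k t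

/-- the derivative of the probability -/
noncomputable def sg (A : Finset ι) (k : ι) : ℝ := if k ∈ A then 1 else -1

/-- toggle -/
def tog (k : ι) (C : Finset ι) : Finset ι := if k ∈ C then C.erase k else insert k C

omit [Fintype ι] in
lemma tog_tog (k : ι) (C : Finset ι) : tog k (tog k C) = C := by
  unfold tog
  by_cases h : k ∈ C
  · simp [h, Finset.insert_erase h]
  · simp [h, Finset.erase_insert h]

omit [Fintype ι] in
lemma mem_tog (k : ι) (C : Finset ι) : k ∈ tog k C ↔ k ∉ C := by
  unfold tog
  by_cases h : k ∈ C <;> simp [h]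

omit [Fintype ι] in
lemma mem_tog_ne {k j : ι} (hj : j ≠ k) (C : Finset ι) : j ∈ tog k C ↔ j ∈ C := by
  unfold tog
  by_cases h : k ∈ C <;> simp [h, hj]

omit [Fintype ι] in
lemma insert_tog (k : ι) (C : Finset ι) : insert k (tog k C) = insert k C := by
  ext j
  by_cases hj : j = k
  · simp [hj]
  · simp [hj, mem_tog_ne hj]

omit [Fintype ι] in
lemma erase_tog (k : ι) (C : Finset ι) : (tog k C).erase k = C.erase k := by
  ext j
  by_cases hj : j = k
  · simp [hj]
  · simp [hj, mem_tog_ne hj]

lemma sum_tog (k : ι) (f : Finset ι → ℝ) : ∑ C, f (tog k C) = ∑ C, f C :=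
  Fintype.sum_equiv (Equiv.ofBijective (tog k)
    (Function.Involutive.bijective (tog_tog k))) _ _ fun _ => rfl

omit [Fintype ι] in
lemma hasDerivAt_fc (A C : Finset ι) (k : ι) (t : ℝ) :
    HasDerivAt (fc A C k) ((if k ∈ C then 1 else -1) * sg A k) t := by
  have h1 : HasDerivAt (pr A k) (sg A k) t := by
    unfold pr sg
    by_cases hk : k ∈ A
    · simp only [hk, if_true]
      exact hasDerivAt_id t
    · simp only [hk, if_false]
      exact (hasDerivAt_id t).const_sub 1
  unfold fc
  by_cases hk : k ∈ C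
  · simp only [hk, if_true, one_mul]
    exact h1
  · simp only [hk, if_false, neg_mul, one_mul]
    exact h1.const_sub 1

/-- the weight of `C` -/
noncomputable def wt (A C : Finset ι) (t : ℝ) : ℝ := ∏ k, fc A C k t

/-- the two expressions of the derivative agree for each `k` -/
lemma per_k (A : Finset ι) (φ : Finset ι → ℝ) (k : ι) (t : ℝ) :
    ∑ C, (∏ j ∈ Finset.univ.erase k, fc A C j t) * ((if k ∈ C then 1 else -1) * φ C) =
      ∑ C, wt A C t * (φ (insert k C) - φ (C.erase k)) := by
  have hP : ∀ C, (∏ j ∈ Finset.univ.erase k, fc A (tog k C) j t) =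
      ∏ j ∈ Finset.univ.erase k, fc A C j t := by
    intro C
    apply Finset.prod_congr rfl
    intro j hj
    have hj' : j ≠ k := (Finset.mem_erase.1 hj).1
    unfold fc
    simp only [mem_tog_ne hj']
  have hw : ∀ C, wt A C t = fc A C k t * ∏ j ∈ Finset.univ.erase k, fc A C j t := by
    intro C
    unfold wt
    rw [Finset.mul_prod_erase Finset.univ (fun j => fc A C j t) (Finset.mem_univ k)]
  have e1 := sum_tog k fun C =>
    (∏ j ∈ Finset.univ.erase k, fc A C j t) * ((if k ∈ C then 1 else -1) * φ C)
  have e2 := sum_tog k fun C => wt A C t * (φ (insert k C) - φ (C.erase k))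
  have e3 : ∑ C, (∏ j ∈ Finset.univ.erase k, fc A C j t) * ((if k ∈ C then 1 else -1) * φ C) +
      ∑ C, (∏ j ∈ Finset.univ.erase k, fc A (tog k C) j t) *
        ((if k ∈ tog k C then 1 else -1) * φ (tog k C)) =
      ∑ C, (∏ j ∈ Finset.univ.erase k, fc A C j t) * (φ (insert k C) - φ (C.erase k)) := by
    rw [← Finset.sum_add_distrib]
    apply Finset.sum_congr rfl
    intro C _
    rw [hP, ← mul_add]
    congr 1
    by_cases hk : k ∈ C
    · simp [hk, tog, Finset.insert_eq_self.2 hk]
      ring
    · simp [hk, tog, Finset.erase_eq_of_notMem hk]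
      ring
  have e4 : ∑ C, wt A C t * (φ (insert k C) - φ (C.erase k)) +
      ∑ C, wt A (tog k C) t * (φ (insert k (tog k C)) - φ ((tog k C).erase k)) =
      ∑ C, (∏ j ∈ Finset.univ.erase k, fc A C j t) * (φ (insert k C) - φ (C.erase k)) := by
    rw [← Finset.sum_add_distrib]
    apply Finset.sum_congr rfl
    intro C _
    rw [insert_tog, erase_tog, hw, hw, hP, ← add_mul, ← add_mul]
    have : fc A C k t + fc A (tog k C) k t = 1 := by
      unfold fc
      by_cases hk : k ∈ C
      · simp [hk, mem_tog]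
      · simp [hk, mem_tog]
    rw [this, one_mul]
  linarith

end RusAux

open RusAux

/-- `π_k(t) = t` for `k ∈ A`, `1 - t` for `k ∈ B`, `Φ(t) = ∑_C (∏_{k ∈ C} π_k(t)) (∏_{k ∉ C} (1 - π_k(t))) φ C`, `Φ(1) = φ A`, `Φ(0) = φ B`,
`Φ'(t) = ∑_k π_k'(t) ∑_C (weight of C) (φ (insert k C) - φ (C.erase k)) ≤ L Φ(t)` (the difference does not depend on whether `k ∈ C`, so the sum over the subsets of the other elements is the sum over all `C`).
Gronwall: `Φ(t) e^(-L t)` is decreasing on `[0, 1]`. -/
theorem russo {ι : Type} [Fintype ι] [DecidableEq ι] (A B : Finset ι) (hd : Disjoint A B) (hu : A ∪ B = Finset.univ) (φ : Finset ι → ℝ)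
    (h0 : ∀ C, 0 ≤ φ C) (L : ℝ)
    (h : ∀ C, ∑ k ∈ A, (φ (insert k C) - φ (C.erase k)) - ∑ k ∈ B, (φ (insert k C) - φ (C.erase k)) ≤ L * φ C) :
    φ A ≤ Real.exp L * φ B := by
  classical
  have hB : ∀ k, k ∈ B ↔ k ∉ A := by
    intro k
    constructor
    · intro hk hk'
      exact Finset.disjoint_left.1 hd hk' hk
    · intro hk
      have : k ∈ A ∪ B := by rw [hu]; exact Finset.mem_univ k
      rcases Finset.mem_union.1 this with h1 | h1
      · exact absurd h1 hk
      · exact h1
  set Φ : ℝ → ℝ := fun t => ∑ C, wt A C t * φ C with hΦ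
  have hder : ∀ t, HasDerivAt Φ (∑ C, wt A C t * (∑ k ∈ A, (φ (insert k C) - φ (C.erase k)) -
      ∑ k ∈ B, (φ (insert k C) - φ (C.erase k)))) t := by
    intro t
    have h1 : HasDerivAt Φ (∑ C, (∑ k, (∏ j ∈ Finset.univ.erase k, fc A C j t) •
        ((if k ∈ C then 1 else -1) * sg A k)) * φ C) t := by
      apply HasDerivAt.fun_sum
      intro C _
      apply HasDerivAt.mul_const
      exact HasDerivAt.fun_finset_prod fun k _ => hasDerivAt_fc A C k t
    convert h1 using 1
    have e1 : ∑ C, (∑ k, (∏ j ∈ Finset.univ.erase k, fc A C j t) •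
        ((if k ∈ C then 1 else -1) * sg A k)) * φ C =
        ∑ k, sg A k * ∑ C, (∏ j ∈ Finset.univ.erase k, fc A C j t) *
          ((if k ∈ C then 1 else -1) * φ C) := by
      simp only [Finset.sum_mul, Finset.mul_sum, smul_eq_mul]
      rw [Finset.sum_comm]
      apply Finset.sum_congr rfl
      intro k _
      apply Finset.sum_congr rfl
      intro C _
      ring
    rw [e1]
    simp only [per_k, Finset.mul_sum]
    rw [Finset.sum_comm]
    apply Finset.sum_congr rfl
    intro C _
    have e2 : ∑ k, sg A k * (wt A C t * (φ (insert k C) - φ (C.erase k))) =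
        wt A C t * ∑ k, sg A k * (φ (insert k C) - φ (C.erase k)) := by
      rw [Finset.mul_sum]
      apply Finset.sum_congr rfl
      intro k _
      ring
    rw [e2, ← hu, Finset.sum_union hd]
    congr 1
    have e3 : ∑ k ∈ A, sg A k * (φ (insert k C) - φ (C.erase k)) =
        ∑ k ∈ A, (φ (insert k C) - φ (C.erase k)) := by
      apply Finset.sum_congr rfl
      intro k hk
      simp [sg, hk]
    have e4 : ∑ k ∈ B, sg A k * (φ (insert k C) - φ (C.erase k)) =
        - ∑ k ∈ B, (φ (insert k C) - φ (C.erase k)) := by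
      rw [← Finset.sum_neg_distrib]
      apply Finset.sum_congr rfl
      intro k hk
      have := (hB k).1 hk
      simp [sg, this]
    rw [e3, e4, sub_eq_add_neg]
  have hfc : ∀ t ∈ Set.Icc (0 : ℝ) 1, ∀ C k, 0 ≤ fc A C k t := by
    rintro t ⟨ht0, ht1⟩ C k
    unfold fc pr
    split_ifs <;> linarith
  have hwt : ∀ t ∈ Set.Icc (0 : ℝ) 1, ∀ C, 0 ≤ wt A C t := fun t ht C =>
    Finset.prod_nonneg fun k _ => hfc t ht C k
  have hmain : AntitoneOn (fun t => Φ t * Real.exp (-(L * t))) (Set.Icc 0 1) := by
    have hd2 : ∀ t, HasDerivAt (fun t => Φ t * Real.exp (-(L * t)))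
        ((∑ C, wt A C t * (∑ k ∈ A, (φ (insert k C) - φ (C.erase k)) -
          ∑ k ∈ B, (φ (insert k C) - φ (C.erase k)))) * Real.exp (-(L * t)) +
          Φ t * (Real.exp (-(L * t)) * (-(L * 1)))) t := by
      intro t
      exact (hder t).mul (((hasDerivAt_id t).const_mul L).neg.exp)
    apply antitoneOn_of_deriv_nonpos (convex_Icc 0 1)
    · exact fun t _ => (hd2 t).continuousAt.continuousWithinAt
    · exact fun t _ => (hd2 t).differentiableAt.differentiableWithinAt
    · intro t ht
      rw [interior_Icc] at ht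
      have ht' : t ∈ Set.Icc (0 : ℝ) 1 := ⟨ht.1.le, ht.2.le⟩
      rw [(hd2 t).deriv]
      have h1 : ∑ C, wt A C t * (∑ k ∈ A, (φ (insert k C) - φ (C.erase k)) -
          ∑ k ∈ B, (φ (insert k C) - φ (C.erase k))) ≤ L * Φ t := by
        rw [hΦ]
        simp only [Finset.mul_sum]
        apply Finset.sum_le_sum
        intro C _
        have := mul_le_mul_of_nonneg_left (h C) (hwt t ht' C)
        linarith
      have h2 := mul_le_mul_of_nonneg_right h1 (Real.exp_nonneg (-(L * t)))
      linarith
  have h1 := hmain (Set.left_mem_Icc.2 zero_le_one) (Set.right_mem_Icc.2 zero_le_one) zero_le_one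
  have hΦ1 : Φ 1 = φ A := by
    rw [hΦ]
    simp only
    rw [Finset.sum_eq_single A]
    · have : wt A A 1 = 1 := by
        apply Finset.prod_eq_one
        intro k _
        unfold fc pr
        by_cases hk : k ∈ A <;> simp [hk]
      rw [this, one_mul]
    · intro C _ hC
      have : wt A C 1 = 0 := by
        obtain ⟨k, hk⟩ : ∃ k, ¬ (k ∈ C ↔ k ∈ A) := by
          by_contra hcon
          push Not at hcon
          exact hC (Finset.ext hcon)
        apply Finset.prod_eq_zero (Finset.mem_univ k)
        unfold fc pr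
        by_cases h1 : k ∈ A <;> by_cases h2 : k ∈ C <;> simp_all
      rw [this, zero_mul]
    · intro h
      exact absurd (Finset.mem_univ A) h
  have hΦ0 : Φ 0 = φ B := by
    rw [hΦ]
    simp only
    rw [Finset.sum_eq_single B]
    · have : wt A B 0 = 1 := by
        apply Finset.prod_eq_one
        intro k _
        unfold fc pr
        have := hB k
        by_cases hk : k ∈ A <;> simp_all
      rw [this, one_mul]
    · intro C _ hC
      have : wt A C 0 = 0 := by
        obtain ⟨k, hk⟩ : ∃ k, ¬ (k ∈ C ↔ k ∈ B) := by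
          by_contra hcon
          push Not at hcon
          exact hC (Finset.ext hcon)
        apply Finset.prod_eq_zero (Finset.mem_univ k)
        unfold fc pr
        rw [hB] at hk
        by_cases h1 : k ∈ A <;> by_cases h2 : k ∈ C <;> simp_all
      rw [this, zero_mul]
    · intro h
      exact absurd (Finset.mem_univ B) h
  simp only [hΦ1, hΦ0, mul_zero, neg_zero, Real.exp_zero, mul_one] at h1
  have h2 : φ A = φ A * Real.exp (-L) * Real.exp L := by
    rw [mul_assoc, ← Real.exp_add, neg_add_cancel, Real.exp_zero, mul_one]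
  rw [h2, mul_comm (Real.exp L)]
  exact mul_le_mul_of_nonneg_right h1 (Real.exp_nonneg L)

end Pool.Agent.MChaos
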