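import Pool.Agent.Lib_MP_a91488.DIF
import Pool.Agent.Lib_MP_a91488.RUS

/-!
# Piece CMPS: comparison theorem on one index set
-/

set_option autoImplicit false

open MeasureTheory

namespace Pool.Agent.MChaos

namespace CmpsAux

variable {ι : Type} [Fintype ι] [DecidableEq ι] {Ω : ι → Type} [∀ k, MeasurableSpace (Ω k)]
  {P : ∀ k, Measure (Ω k)} [∀ k, IsProbabilityMeasure (P k)]
  {D : Type} [MeasurableSpace D] {m : Measure D} [IsFiniteMeasure m] {w : ∀ k, Ω k → D → ℝ}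
  {a : ι → D → ℝ} {s : ℝ} {M : ℝ → ℝ}

theorem phi_nonneg (hw : ∀ k, Wt (P k) (w k) (a k) s M) (hm : m ≠ 0) (q : ℝ) (C : Finset ι) :
    0 ≤ phi P m w q C :=
  integral_nonneg fun ω => Real.rpow_nonneg (mass_pos hw hm C ω).le _

/-- first order terms -/
theorem first (hw : ∀ k, Wt (P k) (w k) (a k) s M) (hm : m ≠ 0) (q : ℝ) (C : Finset ι)
    (A₀ : ℝ) (h : ∀ x, ∑ k, a k x ≤ A₀) :
    ∑ k, Aq P m w q C (a k) ≤ A₀ * phi P m w q C := by
  have haB : ∀ k, ∃ B : ℝ, ∀ x, |a k x| ≤ B := fun k => by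
    obtain ⟨Ba, hBa⟩ := (hw k).ab
    exact ⟨Ba, fun x => by rw [abs_of_nonneg ((hw k).a0 x)]; exact hBa x⟩
  have iA := fun k => mass_b (m := m) hw hm C (q - 1) (a k) (hw k).ameas (haB k)
  unfold Aq phi
  rw [← integral_finset_sum _ fun k _ => iA k, ← integral_const_mul]
  refine integral_mono (integrable_finset_sum _ fun k _ => iA k)
    ((mass_mom (m := m) hw hm C q).const_mul A₀) fun ω => ?_
  simp only
  have hmp := mass_pos hw hm C ω
  have hfi := fC_int (m := m) hw C ω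
  have hai : ∀ k, Integrable (fun x => a k x * fC w C ω x) m := fun k => by
    obtain ⟨B, hB⟩ := haB k
    exact hfi.bdd_mul (hw k).ameas.aestronglyMeasurable
      (Filter.Eventually.of_forall fun x => by rw [Real.norm_eq_abs]; exact hB x)
  rw [← Finset.mul_sum, ← integral_finset_sum _ fun k _ => hai k]
  have h1 : ∫ x, ∑ k, a k x * fC w C ω x ∂m ≤ A₀ * mass m w C ω := by
    unfold mass
    rw [← integral_const_mul]
    refine integral_mono (integrable_finset_sum _ fun k _ => hai k) (hfi.const_mul A₀) fun x => ?_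
    simp only
    rw [← Finset.sum_mul]
    exact mul_le_mul_of_nonneg_right (h x) (fC_pos hw C ω x).le
  have e : A₀ * mass m w C ω ^ q = mass m w C ω ^ (q - 1) * (A₀ * mass m w C ω) := by
    have : mass m w C ω ^ q = mass m w C ω ^ (q - 1) * mass m w C ω ^ (1 : ℝ) := by
      rw [← Real.rpow_add hmp, sub_add_cancel]
    rw [this, Real.rpow_one]
    ring
  rw [e]
  exact mul_le_mul_of_nonneg_left h1 (Real.rpow_nonneg hmp.le _)

/-- second order terms -/
theorem second (hw : ∀ k, Wt (P k) (w k) (a k) s M) (hm : m ≠ 0) (q : ℝ) (A B C : Finset ι)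
    (A₁ : ℝ)
    (h : ∀ᵐ x ∂m, ∀ᵐ y ∂m, q * (q - 1) *
      (∑ k ∈ A, cw (P k) (w k) x y - ∑ k ∈ B, cw (P k) (w k) x y) ≤ A₁) :
    q * (q - 1) * (∑ k ∈ A, Tq P m w q C (cw (P k) (w k)) -
      ∑ k ∈ B, Tq P m w q C (cw (P k) (w k))) ≤ A₁ * phi P m w q C := by
  have hcm := fun k => cw_meas (hw k)
  have iT := fun k => mass_c (m := m) hw hm C (q - 2) _ (hcm k).1 (hcm k).2
  have hTA : ∀ S : Finset ι, Integrable (fun ω => ∑ k ∈ S, mass m w C ω ^ (q - 2) *
      (∫ x, ∫ y, cw (P k) (w k) x y * (fC w C ω x * fC w C ω y) ∂m ∂m)) (Measure.pi P) :=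
    fun S => integrable_finset_sum _ fun k _ => iT k
  unfold Tq phi
  rw [← integral_finset_sum _ fun k _ => iT k, ← integral_finset_sum _ fun k _ => iT k,
    ← integral_sub (hTA A) (hTA B), ← integral_const_mul, ← integral_const_mul]
  refine integral_mono (((hTA A).sub (hTA B)).const_mul _)
    ((mass_mom (m := m) hw hm C q).const_mul A₁) fun ω => ?_
  simp only [Pi.sub_apply]
  have hmp := mass_pos hw hm C ω
  have hfi := fC_int (m := m) hw C ω
  have hf0 := fC_pos hw C ω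
  have hff : Integrable (fun z : D × D => fC w C ω z.1 * fC w C ω z.2) (m.prod m) :=
    hfi.mul_prod hfi
  have hg : ∀ k, Integrable (fun z : D × D => cw (P k) (w k) z.1 z.2 *
      (fC w C ω z.1 * fC w C ω z.2)) (m.prod m) := fun k => by
    obtain ⟨B', hB'⟩ := (hcm k).2
    exact hff.bdd_mul (hcm k).1.aestronglyMeasurable
      (Filter.Eventually.of_forall fun z => by rw [Real.norm_eq_abs]; exact hB' z.1 z.2)
  have e1 : ∀ k, ∫ x, ∫ y, cw (P k) (w k) x y * (fC w C ω x * fC w C ω y) ∂m ∂m =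
      ∫ z : D × D, cw (P k) (w k) z.1 z.2 * (fC w C ω z.1 * fC w C ω z.2) ∂(m.prod m) :=
    fun k => (integral_prod _ (hg k)).symm
  have hgS : ∀ S : Finset ι, Integrable (fun z : D × D => ∑ k ∈ S, cw (P k) (w k) z.1 z.2 *
      (fC w C ω z.1 * fC w C ω z.2)) (m.prod m) :=
    fun S => integrable_finset_sum _ fun k _ => hg k
  have hgd : Integrable (fun z : D × D => q * (q - 1) * (∑ k ∈ A, cw (P k) (w k) z.1 z.2 *
      (fC w C ω z.1 * fC w C ω z.2) - ∑ k ∈ B, cw (P k) (w k) z.1 z.2 *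
      (fC w C ω z.1 * fC w C ω z.2))) (m.prod m) :=
    ((hgS A).sub (hgS B)).const_mul _
  have e2 : q * (q - 1) * (∑ k ∈ A, mass m w C ω ^ (q - 2) *
        (∫ x, ∫ y, cw (P k) (w k) x y * (fC w C ω x * fC w C ω y) ∂m ∂m) -
      ∑ k ∈ B, mass m w C ω ^ (q - 2) *
        (∫ x, ∫ y, cw (P k) (w k) x y * (fC w C ω x * fC w C ω y) ∂m ∂m)) =
      mass m w C ω ^ (q - 2) * ∫ x, ∫ y, q * (q - 1) * (∑ k ∈ A, cw (P k) (w k) x y *
      (fC w C ω x * fC w C ω y) - ∑ k ∈ B, cw (P k) (w k) x y *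
      (fC w C ω x * fC w C ω y)) ∂m ∂m := by
    have h2 := integral_prod _ hgd
    simp only at h2
    rw [← h2, integral_const_mul, integral_sub (hgS A) (hgS B),
      integral_finset_sum _ fun k _ => hg k, integral_finset_sum _ fun k _ => hg k]
    simp only [e1]
    rw [← Finset.mul_sum, ← Finset.mul_sum]
    ring
  rw [e2]
  have h3 : ∫ x, ∫ y, q * (q - 1) * (∑ k ∈ A, cw (P k) (w k) x y *
      (fC w C ω x * fC w C ω y) - ∑ k ∈ B, cw (P k) (w k) x y *
      (fC w C ω x * fC w C ω y)) ∂m ∂m ≤ A₁ * mass m w C ω ^ (2 : ℝ) := by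
    have e4 : A₁ * mass m w C ω ^ (2 : ℝ) =
        ∫ x, ∫ y, A₁ * (fC w C ω x * fC w C ω y) ∂m ∂m := by
      simp only [integral_const_mul]
      simp only [integral_mul_const]
      rw [Real.rpow_two, pow_two]
      rfl
    rw [e4]
    have hgr : Integrable (fun z : D × D => A₁ * (fC w C ω z.1 * fC w C ω z.2)) (m.prod m) :=
      hff.const_mul A₁
    refine integral_mono_ae hgd.integral_prod_left hgr.integral_prod_left ?_
    filter_upwards [h, hgd.prod_right_ae] with x hx hxi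
    refine integral_mono_ae hxi ((hfi.const_mul _).const_mul A₁) ?_
    filter_upwards [hx] with y hy
    have h5 := mul_le_mul_of_nonneg_right hy (mul_nonneg (hf0 x).le (hf0 y).le)
    refine le_trans (le_of_eq ?_) h5
    rw [← Finset.sum_mul, ← Finset.sum_mul]
    ring
  have e3 : mass m w C ω ^ q = mass m w C ω ^ (q - 2) * mass m w C ω ^ (2 : ℝ) := by
    rw [← Real.rpow_add hmp, sub_add_cancel]
  calc _ ≤ mass m w C ω ^ (q - 2) * (A₁ * mass m w C ω ^ (2 : ℝ)) :=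
        mul_le_mul_of_nonneg_left h3 (Real.rpow_nonneg hmp.le _)
    _ = _ := by rw [e3]; ring

end CmpsAux

open CmpsAux

/-- `russo` for `φ = phi q`: by `dif` the left side is at most `(1/2) Tq(C, q (q-1) (∑_A c_k - ∑_B c_k)) + K Aq(C, ∑ a_k)` (linearity), `Tq(C, c) ≤ A₁ φ(C)` if `c ≤ A₁` a.e. (`∬ fC fC = mass^2`), `Aq(C, a) ≤ A₀ φ(C)` -/
theorem compare_sum (q s : ℝ) (hs : 3 < s) (M : ℝ → ℝ) : ∃ K : ℝ, 0 < K ∧
    ∀ (D : Type) [MeasurableSpace D] (m : Measure D) [IsFiniteMeasure m] (_ : m ≠ 0)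
      (ι : Type) [Fintype ι] [DecidableEq ι] (Ω : ι → Type) [∀ k, MeasurableSpace (Ω k)] (P : ∀ k, Measure (Ω k)) [∀ k, IsProbabilityMeasure (P k)]
      (w : ∀ k, Ω k → D → ℝ) (a : ι → D → ℝ) (_ : ∀ k, Wt (P k) (w k) (a k) s M) (A B : Finset ι) (_ : Disjoint A B) (_ : A ∪ B = Finset.univ)
      (A₀ A₁ : ℝ) (_ : 0 ≤ A₁) (_ : ∀ x, ∑ k, a k x ≤ A₀)
      (_ : ∀ᵐ x ∂m, ∀ᵐ y ∂m, q * (q - 1) * (∑ k ∈ A, cw (P k) (w k) x y - ∑ k ∈ B, cw (P k) (w k) x y) ≤ A₁),
      phi P m w q A ≤ Real.exp (K * (A₀ + A₁)) * phi P m w q B := by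
  obtain ⟨K0, hK0, H⟩ := dif q s hs M
  refine ⟨K0 + 1, by positivity, ?_⟩
  intro D _ m _ hm ι _ _ Ω _ P _ w a hw A B hd hu A₀ A₁ hA₁ hA₀ hc
  have hD : Nonempty D := by
    by_contra hcon
    rw [not_nonempty_iff] at hcon
    exact hm (Measure.eq_zero_of_isEmpty m)
  have hA₀0 : 0 ≤ A₀ := (Finset.sum_nonneg fun k _ => (hw k).a0 (Classical.arbitrary D)).trans
    (hA₀ _)
  refine russo A B hd hu (phi P m w q) (phi_nonneg hw hm q) _ fun C => ?_
  have h1 : ∀ k, |phi P m w q (insert k C) - phi P m w q (C.erase k) -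
      q * (q - 1) / 2 * Tq P m w q C (cw (P k) (w k))| ≤ K0 * Aq P m w q C (a k) :=
    fun k => H D m hm ι Ω P w a hw C k
  have h2 : ∑ k ∈ A, (phi P m w q (insert k C) - phi P m w q (C.erase k)) ≤
      ∑ k ∈ A, (q * (q - 1) / 2 * Tq P m w q C (cw (P k) (w k)) + K0 * Aq P m w q C (a k)) :=
    Finset.sum_le_sum fun k _ => by
      have := (abs_le.1 (h1 k)).2
      linarith
  have h3 : ∑ k ∈ B, (q * (q - 1) / 2 * Tq P m w q C (cw (P k) (w k)) -
      K0 * Aq P m w q C (a k)) ≤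
      ∑ k ∈ B, (phi P m w q (insert k C) - phi P m w q (C.erase k)) :=
    Finset.sum_le_sum fun k _ => by
      have := (abs_le.1 (h1 k)).1
      linarith
  rw [Finset.sum_add_distrib, ← Finset.mul_sum, ← Finset.mul_sum] at h2
  rw [Finset.sum_sub_distrib, ← Finset.mul_sum, ← Finset.mul_sum] at h3
  have h4 := first hw hm q C A₀ hA₀
  rw [← hu, Finset.sum_union hd] at h4
  have h5 := second hw hm q A B C A₁ hc
  have h6 := phi_nonneg (m := m) hw hm q C
  have h7 := mul_le_mul_of_nonneg_left h4 hK0.le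
  have h8 : 0 ≤ K0 * A₁ * phi P m w q C := mul_nonneg (mul_nonneg hK0.le hA₁) h6
  have h9 : 0 ≤ A₀ * phi P m w q C := mul_nonneg hA₀0 h6
  have h10 : 0 ≤ A₁ * phi P m w q C := mul_nonneg hA₁ h6
  have e : (K0 + 1) * (A₀ + A₁) * phi P m w q C = K0 * (A₀ * phi P m w q C) +
      K0 * A₁ * phi P m w q C + A₀ * phi P m w q C + A₁ * phi P m w q C := by ring
  rw [e]
  nlinarith

end Pool.Agent.MChaos
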