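import Pool.Agent.Lib_MP_a91488.WKA

/-!
# Piece COVS: sums of covariances of the weights, and exponential moments
-/

set_option autoImplicit false

open MeasureTheory ProbabilityTheory Filter
open scoped Topology

namespace Pool.Agent.MChaos

variable {d : ℕ} {Ω : Type} [MeasurableSpace Ω] {P : Measure Ω} [IsProbabilityMeasure P] {X : ℕ → Ω → E d → ℝ}

private theorem covs_sumIco_le (f : ℕ → ℝ) (hf : ∀ k, 0 ≤ f k) (n N : ℕ) :
    ∑ k ∈ Finset.Ico n N, f k ≤ ∑ k ∈ Finset.range N, f k := by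
  refine Finset.sum_le_sum_of_subset_of_nonneg ?_ (fun k _ _ => hf k)
  intro k hk
  rw [Finset.mem_Ico] at hk
  exact Finset.mem_range.mpr hk.2

/-- From `CP.cov` at `n` and at `N` and the bound `∑ (b k x + b k y) ≤ 2 C`. The conclusion is for every choice of `b` as in `wt_Wt`. -/
theorem covs (hX : CP d P X) (γ C₀ : ℝ) (b : ℕ → E d → ℝ) (hb : ∀ n x, ∑ k ∈ Finset.range n, b k x ≤ C₀) (hb0 : ∀ k x, 0 ≤ b k x)
    (hc : ∀ k x y, |cw (PP P X k) (wS P X γ k) x y - γ ^ 2 * ∫ ω, X k ω x * X k ω y ∂P| ≤ b k x + b k y) :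
    ∃ δ C : ℝ, 0 < δ ∧ ∀ n N : ℕ, n ≤ N → ∀ x ∈ cube d, ∀ y ∈ cube d, ‖x - y‖ ≤ δ →
      (x ≠ y → |∑ k ∈ Finset.Ico n N, cw (PP P X k) (wS P X γ k) x y -
        γ ^ 2 * (min (Real.log (1 / ‖x - y‖)) (sig2 P X N) - min (Real.log (1 / ‖x - y‖)) (sig2 P X n))| ≤ C) ∧
      (x = y → |∑ k ∈ Finset.Ico n N, cw (PP P X k) (wS P X γ k) x x - γ ^ 2 * (sig2 P X N - sig2 P X n)| ≤ C) := by
  obtain ⟨δ, C₁, hδ, hcov⟩ := hX.cov
  refine ⟨δ, 2 * C₀ + γ ^ 2 * (2 * C₁), hδ, ?_⟩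
  intro n N hnN x hx y hy hxy
  have key : ∀ x y : E d, |∑ k ∈ Finset.Ico n N, cw (PP P X k) (wS P X γ k) x y -
      γ ^ 2 * ((∑ k ∈ Finset.range N, ∫ ω, X k ω x * X k ω y ∂P) - ∑ k ∈ Finset.range n, ∫ ω, X k ω x * X k ω y ∂P)| ≤ 2 * C₀ := by
    intro x y
    rw [← Finset.sum_Ico_eq_sub _ hnN, Finset.mul_sum, ← Finset.sum_sub_distrib]
    refine (Finset.abs_sum_le_sum_abs _ _).trans ?_
    refine (Finset.sum_le_sum (fun k _ => hc k x y)).trans ?_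
    rw [Finset.sum_add_distrib]
    have h1 := (covs_sumIco_le (fun k => b k x) (fun k => hb0 k x) n N).trans (hb N x)
    have h2 := (covs_sumIco_le (fun k => b k y) (fun k => hb0 k y) n N).trans (hb N y)
    linarith
  constructor
  · intro hne
    have hn := (hcov n x hx y hy hxy).1 hne
    have hN := (hcov N x hx y hy hxy).1 hne
    have hk := key x y
    rw [abs_le] at hn hN hk ⊢
    have hg : 0 ≤ γ ^ 2 := sq_nonneg γ
    set A := ∑ k ∈ Finset.range N, ∫ ω, X k ω x * X k ω y ∂P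
    set B := ∑ k ∈ Finset.range n, ∫ ω, X k ω x * X k ω y ∂P
    set m1 := min (Real.log (1 / ‖x - y‖)) (sig2 P X N)
    set m2 := min (Real.log (1 / ‖x - y‖)) (sig2 P X n)
    set S := ∑ k ∈ Finset.Ico n N, cw (PP P X k) (wS P X γ k) x y
    have h1 : γ ^ 2 * ((A - B) - (m1 - m2)) ≤ γ ^ 2 * (2 * C₁) := mul_le_mul_of_nonneg_left (by linarith) hg
    have h2 : γ ^ 2 * (-(2 * C₁)) ≤ γ ^ 2 * ((A - B) - (m1 - m2)) := mul_le_mul_of_nonneg_left (by linarith) hg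
    constructor <;> nlinarith
  · intro he
    subst he
    have hn := (hcov n x hx x hx hxy).2 rfl
    have hN := (hcov N x hx x hx hxy).2 rfl
    have hk := key x x
    have e : ∀ M : ℕ, ∑ k ∈ Finset.range M, ∫ ω, X k ω x * X k ω x ∂P = ∑ k ∈ Finset.range M, ∫ ω, X k ω x ^ 2 ∂P := by
      intro M
      refine Finset.sum_congr rfl (fun k _ => ?_)
      simp only [pow_two]
    rw [e, e] at hk
    rw [abs_le] at hn hN hk ⊢
    have hg : 0 ≤ γ ^ 2 := sq_nonneg γ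
    set A := ∑ k ∈ Finset.range N, ∫ ω, X k ω x ^ 2 ∂P
    set B := ∑ k ∈ Finset.range n, ∫ ω, X k ω x ^ 2 ∂P
    set S := ∑ k ∈ Finset.Ico n N, cw (PP P X k) (wS P X γ k) x x
    have h1 : γ ^ 2 * ((A - B) - (sig2 P X N - sig2 P X n)) ≤ γ ^ 2 * (2 * C₁) := mul_le_mul_of_nonneg_left (by linarith) hg
    have h2 : γ ^ 2 * (-(2 * C₁)) ≤ γ ^ 2 * ((A - B) - (sig2 P X N - sig2 P X n)) := mul_le_mul_of_nonneg_left (by linarith) hg
    constructor <;> nlinarith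

private theorem covs_bq_nonneg (s : ℝ) (Y : Ω → ℝ) : 0 ≤ bq s P Y := by
  unfold bq
  exact Real.rpow_nonneg (integral_nonneg (fun ω => Real.rpow_nonneg (abs_nonneg _) _)) _

/-- `log E exp (t SS) = ∑ log E exp (t X k x) = t^2/2 ∑ E X k x ^ 2 + O(∑ bq)` by `mgf_prod`, `rv_log`, `third`; `CP.cov` on the diagonal -/
theorem exp1 (hX : CP d P X) (t : ℝ) : ∃ C : ℝ, 0 < C ∧ ∀ n N : ℕ, n ≤ N → ∀ x ∈ cube d,
    |Real.log (∫ ω, Real.exp (t * SS X n N ω x) ∂P) - t ^ 2 / 2 * (sig2 P X N - sig2 P X n)| ≤ C := by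
  obtain ⟨δ, C₁, hδ, hcov⟩ := hX.cov
  obtain ⟨ε, C₃, hε, hthird⟩ := hX.third
  obtain ⟨Cb, hCb⟩ := hX.rv
  obtain ⟨K, hK, hlog⟩ := rv_log t (3 + ε) (by linarith) Cb
  refine ⟨|K * C₃| + t ^ 2 * |C₁| + 1, by positivity, ?_⟩
  intro n N hnN x hx
  have h1 : Real.log (∫ ω, Real.exp (t * SS X n N ω x) ∂P) = ∑ k ∈ Finset.Ico n N, Real.log (∫ ω, Real.exp (t * X k ω x) ∂P) := by
    rw [(mgf_prod hX t n N x).2, Real.log_prod]
    intro k _
    have := rv_one_le (hCb k x) t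
    linarith
  have h2 : |∑ k ∈ Finset.Ico n N, Real.log (∫ ω, Real.exp (t * X k ω x) ∂P) -
      t ^ 2 / 2 * ((∑ k ∈ Finset.range N, ∫ ω, X k ω x ^ 2 ∂P) - ∑ k ∈ Finset.range n, ∫ ω, X k ω x ^ 2 ∂P)| ≤ K * C₃ := by
    rw [← Finset.sum_Ico_eq_sub _ hnN, Finset.mul_sum, ← Finset.sum_sub_distrib]
    refine (Finset.abs_sum_le_sum_abs _ _).trans ?_
    refine (Finset.sum_le_sum (fun k _ => hlog Ω P _ (hCb k x))).trans ?_
    rw [← Finset.mul_sum]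
    refine mul_le_mul_of_nonneg_left ?_ hK.le
    refine (covs_sumIco_le (fun k => bq (3 + ε) P (fun ω => X k ω x)) (fun k => covs_bq_nonneg _ _) n N).trans ?_
    exact hthird x N
  have hn := (hcov n x hx x hx (by simpa using hδ.le)).2 rfl
  have hN := (hcov N x hx x hx (by simpa using hδ.le)).2 rfl
  rw [h1]
  have h3 : |t ^ 2 / 2 * ((∑ k ∈ Finset.range N, ∫ ω, X k ω x ^ 2 ∂P) - ∑ k ∈ Finset.range n, ∫ ω, X k ω x ^ 2 ∂P) -
      t ^ 2 / 2 * (sig2 P X N - sig2 P X n)| ≤ t ^ 2 * |C₁| := by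
    rw [← mul_sub, abs_mul, abs_of_nonneg (by positivity : (0 : ℝ) ≤ t ^ 2 / 2)]
    have hc1 := le_abs_self C₁
    have : |(∑ k ∈ Finset.range N, ∫ ω, X k ω x ^ 2 ∂P) - (∑ k ∈ Finset.range n, ∫ ω, X k ω x ^ 2 ∂P) - (sig2 P X N - sig2 P X n)| ≤ 2 * |C₁| := by
      rw [abs_le] at hn hN ⊢
      constructor <;> linarith
    calc t ^ 2 / 2 * |(∑ k ∈ Finset.range N, ∫ ω, X k ω x ^ 2 ∂P) - (∑ k ∈ Finset.range n, ∫ ω, X k ω x ^ 2 ∂P) - (sig2 P X N - sig2 P X n)|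
        ≤ t ^ 2 / 2 * (2 * |C₁|) := mul_le_mul_of_nonneg_left this (by positivity)
      _ = t ^ 2 * |C₁| := by ring
  have h4 := le_abs_self (K * C₃)
  rw [abs_le] at h2 h3 ⊢
  constructor <;> linarith

private theorem covs_div_rpow (u z p c : ℝ) (hz : 0 < z) (hu : u = Real.exp c) : (u / z) ^ p = Real.exp (p * c) / z ^ p := by
  rw [hu, Real.div_rpow (Real.exp_pos _).le hz.le, ← Real.exp_mul, mul_comm c p]

/-- `(∏ wt)^p = exp (p γ SS) / (E exp (γ SS))^p`, `exp1` for `p γ` and for `γ` -/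
theorem prod_mom (hX : CP d P X) (γ p : ℝ) : ∃ C : ℝ, 0 < C ∧ ∀ n N : ℕ, n ≤ N → ∀ x ∈ cube d,
    Integrable (fun ω => (∏ k ∈ Finset.Ico n N, wt P X γ k ω x) ^ p) P ∧
      ∫ ω, (∏ k ∈ Finset.Ico n N, wt P X γ k ω x) ^ p ∂P ≤ C * Real.exp ((p ^ 2 - p) * γ ^ 2 / 2 * (sig2 P X N - sig2 P X n)) := by
  obtain ⟨C₁, hC₁, h1⟩ := exp1 hX (p * γ)
  obtain ⟨C₂, hC₂, h2⟩ := exp1 hX γ
  refine ⟨Real.exp (C₁ + |p| * C₂), Real.exp_pos _, ?_⟩
  intro n N hnN x hx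
  obtain ⟨Cb, hCb⟩ := hX.rv
  have hone : ∀ t : ℝ, 0 < ∫ ω, Real.exp (t * SS X n N ω x) ∂P := by
    intro t
    rw [(mgf_prod hX t n N x).2]
    refine Finset.prod_pos (fun k _ => ?_)
    have := rv_one_le (hCb k x) t
    linarith
  have hz := hone γ
  have hpz := hone (p * γ)
  have e : (fun ω => (∏ k ∈ Finset.Ico n N, wt P X γ k ω x) ^ p) =
      fun ω => Real.exp (p * γ * SS X n N ω x) / (∫ ω', Real.exp (γ * SS X n N ω' x) ∂P) ^ p := by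
    funext ω
    rw [prod_wt hX γ n N ω x, covs_div_rpow _ _ p (γ * SS X n N ω x) hz rfl, mul_assoc]
  rw [e]
  refine ⟨(mgf_prod hX (p * γ) n N x).1.div_const _, ?_⟩
  rw [integral_div]
  have hA := h1 n N hnN x hx
  have hB := h2 n N hnN x hx
  set Z := ∫ ω, Real.exp (γ * SS X n N ω x) ∂P
  set W := ∫ ω, Real.exp (p * γ * SS X n N ω x) ∂P
  have hW : W = Real.exp (Real.log W) := (Real.exp_log hpz).symm
  have hZ : Z ^ p = Real.exp (p * Real.log Z) := by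
    rw [Real.rpow_def_of_pos hz, mul_comm]
  rw [hW, hZ, ← Real.exp_sub, ← Real.exp_add]
  apply Real.exp_le_exp.mpr
  set Δ := sig2 P X N - sig2 P X n
  have hpB : |p * (Real.log Z - γ ^ 2 / 2 * Δ)| ≤ |p| * C₂ := by
    rw [abs_mul]; exact mul_le_mul_of_nonneg_left hB (abs_nonneg _)
  rw [abs_le] at hA hpB
  nlinarith [hA.2, hpB.1]

end Pool.Agent.MChaos
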