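import Pool.Agent.Lib_MP_a91488.RDefs

/-!
# Piece RVA: expansion of the Laplace transform of one random variable
-/

set_option autoImplicit false

open MeasureTheory

namespace Pool.Agent.MChaos

theorem rva_rpow_abs_le (p : ℝ) (hp : 0 ≤ p) : ∃ C : ℝ, 0 < C ∧ ∀ u : ℝ, |u| ^ p ≤ C * (Real.exp u + Real.exp (-u)) := by
  obtain ⟨n, hn⟩ := exists_nat_ge p
  refine ⟨1 + n.factorial, by positivity, fun u => ?_⟩
  have h1 : |u| ^ p ≤ 1 + |u| ^ n := by
    rcases le_total |u| 1 with h | h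
    · have h5 := Real.rpow_le_one (abs_nonneg u) h hp
      have h6 := pow_nonneg (abs_nonneg u) n
      linarith
    · have h5 := Real.rpow_le_rpow_of_exponent_le h hn
      rw [Real.rpow_natCast] at h5
      linarith
  have h2 : |u| ^ n ≤ n.factorial * Real.exp |u| := by
    have h5 := Real.pow_div_factorial_le_exp |u| (abs_nonneg u) n
    rw [div_le_iff₀ (by positivity)] at h5
    linarith
  have h3 : Real.exp |u| ≤ Real.exp u + Real.exp (-u) := by
    rcases abs_cases u with ⟨h, _⟩ | ⟨h, _⟩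
    · rw [h]; have := Real.exp_pos (-u); linarith
    · rw [h]; have := Real.exp_pos u; linarith
  have h4 : 1 ≤ Real.exp |u| := Real.one_le_exp (abs_nonneg u)
  have h5 : (0 : ℝ) < n.factorial := by positivity
  calc |u| ^ p ≤ 1 + |u| ^ n := h1
    _ ≤ Real.exp |u| + n.factorial * Real.exp |u| := by linarith
    _ = (1 + n.factorial) * Real.exp |u| := by ring
    _ ≤ (1 + n.factorial) * (Real.exp u + Real.exp (-u)) := by
        apply mul_le_mul_of_nonneg_left h3; positivity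

/-- `|u| ^ p ≤ C_p (exp u + exp (-u))` -/
theorem rv_lp (p : ℝ) (hp : 0 ≤ p) (Cb : ℝ → ℝ) : ∃ K : ℝ, 0 < K ∧ ∀ (Ω : Type) [MeasurableSpace Ω] (P : Measure Ω) [IsProbabilityMeasure P] (X : Ω → ℝ),
    RV P Cb X → Integrable (fun ω => |X ω| ^ p) P ∧ ∫ ω, |X ω| ^ p ∂P ≤ K := by
  obtain ⟨C, hC, hu⟩ := rva_rpow_abs_le p hp
  refine ⟨C * (|Cb 1| + |Cb (-1)|) + 1, by positivity, fun Ω _ P _ X hX => ?_⟩
  have e1 := hX.expo 1
  have e2 := hX.expo (-1)
  simp only [one_mul, neg_mul] at e1 e2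
  have hi : Integrable (fun ω => C * (Real.exp (X ω) + Real.exp (-X ω))) P := (e1.1.add e2.1).const_mul C
  have hm : Measurable (fun ω => |X ω| ^ p) := by
    have := hX.meas
    fun_prop
  have hI : Integrable (fun ω => |X ω| ^ p) P := by
    refine hi.mono' hm.aestronglyMeasurable (Filter.Eventually.of_forall fun ω => ?_)
    rw [Real.norm_of_nonneg (by positivity)]
    exact hu _
  refine ⟨hI, ?_⟩
  calc ∫ ω, |X ω| ^ p ∂P ≤ ∫ ω, C * (Real.exp (X ω) + Real.exp (-X ω)) ∂P := integral_mono hI hi (fun ω => hu _)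
    _ = C * (∫ ω, Real.exp (X ω) ∂P + ∫ ω, Real.exp (-X ω) ∂P) := by
        rw [integral_const_mul, integral_add e1.1 e2.1]
    _ ≤ C * (|Cb 1| + |Cb (-1)|) := by
        apply mul_le_mul_of_nonneg_left _ hC.le
        exact add_le_add (e1.2.trans (le_abs_self _)) (e2.2.trans (le_abs_self _))
    _ ≤ _ := by linarith

theorem rva_int {Ω : Type} [MeasurableSpace Ω] {P : Measure Ω} [IsProbabilityMeasure P] {Cb : ℝ → ℝ} {X : Ω → ℝ} (hX : RV P Cb X) :
    Integrable X P := by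
  obtain ⟨K, _, h⟩ := rv_lp 1 zero_le_one Cb
  have := (h Ω P X hX).1
  simp only [Real.rpow_one] at this
  exact (integrable_norm_iff hX.meas.aestronglyMeasurable).1 this

theorem rva_int_sq {Ω : Type} [MeasurableSpace Ω] {P : Measure Ω} [IsProbabilityMeasure P] {Cb : ℝ → ℝ} {X : Ω → ℝ} (hX : RV P Cb X) :
    Integrable (fun ω => X ω ^ 2) P := by
  obtain ⟨K, _, h⟩ := rv_lp 2 zero_le_two Cb
  have := (h Ω P X hX).1
  refine this.congr (Filter.Eventually.of_forall fun ω => ?_)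
  show |X ω| ^ (2 : ℝ) = X ω ^ 2
  rw [show (2 : ℝ) = ((2 : ℕ) : ℝ) by norm_num, Real.rpow_natCast, sq_abs]

/-- Jensen and `E X = 0` -/
theorem rv_one_le {Ω : Type} [MeasurableSpace Ω] {P : Measure Ω} [IsProbabilityMeasure P] {Cb : ℝ → ℝ} {X : Ω → ℝ} (hX : RV P Cb X) (t : ℝ) :
    1 ≤ ∫ ω, Real.exp (t * X ω) ∂P := by
  have hi := rva_int hX
  calc (1 : ℝ) = ∫ ω, (t * X ω + 1) ∂P := by
        rw [integral_add (hi.const_mul t) (integrable_const 1), integral_const_mul, hX.mean]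
        simp
    _ ≤ ∫ ω, Real.exp (t * X ω) ∂P :=
        integral_mono ((hi.const_mul t).add (integrable_const 1)) (hX.expo t).1 (fun ω => Real.add_one_le_exp _)

/-- Hölder's inequality in the form we need -/
theorem rva_holder {Ω : Type} [MeasurableSpace Ω] {P : Measure Ω} [IsProbabilityMeasure P] {r s : ℝ} (hr : 0 < r) (hrs : r < s) {X G : Ω → ℝ}
    (hX : Measurable X) (hG : Measurable G) (hG0 : ∀ ω, 0 ≤ G ω) (hXi : Integrable (fun ω => |X ω| ^ s) P)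
    (hGi : Integrable (fun ω => G ω ^ (s / (s - r))) P) :
    Integrable (fun ω => |X ω| ^ r * G ω) P ∧
      ∫ ω, |X ω| ^ r * G ω ∂P ≤ (∫ ω, |X ω| ^ s ∂P) ^ (r / s) * (∫ ω, G ω ^ (s / (s - r)) ∂P) ^ ((s - r) / s) := by
  have hs : 0 < s := hr.trans hrs
  have hsr : 0 < s - r := by linarith
  have hp : (0 : ℝ) < s / r := by positivity
  have hq : (0 : ℝ) < s / (s - r) := by positivity
  have hpq : (s / r).HolderConjugate (s / (s - r)) := by
    rw [Real.holderConjugate_iff]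
    refine ⟨by rw [lt_div_iff₀ hr]; linarith, ?_⟩
    field_simp
    ring
  have hm : Measurable (fun ω => |X ω| ^ r) := by fun_prop
  have hpow : ∀ ω, (|X ω| ^ r) ^ (s / r) = |X ω| ^ s := by
    intro ω
    rw [← Real.rpow_mul (abs_nonneg _)]
    congr 1
    field_simp
  have h1 : MemLp (fun ω => |X ω| ^ r) (ENNReal.ofReal (s / r)) P := by
    rw [← integrable_norm_rpow_iff hm.aestronglyMeasurable (by simpa using hp) ENNReal.ofReal_ne_top]
    rw [ENNReal.toReal_ofReal hp.le]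
    refine hXi.congr (Filter.Eventually.of_forall fun ω => ?_)
    show |X ω| ^ s = ‖|X ω| ^ r‖ ^ (s / r)
    rw [Real.norm_of_nonneg (by positivity), hpow]
  have h2 : MemLp G (ENNReal.ofReal (s / (s - r))) P := by
    rw [← integrable_norm_rpow_iff hG.aestronglyMeasurable (by simpa using hq) ENNReal.ofReal_ne_top]
    rw [ENNReal.toReal_ofReal hq.le]
    refine hGi.congr (Filter.Eventually.of_forall fun ω => ?_)
    show G ω ^ (s / (s - r)) = ‖G ω‖ ^ (s / (s - r))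
    rw [Real.norm_of_nonneg (hG0 ω)]
  have h3 := integral_mul_le_Lp_mul_Lq_of_nonneg (μ := P) hpq (f := fun ω => |X ω| ^ r) (g := G)
    (Filter.Eventually.of_forall fun ω => by show (0 : ℝ) ≤ |X ω| ^ r; positivity) (Filter.Eventually.of_forall hG0) h1 h2
  constructor
  · have : ENNReal.HolderConjugate (ENNReal.ofReal (s / r)) (ENNReal.ofReal (s / (s - r))) := Real.HolderConjugate.ennrealOfReal hpq
    exact h1.integrable_mul h2
  · have e1 : 1 / (s / r) = r / s := by field_simp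
    have e2 : 1 / (s / (s - r)) = (s - r) / s := by field_simp
    rw [e1, e2] at h3
    simp only [hpow] at h3
    exact h3

theorem rva_G (t q : ℝ) (hq : 0 ≤ q) (Cb : ℝ → ℝ) : ∃ K : ℝ, 0 < K ∧ ∀ (Ω : Type) [MeasurableSpace Ω] (P : Measure Ω) [IsProbabilityMeasure P] (X : Ω → ℝ),
    RV P Cb X → Integrable (fun ω => (1 + Real.exp (t * X ω)) ^ q) P ∧ ∫ ω, (1 + Real.exp (t * X ω)) ^ q ∂P ≤ K := by
  refine ⟨2 ^ q * (1 + |Cb (q * t)|), by positivity, fun Ω _ P _ X hX => ?_⟩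
  have e := hX.expo (q * t)
  have hle : ∀ ω, (1 + Real.exp (t * X ω)) ^ q ≤ 2 ^ q * (1 + Real.exp (q * t * X ω)) := by
    intro ω
    have hv : Real.exp (q * t * X ω) = Real.exp (t * X ω) ^ q := by
      rw [← Real.exp_mul]
      congr 1
      ring
    rw [hv]
    set v := Real.exp (t * X ω) with hvdef
    have hv0 : 0 < v := Real.exp_pos _
    have h1 : (1 + v) ^ q ≤ (2 * max 1 v) ^ q := by
      apply Real.rpow_le_rpow (by positivity) _ hq
      have := le_max_left 1 v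
      have := le_max_right 1 v
      linarith
    have h2 : (2 * max 1 v) ^ q = 2 ^ q * (max 1 v) ^ q := Real.mul_rpow (by norm_num) (by positivity)
    have h3 : (max 1 v) ^ q ≤ 1 + v ^ q := by
      rcases max_cases 1 v with ⟨h, _⟩ | ⟨h, _⟩
      · rw [h, Real.one_rpow]
        have : 0 < v ^ q := by positivity
        linarith
      · rw [h]
        linarith
    calc (1 + v) ^ q ≤ (2 * max 1 v) ^ q := h1
      _ = 2 ^ q * (max 1 v) ^ q := h2
      _ ≤ 2 ^ q * (1 + v ^ q) := by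
          apply mul_le_mul_of_nonneg_left h3; positivity
  have hi : Integrable (fun ω => 2 ^ q * (1 + Real.exp (q * t * X ω))) P := ((integrable_const 1).add e.1).const_mul _
  have hm : Measurable (fun ω => (1 + Real.exp (t * X ω)) ^ q) := by
    have := hX.meas
    fun_prop
  have hI : Integrable (fun ω => (1 + Real.exp (t * X ω)) ^ q) P := by
    refine hi.mono' hm.aestronglyMeasurable (Filter.Eventually.of_forall fun ω => ?_)
    rw [Real.norm_of_nonneg (by positivity)]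
    exact hle ω
  refine ⟨hI, (integral_mono hI hi hle).trans ?_⟩
  rw [integral_const_mul, integral_add (integrable_const 1) e.1]
  apply mul_le_mul_of_nonneg_left _ (by positivity)
  simp only [integral_const, probReal_univ, smul_eq_mul, mul_one, add_le_add_iff_left]
  exact e.2.trans (le_abs_self _)

theorem rva_taylor (u : ℝ) : |Real.exp u - 1 - u - u ^ 2 / 2| ≤ |u| ^ 3 * (1 + Real.exp u) := by
  have he := Real.exp_pos u
  have ha : 0 ≤ |u| ^ 3 := by positivity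
  rcases le_or_gt |u| 1 with h | h
  · have h1 := Real.exp_bound h (n := 3) (by norm_num)
    have h2 : ∑ m ∈ Finset.range 3, u ^ m / (m.factorial : ℝ) = 1 + u + u ^ 2 / 2 := by
      simp [Finset.sum_range_succ, Nat.factorial]
    rw [h2] at h1
    have h3 : Real.exp u - 1 - u - u ^ 2 / 2 = Real.exp u - (1 + u + u ^ 2 / 2) := by ring
    rw [h3]
    refine h1.trans ?_
    apply mul_le_mul_of_nonneg_left _ ha
    norm_num [Nat.factorial]
    linarith
  · have h3 : 1 ≤ |u| ^ 3 := one_le_pow₀ h.le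
    rcases abs_cases u with ⟨h1, h2⟩ | ⟨h1, h2⟩
    · rw [h1] at h h3 ha ⊢
      have h4 : 0 ≤ Real.exp u - 1 - u - u ^ 2 / 2 := by
        have := Real.quadratic_le_exp_of_nonneg h2
        linarith
      rw [abs_of_nonneg h4]
      nlinarith [sq_nonneg u]
    · have hu : u < -1 := by linarith
      have h5 : |u| ^ 3 = - u ^ 3 := by rw [h1]; ring
      have h6 : Real.exp u ≤ 1 := by
        rw [Real.exp_le_one_iff]; linarith
      have h7 : 1 + u + u ^ 2 / 2 ≤ |u| ^ 3 := by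
        rw [h5]
        nlinarith [sq_nonneg u, mul_pos (show 0 < -u - 1 by linarith) (show 0 < -u by linarith)]
      have h8 : 0 ≤ 1 + u + u ^ 2 / 2 := by nlinarith [sq_nonneg (u + 1)]
      have h9 : |Real.exp u - 1 - u - u ^ 2 / 2| ≤ |u| ^ 3 := by
        rw [abs_le]
        constructor <;> linarith
      calc |Real.exp u - 1 - u - u ^ 2 / 2| ≤ |u| ^ 3 := h9
        _ ≤ |u| ^ 3 * (1 + Real.exp u) := by nlinarith

/-- `|exp u - 1 - u - u^2/2| ≤ |u|^3 (1 + exp u)` and Hölder with exponents `s/3`, `s/(s-3)`: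
`E |X|^3 (1 + exp (t X)) ≤ (E |X|^s)^(3/s) (E (1 + exp (t X))^(s/(s-3)))^(1-3/s)`, and the last factor is bounded (`(1+v)^r ≤ 2^r (1 + v^r)`, `expo`) -/
theorem rv_exp (t s : ℝ) (hs : 3 < s) (Cb : ℝ → ℝ) : ∃ K : ℝ, 0 < K ∧ ∀ (Ω : Type) [MeasurableSpace Ω] (P : Measure Ω) [IsProbabilityMeasure P] (X : Ω → ℝ),
    RV P Cb X → |∫ ω, Real.exp (t * X ω) ∂P - 1 - t ^ 2 / 2 * ∫ ω, X ω ^ 2 ∂P| ≤ K * bq s P X := by
  have hs0 : 0 < s := by linarith
  have hs3 : 0 < s - 3 := by linarith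
  obtain ⟨K, hK, hG⟩ := rva_G t (s / (s - 3)) (by positivity) Cb
  obtain ⟨K1, hK1, hL⟩ := rv_lp s hs0.le Cb
  refine ⟨|t| ^ 3 * K ^ ((s - 3) / s) + 1, by positivity, fun Ω _ P _ X hX => ?_⟩
  have hXi := (hL Ω P X hX).1
  have hm := hX.meas
  have hH := rva_holder (P := P) (r := 3) (by norm_num) hs hX.meas (G := fun ω => 1 + Real.exp (t * X ω)) (by fun_prop) (fun ω => by positivity)
    hXi (hG Ω P X hX).1
  have hb : 0 ≤ bq s P X := by
    unfold bq
    have : 0 ≤ ∫ ω, |X ω| ^ s ∂P := integral_nonneg fun ω => by positivity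
    positivity
  have hint : Integrable (fun ω => Real.exp (t * X ω) - 1 - t * X ω - (t * X ω) ^ 2 / 2) P := by
    refine (((hX.expo t).1.sub (integrable_const 1)).sub ((rva_int hX).const_mul t)).sub ?_
    refine ((rva_int_sq hX).const_mul (t ^ 2 / 2)).congr (Filter.Eventually.of_forall fun ω => ?_)
    show t ^ 2 / 2 * X ω ^ 2 = (t * X ω) ^ 2 / 2
    ring
  have e1 : ∫ ω, Real.exp (t * X ω) ∂P - 1 - t ^ 2 / 2 * ∫ ω, X ω ^ 2 ∂P = ∫ ω, (Real.exp (t * X ω) - 1 - t * X ω - (t * X ω) ^ 2 / 2) ∂P := by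
    have e2 : ∀ ω, Real.exp (t * X ω) - 1 - t * X ω - (t * X ω) ^ 2 / 2 = (Real.exp (t * X ω) - 1 - t * X ω) - (t ^ 2 / 2) * X ω ^ 2 := fun ω => by ring
    have i1 : Integrable (fun ω => Real.exp (t * X ω) - 1) P := (hX.expo t).1.sub (integrable_const 1)
    have i2 : Integrable (fun ω => t * X ω) P := (rva_int hX).const_mul t
    have i3 : Integrable (fun ω => Real.exp (t * X ω) - 1 - t * X ω) P := i1.sub i2
    have i4 : Integrable (fun ω => t ^ 2 / 2 * X ω ^ 2) P := (rva_int_sq hX).const_mul _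
    simp_rw [e2]
    rw [integral_sub i3 i4, integral_sub i1 i2, integral_sub (hX.expo t).1 (integrable_const 1),
      integral_const_mul, integral_const_mul, hX.mean]
    simp
  rw [e1]
  have hI3 : Integrable (fun ω => |t| ^ 3 * (|X ω| ^ (3 : ℝ) * (1 + Real.exp (t * X ω)))) P := hH.1.const_mul _
  calc |∫ ω, (Real.exp (t * X ω) - 1 - t * X ω - (t * X ω) ^ 2 / 2) ∂P|
      ≤ ∫ ω, |Real.exp (t * X ω) - 1 - t * X ω - (t * X ω) ^ 2 / 2| ∂P := abs_integral_le_integral_abs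
    _ ≤ ∫ ω, |t| ^ 3 * (|X ω| ^ (3 : ℝ) * (1 + Real.exp (t * X ω))) ∂P := by
        refine integral_mono hint.abs hI3 (fun ω => ?_)
        refine (rva_taylor (t * X ω)).trans (le_of_eq ?_)
        show |t * X ω| ^ 3 * (1 + Real.exp (t * X ω)) = |t| ^ 3 * (|X ω| ^ (3 : ℝ) * (1 + Real.exp (t * X ω)))
        rw [show (3 : ℝ) = ((3 : ℕ) : ℝ) by norm_num, Real.rpow_natCast, abs_mul]
        ring
    _ = |t| ^ 3 * ∫ ω, |X ω| ^ (3 : ℝ) * (1 + Real.exp (t * X ω)) ∂P := integral_const_mul _ _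
    _ ≤ |t| ^ 3 * (bq s P X * K ^ ((s - 3) / s)) := by
        apply mul_le_mul_of_nonneg_left _ (by positivity)
        refine hH.2.trans ?_
        show bq s P X * _ ≤ _
        apply mul_le_mul_of_nonneg_left _ hb
        apply Real.rpow_le_rpow (integral_nonneg fun ω => by positivity) (hG Ω P X hX).2 (by positivity)
    _ = |t| ^ 3 * K ^ ((s - 3) / s) * bq s P X := by ring
    _ ≤ (|t| ^ 3 * K ^ ((s - 3) / s) + 1) * bq s P X := by
        apply mul_le_mul_of_nonneg_right _ hb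
        linarith

theorem rva_bq_nonneg {Ω : Type} [MeasurableSpace Ω] (s : ℝ) (P : Measure Ω) (X : Ω → ℝ) : 0 ≤ bq s P X := by
  unfold bq
  have : 0 ≤ ∫ ω, |X ω| ^ s ∂P := integral_nonneg fun ω => by positivity
  positivity

/-- bounds for one variable -/
theorem rva_one (s : ℝ) (hs : 3 < s) (Cb : ℝ → ℝ) : ∃ K : ℝ, 1 ≤ K ∧ ∀ (Ω : Type) [MeasurableSpace Ω] (P : Measure Ω) [IsProbabilityMeasure P] (X : Ω → ℝ),
    RV P Cb X → ∫ ω, X ω ^ 2 ∂P ≤ K ∧ bq s P X ≤ K ∧ (∫ ω, X ω ^ 2 ∂P) ^ 2 ≤ K * bq s P X := by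
  have hs0 : 0 < s := by linarith
  have hs2 : 0 < s - 2 := by linarith
  obtain ⟨K1, hK1, hL⟩ := rv_lp s hs0.le Cb
  refine ⟨1 + K1 ^ (2 / s) + K1 ^ (3 / s) + K1 ^ (1 / s), by
    have : 0 ≤ K1 ^ (2 / s) + K1 ^ (3 / s) + K1 ^ (1 / s) := by positivity
    linarith, fun Ω _ P _ X hX => ?_⟩
  have hXi := (hL Ω P X hX).1
  have hm0 : 0 ≤ ∫ ω, |X ω| ^ s ∂P := integral_nonneg fun ω => by positivity
  have hm1 := (hL Ω P X hX).2
  have hH := rva_holder (P := P) (r := 2) (by norm_num) (by linarith) hX.meas (G := fun ω => 1) (by fun_prop) (fun ω => by positivity)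
    hXi (by simp)
  simp only [mul_one, Real.one_rpow, integral_const, probReal_univ, smul_eq_mul] at hH
  have e1 : ∫ ω, |X ω| ^ (2 : ℝ) ∂P = ∫ ω, X ω ^ 2 ∂P := by
    apply integral_congr_ae
    refine Filter.Eventually.of_forall fun ω => ?_
    show |X ω| ^ (2 : ℝ) = X ω ^ 2
    rw [show (2 : ℝ) = ((2 : ℕ) : ℝ) by norm_num, Real.rpow_natCast, sq_abs]
  rw [e1] at hH
  have hv := hH.2
  set m := ∫ ω, |X ω| ^ s ∂P with hmdef
  have hv0 : 0 ≤ ∫ ω, X ω ^ 2 ∂P := integral_nonneg fun ω => by positivity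
  set v := ∫ ω, X ω ^ 2 ∂P with hvdef
  have a1 : m ^ (2 / s) ≤ K1 ^ (2 / s) := Real.rpow_le_rpow hm0 hm1 (by positivity)
  have a2 : m ^ (3 / s) ≤ K1 ^ (3 / s) := Real.rpow_le_rpow hm0 hm1 (by positivity)
  have a3 : m ^ (1 / s) ≤ K1 ^ (1 / s) := Real.rpow_le_rpow hm0 hm1 (by positivity)
  have b1 : 0 ≤ K1 ^ (2 / s) := by positivity
  have b2 : 0 ≤ K1 ^ (3 / s) := by positivity
  have b3 : 0 ≤ K1 ^ (1 / s) := by positivity
  refine ⟨by linarith, ?_, ?_⟩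
  · show m ^ (3 / s) ≤ _
    linarith
  · show v ^ 2 ≤ _ * m ^ (3 / s)
    have c1 : v ^ 2 ≤ (m ^ (2 / s)) ^ 2 := pow_le_pow_left₀ hv0 hv 2
    have c2 : (m ^ (2 / s)) ^ 2 = m ^ (1 / s) * m ^ (3 / s) := by
      rw [← Real.rpow_natCast, ← Real.rpow_mul hm0, ← Real.rpow_add_of_nonneg hm0 (by positivity) (by positivity)]
      congr 1
      push_cast
      ring
    have c3 : 0 ≤ m ^ (3 / s) := by positivity
    rw [c2] at c1
    refine c1.trans (mul_le_mul_of_nonneg_right ?_ c3)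
    linarith

/-- second moments: `E X^2 ≤ (E |X|^s)^(2/s) = b^(2/3)`, `b = bq s P X`, and `b` is bounded, so `(E X^2)^2 ≤ K b`, `E X^2 E Y^2 ≤ K (b_X + b_Y)`, `|E X Y| (E X^2 + E Y^2) ≤ K (b_X + b_Y)` -/
theorem rv_sq (s : ℝ) (hs : 3 < s) (Cb : ℝ → ℝ) : ∃ K : ℝ, 0 < K ∧ ∀ (Ω : Type) [MeasurableSpace Ω] (P : Measure Ω) [IsProbabilityMeasure P] (X Y : Ω → ℝ),
    RV P Cb X → RV P Cb Y → ∫ ω, X ω ^ 2 ∂P ≤ K ∧ bq s P X ≤ K ∧ (∫ ω, X ω ^ 2 ∂P) ^ 2 ≤ K * bq s P X ∧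
      (∫ ω, X ω ^ 2 ∂P) * (∫ ω, Y ω ^ 2 ∂P) ≤ K * (bq s P X + bq s P Y) ∧ |∫ ω, X ω * Y ω ∂P| * (∫ ω, X ω ^ 2 ∂P + ∫ ω, Y ω ^ 2 ∂P) ≤ K * (bq s P X + bq s P Y) := by
  obtain ⟨K, hK, h⟩ := rva_one s hs Cb
  refine ⟨K, by linarith, fun Ω _ P _ X Y hX hY => ?_⟩
  obtain ⟨x1, x2, x3⟩ := h Ω P X hX
  obtain ⟨y1, y2, y3⟩ := h Ω P Y hY
  have hbX := rva_bq_nonneg s P X
  have hbY := rva_bq_nonneg s P Y
  have hv0 : 0 ≤ ∫ ω, X ω ^ 2 ∂P := integral_nonneg fun ω => by positivity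
  have hw0 : 0 ≤ ∫ ω, Y ω ^ 2 ∂P := integral_nonneg fun ω => by positivity
  have hXY : |∫ ω, X ω * Y ω ∂P| ≤ (∫ ω, X ω ^ 2 ∂P + ∫ ω, Y ω ^ 2 ∂P) / 2 := by
    have hiX := rva_int_sq hX
    have hiY := rva_int_sq hY
    have hmeas : Measurable (fun ω => X ω * Y ω) := hX.meas.mul hY.meas
    have hle : ∀ ω, |X ω * Y ω| ≤ (X ω ^ 2 + Y ω ^ 2) / 2 := by
      intro ω
      rw [abs_le]
      constructor <;> nlinarith [sq_nonneg (X ω - Y ω), sq_nonneg (X ω + Y ω)]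
    have hi2 : Integrable (fun ω => (X ω ^ 2 + Y ω ^ 2) / 2) P := (hiX.add hiY).div_const 2
    have hi : Integrable (fun ω => X ω * Y ω) P := by
      refine hi2.mono' hmeas.aestronglyMeasurable (Filter.Eventually.of_forall fun ω => ?_)
      exact hle ω
    calc |∫ ω, X ω * Y ω ∂P| ≤ ∫ ω, |X ω * Y ω| ∂P := abs_integral_le_integral_abs
      _ ≤ ∫ ω, (X ω ^ 2 + Y ω ^ 2) / 2 ∂P := integral_mono hi.abs hi2 hle
      _ = (∫ ω, X ω ^ 2 ∂P + ∫ ω, Y ω ^ 2 ∂P) / 2 := by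
          rw [integral_div, integral_add hiX hiY]
  set v := ∫ ω, X ω ^ 2 ∂P
  set w := ∫ ω, Y ω ^ 2 ∂P
  refine ⟨x1, x2, x3, ?_, ?_⟩
  · nlinarith [sq_nonneg (v - w)]
  · have : |∫ ω, X ω * Y ω ∂P| * (v + w) ≤ (v + w) / 2 * (v + w) := by
      apply mul_le_mul_of_nonneg_right hXY; linarith
    nlinarith [sq_nonneg (v - w)]

theorem rva_log (u : ℝ) (hu : 0 ≤ u) : |Real.log (1 + u) - u| ≤ u ^ 2 := by
  have h1 : Real.log (1 + u) ≤ u := by
    have := Real.log_le_sub_one_of_pos (show 0 < 1 + u by linarith)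
    linarith
  have h2 := Real.le_log_one_add_of_nonneg hu
  have h3 : u - u ^ 2 ≤ 2 * u / (u + 2) := by
    rw [le_div_iff₀ (by linarith)]
    have h4 : 0 ≤ u ^ 3 := by positivity
    nlinarith [sq_nonneg u]
  rw [abs_le]
  constructor
  · linarith
  · have := sq_nonneg u
    linarith

/-- `u = E exp (t X) - 1 ≥ 0`, `|log (1 + u) - u| ≤ u^2`, `rv_exp`, `rv_sq` -/
theorem rv_log (t s : ℝ) (hs : 3 < s) (Cb : ℝ → ℝ) : ∃ K : ℝ, 0 < K ∧ ∀ (Ω : Type) [MeasurableSpace Ω] (P : Measure Ω) [IsProbabilityMeasure P] (X : Ω → ℝ),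
    RV P Cb X → |Real.log (∫ ω, Real.exp (t * X ω) ∂P) - t ^ 2 / 2 * ∫ ω, X ω ^ 2 ∂P| ≤ K * bq s P X := by
  obtain ⟨K1, hK1, h1⟩ := rv_exp t s hs Cb
  obtain ⟨K2, hK2, h2⟩ := rva_one s hs Cb
  refine ⟨K1 + 2 * (t ^ 2 / 2) ^ 2 * K2 + 2 * K1 ^ 2 * K2, by positivity, fun Ω _ P _ X hX => ?_⟩
  have a1 := h1 Ω P X hX
  obtain ⟨b1, b2, b3⟩ := h2 Ω P X hX
  have hb := rva_bq_nonneg s P X
  have hu := rv_one_le hX t
  set D := ∫ ω, Real.exp (t * X ω) ∂P
  set v := ∫ ω, X ω ^ 2 ∂P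
  set b := bq s P X
  have c1 := rva_log (D - 1) (by linarith)
  rw [show 1 + (D - 1) = D by ring] at c1
  set e := D - 1 - t ^ 2 / 2 * v with hedef
  have hD : D - 1 = t ^ 2 / 2 * v + e := by rw [hedef]; ring
  have c2 : (D - 1) ^ 2 ≤ 2 * (t ^ 2 / 2) ^ 2 * v ^ 2 + 2 * e ^ 2 := by
    rw [hD]
    nlinarith [sq_nonneg (t ^ 2 / 2 * v - e)]
  have c3 : e ^ 2 ≤ K1 ^ 2 * K2 * b := by
    have d1 : e ^ 2 ≤ (K1 * b) ^ 2 := by
      rw [← sq_abs e]
      exact pow_le_pow_left₀ (abs_nonneg _) a1 2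
    have d2 : (K1 * b) ^ 2 = K1 ^ 2 * (b * b) := by ring
    have d3 : b * b ≤ K2 * b := mul_le_mul_of_nonneg_right b2 hb
    have d4 : K1 ^ 2 * (b * b) ≤ K1 ^ 2 * (K2 * b) := mul_le_mul_of_nonneg_left d3 (by positivity)
    linarith
  have c4 : 2 * (t ^ 2 / 2) ^ 2 * v ^ 2 ≤ 2 * (t ^ 2 / 2) ^ 2 * (K2 * b) := mul_le_mul_of_nonneg_left b3 (by positivity)
  have c5 : Real.log D - t ^ 2 / 2 * v = (Real.log D - (D - 1)) + e := by rw [hedef]; ring
  rw [c5]
  calc |(Real.log D - (D - 1)) + e| ≤ |Real.log D - (D - 1)| + |e| := abs_add_le _ _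
    _ ≤ (D - 1) ^ 2 + K1 * b := add_le_add c1 a1
    _ ≤ _ := by nlinarith

end Pool.Agent.MChaos
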