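import Pool.Agent.Lib_MP_a91488.FDefs
import Pool.Agent.Lib_MP_a91488.RVA

/-!
# Piece CPA: basic facts on the fields and the weights
-/

set_option autoImplicit false

open MeasureTheory ProbabilityTheory Filter
open scoped Topology

namespace Pool.Agent.MChaos

variable {d : ℕ} {Ω : Type} [MeasurableSpace Ω] {P : Measure Ω} [IsProbabilityMeasure P] {X : ℕ → Ω → E d → ℝ}

theorem CP.rv (hX : CP d P X) : ∃ Cb : ℝ → ℝ, ∀ k x, RV P Cb (fun ω => X k ω x) := by
  choose Cb hCb using hX.expo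
  exact ⟨Cb, fun k x => ⟨hX.meas k x, hX.mean k x, fun t => hCb t k x⟩⟩

/-- continuous in `x`, measurable in `ω` -/
theorem CP.unc (hX : CP d P X) (k : ℕ) : Measurable (Function.uncurry (X k)) := by
  have h : Measurable (Function.uncurry (fun (x : E d) (ω : Ω) => X k ω x)) :=
    measurable_uncurry_of_continuous_of_measurable (fun ω => hX.cont k ω) (fun x => hX.meas k x)
  exact h.comp measurable_swap

private theorem den_one_le (hX : CP d P X) (γ : ℝ) (k : ℕ) (x : E d) : 1 ≤ ∫ ω', Real.exp (γ * X k ω' x) ∂P := by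
  obtain ⟨Cb, hCb⟩ := hX.rv
  exact rv_one_le (hCb k x) γ

private theorem den_meas (hX : CP d P X) (γ : ℝ) (k : ℕ) :
    Measurable (fun x : E d => ∫ ω', Real.exp (γ * X k ω' x) ∂P) := by
  have h : Measurable (Function.uncurry (fun (ω : Ω) (x : E d) => Real.exp (γ * X k ω x))) :=
    ((hX.unc k).const_mul γ).exp
  exact (h.stronglyMeasurable.integral_prod_left' (μ := P)).measurable

theorem wt_unc (hX : CP d P X) (γ : ℝ) (k : ℕ) : Measurable (Function.uncurry (wt P X γ k)) := by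
  have h : Measurable (fun p : Ω × E d => Real.exp (γ * X k p.1 p.2)) :=
    ((hX.unc k).const_mul γ).exp
  exact h.div ((den_meas hX γ k).comp measurable_snd)

theorem wt_pos (hX : CP d P X) (γ : ℝ) (k : ℕ) (ω : Ω) (x : E d) : 0 < wt P X γ k ω x :=
  div_pos (Real.exp_pos _) (lt_of_lt_of_le one_pos (den_one_le hX γ k x))

/-- the denominator is at least one -/
theorem wt_bdd (hX : CP d P X) (γ : ℝ) (k : ℕ) (ω : Ω) : ∃ B : ℝ, ∀ x, wt P X γ k ω x ≤ B := by
  obtain ⟨B, hB⟩ := hX.bdd k ω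
  refine ⟨Real.exp (|γ| * B), fun x => ?_⟩
  have h1 : wt P X γ k ω x ≤ Real.exp (γ * X k ω x) :=
    div_le_self (Real.exp_pos _).le (den_one_le hX γ k x)
  refine h1.trans (Real.exp_le_exp.2 ?_)
  calc γ * X k ω x ≤ |γ * X k ω x| := le_abs_self _
    _ = |γ| * |X k ω x| := abs_mul _ _
    _ ≤ |γ| * B := mul_le_mul_of_nonneg_left (hB x) (abs_nonneg _)

theorem wt_mean (hX : CP d P X) (γ : ℝ) (k : ℕ) (x : E d) : Integrable (fun ω => wt P X γ k ω x) P ∧ ∫ ω, wt P X γ k ω x ∂P = 1 := by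
  obtain ⟨C, hC⟩ := hX.expo γ
  refine ⟨(hC k x).1.div_const _, ?_⟩
  have h : ∫ ω, wt P X γ k ω x ∂P = (∫ ω, Real.exp (γ * X k ω x) ∂P) / ∫ ω', Real.exp (γ * X k ω' x) ∂P :=
    integral_div _ _
  rw [h, div_self]
  exact (lt_of_lt_of_le one_pos (den_one_le hX γ k x)).ne'

theorem SS_meas (hX : CP d P X) (n N : ℕ) : Measurable (Function.uncurry (SS X n N)) := by
  have h : Measurable (fun p : Ω × E d => ∑ k ∈ Finset.Ico n N, X k p.1 p.2) :=
    Finset.measurable_sum _ (fun k _ => hX.unc k)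
  exact h

theorem SS_cont (hX : CP d P X) (n N : ℕ) (ω : Ω) : Continuous (SS X n N ω) := by
  have h : Continuous (fun x : E d => ∑ k ∈ Finset.Ico n N, X k ω x) :=
    continuous_finsetSum _ (fun k _ => hX.cont k ω)
  exact h

private theorem indep_at (hX : CP d P X) (x : E d) : iIndepFun (fun (k : ℕ) (ω : Ω) => X k ω x) P :=
  hX.indep.comp (fun _ (f : E d → ℝ) => f x) (fun _ => measurable_pi_apply x)

/-- independence of the fields at one point -/
theorem mgf_prod (hX : CP d P X) (t : ℝ) (n N : ℕ) (x : E d) :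
    Integrable (fun ω => Real.exp (t * SS X n N ω x)) P ∧
      ∫ ω, Real.exp (t * SS X n N ω x) ∂P = ∏ k ∈ Finset.Ico n N, ∫ ω, Real.exp (t * X k ω x) ∂P := by
  obtain ⟨C, hC⟩ := hX.expo t
  have hi := indep_at hX x
  have hm : ∀ k, Measurable (fun ω => X k ω x) := fun k => hX.meas k x
  have h1 : Integrable (fun ω => Real.exp (t * (∑ k ∈ Finset.Ico n N, fun ω => X k ω x) ω)) P :=
    hi.integrable_exp_mul_sum hm (fun k _ => (hC k x).1)
  have h2 := hi.mgf_sum (t := t) hm (Finset.Ico n N)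
  have h3 : ∀ ω, (∑ k ∈ Finset.Ico n N, fun ω => X k ω x) ω = SS X n N ω x := by
    intro ω
    simp only [Finset.sum_apply, SS]
  constructor
  · simpa only [h3] using h1
  · unfold mgf at h2
    simpa only [h3] using h2

private theorem mgf_pos (hX : CP d P X) (t : ℝ) (n N : ℕ) (x : E d) :
    0 < ∫ ω, Real.exp (t * SS X n N ω x) ∂P := by
  rw [(mgf_prod hX t n N x).2]
  exact Finset.prod_pos (fun k _ => lt_of_lt_of_le one_pos (den_one_le hX t k x))

theorem prod_wt (hX : CP d P X) (γ : ℝ) (n N : ℕ) (ω : Ω) (x : E d) :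
    ∏ k ∈ Finset.Ico n N, wt P X γ k ω x = Real.exp (γ * SS X n N ω x) / ∫ ω', Real.exp (γ * SS X n N ω' x) ∂P := by
  rw [(mgf_prod hX γ n N x).2]
  unfold wt SS
  rw [Finset.prod_div_distrib, Finset.mul_sum, Real.exp_sum]

theorem prod_wt_mean (hX : CP d P X) (γ : ℝ) (n N : ℕ) (x : E d) : ∫ ω, ∏ k ∈ Finset.Ico n N, wt P X γ k ω x ∂P = 1 := by
  simp only [prod_wt hX]
  rw [integral_div, div_self (mgf_pos hX γ n N x).ne']

theorem sig2_mono : Monotone (sig2 P X) := by
  refine monotone_nat_of_le_succ (fun n => ?_)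
  unfold sig2
  rw [Finset.sum_range_succ]
  have : 0 ≤ ∫ ω, X n ω 0 ^ 2 ∂P := integral_nonneg (fun ω => sq_nonneg _)
  linarith

theorem sig2_zero : sig2 P X 0 = 0 := by
  simp [sig2]

/-- partial sums of a series of nonnegative terms which is not summable -/
theorem sig2_tendsto (hX : CP d P X) : Tendsto (sig2 P X) atTop atTop :=
  (not_summable_iff_tendsto_nat_atTop_of_nonneg
    (fun _ => integral_nonneg (fun ω => sq_nonneg _))).1 hX.div

theorem sig2_small (hX : CP d P X) (ε : ℝ) (hε : 0 < ε) : ∃ K : ℕ, ∀ k, K ≤ k → sig2 P X (k + 1) - sig2 P X k ≤ ε := by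
  obtain ⟨K, hK⟩ := hX.small ε hε
  refine ⟨K, fun k hk => ?_⟩
  have h := hK k hk 0
  unfold sig2
  rw [Finset.sum_range_succ]
  linarith

end Pool.Agent.MChaos
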