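import Pool.Agent.Lib_MP_a91488.ONEA

/-!
# Piece ONEB: one step estimate of second order
-/

set_option autoImplicit false

open MeasureTheory

namespace Pool.Agent.MChaos

theorem oneb_pow {s t : ℝ} (hs : 0 ≤ s) (ht : 0 ≤ t) : (1 + t) ^ s ≤ 2 ^ s * (1 + t ^ s) := by
  have h2 : (0 : ℝ) ≤ 2 ^ s := Real.rpow_nonneg (by norm_num) s
  have h3 : (0 : ℝ) ≤ t ^ s := Real.rpow_nonneg ht s
  rcases le_total 1 t with h | h
  · calc (1 + t) ^ s ≤ (2 * t) ^ s := Real.rpow_le_rpow (by linarith) (by linarith) hs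
      _ = 2 ^ s * t ^ s := Real.mul_rpow (by norm_num) ht
      _ ≤ 2 ^ s * (1 + t ^ s) := mul_le_mul_of_nonneg_left (by linarith) h2
  · calc (1 + t) ^ s ≤ 2 ^ s := Real.rpow_le_rpow (by linarith) (by linarith) hs
      _ = 2 ^ s * 1 := (mul_one _).symm
      _ ≤ 2 ^ s * (1 + t ^ s) := mul_le_mul_of_nonneg_left (by linarith) h2

section step

variable {Ω D : Type} [MeasurableSpace Ω] [MeasurableSpace D] {P : Measure Ω} [IsProbabilityMeasure P] {w : Ω → D → ℝ} {a : D → ℝ} {s : ℝ} {M : ℝ → ℝ}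

omit [IsProbabilityMeasure P] in
theorem Wt.ob_meas_om (hw : Wt P w a s M) (x : D) : Measurable (fun ω => w ω x) :=
  hw.meas.comp (measurable_id.prodMk measurable_const)

omit [IsProbabilityMeasure P] in
theorem Wt.ob_meas_d (hw : Wt P w a s M) (ω : Ω) : Measurable (w ω) :=
  hw.meas.comp (measurable_const.prodMk measurable_id)

omit [IsProbabilityMeasure P] in
theorem Wt.ob_int_om (hw : Wt P w a s M) (x : D) : Integrable (fun ω => w ω x) P := by
  have h := (hw.mom x 1).1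
  simpa using h

omit [IsProbabilityMeasure P] in
theorem Wt.ob_int_sq (hw : Wt P w a s M) (x : D) : Integrable (fun ω => w ω x ^ 2) P := by
  have h := (hw.mom x 2).1
  simpa using h

theorem Wt.ob_int_s (hw : Wt P w a s M) (hs : 0 ≤ s) (x : D) : Integrable (fun ω => |w ω x - 1| ^ s) P := by
  have h1 : Integrable (fun ω => 2 ^ s * (1 + w ω x ^ s)) P :=
    ((integrable_const 1).add (hw.mom x s).1).const_mul _
  refine h1.mono' ?_ ?_
  · exact (((hw.ob_meas_om x).sub_const 1).abs.pow_const s).aestronglyMeasurable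
  · refine Filter.Eventually.of_forall fun ω => ?_
    rw [Real.norm_eq_abs, abs_of_nonneg (Real.rpow_nonneg (abs_nonneg _) _)]
    have h0 := hw.pos ω x
    have h2 : |w ω x - 1| ≤ 1 + w ω x := by
      rw [abs_le]
      constructor <;> linarith
    exact (Real.rpow_le_rpow (abs_nonneg _) h2 hs).trans (oneb_pow hs h0.le)

/-- the mean of `U` -/
theorem Wt.ob_U_mean (hw : Wt P w a s M) (ρ : Measure D) [IsProbabilityMeasure ρ] :
    ∫ ω, (∫ x, w ω x ∂ρ) ∂P = 1 := by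
  have hint : Integrable (Function.uncurry w) (P.prod ρ) := by
    rw [integrable_prod_iff' hw.meas.aestronglyMeasurable]
    refine ⟨Filter.Eventually.of_forall fun x => hw.ob_int_om x, ?_⟩
    have h1 : (fun x => ∫ ω, ‖Function.uncurry w (ω, x)‖ ∂P) = fun _ => (1 : ℝ) := by
      funext x
      rw [← hw.mean x]
      refine integral_congr_ae (Filter.Eventually.of_forall fun ω => ?_)
      exact Real.norm_of_nonneg (hw.pos ω x).le
    rw [h1]
    exact integrable_const _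
  rw [integral_integral_swap hint]
  have h2 : (fun x => ∫ ω, w ω x ∂P) = fun _ => (1 : ℝ) := funext hw.mean
  rw [h2]
  simp

/-- the second moment of `U` -/
theorem Wt.ob_U_sq (hw : Wt P w a s M) (ρ : Measure D) [IsProbabilityMeasure ρ] :
    ∫ ω, (∫ x, w ω x ∂ρ) ^ 2 ∂P = 1 + ∫ x, ∫ y, cw P w x y ∂ρ ∂ρ := by
  have hm : Measurable (fun z : Ω × (D × D) => w z.1 z.2.1 * w z.1 z.2.2) :=
    (hw.meas.comp (measurable_fst.prodMk (measurable_fst.comp measurable_snd))).mul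
      (hw.meas.comp (measurable_fst.prodMk (measurable_snd.comp measurable_snd)))
  have hxy : ∀ x y : D, Integrable (fun ω => w ω x * w ω y) P := by
    intro x y
    have h := (hw.U_prod ρ 0 x y).1
    simpa using h
  have hb : ∀ x y : D, ∫ ω, w ω x * w ω y ∂P ≤ M 2 := by
    intro x y
    have h1 : ∫ ω, w ω x * w ω y ∂P ≤ ∫ ω, (w ω x ^ 2 + w ω y ^ 2) / 2 ∂P := by
      refine integral_mono (hxy x y) (((hw.ob_int_sq x).add (hw.ob_int_sq y)).div_const 2) fun ω => ?_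
      have := sq_nonneg (w ω x - w ω y)
      show w ω x * w ω y ≤ (w ω x ^ 2 + w ω y ^ 2) / 2
      nlinarith
    rw [integral_div, integral_add (hw.ob_int_sq x) (hw.ob_int_sq y)] at h1
    have h2 := (hw.mom x 2).2
    have h3 := (hw.mom y 2).2
    simp only [Real.rpow_two] at h2 h3
    linarith
  have hmE : StronglyMeasurable (fun z : D × D => ∫ ω, w ω z.1 * w ω z.2 ∂P) :=
    hm.stronglyMeasurable.integral_prod_left'
  have hnn : ∀ x y : D, 0 ≤ ∫ ω, w ω x * w ω y ∂P := fun x y =>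
    integral_nonneg fun ω => (mul_pos (hw.pos ω x) (hw.pos ω y)).le
  have hE : Integrable (fun z : D × D => ∫ ω, w ω z.1 * w ω z.2 ∂P) (ρ.prod ρ) := by
    refine Integrable.mono' (integrable_const (M 2)) hmE.aestronglyMeasurable ?_
    refine Filter.Eventually.of_forall fun z => ?_
    rw [Real.norm_of_nonneg (hnn _ _)]
    exact hb _ _
  have hint : Integrable (fun z : Ω × (D × D) => w z.1 z.2.1 * w z.1 z.2.2) (P.prod (ρ.prod ρ)) := by
    rw [integrable_prod_iff' hm.aestronglyMeasurable]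
    refine ⟨Filter.Eventually.of_forall fun z => hxy z.1 z.2, ?_⟩
    have h1 : (fun z : D × D => ∫ ω, ‖w ω z.1 * w ω z.2‖ ∂P) = fun z => ∫ ω, w ω z.1 * w ω z.2 ∂P := by
      funext z
      refine integral_congr_ae (Filter.Eventually.of_forall fun ω => ?_)
      exact Real.norm_of_nonneg (mul_pos (hw.pos ω z.1) (hw.pos ω z.2)).le
    rw [h1]
    exact hE
  have h1 : ∫ ω, (∫ x, w ω x ∂ρ) ^ 2 ∂P = ∫ ω, (∫ z : D × D, w ω z.1 * w ω z.2 ∂(ρ.prod ρ)) ∂P := by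
    refine integral_congr_ae (Filter.Eventually.of_forall fun ω => ?_)
    show (∫ x, w ω x ∂ρ) ^ 2 = ∫ z : D × D, w ω z.1 * w ω z.2 ∂(ρ.prod ρ)
    rw [integral_prod_mul (w ω) (w ω), sq]
  have hswap := integral_integral_swap (μ := P) (ν := ρ.prod ρ)
    (f := fun ω (z : D × D) => w ω z.1 * w ω z.2) hint
  have hcw : Integrable (fun z : D × D => cw P w z.1 z.2) (ρ.prod ρ) := hE.sub (integrable_const 1)
  have h3 : ∫ x, ∫ y, cw P w x y ∂ρ ∂ρ = ∫ z : D × D, cw P w z.1 z.2 ∂(ρ.prod ρ) :=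
    (integral_prod _ hcw).symm
  have h4 : ∫ z : D × D, cw P w z.1 z.2 ∂(ρ.prod ρ) =
      (∫ z : D × D, (∫ ω, w ω z.1 * w ω z.2 ∂P) ∂(ρ.prod ρ)) - 1 := by
    have : (fun z : D × D => cw P w z.1 z.2) = fun z => (∫ ω, w ω z.1 * w ω z.2 ∂P) - 1 := rfl
    rw [this, integral_sub hE (integrable_const 1)]
    simp
  rw [h1, hswap, h3, h4]
  ring

/-- Jensen -/
theorem Wt.ob_jensen3 (hw : Wt P w a s M) (ρ : Measure D) [IsProbabilityMeasure ρ] (ω : Ω) :
    Integrable (fun x => |w ω x - 1| ^ 3) ρ ∧ |(∫ x, w ω x ∂ρ) - 1| ^ 3 ≤ ∫ x, |w ω x - 1| ^ 3 ∂ρ := by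
  have hi := hw.int_D ρ ω
  have hi1 : Integrable (fun x => w ω x - 1) ρ := hi.sub (integrable_const 1)
  obtain ⟨B, hB⟩ := hw.bdd ω
  have hi3 : Integrable (fun x => |w ω x - 1| ^ 3) ρ := by
    refine Integrable.mono' (integrable_const ((1 + |B|) ^ 3))
      (((hw.ob_meas_d ω).sub_const 1).abs.pow_const 3).aestronglyMeasurable ?_
    refine Filter.Eventually.of_forall fun x => ?_
    rw [Real.norm_of_nonneg (pow_nonneg (abs_nonneg _) 3)]
    refine pow_le_pow_left₀ (abs_nonneg _) ?_ 3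
    have h0 := hw.pos ω x
    have h1 := hB x
    have h2 := le_abs_self B
    have h3 := abs_nonneg B
    rw [abs_le]
    constructor <;> linarith
  refine ⟨hi3, ?_⟩
  have h1 : (∫ x, w ω x ∂ρ) - 1 = ∫ x, (w ω x - 1) ∂ρ := by
    rw [integral_sub hi (integrable_const 1)]
    simp
  have h2 : |(∫ x, w ω x ∂ρ) - 1| ≤ ∫ x, |w ω x - 1| ∂ρ := by
    rw [h1]
    exact abs_integral_le_integral_abs
  have h3 : (∫ x, |w ω x - 1| ∂ρ) ^ 3 ≤ ∫ x, |w ω x - 1| ^ 3 ∂ρ :=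
    (convexOn_pow 3).map_integral_le (continuous_pow 3).continuousOn isClosed_Ici
      (Filter.Eventually.of_forall fun x => Set.mem_Ici.2 (abs_nonneg _)) hi1.abs hi3
  exact (pow_le_pow_left₀ (abs_nonneg _) h2 3).trans h3

/-- Hölder, for one point `x` -/
theorem Wt.ob_holder3 (hw : Wt P w a s M) (hs : 3 < s) (ρ : Measure D) [IsProbabilityMeasure ρ] (q : ℝ) (x : D) :
    ∫⁻ ω, ENNReal.ofReal (|w ω x - 1| ^ 3 * (1 + (∫ x, w ω x ∂ρ) ^ (q - 3))) ∂P ≤
      ENNReal.ofReal (a x * (2 ^ (s / (s - 3)) * (3 + |M ((q - 3) * (s / (s - 3)))|)) ^ (1 / (s / (s - 3)))) := by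
  have hs0 : (0 : ℝ) < s := by linarith
  have hs3 : (0 : ℝ) < s - 3 := by linarith
  have hr0 : 0 < s / (s - 3) := div_pos hs0 hs3
  have hconj : (s / 3).HolderConjugate (s / (s - 3)) := by
    rw [Real.holderConjugate_iff]
    refine ⟨by linarith, ?_⟩
    field_simp
    ring
  have hV0 : ∀ ω, 0 ≤ 1 + (∫ x, w ω x ∂ρ) ^ (q - 3) := fun ω => by
    have := Real.rpow_nonneg (hw.U_pos ρ ω).le (q - 3)
    linarith
  have hU0 : ∀ ω, 0 ≤ (∫ x, w ω x ∂ρ) ^ (q - 3) := fun ω => Real.rpow_nonneg (hw.U_pos ρ ω).le _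
  have hm1 : Measurable (fun ω => ENNReal.ofReal (|w ω x - 1| ^ 3)) :=
    (((hw.ob_meas_om x).sub_const 1).abs.pow_const 3).ennreal_ofReal
  have hm2 : Measurable (fun ω => ENNReal.ofReal (1 + (∫ x, w ω x ∂ρ) ^ (q - 3))) :=
    (((hw.U_meas ρ).pow_const (q - 3)).const_add 1).ennreal_ofReal
  have h1 : ∫⁻ ω, ENNReal.ofReal (|w ω x - 1| ^ 3 * (1 + (∫ x, w ω x ∂ρ) ^ (q - 3))) ∂P =
      ∫⁻ ω, ((fun ω => ENNReal.ofReal (|w ω x - 1| ^ 3)) *
        fun ω => ENNReal.ofReal (1 + (∫ x, w ω x ∂ρ) ^ (q - 3))) ω ∂P := by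
    refine lintegral_congr fun ω => ?_
    rw [ENNReal.ofReal_mul (pow_nonneg (abs_nonneg _) 3)]
    rfl
  have h2 := ENNReal.lintegral_mul_le_Lp_mul_Lq P hconj hm1.aemeasurable hm2.aemeasurable
  have h3 : (∫⁻ ω, ENNReal.ofReal (|w ω x - 1| ^ 3) ^ (s / 3) ∂P) ^ (1 / (s / 3)) ≤ ENNReal.ofReal (a x) := by
    have h31 : ∀ ω, ENNReal.ofReal (|w ω x - 1| ^ 3) ^ (s / 3) = ENNReal.ofReal (|w ω x - 1| ^ s) := by
      intro ω
      rw [ENNReal.ofReal_rpow_of_nonneg (pow_nonneg (abs_nonneg _) 3) (by positivity)]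
      congr 1
      rw [← Real.rpow_natCast, ← Real.rpow_mul (abs_nonneg _)]
      congr 1
      push_cast
      field_simp
    simp_rw [h31]
    rw [← ofReal_integral_eq_lintegral_ofReal (hw.ob_int_s hs0.le x)
      (Filter.Eventually.of_forall fun ω => Real.rpow_nonneg (abs_nonneg _) _)]
    rw [ENNReal.ofReal_rpow_of_nonneg (integral_nonneg fun ω => Real.rpow_nonneg (abs_nonneg _) _) (by positivity)]
    refine ENNReal.ofReal_le_ofReal ?_
    have h32 : 1 / (s / 3) = 3 / s := by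
      field_simp
    rw [h32]
    exact hw.thr x
  have h4 : (∫⁻ ω, ENNReal.ofReal (1 + (∫ x, w ω x ∂ρ) ^ (q - 3)) ^ (s / (s - 3)) ∂P) ^ (1 / (s / (s - 3))) ≤
      ENNReal.ofReal ((2 ^ (s / (s - 3)) * (3 + |M ((q - 3) * (s / (s - 3)))|)) ^ (1 / (s / (s - 3)))) := by
    have hmom := hw.U_mom ρ ((q - 3) * (s / (s - 3)))
    have h41 : ∀ ω, ENNReal.ofReal (1 + (∫ x, w ω x ∂ρ) ^ (q - 3)) ^ (s / (s - 3)) ≤
        ENNReal.ofReal (2 ^ (s / (s - 3)) * (1 + (∫ x, w ω x ∂ρ) ^ ((q - 3) * (s / (s - 3))))) := by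
      intro ω
      rw [ENNReal.ofReal_rpow_of_nonneg (hV0 ω) hr0.le]
      refine ENNReal.ofReal_le_ofReal ?_
      rw [Real.rpow_mul (hw.U_pos ρ ω).le]
      exact oneb_pow hr0.le (hU0 ω)
    have h42 : ∫⁻ ω, ENNReal.ofReal (1 + (∫ x, w ω x ∂ρ) ^ (q - 3)) ^ (s / (s - 3)) ∂P ≤
        ENNReal.ofReal (2 ^ (s / (s - 3)) * (3 + |M ((q - 3) * (s / (s - 3)))|)) := by
      refine (lintegral_mono h41).trans ?_
      have ia : Integrable (fun ω => 1 + (∫ x, w ω x ∂ρ) ^ ((q - 3) * (s / (s - 3)))) P :=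
        (integrable_const 1).add hmom.1
      have ib : Integrable (fun ω => (2 : ℝ) ^ (s / (s - 3)) *
          (1 + (∫ x, w ω x ∂ρ) ^ ((q - 3) * (s / (s - 3))))) P := ia.const_mul _
      rw [← ofReal_integral_eq_lintegral_ofReal ib (Filter.Eventually.of_forall fun ω => ?_)]
      · refine ENNReal.ofReal_le_ofReal ?_
        rw [integral_const_mul, integral_add (integrable_const 1) hmom.1]
        refine mul_le_mul_of_nonneg_left ?_ (Real.rpow_nonneg (by norm_num) _)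
        have h5 := hmom.2
        have h6 := le_abs_self (M ((q - 3) * (s / (s - 3))))
        simp only [integral_const, probReal_univ, smul_eq_mul, one_mul]
        linarith
      · have h7 := Real.rpow_nonneg (hw.U_pos ρ ω).le ((q - 3) * (s / (s - 3)))
        have h8 : (0 : ℝ) ≤ 2 ^ (s / (s - 3)) := Real.rpow_nonneg (by norm_num) _
        exact mul_nonneg h8 (by linarith)
    calc (∫⁻ ω, ENNReal.ofReal (1 + (∫ x, w ω x ∂ρ) ^ (q - 3)) ^ (s / (s - 3)) ∂P) ^ (1 / (s / (s - 3)))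
        ≤ (ENNReal.ofReal (2 ^ (s / (s - 3)) * (3 + |M ((q - 3) * (s / (s - 3)))|))) ^ (1 / (s / (s - 3))) :=
          ENNReal.rpow_le_rpow h42 (by positivity)
      _ = _ := ENNReal.ofReal_rpow_of_nonneg
          (mul_nonneg (Real.rpow_nonneg (by norm_num) _) (by positivity)) (by positivity)
  rw [h1]
  refine h2.trans ?_
  rw [ENNReal.ofReal_mul (hw.a0 x)]
  exact mul_le_mul' h3 h4

end step

/-- `E (U - 1) ^ 2 = ∬ cw dρ dρ` (Fubini), `tay3`, `|U - 1| ^ 3 ≤ ∫ |w - 1| ^ 3 dρ` (Jensen), and for every `x`, with `V = 1 + U ^ (q - 3)`, Hölder with exponents `s/3` and `s/(s-3)`: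
`E |w x - 1| ^ 3 V ≤ (E |w x - 1| ^ s) ^ (3/s) (E V ^ (s/(s-3))) ^ (1 - 3/s) ≤ K a x`, `E V ^ r` bounded by `Wt.U_mom` -/
theorem one_step (q s : ℝ) (hs : 3 < s) (M : ℝ → ℝ) : ∃ K : ℝ, 0 < K ∧
    ∀ (Ω D : Type) [MeasurableSpace Ω] [MeasurableSpace D] (P : Measure Ω) [IsProbabilityMeasure P] (w : Ω → D → ℝ) (a : D → ℝ) (_ : Wt P w a s M)
      (ρ : Measure D) [IsProbabilityMeasure ρ],
      |∫ ω, (∫ x, w ω x ∂ρ) ^ q ∂P - 1 - q * (q - 1) / 2 * ∫ x, ∫ y, cw P w x y ∂ρ ∂ρ| ≤ K * ∫ x, a x ∂ρ := by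
  obtain ⟨K1, hK1, htay⟩ := tay3 q
  have hB : (0 : ℝ) < (2 ^ (s / (s - 3)) * (3 + |M ((q - 3) * (s / (s - 3)))|)) ^ (1 / (s / (s - 3))) := by
    positivity
  generalize hC : (2 ^ (s / (s - 3)) * (3 + |M ((q - 3) * (s / (s - 3)))|)) ^ (1 / (s / (s - 3))) = C at hB
  refine ⟨K1 * C, mul_pos hK1 hB, ?_⟩
  intro Ω D _ _ P _ w a hw ρ _
  have hUpos := hw.U_pos ρ
  have hUm := hw.U_meas ρ
  have i0 := (hw.U_mom ρ q).1
  have i1 : Integrable (fun ω => ∫ x, w ω x ∂ρ) P := by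
    have h := (hw.U_mom ρ 1).1
    simpa using h
  have i2 : Integrable (fun ω => (∫ x, w ω x ∂ρ) ^ 2) P := by
    have h := (hw.U_mom ρ 2).1
    simpa using h
  have e1 := hw.ob_U_mean ρ
  have e2 := hw.ob_U_sq ρ
  have j1 : Integrable (fun ω => (∫ x, w ω x ∂ρ) - 1) P := i1.sub (integrable_const 1)
  have j2 : Integrable (fun ω => ((∫ x, w ω x ∂ρ) - 1) ^ 2) P := by
    have h : (fun ω => ((∫ x, w ω x ∂ρ) - 1) ^ 2) =
        fun ω => (∫ x, w ω x ∂ρ) ^ 2 - 2 * (∫ x, w ω x ∂ρ) + 1 := by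
      funext ω
      ring
    rw [h]
    exact (i2.sub (i1.const_mul 2)).add (integrable_const 1)
  have f1 : ∫ ω, ((∫ x, w ω x ∂ρ) - 1) ∂P = 0 := by
    rw [integral_sub i1 (integrable_const 1), e1]
    simp
  have f2 : ∫ ω, ((∫ x, w ω x ∂ρ) - 1) ^ 2 ∂P = ∫ x, ∫ y, cw P w x y ∂ρ ∂ρ := by
    have h : (fun ω => ((∫ x, w ω x ∂ρ) - 1) ^ 2) =
        fun ω => (∫ x, w ω x ∂ρ) ^ 2 - 2 * (∫ x, w ω x ∂ρ) + 1 := by
      funext ω
      ring
    have j3 : Integrable (fun ω => (∫ x, w ω x ∂ρ) ^ 2 - 2 * (∫ x, w ω x ∂ρ)) P := i2.sub (i1.const_mul 2)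
    rw [h, integral_add j3 (integrable_const 1), integral_sub i2 (i1.const_mul 2),
      integral_const_mul, e1, e2]
    simp
    ring
  have g1 : ∫ ω, (∫ x, w ω x ∂ρ) ^ q ∂P - 1 - q * (q - 1) / 2 * ∫ x, ∫ y, cw P w x y ∂ρ ∂ρ =
      ∫ ω, ((∫ x, w ω x ∂ρ) ^ q - 1 - q * ((∫ x, w ω x ∂ρ) - 1) -
        q * (q - 1) / 2 * ((∫ x, w ω x ∂ρ) - 1) ^ 2) ∂P := by
    have l1 : Integrable (fun ω => (∫ x, w ω x ∂ρ) ^ q - 1) P := i0.sub (integrable_const 1)
    have l2 : Integrable (fun ω => (∫ x, w ω x ∂ρ) ^ q - 1 - q * ((∫ x, w ω x ∂ρ) - 1)) P :=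
      l1.sub (j1.const_mul q)
    rw [integral_sub l2 (j2.const_mul _), integral_sub l1 (j1.const_mul q),
      integral_sub i0 (integrable_const 1),
      integral_const_mul, integral_const_mul, f1, f2]
    simp
  rw [g1, ← Real.norm_eq_abs]
  refine (norm_integral_le_lintegral_norm _).trans ?_
  have haint : Integrable a ρ := by
    obtain ⟨B, hB⟩ := hw.ab
    refine Integrable.mono' (integrable_const B) hw.ameas.aestronglyMeasurable
      (Filter.Eventually.of_forall fun x => ?_)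
    rw [Real.norm_of_nonneg (hw.a0 x)]
    exact hB x
  have hmain : ∫⁻ ω, ENNReal.ofReal ‖(∫ x, w ω x ∂ρ) ^ q - 1 - q * ((∫ x, w ω x ∂ρ) - 1) -
        q * (q - 1) / 2 * ((∫ x, w ω x ∂ρ) - 1) ^ 2‖ ∂P ≤ ENNReal.ofReal (K1 * C * ∫ x, a x ∂ρ) := by
    have k1 : ∀ ω, ENNReal.ofReal ‖(∫ x, w ω x ∂ρ) ^ q - 1 - q * ((∫ x, w ω x ∂ρ) - 1) -
        q * (q - 1) / 2 * ((∫ x, w ω x ∂ρ) - 1) ^ 2‖ ≤
        ENNReal.ofReal K1 * ∫⁻ x, ENNReal.ofReal (|w ω x - 1| ^ 3 * (1 + (∫ x, w ω x ∂ρ) ^ (q - 3))) ∂ρ := by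
      intro ω
      obtain ⟨hj1, hj2⟩ := hw.ob_jensen3 ρ ω
      have hV : 0 ≤ 1 + (∫ x, w ω x ∂ρ) ^ (q - 3) := by
        have := Real.rpow_nonneg (hUpos ω).le (q - 3)
        linarith
      have k2 : ∫⁻ x, ENNReal.ofReal (|w ω x - 1| ^ 3 * (1 + (∫ x, w ω x ∂ρ) ^ (q - 3))) ∂ρ =
          ENNReal.ofReal ((∫ x, |w ω x - 1| ^ 3 ∂ρ) * (1 + (∫ x, w ω x ∂ρ) ^ (q - 3))) := by
        rw [← ofReal_integral_eq_lintegral_ofReal (hj1.mul_const _)
          (Filter.Eventually.of_forall fun x => mul_nonneg (pow_nonneg (abs_nonneg _) 3) hV)]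
        rw [integral_mul_const]
      rw [k2, ← ENNReal.ofReal_mul hK1.le]
      refine ENNReal.ofReal_le_ofReal ?_
      rw [Real.norm_eq_abs]
      refine (htay _ (hUpos ω)).trans ?_
      exact mul_le_mul_of_nonneg_left (mul_le_mul_of_nonneg_right hj2 hV) hK1.le
    refine (lintegral_mono k1).trans ?_
    have hmeas : Measurable (Function.uncurry fun (ω : Ω) (x : D) =>
        ENNReal.ofReal (|w ω x - 1| ^ 3 * (1 + (∫ x, w ω x ∂ρ) ^ (q - 3)))) :=
      (((hw.meas.sub_const 1).abs.pow_const 3).mul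
        (((hUm.comp measurable_fst).pow_const (q - 3)).const_add 1)).ennreal_ofReal
    rw [lintegral_const_mul' _ _ ENNReal.ofReal_ne_top, lintegral_lintegral_swap hmeas.aemeasurable]
    have k3 : ∫⁻ x, ∫⁻ ω, ENNReal.ofReal (|w ω x - 1| ^ 3 * (1 + (∫ x, w ω x ∂ρ) ^ (q - 3))) ∂P ∂ρ ≤
        ENNReal.ofReal ((∫ x, a x ∂ρ) * C) := by
      refine (lintegral_mono fun x => hw.ob_holder3 hs ρ q x).trans ?_
      rw [hC, ← integral_mul_const, ofReal_integral_eq_lintegral_ofReal (haint.mul_const C)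
        (Filter.Eventually.of_forall fun x => mul_nonneg (hw.a0 x) hB.le)]
    refine (mul_le_mul_right k3 _).trans ?_
    rw [← ENNReal.ofReal_mul hK1.le]
    refine ENNReal.ofReal_le_ofReal (le_of_eq ?_)
    ring
  refine (ENNReal.toReal_mono ENNReal.ofReal_ne_top hmain).trans ?_
  rw [ENNReal.toReal_ofReal]
  exact mul_nonneg (mul_pos hK1 hB).le (integral_nonneg hw.a0)

end Pool.Agent.MChaos
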