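import Pool.Agent.Lib_MP_a91488.ONEA

/-!
# Piece ONEC: one step estimates of first order
-/

set_option autoImplicit false

open MeasureTheory

namespace Pool.Agent.MChaos

section onec

variable {Ω D : Type} [MeasurableSpace Ω] [MeasurableSpace D] {P : Measure Ω} [IsProbabilityMeasure P] {w : Ω → D → ℝ} {a : D → ℝ} {s : ℝ} {M : ℝ → ℝ}

omit [IsProbabilityMeasure P] in
theorem onec_i2 {f g : Ω → ℝ} (hf : Integrable f P) (hg : Integrable g P) :
    ∫ x, (f x + g x) ∂P = ∫ x, f x ∂P + ∫ x, g x ∂P := integral_add hf hg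

omit [IsProbabilityMeasure P] in
theorem onec_i3 {f g h : Ω → ℝ} (hf : Integrable f P) (hg : Integrable g P) (hh : Integrable h P) :
    ∫ x, (f x + g x + h x) ∂P = ∫ x, f x ∂P + ∫ x, g x ∂P + ∫ x, h x ∂P := by
  rw [onec_i2 (f := fun x => f x + g x) (hf.add hg) hh, onec_i2 hf hg]

theorem onec_c2 {f : Ω → ℝ} (hf : Integrable f P) (c : ℝ) :
    ∫ x, (f x + c) ∂P = ∫ x, f x ∂P + c := by
  rw [onec_i2 hf (integrable_const _)]; simp

theorem onec_c2' {f : Ω → ℝ} (hf : Integrable f P) (c : ℝ) :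
    ∫ x, (c + f x) ∂P = c + ∫ x, f x ∂P := by
  rw [onec_i2 (integrable_const _) hf]; simp

theorem onec_sq {u : ℝ} (hu0 : 0 ≤ u) : u ^ 2 ≤ 1 + u ^ 3 := by
  rcases le_total u 1 with h | h
  · nlinarith [pow_nonneg hu0 3]
  · nlinarith [pow_nonneg hu0 2]

theorem onec_cube {u : ℝ} (hu0 : 0 ≤ u) : u ≤ u ^ 3 + 1 := by
  rcases le_total u 1 with h | h
  · nlinarith [pow_nonneg hu0 3]
  · nlinarith [pow_nonneg hu0 2, mul_nonneg hu0 (sub_nonneg.2 h)]

theorem onec_amgm (u v : ℝ) : u * v ≤ u ^ 2 + v ^ 2 := by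
  nlinarith [sq_nonneg (u - v), sq_nonneg u, sq_nonneg v]

theorem onec_young {A X : ℝ} (hA : 0 ≤ A) (hX : 0 ≤ X) : A * X ≤ A ^ 3 + 1 + X ^ 2 := by
  rcases le_total A X with h | h
  · nlinarith [pow_nonneg hA 3]
  · rcases le_total A 1 with h1 | h1
    · nlinarith [pow_nonneg hA 3, sq_nonneg X]
    · have : A * X ≤ A ^ 3 := by nlinarith [mul_nonneg hA (sub_nonneg.2 h1), sq_nonneg A]
      nlinarith [sq_nonneg X]

theorem onec_young2 {B C E : ℝ} : ((1 + B) * (C * E)) ^ 2 ≤ 8 * (1 + B ^ 4) + C ^ 8 + E ^ 8 := by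
  have h1 : ((1 + B) * (C * E)) ^ 2 ≤ (1 + B) ^ 4 + (C * E) ^ 4 := by
    nlinarith [sq_nonneg ((1 + B) ^ 2 - (C * E) ^ 2), sq_nonneg ((1 + B) ^ 2), sq_nonneg ((C * E) ^ 2)]
  have h2 : (C * E) ^ 4 ≤ C ^ 8 + E ^ 8 := by
    nlinarith [sq_nonneg (C ^ 4 - E ^ 4), sq_nonneg (C ^ 4), sq_nonneg (E ^ 4)]
  have h3 : (1 + B) ^ 2 ≤ 2 * (1 + B ^ 2) := by nlinarith [sq_nonneg (1 - B)]
  have h4 : (1 + B) ^ 4 ≤ 8 * (1 + B ^ 4) := by
    have : (1 + B) ^ 4 = ((1 + B) ^ 2) ^ 2 := by ring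
    rw [this]
    have h5 : ((1 + B) ^ 2) ^ 2 ≤ (2 * (1 + B ^ 2)) ^ 2 := by
      apply pow_le_pow_left₀ (sq_nonneg _) h3
    nlinarith [sq_nonneg (1 - B ^ 2)]
  linarith

theorem Wt.meas_x (hw : Wt P w a s M) (x : D) : Measurable (fun ω => w ω x) :=
  hw.meas.comp (measurable_id.prodMk measurable_const)

theorem Wt.meas_w (hw : Wt P w a s M) (ω : Ω) : Measurable (w ω) :=
  hw.meas.comp (measurable_const.prodMk measurable_id)

theorem Wt.pow_int (hw : Wt P w a s M) (x : D) (n : ℕ) :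
    Integrable (fun ω => w ω x ^ n) P ∧ ∫ ω, w ω x ^ n ∂P ≤ M n := by
  have := hw.mom x (n : ℝ)
  simpa only [Real.rpow_natCast] using this

theorem Wt.int_w (hw : Wt P w a s M) (x : D) : Integrable (fun ω => w ω x) P := by
  have := (hw.pow_int x 1).1
  simpa using this

theorem Wt.int_a (hw : Wt P w a s M) (ρ : Measure D) [IsFiniteMeasure ρ] : Integrable a ρ := by
  obtain ⟨B, hB⟩ := hw.ab
  refine Integrable.of_bound hw.ameas.aestronglyMeasurable B (Filter.Eventually.of_forall fun x => ?_)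
  rw [Real.norm_of_nonneg (hw.a0 x)]
  exact hB x

theorem Wt.int_abs_s (hw : Wt P w a s M) (hs : 0 < s) (x : D) : Integrable (fun ω => |w ω x - 1| ^ s) P := by
  have h1 : Integrable (fun ω => 1 + w ω x ^ s) P := (integrable_const _).add (hw.mom x s).1
  refine h1.mono' ?_ (Filter.Eventually.of_forall fun ω => ?_)
  · exact (((hw.meas_x x).sub_const 1).abs.pow_const s).aestronglyMeasurable
  · have hp := hw.pos ω x
    rw [Real.norm_of_nonneg (by positivity)]
    rcases le_total (w ω x) 1 with h | h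
    · have : |w ω x - 1| ≤ 1 := by rw [abs_le]; constructor <;> linarith
      have := Real.rpow_le_rpow (abs_nonneg _) this hs.le
      rw [Real.one_rpow] at this
      have : 0 ≤ w ω x ^ s := by positivity
      linarith
    · have : |w ω x - 1| ≤ w ω x := by rw [abs_le]; constructor <;> linarith
      have := Real.rpow_le_rpow (abs_nonneg _) this hs.le
      linarith

theorem Wt.int_abs3 (hw : Wt P w a s M) (x : D) : Integrable (fun ω => |w ω x - 1| ^ 3) P := by
  have h1 : Integrable (fun ω => 1 + w ω x ^ 3) P := (integrable_const _).add (hw.pow_int x 3).1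
  refine h1.mono' ?_ (Filter.Eventually.of_forall fun ω => ?_)
  · exact (((hw.meas_x x).sub_const 1).abs.pow_const 3).aestronglyMeasurable
  · have hp := hw.pos ω x
    rw [Real.norm_of_nonneg (by positivity)]
    rcases le_total (w ω x) 1 with h | h
    · have : |w ω x - 1| ≤ 1 := by rw [abs_le]; constructor <;> linarith
      have := pow_le_pow_left₀ (abs_nonneg _) this 3
      have : 0 ≤ w ω x ^ 3 := by positivity
      linarith
    · have : |w ω x - 1| ≤ w ω x := by rw [abs_le]; constructor <;> linarith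
      have := pow_le_pow_left₀ (abs_nonneg _) this 3
      linarith

theorem Wt.abs3 (hw : Wt P w a s M) (hs : 3 < s) (x : D) : ∫ ω, |w ω x - 1| ^ 3 ∂P ≤ a x := by
  refine le_trans ?_ (hw.thr x)
  have hs0 : 0 < s := by linarith
  have hc : ConcaveOn ℝ (Set.Ici (0:ℝ)) (fun t : ℝ => t ^ (3 / s)) :=
    Real.concaveOn_rpow (by positivity) ((div_le_one hs0).2 hs.le)
  have key : ∀ ω, (|w ω x - 1| ^ s) ^ (3 / s) = |w ω x - 1| ^ 3 := by
    intro ω
    rw [← Real.rpow_mul (abs_nonneg _), mul_div_cancel₀ _ hs0.ne']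
    exact Real.rpow_natCast _ 3
  have hgi : Integrable ((fun t : ℝ => t ^ (3 / s)) ∘ fun ω => |w ω x - 1| ^ s) P := by
    refine (hw.int_abs3 x).congr (Filter.Eventually.of_forall fun ω => ?_)
    exact (key ω).symm
  have := hc.le_map_integral (μ := P) (f := fun ω => |w ω x - 1| ^ s)
    (Real.continuous_rpow_const (by positivity)).continuousOn isClosed_Ici
    (Filter.Eventually.of_forall fun ω => Real.rpow_nonneg (abs_nonneg _) _) (hw.int_abs_s hs0 x) hgi
  refine le_trans (le_of_eq ?_) this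
  exact integral_congr_ae (Filter.Eventually.of_forall fun ω => (key ω).symm)

theorem Wt.U_abs3 (hw : Wt P w a s M) (hs : 3 < s) (ρ : Measure D) [IsProbabilityMeasure ρ] :
    Integrable (fun ω => |∫ x, w ω x ∂ρ - 1| ^ 3) P ∧ ∫ ω, |∫ x, w ω x ∂ρ - 1| ^ 3 ∂P ≤ ∫ x, a x ∂ρ := by
  have hmeas : Measurable (Function.uncurry fun (ω : Ω) (x : D) => |w ω x - 1| ^ 3) :=
    ((hw.meas.sub_const 1).abs.pow_const 3)
  have hprod : Integrable (Function.uncurry fun (ω : Ω) (x : D) => |w ω x - 1| ^ 3) (P.prod ρ) := by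
    rw [integrable_prod_iff' hmeas.aestronglyMeasurable]
    refine ⟨Filter.Eventually.of_forall fun x => hw.int_abs3 x, ?_⟩
    refine (hw.int_a ρ).mono' ?_ (Filter.Eventually.of_forall fun x => ?_)
    · exact (hmeas.norm.stronglyMeasurable.integral_prod_left').aestronglyMeasurable
    · rw [Real.norm_of_nonneg (integral_nonneg fun _ => norm_nonneg _)]
      refine le_trans (le_of_eq ?_) (hw.abs3 hs x)
      exact integral_congr_ae (Filter.Eventually.of_forall fun ω => Real.norm_of_nonneg (by simp only [Function.uncurry]; positivity))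
  have hJ : ∀ ω, |∫ x, w ω x ∂ρ - 1| ^ 3 ≤ ∫ x, |w ω x - 1| ^ 3 ∂ρ := by
    intro ω
    have hi := hw.int_D ρ ω
    obtain ⟨B, hB⟩ := hw.bdd ω
    have h1 : |∫ x, w ω x ∂ρ - 1| ≤ ∫ x, |w ω x - 1| ∂ρ := by
      have : ∫ x, w ω x ∂ρ - 1 = ∫ x, (w ω x - 1) ∂ρ := by
        rw [integral_sub hi (integrable_const _)]; simp
      rw [this]
      exact abs_integral_le_integral_abs
    have hi1 : Integrable (fun x => |w ω x - 1|) ρ := (hi.sub (integrable_const _)).abs
    have hi3 : Integrable (fun x => |w ω x - 1| ^ 3) ρ := by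
      refine Integrable.of_bound (((hw.meas_w ω).sub_const 1).abs.pow_const 3).aestronglyMeasurable ((B + 1) ^ 3)
        (Filter.Eventually.of_forall fun x => ?_)
      rw [Real.norm_of_nonneg (by positivity)]
      have hp := hw.pos ω x
      have hb := hB x
      apply pow_le_pow_left₀ (abs_nonneg _)
      rw [abs_le]; constructor <;> linarith
    have hc : ConvexOn ℝ (Set.Ici (0:ℝ)) (fun t : ℝ => t ^ 3) := convexOn_pow 3
    have := hc.map_integral_le (μ := ρ) (f := fun x => |w ω x - 1|) (continuous_pow 3).continuousOn isClosed_Ici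
      (Filter.Eventually.of_forall fun x => Set.mem_Ici.2 (abs_nonneg _)) hi1 hi3
    exact le_trans (pow_le_pow_left₀ (abs_nonneg _) h1 3) this
  have hint : Integrable (fun ω => ∫ x, |w ω x - 1| ^ 3 ∂ρ) P := hprod.integral_prod_left
  have hi : Integrable (fun ω => |∫ x, w ω x ∂ρ - 1| ^ 3) P := by
    refine hint.mono' (((hw.U_meas ρ).sub_const 1).abs.pow_const 3).aestronglyMeasurable (Filter.Eventually.of_forall fun ω => ?_)
    rw [Real.norm_of_nonneg (by positivity)]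
    exact hJ ω
  refine ⟨hi, ?_⟩
  calc ∫ ω, |∫ x, w ω x ∂ρ - 1| ^ 3 ∂P ≤ ∫ ω, ∫ x, |w ω x - 1| ^ 3 ∂ρ ∂P := integral_mono hi hint hJ
    _ = ∫ x, ∫ ω, |w ω x - 1| ^ 3 ∂P ∂ρ := integral_integral_swap hprod
    _ ≤ ∫ x, a x ∂ρ := by
        refine integral_mono hprod.integral_prod_right (hw.int_a ρ) fun x => hw.abs3 hs x

end onec

/-- `|cw x y| = |E (w x - 1) (w y - 1)| ≤ ‖w x - 1‖_2 ‖w y - 1‖_2 ≤ (a x) ^ (1/3) (a y) ^ (1/3)` (norms increase with the exponent), and
`|E (U ^ (q-2) w x w y - 1)| ≤ K (‖U - 1‖_3 + ‖w x - 1‖_3 + ‖w y - 1‖_3)` (`tay1`, Hölder with exponents `3, 3/2`, moments bounded by `Wt.U_mom`, `mom`), `‖U - 1‖_3 ^ 3 ≤ ∫ E |w - 1| ^ 3 dρ ≤ ∫ a dρ` (Jensen), `‖w x - 1‖_3 ≤ (a x) ^ (1/3)`.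
AM-GM: `α^(1/3) β^(1/3) γ^(1/3) ≤ α + β + γ`, integrate over `x, y`. -/
theorem one_cov (q s : ℝ) (hs : 3 < s) (M : ℝ → ℝ) : ∃ K : ℝ, 0 < K ∧
    ∀ (Ω D : Type) [MeasurableSpace Ω] [MeasurableSpace D] (P : Measure Ω) [IsProbabilityMeasure P] (w : Ω → D → ℝ) (a : D → ℝ) (_ : Wt P w a s M)
      (ρ : Measure D) [IsProbabilityMeasure ρ],
      |∫ x, ∫ y, cw P w x y * (∫ ω, (∫ z, w ω z ∂ρ) ^ (q - 2) * (w ω x * w ω y) ∂P - 1) ∂ρ ∂ρ| ≤ K * ∫ x, a x ∂ρ := by
  obtain ⟨K1, hK1, ht⟩ := tay1 (q - 2)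
  set L : ℝ := K1 * (1 + 1 + 8 * (1 + |M (4 * q - 12)| + 2) + 2 * |M (8:ℕ)|) + (2 + |M (2:ℕ)|) + 2 with hL
  have hL0 : 0 < L := by positivity
  refine ⟨6 * L, by positivity, ?_⟩
  intro Ω D _ _ P _ w a hw ρ _
  set A : ℝ := ∫ x, a x ∂ρ with hA
  have hA0 : 0 ≤ A := integral_nonneg hw.a0
  set U : Ω → ℝ := fun ω => ∫ z, w ω z ∂ρ with hU
  -- the pointwise estimate
  have key : ∀ x y, |cw P w x y * (∫ ω, U ω ^ (q - 2) * (w ω x * w ω y) ∂P - 1)| ≤ 2 * L * (a x + a y + A) := by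
    intro x y
    have hax := hw.a0 x
    have hay := hw.a0 y
    refine le_of_forall_pos_le_add fun η hη => ?_
    obtain ⟨ε, hε, hε3⟩ : ∃ ε : ℝ, 0 < ε ∧ ε ^ 3 = a x + a y + A + η / (2 * L) := by
      refine ⟨(a x + a y + A + η / (2 * L)) ^ ((3:ℝ)⁻¹), by positivity, ?_⟩
      rw [← Real.rpow_natCast, ← Real.rpow_mul (by positivity)]
      norm_num
    have hε30 : 0 < ε ^ 3 := by positivity
    have ax3 : a x / ε ^ 3 ≤ 1 := by rw [div_le_one hε30, hε3]; have : 0 < η / (2 * L) := by positivity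
                                     linarith
    have ay3 : a y / ε ^ 3 ≤ 1 := by rw [div_le_one hε30, hε3]; have : 0 < η / (2 * L) := by positivity
                                     linarith
    have A3 : A / ε ^ 3 ≤ 1 := by rw [div_le_one hε30, hε3]; have : 0 < η / (2 * L) := by positivity
                                  linarith
    -- covariance
    have hcov : |cw P w x y| ≤ 2 * ε ^ 2 := by
      have e1 : cw P w x y = ∫ ω, (w ω x - 1) * (w ω y - 1) ∂P := by
        have i1 : Integrable (fun ω => w ω x * w ω y) P := by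
          have h2 : Integrable (fun ω => w ω x ^ 2 + w ω y ^ 2) P := (hw.pow_int x 2).1.add (hw.pow_int y 2).1
          refine h2.mono' ((hw.meas_x x).mul (hw.meas_x y)).aestronglyMeasurable (Filter.Eventually.of_forall fun ω => ?_)
          have p1 := hw.pos ω x
          have p2 := hw.pos ω y
          rw [Real.norm_of_nonneg (by positivity)]
          exact onec_amgm _ _
        have : ∀ ω, (w ω x - 1) * (w ω y - 1) = w ω x * w ω y - w ω x - w ω y + 1 := fun ω => by ring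
        simp only [this]
        have j1 : Integrable (fun ω => w ω x * w ω y - w ω x) P := i1.sub (hw.int_w x)
        have j2 : Integrable (fun ω => w ω x * w ω y - w ω x - w ω y) P := j1.sub (hw.int_w y)
        rw [onec_c2 j2, integral_sub j1 (hw.int_w y), integral_sub i1 (hw.int_w x), hw.mean, hw.mean, cw]
        ring
      rw [e1, ← Real.norm_eq_abs]
      set G : Ω → ℝ := fun ω => ε ^ 2 * (1 + (|w ω x - 1| ^ 3 / ε ^ 3 + |w ω y - 1| ^ 3 / ε ^ 3) / 2) with hG
      have iG : Integrable G P := by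
        refine Integrable.const_mul ((integrable_const _).add (Integrable.div_const ?_ _)) _
        exact ((hw.int_abs3 x).div_const _).add ((hw.int_abs3 y).div_const _)
      refine le_trans (norm_integral_le_of_norm_le iG (Filter.Eventually.of_forall fun ω => ?_)) ?_
      · simp only [hG, norm_mul, Real.norm_eq_abs]
        set u := |w ω x - 1| / ε with hu
        set v := |w ω y - 1| / ε with hv
        have hu0 : 0 ≤ u := by positivity
        have hv0 : 0 ≤ v := by positivity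
        have e2 : |w ω x - 1| = ε * u := by rw [hu]; field_simp
        have e3 : |w ω y - 1| = ε * v := by rw [hv]; field_simp
        have e4 : |w ω x - 1| ^ 3 / ε ^ 3 = u ^ 3 := by rw [hu, div_pow]
        have e5 : |w ω y - 1| ^ 3 / ε ^ 3 = v ^ 3 := by rw [hv, div_pow]
        rw [e4, e5, e2, e3]
        have h1 : u ^ 2 ≤ 1 + u ^ 3 := onec_sq hu0
        have h2 : v ^ 2 ≤ 1 + v ^ 3 := onec_sq hv0
        have h3 : u * v ≤ 1 + (u ^ 3 + v ^ 3) / 2 := by
          nlinarith only [sq_nonneg (u - v), h1, h2]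
        calc ε * u * (ε * v) = ε ^ 2 * (u * v) := by ring
          _ ≤ ε ^ 2 * (1 + (u ^ 3 + v ^ 3) / 2) := by gcongr
      · have : ∫ ω, G ω ∂P = ε ^ 2 * (1 + ((∫ ω, |w ω x - 1| ^ 3 ∂P) / ε ^ 3 + (∫ ω, |w ω y - 1| ^ 3 ∂P) / ε ^ 3) / 2) := by
          have j1 : Integrable (fun ω => |w ω x - 1| ^ 3 / ε ^ 3) P := (hw.int_abs3 x).div_const _
          have j2 : Integrable (fun ω => |w ω y - 1| ^ 3 / ε ^ 3) P := (hw.int_abs3 y).div_const _
          have j3 : Integrable (fun ω => (|w ω x - 1| ^ 3 / ε ^ 3 + |w ω y - 1| ^ 3 / ε ^ 3) / 2) P := (j1.add j2).div_const _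
          rw [hG, integral_const_mul, onec_c2' j3, integral_div, onec_i2 j1 j2, integral_div, integral_div]
        rw [this]
        have h1 : (∫ ω, |w ω x - 1| ^ 3 ∂P) / ε ^ 3 ≤ 1 := le_trans (div_le_div_of_nonneg_right (hw.abs3 hs x) hε30.le) ax3
        have h2 : (∫ ω, |w ω y - 1| ^ 3 ∂P) / ε ^ 3 ≤ 1 := le_trans (div_le_div_of_nonneg_right (hw.abs3 hs y) hε30.le) ay3
        nlinarith only [h1, h2, pow_pos hε 2]
    have hV : |∫ ω, U ω ^ (q - 2) * (w ω x * w ω y) ∂P - 1| ≤ L * ε := by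
      have iV := (hw.U_prod ρ (q - 2) x y).1
      have e1 : ∫ ω, U ω ^ (q - 2) * (w ω x * w ω y) ∂P - 1 = ∫ ω, (U ω ^ (q - 2) * (w ω x * w ω y) - 1) ∂P := by
        rw [integral_sub iV (integrable_const _)]; simp [hU]
      rw [e1, ← Real.norm_eq_abs]
      obtain ⟨iU3, bU3⟩ := hw.U_abs3 hs ρ
      obtain ⟨iU4, bU4⟩ := hw.U_mom ρ (4 * q - 12)
      obtain ⟨i8x, b8x⟩ := hw.pow_int x 8
      obtain ⟨i8y, b8y⟩ := hw.pow_int y 8
      obtain ⟨i2y, b2y⟩ := hw.pow_int y 2
      have j1 : Integrable (fun ω => |U ω - 1| ^ 3 / ε ^ 3) P := iU3.div_const _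
      have j2 : Integrable (fun ω => |w ω x - 1| ^ 3 / ε ^ 3) P := (hw.int_abs3 x).div_const _
      have j3 : Integrable (fun ω => |w ω y - 1| ^ 3 / ε ^ 3) P := (hw.int_abs3 y).div_const _
      have j4 : Integrable (fun ω => 8 * (1 + U ω ^ (4 * q - 12))) P := ((integrable_const _).add iU4).const_mul _
      set G1 : Ω → ℝ := fun ω => K1 * ε * (|U ω - 1| ^ 3 / ε ^ 3 + 1 + (8 * (1 + U ω ^ (4 * q - 12)) + w ω x ^ 8 + w ω y ^ 8)) with hG1
      set G2 : Ω → ℝ := fun ω => ε * (|w ω x - 1| ^ 3 / ε ^ 3 + 1 + w ω y ^ 2) with hG2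
      set G3 : Ω → ℝ := fun ω => ε * (|w ω y - 1| ^ 3 / ε ^ 3 + 1) with hG3
      have iG1 : Integrable G1 P := ((j1.add (integrable_const _)).add ((j4.add i8x).add i8y)).const_mul _
      have iG2 : Integrable G2 P := ((j2.add (integrable_const _)).add i2y).const_mul _
      have iG3 : Integrable G3 P := (j3.add (integrable_const _)).const_mul _
      have iG : Integrable (fun ω => G1 ω + G2 ω + G3 ω) P := (iG1.add iG2).add iG3
      refine le_trans (norm_integral_le_of_norm_le iG (Filter.Eventually.of_forall fun ω => ?_)) ?_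
      · have hUp : 0 < U ω := hw.U_pos ρ ω
        have px := hw.pos ω x
        have py := hw.pos ω y
        have t1 := ht (U ω) hUp
        have e2 : U ω ^ (q - 2) * (w ω x * w ω y) - 1 =
            (U ω ^ (q - 2) - 1) * (w ω x * w ω y) + (w ω x - 1) * w ω y + (w ω y - 1) := by ring
        rw [e2, Real.norm_eq_abs]
        refine le_trans (abs_add_three _ _ _) ?_
        have g1 : |(U ω ^ (q - 2) - 1) * (w ω x * w ω y)| ≤ G1 ω := by
          rw [abs_mul, abs_of_pos (mul_pos px py)]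
          have e3 : (q - 2 - 1) = q - 3 := by ring
          rw [e3] at t1
          have y1 := onec_young (A := |U ω - 1| / ε) (X := (1 + U ω ^ (q - 3)) * (w ω x * w ω y)) (by positivity) (by positivity)
          have y2 := onec_young2 (B := U ω ^ (q - 3)) (C := w ω x) (E := w ω y)
          have e4 : (U ω ^ (q - 3)) ^ 4 = U ω ^ (4 * q - 12) := by
            rw [← Real.rpow_natCast, ← Real.rpow_mul hUp.le]
            congr 1; push_cast; ring
          rw [e4] at y2
          rw [div_pow] at y1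
          calc |U ω ^ (q - 2) - 1| * (w ω x * w ω y) ≤ K1 * (|U ω - 1| * (1 + U ω ^ (q - 3))) * (w ω x * w ω y) := by
                gcongr
            _ = K1 * ε * (|U ω - 1| / ε * ((1 + U ω ^ (q - 3)) * (w ω x * w ω y))) := by field_simp
            _ ≤ K1 * ε * (|U ω - 1| ^ 3 / ε ^ 3 + 1 + (8 * (1 + U ω ^ (4 * q - 12)) + w ω x ^ 8 + w ω y ^ 8)) := by
                apply mul_le_mul_of_nonneg_left _ (by positivity)
                linarith only [y1, y2]
        have g2 : |(w ω x - 1) * w ω y| ≤ G2 ω := by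
          rw [abs_mul, abs_of_pos py]
          have y1 := onec_young (A := |w ω x - 1| / ε) (X := w ω y) (by positivity) py.le
          rw [div_pow] at y1
          calc |w ω x - 1| * w ω y = ε * (|w ω x - 1| / ε * w ω y) := by field_simp
            _ ≤ _ := by apply mul_le_mul_of_nonneg_left y1 hε.le
        have g3 : |w ω y - 1| ≤ G3 ω := by
          have hv0 : 0 ≤ |w ω y - 1| / ε := by positivity
          have y1 : |w ω y - 1| / ε ≤ (|w ω y - 1| / ε) ^ 3 + 1 := onec_cube hv0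
          rw [div_pow] at y1
          calc |w ω y - 1| = ε * (|w ω y - 1| / ε) := by field_simp
            _ ≤ _ := by apply mul_le_mul_of_nonneg_left y1 hε.le
        linarith only [g1, g2, g3]
      · have s1 : ∫ ω, G1 ω ∂P ≤ K1 * ε * (1 + 1 + (8 * (1 + |M (4 * q - 12)| + 2) + |M (8:ℕ)| + |M (8:ℕ)|)) := by
          rw [hG1, integral_const_mul]
          apply mul_le_mul_of_nonneg_left _ (by positivity)
          rw [onec_i2 (f := fun ω => |U ω - 1| ^ 3 / ε ^ 3 + 1) (g := fun ω => 8 * (1 + U ω ^ (4 * q - 12)) + w ω x ^ 8 + w ω y ^ 8)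
              (j1.add (integrable_const _)) ((j4.add i8x).add i8y), onec_c2 j1,
            onec_i3 j4 i8x i8y, integral_const_mul, onec_c2' (f := fun ω => U ω ^ (4 * q - 12)) iU4, integral_div]
          have h1 : (∫ ω, |U ω - 1| ^ 3 ∂P) / ε ^ 3 ≤ 1 := le_trans (div_le_div_of_nonneg_right bU3 hε30.le) A3
          have h2 := le_abs_self (M (4 * q - 12))
          have h3 := le_abs_self (M (8:ℕ))
          have h4 : ∫ ω, U ω ^ (4 * q - 12) ∂P ≤ M (4 * q - 12) + 2 := bU4
          refine add_le_add (add_le_add h1 le_rfl) (add_le_add (add_le_add ?_ (b8x.trans h3)) (b8y.trans h3))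
          linarith
        have s2 : ∫ ω, G2 ω ∂P ≤ ε * (1 + 1 + |M (2:ℕ)|) := by
          rw [hG2, integral_const_mul]
          apply mul_le_mul_of_nonneg_left _ hε.le
          rw [onec_i2 (f := fun ω => |w ω x - 1| ^ 3 / ε ^ 3 + 1) (j2.add (integrable_const _)) i2y, onec_c2 j2, integral_div]
          have h1 : (∫ ω, |w ω x - 1| ^ 3 ∂P) / ε ^ 3 ≤ 1 := le_trans (div_le_div_of_nonneg_right (hw.abs3 hs x) hε30.le) ax3
          exact add_le_add (add_le_add h1 le_rfl) (b2y.trans (le_abs_self _))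
        have s3 : ∫ ω, G3 ω ∂P ≤ ε * (1 + 1) := by
          rw [hG3, integral_const_mul]
          apply mul_le_mul_of_nonneg_left _ hε.le
          rw [onec_c2 j3, integral_div]
          have h1 : (∫ ω, |w ω y - 1| ^ 3 ∂P) / ε ^ 3 ≤ 1 := le_trans (div_le_div_of_nonneg_right (hw.abs3 hs y) hε30.le) ay3
          linarith
        rw [onec_i3 iG1 iG2 iG3, hL]
        nlinarith only [s1, s2, s3]
    rw [abs_mul]
    calc |cw P w x y| * |∫ ω, U ω ^ (q - 2) * (w ω x * w ω y) ∂P - 1| ≤ (2 * ε ^ 2) * (L * ε) := by gcongr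
      _ = 2 * L * ε ^ 3 := by ring
      _ = 2 * L * (a x + a y + A) + η := by rw [hε3]; field_simp
  have ia := hw.int_a ρ
  rw [← Real.norm_eq_abs]
  have inner : ∀ x, ‖∫ y, cw P w x y * (∫ ω, U ω ^ (q - 2) * (w ω x * w ω y) ∂P - 1) ∂ρ‖ ≤ 2 * L * (a x + A + A) := by
    intro x
    have ig : Integrable (fun y => 2 * L * (a x + a y + A)) ρ := (((integrable_const _).add ia).add (integrable_const _)).const_mul _
    refine le_trans (norm_integral_le_of_norm_le ig (Filter.Eventually.of_forall fun y => key x y)) (le_of_eq ?_)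
    have j1 : Integrable (fun y => a x + a y) ρ := (integrable_const _).add ia
    rw [integral_const_mul, onec_c2 j1, onec_c2' ia]
  have ig : Integrable (fun x => 2 * L * (a x + A + A)) ρ := ((ia.add (integrable_const _)).add (integrable_const _)).const_mul _
  refine le_trans (norm_integral_le_of_norm_le ig (Filter.Eventually.of_forall inner)) (le_of_eq ?_)
  have j1 : Integrable (fun x => a x + A) ρ := ia.add (integrable_const _)
  rw [integral_const_mul, onec_c2 j1, onec_c2 ia, ← hA]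
  ring

/-- Cauchy-Schwarz twice: `1 = (E w x)^2 ≤ E[U ^ (q-1) w x] E[U ^ (1-q) w x]` and `E[U ^ (1-q) w x] ≤ (E U ^ (2-2q)) ^ (1/2) (E w^2) ^ (1/2)` -/
theorem one_low (q s : ℝ) (M : ℝ → ℝ) : ∃ κ : ℝ, 0 < κ ∧
    ∀ (Ω D : Type) [MeasurableSpace Ω] [MeasurableSpace D] (P : Measure Ω) [IsProbabilityMeasure P] (w : Ω → D → ℝ) (a : D → ℝ) (_ : Wt P w a s M)
      (ρ : Measure D) [IsProbabilityMeasure ρ] (x : D), κ ≤ ∫ ω, (∫ z, w ω z ∂ρ) ^ (q - 1) * w ω x ∂P := by
  set B : ℝ := 1 + |M (2 - 2 * q)| + 2 + |M (2:ℕ)| with hB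
  have hB0 : 0 < B := by positivity
  refine ⟨B⁻¹, by positivity, ?_⟩
  intro Ω D _ _ P _ w a hw ρ _ x
  set U : Ω → ℝ := fun ω => ∫ z, w ω z ∂ρ with hU
  have hUp : ∀ ω, 0 < U ω := hw.U_pos ρ
  have i1 : Integrable (fun ω => U ω ^ (q - 1) * w ω x) P := (hw.U_prod ρ (q - 1) x x).2
  have i2 : Integrable (fun ω => U ω ^ (1 - q) * w ω x) P := (hw.U_prod ρ (1 - q) x x).2
  obtain ⟨i3, b3⟩ := hw.U_mom ρ (2 - 2 * q)
  obtain ⟨i4, b4⟩ := hw.pow_int x 2
  have hb : ∫ ω, U ω ^ (1 - q) * w ω x ∂P ≤ B := by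
    calc ∫ ω, U ω ^ (1 - q) * w ω x ∂P ≤ ∫ ω, (U ω ^ (2 - 2 * q) + w ω x ^ 2) ∂P := by
          refine integral_mono i2 (i3.add i4) fun ω => ?_
          have e1 : U ω ^ (2 - 2 * q) = (U ω ^ (1 - q)) ^ 2 := by
            rw [← Real.rpow_natCast, ← Real.rpow_mul (hUp ω).le]
            congr 1; push_cast; ring
          simp only [e1]
          exact onec_amgm _ _
      _ = ∫ ω, U ω ^ (2 - 2 * q) ∂P + ∫ ω, w ω x ^ 2 ∂P := integral_add i3 i4
      _ ≤ B := by
          have h1 := le_abs_self (M (2 - 2 * q))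
          have h2 := le_abs_self (M (2:ℕ))
          have h4 : ∫ ω, U ω ^ (2 - 2 * q) ∂P ≤ M (2 - 2 * q) + 2 := b3
          rw [hB]
          linarith
  have hmain : (1:ℝ) ≤ (B * ∫ ω, U ω ^ (q - 1) * w ω x ∂P + B⁻¹ * ∫ ω, U ω ^ (1 - q) * w ω x ∂P) / 2 := by
    have e0 : (1:ℝ) = ∫ ω, w ω x ∂P := (hw.mean x).symm
    rw [← integral_const_mul, ← integral_const_mul, ← integral_add (i1.const_mul _) (i2.const_mul _), ← integral_div]
    refine e0.le.trans ?_
    refine integral_mono (hw.int_w x) (((i1.const_mul _).add (i2.const_mul _)).div_const _) fun ω => ?_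
    have px := hw.pos ω x
    set u := U ω ^ (q - 1) with hu
    have hu0 : 0 < u := Real.rpow_pos_of_pos (hUp ω) _
    have e1 : U ω ^ (1 - q) = u⁻¹ := by
      rw [hu, ← Real.rpow_neg (hUp ω).le]; congr 1; ring
    simp only [e1]
    have h1 : 2 ≤ B * u + B⁻¹ * u⁻¹ := by
      have h2 : B⁻¹ * u⁻¹ = (B * u)⁻¹ := by rw [mul_inv]
      rw [h2]
      have h3 : 0 < B * u := by positivity
      have h4 : 2 * (B * u) ≤ (B * u) ^ 2 + 1 := by
        nlinarith only [sq_nonneg (B * u - 1)]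
      have h5 : B * u + (B * u)⁻¹ = ((B * u) ^ 2 + 1) / (B * u) := by field_simp
      rw [h5, le_div_iff₀ h3]
      exact h4
    have : (B * (u * w ω x) + B⁻¹ * (u⁻¹ * w ω x)) / 2 = (B * u + B⁻¹ * u⁻¹) / 2 * w ω x := by ring
    rw [this]
    nlinarith only [h1, px]
  have h3 : B⁻¹ * ∫ ω, U ω ^ (1 - q) * w ω x ∂P ≤ 1 := by
    rw [inv_mul_le_iff₀ hB0]; linarith
  have h4 : 1 ≤ B * ∫ ω, U ω ^ (q - 1) * w ω x ∂P := by linarith
  rw [inv_eq_one_div, div_le_iff₀ hB0]
  linarith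

end Pool.Agent.MChaos
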