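import Mathlib

/-!
# Piece UPD: resampling one coordinate of a product measure
-/

set_option autoImplicit false

open MeasureTheory

namespace Pool.Agent.MChaos

variable {ι : Type} [Fintype ι] [DecidableEq ι] {Ω : ι → Type} [∀ k, MeasurableSpace (Ω k)] (P : ∀ k, Measure (Ω k)) [∀ k, IsProbabilityMeasure (P k)]

/-- `Measure.pi_eq` on measurable rectangles: the preimage of `univ.pi A` under the map is `(univ.pi (update A k univ)) ×ˢ A k` -/
theorem mp_update (k : ι) : MeasurePreserving (fun p : (∀ j, Ω j) × Ω k => Function.update p.1 k p.2) ((Measure.pi P).prod (P k)) (Measure.pi P) := by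
  have hm : Measurable (fun p : (∀ j, Ω j) × Ω k => Function.update p.1 k p.2) := by
    rw [measurable_pi_iff]
    intro j
    by_cases h : j = k
    · subst h
      simpa using measurable_snd
    · simp only [Function.update_of_ne h]
      exact (measurable_pi_apply j).comp measurable_fst
  refine ⟨hm, ?_⟩
  symm
  refine Measure.pi_eq (fun s hs => ?_)
  rw [Measure.map_apply hm (MeasurableSet.univ_pi hs)]
  have hpre : (fun p : (∀ j, Ω j) × Ω k => Function.update p.1 k p.2) ⁻¹' (Set.univ.pi s) = (Set.univ.pi (Function.update s k Set.univ)) ×ˢ (s k) := by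
    ext p
    simp only [Set.mem_preimage, Set.mem_pi, Set.mem_univ, forall_true_left, Set.mem_prod]
    constructor
    · intro h
      refine ⟨fun j => ?_, ?_⟩
      · by_cases hj : j = k
        · subst hj
          simp
        · have := h j
          rw [Function.update_of_ne hj] at this
          rw [Function.update_of_ne hj]
          exact this
      · have := h k
        rwa [Function.update_self] at this
    · rintro ⟨h1, h2⟩ j
      by_cases hj : j = k
      · subst hj
        rw [Function.update_self]
        exact h2
      · have := h1 j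
        rw [Function.update_of_ne hj] at this
        rw [Function.update_of_ne hj]
        exact this
  rw [hpre, Measure.prod_prod, Measure.pi_pi]
  rw [← Finset.mul_prod_erase Finset.univ _ (Finset.mem_univ k), ← Finset.mul_prod_erase Finset.univ (fun j => P j (s j)) (Finset.mem_univ k)]
  rw [Function.update_self, measure_univ, one_mul, mul_comm]
  congr 1
  refine Finset.prod_congr rfl (fun j hj => ?_)
  rw [Function.update_of_ne (Finset.ne_of_mem_erase hj)]

theorem integral_update (k : ι) (F : (∀ j, Ω j) → ℝ) (hF : Integrable F (Measure.pi P)) :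
    ∫ ω, F ω ∂(Measure.pi P) = ∫ ω, ∫ a, F (Function.update ω k a) ∂(P k) ∂(Measure.pi P) := by
  have hmp := mp_update P k
  have h1 : Integrable (fun p : (∀ j, Ω j) × Ω k => F (Function.update p.1 k p.2)) ((Measure.pi P).prod (P k)) :=
    hmp.integrable_comp_of_integrable hF
  rw [← integral_prod _ h1]
  have h2 := integral_map (μ := (Measure.pi P).prod (P k)) (f := F) hmp.measurable.aemeasurable (by rw [hmp.map_eq]; exact hF.aestronglyMeasurable)
  rw [hmp.map_eq] at h2
  exact h2

theorem integrable_update (k : ι) (F : (∀ j, Ω j) → ℝ) (hF : Integrable F (Measure.pi P)) :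
    Integrable (fun ω => ∫ a, F (Function.update ω k a) ∂(P k)) (Measure.pi P) ∧
      ∀ᵐ ω ∂(Measure.pi P), Integrable (fun a => F (Function.update ω k a)) (P k) := by
  have hmp := mp_update P k
  have h1 : Integrable (fun p : (∀ j, Ω j) × Ω k => F (Function.update p.1 k p.2)) ((Measure.pi P).prod (P k)) :=
    hmp.integrable_comp_of_integrable hF
  exact ⟨h1.integral_prod_left, h1.prod_right_ae⟩

end Pool.Agent.MChaos
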