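import Pool.Agent.Lib_MP_a91488.INTA
import Pool.Agent.Lib_MP_a91488.ONEB
import Pool.Agent.Lib_MP_a91488.ONEC
import Pool.Agent.Lib_MP_a91488.UPD

/-!
# Piece DIF: the effect of one weight
-/

set_option autoImplicit false

open MeasureTheory

namespace Pool.Agent.MChaos

namespace DifAux

section one

variable {Ω D : Type} [MeasurableSpace Ω] [MeasurableSpace D] {P : Measure Ω}
  [IsProbabilityMeasure P] {w : Ω → D → ℝ} {a : D → ℝ} {s : ℝ} {M : ℝ → ℝ}

theorem wmeas (hw : Wt P w a s M) (ω : Ω) : Measurable (w ω) :=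
  hw.meas.comp (measurable_const.prodMk measurable_id)

theorem int_ww (hw : Wt P w a s M) (ρ : Measure D) [IsProbabilityMeasure ρ] (c : D → D → ℝ)
    (hc : Measurable (Function.uncurry c)) (hB : ∃ B : ℝ, ∀ x y, |c x y| ≤ B) (ω : Ω) :
    Integrable (fun z : D × D => c z.1 z.2 * (w ω z.1 * w ω z.2)) (ρ.prod ρ) := by
  obtain ⟨B, hB⟩ := hB
  obtain ⟨Bw, hBw⟩ := hw.bdd ω
  have h1 := wmeas hw ω
  refine Integrable.of_bound (C := B * (Bw * Bw))
    ((hc.mul ((h1.comp measurable_fst).mul (h1.comp measurable_snd))).aestronglyMeasurable) ?_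
  refine Filter.Eventually.of_forall fun z => ?_
  rw [Real.norm_eq_abs, abs_mul, abs_mul, abs_of_pos (hw.pos ω z.1), abs_of_pos (hw.pos ω z.2)]
  have h2 := (hw.pos ω z.1).le
  have h3 := (hw.pos ω z.2).le
  have h4 := hBw z.1
  have h5 := hBw z.2
  have h6 : w ω z.1 * w ω z.2 ≤ Bw * Bw := mul_le_mul h4 h5 h3 (h2.trans h4)
  exact mul_le_mul (hB z.1 z.2) h6 (mul_nonneg h2 h3) ((abs_nonneg _).trans (hB z.1 z.2))

theorem int3 (hw : Wt P w a s M) (ρ : Measure D) [IsProbabilityMeasure ρ] (p : ℝ) (c : D → D → ℝ)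
    (hc : Measurable (Function.uncurry c)) (hB : ∃ B : ℝ, ∀ x y, |c x y| ≤ B) :
    Integrable (fun z : Ω × (D × D) => (∫ x, w z.1 x ∂ρ) ^ p *
      (c z.2.1 z.2.2 * (w z.1 z.2.1 * w z.1 z.2.2))) (P.prod (ρ.prod ρ)) := by
  have hm1 : Measurable (fun z : Ω × (D × D) => w z.1 z.2.1) :=
    hw.meas.comp (measurable_fst.prodMk (measurable_fst.comp measurable_snd))
  have hm2 : Measurable (fun z : Ω × (D × D) => w z.1 z.2.2) :=
    hw.meas.comp (measurable_fst.prodMk (measurable_snd.comp measurable_snd))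
  have hm3 : Measurable (fun z : Ω × (D × D) => c z.2.1 z.2.2) := hc.comp measurable_snd
  have hmeas : Measurable (fun z : Ω × (D × D) => (∫ x, w z.1 x ∂ρ) ^ p *
      (c z.2.1 z.2.2 * (w z.1 z.2.1 * w z.1 z.2.2))) :=
    (((hw.U_meas ρ).comp measurable_fst).pow_const p).mul (hm3.mul (hm1.mul hm2))
  rw [integrable_prod_iff hmeas.aestronglyMeasurable]
  refine ⟨Filter.Eventually.of_forall fun ω =>
    (int_ww hw ρ c hc hB ω).const_mul ((∫ x, w ω x ∂ρ) ^ p), ?_⟩
  obtain ⟨B, hB'⟩ := hB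
  refine Integrable.mono' (((hw.U_mom ρ (p + 2)).1).const_mul B)
    hmeas.norm.stronglyMeasurable.integral_prod_right'.aestronglyMeasurable ?_
  refine Filter.Eventually.of_forall fun ω => ?_
  have hU := hw.U_pos ρ ω
  rw [Real.norm_eq_abs, abs_of_nonneg (integral_nonneg fun _ => norm_nonneg _)]
  have h1 : ∀ z : D × D, ‖(∫ x, w ω x ∂ρ) ^ p * (c z.1 z.2 * (w ω z.1 * w ω z.2))‖ ≤
      (∫ x, w ω x ∂ρ) ^ p * (B * (w ω z.1 * w ω z.2)) := by
    intro z
    have h2 := (hw.pos ω z.1).le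
    have h3 := (hw.pos ω z.2).le
    rw [norm_mul, norm_mul, Real.norm_eq_abs, Real.norm_eq_abs, Real.norm_eq_abs,
      abs_of_nonneg (Real.rpow_nonneg hU.le p), abs_of_nonneg (mul_nonneg h2 h3)]
    exact mul_le_mul_of_nonneg_left (mul_le_mul_of_nonneg_right (hB' z.1 z.2)
      (mul_nonneg h2 h3)) (Real.rpow_nonneg hU.le p)
  have hww : Integrable (fun z : D × D => w ω z.1 * w ω z.2) (ρ.prod ρ) :=
    (hw.int_D ρ ω).mul_prod (hw.int_D ρ ω)
  calc ∫ z, ‖(∫ x, w ω x ∂ρ) ^ p * (c z.1 z.2 * (w ω z.1 * w ω z.2))‖ ∂(ρ.prod ρ)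
      ≤ ∫ z : D × D, (∫ x, w ω x ∂ρ) ^ p * (B * (w ω z.1 * w ω z.2)) ∂(ρ.prod ρ) :=
        integral_mono_of_nonneg (Filter.Eventually.of_forall fun _ => norm_nonneg _)
          ((hww.const_mul B).const_mul _) (Filter.Eventually.of_forall h1)
    _ = B * (∫ x, w ω x ∂ρ) ^ (p + 2) := by
        rw [integral_const_mul, integral_const_mul, integral_prod_mul (w ω) (w ω),
          Real.rpow_add hU, Real.rpow_two]
        ring

/-- Fubini for the second order term -/
theorem fub2 (hw : Wt P w a s M) (ρ : Measure D) [IsProbabilityMeasure ρ] (p : ℝ) (c : D → D → ℝ)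
    (hc : Measurable (Function.uncurry c)) (hB : ∃ B : ℝ, ∀ x y, |c x y| ≤ B) :
    ∫ ω, (∫ x, w ω x ∂ρ) ^ p * (∫ x, ∫ y, c x y * (w ω x * w ω y) ∂ρ ∂ρ) ∂P -
      ∫ x, ∫ y, c x y ∂ρ ∂ρ =
      ∫ x, ∫ y, c x y * (∫ ω, (∫ z, w ω z ∂ρ) ^ p * (w ω x * w ω y) ∂P - 1) ∂ρ ∂ρ := by
  have h3 := int3 hw ρ p c hc hB
  have e1 : ∀ ω, (∫ x, w ω x ∂ρ) ^ p * (∫ x, ∫ y, c x y * (w ω x * w ω y) ∂ρ ∂ρ) =
      ∫ z : D × D, (∫ x, w ω x ∂ρ) ^ p * (c z.1 z.2 * (w ω z.1 * w ω z.2)) ∂(ρ.prod ρ) := by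
    intro ω
    rw [integral_const_mul, integral_prod _ (int_ww hw ρ c hc hB ω)]
  have e2 : ∫ ω, (∫ z : D × D, (∫ x, w ω x ∂ρ) ^ p * (c z.1 z.2 * (w ω z.1 * w ω z.2))
      ∂(ρ.prod ρ)) ∂P = ∫ z : D × D, (∫ ω, (∫ x, w ω x ∂ρ) ^ p *
        (c z.1 z.2 * (w ω z.1 * w ω z.2)) ∂P) ∂(ρ.prod ρ) :=
    integral_integral_swap (f := fun ω (z : D × D) => (∫ x, w ω x ∂ρ) ^ p *
      (c z.1 z.2 * (w ω z.1 * w ω z.2))) h3
  have e3 : ∀ z : D × D, (∫ ω, (∫ x, w ω x ∂ρ) ^ p * (c z.1 z.2 * (w ω z.1 * w ω z.2)) ∂P) =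
      c z.1 z.2 * ∫ ω, (∫ x, w ω x ∂ρ) ^ p * (w ω z.1 * w ω z.2) ∂P := by
    intro z
    rw [← integral_const_mul]
    apply integral_congr_ae
    refine Filter.Eventually.of_forall fun ω => ?_
    simp only
    ring
  have hJ : Integrable (fun z : D × D => c z.1 z.2 *
      ∫ ω, (∫ x, w ω x ∂ρ) ^ p * (w ω z.1 * w ω z.2) ∂P) (ρ.prod ρ) := by
    have := h3.integral_prod_right
    simp only [e3] at this
    exact this
  have hcI : Integrable (fun z : D × D => c z.1 z.2) (ρ.prod ρ) := by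
    obtain ⟨B, hB⟩ := hB
    exact Integrable.of_bound (C := B) hc.aestronglyMeasurable
      (Filter.Eventually.of_forall fun z => by rw [Real.norm_eq_abs]; exact hB z.1 z.2)
  have hK : Integrable (fun z : D × D => c z.1 z.2 *
      (∫ ω, (∫ x, w ω x ∂ρ) ^ p * (w ω z.1 * w ω z.2) ∂P - 1)) (ρ.prod ρ) := by
    refine (hJ.sub hcI).congr (Filter.Eventually.of_forall fun z => ?_)
    simp only [Pi.sub_apply]
    ring
  simp only [e1]
  rw [e2]
  simp only [e3]
  rw [← integral_prod _ hcI, ← integral_prod _ hK, ← integral_sub hJ hcI]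
  apply integral_congr_ae
  refine Filter.Eventually.of_forall fun z => ?_
  simp only
  ring

/-- Fubini for the first order term -/
theorem fub1 (hw : Wt P w a s M) (ρ : Measure D) [IsProbabilityMeasure ρ] (p : ℝ) (b : D → ℝ)
    (hb : Measurable b) (hB : ∃ B : ℝ, ∀ x, |b x| ≤ B) :
    ∫ ω, (∫ x, w ω x ∂ρ) ^ p * (∫ x, b x * w ω x ∂ρ) ∂P =
      ∫ x, b x * (∫ ω, (∫ z, w ω z ∂ρ) ^ p * w ω x ∂P) ∂ρ ∧
    Integrable (fun x => b x * (∫ ω, (∫ z, w ω z ∂ρ) ^ p * w ω x ∂P)) ρ := by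
  have hmeas : Measurable (fun z : Ω × D => (∫ x, w z.1 x ∂ρ) ^ p * (b z.2 * w z.1 z.2)) :=
    (((hw.U_meas ρ).comp measurable_fst).pow_const p).mul ((hb.comp measurable_snd).mul hw.meas)
  have hin : ∀ ω, Integrable (fun x => b x * w ω x) ρ := by
    intro ω
    obtain ⟨B, hB⟩ := hB
    exact (hw.int_D ρ ω).bdd_mul hb.aestronglyMeasurable
      (Filter.Eventually.of_forall fun x => by rw [Real.norm_eq_abs]; exact hB x)
  have h2 : Integrable (fun z : Ω × D => (∫ x, w z.1 x ∂ρ) ^ p * (b z.2 * w z.1 z.2))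
      (P.prod ρ) := by
    rw [integrable_prod_iff hmeas.aestronglyMeasurable]
    refine ⟨Filter.Eventually.of_forall fun ω => (hin ω).const_mul ((∫ x, w ω x ∂ρ) ^ p), ?_⟩
    obtain ⟨B, hB'⟩ := hB
    refine Integrable.mono' (((hw.U_mom ρ (p + 1)).1).const_mul B)
      hmeas.norm.stronglyMeasurable.integral_prod_right'.aestronglyMeasurable ?_
    refine Filter.Eventually.of_forall fun ω => ?_
    have hU := hw.U_pos ρ ω
    rw [Real.norm_eq_abs, abs_of_nonneg (integral_nonneg fun _ => norm_nonneg _)]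
    have h1 : ∀ x : D, ‖(∫ x, w ω x ∂ρ) ^ p * (b x * w ω x)‖ ≤
        (∫ x, w ω x ∂ρ) ^ p * (B * w ω x) := by
      intro x
      have h2 := (hw.pos ω x).le
      rw [norm_mul, norm_mul, Real.norm_eq_abs, Real.norm_eq_abs, Real.norm_eq_abs,
        abs_of_nonneg (Real.rpow_nonneg hU.le p), abs_of_nonneg h2]
      exact mul_le_mul_of_nonneg_left (mul_le_mul_of_nonneg_right (hB' x) h2)
        (Real.rpow_nonneg hU.le p)
    calc ∫ x, ‖(∫ x, w ω x ∂ρ) ^ p * (b x * w ω x)‖ ∂ρ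
        ≤ ∫ x, (∫ x, w ω x ∂ρ) ^ p * (B * w ω x) ∂ρ :=
          integral_mono_of_nonneg (Filter.Eventually.of_forall fun _ => norm_nonneg _)
            (((hw.int_D ρ ω).const_mul B).const_mul _) (Filter.Eventually.of_forall h1)
      _ = B * (∫ x, w ω x ∂ρ) ^ (p + 1) := by
          rw [integral_const_mul, integral_const_mul, Real.rpow_add hU, Real.rpow_one]
          ring
  have e3 : ∀ x : D, (∫ ω, (∫ z, w ω z ∂ρ) ^ p * (b x * w ω x) ∂P) =
      b x * ∫ ω, (∫ z, w ω z ∂ρ) ^ p * w ω x ∂P := by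
    intro x
    rw [← integral_const_mul]
    apply integral_congr_ae
    refine Filter.Eventually.of_forall fun ω => ?_
    simp only
    ring
  constructor
  · have e1 : ∀ ω, (∫ x, w ω x ∂ρ) ^ p * (∫ x, b x * w ω x ∂ρ) =
        ∫ x, (∫ z, w ω z ∂ρ) ^ p * (b x * w ω x) ∂ρ := fun ω => by rw [integral_const_mul]
    simp only [e1]
    rw [integral_integral_swap (f := fun ω x => (∫ z, w ω z ∂ρ) ^ p * (b x * w ω x)) h2]
    simp only [e3]
  · have := h2.integral_prod_right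
    simp only [e3] at this
    exact this

end one

section fam

variable {ι : Type} [Fintype ι] [DecidableEq ι] {Ω : ι → Type} [∀ k, MeasurableSpace (Ω k)]
  {P : ∀ k, Measure (Ω k)} [∀ k, IsProbabilityMeasure (P k)]
  {D : Type} [MeasurableSpace D] {m : Measure D} [IsFiniteMeasure m] {w : ∀ k, Ω k → D → ℝ}
  {a : ι → D → ℝ} {s : ℝ} {M : ℝ → ℝ}

omit [Fintype ι] [∀ k, MeasurableSpace (Ω k)] [MeasurableSpace D] in
theorem fC_upd {C : Finset ι} {k : ι} (hk : k ∉ C) (ω : ∀ k, Ω k) (α : Ω k) (x : D) :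
    fC w C (Function.update ω k α) x = fC w C ω x := by
  unfold fC
  apply Finset.prod_congr rfl
  intro j hj
  have : j ≠ k := fun h => hk (h ▸ hj)
  rw [Function.update_of_ne this]

omit [Fintype ι] [∀ k, MeasurableSpace (Ω k)] [MeasurableSpace D] in
theorem fC_ins {C : Finset ι} {k : ι} (hk : k ∉ C) (ω : ∀ k, Ω k) (α : Ω k) (x : D) :
    fC w (insert k C) (Function.update ω k α) x = w k α x * fC w C ω x := by
  rw [← fC_upd hk ω α x]
  unfold fC
  rw [Finset.prod_insert hk, Function.update_self]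

/-- the tilted probability measure -/
noncomputable def rho (m : Measure D) (w : ∀ k, Ω k → D → ℝ) (C : Finset ι) (ω : ∀ k, Ω k) :
    Measure D :=
  m.withDensity fun x => ENNReal.ofReal (fC w C ω x / mass m w C ω)

theorem fC_meas1 (hw : ∀ k, Wt (P k) (w k) (a k) s M) (C : Finset ι) (ω : ∀ k, Ω k) :
    Measurable (fC w C ω) :=
  (fC_meas hw C).comp (measurable_const.prodMk measurable_id)

theorem dens_meas (hw : ∀ k, Wt (P k) (w k) (a k) s M) (C : Finset ι) (ω : ∀ k, Ω k) :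
    Measurable (fun x => ENNReal.ofReal (fC w C ω x / mass m w C ω)) :=
  ((fC_meas1 hw C ω).div_const _).ennreal_ofReal

theorem rho_int (hw : ∀ k, Wt (P k) (w k) (a k) s M) (hm : m ≠ 0) (C : Finset ι)
    (ω : ∀ k, Ω k) (g : D → ℝ) :
    ∫ x, g x ∂(rho m w C ω) = (mass m w C ω)⁻¹ * ∫ x, g x * fC w C ω x ∂m := by
  unfold rho
  rw [integral_withDensity_eq_integral_toReal_smul (dens_meas hw C ω)
    (Filter.Eventually.of_forall fun x => ENNReal.ofReal_lt_top), ← integral_const_mul]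
  apply integral_congr_ae
  refine Filter.Eventually.of_forall fun x => ?_
  simp only
  rw [ENNReal.toReal_ofReal (div_nonneg (fC_pos hw C ω x).le (mass_pos hw hm C ω).le),
    smul_eq_mul]
  ring

theorem rho_prob (hw : ∀ k, Wt (P k) (w k) (a k) s M) (hm : m ≠ 0) (C : Finset ι)
    (ω : ∀ k, Ω k) : IsProbabilityMeasure (rho m w C ω) := by
  constructor
  unfold rho
  rw [withDensity_apply _ MeasurableSet.univ, Measure.restrict_univ,
    ← ofReal_integral_eq_lintegral_ofReal ((fC_int hw C ω).div_const _)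
      (Filter.Eventually.of_forall fun x =>
        div_nonneg (fC_pos hw C ω x).le (mass_pos hw hm C ω).le), integral_div]
  change ENNReal.ofReal (mass m w C ω / mass m w C ω) = 1
  rw [div_self (mass_pos hw hm C ω).ne', ENNReal.ofReal_one]

theorem mass_ins (hw : ∀ k, Wt (P k) (w k) (a k) s M) (hm : m ≠ 0) {C : Finset ι} {k : ι}
    (hk : k ∉ C) (ω : ∀ k, Ω k) (α : Ω k) :
    mass m w (insert k C) (Function.update ω k α) =
      mass m w C ω * ∫ x, w k α x ∂(rho m w C ω) := by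
  rw [rho_int hw hm, ← mul_assoc, mul_inv_cancel₀ (mass_pos hw hm C ω).ne', one_mul]
  unfold mass
  simp only [fC_ins hk]

theorem two_int (hw : ∀ k, Wt (P k) (w k) (a k) s M) (hm : m ≠ 0) (C : Finset ι)
    (ω : ∀ k, Ω k) (c : D → D → ℝ) (g : D → ℝ) :
    ∫ x, ∫ y, c x y * ((g x * fC w C ω x) * (g y * fC w C ω y)) ∂m ∂m =
      mass m w C ω ^ (2 : ℝ) *
        ∫ x, ∫ y, c x y * (g x * g y) ∂(rho m w C ω) ∂(rho m w C ω) := by
  rw [rho_int hw hm]
  simp only [rho_int hw hm]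
  have hne := (mass_pos hw hm C ω).ne'
  have e1 : ∀ x, (mass m w C ω)⁻¹ * (∫ y, c x y * (g x * g y) * fC w C ω y ∂m) * fC w C ω x =
      (mass m w C ω)⁻¹ * ∫ y, c x y * ((g x * fC w C ω x) * (g y * fC w C ω y)) ∂m := by
    intro x
    rw [mul_assoc]
    congr 1
    rw [← integral_mul_const]
    apply integral_congr_ae
    refine Filter.Eventually.of_forall fun y => ?_
    simp only
    ring
  simp only [e1]
  rw [integral_const_mul, Real.rpow_two]
  field_simp

theorem one_int (hw : ∀ k, Wt (P k) (w k) (a k) s M) (hm : m ≠ 0) (C : Finset ι)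
    (ω : ∀ k, Ω k) (b : D → ℝ) (g : D → ℝ) :
    ∫ x, b x * (g x * fC w C ω x) ∂m =
      mass m w C ω ^ (1 : ℝ) * ∫ x, b x * g x ∂(rho m w C ω) := by
  rw [rho_int hw hm]
  have hne := (mass_pos hw hm C ω).ne'
  rw [Real.rpow_one, ← mul_assoc, mul_inv_cancel₀ hne, one_mul]
  apply integral_congr_ae
  refine Filter.Eventually.of_forall fun x => ?_
  simp only
  ring

/-- an inequality between integrals -/
theorem abs_int {Θ : Type} [MeasurableSpace Θ] {Q : Measure Θ} {f g h b : Θ → ℝ}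
    (hf : Integrable f Q) (hg : Integrable g Q) (hh : Integrable h Q) (hb : Integrable b Q)
    (c K : ℝ) (H : ∀ ω, |f ω - g ω - c * h ω| ≤ K * b ω) :
    |∫ ω, f ω ∂Q - ∫ ω, g ω ∂Q - c * ∫ ω, h ω ∂Q| ≤ K * ∫ ω, b ω ∂Q := by
  have hfg : Integrable (fun ω => f ω - g ω) Q := hf.sub hg
  have hch : Integrable (fun ω => c * h ω) Q := hh.const_mul c
  have hall : Integrable (fun ω => f ω - g ω - c * h ω) Q := hfg.sub hch
  rw [← integral_sub hf hg, ← integral_const_mul, ← integral_const_mul,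
    ← integral_sub hfg hch]
  refine (abs_integral_le_integral_abs).trans ?_
  exact integral_mono hall.abs (hb.const_mul K) H

end fam

end DifAux

open DifAux

/-- Let `C' = C.erase k`. Nothing depends on `ω k` in `fC w C' ω`; `fC w (insert k C') (update ω k α) x = w k α x * fC w C' ω x`. With `ρ_ω` = the probability measure with density `fC w C' ω / mass C' ω` w.r.t. `m` and
`U α = ∫ w k α x dρ_ω`: `mass (insert k C') (update ω k α) = mass C' ω * U α`. Integrate first over `α` (`integral_update`), apply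
(1) `one_step`: `φ(insert k C') - φ(C') = ∫ mass^q (E U^q - 1)` is `q(q-1)/2 Tq(C', c_k)` up to `K Aq(C', a_k)`;
(2) `one_cov`: `Tq(insert k C', c_k) - Tq(C', c_k)` is at most `K Aq(C', a_k)`;
(3) `one_low`: `Aq(C', a_k) ≤ κ⁻¹ Aq(insert k C', a_k)`. -/
theorem dif (q s : ℝ) (hs : 3 < s) (M : ℝ → ℝ) : ∃ K : ℝ, 0 < K ∧
    ∀ (D : Type) [MeasurableSpace D] (m : Measure D) [IsFiniteMeasure m] (_ : m ≠ 0)
      (ι : Type) [Fintype ι] [DecidableEq ι] (Ω : ι → Type) [∀ k, MeasurableSpace (Ω k)] (P : ∀ k, Measure (Ω k)) [∀ k, IsProbabilityMeasure (P k)]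
      (w : ∀ k, Ω k → D → ℝ) (a : ι → D → ℝ) (_ : ∀ k, Wt (P k) (w k) (a k) s M) (C : Finset ι) (k : ι),
      |phi P m w q (insert k C) - phi P m w q (C.erase k) - q * (q - 1) / 2 * Tq P m w q C (cw (P k) (w k))| ≤ K * Aq P m w q C (a k) := by
  obtain ⟨K1, hK1, H1⟩ := one_step q s hs M
  obtain ⟨K2, hK2, H2⟩ := one_cov q s hs M
  obtain ⟨κ, hκ, H3⟩ := one_low q s M
  refine ⟨(K1 + |q * (q - 1) / 2| * K2) * κ⁻¹ + K1, by positivity, ?_⟩
  intro D _ m _ hm ι _ _ Ω _ P _ w a hw C k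
  set C' := C.erase k with hC'
  have hk : k ∉ C' := Finset.notMem_erase k C
  have hins : insert k C = insert k C' := by
    rw [hC']
    ext j
    by_cases hj : j = k <;> simp [hj]
  have hmp := mass_pos hw hm C'
  have hcm := cw_meas (hw k)
  obtain ⟨Ba, hBa⟩ := (hw k).ab
  have haB : ∃ B : ℝ, ∀ x, |a k x| ≤ B := ⟨Ba, fun x => by
    rw [abs_of_nonneg ((hw k).a0 x)]; exact hBa x⟩
  -- the integrands for `C'`
  have eT : ∀ ω, mass m w C' ω ^ (q - 2) * (∫ x, ∫ y, cw (P k) (w k) x y *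
      (fC w C' ω x * fC w C' ω y) ∂m ∂m) = mass m w C' ω ^ q *
      ∫ x, ∫ y, cw (P k) (w k) x y ∂(rho m w C' ω) ∂(rho m w C' ω) := by
    intro ω
    have h1 := two_int hw hm C' ω (cw (P k) (w k)) (fun _ => 1)
    simp only [one_mul, mul_one] at h1
    rw [h1, ← mul_assoc, ← Real.rpow_add (hmp ω), sub_add_cancel]
  have eA : ∀ ω, mass m w C' ω ^ (q - 1) * (∫ x, a k x * fC w C' ω x ∂m) =
      mass m w C' ω ^ q * ∫ x, a k x ∂(rho m w C' ω) := by
    intro ω
    have h1 := one_int hw hm C' ω (a k) (fun _ => 1)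
    simp only [one_mul, mul_one] at h1
    rw [h1, ← mul_assoc, ← Real.rpow_add (hmp ω), sub_add_cancel]
  have hA0 : 0 ≤ Aq P m w q C' (a k) := integral_nonneg fun ω =>
    mul_nonneg (Real.rpow_nonneg (hmp ω).le _) (integral_nonneg fun x =>
      mul_nonneg ((hw k).a0 x) (fC_pos hw C' ω x).le)
  -- integrability
  have iM := mass_mom (m := m) hw hm C' q
  have iA := mass_b (m := m) hw hm C' (q - 1) (a k) (hw k).ameas haB
  have iT := mass_c (m := m) hw hm C' (q - 2) _ hcm.1 hcm.2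
  have iM' := mass_mom (m := m) hw hm (insert k C') q
  have iA' := mass_b (m := m) hw hm (insert k C') (q - 1) (a k) (hw k).ameas haB
  have iT' := mass_c (m := m) hw hm (insert k C') (q - 2) _ hcm.1 hcm.2
  -- step 1
  have S1 : |phi P m w q (insert k C') - phi P m w q C' -
      q * (q - 1) / 2 * Tq P m w q C' (cw (P k) (w k))| ≤ K1 * Aq P m w q C' (a k) := by
    unfold phi Tq Aq
    rw [integral_update P k _ iM']
    refine abs_int (integrable_update P k _ iM').1 iM iT iA _ _ fun ω => ?_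
    haveI := rho_prob hw hm C' ω
    have h1 := H1 (Ω k) D (P k) (w k) (a k) (hw k) (rho m w C' ω)
    have e1 : ∫ α, mass m w (insert k C') (Function.update ω k α) ^ q ∂(P k) =
        mass m w C' ω ^ q * ∫ α, (∫ x, w k α x ∂(rho m w C' ω)) ^ q ∂(P k) := by
      rw [← integral_const_mul]
      apply integral_congr_ae
      refine Filter.Eventually.of_forall fun α => ?_
      simp only
      rw [mass_ins hw hm hk, Real.mul_rpow (hmp ω).le ((hw k).U_pos (rho m w C' ω) α).le]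
    rw [e1, eT, eA]
    have e2 : mass m w C' ω ^ q * (∫ α, (∫ x, w k α x ∂(rho m w C' ω)) ^ q ∂(P k)) -
        mass m w C' ω ^ q - q * (q - 1) / 2 * (mass m w C' ω ^ q *
          ∫ x, ∫ y, cw (P k) (w k) x y ∂(rho m w C' ω) ∂(rho m w C' ω)) =
        mass m w C' ω ^ q * (∫ α, (∫ x, w k α x ∂(rho m w C' ω)) ^ q ∂(P k) - 1 -
          q * (q - 1) / 2 * ∫ x, ∫ y, cw (P k) (w k) x y ∂(rho m w C' ω) ∂(rho m w C' ω)) := by
      ring
    have hp := Real.rpow_nonneg (hmp ω).le q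
    rw [e2, abs_mul, abs_of_nonneg hp]
    calc _ ≤ mass m w C' ω ^ q * (K1 * ∫ x, a k x ∂(rho m w C' ω)) :=
          mul_le_mul_of_nonneg_left h1 hp
      _ = _ := by ring
  -- step 2
  have S2 : |Tq P m w q (insert k C') (cw (P k) (w k)) - Tq P m w q C' (cw (P k) (w k))| ≤
      K2 * Aq P m w q C' (a k) := by
    have h0 : |Tq P m w q (insert k C') (cw (P k) (w k)) - Tq P m w q C' (cw (P k) (w k)) -
        0 * Tq P m w q C' (cw (P k) (w k))| ≤ K2 * Aq P m w q C' (a k) := by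
      unfold Tq Aq
      rw [integral_update P k _ iT']
      refine abs_int (integrable_update P k _ iT').1 iT iT iA _ _ fun ω => ?_
      haveI := rho_prob hw hm C' ω
      have h1 := H2 (Ω k) D (P k) (w k) (a k) (hw k) (rho m w C' ω)
      rw [← fub2 (hw k) (rho m w C' ω) (q - 2) _ hcm.1 hcm.2] at h1
      have e1 : ∫ α, mass m w (insert k C') (Function.update ω k α) ^ (q - 2) *
          (∫ x, ∫ y, cw (P k) (w k) x y * (fC w (insert k C') (Function.update ω k α) x *
            fC w (insert k C') (Function.update ω k α) y) ∂m ∂m) ∂(P k) =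
          mass m w C' ω ^ q * ∫ α, (∫ x, w k α x ∂(rho m w C' ω)) ^ (q - 2) *
            (∫ x, ∫ y, cw (P k) (w k) x y * (w k α x * w k α y)
              ∂(rho m w C' ω) ∂(rho m w C' ω)) ∂(P k) := by
        rw [← integral_const_mul]
        apply integral_congr_ae
        refine Filter.Eventually.of_forall fun α => ?_
        simp only [fC_ins hk]
        rw [mass_ins hw hm hk, Real.mul_rpow (hmp ω).le ((hw k).U_pos (rho m w C' ω) α).le,
          two_int hw hm]
        have e3 : mass m w C' ω ^ q = mass m w C' ω ^ (q - 2) * mass m w C' ω ^ (2 : ℝ) := by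
          rw [← Real.rpow_add (hmp ω), sub_add_cancel]
        rw [e3]
        ring
      rw [e1, eT, eA, zero_mul, sub_zero, ← mul_sub]
      have hp := Real.rpow_nonneg (hmp ω).le q
      rw [abs_mul, abs_of_nonneg hp]
      calc _ ≤ mass m w C' ω ^ q * (K2 * ∫ x, a k x ∂(rho m w C' ω)) :=
            mul_le_mul_of_nonneg_left h1 hp
        _ = _ := by ring
    rwa [zero_mul, sub_zero] at h0
  -- step 3
  have S3 : κ * Aq P m w q C' (a k) ≤ Aq P m w q (insert k C') (a k) := by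
    unfold Aq
    rw [integral_update P k _ iA', ← integral_const_mul]
    refine integral_mono (iA.const_mul κ) (integrable_update P k _ iA').1 fun ω => ?_
    haveI := rho_prob hw hm C' ω
    have e1 : ∫ α, mass m w (insert k C') (Function.update ω k α) ^ (q - 1) *
        (∫ x, a k x * fC w (insert k C') (Function.update ω k α) x ∂m) ∂(P k) =
        mass m w C' ω ^ q * ∫ α, (∫ x, w k α x ∂(rho m w C' ω)) ^ (q - 1) *
          (∫ x, a k x * w k α x ∂(rho m w C' ω)) ∂(P k) := by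
      rw [← integral_const_mul]
      apply integral_congr_ae
      refine Filter.Eventually.of_forall fun α => ?_
      simp only [fC_ins hk]
      rw [mass_ins hw hm hk, Real.mul_rpow (hmp ω).le ((hw k).U_pos (rho m w C' ω) α).le,
        one_int hw hm]
      have e3 : mass m w C' ω ^ q = mass m w C' ω ^ (q - 1) * mass m w C' ω ^ (1 : ℝ) := by
        rw [← Real.rpow_add (hmp ω), sub_add_cancel]
      rw [e3]
      ring
    obtain ⟨f1, f2⟩ := fub1 (hw k) (rho m w C' ω) (q - 1) (a k) (hw k).ameas haB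
    simp only
    rw [e1, eA, f1]
    have hp := Real.rpow_nonneg (hmp ω).le q
    have h2 : κ * ∫ x, a k x ∂(rho m w C' ω) ≤ ∫ x, a k x *
        (∫ α, (∫ z, w k α z ∂(rho m w C' ω)) ^ (q - 1) * w k α x ∂(P k)) ∂(rho m w C' ω) := by
      rw [← integral_const_mul]
      have haI : Integrable (a k) (rho m w C' ω) := by
        obtain ⟨B, hB⟩ := haB
        exact Integrable.of_bound (C := B) (hw k).ameas.aestronglyMeasurable
          (Filter.Eventually.of_forall fun x => by rw [Real.norm_eq_abs]; exact hB x)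
      refine integral_mono (haI.const_mul κ) f2 fun x => ?_
      simp only
      rw [mul_comm κ]
      exact mul_le_mul_of_nonneg_left (H3 (Ω k) D (P k) (w k) (a k) (hw k) (rho m w C' ω) x)
        ((hw k).a0 x)
    calc κ * (mass m w C' ω ^ q * ∫ x, a k x ∂(rho m w C' ω)) =
        mass m w C' ω ^ q * (κ * ∫ x, a k x ∂(rho m w C' ω)) := by ring
      _ ≤ _ := mul_le_mul_of_nonneg_left h2 hp
  rw [hins]
  by_cases hkC : k ∈ C
  · have hC : insert k C' = C := Finset.insert_erase hkC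
    rw [hC] at S1 S2 S3 ⊢
    have h4 : Aq P m w q C' (a k) ≤ κ⁻¹ * Aq P m w q C (a k) := by
      rw [inv_mul_eq_div, le_div_iff₀ hκ]
      linarith
    have h5 : |phi P m w q C - phi P m w q C' -
        q * (q - 1) / 2 * Tq P m w q C (cw (P k) (w k))| ≤
        (K1 + |q * (q - 1) / 2| * K2) * Aq P m w q C' (a k) := by
      have e5 : phi P m w q C - phi P m w q C' - q * (q - 1) / 2 * Tq P m w q C (cw (P k) (w k)) =
          (phi P m w q C - phi P m w q C' - q * (q - 1) / 2 * Tq P m w q C' (cw (P k) (w k))) -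
          q * (q - 1) / 2 * (Tq P m w q C (cw (P k) (w k)) - Tq P m w q C' (cw (P k) (w k))) := by
        ring
      rw [e5]
      refine (abs_sub _ _).trans ?_
      rw [abs_mul, add_mul, mul_assoc]
      exact add_le_add S1 (mul_le_mul_of_nonneg_left S2 (abs_nonneg _))
    have h6 : 0 ≤ Aq P m w q C (a k) := (mul_nonneg hκ.le hA0).trans S3
    calc _ ≤ (K1 + |q * (q - 1) / 2| * K2) * Aq P m w q C' (a k) := h5
      _ ≤ (K1 + |q * (q - 1) / 2| * K2) * (κ⁻¹ * Aq P m w q C (a k)) :=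
          mul_le_mul_of_nonneg_left h4 (by positivity)
      _ ≤ _ := by nlinarith
  · have hC : C' = C := Finset.erase_eq_of_notMem hkC
    rw [hC] at S1 hA0 ⊢
    refine S1.trans ?_
    have h7 : 0 ≤ (K1 + |q * (q - 1) / 2| * K2) * κ⁻¹ := by positivity
    nlinarith [mul_nonneg h7 hA0]

end Pool.Agent.MChaos
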