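import Mathlib

/-!
# MP_a91488_pr: definitions for the final statement
-/

set_option autoImplicit false

open MeasureTheory ProbabilityTheory Filter Metric
open scoped Topology ENNReal

namespace Pool.Agent.MChaos

/-- Euclidean space of dimension `d` -/
abbrev E (d : ℕ) := EuclideanSpace ℝ (Fin d)

/-- the cube `[0,1]^d` -/
def cube (d : ℕ) : Set (E d) := {x | ∀ i, 0 ≤ x i ∧ x i ≤ 1}

/-- `∑_{k < n} E X_k(0)^2` -/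
noncomputable def sig2 {d : ℕ} {Ω : Type} [MeasurableSpace Ω] (P : Measure Ω) (X : ℕ → Ω → E d → ℝ) (n : ℕ) : ℝ :=
  ∑ k ∈ Finset.range n, ∫ ω, X k ω 0 ^ 2 ∂P

/-- conditions 1 to 5: independent centered fields on the cube with continuous sample paths (indexed from `0`) -/
structure Cond (d : ℕ) {Ω : Type} [MeasurableSpace Ω] (P : Measure Ω) (X : ℕ → Ω → E d → ℝ) : Prop where
  meas : ∀ k, ∀ x ∈ cube d, Measurable (fun ω => X k ω x)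
  cont : ∀ k ω, ContinuousOn (X k ω) (cube d)
  indep : iIndepFun (fun (k : ℕ) (ω : Ω) (x : cube d) => X k ω x) P
  mean : ∀ k, ∀ x ∈ cube d, ∫ ω, X k ω x ∂P = 0
  small : ∀ ε : ℝ, 0 < ε → ∃ K : ℕ, ∀ k, K ≤ k → ∀ x ∈ cube d, ∫ ω, X k ω x ^ 2 ∂P ≤ ε
  div : ¬ Summable (fun k => ∫ ω, X k ω 0 ^ 2 ∂P)
  cov : ∃ δ C : ℝ, 0 < δ ∧ ∀ n : ℕ, ∀ x ∈ cube d, ∀ y ∈ cube d, ‖x - y‖ ≤ δ →
    (x ≠ y → |∑ k ∈ Finset.range n, ∫ ω, X k ω x * X k ω y ∂P - min (Real.log (1 / ‖x - y‖)) (sig2 P X n)| ≤ C) ∧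
    (x = y → |∑ k ∈ Finset.range n, ∫ ω, X k ω x ^ 2 ∂P - sig2 P X n| ≤ C)
  third : ∃ ε C : ℝ, 0 < ε ∧ ∀ x ∈ cube d, ∀ n : ℕ, ∑ k ∈ Finset.range n, (∫ ω, |X k ω x| ^ (3 + ε) ∂P) ^ (3 / (3 + ε)) ≤ C
  lip : ∃ r₀ : ℝ, 0 < r₀ ∧ ∀ r : ℝ, r₀ ≤ r → ∃ C : ℝ, ∀ n : ℕ, ∀ x ∈ cube d, ∀ y ∈ cube d,
    ∫ ω, |∑ k ∈ Finset.range n, (X k ω x - X k ω y)| ^ r ∂P ≤ C * Real.exp (r * sig2 P X n) * ‖x - y‖ ^ r
  expo : ∀ t : ℝ, ∃ C : ℝ, ∀ k, ∀ x ∈ cube d, Integrable (fun ω => Real.exp (t * X k ω x)) P ∧ ∫ ω, Real.exp (t * X k ω x) ∂P ≤ C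

/-- the density of `μ_n` on the cube -/
noncomputable def dens {d : ℕ} {Ω : Type} [MeasurableSpace Ω] (P : Measure Ω) (X : ℕ → Ω → E d → ℝ) (β : ℝ) (n : ℕ) (ω : Ω) (x : E d) : ℝ :=
  Real.exp (β * ∑ k ∈ Finset.range n, X k ω x) / ∫ ω', Real.exp (β * ∑ k ∈ Finset.range n, X k ω' x) ∂P

/-- the measure `μ_n` on the cube -/
noncomputable def muN {d : ℕ} {Ω : Type} [MeasurableSpace Ω] (P : Measure Ω) (X : ℕ → Ω → E d → ℝ) (β : ℝ) (n : ℕ) (ω : Ω) : Measure (E d) :=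
  (volume.restrict (cube d)).withDensity (fun x => ENNReal.ofReal (dens P X β n ω x))

/-- the local dimension of `μ` at `x` exists and is `α` -/
def LocDim {d : ℕ} (μ : Measure (E d)) (x : E d) (α : ℝ) : Prop :=
  (∀ r : ℝ, 0 < r → 0 < μ (ball x r)) ∧ Tendsto (fun r : ℝ => Real.log (μ.real (ball x r)) / Real.log r) (𝓝[>] 0) (𝓝 α)

/-- the level sets of the local dimension -/
def Lev {d : ℕ} (μ : Measure (E d)) (α : ℝ) : Set (E d) := {x | x ∈ cube d ∧ LocDim μ x α}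

end Pool.Agent.MChaos
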