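import Pool.Agent.Lib_MP_a91488.PRJ

/-!
# Piece EXA: existence of the weak limit (deterministic), portmanteau
-/

set_option autoImplicit false

open MeasureTheory Filter
open scoped Topology

namespace Pool.Agent.MChaos

variable {d : ℕ}

/-- the space `C(cube, ℝ)` is separable (compact metric space); compose a dense sequence with `prj` -/
theorem exd : ∃ D : ℕ → E d → ℝ, (∀ j, Continuous (D j)) ∧ (∀ j, ∃ B : ℝ, ∀ x, |D j x| ≤ B) ∧
    ∀ f : E d → ℝ, Continuous f → ∀ ε : ℝ, 0 < ε → ∃ j, ∀ x ∈ cube d, |f x - D j x| ≤ ε := by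
  haveI : CompactSpace (cube d) := isCompact_iff_compactSpace.1 isCompact_cube
  set s : ℕ → C(cube d, ℝ) := TopologicalSpace.denseSeq C(cube d, ℝ) with hs
  have hp : Continuous (fun x : E d => (⟨prj x, prj_mem x⟩ : cube d)) :=
    Continuous.subtype_mk prj_cont _
  refine ⟨fun j x => s j ⟨prj x, prj_mem x⟩, fun j => (s j).continuous.comp hp, fun j => ?_, ?_⟩
  · refine ⟨‖s j‖, fun x => ?_⟩
    have := (s j).norm_coe_le_norm ⟨prj x, prj_mem x⟩
    simpa using this
  · intro f hf ε hε
    have hd : DenseRange s := TopologicalSpace.denseRange_denseSeq _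
    obtain ⟨j, hj⟩ := hd.exists_dist_lt (⟨fun x : cube d => f x, hf.comp continuous_subtype_val⟩ : C(cube d, ℝ)) hε
    refine ⟨j, fun x hx => ?_⟩
    have h1 := ContinuousMap.dist_apply_le_dist (f := (⟨fun x : cube d => f x, hf.comp continuous_subtype_val⟩ : C(cube d, ℝ))) (g := s j) ⟨x, hx⟩
    have h2 : (⟨prj x, prj_mem x⟩ : cube d) = ⟨x, hx⟩ := Subtype.ext (prj_eq x hx)
    rw [Real.dist_eq] at h1
    simp only [h2]
    exact h1.trans hj.le

/-- almost all points are in the cube -/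
theorem exa_ae {ν : Measure (E d)} (hs : ν (cube d)ᶜ = 0) : ∀ᵐ x ∂ν, x ∈ cube d := by
  rw [ae_iff]
  exact hs

/-- continuous functions are integrable -/
theorem exa_int {ν : Measure (E d)} [IsFiniteMeasure ν] (hs : ν (cube d)ᶜ = 0) {f : E d → ℝ}
    (hf : Continuous f) : Integrable f ν := by
  obtain ⟨B, hB⟩ := (isCompact_cube (d := d)).exists_bound_of_continuousOn hf.continuousOn
  exact Integrable.of_bound hf.aestronglyMeasurable B ((exa_ae hs).mono (fun x hx => hB x hx))

/-- close functions have close integrals -/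
theorem exa_close {ν : Measure (E d)} [IsFiniteMeasure ν] (hs : ν (cube d)ᶜ = 0) {f g : E d → ℝ}
    (hf : Continuous f) (hg : Continuous g) {ε C : ℝ} (hε : 0 ≤ ε)
    (h : ∀ x ∈ cube d, |f x - g x| ≤ ε) (hC : ν.real Set.univ ≤ C) :
    |∫ x, f x ∂ν - ∫ x, g x ∂ν| ≤ ε * C := by
  rw [← integral_sub (exa_int hs hf) (exa_int hs hg)]
  have h1 : ‖∫ x, (f x - g x) ∂ν‖ ≤ ε * ν.real Set.univ :=
    norm_integral_le_of_norm_le_const ((exa_ae hs).mono (fun x hx => by simpa using h x hx))
  rw [Real.norm_eq_abs] at h1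
  exact h1.trans (mul_le_mul_of_nonneg_left hC hε)

/-- the masses are bounded -/
theorem exa_mass (D : ℕ → E d → ℝ) (hD : ∀ j, Continuous (D j)) (hdense : ∀ f : E d → ℝ, Continuous f → ∀ ε : ℝ, 0 < ε → ∃ j, ∀ x ∈ cube d, |f x - D j x| ≤ ε)
    (ν : ℕ → Measure (E d)) (hfin : ∀ N, IsFiniteMeasure (ν N)) (hsupp : ∀ N, ν N (cube d)ᶜ = 0) (hconv : ∀ j, ∃ L : ℝ, Tendsto (fun N => ∫ x, D j x ∂(ν N)) atTop (𝓝 L)) :
    ∃ C : ℝ, 0 ≤ C ∧ ∀ N, (ν N).real Set.univ ≤ C := by
  obtain ⟨j, hj⟩ := hdense (fun _ => 1) continuous_const (1 / 2) (by norm_num)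
  obtain ⟨L, hL⟩ := hconv j
  obtain ⟨B, hB⟩ := hL.bddAbove_range
  have key : ∀ N, (ν N).real Set.univ ≤ 2 * B := by
    intro N
    haveI := hfin N
    have h1 : ∫ x, D j x ∂(ν N) ≤ B := hB ⟨N, rfl⟩
    have h2 : ∫ _, (1 / 2 : ℝ) ∂(ν N) ≤ ∫ x, D j x ∂(ν N) := by
      refine integral_mono_ae (integrable_const _) (exa_int (hsupp N) (hD j)) ?_
      refine (exa_ae (hsupp N)).mono (fun x hx => ?_)
      have := hj x hx
      rw [abs_le] at this
      show (1 / 2 : ℝ) ≤ D j x
      linarith [this.2]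
    rw [integral_const, smul_eq_mul] at h2
    linarith
  exact ⟨2 * B, le_trans measureReal_nonneg (key 0), key⟩

/-- all integrals of continuous functions converge -/
theorem exa_conv (D : ℕ → E d → ℝ) (hD : ∀ j, Continuous (D j)) (hdense : ∀ f : E d → ℝ, Continuous f → ∀ ε : ℝ, 0 < ε → ∃ j, ∀ x ∈ cube d, |f x - D j x| ≤ ε)
    (ν : ℕ → Measure (E d)) (hfin : ∀ N, IsFiniteMeasure (ν N)) (hsupp : ∀ N, ν N (cube d)ᶜ = 0) (hconv : ∀ j, ∃ L : ℝ, Tendsto (fun N => ∫ x, D j x ∂(ν N)) atTop (𝓝 L))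
    (f : E d → ℝ) (hf : Continuous f) : ∃ L : ℝ, Tendsto (fun N => ∫ x, f x ∂(ν N)) atTop (𝓝 L) := by
  obtain ⟨C, hC0, hC⟩ := exa_mass D hD hdense ν hfin hsupp hconv
  apply cauchySeq_tendsto_of_complete
  rw [Metric.cauchySeq_iff]
  intro ε hε
  have hC1 : 0 < C + 1 := by linarith
  set δ := ε / (4 * (C + 1)) with hδ
  have hδ0 : 0 < δ := by positivity
  have hδC : δ * C ≤ ε / 4 := by
    have h1 : δ * (C + 1) = ε / 4 := by rw [hδ]; field_simp
    nlinarith
  obtain ⟨j, hj⟩ := hdense f hf δ hδ0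
  obtain ⟨L, hL⟩ := hconv j
  obtain ⟨N0, hN0⟩ := Metric.cauchySeq_iff.1 hL.cauchySeq (ε / 4) (by linarith)
  refine ⟨N0, fun m hm n hn => ?_⟩
  haveI := hfin m
  haveI := hfin n
  have h1 := exa_close (hsupp m) hf (hD j) hδ0.le hj (hC m)
  have h2 := exa_close (hsupp n) hf (hD j) hδ0.le hj (hC n)
  have h3 := hN0 m hm n hn
  rw [Real.dist_eq] at h3 ⊢
  rw [abs_le] at h1 h2
  rw [abs_lt] at h3 ⊢
  constructor <;> linarith [h1.1, h1.2, h2.1, h2.2, h3.1, h3.2]

/-- The masses are bounded (approximate the constant `1`), so `∫ f dν_N` is a Cauchy sequence for every continuous `f`.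
Existence of the limit measure: the measures live on the compact space `cube d`, finite measures of mass at most `C` on a compact metric space form a compact set
(`isCompact_setOfPred_finiteMeasure_le_of_compactSpace` in `Mathlib.MeasureTheory.Measure.Prokhorov`), a cluster point (subsequence) has the right integrals; or Riesz-Markov-Kakutani. -/
theorem exa (D : ℕ → E d → ℝ) (hD : ∀ j, Continuous (D j)) (hdense : ∀ f : E d → ℝ, Continuous f → ∀ ε : ℝ, 0 < ε → ∃ j, ∀ x ∈ cube d, |f x - D j x| ≤ ε)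
    (ν : ℕ → Measure (E d)) (hfin : ∀ N, IsFiniteMeasure (ν N)) (hsupp : ∀ N, ν N (cube d)ᶜ = 0) (hconv : ∀ j, ∃ L : ℝ, Tendsto (fun N => ∫ x, D j x ∂(ν N)) atTop (𝓝 L)) :
    ∃ μ : Measure (E d), IsFiniteMeasure μ ∧ μ (cube d)ᶜ = 0 ∧ ∀ f : E d → ℝ, Continuous f → Tendsto (fun N => ∫ x, f x ∂(ν N)) atTop (𝓝 (∫ x, f x ∂μ)) := by
  haveI hcs : CompactSpace (cube d) := isCompact_iff_compactSpace.1 isCompact_cube
  have hp : Continuous (fun x : E d => (⟨prj x, prj_mem x⟩ : cube d)) :=
    Continuous.subtype_mk prj_cont _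
  have hall := exa_conv D hD hdense ν hfin hsupp hconv
  have hex : ∀ g : CompactlySupportedContinuousMap (cube d) ℝ,
      ∃ L : ℝ, Tendsto (fun N => ∫ x, g ⟨prj x, prj_mem x⟩ ∂(ν N)) atTop (𝓝 L) :=
    fun g => hall _ (g.continuous.comp hp)
  choose Lam hLam using hex
  let Λ : CompactlySupportedContinuousMap (cube d) ℝ →ₚ[ℝ] ℝ :=
  { toFun := Lam
    map_add' := by
      intro g g'
      refine tendsto_nhds_unique (hLam (g + g')) ?_
      refine ((hLam g).add (hLam g')).congr (fun N => ?_)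
      haveI := hfin N
      have e := integral_add (μ := ν N) (f := fun x => g ⟨prj x, prj_mem x⟩)
        (g := fun x => g' ⟨prj x, prj_mem x⟩)
        (exa_int (hsupp N) (g.continuous.comp hp))
        (exa_int (hsupp N) (g'.continuous.comp hp))
      exact e.symm
    map_smul' := by
      intro c g
      refine tendsto_nhds_unique (hLam (c • g)) ?_
      refine ((hLam g).const_mul c).congr (fun N => ?_)
      rw [← integral_const_mul]
      rfl
    monotone' := by
      intro g g' hgg'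
      refine le_of_tendsto_of_tendsto' (hLam g) (hLam g') (fun N => ?_)
      haveI := hfin N
      exact integral_mono (exa_int (hsupp N) (g.continuous.comp hp))
        (exa_int (hsupp N) (g'.continuous.comp hp)) (fun x => hgg' _) }
  have hmem : MeasurableSet (cube d) := isCompact_cube.measurableSet
  refine ⟨(RealRMK.rieszMeasure Λ).map Subtype.val, ?_, ?_, ?_⟩
  · infer_instance
  · rw [Measure.map_apply measurable_subtype_coe hmem.compl]
    simp
  · intro f hf
    have h1 : ∫ x, f x ∂((RealRMK.rieszMeasure Λ).map Subtype.val) =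
        ∫ x : cube d, f x ∂(RealRMK.rieszMeasure Λ) :=
      integral_map measurable_subtype_coe.aemeasurable hf.aestronglyMeasurable
    let g : CompactlySupportedContinuousMap (cube d) ℝ :=
      { toFun := fun x => f x
        continuous_toFun := hf.comp continuous_subtype_val
        hasCompactSupport' := HasCompactSupport.of_compactSpace _ }
    have h2 : ∫ x : cube d, f x ∂(RealRMK.rieszMeasure Λ) = Lam g :=
      RealRMK.integral_rieszMeasure Λ g
    rw [h1, h2]
    refine (hLam g).congr (fun N => ?_)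
    refine integral_congr_ae ((exa_ae (hsupp N)).mono (fun x hx => ?_))
    show f (prj x) = f x
    rw [prj_eq x hx]

/-- open sets: inner regularity and a continuous function between the indicators of a closed subset and of `G` -/
theorem port_open (ν : ℕ → Measure (E d)) (μ : Measure (E d)) (hfin : ∀ N, IsFiniteMeasure (ν N)) (hμ : IsFiniteMeasure μ) (hsupp : ∀ N, ν N (cube d)ᶜ = 0) (hμs : μ (cube d)ᶜ = 0)
    (h : ∀ f : E d → ℝ, Continuous f → Tendsto (fun N => ∫ x, f x ∂(ν N)) atTop (𝓝 (∫ x, f x ∂μ))) (G : Set (E d)) (hG : IsOpen G) (η : ℝ) (hη : 0 < η) :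
    ∀ᶠ N in atTop, μ.real G - η ≤ (ν N).real G := by
  obtain ⟨K, hKG, hK, hKη⟩ := hG.measurableSet.exists_isClosed_sdiff_lt (μ := μ) (measure_ne_top _ _)
    (ε := ENNReal.ofReal (η / 2)) (by simp; linarith)
  have hKr : μ.real G - η / 2 ≤ μ.real K := by
    have h1 : μ.real (G \ K) = μ.real G - μ.real K := by
      rw [measureReal_sdiff hKG hK.measurableSet]
    have h2 : μ.real (G \ K) < η / 2 := by
      rw [Measure.real]
      have := (ENNReal.toReal_lt_toReal (measure_ne_top _ _) ENNReal.ofReal_ne_top).2 hKη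
      rwa [ENNReal.toReal_ofReal (by linarith)] at this
    linarith
  obtain ⟨f, hf0, hf1, hf⟩ := exists_continuous_zero_one_of_isClosed hG.isClosed_compl hK
    (Set.disjoint_left.2 (fun x hx hx' => hx (hKG hx')))
  have hfc : Continuous (fun x => f x) := f.continuous
  have h1 : μ.real K ≤ ∫ x, f x ∂μ := by
    have : ∫ x, K.indicator (fun _ => (1 : ℝ)) x ∂μ ≤ ∫ x, f x ∂μ := by
      refine integral_mono ((integrable_const (1 : ℝ)).indicator hK.measurableSet)
        (exa_int hμs hfc) (fun x => ?_)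
      by_cases hx : x ∈ K
      · rw [Set.indicator_of_mem hx, hf1 hx]
        simp
      · rw [Set.indicator_of_notMem hx]
        exact (hf x).1
    rwa [integral_indicator_const _ hK.measurableSet, smul_eq_mul, mul_one] at this
  have h2 : ∀ N, ∫ x, f x ∂(ν N) ≤ (ν N).real G := by
    intro N
    haveI := hfin N
    have : ∫ x, f x ∂(ν N) ≤ ∫ x, G.indicator (fun _ => (1 : ℝ)) x ∂(ν N) := by
      refine integral_mono (exa_int (hsupp N) hfc)
        ((integrable_const (1 : ℝ)).indicator hG.measurableSet) (fun x => ?_)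
      by_cases hx : x ∈ G
      · rw [Set.indicator_of_mem hx]
        exact (hf x).2
      · rw [Set.indicator_of_notMem hx, hf0 hx]
        simp
    rwa [integral_indicator_const _ hG.measurableSet, smul_eq_mul, mul_one] at this
  have h3 : ∀ᶠ N in atTop, (∫ x, f x ∂μ) - η / 2 < ∫ x, f x ∂(ν N) :=
    (h _ hfc).eventually (lt_mem_nhds (by linarith))
  filter_upwards [h3] with N hN
  have := h2 N
  linarith

/-- closed sets -/
theorem port_closed (ν : ℕ → Measure (E d)) (μ : Measure (E d)) (hfin : ∀ N, IsFiniteMeasure (ν N)) (hμ : IsFiniteMeasure μ) (hsupp : ∀ N, ν N (cube d)ᶜ = 0) (hμs : μ (cube d)ᶜ = 0)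
    (h : ∀ f : E d → ℝ, Continuous f → Tendsto (fun N => ∫ x, f x ∂(ν N)) atTop (𝓝 (∫ x, f x ∂μ))) (F : Set (E d)) (hF : IsClosed F) (η : ℝ) (hη : 0 < η) :
    ∀ᶠ N in atTop, (ν N).real F ≤ μ.real F + η := by
  have h1 := port_open ν μ hfin hμ hsupp hμs h Fᶜ hF.isOpen_compl (η / 2) (by linarith)
  have h2 : Tendsto (fun N => (ν N).real Set.univ) atTop (𝓝 (μ.real Set.univ)) := by
    have := h (fun _ => 1) continuous_const
    simpa using this
  have h3 : ∀ᶠ N in atTop, (ν N).real Set.univ < μ.real Set.univ + η / 2 :=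
    h2.eventually (gt_mem_nhds (by linarith))
  filter_upwards [h1, h3] with N hN1 hN2
  haveI := hfin N
  rw [measureReal_compl hF.measurableSet, measureReal_compl hF.measurableSet] at hN1
  linarith

end Pool.Agent.MChaos
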