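import Pool.Agent.Lib_MP_a91488.Defs
import Pool.Agent.Lib_MP_a91488.Abs

/-!
# MP_a91488_pr: internal definitions (fields on the whole space, weights, dyadic cubes)
-/

set_option autoImplicit false

open MeasureTheory ProbabilityTheory Filter Metric
open scoped Topology ENNReal

namespace Pool.Agent.MChaos

/-- clamp to the cube -/
noncomputable def prj {d : ℕ} (x : E d) : E d := WithLp.toLp 2 (fun i => max 0 (min 1 (x i)))

/-- conditions 1 to 5 for bounded continuous fields on the whole space (obtained from fields on the cube by `prj`) -/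
structure CP (d : ℕ) {Ω : Type} [MeasurableSpace Ω] (P : Measure Ω) (X : ℕ → Ω → E d → ℝ) : Prop where
  dpos : 0 < d
  meas : ∀ k x, Measurable (fun ω => X k ω x)
  cont : ∀ k ω, Continuous (X k ω)
  bdd : ∀ k ω, ∃ B : ℝ, ∀ x, |X k ω x| ≤ B
  indep : iIndepFun (fun (k : ℕ) (ω : Ω) (x : E d) => X k ω x) P
  mean : ∀ k x, ∫ ω, X k ω x ∂P = 0
  small : ∀ ε : ℝ, 0 < ε → ∃ K : ℕ, ∀ k, K ≤ k → ∀ x, ∫ ω, X k ω x ^ 2 ∂P ≤ ε
  div : ¬ Summable (fun k => ∫ ω, X k ω 0 ^ 2 ∂P)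
  cov : ∃ δ C : ℝ, 0 < δ ∧ ∀ n : ℕ, ∀ x ∈ cube d, ∀ y ∈ cube d, ‖x - y‖ ≤ δ →
    (x ≠ y → |∑ k ∈ Finset.range n, ∫ ω, X k ω x * X k ω y ∂P - min (Real.log (1 / ‖x - y‖)) (sig2 P X n)| ≤ C) ∧
    (x = y → |∑ k ∈ Finset.range n, ∫ ω, X k ω x ^ 2 ∂P - sig2 P X n| ≤ C)
  third : ∃ ε C : ℝ, 0 < ε ∧ ∀ x, ∀ n : ℕ, ∑ k ∈ Finset.range n, (∫ ω, |X k ω x| ^ (3 + ε) ∂P) ^ (3 / (3 + ε)) ≤ C
  lip : ∃ r₀ : ℝ, 0 < r₀ ∧ ∀ r : ℝ, r₀ ≤ r → ∃ C : ℝ, ∀ n : ℕ, ∀ x y,
    ∫ ω, |∑ k ∈ Finset.range n, (X k ω x - X k ω y)| ^ r ∂P ≤ C * Real.exp (r * sig2 P X n) * ‖x - y‖ ^ r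
  expo : ∀ t : ℝ, ∃ C : ℝ, ∀ k x, Integrable (fun ω => Real.exp (t * X k ω x)) P ∧ ∫ ω, Real.exp (t * X k ω x) ∂P ≤ C

section fields

variable {d : ℕ} {Ω : Type} [MeasurableSpace Ω] (P : Measure Ω) (X : ℕ → Ω → E d → ℝ)

/-- partial sums of the fields -/
noncomputable def SS (n N : ℕ) (ω : Ω) (x : E d) : ℝ := ∑ k ∈ Finset.Ico n N, X k ω x

/-- normalised exponential weights -/
noncomputable def wt (γ : ℝ) (k : ℕ) (ω : Ω) (x : E d) : ℝ := Real.exp (γ * X k ω x) / ∫ ω', Real.exp (γ * X k ω' x) ∂P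

/-- mass of the set `A` for the chaos built from the fields `n ≤ k < N` -/
noncomputable def TT (γ : ℝ) (n N : ℕ) (A : Set (E d)) (ω : Ω) : ℝ := ∫ x in A, ∏ k ∈ Finset.Ico n N, wt P X γ k ω x

/-- `Ω` with the sigma algebra generated by the field `k` -/
def SP (_X : ℕ → Ω → E d → ℝ) (_k : ℕ) : Type := Ω

instance (k : ℕ) : MeasurableSpace (SP X k) := MeasurableSpace.comap (fun (ω : Ω) (x : E d) => X k ω x) MeasurableSpace.pi

/-- `P` on `SP X k` -/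
noncomputable def PP (k : ℕ) : Measure (SP X k) := @Measure.map Ω (SP X k) _ _ (fun ω => ω) P

/-- the weight as a function on `SP X k` -/
noncomputable def wS (γ : ℝ) (k : ℕ) (ω : SP X k) (x : E d) : ℝ := wt P X γ k (ω : Ω) x

/-- sigma algebra of the fields `n ≤ k < N` -/
abbrev Fbl (n N : ℕ) : MeasurableSpace Ω := ⨆ k ∈ Finset.Ico n N, MeasurableSpace.comap (fun (ω : Ω) (x : E d) => X k ω x) MeasurableSpace.pi

/-- sigma algebra of the fields `k ≥ n` -/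
abbrev Fge (n : ℕ) : MeasurableSpace Ω := ⨆ k ∈ Set.Ici n, MeasurableSpace.comap (fun (ω : Ω) (x : E d) => X k ω x) MeasurableSpace.pi

/-- the number of fields which belong to the scale `2^(-t)`: the last `n` with `sig2 n ≤ t log 2 - log d / 2` -/
noncomputable def cut (t : ℕ) : ℕ := sInf {n : ℕ | (t : ℝ) * Real.log 2 - Real.log d / 2 < sig2 P X (n + 1)}

end fields

section cubes

variable {d : ℕ}

/-- indices of dyadic cubes -/
abbrev V (d : ℕ) := Fin d → ℕ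

/-- the indices of the dyadic cubes of level `m` in the unit cube -/
def Idx (d m : ℕ) : Finset (V d) := Fintype.piFinset (fun _ => Finset.range (2 ^ m))

/-- closed dyadic cube of level `m` -/
def cb (m : ℕ) (z : V d) : Set (E d) := {x | ∀ i, (z i : ℝ) / 2 ^ m ≤ x i ∧ x i ≤ ((z i : ℝ) + 1) / 2 ^ m}

/-- open neighbourhood of the dyadic cube -/
def nb (m : ℕ) (z : V d) : Set (E d) := {x | ∀ i, ((z i : ℝ) - 1) / 2 ^ m < x i ∧ x i < ((z i : ℝ) + 2) / 2 ^ m}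

/-- corner of the dyadic cube -/
noncomputable def cor (m : ℕ) (z : V d) : E d := WithLp.toLp 2 (fun i => (z i : ℝ) / 2 ^ m)

/-- the subcubes `j` levels below -/
def Chd (j : ℕ) (z : V d) : Finset (V d) := Fintype.piFinset (fun i => Finset.Ico (2 ^ j * z i) (2 ^ j * (z i + 1)))

/-- the subcubes `j` levels below with given parities -/
def Chp (j : ℕ) (z e : V d) : Finset (V d) := (Chd j z).filter (fun c => ∀ i, c i % 2 = e i)

/-- neighbours in the unit cube -/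
def Nbr (m : ℕ) (z : V d) : Finset (V d) := (Idx d m).filter (fun c => ∀ i, c i ≤ z i + 1 ∧ z i ≤ c i + 1)

end cubes

end Pool.Agent.MChaos
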