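import Pool.Agent.Lib_MP_a91488.UBB

/-!
# Piece UBC: upper bound of the dimension of level sets by moment sums, negative exponents (deterministic)
-/

set_option autoImplicit false

open MeasureTheory Metric Filter
open scoped Topology ENNReal

namespace Pool.Agent.MChaos

variable {d : ℕ}

private theorem ubc_final (S : Set (E d)) (s : ℝ) (Z : ℕ → Finset (V d))
    (hn : ∀ᶠ m : ℕ in atTop, ((Z m).card : ℝ) ≤ 2 ^ (s * m))
    (hc : ∀ x ∈ S, ∀ᶠ m : ℕ in atTop, x ∈ ⋃ z ∈ Z m, cb m z) :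
    (0 ≤ s → dimH S ≤ ENNReal.ofReal s) ∧ (s < 0 → S = ∅) := by
  constructor
  · intro hs
    have h1 : S ⊆ ⋃ m₀ : ℕ, {x ∈ S | ∀ m ≥ m₀, x ∈ ⋃ z ∈ Z m, cb m z} := by
      intro x hx
      obtain ⟨m₀, hm₀⟩ := eventually_atTop.1 (hc x hx)
      exact Set.mem_iUnion.2 ⟨m₀, hx, hm₀⟩
    refine (dimH_mono h1).trans ?_
    rw [dimH_iUnion]
    refine iSup_le fun m₀ => ?_
    refine dim_cover _ s hs Z ?_ hn
    filter_upwards [eventually_ge_atTop m₀] with m hm x hx
    exact hx.2 m hm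
  · intro hs
    by_contra hne
    obtain ⟨x, hx⟩ := Set.nonempty_iff_ne_empty.2 hne
    obtain ⟨m, hm1, hm2, hm3⟩ := ((hc x hx).and (hn.and (eventually_ge_atTop 1))).exists
    have h2 : (2 : ℝ) ^ (s * m) < 1 := by
      apply Real.rpow_lt_one_of_one_lt_of_neg (by norm_num)
      have : (1 : ℝ) ≤ m := by exact_mod_cast hm3
      nlinarith
    have h3 : ((Z m).card : ℝ) < 1 := lt_of_le_of_lt hm2 h2
    have h4 : (Z m).card = 0 := by
      have : (Z m).card < 1 := by exact_mod_cast h3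
      omega
    have h5 : Z m = ∅ := Finset.card_eq_zero.1 h4
    rw [h5] at hm1
    simp at hm1

private theorem ubc_rad (hd : 0 < d) :
    Tendsto (fun m : ℕ => 2 * Real.sqrt d / 2 ^ m) atTop (𝓝[>] (0 : ℝ)) := by
  rw [tendsto_nhdsWithin_iff]
  constructor
  · have h := tendsto_pow_atTop_nhds_zero_of_lt_one (r := (1 / 2 : ℝ)) (by norm_num) (by norm_num)
    have h2 := h.const_mul (2 * Real.sqrt d)
    rw [mul_zero] at h2
    refine h2.congr fun m => ?_
    rw [one_div, inv_pow]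
    rfl
  · refine Eventually.of_forall fun m => ?_
    have : 0 < Real.sqrt d := Real.sqrt_pos.2 (by exact_mod_cast hd)
    exact Set.mem_Ioi.2 (by positivity)

private theorem ubc_key (hd : 0 < d) (μ : Measure (E d)) (hμ : IsFiniteMeasure μ) (q κ : ℝ)
    (hq : q < 0)
    (h : ∀ᶠ m : ℕ in atTop, (∀ z ∈ Idx d m, 0 < μ.real (cb m z)) ∧
      ∑ z ∈ Idx d m, μ.real (cb m z) ^ q ≤ 2 ^ (-κ * m)) (α η : ℝ) (hη : 0 < η) :
    ∃ Z : ℕ → Finset (V d),
      (∀ᶠ m : ℕ in atTop, ((Z m).card : ℝ) ≤ 2 ^ ((q * α - κ + (-q + 1) * η) * m)) ∧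
      ∀ x ∈ Lev μ α, ∀ᶠ m : ℕ in atTop, x ∈ ⋃ z ∈ Z m, cb m z := by
  classical
  have hsd : 0 < Real.sqrt d := Real.sqrt_pos.2 (by exact_mod_cast hd)
  refine ⟨fun m => (Idx d m).filter
    (fun z => μ.real (cb m z) ≤ (2 * Real.sqrt d / 2 ^ m) ^ (α - η)), ?_, ?_⟩
  · set C : ℝ := (2 * Real.sqrt d) ^ (-(q * (α - η))) with hC
    have hC0 : 0 < C := by positivity
    have hCm : ∀ᶠ m : ℕ in atTop, C ≤ 2 ^ (η * m) := by
      have h1 : Tendsto (fun m : ℕ => (2 : ℝ) ^ (η * m)) atTop atTop := by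
        have h2 : Tendsto (fun m : ℕ => ((2 : ℝ) ^ η) ^ m) atTop atTop :=
          tendsto_pow_atTop_atTop_of_one_lt (Real.one_lt_rpow (by norm_num) hη)
        refine h2.congr fun m => ?_
        rw [Real.rpow_mul (by norm_num), Real.rpow_natCast]
      exact h1.eventually_ge_atTop C
    filter_upwards [h, hCm] with m hm hm2
    set Zm := (Idx d m).filter
      (fun z => μ.real (cb m z) ≤ (2 * Real.sqrt d / 2 ^ m) ^ (α - η)) with hZm
    set r : ℝ := 2 * Real.sqrt d / 2 ^ m with hr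
    have hr0 : 0 < r := by positivity
    have h3 : (Zm.card : ℝ) * (r ^ (α - η)) ^ q ≤ 2 ^ (-κ * m) := by
      calc (Zm.card : ℝ) * (r ^ (α - η)) ^ q = ∑ z ∈ Zm, (r ^ (α - η)) ^ q := by
            rw [Finset.sum_const, nsmul_eq_mul]
        _ ≤ ∑ z ∈ Zm, μ.real (cb m z) ^ q := by
            refine Finset.sum_le_sum fun z hz => ?_
            have hz' := Finset.mem_filter.1 hz
            exact Real.rpow_le_rpow_of_nonpos (hm.1 z hz'.1) hz'.2 hq.le
        _ ≤ ∑ z ∈ Idx d m, μ.real (cb m z) ^ q :=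
            Finset.sum_le_sum_of_subset_of_nonneg (Finset.filter_subset _ _)
              fun z _ _ => by positivity
        _ ≤ _ := hm.2
    have h4 : (r ^ (α - η)) ^ q = r ^ (q * (α - η)) := by
      rw [← Real.rpow_mul hr0.le, mul_comm]
    have h5 : r ^ (-(q * (α - η))) = C * 2 ^ (q * (α - η) * m) := by
      rw [hr, Real.div_rpow (by positivity) (by positivity), hC, div_eq_mul_inv]
      congr 1
      rw [← Real.rpow_natCast, ← Real.rpow_mul (by norm_num), ← Real.rpow_neg (by norm_num)]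
      congr 1
      ring
    have h6 : (Zm.card : ℝ) ≤ 2 ^ (-κ * m) * (C * 2 ^ (q * (α - η) * m)) := by
      rw [← h5, Real.rpow_neg hr0.le, ← div_eq_mul_inv, le_div_iff₀ (by positivity), ← h4]
      exact h3
    refine h6.trans ?_
    calc (2 : ℝ) ^ (-κ * m) * (C * 2 ^ (q * (α - η) * m))
        ≤ 2 ^ (-κ * m) * (2 ^ (η * m) * 2 ^ (q * (α - η) * m)) := by gcongr
      _ = 2 ^ ((q * α - κ + (-q + 1) * η) * m) := by
          rw [← Real.rpow_add (by norm_num), ← Real.rpow_add (by norm_num)]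
          congr 1
          ring
  · intro x hx
    obtain ⟨hxc, hpos, hlim⟩ := hx
    have h1 := hlim.comp (ubc_rad hd)
    have h2 : ∀ᶠ m : ℕ in atTop, α - η <
        Real.log (μ.real (ball x (2 * Real.sqrt d / 2 ^ m))) /
          Real.log (2 * Real.sqrt d / 2 ^ m) := h1.eventually (lt_mem_nhds (by linarith))
    have h3 : ∀ᶠ m : ℕ in atTop, 2 * Real.sqrt d / 2 ^ m < 1 := by
      have := (tendsto_nhdsWithin_iff.1 (ubc_rad hd)).1
      exact this.eventually (gt_mem_nhds (by norm_num))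
    filter_upwards [h2, h3] with m hm2 hm3
    obtain ⟨z, hz, hxz⟩ := cube_cover m x hxc
    refine Set.mem_iUnion₂.2 ⟨z, Finset.mem_filter.2 ⟨hz, ?_⟩, hxz⟩
    set r : ℝ := 2 * Real.sqrt d / 2 ^ m with hr
    have hr0 : 0 < r := by positivity
    have hlog : Real.log r < 0 := Real.log_neg hr0 hm3
    have hb : 0 < μ.real (ball x r) :=
      ENNReal.toReal_pos (hpos r hr0).ne' (measure_ne_top μ _)
    have h4 : Real.log (μ.real (ball x r)) < (α - η) * Real.log r := by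
      rwa [lt_div_iff_of_neg hlog] at hm2
    have h5 : μ.real (ball x r) ≤ r ^ (α - η) := by
      rw [Real.rpow_def_of_pos hr0]
      have := Real.exp_le_exp.2 h4.le
      rw [Real.exp_log hb] at this
      rwa [mul_comm (Real.log r)]
    refine le_trans (measureReal_mono ?_ (measure_ne_top μ _)) h5
    intro y hy
    rw [mem_ball, dist_eq_norm]
    refine lt_of_le_of_lt (cb_diam m z y x hy hxz) ?_
    rw [hr]
    have : Real.sqrt d < 2 * Real.sqrt d := by linarith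
    gcongr

/-- As `ubb`. Let `x ∈ Lev μ α`, `η > 0`, `x ∈ cb m z`: `cb m z ⊆ ball x (2 √d 2^(-m))` (`cb_diam`, `0 < d`), so `μ (cb m z) ≤ (2 √d 2^(-m))^(α - η)` for large `m` (the local dimension is `α`), hence `μ (cb m z)^q ≥ C 2^(-m q (α - η))`
(`q < 0`), and the number of such `z` is at most `C' 2^(m (q (α - η) - κ))`. -/
theorem ubc (hd : 0 < d) (μ : Measure (E d)) (hμ : IsFiniteMeasure μ) (q κ : ℝ) (hq : q < 0)
    (h : ∀ᶠ m : ℕ in atTop, (∀ z ∈ Idx d m, 0 < μ.real (cb m z)) ∧ ∑ z ∈ Idx d m, μ.real (cb m z) ^ q ≤ 2 ^ (-κ * m)) (α : ℝ) :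
    dimH (Lev μ α) ≤ ENNReal.ofReal (q * α - κ) ∧ (q * α - κ < 0 → Lev μ α = ∅) := by
  have hq1 : 0 < -q + 1 := by linarith
  have key : ∀ η : ℝ, 0 < η →
      (0 ≤ q * α - κ + (-q + 1) * η →
        dimH (Lev μ α) ≤ ENNReal.ofReal (q * α - κ + (-q + 1) * η)) ∧
      (q * α - κ + (-q + 1) * η < 0 → Lev μ α = ∅) := by
    intro η hη
    obtain ⟨Z, hZ1, hZ2⟩ := ubc_key hd μ hμ q κ hq h α η hη
    exact ubc_final (Lev μ α) _ Z hZ1 hZ2
  have hneg : q * α - κ < 0 → Lev μ α = ∅ := by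
    intro h0
    refine (key ((-(q * α - κ)) / (2 * (-q + 1))) (by apply div_pos <;> linarith)).2 ?_
    have : (-q + 1) * ((-(q * α - κ)) / (2 * (-q + 1))) = -(q * α - κ) / 2 := by
      field_simp
    rw [this]
    linarith
  refine ⟨?_, hneg⟩
  rcases lt_or_ge (q * α - κ) 0 with h0 | h0
  · rw [hneg h0, dimH_empty]
    exact zero_le
  · refine ENNReal.le_of_forall_pos_le_add fun ε hε _ => ?_
    have hε' : (0 : ℝ) < ε := hε
    have h1 := (key (ε / (-q + 1)) (by positivity)).1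
    have h2 : (-q + 1) * ((ε : ℝ) / (-q + 1)) = ε := by field_simp
    rw [h2] at h1
    refine (h1 (by linarith)).trans ?_
    rw [ENNReal.ofReal_add h0 hε'.le, ENNReal.ofReal_coe_nnreal]

end Pool.Agent.MChaos
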