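import Pool.Agent.Lib_MP_a91488.Defs

/-!
# Piece UBD: optimisation over the exponent
-/

set_option autoImplicit false

open Filter
open scoped Topology ENNReal

namespace Pool.Agent.MChaos

variable {d : ℕ}

/-- rational points close to a point of `[-s, s]`, inside the open interval and nonzero -/
theorem ubd_rat (s x ε : ℝ) (hs : 0 < s) (hx : |x| ≤ s) (hε : 0 < ε) :
    ∃ q : ℚ, q ≠ 0 ∧ |(q : ℝ)| < s ∧ |(q : ℝ) - x| < ε := by
  obtain ⟨h1, h2⟩ := abs_le.1 hx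
  rcases lt_trichotomy x 0 with h | h | h
  · obtain ⟨q, hq1, hq2⟩ := exists_rat_btwn (show x < min 0 (x + ε) from lt_min h (by linarith))
    have ha := lt_of_lt_of_le hq2 (min_le_left _ _)
    have hb := lt_of_lt_of_le hq2 (min_le_right _ _)
    refine ⟨q, ?_, ?_, ?_⟩
    · intro h0; rw [h0] at ha; simp at ha
    · rw [abs_lt]; constructor <;> linarith
    · rw [abs_lt]; constructor <;> linarith
  · obtain ⟨q, hq1, hq2⟩ := exists_rat_btwn (show (0 : ℝ) < min s ε from lt_min hs hε)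
    have ha := lt_of_lt_of_le hq2 (min_le_left _ _)
    have hb := lt_of_lt_of_le hq2 (min_le_right _ _)
    refine ⟨q, ?_, ?_, ?_⟩
    · intro h0; rw [h0] at hq1; simp at hq1
    · rw [abs_lt]; constructor <;> linarith
    · rw [h, abs_lt]; constructor <;> linarith
  · obtain ⟨q, hq1, hq2⟩ := exists_rat_btwn (show max 0 (x - ε) < x from max_lt h (by linarith))
    have ha := lt_of_le_of_lt (le_max_left _ _) hq1
    have hb := lt_of_le_of_lt (le_max_right _ _) hq1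
    refine ⟨q, ?_, ?_, ?_⟩
    · intro h0; rw [h0] at ha; simp at ha
    · rw [abs_lt]; constructor <;> linarith
    · rw [abs_lt]; constructor <;> linarith

/-- Write `α = d + β^2/2 - β γ`, i.e. `γ = (d + β^2/2 - α)/β`; then `g(q) = q α - ξ(q) = d - q β γ + q^2 β^2/2`, `ξ(q) = d q + q β^2/2 - q^2 β^2/2 - d`, continuous in `q`; the hypothesis holds for rational `q ≠ 0` with `|q| β < √(2d)`.
`|γ| ≤ √(2d)`: choose rational `q → γ/β` in the open interval: `g → d - γ^2/2`. `|γ| > √(2d)`: `q → ± √(2d)/β` (sign of `γ`): `g → 2 d - √(2d) |γ| < 0`, so `g(q) + 1/(j+1) < 0` for some admissible `q`, `j` -/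
theorem ubd (hd : 0 < d) (β : ℝ) (hβ0 : 0 < β) (hβ : β ^ 2 < 2 * d) (L : ℝ → Set (E d))
    (h : ∀ (q : ℚ) (j : ℕ), q ≠ 0 → |(q : ℝ)| * β < Real.sqrt (2 * d) → ∀ α : ℝ,
      dimH (L α) ≤ ENNReal.ofReal (q * α - (d * q + q * β ^ 2 / 2 - q ^ 2 * β ^ 2 / 2 - d - 1 / (j + 1))) ∧
      (q * α - (d * q + q * β ^ 2 / 2 - q ^ 2 * β ^ 2 / 2 - d - 1 / (j + 1)) < 0 → L α = ∅)) (α : ℝ) :
    (|α - d - β ^ 2 / 2| ≤ β * Real.sqrt (2 * d) → dimH (L α) ≤ ENNReal.ofReal (d - (d + β ^ 2 / 2 - α) ^ 2 / (2 * β ^ 2))) ∧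
      (β * Real.sqrt (2 * d) < |α - d - β ^ 2 / 2| → L α = ∅) := by
  set S : ℝ := Real.sqrt (2 * d) with hS
  have hdR : (0 : ℝ) < d := by exact_mod_cast hd
  have hSpos : 0 < S := Real.sqrt_pos.2 (by linarith)
  have hSsq : S ^ 2 = 2 * d := Real.sq_sqrt (by linarith)
  obtain ⟨γ, hγ⟩ : ∃ γ : ℝ, β * γ = d + β ^ 2 / 2 - α := ⟨(d + β ^ 2 / 2 - α) / β, by field_simp⟩
  have habs : |α - d - β ^ 2 / 2| = β * |γ| := by
    rw [show α - d - β ^ 2 / 2 = -(β * γ) by rw [hγ]; ring, abs_neg, abs_mul, abs_of_pos hβ0]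
  have hgam : (d + β ^ 2 / 2 - α) ^ 2 / (2 * β ^ 2) = γ ^ 2 / 2 := by
    rw [← hγ]; field_simp
  have hf : ∀ (q : ℝ) (t : ℝ), q * α - (d * q + q * β ^ 2 / 2 - q ^ 2 * β ^ 2 / 2 - d - t)
      = d - γ ^ 2 / 2 + (q * β - γ) ^ 2 / 2 + t := by
    intro q t
    have hα : α = d + β ^ 2 / 2 - β * γ := by linarith
    rw [hα]; ring
  rw [habs, hgam]
  constructor
  · intro hle
    have hγS : |γ| ≤ S := le_of_mul_le_mul_left hle hβ0
    apply ENNReal.le_of_forall_pos_le_add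
    intro ε hε _
    have hε' : (0 : ℝ) < ε := hε
    obtain ⟨j, hj⟩ := exists_nat_one_div_lt (show (0 : ℝ) < ε / 2 by linarith)
    -- want (qβ - γ)^2/2 ≤ ε/2
    have hsq : 0 < Real.sqrt (ε : ℝ) := Real.sqrt_pos.2 hε'
    obtain ⟨q, hq0, hq1, hq2⟩ := ubd_rat (S / β) (γ / β) (Real.sqrt ε / β) (by positivity)
      (by rw [abs_div, abs_of_pos hβ0]; gcongr) (by positivity)
    have hq1' : |(q : ℝ)| * β < S := by rwa [lt_div_iff₀ hβ0] at hq1
    have hq2' : |(q : ℝ) * β - γ| < Real.sqrt ε := by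
      have : (q : ℝ) * β - γ = ((q : ℝ) - γ / β) * β := by field_simp
      rw [this, abs_mul, abs_of_pos hβ0]
      rwa [lt_div_iff₀ hβ0] at hq2
    have hq3 : ((q : ℝ) * β - γ) ^ 2 ≤ ε := by
      have := sq_lt_sq' (by linarith [(abs_lt.1 hq2').1]) (abs_lt.1 hq2').2
      rw [Real.sq_sqrt hε'.le] at this
      exact this.le
    refine ((h q j hq0 hq1' α).1).trans ?_
    rw [hf]
    have : ENNReal.ofReal (d - γ ^ 2 / 2) + (ε : ℝ≥0∞) = ENNReal.ofReal (d - γ ^ 2 / 2) + ENNReal.ofReal (ε : ℝ) := by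
      rw [ENNReal.ofReal_coe_nnreal]
    rw [this]
    refine le_trans ?_ (ENNReal.ofReal_add_le)
    apply ENNReal.ofReal_le_ofReal
    have hj' : (1 : ℝ) / ((j : ℝ) + 1) < ε / 2 := hj
    linarith
  · intro hlt
    have hγS : S < |γ| := lt_of_mul_lt_mul_left hlt hβ0.le
    have hγpos : 0 < |γ| := lt_trans hSpos hγS
    -- t in (S^2/|γ|, S)
    have key : ∃ q : ℚ, q ≠ 0 ∧ |(q : ℝ)| * β < S ∧ S ^ 2 < (q : ℝ) * β * γ := by
      have h1 : S ^ 2 / |γ| / β < S / β := by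
        apply div_lt_div_of_pos_right _ hβ0
        rw [div_lt_iff₀ hγpos]; nlinarith
      obtain ⟨q, hq1, hq2⟩ := exists_rat_btwn h1
      have hqpos : (0 : ℝ) < q := lt_of_le_of_lt (by positivity) hq1
      have hq1' : S ^ 2 < q * β * |γ| := by
        rw [div_lt_iff₀ hβ0, div_lt_iff₀ hγpos] at hq1
        linarith
      have hq2' : (q : ℝ) * β < S := by rwa [lt_div_iff₀ hβ0] at hq2
      rcases le_total 0 γ with hg | hg
      · refine ⟨q, by intro h0; rw [h0] at hqpos; simp at hqpos, by rwa [abs_of_pos hqpos], ?_⟩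
        rwa [abs_of_nonneg hg] at hq1'
      · refine ⟨-q, by intro h0; rw [neg_eq_zero.1 h0] at hqpos; simp at hqpos, ?_, ?_⟩
        · push_cast; rw [abs_neg, abs_of_pos hqpos]; exact hq2'
        · rw [abs_of_nonpos hg] at hq1'; push_cast; linarith
    obtain ⟨q, hq0, hq1, hq2⟩ := key
    obtain ⟨j, hj⟩ := exists_nat_one_div_lt (show (0 : ℝ) < q * β * γ - S ^ 2 by linarith)
    refine (h q j hq0 hq1 α).2 ?_
    rw [hf]
    have hj' : (1 : ℝ) / ((j : ℝ) + 1) < q * β * γ - S ^ 2 := hj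
    have hsq : ((q : ℝ) * β) ^ 2 ≤ S ^ 2 := by
      have : |(q : ℝ) * β| < S := by rw [abs_mul, abs_of_pos hβ0]; exact hq1
      exact sq_le_sq' (by linarith [(abs_lt.1 this).1]) (abs_lt.1 this).2.le
    nlinarith
end Pool.Agent.MChaos
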