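import Pool.Agent.Lib_MP_a91488.MUN
import Pool.Agent.Lib_MP_a91488.EXA
import Pool.Agent.Lib_MP_a91488.DYA

/-!
# Piece UBH: moment sums of the limit measure (deterministic)
-/

set_option autoImplicit false

open MeasureTheory ProbabilityTheory Filter
open scoped Topology

namespace Pool.Agent.MChaos

variable {d : ℕ} {Ω : Type} [MeasurableSpace Ω] {P : Measure Ω} [IsProbabilityMeasure P] {X : ℕ → Ω → E d → ℝ}

/-- `μ` is the weak limit of `μ_n` at `ω` -/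
structure WL (P : Measure Ω) (X : ℕ → Ω → E d → ℝ) (β : ℝ) (ω : Ω) (μ : Measure (E d)) : Prop where
  fin : IsFiniteMeasure μ
  supp : μ (cube d)ᶜ = 0
  lim : ∀ f : E d → ℝ, Continuous f → Tendsto (fun N => ∫ x, f x ∂(muN P X β N ω)) atTop (𝓝 (∫ x, f x ∂μ))

/-- existence almost surely: `exd`, `mf_conv`, `exa` -/
theorem wl_exists (hX : CP d P X) (β : ℝ) : ∀ᵐ ω ∂P, ∃ μ : Measure (E d), WL P X β ω μ := by
  obtain ⟨D, hD, hB, hdense⟩ := exd (d := d)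
  have h : ∀ j, ∀ᵐ ω ∂P, ∃ L : ℝ, Tendsto (fun N => MF P X β (D j) 0 N ω) atTop (𝓝 L) := by
    intro j
    obtain ⟨B, hB⟩ := hB j
    exact mf_conv hX β B (D j) (hD j).measurable hB 0
  filter_upwards [ae_all_iff.2 h] with ω hω
  obtain ⟨μ, h1, h2, h3⟩ := exa D hD hdense (fun N => muN P X β N ω) (fun N => muN_fin hX β N ω)
    (fun N => muN_supp β N ω) (fun j => by
      obtain ⟨L, hL⟩ := hω j
      exact ⟨L, hL.congr fun N => (muN_int hX β N ω (D j)).symm⟩)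
  exact ⟨μ, ⟨h1, h2, h3⟩⟩

private theorem ubh_vol (m : ℕ) (z : V d) : volume (cb m z) ≠ ⊤ := by
  rw [cb_vol]
  exact ENNReal.ofReal_ne_top

private theorem ubh_volp (m : ℕ) (z : V d) : volume (cb m z) ≠ 0 := by
  rw [cb_vol]
  simp

/-- `port_open`, `muN_real`, `nb_cover`: for `η > 0` and large `N`, `μ (nb m z) - η ≤ ∑_{c ∈ Nbr m z} TT (cb m c)` -/
theorem wl_nb (hX : CP d P X) (β : ℝ) (ω : Ω) (μ : Measure (E d)) (h : WL P X β ω μ) (m : ℕ) (η : ℝ) (hη : 0 < η) :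
    ∀ᶠ N in atTop, ∀ z ∈ Idx d m, μ.real (nb m z) - η ≤ ∑ c ∈ Nbr m z, TT P X β 0 N (cb m c) ω := by
  rw [Filter.eventually_all_finset]
  intro z _
  have h1 := port_open (fun N => muN P X β N ω) μ (fun N => muN_fin hX β N ω) h.fin
    (fun N => muN_supp β N ω) h.supp h.lim (nb m z) (nb_open m z) η hη
  filter_upwards [h1] with N hN
  rw [muN_real hX β N ω (nb m z) (nb_open m z).measurableSet] at hN
  refine hN.trans ?_
  rw [← tt_union hX β 0 N ω (Nbr m z) (fun c => cb m c) (fun c _ => cb_meas _ _)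
    (fun c _ => ubh_vol m c) (fun c _ c' _ hn => cb_inter_null _ _ _ hn)]
  refine tt_mono hX β 0 N ω _ _ ?_ ?_
  · rintro x ⟨hx1, hx2⟩
    obtain ⟨c, hc, hxc⟩ := nb_cover m z x hx1 hx2
    exact Set.mem_iUnion₂.2 ⟨c, hc, hxc⟩
  · refine ne_top_of_le_ne_top ?_ (measure_biUnion_finset_le (Nbr m z) (fun c => cb m c))
    exact ENNReal.sum_ne_top.2 fun c _ => ubh_vol m c

/-- `port_closed` -/
theorem wl_cb (hX : CP d P X) (β : ℝ) (ω : Ω) (μ : Measure (E d)) (h : WL P X β ω μ) (m : ℕ) (η : ℝ) (hη : 0 < η) :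
    ∀ᶠ N in atTop, ∀ z ∈ Idx d m, TT P X β 0 N (cb m z) ω ≤ μ.real (cb m z) + η := by
  rw [Filter.eventually_all_finset]
  intro z hz
  have h1 := port_closed (fun N => muN P X β N ω) μ (fun N => muN_fin hX β N ω) h.fin
    (fun N => muN_supp β N ω) h.supp h.lim (cb m z) (cb_closed m z) η hη
  filter_upwards [h1] with N hN
  rw [muN_real hX β N ω (cb m z) (cb_meas m z), Set.inter_eq_left.2 (cb_sub m z hz)] at hN
  exact hN

private theorem ubh_sum (q : ℝ) (hq : 0 < q) (m : ℕ) (z : V d) (t : V d → ℝ) (ht : ∀ c, 0 ≤ t c) :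
    (∑ c ∈ Nbr m z, t c) ^ q ≤ (3 : ℝ) ^ (d * q) * ∑ c ∈ Nbr m z, t c ^ q := by
  have ht' : ∀ c ∈ Nbr m z, 0 ≤ t c ^ q := fun c _ => Real.rpow_nonneg (ht c) q
  rcases (Nbr m z).eq_empty_or_nonempty with h | h
  · rw [h]
    simp [Real.zero_rpow hq.ne']
  · obtain ⟨c, hc, hmax⟩ := Finset.exists_max_image (Nbr m z) t h
    have h1 : ∑ c ∈ Nbr m z, t c ≤ 3 ^ d * t c := by
      calc ∑ c ∈ Nbr m z, t c ≤ ∑ _c ∈ Nbr m z, t c := Finset.sum_le_sum hmax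
        _ = (Nbr m z).card * t c := by rw [Finset.sum_const, nsmul_eq_mul]
        _ ≤ 3 ^ d * t c := by
          refine mul_le_mul_of_nonneg_right ?_ (ht c)
          exact_mod_cast Nbr_card m z
    calc (∑ c ∈ Nbr m z, t c) ^ q ≤ (3 ^ d * t c) ^ q :=
          Real.rpow_le_rpow (Finset.sum_nonneg fun c _ => ht c) h1 hq.le
      _ = (3 : ℝ) ^ (d * q) * t c ^ q := by
          rw [Real.mul_rpow (by positivity) (ht c), Real.rpow_mul (by norm_num), Real.rpow_natCast]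
      _ ≤ (3 : ℝ) ^ (d * q) * ∑ c ∈ Nbr m z, t c ^ q :=
          mul_le_mul_of_nonneg_left (Finset.single_le_sum ht' hc) (by positivity)

private theorem ubh_swap (m : ℕ) (s : V d → ℝ) (hs : ∀ c, 0 ≤ s c) :
    ∑ z ∈ Idx d m, ∑ c ∈ Nbr m z, s c ≤ 3 ^ d * ∑ c ∈ Idx d m, s c := by
  have h : ∑ z ∈ Idx d m, ∑ c ∈ Nbr m z, s c = ∑ c ∈ Idx d m, ∑ _z ∈ Nbr m c, s c := by
    refine Finset.sum_comm' fun z c => ?_
    constructor
    · rintro ⟨hz, hc⟩
      exact ⟨(Nbr_symm m z c hz hc).2, (Nbr_symm m z c hz hc).1⟩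
    · rintro ⟨hz, hc⟩
      exact ⟨(Nbr_symm m c z hc hz).1, (Nbr_symm m c z hc hz).2⟩
  rw [h, Finset.mul_sum]
  refine Finset.sum_le_sum fun c _ => ?_
  rw [Finset.sum_const, nsmul_eq_mul]
  refine mul_le_mul_of_nonneg_right ?_ (hs c)
  exact_mod_cast Nbr_card m c

/-- for `η → 0`: `∑_z (μ (nb m z) - η)_+^q ≤ ∑_z (∑_{c ∈ Nbr m z} TT_c)^q ≤ ∑_z (3^d)^q ∑_{c ∈ Nbr m z} TT_c^q ≤ 3^(d q) 3^d B` for some (frequently many) `N`; `Nbr_symm`, `Nbr_card` -/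
theorem ubh_pos (hX : CP d P X) (β q : ℝ) (hq : 0 < q) (ω : Ω) (μ : Measure (E d)) (h : WL P X β ω μ) (m : ℕ) (B : ℝ)
    (hB : ∃ᶠ N : ℕ in atTop, ∑ z ∈ Idx d m, TT P X β 0 N (cb m z) ω ^ q ≤ B) :
    ∑ z ∈ Idx d m, μ.real (nb m z) ^ q ≤ 3 ^ (d * (q + 1)) * B := by
  have hc : (3 : ℝ) ^ (d * (q + 1)) = (3 : ℝ) ^ (d * q) * 3 ^ d := by
    rw [mul_add, mul_one, Real.rpow_add (by norm_num), Real.rpow_natCast]
  have h1 : ∀ η : ℝ, 0 < η → ∑ z ∈ Idx d m, (max (μ.real (nb m z) - η) 0) ^ q ≤ 3 ^ (d * (q + 1)) * B := by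
    intro η hη
    obtain ⟨N, hN1, hN2⟩ := (hB.and_eventually (wl_nb hX β ω μ h m η hη)).exists
    have ht : ∀ c : V d, 0 ≤ TT P X β 0 N (cb m c) ω := fun c => tt_nonneg hX β 0 N ω _
    calc ∑ z ∈ Idx d m, (max (μ.real (nb m z) - η) 0) ^ q
        ≤ ∑ z ∈ Idx d m, (∑ c ∈ Nbr m z, TT P X β 0 N (cb m c) ω) ^ q := by
          refine Finset.sum_le_sum fun z hz => ?_
          refine Real.rpow_le_rpow (le_max_right _ _) ?_ hq.le
          exact max_le (hN2 z hz) (Finset.sum_nonneg fun c _ => ht c)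
      _ ≤ ∑ z ∈ Idx d m, (3 : ℝ) ^ (d * q) * ∑ c ∈ Nbr m z, TT P X β 0 N (cb m c) ω ^ q :=
          Finset.sum_le_sum fun z _ => ubh_sum q hq m z _ ht
      _ = (3 : ℝ) ^ (d * q) * ∑ z ∈ Idx d m, ∑ c ∈ Nbr m z, TT P X β 0 N (cb m c) ω ^ q := by
          rw [Finset.mul_sum]
      _ ≤ (3 : ℝ) ^ (d * q) * (3 ^ d * ∑ c ∈ Idx d m, TT P X β 0 N (cb m c) ω ^ q) :=
          mul_le_mul_of_nonneg_left (ubh_swap m _ fun c => Real.rpow_nonneg (ht c) q) (by positivity)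
      _ ≤ (3 : ℝ) ^ (d * q) * (3 ^ d * B) := by
          refine mul_le_mul_of_nonneg_left ?_ (by positivity)
          exact mul_le_mul_of_nonneg_left hN1 (by positivity)
      _ = 3 ^ (d * (q + 1)) * B := by rw [hc, mul_assoc]
  have h2 : Tendsto (fun η : ℝ => ∑ z ∈ Idx d m, (max (μ.real (nb m z) - η) 0) ^ q) (𝓝[>] 0)
      (𝓝 (∑ z ∈ Idx d m, μ.real (nb m z) ^ q)) := by
    refine tendsto_finsetSum _ fun z _ => ?_
    have h3 : Continuous fun η : ℝ => (max (μ.real (nb m z) - η) 0) ^ q :=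
      ((continuous_const.sub continuous_id).max continuous_const).rpow_const fun _ => Or.inr hq.le
    have h4 := h3.tendsto 0
    rw [sub_zero, max_eq_left measureReal_nonneg] at h4
    exact h4.mono_left nhdsWithin_le_nhds
  exact le_of_tendsto h2 (eventually_nhdsWithin_of_forall fun η hη => h1 η hη)

/-- for all `η > 0`: `∑_z (μ (cb m z) + η)^q ≤ B` (`q < 0`); if `μ (cb m z) = 0` then `η^q ≤ B` for all `η > 0`, impossible; let `η → 0` -/
theorem ubh_neg (hX : CP d P X) (β q : ℝ) (hq : q < 0) (ω : Ω) (μ : Measure (E d)) (h : WL P X β ω μ) (m : ℕ) (B : ℝ)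
    (hB : ∃ᶠ N : ℕ in atTop, ∑ z ∈ Idx d m, TT P X β 0 N (cb m z) ω ^ q ≤ B) :
    (∀ z ∈ Idx d m, 0 < μ.real (cb m z)) ∧ ∑ z ∈ Idx d m, μ.real (cb m z) ^ q ≤ B := by
  have h1 : ∀ η : ℝ, 0 < η → ∑ z ∈ Idx d m, (μ.real (cb m z) + η) ^ q ≤ B := by
    intro η hη
    obtain ⟨N, hN1, hN2⟩ := (hB.and_eventually (wl_cb hX β ω μ h m η hη)).exists
    refine le_trans (Finset.sum_le_sum fun z hz => ?_) hN1
    exact Real.rpow_le_rpow_of_nonpos (tt_pos hX β 0 N ω _ (cb_meas m z) (ubh_vol m z) (ubh_volp m z))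
      (hN2 z hz) hq.le
  have h2 : ∀ z ∈ Idx d m, 0 < μ.real (cb m z) := by
    intro z hz
    by_contra hz0
    have hz1 : μ.real (cb m z) = 0 := le_antisymm (not_lt.1 hz0) measureReal_nonneg
    have h3 : ∀ η : ℝ, 0 < η → η ^ q ≤ B := by
      intro η hη
      refine le_trans ?_ (h1 η hη)
      have h4 := Finset.single_le_sum (f := fun z => (μ.real (cb m z) + η) ^ q)
        (fun c _ => Real.rpow_nonneg (add_nonneg measureReal_nonneg hη.le) q) hz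
      simpa only [hz1, zero_add] using h4
    have h5 : Tendsto (fun η : ℝ => η ^ q) (𝓝[>] 0) atTop := tendsto_rpow_neg_nhdsGT_zero hq
    obtain ⟨η, hη1, hη2⟩ := ((h5.eventually (eventually_gt_atTop B)).and self_mem_nhdsWithin).exists
    exact absurd (h3 η hη2) (not_le.2 hη1)
  refine ⟨h2, ?_⟩
  have h3 : Tendsto (fun η : ℝ => ∑ z ∈ Idx d m, (μ.real (cb m z) + η) ^ q) (𝓝[>] 0)
      (𝓝 (∑ z ∈ Idx d m, μ.real (cb m z) ^ q)) := by
    refine tendsto_finsetSum _ fun z hz => ?_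
    have h4 : ContinuousAt (fun η : ℝ => (μ.real (cb m z) + η) ^ q) 0 := by
      refine ContinuousAt.rpow_const (continuousAt_const.add continuousAt_id) (Or.inl ?_)
      simpa using (h2 z hz).ne'
    have h5 := h4.tendsto
    rw [add_zero] at h5
    exact h5.mono_left nhdsWithin_le_nhds
  exact le_of_tendsto h3 (eventually_nhdsWithin_of_forall fun η hη => h1 η hη)

end Pool.Agent.MChaos
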