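import Pool.Agent.Lib_MP_a91488.UBA
import Pool.Agent.Lib_MP_a91488.UBH
import Pool.Agent.Lib_MP_a91488.UBC
import Pool.Agent.Lib_MP_a91488.UBD

/-!
# Piece UBF: the upper bound
-/

set_option autoImplicit false

open MeasureTheory ProbabilityTheory Filter
open scoped Topology ENNReal

namespace Pool.Agent.MChaos

variable {d : ℕ} {Ω : Type} [MeasurableSpace Ω] {P : Measure Ω} [IsProbabilityMeasure P] {X : ℕ → Ω → E d → ℝ}

/-- a constant is absorbed by an exponential -/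
theorem ubf_absorb (A ε κ : ℝ) (hε : 0 < ε) : ∀ᶠ m : ℕ in atTop, A * (2 : ℝ) ^ (-(κ - ε) * (m : ℝ)) ≤ 2 ^ (-(κ - 2 * ε) * (m : ℝ)) := by
  have h2 : (1 : ℝ) < (2 : ℝ) ^ ε := Real.one_lt_rpow (by norm_num) hε
  have h := tendsto_pow_atTop_atTop_of_one_lt h2
  filter_upwards [h.eventually_ge_atTop A] with m hm
  have h3 : (2 : ℝ) ^ (-(κ - 2 * ε) * (m : ℝ)) = ((2 : ℝ) ^ ε) ^ m * (2 : ℝ) ^ (-(κ - ε) * (m : ℝ)) := by
    rw [← Real.rpow_natCast, ← Real.rpow_mul (by norm_num), ← Real.rpow_add (by norm_num)]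
    congr 1; ring
  rw [h3]
  exact mul_le_mul_of_nonneg_right hm (by positivity)

/-- `uba` for all rational `q ≠ 0` with `|q| β < √(2d)` (so `q β^2 < 2 d`) and `ε = 1/(2 (j+1))` (countably many), `ubh_pos`, `ubh_neg`, `ubb`, `ubc` (the constant `3^(d (q+1))` is absorbed by `2^(m/(2(j+1)))`), `ubd` -/
theorem ubf (hX : CP d P X) (β : ℝ) (hβ0 : 0 < β) (hβ : β ^ 2 < 2 * d) : ∀ᵐ ω ∂P, ∀ μ : Measure (E d), WL P X β ω μ → ∀ α : ℝ,
    (|α - d - β ^ 2 / 2| ≤ β * Real.sqrt (2 * d) → dimH (Lev μ α) ≤ ENNReal.ofReal (d - (d + β ^ 2 / 2 - α) ^ 2 / (2 * β ^ 2))) ∧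
      (β * Real.sqrt (2 * d) < |α - d - β ^ 2 / 2| → Lev μ α = ∅) := by
  have hdR : (0 : ℝ) < d := by exact_mod_cast hX.dpos
  have hq2 : ∀ q : ℚ, |(q : ℝ)| * β < Real.sqrt (2 * d) → (q : ℝ) * β ^ 2 < 2 * d := by
    intro q hq
    have hS : Real.sqrt (2 * d) ^ 2 = 2 * d := Real.sq_sqrt (by linarith)
    have hβS : β < Real.sqrt (2 * d) := Real.lt_sqrt_of_sq_lt hβ
    have h1 : (q : ℝ) * β ≤ |(q : ℝ)| * β := mul_le_mul_of_nonneg_right (le_abs_self _) hβ0.le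
    have h2 : (q : ℝ) * β * β < Real.sqrt (2 * d) * Real.sqrt (2 * d) :=
      calc (q : ℝ) * β * β ≤ |(q : ℝ)| * β * β := mul_le_mul_of_nonneg_right h1 hβ0.le
        _ < Real.sqrt (2 * d) * β := mul_lt_mul_of_pos_right hq hβ0
        _ ≤ Real.sqrt (2 * d) * Real.sqrt (2 * d) := mul_le_mul_of_nonneg_left hβS.le (Real.sqrt_nonneg _)
    nlinarith
  have hA : ∀ᵐ ω ∂P, ∀ (q : ℚ) (j : ℕ), |(q : ℝ)| * β < Real.sqrt (2 * d) → ∀ᶠ m : ℕ in atTop, ∃ᶠ N : ℕ in atTop,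
      ∑ z ∈ Idx d m, TT P X β 0 N (cb m z) ω ^ (q : ℝ) ≤
        2 ^ (-(d * (q : ℝ) + q * β ^ 2 / 2 - (q : ℝ) ^ 2 * β ^ 2 / 2 - d - 1 / (2 * ((j : ℝ) + 1))) * m) := by
    rw [ae_all_iff]; intro q
    rw [ae_all_iff]; intro j
    by_cases hq : |(q : ℝ)| * β < Real.sqrt (2 * d)
    · filter_upwards [uba hX β q (1 / (2 * ((j : ℝ) + 1))) hβ (hq2 q hq) (by positivity)] with ω hω _
      exact hω
    · exact Filter.Eventually.of_forall fun ω h => absurd h hq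
  filter_upwards [hA] with ω hω μ hμ α
  refine ubd hX.dpos β hβ0 hβ (Lev μ) ?_ α
  intro q j hq0 hqβ α'
  set ξ : ℝ := d * (q : ℝ) + q * β ^ 2 / 2 - (q : ℝ) ^ 2 * β ^ 2 / 2 - d with hξ
  set ε : ℝ := 1 / (2 * ((j : ℝ) + 1)) with hε
  have hεpos : 0 < ε := by positivity
  have h2ε : (1 : ℝ) / ((j : ℝ) + 1) = 2 * ε := by rw [hε]; field_simp
  rw [h2ε]
  have hB := hω q j hqβ
  rcases lt_or_gt_of_ne hq0 with hneg | hpos
  · have hqneg : (q : ℝ) < 0 := by exact_mod_cast hneg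
    refine ubc hX.dpos μ hμ.fin q (ξ - 2 * ε) hqneg ?_ α'
    filter_upwards [hB, ubf_absorb 1 ε ξ hεpos] with m hm hm2
    obtain ⟨h1, h2⟩ := ubh_neg hX β q hqneg ω μ hμ m _ hm
    refine ⟨h1, h2.trans ?_⟩
    rw [one_mul] at hm2
    exact hm2
  · have hqpos : (0 : ℝ) < q := by exact_mod_cast hpos
    refine ubb μ hμ.fin q (ξ - 2 * ε) hqpos ?_ α'
    filter_upwards [hB, ubf_absorb (3 ^ ((d : ℝ) * ((q : ℝ) + 1))) ε ξ hεpos] with m hm hm2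
    exact (ubh_pos hX β q hqpos ω μ hμ m _ hm).trans hm2

end Pool.Agent.MChaos
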