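import Pool.Agent.Lib_MP_a91488.LBF
import Pool.Agent.Lib_MP_a91488.UBF

/-!
# Piece FIN: the main theorem
-/

set_option autoImplicit false

open MeasureTheory ProbabilityTheory Filter
open scoped Topology ENNReal

namespace Pool.Agent.MChaos

variable {d : ℕ} {Ω : Type} [MeasurableSpace Ω] {P : Measure Ω} [IsProbabilityMeasure P] {X : ℕ → Ω → E d → ℝ}

/-- `cond_cp`, `muN_prj`, `wl_exists`, `ubf`, `lbf` for the extended fields; `τ = (d + β^2/2 - α)/β` -/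
theorem chaos_spectrum (hd : 0 < d) (hX : Cond d P X) (β : ℝ) (hβ0 : 0 < β) (hβ : β < Real.sqrt (2 * d)) : ∀ᵐ ω ∂P, ∃ μ : Measure (E d), IsFiniteMeasure μ ∧ μ (cube d)ᶜ = 0 ∧
    (∀ f : E d → ℝ, Continuous f → Tendsto (fun n => ∫ x, f x ∂(muN P X β n ω)) atTop (𝓝 (∫ x, f x ∂μ))) ∧
    ∀ α : ℝ, (|α - d - β ^ 2 / 2| ≤ β * Real.sqrt (2 * d) → (Lev μ α).Nonempty ∧ dimH (Lev μ α) = ENNReal.ofReal (d - (d + β ^ 2 / 2 - α) ^ 2 / (2 * β ^ 2))) ∧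
      (β * Real.sqrt (2 * d) < |α - d - β ^ 2 / 2| → Lev μ α = ∅) := by
  have hcp := cond_cp hd hX
  have hd0 : (0 : ℝ) ≤ 2 * d := by positivity
  have hs : Real.sqrt (2 * d) ^ 2 = 2 * d := Real.sq_sqrt hd0
  have hβ2 : β ^ 2 < 2 * d := by
    rw [← hs]
    exact pow_lt_pow_left₀ hβ hβ0.le (by norm_num)
  filter_upwards [wl_exists hcp β, ubf hcp β hβ0 hβ2, lbf hcp β hβ2] with ω h1 h2 h3
  obtain ⟨μ, hμ⟩ := h1
  refine ⟨μ, hμ.fin, hμ.supp, fun f hf => ?_, fun α => ⟨fun hα => ?_, fun hα => (h2 μ hμ α).2 hα⟩⟩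
  · have := hμ.lim f hf
    simpa only [muN_prj] using this
  · have hτ : ((d + β ^ 2 / 2 - α) / β) ^ 2 ≤ 2 * d := by
      rw [div_pow, div_le_iff₀ (by positivity)]
      have h4 : |d + β ^ 2 / 2 - α| ≤ β * Real.sqrt (2 * d) := by
        have : |(d : ℝ) + β ^ 2 / 2 - α| = |α - d - β ^ 2 / 2| := by
          rw [← abs_neg]; congr 1; ring
        rw [this]; exact hα
      calc (d + β ^ 2 / 2 - α) ^ 2 = |d + β ^ 2 / 2 - α| ^ 2 := (sq_abs _).symm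
        _ ≤ (β * Real.sqrt (2 * d)) ^ 2 := pow_le_pow_left₀ (abs_nonneg _) h4 2
        _ = 2 * d * β ^ 2 := by rw [mul_pow, hs]; ring
    have h5 : (d : ℝ) + β ^ 2 / 2 - β * ((d + β ^ 2 / 2 - α) / β) = α := by
      rw [mul_div_cancel₀ _ hβ0.ne']; ring
    obtain ⟨h6, h7⟩ := h3 μ hμ _ hτ
    rw [h5] at h6 h7
    refine ⟨h6, le_antisymm ((h2 μ hμ α).1 hα) ?_⟩
    have h8 : (d : ℝ) - (d + β ^ 2 / 2 - α) ^ 2 / (2 * β ^ 2) = d - ((d + β ^ 2 / 2 - α) / β) ^ 2 / 2 := by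
      rw [div_pow, div_div, mul_comm (β ^ 2) 2]
    rw [h8]
    exact h7

end Pool.Agent.MChaos
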