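import Mathlib

/-!
# Piece GDR: abstract goodness recursion on a tree
-/

set_option autoImplicit false

open MeasureTheory ProbabilityTheory Filter
open scoped Topology

namespace Pool.Agent.MChaos

/-- cardinality of a random subset of a finite set is measurable -/
theorem gdr_meas_card {Ω V : Type} (mm : MeasurableSpace Ω) (s : Finset V) (A : V → Set Ω)
    [∀ ω, DecidablePred (fun c => ω ∈ A c)] (hA : ∀ c ∈ s, MeasurableSet[mm] (A c)) :
    Measurable[mm] (fun ω => (s.filter (fun c => ω ∈ A c)).card) := by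
  simp_rw [Finset.card_filter]
  refine Finset.measurable_sum s fun c hc => ?_
  exact Measurable.ite (hA c hc) measurable_const measurable_const

theorem gdr_meas_lt {Ω : Type} (mm : MeasurableSpace Ω) {f g : Ω → ℕ} (hf : Measurable[mm] f)
    (hg : Measurable[mm] g) : MeasurableSet[mm] {ω | f ω < g ω} := measurableSet_lt hf hg

theorem gdr_meas_le {Ω : Type} (mm : MeasurableSpace Ω) {f g : Ω → ℕ} (hf : Measurable[mm] f)
    (hg : Measurable[mm] g) : MeasurableSet[mm] {ω | f ω ≤ g ω} := measurableSet_le hf hg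

/-- Markov's inequality for the number of bad elements of a fixed finite set -/
theorem gdr_markov {Ω V : Type} [MeasurableSpace Ω] (P : Measure Ω) [IsProbabilityMeasure P]
    (A : Finset V) (B : V → Set Ω) [∀ ω, DecidablePred (fun c => ω ∈ B c)]
    (hB : ∀ c ∈ A, MeasurableSet (B c)) (s : ℝ) (hs0 : 0 ≤ s) (hs : ∀ c ∈ A, P.real (B c) ≤ s) :
    P.real {ω | A.card < 2 * (A.filter (fun c => ω ∈ B c)).card} ≤ 2 * s := by
  rcases A.eq_empty_or_nonempty with rfl | hne
  · simpa using hs0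
  have hcard : (0 : ℝ) < A.card := by exact_mod_cast hne.card_pos
  set f : Ω → ℝ := fun ω => ∑ c ∈ A, (B c).indicator (fun _ => (1 : ℝ)) ω with hf
  have hfc : ∀ ω, f ω = ((A.filter (fun c => ω ∈ B c)).card : ℝ) := by
    intro ω
    simp only [hf, Set.indicator_apply]
    rw [Finset.card_filter]
    push_cast
    refine Finset.sum_congr rfl fun c _ => ?_
    by_cases h : ω ∈ B c <;> simp [h]
  have hint : ∀ c ∈ A, Integrable ((B c).indicator (fun _ => (1 : ℝ))) P :=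
    fun c hc => (integrable_const _).indicator (hB c hc)
  have hfi : Integrable f P := integrable_finsetSum A hint
  have hfI : ∫ ω, f ω ∂P ≤ A.card * s := by
    rw [hf, integral_finsetSum A hint]
    calc ∑ c ∈ A, ∫ ω, (B c).indicator (fun _ => (1 : ℝ)) ω ∂P = ∑ c ∈ A, P.real (B c) :=
          Finset.sum_congr rfl fun c hc => integral_indicator_one (hB c hc)
      _ ≤ ∑ _c ∈ A, s := Finset.sum_le_sum hs
      _ = A.card * s := by simp
  have hmk := mul_meas_ge_le_integral_of_nonneg (μ := P) (f := f)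
    (Filter.Eventually.of_forall fun ω => by rw [hfc]; exact Nat.cast_nonneg _) hfi
    ((A.card : ℝ) / 2)
  have hsub : {ω | A.card < 2 * (A.filter (fun c => ω ∈ B c)).card} ⊆
      {ω | (A.card : ℝ) / 2 ≤ f ω} := by
    intro ω hω
    simp only [Set.mem_ofPred_eq] at hω ⊢
    rw [hfc]
    have : (A.card : ℝ) < 2 * ((A.filter (fun c => ω ∈ B c)).card : ℝ) := by exact_mod_cast hω
    linarith
  have h1 : P.real {ω | A.card < 2 * (A.filter (fun c => ω ∈ B c)).card} ≤
      P.real {ω | (A.card : ℝ) / 2 ≤ f ω} := measureReal_mono hsub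
  have h2 : (A.card : ℝ) / 2 * P.real {ω | (A.card : ℝ) / 2 ≤ f ω} ≤ A.card * s := hmk.trans hfI
  have h3 : P.real {ω | (A.card : ℝ) / 2 ≤ f ω} ≤ 2 * s := by
    by_contra hcon
    push Not at hcon
    have := mul_lt_mul_of_pos_left hcon (half_pos hcard)
    linarith
  exact h1.trans h3

/-- Markov's inequality for a random finite set independent of the bad events -/
theorem gdr_markov_ind {Ω V : Type} [mΩ : MeasurableSpace Ω] (P : Measure Ω)
    [IsProbabilityMeasure P] (G H : MeasurableSpace Ω) (hG : G ≤ mΩ) (hH : H ≤ mΩ)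
    (hind : Indep G H P) (C : Finset V) (A B : V → Set Ω)
    [∀ ω, DecidablePred (fun c => ω ∈ A c)] [iAB : ∀ ω, DecidablePred (fun c => ω ∈ A c ∧ ω ∈ B c)]
    (hA : ∀ c ∈ C, MeasurableSet[G] (A c)) (hB : ∀ c ∈ C, MeasurableSet[H] (B c))
    (s : ℝ) (hs0 : 0 ≤ s) (hs : ∀ c ∈ C, P.real (B c) ≤ s) :
    P.real {ω | (C.filter (fun c => ω ∈ A c)).card <
      2 * (C.filter (fun c => ω ∈ A c ∧ ω ∈ B c)).card} ≤ 2 * s := by
  classical
  set Fe : Finset V → Set Ω := fun D => {ω | C.filter (fun c => ω ∈ A c) = D} with hFe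
  set Ee : Finset V → Set Ω := fun D =>
    {ω | D.card < 2 * (D.filter (fun c => ω ∈ B c)).card} with hEe
  have hFm : ∀ D ∈ C.powerset, MeasurableSet[G] (Fe D) := by
    intro D hD
    rw [Finset.mem_powerset] at hD
    have : Fe D = ⋂ c ∈ C, {ω | c ∈ D ↔ ω ∈ A c} := by
      ext ω
      simp only [hFe, Set.mem_ofPred_eq, Set.mem_iInter]
      constructor
      · rintro h c hc
        rw [← h, Finset.mem_filter]
        exact ⟨fun h => h.2, fun h => ⟨hc, h⟩⟩
      · intro h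
        ext c
        rw [Finset.mem_filter]
        exact ⟨fun h1 => (h c h1.1).2 h1.2, fun h1 => ⟨hD h1, (h c (hD h1)).1 h1⟩⟩
    rw [this]
    refine Finset.measurableSet_biInter C fun c hc => ?_
    by_cases hcD : c ∈ D
    · simpa [hcD] using hA c hc
    · simp only [hcD, false_iff]
      exact (hA c hc).compl
  have hEm : ∀ D ∈ C.powerset, MeasurableSet[H] (Ee D) := by
    intro D hD
    rw [Finset.mem_powerset] at hD
    have hm := gdr_meas_card H D B (fun c hc => hB c (hD hc))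
    exact gdr_meas_lt H (@measurable_const _ _ _ H _) (@Measurable.const_mul _ _ _ _ H _ _ hm 2)
  have hsub : {ω | (C.filter (fun c => ω ∈ A c)).card <
      2 * (C.filter (fun c => ω ∈ A c ∧ ω ∈ B c)).card} ⊆ ⋃ D ∈ C.powerset, (Fe D ∩ Ee D) := by
    intro ω hω
    simp only [Set.mem_ofPred_eq] at hω
    rw [Set.mem_iUnion₂]
    refine ⟨C.filter (fun c => ω ∈ A c), Finset.mem_powerset.2 (Finset.filter_subset _ _), rfl, ?_⟩
    have he : (C.filter (fun c => ω ∈ A c)).filter (fun c => ω ∈ B c) =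
        @Finset.filter V (fun c => ω ∈ A c ∧ ω ∈ B c) (iAB ω) C := by
      ext c; simp only [Finset.mem_filter, and_assoc]
    simp only [hEe, Set.mem_ofPred_eq]
    rw [he]
    exact hω
  have h1 : P.real (⋃ D ∈ C.powerset, (Fe D ∩ Ee D)) ≤ ∑ D ∈ C.powerset, P.real (Fe D ∩ Ee D) :=
    measureReal_biUnion_finset_le _ _
  have h2 : ∀ D ∈ C.powerset, P.real (Fe D ∩ Ee D) ≤ P.real (Fe D) * (2 * s) := by
    intro D hD
    have h3 : P (Fe D ∩ Ee D) = P (Fe D) * P (Ee D) :=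
      (Indep_iff G H P).1 hind _ _ (hFm D hD) (hEm D hD)
    have h4 : P.real (Fe D ∩ Ee D) = P.real (Fe D) * P.real (Ee D) := by
      simp only [measureReal_def, h3, ENNReal.toReal_mul]
    rw [h4]
    refine mul_le_mul_of_nonneg_left ?_ measureReal_nonneg
    rw [Finset.mem_powerset] at hD
    exact @gdr_markov Ω V mΩ P _ D B _ (fun c hc => hH _ (hB c (hD hc))) s hs0 (fun c hc => hs c (hD hc))
  have h5 : ∑ D ∈ C.powerset, P.real (Fe D) ≤ 1 := by
    rw [← measureReal_biUnion_finset]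
    · exact measureReal_le_one
    · intro D _ D' _ hne
      rw [Function.onFun, Set.disjoint_left]
      intro ω h6 h7
      simp only [hFe, Set.mem_ofPred_eq] at h6 h7
      exact hne (h6.symm.trans h7)
    · exact fun D hD => hG _ (hFm D hD)
  calc P.real {ω | (C.filter (fun c => ω ∈ A c)).card <
      2 * (C.filter (fun c => ω ∈ A c ∧ ω ∈ B c)).card} ≤
        P.real (⋃ D ∈ C.powerset, (Fe D ∩ Ee D)) := measureReal_mono hsub
    _ ≤ ∑ D ∈ C.powerset, P.real (Fe D ∩ Ee D) := h1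
    _ ≤ ∑ D ∈ C.powerset, P.real (Fe D) * (2 * s) := Finset.sum_le_sum h2
    _ = (∑ D ∈ C.powerset, P.real (Fe D)) * (2 * s) := (Finset.sum_mul _ _ _).symm
    _ ≤ 1 * (2 * s) := mul_le_mul_of_nonneg_right h5 (by linarith)
    _ = 2 * s := one_mul _

open Classical in
/-- the goodness recursion -/
def gdrGood {Ω V T : Type} (Ch : ℕ → V → Finset V) (Γ : ℕ → Finset T) (Tp : ℕ → T → V → Set Ω)
    (Lc : ℕ → V → Set Ω) : ℕ → ℕ → V → Set Ω
  | 0, i, v => Lc i v
  | r + 1, i, v => Lc i v ∩ {ω | ∀ τ ∈ Γ i,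
      2 * ((Ch i v).filter (fun c => ω ∈ Tp i τ c ∧ ω ∉ gdrGood Ch Γ Tp Lc r (i + 1) c)).card ≤
        ((Ch i v).filter (fun c => ω ∈ Tp i τ c)).card}

open Classical in
/-- `Good 0 i v = Lc i v`, `Good (r+1) i v = Lc i v ∩ {∀ τ ∈ Γ i, 2 #{c ∈ Ch i v : Tp τ c, not Good r (i+1) c} ≤ #{c ∈ Ch i v : Tp τ c}}`. It belongs to `H i` and decreases in `r`.
By induction on `r`: `P(not Good r i v) ≤ S i`. Indeed for each `τ`, on the event that the set of the children of type `τ` is `A` (an event of `G i`, independent of `H (i+1)`), Markov's inequality gives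
`P(2 #(bad in A) > #A) ≤ 2 S (i+1)` (`A` empty: impossible). So `P(not Good (r+1) i v) ≤ p + #Γ 2 S (i+1) ≤ S i`.
`Gd i v = ⋂ r, Good r i v`: the probability passes to the limit, and so does the inequality, since the finite sets of bad children increase with `r`. -/
theorem gdr {Ω : Type} [mΩ : MeasurableSpace Ω] (P : Measure Ω) [IsProbabilityMeasure P] {V T : Type} (Ix : ℕ → Finset V) (Ch : ℕ → V → Finset V)
    (hCh : ∀ i, ∀ v ∈ Ix i, ∀ c ∈ Ch i v, c ∈ Ix (i + 1)) (Γ : ℕ → Finset T) (Tp : ℕ → T → V → Set Ω) (Lc : ℕ → V → Set Ω) (G H : ℕ → MeasurableSpace Ω)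
    (hG : ∀ i, G i ≤ H i) (hH : ∀ i, H (i + 1) ≤ H i) (hm : ∀ i, H i ≤ mΩ) (hind : ∀ i, Indep (G i) (H (i + 1)) P)
    (hLc : ∀ i, ∀ v ∈ Ix i, MeasurableSet[H i] (Lc i v)) (hTp : ∀ i, ∀ τ ∈ Γ i, ∀ c ∈ Ix (i + 1), MeasurableSet[G i] (Tp i τ c))
    (S : ℕ → ℝ) (hS0 : ∀ i, 0 ≤ S i) (hS : ∀ i, ∃ p : ℝ, (∀ v ∈ Ix i, P.real (Lc i v)ᶜ ≤ p) ∧ p + 2 * (Γ i).card * S (i + 1) ≤ S i) (hne : ∀ i, (Ix i).Nonempty) :
    ∃ Gd : ℕ → V → Set Ω, (∀ i, ∀ v ∈ Ix i, P.real (Gd i v)ᶜ ≤ S i) ∧ ∀ i, ∀ v ∈ Ix i, ∀ ω ∈ Gd i v, ω ∈ Lc i v ∧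
      ∀ τ ∈ Γ i, 2 * ((Ch i v).filter (fun c => ω ∈ Tp i τ c ∧ ω ∉ Gd (i + 1) c)).card ≤ ((Ch i v).filter (fun c => ω ∈ Tp i τ c)).card := by
  set Q := gdrGood Ch Γ Tp Lc with hQ
  have hQs : ∀ r i v, Q (r + 1) i v = Lc i v ∩ {ω | ∀ τ ∈ Γ i,
      2 * ((Ch i v).filter (fun c => ω ∈ Tp i τ c ∧ ω ∉ Q r (i + 1) c)).card ≤
        ((Ch i v).filter (fun c => ω ∈ Tp i τ c)).card} := fun r i v => rfl
  have hQ0 : ∀ i v, Q 0 i v = Lc i v := fun i v => rfl
  -- decreasing
  have hstep : ∀ r i v, Q (r + 1) i v ⊆ Q r i v := by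
    intro r
    induction r with
    | zero => intro i v; rw [hQs, hQ0]; exact Set.inter_subset_left
    | succ r ih =>
      intro i v
      rw [hQs (r + 1), hQs r]
      rintro ω ⟨h1, h2⟩
      refine ⟨h1, fun τ hτ => le_trans (Nat.mul_le_mul_left 2 (Finset.card_le_card ?_)) (h2 τ hτ)⟩
      intro c hc
      rw [Finset.mem_filter] at hc ⊢
      exact ⟨hc.1, hc.2.1, fun h3 => hc.2.2 (ih _ _ h3)⟩
  have hanti : ∀ i v, Antitone (fun r => Q r i v) := fun i v => antitone_nat_of_succ_le (fun r => hstep r i v)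
  -- measurable
  have hmeas : ∀ r i, ∀ v ∈ Ix i, MeasurableSet[H i] (Q r i v) := by
    intro r
    induction r with
    | zero => intro i v hv; rw [hQ0]; exact hLc i v hv
    | succ r ih =>
      intro i v hv
      rw [hQs]
      refine @MeasurableSet.inter _ (H i) _ _ (hLc i v hv) ?_
      have he : {ω | ∀ τ ∈ Γ i,
          2 * ((Ch i v).filter (fun c => ω ∈ Tp i τ c ∧ ω ∉ Q r (i + 1) c)).card ≤
          ((Ch i v).filter (fun c => ω ∈ Tp i τ c)).card} = ⋂ τ ∈ Γ i, {ω |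
          2 * ((Ch i v).filter (fun c => ω ∈ Tp i τ c ∧ ω ∉ Q r (i + 1) c)).card ≤
          ((Ch i v).filter (fun c => ω ∈ Tp i τ c)).card} := by
        ext ω; simp
      rw [he]
      refine @Finset.measurableSet_biInter _ _ (H i) _ (Γ i) fun τ hτ => ?_
      have ha : ∀ c ∈ Ch i v, MeasurableSet[H i] (Tp i τ c) := fun c hc =>
        hG i _ (hTp i τ hτ c (hCh i v hv c hc))
      have hb : ∀ c ∈ Ch i v, MeasurableSet[H i] (Tp i τ c ∩ (Q r (i + 1) c)ᶜ) := fun c hc =>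
        @MeasurableSet.inter _ (H i) _ _ (ha c hc)
          (@MeasurableSet.compl _ _ (H i) (hH i _ (ih (i + 1) c (hCh i v hv c hc))))
      have h1 := gdr_meas_card (H i) (Ch i v) (fun c => Tp i τ c) ha
      have h2 := gdr_meas_card (H i) (Ch i v) (fun c => Tp i τ c ∩ (Q r (i + 1) c)ᶜ) hb
      exact gdr_meas_le (H i) (@Measurable.const_mul _ _ _ _ (H i) _ _ h2 2) h1
  -- probability
  have hprob : ∀ r i, ∀ v ∈ Ix i, P.real (Q r i v)ᶜ ≤ S i := by
    intro r
    induction r with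
    | zero =>
      intro i v hv
      obtain ⟨p, hp1, hp2⟩ := hS i
      rw [hQ0]
      have h1 := hp1 v hv
      have h2 : 0 ≤ 2 * ((Γ i).card : ℝ) * S (i + 1) :=
        mul_nonneg (mul_nonneg (by norm_num) (Nat.cast_nonneg _)) (hS0 (i + 1))
      linarith
    | succ r ih =>
      intro i v hv
      obtain ⟨p, hp1, hp2⟩ := hS i
      have hsub : (Q (r + 1) i v)ᶜ ⊆ (Lc i v)ᶜ ∪ ⋃ τ ∈ Γ i, {ω |
          ((Ch i v).filter (fun c => ω ∈ Tp i τ c)).card <
          2 * ((Ch i v).filter (fun c => ω ∈ Tp i τ c ∧ ω ∈ (Q r (i + 1) c)ᶜ)).card} := by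
        intro ω hω
        by_cases h1 : ω ∈ Lc i v
        · right
          rw [hQs] at hω
          have h2 : ¬ (∀ τ ∈ Γ i,
              2 * ((Ch i v).filter (fun c => ω ∈ Tp i τ c ∧ ω ∉ Q r (i + 1) c)).card ≤
              ((Ch i v).filter (fun c => ω ∈ Tp i τ c)).card) := fun h3 => hω ⟨h1, h3⟩
          push Not at h2
          obtain ⟨τ, hτ, h3⟩ := h2
          exact Set.mem_iUnion₂.2 ⟨τ, hτ, h3⟩
        · exact Or.inl h1
      have h1 : ∀ τ ∈ Γ i, P.real {ω | ((Ch i v).filter (fun c => ω ∈ Tp i τ c)).card <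
          2 * ((Ch i v).filter (fun c => ω ∈ Tp i τ c ∧ ω ∈ (Q r (i + 1) c)ᶜ)).card} ≤
          2 * S (i + 1) := by
        intro τ hτ
        refine gdr_markov_ind P (G i) (H (i + 1)) ((hG i).trans (hm i)) (hm (i + 1)) (hind i)
          (Ch i v) (fun c => Tp i τ c) (fun c => (Q r (i + 1) c)ᶜ) ?_ ?_ (S (i + 1)) (hS0 (i + 1)) ?_
        · exact fun c hc => hTp i τ hτ c (hCh i v hv c hc)
        · exact fun c hc => @MeasurableSet.compl _ _ (H (i + 1)) (hmeas r (i + 1) c (hCh i v hv c hc))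
        · exact fun c hc => ih (i + 1) c (hCh i v hv c hc)
      have h2 : P.real (⋃ τ ∈ Γ i, {ω | ((Ch i v).filter (fun c => ω ∈ Tp i τ c)).card <
          2 * ((Ch i v).filter (fun c => ω ∈ Tp i τ c ∧ ω ∈ (Q r (i + 1) c)ᶜ)).card}) ≤
          ∑ τ ∈ Γ i, P.real {ω | ((Ch i v).filter (fun c => ω ∈ Tp i τ c)).card <
          2 * ((Ch i v).filter (fun c => ω ∈ Tp i τ c ∧ ω ∈ (Q r (i + 1) c)ᶜ)).card} :=
        measureReal_biUnion_finset_le _ _
      have h3 := h2.trans (Finset.sum_le_sum h1)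
      rw [Finset.sum_const, nsmul_eq_mul] at h3
      have h4 := (measureReal_mono hsub (measure_ne_top P _)).trans (measureReal_union_le _ _)
      have h5 := hp1 v hv
      have h6 : ((Γ i).card : ℝ) * (2 * S (i + 1)) = 2 * (Γ i).card * S (i + 1) := by ring
      linarith
  refine ⟨fun i v => ⋂ r, Q r i v, ?_, ?_⟩
  · intro i v hv
    have h1 : (⋂ r, Q r i v)ᶜ = ⋃ r, (Q r i v)ᶜ := Set.compl_iInter _
    have h2 : Monotone (fun r => (Q r i v)ᶜ) := fun r r' hr => Set.compl_subset_compl.2 (hanti i v hr)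
    rw [h1]
    have h3 : P (⋃ r, (Q r i v)ᶜ) ≤ ENNReal.ofReal (S i) := by
      rw [h2.measure_iUnion]
      refine iSup_le fun r => ?_
      have h4 := hprob r i v hv
      rw [measureReal_def] at h4
      exact (ENNReal.le_ofReal_iff_toReal_le (measure_ne_top P _) (hS0 i)).2 h4
    rw [measureReal_def]
    exact ENNReal.toReal_le_of_le_ofReal (hS0 i) h3
  · intro i v hv ω hω
    rw [Set.mem_iInter] at hω
    refine ⟨by have := hω 0; rw [hQ0] at this; exact this, fun τ hτ => ?_⟩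
    -- a common stage for the bad children
    have h1 : ∃ R, ∀ c ∈ Ch i v, ω ∉ (⋂ r, Q r (i + 1) c) → ω ∉ Q R (i + 1) c := by
      have h2 : ∀ c, ∃ R, ω ∉ (⋂ r, Q r (i + 1) c) → ω ∉ Q R (i + 1) c := by
        intro c
        by_cases h3 : ω ∈ (⋂ r, Q r (i + 1) c)
        · exact ⟨0, fun h4 => absurd h3 h4⟩
        · have h4 := h3
          rw [Set.mem_iInter, not_forall] at h4
          obtain ⟨R, hR⟩ := h4
          exact ⟨R, fun _ => hR⟩
      choose R hR using h2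
      refine ⟨(Ch i v).sup R, fun c hc h3 h4 => hR c h3 ?_⟩
      exact hanti (i + 1) c (Finset.le_sup hc) h4
    obtain ⟨R, hR⟩ := h1
    have h5 := hω (R + 1)
    rw [hQs] at h5
    refine le_trans (Nat.mul_le_mul_left 2 (Finset.card_le_card ?_)) (h5.2 τ hτ)
    intro c hc
    rw [Finset.mem_filter] at hc ⊢
    exact ⟨hc.1, hc.2.1, hR c hc.1 hc.2.2⟩

end Pool.Agent.MChaos
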