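import Pool.Agent.Lib_MP_a91488.COVS

/-!
# Piece GENA: comparison of covariances
-/

set_option autoImplicit false

open MeasureTheory ProbabilityTheory

namespace Pool.Agent.MChaos

variable {d : ℕ} {Ω : Type} [MeasurableSpace Ω] {P : Measure Ω} [IsProbabilityMeasure P] {X : ℕ → Ω → E d → ℝ}

/-- `covs`, `L = log (1/‖x - y‖)`, `s_n = sig2 n` (monotone). If `L ≥ s_{n'}`: `(min L s_N - s_n) - (s_{n'} - s_n) - (min L s_N - s_{n'}) = 0`.
If `L ≤ s_{n'} + c₀`: `min L s_N - min L s_n - (s_{n'} - s_n) ≤ |c₀|` (distinguish `L < s_n` and `s_n ≤ L`). -/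
theorem gen_cov (hX : CP d P X) (γ c₀ C₀ : ℝ) (b : ℕ → E d → ℝ) (hb : ∀ n x, ∑ k ∈ Finset.range n, b k x ≤ C₀) (hb0 : ∀ k x, 0 ≤ b k x)
    (hc : ∀ k x y, |cw (PP P X k) (wS P X γ k) x y - γ ^ 2 * ∫ ω, X k ω x * X k ω y ∂P| ≤ b k x + b k y) :
    ∃ δ C : ℝ, 0 < δ ∧ 0 < C ∧ ∀ n n' N : ℕ, n ≤ n' → n' ≤ N → ∀ x ∈ cube d, ∀ y ∈ cube d, ∀ x₀ ∈ cube d, x ≠ y → ‖x - y‖ ≤ δ →
      (‖x - y‖ ≤ Real.exp (-sig2 P X n') → |∑ k ∈ Finset.Ico n N, cw (PP P X k) (wS P X γ k) x y -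
        (∑ k ∈ Finset.Ico n n', cw (PP P X k) (wS P X γ k) x₀ x₀ + ∑ k ∈ Finset.Ico n' N, cw (PP P X k) (wS P X γ k) x y)| ≤ C) ∧
      (Real.exp (-sig2 P X n' - c₀) ≤ ‖x - y‖ → ∑ k ∈ Finset.Ico n N, cw (PP P X k) (wS P X γ k) x y -
        ∑ k ∈ Finset.Ico n n', cw (PP P X k) (wS P X γ k) x₀ x₀ ≤ C) := by
  obtain ⟨δ, C, hδ, hC⟩ := covs hX γ C₀ b hb hb0 hc
  have hC0 : 0 ≤ |C| := abs_nonneg C
  have hg : 0 ≤ γ ^ 2 := sq_nonneg γ
  refine ⟨δ, 3 * |C| + γ ^ 2 * |c₀| + 1, hδ, by positivity, ?_⟩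
  intro n n' N hnn' hn'N x hx y hy x₀ hx₀ hxy hd
  have hnN : n ≤ N := hnn'.trans hn'N
  have h1 := (hC n N hnN x hx y hy hd).1 hxy
  have h2 := (hC n' N hn'N x hx y hy hd).1 hxy
  have h3 := (hC n n' hnn' x₀ hx₀ x₀ hx₀ (by simpa using hδ.le)).2 rfl
  have m1 : sig2 P X n ≤ sig2 P X n' := sig2_mono hnn'
  have m2 : sig2 P X n' ≤ sig2 P X N := sig2_mono hn'N
  have hpos : 0 < ‖x - y‖ := norm_pos_iff.mpr (sub_ne_zero.mpr hxy)
  have hL : Real.log (1 / ‖x - y‖) = - Real.log ‖x - y‖ := by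
    rw [one_div, Real.log_inv]
  have hCle : C ≤ |C| := le_abs_self C
  set L : ℝ := Real.log (1 / ‖x - y‖) with hLdef
  set A : ℝ := ∑ k ∈ Finset.Ico n N, cw (PP P X k) (wS P X γ k) x y with hA
  set B : ℝ := ∑ k ∈ Finset.Ico n' N, cw (PP P X k) (wS P X γ k) x y with hB
  set D : ℝ := ∑ k ∈ Finset.Ico n n', cw (PP P X k) (wS P X γ k) x₀ x₀ with hD
  have hgc : 0 ≤ γ ^ 2 * |c₀| := mul_nonneg hg (abs_nonneg _)
  constructor
  · intro hle
    have hlog : Real.log ‖x - y‖ ≤ -sig2 P X n' := by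
      have := Real.log_le_log hpos hle
      rwa [Real.log_exp] at this
    have hLs : sig2 P X n' ≤ L := by rw [hL]; linarith
    have e1 : min L (sig2 P X n) = sig2 P X n := min_eq_right (m1.trans hLs)
    have e2 : min L (sig2 P X n') = sig2 P X n' := min_eq_right hLs
    rw [e1] at h1
    rw [e2] at h2
    have key : A - (D + B) = (A - γ ^ 2 * (min L (sig2 P X N) - sig2 P X n)) - (B - γ ^ 2 * (min L (sig2 P X N) - sig2 P X n'))
        - (D - γ ^ 2 * (sig2 P X n' - sig2 P X n)) := by ring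
    rw [key]
    have t1 := abs_le.mp h1
    have t2 := abs_le.mp h2
    have t3 := abs_le.mp h3
    rw [abs_le]
    constructor <;> nlinarith [t1.1, t1.2, t2.1, t2.2, t3.1, t3.2]
  · intro hge
    have hlog : -sig2 P X n' - c₀ ≤ Real.log ‖x - y‖ := by
      have := Real.log_le_log (Real.exp_pos _) hge
      rwa [Real.log_exp] at this
    have hLs : L ≤ sig2 P X n' + c₀ := by rw [hL]; linarith
    have t1 := abs_le.mp h1
    have t3 := abs_le.mp h3
    have hmin : min L (sig2 P X N) - min L (sig2 P X n) - (sig2 P X n' - sig2 P X n) ≤ |c₀| := by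
      rcases le_total L (sig2 P X n) with h | h
      · have a1 : min L (sig2 P X n) = L := min_eq_left h
        have a2 : min L (sig2 P X N) ≤ L := min_le_left _ _
        have a3 := abs_nonneg c₀
        rw [a1]; linarith
      · have a1 : min L (sig2 P X n) = sig2 P X n := min_eq_right h
        have a2 : min L (sig2 P X N) ≤ L := min_le_left _ _
        have a3 := le_abs_self c₀
        rw [a1]; linarith
    have hm2 := mul_le_mul_of_nonneg_left hmin hg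
    nlinarith [t1.1, t1.2, t3.1, t3.2, hm2]

end Pool.Agent.MChaos
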