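import Pool.Agent.Lib_MP_a91488.Abs

/-!
# Piece WTF: frozen weights and localised weights
-/

set_option autoImplicit false

open MeasureTheory

namespace Pool.Agent.MChaos

open Classical in
/-- the weight `w` on `A`, and `1` outside of `A` -/
noncomputable def locw {Ω D : Type} (A : Set D) (w : Ω → D → ℝ) (ω : Ω) (x : D) : ℝ := if x ∈ A then w ω x else 1

open Classical in
noncomputable def loca {D : Type} (A : Set D) (a : D → ℝ) (x : D) : ℝ := if x ∈ A then a x else 0

variable {Ω D : Type} [MeasurableSpace Ω] [MeasurableSpace D] {P : Measure Ω} [IsProbabilityMeasure P] {w : Ω → D → ℝ} {a : D → ℝ} {s : ℝ} {M : ℝ → ℝ}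

theorem Wt.frozen (hw : Wt P w a s M) (x₀ : D) : Wt P (fun ω _ => w ω x₀) (fun _ : D => a x₀) s M where
  meas := by
    have h : Measurable (fun p : Ω × D => (p.1, x₀)) := measurable_fst.prodMk measurable_const
    exact hw.meas.comp h
  pos := fun ω _ => hw.pos ω x₀
  bdd := fun ω => ⟨w ω x₀, fun _ => le_rfl⟩
  mean := fun _ => hw.mean x₀
  mom := fun _ p => hw.mom x₀ p
  ameas := measurable_const
  a0 := fun _ => hw.a0 x₀
  ab := ⟨a x₀, fun _ => le_rfl⟩
  thr := fun _ => hw.thr x₀

private theorem locw_mem {A : Set D} {x : D} (h : x ∈ A) (ω : Ω) : locw A w ω x = w ω x := by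
  simp [locw, h]

private theorem locw_not_mem {A : Set D} {x : D} (h : x ∉ A) (ω : Ω) : locw A w ω x = 1 := by
  simp [locw, h]

theorem Wt.loc (hw : Wt P w a s M) (hM : ∀ p, 1 ≤ M p) (hs : 0 < s) (A : Set D) (hA : MeasurableSet A) : Wt P (locw A w) (loca A a) s M where
  meas := by
    classical
    have h : Measurable (fun p : Ω × D => if p.2 ∈ A then Function.uncurry w p else (1 : ℝ)) :=
      Measurable.ite (measurable_snd hA) hw.meas measurable_const
    have e : Function.uncurry (locw A w) = fun p : Ω × D => if p.2 ∈ A then Function.uncurry w p else (1 : ℝ) := by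
      funext p
      obtain ⟨ω, x⟩ := p
      by_cases hx : x ∈ A
      · simp [locw, hx]
      · simp [locw, hx]
    rw [e]; exact h
  pos := by
    intro ω x
    by_cases hx : x ∈ A
    · rw [locw_mem hx]; exact hw.pos ω x
    · rw [locw_not_mem hx]; exact one_pos
  bdd := by
    intro ω
    obtain ⟨B, hB⟩ := hw.bdd ω
    refine ⟨max B 1, fun x => ?_⟩
    by_cases hx : x ∈ A
    · rw [locw_mem hx]; exact (hB x).trans (le_max_left _ _)
    · rw [locw_not_mem hx]; exact le_max_right _ _
  mean := by
    intro x
    by_cases hx : x ∈ A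
    · simp only [locw_mem hx]; exact hw.mean x
    · simp only [locw_not_mem hx]; simp
  mom := by
    intro x p
    by_cases hx : x ∈ A
    · simp only [locw_mem hx]; exact hw.mom x p
    · simp only [locw_not_mem hx, Real.one_rpow]
      refine ⟨integrable_const _, ?_⟩
      simpa using hM p
  ameas := by
    classical
    have h : Measurable (fun x : D => if x ∈ A then a x else (0 : ℝ)) :=
      Measurable.ite hA hw.ameas measurable_const
    have e : loca A a = fun x : D => if x ∈ A then a x else (0 : ℝ) := by
      funext x
      by_cases hx : x ∈ A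
      · simp [loca, hx]
      · simp [loca, hx]
    rw [e]; exact h
  a0 := by
    intro x
    unfold loca
    split_ifs
    · exact hw.a0 x
    · exact le_rfl
  ab := by
    obtain ⟨B, hB⟩ := hw.ab
    refine ⟨max B 0, fun x => ?_⟩
    unfold loca
    split_ifs
    · exact (hB x).trans (le_max_left _ _)
    · exact le_max_right _ _
  thr := by
    intro x
    by_cases hx : x ∈ A
    · have e : loca A a x = a x := by simp [loca, hx]
      simp only [locw_mem hx, e]; exact hw.thr x
    · have e : loca A a x = 0 := by simp [loca, hx]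
      simp only [locw_not_mem hx, e, sub_self, abs_zero, Real.zero_rpow hs.ne', integral_zero]
      have h3 : (3 : ℝ) / s ≠ 0 := (div_pos (by norm_num) hs).ne'
      rw [Real.zero_rpow h3]

open Classical in
/-- `E w = 1` if only one of the points lies in `A` -/
theorem cw_loc (hw : Wt P w a s M) (A : Set D) (x y : D) : cw P (locw A w) x y = if x ∈ A ∧ y ∈ A then cw P w x y else 0 := by
  unfold cw
  by_cases hx : x ∈ A
  · by_cases hy : y ∈ A
    · simp only [locw_mem hx, locw_mem hy, hx, hy, and_self, if_true]
    · simp only [locw_mem hx, locw_not_mem hy, hx, hy, and_false, if_false, mul_one, hw.mean x, sub_self]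
  · by_cases hy : y ∈ A
    · simp only [locw_mem hy, locw_not_mem hx, hx, hy, false_and, if_false, one_mul, hw.mean y, sub_self]
    · simp only [locw_not_mem hx, locw_not_mem hy, hx, hy, false_and, if_false]
      simp

end Pool.Agent.MChaos
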