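import Pool.Agent.Lib_MP_a91488.TTI
import Pool.Agent.Lib_MP_a91488.WTF

/-!
# Piece GENC: the two sides of the comparison
-/

set_option autoImplicit false

open MeasureTheory ProbabilityTheory

namespace Pool.Agent.MChaos

variable {d : ℕ} {Ω : Type} [MeasurableSpace Ω] {P : Measure Ω} [IsProbabilityMeasure P] {X : ℕ → Ω → E d → ℝ}

/-- the second family of weights: frozen weights at `x₀` and weights localised to the cells -/
noncomputable def vB (P : Measure Ω) (X : ℕ → Ω → E d → ℝ) (γ : ℝ) {n n' N : ℕ} (Cs : Finset (V d)) (A : V d → Set (E d)) (x₀ : E d) :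
    ∀ k : Kp n n' N ↥Cs, SP X (kx k) → E d → ℝ
  | Sum.inl j => fun ω _ => wS P X γ (j : ℕ) ω x₀
  | Sum.inr j => locw (A j.2) (wS P X γ (j.1 : ℕ))

/-- its third order sizes -/
noncomputable def aB (b : ℕ → E d → ℝ) {n n' N : ℕ} (Cs : Finset (V d)) (A : V d → Set (E d)) (x₀ : E d) : Kp n n' N ↥Cs → E d → ℝ
  | Sum.inl j => fun _ => b j x₀
  | Sum.inr j => loca (A j.2) (b j.1)

/-- `Wt.frozen`, `Wt.loc` -/
theorem vB_Wt (hX : CP d P X) (γ s : ℝ) (M : ℝ → ℝ) (b : ℕ → E d → ℝ) (hs : 3 < s) (hM : ∀ p, 1 ≤ M p) (hw : ∀ k, Wt (PP P X k) (wS P X γ k) (b k) s M)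
    {n n' N : ℕ} (Cs : Finset (V d)) (A : V d → Set (E d)) (hA : ∀ c ∈ Cs, MeasurableSet (A c)) (x₀ : E d) (k : Kp n n' N ↥Cs) :
    Wt (PP P X (kx k)) (vB P X γ Cs A x₀ k) (aB b Cs A x₀ k) s M := by
  rcases k with j | j
  · have := PP_prob hX (P := P) (X := X) (j : ℕ)
    exact (hw (j : ℕ)).frozen x₀
  · have := PP_prob hX (P := P) (X := X) (j.1 : ℕ)
    exact (hw (j.1 : ℕ)).loc hM (by linarith) (A j.2) (hA _ j.2.2)

/-- every `x` lies in at most one cell -/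
private theorem loca_sum_le (b : E d → ℝ) (hb0 : ∀ x, 0 ≤ b x) (Cs : Finset (V d)) (A : V d → Set (E d))
    (hd : ∀ c ∈ Cs, ∀ c' ∈ Cs, c ≠ c' → Disjoint (A c) (A c')) (x : E d) :
    ∑ c : ↥Cs, loca (A c) b x ≤ b x := by
  classical
  by_cases h : ∃ c : ↥Cs, x ∈ A c
  · obtain ⟨c, hc⟩ := h
    rw [Finset.sum_eq_single c]
    · simp [loca, hc]
    · intro c' _ hne
      have hx : x ∉ A c' := by
        intro hx'
        have hne' : (c' : V d) ≠ (c : V d) := fun e => hne (Subtype.ext e)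
        exact Set.disjoint_left.mp (hd _ c'.2 _ c.2 hne') hx' hc
      simp [loca, hx]
    · intro hh
      exact absurd (Finset.mem_univ c) hh
  · push Not at h
    rw [Finset.sum_eq_zero]
    · exact hb0 x
    · intro c _
      simp [loca, h c]

theorem aB_sum (b : ℕ → E d → ℝ) (C₀ : ℝ) (hb : ∀ n x, ∑ k ∈ Finset.range n, b k x ≤ C₀) (hb0 : ∀ k x, 0 ≤ b k x) {n n' N : ℕ} (Cs : Finset (V d)) (A : V d → Set (E d))
    (hd : ∀ c ∈ Cs, ∀ c' ∈ Cs, c ≠ c' → Disjoint (A c) (A c')) (x₀ x : E d) :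
    ∑ k : Kp n n' N ↥Cs, aB b Cs A x₀ k x ≤ 2 * C₀ := by
  rw [Fintype.sum_sum_type, Fintype.sum_prod_type]
  have key : ∀ (p q : ℕ) (y : E d), ∑ j : ↥(Finset.Ico p q), b (j : ℕ) y ≤ C₀ := by
    intro p q y
    rw [Finset.sum_coe_sort (Finset.Ico p q) (fun j => b j y)]
    refine le_trans (Finset.sum_le_sum_of_subset_of_nonneg ?_ (fun i _ _ => hb0 i y)) (hb q y)
    intro i hi
    rw [Finset.mem_Ico] at hi
    exact Finset.mem_range.mpr hi.2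
  have h1 : ∑ j : ↥(Finset.Ico n n'), aB b Cs A x₀ (Sum.inl j : Kp n n' N ↥Cs) x ≤ C₀ := key n n' x₀
  have h2 : ∑ j : ↥(Finset.Ico n' N), ∑ c : ↥Cs, aB b Cs A x₀ (Sum.inr (j, c) : Kp n n' N ↥Cs) x ≤ C₀ := by
    refine le_trans (Finset.sum_le_sum (fun j _ => ?_)) (key n' N x)
    exact loca_sum_le (b (j : ℕ)) (hb0 j) Cs A hd x
  linarith

/-- `cw_loc` -/
theorem cB_sum (hX : CP d P X) (γ s : ℝ) (M : ℝ → ℝ) (b : ℕ → E d → ℝ) (hs : 3 < s) (hM : ∀ p, 1 ≤ M p) (hw : ∀ k, Wt (PP P X k) (wS P X γ k) (b k) s M)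
    {n n' N : ℕ} (Cs : Finset (V d)) (A : V d → Set (E d)) (hd : ∀ c ∈ Cs, ∀ c' ∈ Cs, c ≠ c' → Disjoint (A c) (A c')) (x₀ x y : E d) :
    ((∃ c ∈ Cs, x ∈ A c ∧ y ∈ A c) → ∑ k : Kp n n' N ↥Cs, cw (PP P X (kx k)) (vB P X γ Cs A x₀ k) x y =
      ∑ k ∈ Finset.Ico n n', cw (PP P X k) (wS P X γ k) x₀ x₀ + ∑ k ∈ Finset.Ico n' N, cw (PP P X k) (wS P X γ k) x y) ∧
    ((¬ ∃ c ∈ Cs, x ∈ A c ∧ y ∈ A c) → ∑ k : Kp n n' N ↥Cs, cw (PP P X (kx k)) (vB P X γ Cs A x₀ k) x y =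
      ∑ k ∈ Finset.Ico n n', cw (PP P X k) (wS P X γ k) x₀ x₀) := by
  classical
  have hl : ∀ k : ℕ, ∀ c : V d, cw (PP P X k) (locw (A c) (wS P X γ k)) x y = if x ∈ A c ∧ y ∈ A c then cw (PP P X k) (wS P X γ k) x y else 0 := by
    intro k c
    have := PP_prob hX (P := P) (X := X) k
    rw [cw_loc (hw k) (A c) x y]
  have h1 : ∑ j : ↥(Finset.Ico n n'), cw (PP P X (kx (Sum.inl j : Kp n n' N ↥Cs))) (vB P X γ Cs A x₀ (Sum.inl j : Kp n n' N ↥Cs)) x y =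
      ∑ k ∈ Finset.Ico n n', cw (PP P X k) (wS P X γ k) x₀ x₀ := by
    rw [← Finset.sum_coe_sort (Finset.Ico n n') (fun k => cw (PP P X k) (wS P X γ k) x₀ x₀)]
    rfl
  have h2 : ∑ j : ↥(Finset.Ico n' N), ∑ c : ↥Cs, cw (PP P X (kx (Sum.inr (j, c) : Kp n n' N ↥Cs))) (vB P X γ Cs A x₀ (Sum.inr (j, c) : Kp n n' N ↥Cs)) x y =
      ∑ k ∈ Finset.Ico n' N, ∑ c ∈ Cs, (if x ∈ A c ∧ y ∈ A c then cw (PP P X k) (wS P X γ k) x y else 0) := by
    rw [← Finset.sum_coe_sort (Finset.Ico n' N) (fun k => ∑ c ∈ Cs, (if x ∈ A c ∧ y ∈ A c then cw (PP P X k) (wS P X γ k) x y else 0))]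
    refine Finset.sum_congr rfl (fun j _ => ?_)
    rw [← Finset.sum_coe_sort Cs (fun c => (if x ∈ A c ∧ y ∈ A c then cw (PP P X (j : ℕ)) (wS P X γ (j : ℕ)) x y else 0))]
    exact Finset.sum_congr rfl (fun c _ => hl (j : ℕ) (c : V d))
  rw [Fintype.sum_sum_type, Fintype.sum_prod_type]
  constructor
  · rintro ⟨c, hc, hx, hy⟩
    have h3 : ∑ k ∈ Finset.Ico n' N, ∑ c ∈ Cs, (if x ∈ A c ∧ y ∈ A c then cw (PP P X k) (wS P X γ k) x y else 0) = ∑ k ∈ Finset.Ico n' N, cw (PP P X k) (wS P X γ k) x y := by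
      refine Finset.sum_congr rfl (fun k _ => ?_)
      rw [Finset.sum_eq_single c]
      · simp [hx, hy]
      · intro c' hc' hne
        have hx' : x ∉ A c' := fun h => Set.disjoint_left.mp (hd _ hc' _ hc hne) h hx
        simp [hx']
      · intro h
        exact absurd hc h
    exact (congrArg₂ (· + ·) h1 (h2.trans h3))
  · intro hne
    have h3 : ∑ k ∈ Finset.Ico n' N, ∑ c ∈ Cs, (if x ∈ A c ∧ y ∈ A c then cw (PP P X k) (wS P X γ k) x y else 0) = 0 := by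
      refine Finset.sum_eq_zero (fun k _ => Finset.sum_eq_zero (fun c hc => ?_))
      rw [if_neg]
      intro h
      exact hne ⟨c, hc, h⟩
    exact (congrArg₂ (· + ·) h1 (h2.trans h3)).trans (add_zero _)

/-- `phi_push` and `idn_A` -/
theorem phi_A (hX : CP d P X) (γ s q : ℝ) (M : ℝ → ℝ) (b : ℕ → E d → ℝ) (hw : ∀ k, Wt (PP P X k) (wS P X γ k) (b k) s M) (n N : ℕ) (D : Set (E d)) (hv : volume D ≠ ⊤) :
    phi (fun k : ↥(Finset.Ico n N) => PP P X k) (volume.restrict D) (fun k => wS P X γ k) q Finset.univ = ∫ ω, TT P X γ n N D ω ^ q ∂P := by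
  have : ∀ k : ↥(Finset.Ico n N), IsProbabilityMeasure (PP P X (k : ℕ)) := fun k => PP_prob hX _
  have : IsFiniteMeasure (volume.restrict D) := ⟨by simpa using hv.lt_top⟩
  have h := phi_push (κ := ↥(Finset.Ico n N)) (Θ := fun k => SP X (k : ℕ)) (fun k => PP P X (k : ℕ)) P (fun _ ω => ω)
    (fun k => meas_SP hX (k : ℕ)) (idn_A hX n N) (fun k => rfl) (volume.restrict D) (fun k => wS P X γ (k : ℕ)) (fun k => b (k : ℕ)) s M (fun k => hw _) q
  rw [h]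
  refine integral_congr_ae (Filter.Eventually.of_forall (fun ω => ?_))
  show (∫ x in D, ∏ k : ↥(Finset.Ico n N), wS P X γ (k : ℕ) ω x) ^ q = TT P X γ n N D ω ^ q
  unfold TT
  congr 1
  refine integral_congr_ae (Filter.Eventually.of_forall (fun x => ?_))
  exact Finset.prod_coe_sort (Finset.Ico n N) (fun k => wt P X γ k ω x)

private theorem wt_nonneg' (γ : ℝ) (k : ℕ) (ω : Ω) (x : E d) : 0 ≤ wt P X γ k ω x :=
  div_nonneg (Real.exp_pos _).le (integral_nonneg (fun _ => (Real.exp_pos _).le))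

/-- `phi_push`, `idn_B`, `idn_map`: for `x ∈ A c` the product of the weights is `∏_{k < n'} wt k ω.1 x₀ * ∏_{n' ≤ k < N} wt k (ω.2 c) x`, so the mass is the product of the frozen factor and
`∑_c TT n' N (A c) (ω.2 c)`; the integral over the product measure is the product of the integrals (`integral_prod_mul`) -/
theorem phi_B (hX : CP d P X) (γ s q : ℝ) (M : ℝ → ℝ) (b : ℕ → E d → ℝ) (hs : 3 < s) (hM : ∀ p, 1 ≤ M p) (hw : ∀ k, Wt (PP P X k) (wS P X γ k) (b k) s M)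
    {n n' N : ℕ} (Cs : Finset (V d)) (A : V d → Set (E d)) (hA : ∀ c ∈ Cs, MeasurableSet (A c)) (hv : ∀ c ∈ Cs, volume (A c) ≠ ⊤)
    (hd : ∀ c ∈ Cs, ∀ c' ∈ Cs, c ≠ c' → Disjoint (A c) (A c')) (x₀ : E d) :
    phi (fun k : Kp n n' N ↥Cs => PP P X (kx k)) (volume.restrict (⋃ c ∈ Cs, A c)) (vB P X γ Cs A x₀) q Finset.univ =
      (∫ ω, (∏ k ∈ Finset.Ico n n', wt P X γ k ω x₀) ^ q ∂P) * ∫ ω, (∑ c : ↥Cs, TT P X γ n' N (A c) (ω c)) ^ q ∂(Measure.pi fun _ : ↥Cs => P) := by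
  classical
  have : ∀ k : Kp n n' N ↥Cs, IsProbabilityMeasure (PP P X (kx k)) := fun k => PP_prob hX _
  have : IsFiniteMeasure (volume.restrict (⋃ c ∈ Cs, A c)) := by
    refine ⟨?_⟩
    rw [Measure.restrict_apply_univ]
    exact measure_biUnion_lt_top Cs.finite_toSet (fun c hc => (hv c hc).lt_top)
  have h := phi_push (κ := Kp n n' N ↥Cs) (Θ := fun k => SP X (kx k)) (fun k => PP P X (kx k)) (P.prod (Measure.pi fun _ : ↥Cs => P)) (fun k ω => (kg k ω : Ω))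
    (fun k => (idn_map hX n n' N ↥Cs k).1) (idn_B hX n n' N ↥Cs) (fun k => (idn_map hX n n' N ↥Cs k).2) (volume.restrict (⋃ c ∈ Cs, A c))
    (vB P X γ Cs A x₀) (aB b Cs A x₀) s M (fun k => vB_Wt hX γ s M b hs hM hw Cs A hA x₀ k) q
  rw [h, ← integral_prod_mul (μ := P) (ν := Measure.pi fun _ : ↥Cs => P) (fun ω => (∏ k ∈ Finset.Ico n n', wt P X γ k ω x₀) ^ q) (fun ω => (∑ c : ↥Cs, TT P X γ n' N (A c) (ω c)) ^ q)]
  refine integral_congr_ae (Filter.Eventually.of_forall (fun ω => ?_))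
  have hprod : ∀ x : E d, ∏ k : Kp n n' N ↥Cs, vB P X γ Cs A x₀ k (kg k ω) x =
      (∏ k ∈ Finset.Ico n n', wt P X γ k ω.1 x₀) * ∏ k : ↥(Finset.Ico n' N), ∏ c : ↥Cs, locw (A c) (wt P X γ (k : ℕ)) (ω.2 c) x := by
    intro x
    rw [Fintype.prod_sum_type, Fintype.prod_prod_type, ← Finset.prod_coe_sort (Finset.Ico n n')]
    rfl
  have hin : ∀ c ∈ Cs, ∀ x ∈ A c, ∀ (hc : c ∈ Cs), ∏ k : Kp n n' N ↥Cs, vB P X γ Cs A x₀ k (kg k ω) x =
      (∏ k ∈ Finset.Ico n n', wt P X γ k ω.1 x₀) * ∏ k ∈ Finset.Ico n' N, wt P X γ k (ω.2 ⟨c, hc⟩) x := by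
    intro c _ x hx hc
    rw [hprod x, ← Finset.prod_coe_sort (Finset.Ico n' N)]
    congr 1
    refine Finset.prod_congr rfl (fun k _ => ?_)
    rw [Finset.prod_eq_single (⟨c, hc⟩ : ↥Cs)]
    · simp [locw, hx]
    · intro c' _ hne
      have hne' : (c' : V d) ≠ c := fun e => hne (Subtype.ext e)
      have hx' : x ∉ A c' := fun h' => Set.disjoint_left.mp (hd _ c'.2 _ hc hne') h' hx
      simp [locw, hx']
    · intro hh
      exact absurd (Finset.mem_univ _) hh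
  have hint : (∫ x in ⋃ c ∈ Cs, A c, ∏ k : Kp n n' N ↥Cs, vB P X γ Cs A x₀ k (kg k ω) x) =
      (∏ k ∈ Finset.Ico n n', wt P X γ k ω.1 x₀) * ∑ c : ↥Cs, TT P X γ n' N (A c) (ω.2 c) := by
    rw [integral_biUnion_finset Cs hA (fun c hc c' hc' hne => hd c hc c' hc' hne)]
    · rw [Finset.mul_sum, ← Finset.sum_coe_sort Cs]
      refine Finset.sum_congr rfl (fun c _ => ?_)
      unfold TT
      rw [← integral_const_mul]
      refine setIntegral_congr_fun (hA _ c.2) (fun x hx => ?_)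
      exact hin _ c.2 x hx c.2
    · intro c hc
      have h1 : IntegrableOn (fun x => (∏ k ∈ Finset.Ico n n', wt P X γ k ω.1 x₀) * ∏ k ∈ Finset.Ico n' N, wt P X γ k (ω.2 ⟨c, hc⟩) x) (A c) :=
        (tt_integrable hX γ n' N (ω.2 ⟨c, hc⟩) (A c) (hv c hc)).const_mul (∏ k ∈ Finset.Ico n n', wt P X γ k ω.1 x₀)
      exact IntegrableOn.congr_fun h1 (fun x hx => (hin c hc x hx hc).symm) (hA c hc)
  show (∫ x in ⋃ c ∈ Cs, A c, ∏ k : Kp n n' N ↥Cs, vB P X γ Cs A x₀ k (kg k ω) x) ^ q = _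
  rw [hint, Real.mul_rpow (Finset.prod_nonneg (fun k _ => wt_nonneg' γ k ω.1 x₀)) (Finset.sum_nonneg (fun c _ => tt_nonneg hX γ n' N _ _))]

end Pool.Agent.MChaos
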