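import Pool.Agent.Lib_MP_a91488.GENA
import Pool.Agent.Lib_MP_a91488.GENC
import Pool.Agent.Lib_MP_a91488.CMP

/-!
# Piece GENB: the branching inequality
-/

set_option autoImplicit false

open MeasureTheory ProbabilityTheory

namespace Pool.Agent.MChaos

variable {d : ℕ} {Ω : Type} [MeasurableSpace Ω] {P : Measure Ω} [IsProbabilityMeasure P] {X : ℕ → Ω → E d → ℝ}

/-- `compare` for `D = ⋃ A c` (`m = volume.restrict D`), the fields `n ≤ k < N` and the family `vB` (`x₀` any point of `D`; the cells are disjoint since the distance of points of different cells is positive).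
Covariances: `gen_cov`, `cB_sum`, for almost all `y`, `y ≠ x` (`volume` has no atoms, `0 < d`); points in different cells occur only if `0 ≤ q (q - 1)`.
`phi_A`, `tt_union`, `phi_B`, `prod_mom` for the frozen factor. -/
theorem genb (hX : CP d P X) (γ q c₀ : ℝ) : ∃ C δ₀ : ℝ, 0 < C ∧ 0 < δ₀ ∧ ∀ n n' N : ℕ, n ≤ n' → n' ≤ N → ∀ (Cs : Finset (V d)) (A : V d → Set (E d)), Cs.Nonempty →
    (∀ c ∈ Cs, MeasurableSet (A c)) → (∀ c ∈ Cs, A c ⊆ cube d) → (∀ c ∈ Cs, volume (A c) ≠ 0) →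
    (∀ c ∈ Cs, ∀ c' ∈ Cs, ∀ x ∈ A c, ∀ y ∈ A c', ‖x - y‖ ≤ δ₀) →
    (∀ c ∈ Cs, ∀ x ∈ A c, ∀ y ∈ A c, ‖x - y‖ ≤ Real.exp (-sig2 P X n')) →
    (∀ c ∈ Cs, ∀ c' ∈ Cs, c ≠ c' → 0 ≤ q * (q - 1) ∧ ∀ x ∈ A c, ∀ y ∈ A c', Real.exp (-sig2 P X n' - c₀) ≤ ‖x - y‖) →
    ∫ ω, (∑ c ∈ Cs, TT P X γ n N (A c) ω) ^ q ∂P ≤ C * Real.exp ((q ^ 2 - q) * γ ^ 2 / 2 * (sig2 P X n' - sig2 P X n)) *
      ∫ ω, (∑ c : ↥Cs, TT P X γ n' N (A c) (ω c)) ^ q ∂(Measure.pi fun _ : ↥Cs => P) := by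
  obtain ⟨s, M, b, C₀, hs, hM, hw, hb, hc⟩ := wt_Wt hX γ
  have hb0 : ∀ k x, 0 ≤ b k x := fun k x => (hw k).a0 x
  obtain ⟨δ, C1, hδ, hC1, hgen⟩ := gen_cov hX γ c₀ C₀ b hb hb0 hc
  obtain ⟨K, hK, hcmp⟩ := compare q s hs M
  obtain ⟨C2, hC2, hpm⟩ := prod_mom hX γ q
  have : ∀ k, IsProbabilityMeasure (PP P X k) := PP_prob hX
  refine ⟨Real.exp (K * (3 * C₀ + |q * (q - 1)| * C1)) * C2, δ, by positivity, hδ, ?_⟩
  intro n n' N hnn' hn'N Cs A hne hmeas hsub hvol hclose hdiam hsep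
  have hdj : ∀ c ∈ Cs, ∀ c' ∈ Cs, c ≠ c' → Disjoint (A c) (A c') := by
    intro c hcm c' hcm' hcc'
    rw [Set.disjoint_left]
    intro x hx hx'
    have := (hsep c hcm c' hcm' hcc').2 x hx x hx'
    rw [sub_self, norm_zero] at this
    exact absurd this (not_le.mpr (Real.exp_pos _))
  have hfin : ∀ c ∈ Cs, volume (A c) ≠ ⊤ := by
    intro c hcm
    have hbd : Bornology.IsBounded (A c) := by
      rw [Metric.isBounded_iff]
      refine ⟨Real.exp (-sig2 P X n'), fun x hx y hy => ?_⟩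
      rw [dist_eq_norm]; exact hdiam c hcm x hx y hy
    exact hbd.measure_lt_top.ne
  set D : Set (E d) := ⋃ c ∈ Cs, A c with hD
  have hDm : MeasurableSet D := Finset.measurableSet_biUnion _ hmeas
  have hDv : volume D ≠ ⊤ := by
    refine ne_of_lt ((measure_biUnion_finset_le Cs A).trans_lt ?_)
    exact ENNReal.sum_lt_top.mpr (fun c hcm => lt_top_iff_ne_top.mpr (hfin c hcm))
  obtain ⟨c0, hc0⟩ := hne
  have hDne : volume D ≠ 0 := by
    intro h0
    apply hvol c0 hc0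
    refine measure_mono_null ?_ h0
    exact Set.subset_biUnion_of_mem (u := fun c => A c) (Finset.mem_coe.mpr hc0)
  obtain ⟨x₀, hx₀⟩ : (A c0).Nonempty := by
    rw [Set.nonempty_iff_ne_empty]
    intro h; apply hvol c0 hc0; rw [h]; exact measure_empty
  have hx₀c : x₀ ∈ cube d := hsub c0 hc0 hx₀
  have : IsFiniteMeasure (volume.restrict D) := ⟨by rw [Measure.restrict_apply_univ]; exact lt_top_iff_ne_top.mpr hDv⟩
  have hm0 : volume.restrict D ≠ 0 := by
    rw [Ne, Measure.restrict_eq_zero]; exact hDne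
  have : Nonempty (Fin d) := ⟨⟨0, hX.dpos⟩⟩
  have : Nontrivial (E d) := inferInstance
  have hmain := hcmp (E d) (volume.restrict D) hm0 ↥(Finset.Ico n N) (fun k => SP X k) (fun k => PP P X k)
    (fun k => wS P X γ k) (fun k => b k) (fun k => hw k) (Kp n n' N ↥Cs) (fun k => SP X (kx k)) (fun k => PP P X (kx k))
    (vB P X γ Cs A x₀) (aB b Cs A x₀) (fun k => vB_Wt hX γ s M b hs hM hw Cs A hmeas x₀ k) (3 * C₀) (|q * (q - 1)| * C1)
    (by positivity) ?_ ?_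
  · rw [phi_A hX γ s q M b hw n N D hDv, phi_B hX γ s q M b hs hM hw Cs A hmeas hfin hdj x₀] at hmain
    have hL : ∫ ω, TT P X γ n N D ω ^ q ∂P = ∫ ω, (∑ c ∈ Cs, TT P X γ n N (A c) ω) ^ q ∂P := by
      refine integral_congr_ae (Filter.Eventually.of_forall fun ω => ?_)
      simp only []
      rw [hD, tt_union hX γ n N ω Cs A hmeas hfin]
      intro c hcm c' hcm' hcc'
      rw [(hdj c hcm c' hcm' hcc').inter_eq, measure_empty]
    rw [hL] at hmain
    have h2 := (hpm n n' hnn' x₀ hx₀c).2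
    have h3 : 0 ≤ ∫ ω, (∑ c : ↥Cs, TT P X γ n' N (A c) (ω c)) ^ q ∂(Measure.pi fun _ : ↥Cs => P) := by
      refine integral_nonneg fun ω => ?_
      exact Real.rpow_nonneg (Finset.sum_nonneg fun c _ => tt_nonneg hX γ n' N _ _) q
    refine hmain.trans ?_
    calc Real.exp (K * (3 * C₀ + |q * (q - 1)| * C1)) * ((∫ ω, (∏ k ∈ Finset.Ico n n', wt P X γ k ω x₀) ^ q ∂P) *
          ∫ ω, (∑ c : ↥Cs, TT P X γ n' N (A c) (ω c)) ^ q ∂(Measure.pi fun _ : ↥Cs => P))
        ≤ Real.exp (K * (3 * C₀ + |q * (q - 1)| * C1)) * ((C2 * Real.exp ((q ^ 2 - q) * γ ^ 2 / 2 * (sig2 P X n' - sig2 P X n))) *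
          ∫ ω, (∑ c : ↥Cs, TT P X γ n' N (A c) (ω c)) ^ q ∂(Measure.pi fun _ : ↥Cs => P)) :=
          mul_le_mul_of_nonneg_left (mul_le_mul_of_nonneg_right h2 h3) (Real.exp_pos _).le
      _ = _ := by ring
  · intro x
    have h1 : ∑ k : ↥(Finset.Ico n N), b k x ≤ C₀ := by
      rw [Finset.sum_coe_sort (Finset.Ico n N) (fun k => b k x)]
      refine le_trans (Finset.sum_le_sum_of_subset_of_nonneg ?_ fun k _ _ => hb0 k x) (hb N x)
      intro k hk
      exact Finset.mem_range.mpr (Finset.mem_Ico.mp hk).2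
    have h2 := aB_sum (n := n) (n' := n') (N := N) b C₀ hb hb0 Cs A hdj x₀ x
    linarith
  · have haeD : ∀ᵐ x ∂(volume.restrict D), x ∈ D := ae_restrict_mem hDm
    filter_upwards [haeD] with x hx
    have hne' : ∀ᵐ y ∂(volume.restrict D), y ≠ x := by
      refine ae_restrict_of_ae ?_
      exact Measure.ae_ne volume x
    filter_upwards [haeD, hne'] with y hy hyx
    rw [hD, Set.mem_iUnion₂] at hx hy
    obtain ⟨c, hcm, hxc⟩ := hx
    obtain ⟨c', hcm', hyc⟩ := hy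
    have hxcube := hsub c hcm hxc
    have hycube := hsub c' hcm' hyc
    have hg := hgen n n' N hnn' hn'N x hxcube y hycube x₀ hx₀c (Ne.symm hyx) (hclose c hcm c' hcm' x hxc y hyc)
    have hsumA : ∑ k : ↥(Finset.Ico n N), cw (PP P X k) (wS P X γ k) x y = ∑ k ∈ Finset.Ico n N, cw (PP P X k) (wS P X γ k) x y :=
      Finset.sum_coe_sort (Finset.Ico n N) (fun k => cw (PP P X k) (wS P X γ k) x y)
    have hcB := cB_sum (n := n) (n' := n') (N := N) hX γ s M b hs hM hw Cs A hdj x₀ x y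
    rw [hsumA]
    by_cases hcc' : c = c'
    · subst hcc'
      rw [hcB.1 ⟨c, hcm, hxc, hyc⟩]
      have h1 := hg.1 (hdiam c hcm x hxc y hyc)
      refine (le_abs_self _).trans ?_
      rw [abs_mul]
      exact mul_le_mul_of_nonneg_left h1 (abs_nonneg _)
    · obtain ⟨hq, hd⟩ := hsep c hcm c' hcm' hcc'
      have hno : ¬ ∃ e ∈ Cs, x ∈ A e ∧ y ∈ A e := by
        rintro ⟨e, he, hxe, hye⟩
        have e1 : c = e := by
          by_contra hh
          exact Set.disjoint_left.mp (hdj c hcm e he hh) hxc hxe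
        have e2 : c' = e := by
          by_contra hh
          exact Set.disjoint_left.mp (hdj c' hcm' e he hh) hyc hye
        exact hcc' (e1.trans e2.symm)
      rw [hcB.2 hno]
      have h1 := hg.2 (hd x hxc y hyc)
      rw [abs_of_nonneg hq]
      exact mul_le_mul_of_nonneg_left h1 hq

end Pool.Agent.MChaos
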