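import Pool.Agent.Lib_MP_a91488.FDefs

/-!
# Piece GEO: dyadic cubes
-/

set_option autoImplicit false

open MeasureTheory Metric

namespace Pool.Agent.MChaos

variable {d : ℕ}

private theorem cont_coord (i : Fin d) : Continuous (fun x : E d => x i) :=
  (EuclideanSpace.proj i : E d →L[ℝ] ℝ).continuous

theorem cb_closed (m : ℕ) (z : V d) : IsClosed (cb m z) := by
  have : cb m z = ⋂ i, ({x : E d | (z i : ℝ) / 2 ^ m ≤ x i} ∩ {x : E d | x i ≤ ((z i : ℝ) + 1) / 2 ^ m}) := by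
    ext x; simp [cb]
  rw [this]
  refine isClosed_iInter fun i => IsClosed.inter ?_ ?_
  · exact isClosed_le continuous_const (cont_coord i)
  · exact isClosed_le (cont_coord i) continuous_const

theorem cb_meas (m : ℕ) (z : V d) : MeasurableSet (cb m z) := (cb_closed m z).measurableSet

theorem nb_open (m : ℕ) (z : V d) : IsOpen (nb m z) := by
  have : nb m z = ⋂ i, ({x : E d | ((z i : ℝ) - 1) / 2 ^ m < x i} ∩ {x : E d | x i < ((z i : ℝ) + 2) / 2 ^ m}) := by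
    ext x; simp [nb]
  rw [this]
  refine isOpen_iInter_of_finite fun i => IsOpen.inter ?_ ?_
  · exact isOpen_lt continuous_const (cont_coord i)
  · exact isOpen_lt (cont_coord i) continuous_const

private theorem vol_box (a b : Fin d → ℝ) (s : Set (E d)) (hs : s = {x : E d | ∀ i, a i ≤ x i ∧ x i ≤ b i}) :
    volume s = ∏ i, ENNReal.ofReal (b i - a i) := by
  have h1 : s = (WithLp.ofLp : E d → (Fin d → ℝ)) ⁻¹' (Set.Icc a b) := by
    ext x
    simp [hs, Set.mem_Icc, Pi.le_def, forall_and]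
  have h2 := (PiLp.volume_preserving_ofLp (Fin d)).measure_preimage (s := Set.Icc a b)
    (measurableSet_Icc.nullMeasurableSet)
  rw [h1, h2, Real.volume_Icc_pi]

/-- `EuclideanSpace.volume_preserving_symm_measurableEquiv_toLp` or `PiLp.volume_preserving_ofLp`, `Real.volume_Icc_pi` -/
theorem cb_vol (m : ℕ) (z : V d) : volume (cb m z) = ENNReal.ofReal (1 / 2 ^ (d * m)) := by
  rw [vol_box (fun i => (z i : ℝ) / 2 ^ m) (fun i => ((z i : ℝ) + 1) / 2 ^ m) (cb m z) rfl]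
  have : ∀ i : Fin d, ENNReal.ofReal (((z i : ℝ) + 1) / 2 ^ m - (z i : ℝ) / 2 ^ m) = ENNReal.ofReal (1 / 2 ^ m) := by
    intro i
    congr 1
    ring
  rw [Finset.prod_congr rfl (fun i _ => this i), Finset.prod_const, Finset.card_univ, Fintype.card_fin,
    ← ENNReal.ofReal_pow (by positivity)]
  congr 1
  rw [div_pow, one_pow, ← pow_mul, mul_comm m d]

theorem cube_vol : volume (cube d) = 1 := by
  rw [vol_box (fun _ => (0 : ℝ)) (fun _ => (1 : ℝ)) (cube d) rfl]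
  simp

theorem cube_meas : MeasurableSet (cube d) := by
  have : cube d = ⋂ i, ({x : E d | 0 ≤ x i} ∩ {x : E d | x i ≤ 1}) := by
    ext x; simp [cube]
  rw [this]
  refine MeasurableSet.iInter fun i => MeasurableSet.inter ?_ ?_
  · exact (isClosed_le continuous_const (cont_coord i)).measurableSet
  · exact (isClosed_le (cont_coord i) continuous_const).measurableSet

private theorem mem_Idx (m : ℕ) (z : V d) : z ∈ Idx d m ↔ ∀ i, z i < 2 ^ m := by
  simp [Idx, Fintype.mem_piFinset]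

private theorem mem_Chd (j : ℕ) (z c : V d) : c ∈ Chd j z ↔ ∀ i, 2 ^ j * z i ≤ c i ∧ c i < 2 ^ j * (z i + 1) := by
  simp [Chd, Fintype.mem_piFinset]

private theorem mem_Nbr (m : ℕ) (z c : V d) : c ∈ Nbr m z ↔ (∀ i, c i < 2 ^ m) ∧ ∀ i, c i ≤ z i + 1 ∧ z i ≤ c i + 1 := by
  simp [Nbr, mem_Idx]

theorem cb_sub (m : ℕ) (z : V d) (hz : z ∈ Idx d m) : cb m z ⊆ cube d := by
  intro x hx i
  rw [mem_Idx] at hz
  obtain ⟨h1, h2⟩ := hx i
  constructor
  · exact le_trans (by positivity) h1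
  · refine le_trans h2 ?_
    rw [div_le_one (by positivity)]
    have h3 : z i + 1 ≤ 2 ^ m := hz i
    have h4 : ((z i + 1 : ℕ) : ℝ) ≤ ((2 ^ m : ℕ) : ℝ) := Nat.cast_le.mpr h3
    push_cast at h4
    exact h4

theorem cb_diam (m : ℕ) (z : V d) (x y : E d) (hx : x ∈ cb m z) (hy : y ∈ cb m z) : ‖x - y‖ ≤ Real.sqrt d / 2 ^ m := by
  rw [EuclideanSpace.norm_eq]
  have h : ∀ i : Fin d, ‖(x - y) i‖ ^ 2 ≤ (1 / 2 ^ m) ^ 2 := by
    intro i
    rw [Real.norm_eq_abs, sq_abs]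
    apply sq_le_sq'
    · have h1 := (hx i).1
      have h2 := (hy i).2
      have : (x - y) i = x i - y i := rfl
      rw [this]
      have h3 : ((z i : ℝ) + 1) / 2 ^ m = (z i : ℝ) / 2 ^ m + 1 / 2 ^ m := by ring
      rw [h3] at h2
      linarith
    · have h1 := (hx i).2
      have h2 := (hy i).1
      have : (x - y) i = x i - y i := rfl
      rw [this]
      have h3 : ((z i : ℝ) + 1) / 2 ^ m = (z i : ℝ) / 2 ^ m + 1 / 2 ^ m := by ring
      rw [h3] at h1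
      linarith
  calc Real.sqrt (∑ i, ‖(x - y) i‖ ^ 2) ≤ Real.sqrt (∑ _i : Fin d, (1 / 2 ^ m) ^ 2) :=
        Real.sqrt_le_sqrt (Finset.sum_le_sum fun i _ => h i)
    _ = Real.sqrt d / 2 ^ m := by
        rw [Finset.sum_const, Finset.card_univ, Fintype.card_fin, nsmul_eq_mul, Real.sqrt_mul (by positivity),
          Real.sqrt_sq (by positivity)]
        ring

theorem cor_mem (m : ℕ) (z : V d) : cor m z ∈ cb m z := by
  intro i
  have h : (cor m z) i = (z i : ℝ) / 2 ^ m := rfl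
  rw [h]
  refine ⟨le_refl _, ?_⟩
  gcongr
  linarith

theorem cb_sub_nb (m : ℕ) (z : V d) : cb m z ⊆ nb m z := by
  intro x hx i
  obtain ⟨h1, h2⟩ := hx i
  constructor
  · refine lt_of_lt_of_le ?_ h1
    gcongr
    linarith
  · refine lt_of_le_of_lt h2 ?_
    gcongr
    linarith

private theorem coord_le (x y : E d) (i : Fin d) : |x i - y i| ≤ ‖x - y‖ := by
  have := PiLp.norm_apply_le (x - y) i
  simpa [Real.norm_eq_abs] using this

/-- `|y i - x i| ≤ ‖y - x‖` -/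
theorem ball_sub_nb (m : ℕ) (z : V d) (x : E d) (hx : x ∈ cb m z) : ball x (1 / 2 ^ m) ⊆ nb m z := by
  intro y hy i
  rw [mem_ball, dist_eq_norm] at hy
  have h := lt_of_le_of_lt (coord_le y x i) hy
  rw [abs_lt] at h
  obtain ⟨h1, h2⟩ := hx i
  have e1 : ((z i : ℝ) - 1) / 2 ^ m = (z i : ℝ) / 2 ^ m - 1 / 2 ^ m := by ring
  have e2 : ((z i : ℝ) + 2) / 2 ^ m = ((z i : ℝ) + 1) / 2 ^ m + 1 / 2 ^ m := by ring
  rw [e1, e2]
  constructor <;> linarith [h.1, h.2]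

/-- dyadic interval index of a real number in `[0,1]` -/
private theorem idx1 (m : ℕ) (t : ℝ) (h0 : 0 ≤ t) (h1 : t ≤ 1) : ∃ k : ℕ, k < 2 ^ m ∧ (k : ℝ) / 2 ^ m ≤ t ∧ t ≤ ((k : ℝ) + 1) / 2 ^ m := by
  have hp : (0 : ℝ) < 2 ^ m := by positivity
  rcases lt_or_eq_of_le h1 with h | h
  · refine ⟨⌊t * 2 ^ m⌋₊, ?_, ?_, ?_⟩
    · rw [Nat.floor_lt (by positivity)]
      push_cast
      nlinarith
    · rw [div_le_iff₀ hp]
      exact Nat.floor_le (by positivity)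
    · rw [le_div_iff₀ hp]
      exact (Nat.lt_floor_add_one _).le
  · refine ⟨2 ^ m - 1, ?_, ?_, ?_⟩
    · have : 0 < 2 ^ m := by positivity
      omega
    · have h2 : 1 ≤ 2 ^ m := Nat.one_le_two_pow
      push_cast [Nat.cast_sub h2]
      rw [h, div_le_one hp]
      linarith
    · have h2 : 1 ≤ 2 ^ m := Nat.one_le_two_pow
      push_cast [Nat.cast_sub h2]
      rw [h, sub_add_cancel, div_self hp.ne']

theorem cube_cover (m : ℕ) (x : E d) (hx : x ∈ cube d) : ∃ z ∈ Idx d m, x ∈ cb m z := by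
  choose k hk1 hk2 hk3 using fun i => idx1 m (x i) (hx i).1 (hx i).2
  refine ⟨k, ?_, ?_⟩
  · rw [mem_Idx]; exact hk1
  · exact fun i => ⟨hk2 i, hk3 i⟩

theorem nb_cover (m : ℕ) (z : V d) (x : E d) (hx : x ∈ nb m z) (hc : x ∈ cube d) : ∃ c ∈ Nbr m z, x ∈ cb m c := by
  have hp : (0 : ℝ) < 2 ^ m := by positivity
  obtain ⟨c, hc1, hc2⟩ := cube_cover m x hc
  have hc1' := (mem_Idx m c).1 hc1
  -- choose the coordinate of `c`, or correct it
  have key : ∀ i, ∃ k : ℕ, k < 2 ^ m ∧ (k ≤ z i + 1 ∧ z i ≤ k + 1) ∧ (k : ℝ) / 2 ^ m ≤ x i ∧ x i ≤ ((k : ℝ) + 1) / 2 ^ m := by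
    intro i
    obtain ⟨h1, h2⟩ := hx i
    obtain ⟨h3, h4⟩ := hc2 i
    rw [div_lt_iff₀ hp] at h1
    rw [lt_div_iff₀ hp] at h2
    have h3' := h3
    have h4' := h4
    rw [div_le_iff₀ hp] at h3'
    rw [le_div_iff₀ hp] at h4'
    refine ⟨c i, hc1' i, ⟨?_, ?_⟩, h3, h4⟩
    · have : (c i : ℝ) < z i + 2 := by linarith
      have : c i < z i + 2 := by exact_mod_cast this
      omega
    · have : (z i : ℝ) < c i + 2 := by linarith
      have : z i < c i + 2 := by exact_mod_cast this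
      omega
  choose k hk1 hk2 hk3 using key
  refine ⟨k, ?_, hk3⟩
  rw [mem_Nbr]
  exact ⟨hk1, hk2⟩

theorem Nbr_card (m : ℕ) (z : V d) : (Nbr m z).card ≤ 3 ^ d := by
  have h : Nbr m z ⊆ Fintype.piFinset (fun i => Finset.Icc (z i - 1) (z i + 1)) := by
    intro c hc
    rw [mem_Nbr] at hc
    rw [Fintype.mem_piFinset]
    intro i
    rw [Finset.mem_Icc]
    have := hc.2 i
    omega
  refine le_trans (Finset.card_le_card h) ?_
  rw [Fintype.card_piFinset]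
  calc ∏ i, (Finset.Icc (z i - 1) (z i + 1)).card ≤ ∏ _i : Fin d, 3 := by
        apply Finset.prod_le_prod'
        intro i _
        rw [Nat.card_Icc]
        omega
    _ = 3 ^ d := by simp

theorem Nbr_self (m : ℕ) (z : V d) (hz : z ∈ Idx d m) : z ∈ Nbr m z := by
  rw [mem_Nbr]
  exact ⟨(mem_Idx m z).1 hz, fun i => ⟨by omega, by omega⟩⟩

theorem Nbr_symm (m : ℕ) (z c : V d) (hz : z ∈ Idx d m) (hc : c ∈ Nbr m z) : c ∈ Idx d m ∧ z ∈ Nbr m c := by
  rw [mem_Nbr] at hc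
  rw [mem_Nbr, mem_Idx]
  exact ⟨hc.1, (mem_Idx m z).1 hz, fun i => ⟨(hc.2 i).2, (hc.2 i).1⟩⟩

/-- neighbouring cubes have a common point -/
theorem Nbr_touch (m : ℕ) (z c : V d) (hz : z ∈ Idx d m) (hc : c ∈ Nbr m z) : ∃ w, w ∈ cb m z ∧ w ∈ cb m c := by
  rw [mem_Nbr] at hc
  refine ⟨WithLp.toLp 2 (fun i => (max (z i : ℝ) (c i : ℝ)) / 2 ^ m), fun i => ?_, fun i => ?_⟩
  · have h := hc.2 i
    have h1 : (c i : ℝ) ≤ z i + 1 := by exact_mod_cast h.1
    have h2 : (z i : ℝ) ≤ c i + 1 := by exact_mod_cast h.2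
    change (z i : ℝ) / 2 ^ m ≤ (max (z i : ℝ) (c i : ℝ)) / 2 ^ m ∧ (max (z i : ℝ) (c i : ℝ)) / 2 ^ m ≤ ((z i : ℝ) + 1) / 2 ^ m
    constructor
    · gcongr
      exact le_max_left _ _
    · gcongr
      exact max_le (by linarith) h1
  · have h := hc.2 i
    have h1 : (c i : ℝ) ≤ z i + 1 := by exact_mod_cast h.1
    have h2 : (z i : ℝ) ≤ c i + 1 := by exact_mod_cast h.2
    change (c i : ℝ) / 2 ^ m ≤ (max (z i : ℝ) (c i : ℝ)) / 2 ^ m ∧ (max (z i : ℝ) (c i : ℝ)) / 2 ^ m ≤ ((c i : ℝ) + 1) / 2 ^ m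
    constructor
    · gcongr
      exact le_max_right _ _
    · gcongr
      exact max_le h2 (by linarith)

theorem Chd_card (j : ℕ) (z : V d) : (Chd j z).card = 2 ^ (d * j) := by
  rw [Chd, Fintype.card_piFinset]
  have : ∀ i : Fin d, (Finset.Ico (2 ^ j * z i) (2 ^ j * (z i + 1))).card = 2 ^ j := by
    intro i
    rw [Nat.card_Ico, mul_add, mul_one, Nat.add_sub_cancel_left]
  rw [Finset.prod_congr rfl (fun i _ => this i), Finset.prod_const, Finset.card_univ, Fintype.card_fin, ← pow_mul, mul_comm]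

theorem Chd_Idx (m j : ℕ) (z c : V d) (hz : z ∈ Idx d m) (hc : c ∈ Chd j z) : c ∈ Idx d (m + j) := by
  rw [mem_Idx] at *
  rw [mem_Chd] at hc
  intro i
  calc c i < 2 ^ j * (z i + 1) := (hc i).2
    _ ≤ 2 ^ j * 2 ^ m := Nat.mul_le_mul_left _ (hz i)
    _ = 2 ^ (m + j) := by rw [pow_add, mul_comm]

theorem Chd_sub (m j : ℕ) (z c : V d) (hc : c ∈ Chd j z) : cb (m + j) c ⊆ cb m z := by
  rw [mem_Chd] at hc
  intro x hx i
  obtain ⟨h1, h2⟩ := hx i
  obtain ⟨h3, h4⟩ := hc i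
  have h3' : (2 : ℝ) ^ j * z i ≤ c i := by exact_mod_cast h3
  have h4' : (c i : ℝ) + 1 ≤ 2 ^ j * ((z i : ℝ) + 1) := by exact_mod_cast h4
  constructor
  · refine le_trans ?_ h1
    rw [div_le_div_iff₀ (by positivity) (by positivity), pow_add]
    calc (z i : ℝ) * (2 ^ m * 2 ^ j) = (2 ^ j * z i) * 2 ^ m := by ring
      _ ≤ c i * 2 ^ m := by gcongr
  · refine le_trans h2 ?_
    rw [div_le_div_iff₀ (by positivity) (by positivity), pow_add]
    calc ((c i : ℝ) + 1) * 2 ^ m ≤ (2 ^ j * ((z i : ℝ) + 1)) * 2 ^ m := by gcongr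
      _ = ((z i : ℝ) + 1) * (2 ^ m * 2 ^ j) := by ring

theorem Chd_nb (m j : ℕ) (z c : V d) (hc : c ∈ Chd j z) : nb (m + j) c ⊆ nb m z := by
  rw [mem_Chd] at hc
  intro x hx i
  obtain ⟨h1, h2⟩ := hx i
  obtain ⟨h3, h4⟩ := hc i
  have h3' : (2 : ℝ) ^ j * z i ≤ c i := by exact_mod_cast h3
  have h4' : (c i : ℝ) + 1 ≤ 2 ^ j * ((z i : ℝ) + 1) := by exact_mod_cast h4
  have hj : (1 : ℝ) ≤ 2 ^ j := one_le_pow₀ (by norm_num)
  constructor
  · refine lt_of_le_of_lt ?_ h1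
    rw [div_le_div_iff₀ (by positivity) (by positivity), pow_add]
    have h5 : 2 ^ j * ((z i : ℝ) - 1) ≤ (c i : ℝ) - 1 := by nlinarith
    calc ((z i : ℝ) - 1) * (2 ^ m * 2 ^ j) = (2 ^ j * ((z i : ℝ) - 1)) * 2 ^ m := by ring
      _ ≤ ((c i : ℝ) - 1) * 2 ^ m := by gcongr
  · refine lt_of_lt_of_le h2 ?_
    rw [div_le_div_iff₀ (by positivity) (by positivity), pow_add]
    have h5 : (c i : ℝ) + 2 ≤ 2 ^ j * ((z i : ℝ) + 2) := by nlinarith
    calc ((c i : ℝ) + 2) * 2 ^ m ≤ (2 ^ j * ((z i : ℝ) + 2)) * 2 ^ m := by gcongr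
      _ = ((z i : ℝ) + 2) * (2 ^ m * 2 ^ j) := by ring

/-- the ancestor -/
theorem Chd_parent (m j : ℕ) (c : V d) (hc : c ∈ Idx d (m + j)) : ∃ z ∈ Idx d m, c ∈ Chd j z := by
  rw [mem_Idx] at hc
  refine ⟨fun i => c i / 2 ^ j, ?_, ?_⟩
  · rw [mem_Idx]
    intro i
    have := hc i
    rw [pow_add] at this
    exact Nat.div_lt_of_lt_mul (by rw [mul_comm]; exact this)
  · rw [mem_Chd]
    intro i
    constructor
    · exact Nat.mul_div_le _ _
    · exact Nat.lt_mul_div_succ _ (by positivity)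

theorem Chd_unique (j : ℕ) (z z' c : V d) (hc : c ∈ Chd j z) (hc' : c ∈ Chd j z') : z = z' := by
  rw [mem_Chd] at hc hc'
  funext i
  obtain ⟨h1, h2⟩ := hc i
  obtain ⟨h3, h4⟩ := hc' i
  have h5 : z i < z' i + 1 := Nat.lt_of_mul_lt_mul_left (lt_of_le_of_lt h1 h4)
  have h6 : z' i < z i + 1 := Nat.lt_of_mul_lt_mul_left (lt_of_le_of_lt h3 h2)
  omega

theorem Idx_card (m : ℕ) : (Idx d m).card = 2 ^ (d * m) := by
  rw [Idx, Fintype.card_piFinset]
  simp only [Finset.card_range, Finset.prod_const, Finset.card_univ, Fintype.card_fin]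
  rw [← pow_mul, mul_comm]

theorem Idx_zero (m : ℕ) : (fun _ => 0 : V d) ∈ Idx d m := by
  rw [mem_Idx]
  intro i
  positivity

/-- the corner of a descendant of `c'` lies in `nb m c` only if `c'` is a neighbour of `c` -/
theorem cor_nb (m j : ℕ) (c c' e : V d) (hc : c ∈ Idx d m) (hc' : c' ∈ Idx d m) (he : e ∈ Chd j c') (h : cor (m + j) e ∈ nb m c) : c' ∈ Nbr m c := by
  rw [mem_Chd] at he
  rw [mem_Nbr]
  refine ⟨(mem_Idx m c').1 hc', fun i => ?_⟩
  obtain ⟨h1, h2⟩ := h i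
  have hcor : (cor (m + j) e) i = (e i : ℝ) / 2 ^ (m + j) := rfl
  rw [hcor] at h1 h2
  obtain ⟨h3, h4⟩ := he i
  have h3' : (2 : ℝ) ^ j * c' i ≤ e i := by exact_mod_cast h3
  have h4' : (e i : ℝ) + 1 ≤ 2 ^ j * ((c' i : ℝ) + 1) := by exact_mod_cast h4
  have hj : (0 : ℝ) < 2 ^ j := by positivity
  have hm : (0 : ℝ) < 2 ^ m := by positivity
  rw [div_lt_div_iff₀ (by positivity) (by positivity), pow_add] at h1 h2
  have h5 : ((c i : ℝ) - 1) * 2 ^ j < e i := by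
    have : (((c i : ℝ) - 1) * 2 ^ j) * 2 ^ m < (e i : ℝ) * 2 ^ m := by linarith
    exact lt_of_mul_lt_mul_right this hm.le
  have h6 : (e i : ℝ) < ((c i : ℝ) + 2) * 2 ^ j := by
    have : (e i : ℝ) * 2 ^ m < (((c i : ℝ) + 2) * 2 ^ j) * 2 ^ m := by linarith
    exact lt_of_mul_lt_mul_right this hm.le
  constructor
  · have h7 : (c' i : ℝ) * 2 ^ j < ((c i : ℝ) + 2) * 2 ^ j := by linarith
    have h8 : (c' i : ℝ) < (c i : ℝ) + 2 := lt_of_mul_lt_mul_right h7 hj.le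
    have h9 : c' i < c i + 2 := by exact_mod_cast h8
    omega
  · have h7 : ((c i : ℝ) - 1) * 2 ^ j < ((c' i : ℝ) + 1) * 2 ^ j := by linarith
    have h8 : (c i : ℝ) - 1 < (c' i : ℝ) + 1 := lt_of_mul_lt_mul_right h7 hj.le
    have h9 : (c i : ℝ) < ((c' i + 2 : ℕ) : ℝ) := by push_cast; linarith
    have h10 : c i < c' i + 2 := by exact_mod_cast h9
    omega

end Pool.Agent.MChaos
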