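import Pool.Agent.Lib_MP_a91488.TTI

/-!
# Piece IND: the sigma algebras of blocks of fields
-/

set_option autoImplicit false

open MeasureTheory ProbabilityTheory

namespace Pool.Agent.MChaos

private theorem fld_le {d : ℕ} {Ω : Type} [mΩ : MeasurableSpace Ω] {P : Measure Ω}
    {X : ℕ → Ω → E d → ℝ} (hX : CP d P X) (k : ℕ) :
    MeasurableSpace.comap (fun (ω : Ω) (x : E d) => X k ω x) MeasurableSpace.pi ≤ mΩ :=
  Measurable.comap_le (measurable_pi_lambda _ fun x => hX.meas k x)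

private theorem fld_le_Fbl {d : ℕ} {Ω : Type} (X : ℕ → Ω → E d → ℝ) (n N k : ℕ)
    (hk : k ∈ Finset.Ico n N) :
    MeasurableSpace.comap (fun (ω : Ω) (x : E d) => X k ω x) MeasurableSpace.pi ≤ Fbl X n N :=
  le_iSup₂ (f := fun k (_ : k ∈ Finset.Ico n N) =>
    MeasurableSpace.comap (fun (ω : Ω) (x : E d) => X k ω x) MeasurableSpace.pi) k hk

private theorem meas_idpair {Ω D β : Type} (m₁ : MeasurableSpace Ω) [MeasurableSpace β]
    [MeasurableSpace D] (f : Ω → β) (hf : @Measurable Ω β m₁ _ f) :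
    @Measurable (Ω × D) (β × D) (@Prod.instMeasurableSpace Ω D m₁ _) _ (fun p => (f p.1, p.2)) :=
  (hf.comp measurable_fst).prodMk measurable_snd

variable {d : ℕ} {Ω : Type} [mΩ : MeasurableSpace Ω] {P : Measure Ω} [IsProbabilityMeasure P] {X : ℕ → Ω → E d → ℝ}

theorem Fbl_le (hX : CP d P X) (n N : ℕ) : Fbl X n N ≤ mΩ := by
  exact iSup₂_le fun k _ => fld_le hX k

theorem Fge_le (hX : CP d P X) (n : ℕ) : Fge X n ≤ mΩ := by
  exact iSup₂_le fun k _ => fld_le hX k

theorem Fbl_mono (n n' N N' : ℕ) (h : n' ≤ n) (h' : N ≤ N') : Fbl X n N ≤ Fbl X n' N' := by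
  refine iSup₂_le fun k hk => fld_le_Fbl X n' N' k ?_
  rw [Finset.mem_Ico] at hk ⊢
  omega

theorem Fge_anti (n n' : ℕ) (h : n ≤ n') : Fge X n' ≤ Fge X n := by
  exact biSup_mono fun k hk => le_trans h hk

theorem Fbl_le_Fge (n N : ℕ) : Fbl X n N ≤ Fge X n := by
  exact biSup_mono fun k hk => (Finset.mem_Ico.1 hk).1

/-- `indep_iSup_of_disjoint` -/
theorem indep_bl_ge (hX : CP d P X) (n n' : ℕ) : Indep (Fbl X n n') (Fge X n') P := by
  have h := hX.indep
  rw [iIndepFun_iff_iIndep] at h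
  have hd : Disjoint ((Finset.Ico n n' : Finset ℕ) : Set ℕ) (Set.Ici n') := by
    rw [Set.disjoint_left]
    intro k hk hk'
    have h1 := (Finset.mem_Ico.1 (Finset.mem_coe.1 hk)).2
    have h2 : n' ≤ k := hk'
    omega
  exact indep_iSup_of_disjoint (fun k => fld_le hX k) h hd

/-- the field `N` is independent of the fields before -/
theorem indep_bl_one (hX : CP d P X) (N : ℕ) : Indep (Fbl X 0 N) (Fbl X N (N + 1)) P := by
  exact indep_of_indep_of_le_right (indep_bl_ge hX 0 N) (Fbl_le_Fge N (N + 1))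

theorem X_Fbl (n N k : ℕ) (hk : k ∈ Finset.Ico n N) (x : E d) : Measurable[Fbl X n N] (fun ω => X k ω x) := by
  have h1 : Measurable[MeasurableSpace.comap (fun (ω : Ω) (x : E d) => X k ω x)
      MeasurableSpace.pi] (fun (ω : Ω) (x : E d) => X k ω x) := comap_measurable _
  exact ((measurable_pi_apply x).comp h1).mono (fld_le_Fbl X n N k hk) le_rfl

theorem SS_Fbl (n N : ℕ) (x : E d) : Measurable[Fbl X n N] (fun ω => SS X n N ω x) := by
  unfold SS
  exact Finset.measurable_fun_sum _ fun k hk => X_Fbl n N k hk x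

theorem wt_Fbl (γ : ℝ) (n N k : ℕ) (hk : k ∈ Finset.Ico n N) (x : E d) : Measurable[Fbl X n N] (fun ω => wt P X γ k ω x) := by
  unfold wt
  exact (Real.measurable_exp.comp ((X_Fbl n N k hk x).const_mul γ)).div_const _

/-- jointly measurable, since continuous in `x` up to the (measurable, deterministic) denominators -/
theorem prodwt_Fbl (hX : CP d P X) (γ : ℝ) (n N : ℕ) :
    @Measurable (Ω × E d) ℝ (@Prod.instMeasurableSpace Ω (E d) (Fbl X n N) _) _ (fun p => ∏ k ∈ Finset.Ico n N, wt P X γ k p.1 p.2) := by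
  refine @Finset.measurable_fun_prod ℝ ℕ (Ω × E d) _ _ _
    (@Prod.instMeasurableSpace Ω (E d) (Fbl X n N) _) (fun k p => wt P X γ k p.1 p.2)
    (Finset.Ico n N) fun k hk => ?_
  have h1 : @Measurable Ω (SP X k) (Fbl X n N) _ (fun ω => ω) := by
    intro s hs
    exact fld_le_Fbl X n N k hk s hs
  have h2 : @Measurable (Ω × E d) (SP X k × E d)
      (@Prod.instMeasurableSpace Ω (E d) (Fbl X n N) _) _ (fun p => ((p.1 : SP X k), p.2)) :=
    meas_idpair (β := SP X k) (Fbl X n N) (fun ω => ω) h1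
  exact (wS_unc hX γ k).comp h2

/-- integrals with a deterministic density -/
theorem int_Fbl (hX : CP d P X) (γ : ℝ) (n N : ℕ) (A : Set (E d)) (f : E d → ℝ) (hf : Measurable f) :
    Measurable[Fbl X n N] (fun ω => ∫ x in A, f x * ∏ k ∈ Finset.Ico n N, wt P X γ k ω x) := by
  have h1 : @Measurable (Ω × E d) ℝ (@Prod.instMeasurableSpace Ω (E d) (Fbl X n N) _) _
      (fun p => f p.2 * ∏ k ∈ Finset.Ico n N, wt P X γ k p.1 p.2) :=
    (hf.comp (@measurable_snd Ω (E d) (Fbl X n N) _)).mul (prodwt_Fbl hX γ n N)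
  have h : @StronglyMeasurable Ω ℝ _ (Fbl X n N)
      (fun ω => ∫ x, f x * ∏ k ∈ Finset.Ico n N, wt P X γ k ω x ∂(volume.restrict A)) :=
    @StronglyMeasurable.integral_prod_right Ω (E d) ℝ (Fbl X n N) _ (volume.restrict A) _ _ _
      (fun ω x => f x * ∏ k ∈ Finset.Ico n N, wt P X γ k ω x) h1.stronglyMeasurable
  exact h.measurable

theorem TT_Fbl (hX : CP d P X) (γ : ℝ) (n N : ℕ) (A : Set (E d)) : Measurable[Fbl X n N] (TT P X γ n N A) := by
  have h := int_Fbl hX γ n N A (fun _ => (1 : ℝ)) measurable_const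
  simp only [one_mul] at h
  exact h

end Pool.Agent.MChaos
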