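import Pool.Agent.Lib_MP_a91488.FDefs

/-!
# MP_a91488_pr: definitions for the lower bound
-/

set_option autoImplicit false

open MeasureTheory ProbabilityTheory Filter
open scoped Topology

namespace Pool.Agent.MChaos

section

variable {d : ℕ} {Ω : Type} [MeasurableSpace Ω] (P : Measure Ω) (X : ℕ → Ω → E d → ℝ)

/-- the fields `n ≤ k < n'` oscillate by more than `b` on some dyadic cube of level `m` -/
def Osc (n n' m : ℕ) (b : ℝ) : Set Ω := {ω | ∃ z ∈ Idx d m, ∃ x ∈ cb m z, ∃ y ∈ cb m z, b < |SS X n n' ω x - SS X n n' ω y|}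

/-- the vertex `c` of level `M` is a child of type `τ` (`k` levels, fields `n ≤ k < n'`, precision `e`) -/
def Typ (n n' k M : ℕ) (τ e : ℝ) (c : V d) : Set Ω := {ω | |SS X n n' ω (cor M c) - τ * (k * Real.log 2)| ≤ e * k}

open Classical in
/-- number of children of type `τ` -/
noncomputable def Num (n n' k M : ℕ) (τ e : ℝ) (z : V d) (ω : Ω) : ℕ := ((Chd k z).filter (fun c => ω ∈ Typ X n n' k M τ e c)).card

/-- the mass of `cb m c` for the fields `≥ n` is at most `b` times the volume -/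
def UpE (β : ℝ) (n m : ℕ) (b : ℝ) (c : V d) : Set Ω := {ω | ∀ᶠ N in atTop, TT P X β n N (cb m c) ω * 2 ^ (d * m) ≤ b}

/-- the mass of `cb m c` for the fields `≥ n` is at least `b` times the volume -/
def LoE (β : ℝ) (n m : ℕ) (b : ℝ) (c : V d) : Set Ω := {ω | ∀ᶠ N in atTop, b ≤ TT P X β n N (cb m c) ω * 2 ^ (d * m)}

/-- normalised weight at the corner of the cube `c` of level `M` -/
noncomputable def Ew (τ : ℝ) (n n' M : ℕ) (c : V d) (ω : Ω) : ℝ := Real.exp (τ * SS X n n' ω (cor M c)) / ∫ ω', Real.exp (τ * SS X n n' ω' (cor M c)) ∂P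

open Classical in
/-- contribution of the children which are not of type `τ` -/
noncomputable def ZA (τ e : ℝ) (n n' m k : ℕ) (z : V d) (ω : Ω) : ℝ :=
  1 / 2 ^ (d * k) * ∑ c ∈ Chd k z, if ω ∈ Typ X n n' k (m + k) τ e c then 0 else Ew P X τ n n' (m + k) c ω

/-- local goodness of the vertex `z` of level `m` with `k` levels below, fields `≥ n`, block of fields `n ≤ k < n'`, types `G`, precision `e` -/
def LcE (β : ℝ) (G : Finset ℝ) (e : ℝ) (m k n n' : ℕ) (z : V d) : Set Ω :=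
  {ω | (∀ τ ∈ G, 2 * (2 : ℝ) ^ ((k : ℝ) * (d - τ ^ 2 / 2 - e)) ≤ (Num X n n' k (m + k) τ e z ω : ℝ)) ∧
    (∀ c ∈ Nbr m z, ω ∈ UpE P X β n m ((2 : ℝ) ^ (e * m)) c) ∧ ω ∈ LoE P X β n m ((2 : ℝ) ^ (-(e * m))) z}

end

/-- sequences of parameters: levels `m`, steps `k`, lags `l`, precisions `e`, sets of types `G` -/
structure Sq where
  m : ℕ → ℕ
  k : ℕ → ℕ
  l : ℕ → ℕ
  e : ℕ → ℝ
  G : ℕ → Finset ℝ

section

variable {d : ℕ} {Ω : Type} [MeasurableSpace Ω] (P : Measure Ω) (X : ℕ → Ω → E d → ℝ)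

/-- the first field of block `i` -/
noncomputable def nn (s : Sq) (i : ℕ) : ℕ := cut P X (s.m i - s.l i)

/-- requirements on the sequences of parameters -/
structure SqOK (β : ℝ) (s : Sq) : Prop where
  hm : ∀ i, s.m (i + 1) = s.m i + s.k i
  hk : ∀ i, 0 < s.k i
  hl : ∀ i, s.l i ≤ s.m i
  hn : ∀ i, nn P X s i ≤ nn P X s (i + 1)
  hnm : Tendsto (fun i => s.m i - s.l i) atTop atTop
  he : ∀ i, 0 < s.e i
  he0 : Tendsto s.e atTop (𝓝 0)
  hk0 : Tendsto (fun i => (s.k i : ℝ) / s.m i) atTop (𝓝 0)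
  hl0 : Tendsto (fun i => (s.l i : ℝ) / s.m i) atTop (𝓝 0)
  hi0 : Tendsto (fun i : ℕ => (i : ℝ) / s.m i) atTop (𝓝 0)
  hG : ∀ i, ∀ τ ∈ s.G i, 0 ≤ d - τ ^ 2 / 2 - s.e i
  hT : ∀ τ : ℝ, τ ^ 2 ≤ 2 * d → ∃ T : ℕ → ℝ, (∀ i, T i ∈ s.G i) ∧ Tendsto T atTop (𝓝 τ)
  fail : ∃ S : ℕ → ℝ, Tendsto S atTop (𝓝 0) ∧ (∀ i, 0 ≤ S i) ∧ ∀ i, ∃ p : ℝ, (∀ z ∈ Idx d (s.m i),
    P.real (LcE P X β (s.G i) (s.e i) (s.m i) (s.k i) (nn P X s i) (nn P X s (i + 1)) z)ᶜ ≤ p) ∧ p + 2 * (s.G i).card * S (i + 1) ≤ S i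
  osc : Summable (fun i => P.real (Osc X 0 (nn P X s i) (s.m i) 1))

end

end Pool.Agent.MChaos
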