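import Pool.Agent.Lib_MP_a91488.GDR
import Pool.Agent.Lib_MP_a91488.LDefs
import Pool.Agent.Lib_MP_a91488.GEO
import Pool.Agent.Lib_MP_a91488.IND

/-!
# Piece GTR: good vertices
-/

set_option autoImplicit false

open MeasureTheory ProbabilityTheory Filter
open scoped Topology

namespace Pool.Agent.MChaos

variable {d : ℕ} {Ω : Type} [MeasurableSpace Ω] {P : Measure Ω} [IsProbabilityMeasure P] {X : ℕ → Ω → E d → ℝ}

theorem Typ_meas (n n' k M : ℕ) (τ e : ℝ) (c : V d) : MeasurableSet[Fbl X n n'] (Typ X n n' k M τ e c) := by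
  have h1 : Measurable[Fbl X n n'] (fun ω => SS X n n' ω (cor M c)) := SS_Fbl n n' (cor M c)
  have h2 : IsClosed {y : ℝ | |y - τ * (k * Real.log 2)| ≤ e * k} :=
    isClosed_le (continuous_abs.comp (continuous_id.sub continuous_const)) continuous_const
  exact h1 h2.measurableSet

private theorem gtr_ev (m₀ : MeasurableSpace Ω) (p : ℕ → Ω → Prop) (h : ∀ N, MeasurableSet[m₀] {ω | p N ω}) :
    MeasurableSet[m₀] {ω | ∀ᶠ N in atTop, p N ω} := by
  have h1 : {ω | ∀ᶠ N in atTop, p N ω} = ⋃ M : ℕ, ⋂ N : ℕ, ⋂ _ : M ≤ N, {ω | p N ω} := by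
    ext ω
    simp only [Set.mem_ofPred_eq, eventually_atTop, Set.mem_iUnion, Set.mem_iInter]
  rw [h1]
  exact MeasurableSet.iUnion fun M => MeasurableSet.iInter fun N => MeasurableSet.iInter fun _ => h N

theorem UpE_meas (hX : CP d P X) (β : ℝ) (n m : ℕ) (b : ℝ) (c : V d) : MeasurableSet[Fge X n] (UpE P X β n m b c) ∧ MeasurableSet[Fge X n] (LoE P X β n m b c) := by
  have h1 : ∀ N, Measurable[Fge X n] (fun ω => TT P X β n N (cb m c) ω * 2 ^ (d * m)) := by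
    intro N
    exact ((TT_Fbl hX β n N (cb m c)).mono (Fbl_le_Fge n N) le_rfl).mul_const _
  constructor
  · refine gtr_ev (Fge X n) _ fun N => ?_
    exact h1 N measurableSet_Iic
  · refine gtr_ev (Fge X n) _ fun N => ?_
    exact h1 N measurableSet_Ici

theorem LcE_meas (hX : CP d P X) (β : ℝ) (G : Finset ℝ) (e : ℝ) (m k n n' : ℕ) (z : V d) : MeasurableSet[Fge X n] (LcE P X β G e m k n n' z) := by
  classical
  have hN : ∀ τ : ℝ, Measurable[Fge X n] (fun ω => (Num X n n' k (m + k) τ e z ω : ℝ)) := by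
    intro τ
    have h1 : (fun ω => (Num X n n' k (m + k) τ e z ω : ℝ)) = fun ω => ∑ c ∈ Chd k z, (Typ X n n' k (m + k) τ e c).indicator (fun _ => (1 : ℝ)) ω := by
      funext ω
      rw [Num, Finset.card_filter]
      push_cast
      refine Finset.sum_congr rfl fun c _ => ?_
      rw [Set.indicator_apply]
    rw [h1]
    refine Finset.measurable_fun_sum _ fun c _ => ?_
    exact measurable_const.indicator (Fbl_le_Fge n n' _ (Typ_meas n n' k (m + k) τ e c))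
  have h2 : LcE P X β G e m k n n' z = (⋂ τ ∈ G, {ω | 2 * (2 : ℝ) ^ ((k : ℝ) * (d - τ ^ 2 / 2 - e)) ≤ (Num X n n' k (m + k) τ e z ω : ℝ)}) ∩
      ((⋂ c ∈ Nbr m z, UpE P X β n m ((2 : ℝ) ^ (e * m)) c) ∩ LoE P X β n m ((2 : ℝ) ^ (-(e * m))) z) := by
    ext ω
    simp only [LcE, Set.mem_ofPred_eq, Set.mem_inter_iff, Set.mem_iInter]
  rw [h2]
  refine MeasurableSet.inter ?_ (MeasurableSet.inter ?_ (UpE_meas hX β n m _ z).2)
  · refine Finset.measurableSet_biInter G fun τ _ => ?_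
    exact hN τ measurableSet_Ici
  · exact Finset.measurableSet_biInter _ fun c _ => (UpE_meas hX β n m _ c).1

open Classical in
/-- `gdr` for `Ix i = Idx d (m i)`, `Ch i v = Chd (k i) v`, `G i = Fbl X (nn i) (nn (i+1))`, `H i = Fge X (nn i)`; half of the children of type `τ` are good, and there are at least `2 * 2^(k (d - τ^2/2 - e))` of them by `LcE` -/
theorem gtr (hX : CP d P X) (β : ℝ) (s : Sq) (hs : SqOK P X β s) : ∃ (Gd : ℕ → V d → Set Ω) (S : ℕ → ℝ), Tendsto S atTop (𝓝 0) ∧ (∀ i, ∀ z ∈ Idx d (s.m i), P.real (Gd i z)ᶜ ≤ S i) ∧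
    ∀ i, ∀ z ∈ Idx d (s.m i), ∀ ω ∈ Gd i z, ω ∈ LcE P X β (s.G i) (s.e i) (s.m i) (s.k i) (nn P X s i) (nn P X s (i + 1)) z ∧
      ∀ τ ∈ s.G i, (2 : ℝ) ^ ((s.k i : ℝ) * (d - τ ^ 2 / 2 - s.e i)) ≤
        (((Chd (s.k i) z).filter (fun c => ω ∈ Typ X (nn P X s i) (nn P X s (i + 1)) (s.k i) (s.m (i + 1)) τ (s.e i) c ∧ ω ∈ Gd (i + 1) c)).card : ℝ) := by
  obtain ⟨S, hS0, hS1, hS2⟩ := hs.fail
  obtain ⟨Gd, hGd1, hGd2⟩ := gdr P (fun i => Idx d (s.m i)) (fun i v => Chd (s.k i) v)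
    (fun i v hv c hc => by
      have := Chd_Idx (s.m i) (s.k i) v c hv hc
      rw [← hs.hm i] at this
      exact this)
    s.G (fun i τ c => Typ X (nn P X s i) (nn P X s (i + 1)) (s.k i) (s.m (i + 1)) τ (s.e i) c)
    (fun i v => LcE P X β (s.G i) (s.e i) (s.m i) (s.k i) (nn P X s i) (nn P X s (i + 1)) v)
    (fun i => Fbl X (nn P X s i) (nn P X s (i + 1))) (fun i => Fge X (nn P X s i))
    (fun i => Fbl_le_Fge _ _) (fun i => Fge_anti _ _ (hs.hn i)) (fun i => Fge_le hX _)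
    (fun i => indep_bl_ge hX _ _)
    (fun i v _ => LcE_meas hX β (s.G i) (s.e i) (s.m i) (s.k i) (nn P X s i) (nn P X s (i + 1)) v)
    (fun i τ _ c _ => Typ_meas _ _ _ _ τ _ c) S hS1 hS2 (fun i => ⟨_, Idx_zero (s.m i)⟩)
  refine ⟨Gd, S, hS0, hGd1, fun i z hz ω hω => ?_⟩
  obtain ⟨h1, h2⟩ := hGd2 i z hz ω hω
  refine ⟨h1, fun τ hτ => ?_⟩
  have h3 := h2 τ hτ
  have h4 := h1.1 τ hτ
  have h5 : Num X (nn P X s i) (nn P X s (i + 1)) (s.k i) (s.m i + s.k i) τ (s.e i) z ω =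
      ((Chd (s.k i) z).filter (fun c => ω ∈ Typ X (nn P X s i) (nn P X s (i + 1)) (s.k i) (s.m (i + 1)) τ (s.e i) c)).card := by
    rw [Num, hs.hm i]
  rw [h5] at h4
  have h6 : ((Chd (s.k i) z).filter (fun c => ω ∈ Typ X (nn P X s i) (nn P X s (i + 1)) (s.k i) (s.m (i + 1)) τ (s.e i) c)).card =
      ((Chd (s.k i) z).filter (fun c => ω ∈ Typ X (nn P X s i) (nn P X s (i + 1)) (s.k i) (s.m (i + 1)) τ (s.e i) c ∧ ω ∈ Gd (i + 1) c)).card +
      ((Chd (s.k i) z).filter (fun c => ω ∈ Typ X (nn P X s i) (nn P X s (i + 1)) (s.k i) (s.m (i + 1)) τ (s.e i) c ∧ ω ∉ Gd (i + 1) c)).card := by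
    rw [← Finset.filter_filter, ← Finset.filter_filter, Finset.card_filter_add_card_filter_not]
  have h7 : ((Chd (s.k i) z).filter (fun c => ω ∈ Typ X (nn P X s i) (nn P X s (i + 1)) (s.k i) (s.m (i + 1)) τ (s.e i) c)).card ≤
      2 * ((Chd (s.k i) z).filter (fun c => ω ∈ Typ X (nn P X s i) (nn P X s (i + 1)) (s.k i) (s.m (i + 1)) τ (s.e i) c ∧ ω ∈ Gd (i + 1) c)).card := by
    omega
  have h8 : (((Chd (s.k i) z).filter (fun c => ω ∈ Typ X (nn P X s i) (nn P X s (i + 1)) (s.k i) (s.m (i + 1)) τ (s.e i) c)).card : ℝ) ≤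
      2 * (((Chd (s.k i) z).filter (fun c => ω ∈ Typ X (nn P X s i) (nn P X s (i + 1)) (s.k i) (s.m (i + 1)) τ (s.e i) c ∧ ω ∈ Gd (i + 1) c)).card : ℝ) := by
    exact_mod_cast h7
  linarith

/-- `P(for all i ≥ I: not Gd i 0) ≤ S i → 0`, and Borel-Cantelli for `osc` -/
theorem gtr_ae (β : ℝ) (s : Sq) (hs : SqOK P X β s) (Gd : ℕ → V d → Set Ω) (S : ℕ → ℝ) (hS : Tendsto S atTop (𝓝 0)) (hGd : ∀ i, ∀ z ∈ Idx d (s.m i), P.real (Gd i z)ᶜ ≤ S i) :
    ∀ᵐ ω ∂P, ∃ i₀ : ℕ, ω ∈ Gd i₀ (fun _ => 0) ∧ ∀ i, i₀ ≤ i → ω ∉ Osc X 0 (nn P X s i) (s.m i) 1 := by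
  have h1 : ∀ᵐ ω ∂P, ∀ᶠ i in atTop, ω ∉ Osc X 0 (nn P X s i) (s.m i) 1 := by
    refine ae_eventually_notMem ?_
    have h2 : ∀ i, P (Osc X 0 (nn P X s i) (s.m i) 1) = ENNReal.ofReal (P.real (Osc X 0 (nn P X s i) (s.m i) 1)) := by
      intro i
      rw [ofReal_measureReal]
    simp_rw [h2]
    exact hs.osc.tsum_ofReal_ne_top
  have h3 : ∀ᵐ ω ∂P, ∀ I : ℕ, ∃ i, I ≤ i ∧ ω ∈ Gd i (fun _ => 0) := by
    rw [ae_all_iff]
    intro I
    rw [ae_iff]
    have h4 : ∀ i, I ≤ i → P {ω | ¬ ∃ i, I ≤ i ∧ ω ∈ Gd i (fun _ => 0)} ≤ ENNReal.ofReal (S i) := by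
      intro i hi
      refine le_trans (measure_mono (t := (Gd i (fun _ => 0))ᶜ) ?_) ?_
      · intro ω hω hω'
        exact hω ⟨i, hi, hω'⟩
      · rw [← ofReal_measureReal]
        exact ENNReal.ofReal_le_ofReal (hGd i _ (Idx_zero (s.m i)))
    have h5 : Tendsto (fun i => ENNReal.ofReal (S i)) atTop (𝓝 0) := by
      have := ENNReal.tendsto_ofReal hS
      rwa [ENNReal.ofReal_zero] at this
    refine le_antisymm (ge_of_tendsto h5 ?_) zero_le
    filter_upwards [eventually_ge_atTop I] with i hi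
    exact h4 i hi
  filter_upwards [h1, h3] with ω hω1 hω3
  obtain ⟨I, hI⟩ := eventually_atTop.1 hω1
  obtain ⟨i, hi1, hi2⟩ := hω3 I
  exact ⟨i, hi2, fun j hj => hI j (le_trans hi1 hj)⟩

end Pool.Agent.MChaos
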