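import Pool.Agent.Lib_MP_a91488.ONEA

/-!
# Piece INTA: integrability
-/

set_option autoImplicit false

open MeasureTheory

namespace Pool.Agent.MChaos

variable {ι : Type} [Fintype ι] [DecidableEq ι] {Ω : ι → Type} [∀ k, MeasurableSpace (Ω k)] {P : ∀ k, Measure (Ω k)} [∀ k, IsProbabilityMeasure (P k)]
  {D : Type} [MeasurableSpace D] {m : Measure D} [IsFiniteMeasure m] {w : ∀ k, Ω k → D → ℝ} {a : ι → D → ℝ} {s : ℝ} {M : ℝ → ℝ}

/-- tangent inequality for the powers outside `(0, 1)` -/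
private lemma tangent_rpow {p t : ℝ} (hp : p ≤ 0 ∨ 1 ≤ p) (ht : 0 < t) : 1 + p * (t - 1) ≤ t ^ p := by
  rcases hp with hp | hp
  · have h1 : Real.log t ≤ t - 1 := Real.log_le_sub_one_of_pos ht
    have h2 : p * (t - 1) ≤ p * Real.log t := mul_le_mul_of_nonpos_left h1 hp
    have h3 : p * Real.log t + 1 ≤ Real.exp (p * Real.log t) := Real.add_one_le_exp _
    have h4 : t ^ p = Real.exp (p * Real.log t) := by
      rw [Real.rpow_def_of_pos ht, mul_comm]
    rw [h4]
    linarith only [h2, h3]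
  · have h1 := one_add_mul_self_le_rpow_one_add (s := t - 1) (by linarith only [ht]) hp
    have h2 : 1 + (t - 1) = t := by ring
    rw [h2] at h1
    exact h1

/-- powers in `(0, 1)` -/
private lemma rpow_le_one_add' {p t : ℝ} (hp0 : 0 ≤ p) (hp1 : p ≤ 1) (ht : 0 < t) : t ^ p ≤ 1 + t := by
  have h := rpow_one_add_le_one_add_mul_self (s := t - 1) (by linarith only [ht]) hp0 hp1
  have h2 : 1 + (t - 1) = t := by ring
  rw [h2] at h
  have h3 : p * (t - 1) ≤ t := by
    have h5 : p * t ≤ 1 * t := mul_le_mul_of_nonneg_right hp1 ht.le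
    linarith only [h5, hp0]
  linarith only [h, h3]

theorem fC_meas (hw : ∀ k, Wt (P k) (w k) (a k) s M) (C : Finset ι) : Measurable (fun p : (∀ k, Ω k) × D => fC w C p.1 p.2) := by
  unfold fC
  refine Finset.measurable_prod _ ?_
  intro k _
  exact (hw k).meas.comp (((measurable_pi_apply k).comp measurable_fst).prodMk measurable_snd)

theorem fC_pos (hw : ∀ k, Wt (P k) (w k) (a k) s M) (C : Finset ι) (ω : ∀ k, Ω k) (x : D) : 0 < fC w C ω x :=
  Finset.prod_pos fun k _ => (hw k).pos _ _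

theorem fC_bdd (hw : ∀ k, Wt (P k) (w k) (a k) s M) (C : Finset ι) (ω : ∀ k, Ω k) : ∃ B : ℝ, ∀ x, fC w C ω x ≤ B := by
  choose B hB using fun k => (hw k).bdd (ω k)
  refine ⟨∏ k ∈ C, B k, fun x => ?_⟩
  exact Finset.prod_le_prod (fun k _ => ((hw k).pos _ _).le) fun k _ => hB k x

theorem fC_int (hw : ∀ k, Wt (P k) (w k) (a k) s M) (C : Finset ι) (ω : ∀ k, Ω k) : Integrable (fC w C ω) m := by
  obtain ⟨B, hB⟩ := fC_bdd hw C ω
  refine Integrable.of_bound ?_ B (Filter.Eventually.of_forall fun x => ?_)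
  · exact ((fC_meas hw C).comp measurable_prodMk_left).aestronglyMeasurable
  · rw [Real.norm_eq_abs, abs_of_pos (fC_pos hw C ω x)]
    exact hB x

theorem mass_meas (hw : ∀ k, Wt (P k) (w k) (a k) s M) (C : Finset ι) : Measurable (mass m w C) :=
  ((fC_meas hw C).stronglyMeasurable.integral_prod_right').measurable

theorem mass_pos (hw : ∀ k, Wt (P k) (w k) (a k) s M) (hm : m ≠ 0) (C : Finset ι) (ω : ∀ k, Ω k) : 0 < mass m w C ω := by
  unfold mass
  rw [integral_pos_iff_support_of_nonneg (fun x => (fC_pos hw C ω x).le) (fC_int hw C ω)]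
  have hs : Function.support (fC w C ω) = Set.univ := by
    ext x
    simp only [Function.mem_support, ne_eq, Set.mem_univ, iff_true]
    exact (fC_pos hw C ω x).ne'
  rw [hs]
  exact pos_iff_ne_zero.mpr (fun h => hm (Measure.measure_univ_eq_zero.mp h))

/-- powers of `fC` as a product over all indices -/
private lemma fC_rpow (hw : ∀ k, Wt (P k) (w k) (a k) s M) (C : Finset ι) (p : ℝ) (ω : ∀ k, Ω k) (x : D) :
    fC w C ω x ^ p = ∏ k, (fun (k : ι) (o : Ω k) => if k ∈ C then w k o x ^ p else 1) k (ω k) := by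
  unfold fC
  rw [← Real.finsetProd_rpow _ _ (fun k _ => ((hw k).pos _ _).le)]
  simp only
  rw [Finset.prod_ite_mem, Finset.univ_inter]

private lemma fC_rpow_int (hw : ∀ k, Wt (P k) (w k) (a k) s M) (C : Finset ι) (p : ℝ) (x : D) :
    Integrable (fun ω => fC w C ω x ^ p) (Measure.pi P) := by
  have h : (fun ω => fC w C ω x ^ p) =
      fun ω : (∀ k, Ω k) => ∏ k, (fun (k : ι) (o : Ω k) => if k ∈ C then w k o x ^ p else 1) k (ω k) :=
    funext fun ω => fC_rpow hw C p ω x
  rw [h]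
  refine Integrable.fintype_prod_dep (𝕜 := ℝ) (μ := P)
    (f := fun (k : ι) (o : Ω k) => if k ∈ C then w k o x ^ p else 1) ?_
  intro k
  by_cases hk : k ∈ C
  · simp only [hk, if_true]
    exact ((hw k).mom x p).1
  · simp only [hk, if_false]
    exact integrable_const 1

private lemma fC_rpow_le (hw : ∀ k, Wt (P k) (w k) (a k) s M) (C : Finset ι) (p : ℝ) (x : D) :
    ∫ ω, fC w C ω x ^ p ∂(Measure.pi P) ≤ ∏ k ∈ C, M p := by
  have h : (fun ω => fC w C ω x ^ p) =
      fun ω : (∀ k, Ω k) => ∏ k, (fun (k : ι) (o : Ω k) => if k ∈ C then w k o x ^ p else 1) k (ω k) :=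
    funext fun ω => fC_rpow hw C p ω x
  rw [h, integral_fintype_prod_eq_prod (𝕜 := ℝ) (fun (k : ι) (o : Ω k) => if k ∈ C then w k o x ^ p else 1)]
  have h2 : ∀ k, ∫ o, (if k ∈ C then w k o x ^ p else 1) ∂(P k) = if k ∈ C then ∫ o, w k o x ^ p ∂(P k) else 1 := by
    intro k
    by_cases hk : k ∈ C
    · simp only [hk, if_true]
    · simp only [hk, if_false]
      simp
  rw [Finset.prod_congr rfl (fun k _ => h2 k), Finset.prod_ite_mem, Finset.univ_inter]
  refine Finset.prod_le_prod (fun k _ => ?_) (fun k _ => ((hw k).mom x p).2)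
  exact integral_nonneg fun o => Real.rpow_nonneg ((hw k).pos _ _).le _

private lemma fC_rpow_prod (hw : ∀ k, Wt (P k) (w k) (a k) s M) (C : Finset ι) (p : ℝ) :
    Integrable (fun z : (∀ k, Ω k) × D => fC w C z.1 z.2 ^ p) ((Measure.pi P).prod m) := by
  have hme : Measurable (fun z : (∀ k, Ω k) × D => fC w C z.1 z.2 ^ p) := (fC_meas hw C).pow_const p
  rw [integrable_prod_iff' hme.aestronglyMeasurable]
  refine ⟨Filter.Eventually.of_forall fun x => fC_rpow_int hw C p x, ?_⟩
  refine Integrable.of_bound ?_ (∏ k ∈ C, M p) (Filter.Eventually.of_forall fun x => ?_)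
  · exact (hme.norm.stronglyMeasurable.integral_prod_left').aestronglyMeasurable
  · have h1 : ∀ ω, ‖fC w C ω x ^ p‖ = fC w C ω x ^ p := fun ω => by
      rw [Real.norm_eq_abs, abs_of_nonneg (Real.rpow_nonneg (fC_pos hw C ω x).le _)]
    simp only [h1]
    rw [Real.norm_eq_abs, abs_of_nonneg (integral_nonneg fun ω => Real.rpow_nonneg (fC_pos hw C ω x).le _)]
    exact fC_rpow_le hw C p x

/-- Jensen -/
private lemma jensen_mass (hw : ∀ k, Wt (P k) (w k) (a k) s M) (hm : m ≠ 0) (C : Finset ι) {p : ℝ} (hp : p ≤ 0 ∨ 1 ≤ p)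
    (ω : ∀ k, Ω k) (hi : Integrable (fun x => fC w C ω x ^ p) m) :
    mass m w C ω ^ p ≤ m.real Set.univ ^ p * ((m.real Set.univ)⁻¹ * ∫ x, fC w C ω x ^ p ∂m) := by
  have hV : 0 < m.real Set.univ := by
    rw [measureReal_def]
    refine ENNReal.toReal_pos (fun h => hm (Measure.measure_univ_eq_zero.mp h)) (measure_ne_top m _)
  have hmass := mass_pos (m := m) hw hm C ω
  set V := m.real Set.univ with hVdef
  set A := mass m w C ω / V with hA
  have hA0 : 0 < A := div_pos hmass hV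
  have h1 : ∀ x, A ^ p * (1 + p * (fC w C ω x / A - 1)) ≤ fC w C ω x ^ p := by
    intro x
    have h2 := tangent_rpow hp (div_pos (fC_pos hw C ω x) hA0)
    have h3 : (fC w C ω x / A) ^ p = fC w C ω x ^ p / A ^ p := Real.div_rpow (fC_pos hw C ω x).le hA0.le p
    rw [h3] at h2
    have h4 : 0 < A ^ p := Real.rpow_pos_of_pos hA0 p
    have h5 := mul_le_mul_of_nonneg_left h2 h4.le
    have h6 : A ^ p * (fC w C ω x ^ p / A ^ p) = fC w C ω x ^ p := by
      field_simp
    rw [h6] at h5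
    exact h5
  have hfi := fC_int (m := m) hw C ω
  have hI1 : Integrable (fun x => fC w C ω x / A - 1) m := (hfi.div_const A).sub (integrable_const 1)
  have hI2 : Integrable (fun x => p * (fC w C ω x / A - 1)) m := hI1.const_mul p
  have hI3 : Integrable (fun x => 1 + p * (fC w C ω x / A - 1)) m := (integrable_const 1).add hI2
  have hI : Integrable (fun x => A ^ p * (1 + p * (fC w C ω x / A - 1))) m := hI3.const_mul (A ^ p)
  have h7 : ∫ x, A ^ p * (1 + p * (fC w C ω x / A - 1)) ∂m ≤ ∫ x, fC w C ω x ^ p ∂m :=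
    integral_mono hI hi h1
  have h8 : ∫ x, A ^ p * (1 + p * (fC w C ω x / A - 1)) ∂m = A ^ p * V := by
    have e1 : ∫ x, 1 + p * (fC w C ω x / A - 1) ∂m = ∫ _x, (1 : ℝ) ∂m + ∫ x, p * (fC w C ω x / A - 1) ∂m :=
      integral_add (integrable_const 1) hI2
    have e2 : ∫ x, fC w C ω x / A - 1 ∂m = ∫ x, fC w C ω x / A ∂m - ∫ _x, (1 : ℝ) ∂m :=
      integral_sub (hfi.div_const A) (integrable_const 1)
    rw [integral_const_mul, e1, integral_const_mul, e2, integral_div]
    have h9 : ∫ x, fC w C ω x ∂m = A * V := by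
      rw [hA]
      unfold mass
      field_simp
    rw [h9]
    simp only [integral_const, smul_eq_mul, mul_one]
    rw [← hVdef]
    field_simp
    ring
  rw [h8] at h7
  have h10 : mass m w C ω = V * A := by
    rw [hA]
    field_simp
  rw [h10, Real.mul_rpow hV.le hA0.le]
  refine mul_le_mul_of_nonneg_left ?_ (Real.rpow_nonneg hV.le p)
  have h11 : A ^ p = V⁻¹ * (A ^ p * V) := by
    field_simp
  calc A ^ p = V⁻¹ * (A ^ p * V) := h11
    _ ≤ V⁻¹ * ∫ x, fC w C ω x ^ p ∂m := mul_le_mul_of_nonneg_left h7 (inv_nonneg.mpr hV.le)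

/-- Jensen for `p ≥ 1` or `p ≤ 0`: `mass ^ p ≤ m(D) ^ (p-1) ∫ fC ^ p dm`, `E fC ^ p = ∏ E (w k) ^ p`; otherwise `mass ^ p ≤ 1 + mass` -/
theorem mass_mom (hw : ∀ k, Wt (P k) (w k) (a k) s M) (hm : m ≠ 0) (C : Finset ι) (p : ℝ) :
    Integrable (fun ω => mass m w C ω ^ p) (Measure.pi P) := by
  have hme : AEStronglyMeasurable (fun ω => mass m w C ω ^ p) (Measure.pi P) :=
    ((mass_meas hw C).pow_const p).aestronglyMeasurable
  have hnn : ∀ ω, ‖mass m w C ω ^ p‖ = mass m w C ω ^ p := fun ω => by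
    rw [Real.norm_eq_abs, abs_of_nonneg (Real.rpow_nonneg (mass_pos hw hm C ω).le _)]
  by_cases hp : p ≤ 0 ∨ 1 ≤ p
  · have hF := fC_rpow_prod (m := m) hw C p
    have hg := hF.integral_prod_left
    refine Integrable.mono' ((hg.const_mul (m.real Set.univ)⁻¹).const_mul (m.real Set.univ ^ p)) hme ?_
    filter_upwards [hF.prod_right_ae] with ω hω
    rw [hnn ω]
    exact jensen_mass hw hm C hp ω hω
  · push Not at hp
    have hF := fC_rpow_prod (m := m) hw C 1
    have hg := hF.integral_prod_left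
    refine Integrable.mono' ((integrable_const 1).add hg) hme (Filter.Eventually.of_forall fun ω => ?_)
    rw [hnn ω]
    have h1 := rpow_le_one_add' hp.1.le hp.2.le (mass_pos hw hm C ω)
    simp only [Pi.add_apply, Real.rpow_one]
    exact h1

private lemma abs_int_b_le (hw : ∀ k, Wt (P k) (w k) (a k) s M) (C : Finset ι) (b : D → ℝ) {B : ℝ} (hB : ∀ x, |b x| ≤ B) (ω : ∀ k, Ω k) :
    |∫ x, b x * fC w C ω x ∂m| ≤ B * mass m w C ω := by
  have h1 : ‖∫ x, b x * fC w C ω x ∂m‖ ≤ ∫ x, B * fC w C ω x ∂m := by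
    refine norm_integral_le_of_norm_le ((fC_int hw C ω).const_mul B) (Filter.Eventually.of_forall fun x => ?_)
    rw [norm_mul, Real.norm_eq_abs, Real.norm_eq_abs, abs_of_pos (fC_pos hw C ω x)]
    exact mul_le_mul_of_nonneg_right (hB x) (fC_pos hw C ω x).le
  rw [integral_const_mul] at h1
  exact h1

/-- `|∫ b fC dm| ≤ B mass`, measurability -/
theorem mass_b (hw : ∀ k, Wt (P k) (w k) (a k) s M) (hm : m ≠ 0) (C : Finset ι) (p : ℝ) (b : D → ℝ) (hb : Measurable b) (hB : ∃ B : ℝ, ∀ x, |b x| ≤ B) :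
    Integrable (fun ω => mass m w C ω ^ p * ∫ x, b x * fC w C ω x ∂m) (Measure.pi P) := by
  obtain ⟨B, hB⟩ := hB
  have hme : Measurable (fun ω => ∫ x, b x * fC w C ω x ∂m) := by
    have h1 : Measurable (fun z : (∀ k, Ω k) × D => b z.2 * fC w C z.1 z.2) :=
      (hb.comp measurable_snd).mul (fC_meas hw C)
    exact h1.stronglyMeasurable.integral_prod_right'.measurable
  refine Integrable.mono' ((mass_mom (m := m) hw hm C (p + 1)).const_mul B)
    (((mass_meas hw C).pow_const p).mul hme).aestronglyMeasurable (Filter.Eventually.of_forall fun ω => ?_)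
  have hmp := mass_pos hw hm C ω
  rw [norm_mul, Real.norm_eq_abs, Real.norm_eq_abs, abs_of_nonneg (Real.rpow_nonneg hmp.le p),
    Real.rpow_add_one hmp.ne']
  have h1 := mul_le_mul_of_nonneg_left (abs_int_b_le (m := m) hw C b hB ω) (Real.rpow_nonneg hmp.le p)
  calc mass m w C ω ^ p * |∫ x, b x * fC w C ω x ∂m| ≤ mass m w C ω ^ p * (B * mass m w C ω) := h1
    _ = B * (mass m w C ω ^ p * mass m w C ω) := by ring

/-- `|∬ c fC fC| ≤ B mass ^ 2`, measurability -/
theorem mass_c (hw : ∀ k, Wt (P k) (w k) (a k) s M) (hm : m ≠ 0) (C : Finset ι) (p : ℝ) (c : D → D → ℝ) (hc : Measurable (Function.uncurry c))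
    (hB : ∃ B : ℝ, ∀ x y, |c x y| ≤ B) :
    Integrable (fun ω => mass m w C ω ^ p * ∫ x, ∫ y, c x y * (fC w C ω x * fC w C ω y) ∂m ∂m) (Measure.pi P) := by
  obtain ⟨B, hB⟩ := hB
  have hme1 : Measurable (fun z : (∀ k, Ω k) × D => ∫ y, c z.2 y * (fC w C z.1 z.2 * fC w C z.1 y) ∂m) := by
    have h1 : Measurable (fun z : ((∀ k, Ω k) × D) × D => c z.1.2 z.2 * (fC w C z.1.1 z.1.2 * fC w C z.1.1 z.2)) := by
      refine Measurable.mul ?_ (Measurable.mul ?_ ?_)
      · exact hc.comp ((measurable_snd.comp measurable_fst).prodMk measurable_snd)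
      · exact (fC_meas hw C).comp measurable_fst
      · exact (fC_meas hw C).comp ((measurable_fst.comp measurable_fst).prodMk measurable_snd)
    exact h1.stronglyMeasurable.integral_prod_right'.measurable
  have hme : Measurable (fun ω => ∫ x, ∫ y, c x y * (fC w C ω x * fC w C ω y) ∂m ∂m) :=
    hme1.stronglyMeasurable.integral_prod_right'.measurable
  refine Integrable.mono' ((mass_mom (m := m) hw hm C (p + 2)).const_mul B)
    (((mass_meas hw C).pow_const p).mul hme).aestronglyMeasurable (Filter.Eventually.of_forall fun ω => ?_)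
  have hmp := mass_pos hw hm C ω
  have hin : ∀ x, |∫ y, c x y * (fC w C ω x * fC w C ω y) ∂m| ≤ (B * mass m w C ω) * fC w C ω x := by
    intro x
    have h1 : ∫ y, c x y * (fC w C ω x * fC w C ω y) ∂m = fC w C ω x * ∫ y, c x y * fC w C ω y ∂m := by
      rw [← integral_const_mul]
      refine integral_congr_ae (Filter.Eventually.of_forall fun y => ?_)
      simp only
      ring
    rw [h1, abs_mul, abs_of_pos (fC_pos hw C ω x), mul_comm]
    exact mul_le_mul_of_nonneg_right (abs_int_b_le (m := m) hw C (c x) (hB x) ω) (fC_pos hw C ω x).le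
  have hout : |∫ x, ∫ y, c x y * (fC w C ω x * fC w C ω y) ∂m ∂m| ≤ B * (mass m w C ω * mass m w C ω) := by
    have h1 : ‖∫ x, ∫ y, c x y * (fC w C ω x * fC w C ω y) ∂m ∂m‖ ≤ ∫ x, (B * mass m w C ω) * fC w C ω x ∂m := by
      refine norm_integral_le_of_norm_le ((fC_int hw C ω).const_mul _) (Filter.Eventually.of_forall fun x => ?_)
      rw [Real.norm_eq_abs]
      exact hin x
    rw [integral_const_mul] at h1
    calc |∫ x, ∫ y, c x y * (fC w C ω x * fC w C ω y) ∂m ∂m| ≤ (B * mass m w C ω) * ∫ x, fC w C ω x ∂m := h1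
      _ = B * (mass m w C ω * mass m w C ω) := by
        unfold mass
        ring
  have h2 : mass m w C ω ^ (p + 2) = mass m w C ω ^ p * (mass m w C ω * mass m w C ω) := by
    rw [Real.rpow_add hmp, Real.rpow_two, sq]
  rw [norm_mul, Real.norm_eq_abs, Real.norm_eq_abs, abs_of_nonneg (Real.rpow_nonneg hmp.le p), h2]
  calc mass m w C ω ^ p * |∫ x, ∫ y, c x y * (fC w C ω x * fC w C ω y) ∂m ∂m|
      ≤ mass m w C ω ^ p * (B * (mass m w C ω * mass m w C ω)) :=
        mul_le_mul_of_nonneg_left hout (Real.rpow_nonneg hmp.le p)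
    _ = B * (mass m w C ω ^ p * (mass m w C ω * mass m w C ω)) := by ring

/-- the covariance is measurable and bounded -/
theorem cw_meas {Θ : Type} [MeasurableSpace Θ] {Q : Measure Θ} [IsProbabilityMeasure Q] {v : Θ → D → ℝ} {b : D → ℝ} (hv : Wt Q v b s M) :
    Measurable (Function.uncurry (cw Q v)) ∧ ∃ B : ℝ, ∀ x y, |cw Q v x y| ≤ B := by
  constructor
  · have h1 : Measurable (fun z : (D × D) × Θ => v z.2 z.1.1 * v z.2 z.1.2) := by
      refine Measurable.mul ?_ ?_
      · exact hv.meas.comp (measurable_snd.prodMk (measurable_fst.comp measurable_fst))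
      · exact hv.meas.comp (measurable_snd.prodMk (measurable_snd.comp measurable_fst))
    have h2 : Measurable (fun z : D × D => ∫ ω, v ω z.1 * v ω z.2 ∂Q) :=
      h1.stronglyMeasurable.integral_prod_right'.measurable
    exact h2.sub_const 1
  · refine ⟨|M 2| + 1, fun x y => ?_⟩
    have hsq : ∀ z, Integrable (fun ω => v ω z ^ 2) Q ∧ ∫ ω, v ω z ^ 2 ∂Q ≤ M 2 := by
      intro z
      have h := hv.mom z 2
      have e : (fun ω => v ω z ^ (2 : ℝ)) = fun ω => v ω z ^ 2 := funext fun ω => Real.rpow_two _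
      rw [e] at h
      exact h
    have h1 : ‖∫ ω, v ω x * v ω y ∂Q‖ ≤ ∫ ω, (v ω x ^ 2 + v ω y ^ 2) / 2 ∂Q := by
      refine norm_integral_le_of_norm_le (((hsq x).1.add (hsq y).1).div_const 2) (Filter.Eventually.of_forall fun ω => ?_)
      rw [Real.norm_eq_abs, abs_of_pos (mul_pos (hv.pos ω x) (hv.pos ω y))]
      have h3 := sq_nonneg (v ω x - v ω y)
      have h4 : (v ω x - v ω y) ^ 2 = v ω x ^ 2 + v ω y ^ 2 - 2 * (v ω x * v ω y) := by ring
      rw [h4] at h3
      linarith only [h3]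
    rw [integral_div, integral_add (hsq x).1 (hsq y).1, Real.norm_eq_abs] at h1
    unfold cw
    have h2 := (hsq x).2
    have h3 := (hsq y).2
    have h4 : M 2 ≤ |M 2| := le_abs_self _
    have h5 := abs_sub (∫ ω, v ω x * v ω y ∂Q) 1
    rw [abs_one] at h5
    linarith only [h1, h2, h3, h4, h5]

end Pool.Agent.MChaos
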