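import Pool.Agent.Lib_MP_a91488.Defs

/-!
# Piece MDP: mass distribution principle
-/

set_option autoImplicit false

open MeasureTheory Metric
open scoped ENNReal

namespace Pool.Agent.MChaos

private theorem mdp_set {d : ℕ} (ν : Measure (E d)) [IsProbabilityMeasure ν] (L : Set (E d)) (hL : ν Lᶜ = 0) (s C r₀ : ℝ) (hs : 0 < s) (hr : 0 < r₀)
    (h : ∀ x ∈ L, ∀ r : ℝ, 0 < r → r ≤ r₀ → ν.real (ball x r) ≤ C * r ^ s) (U : Set (E d))
    (hU : Metric.ediam U ≤ ENNReal.ofReal (r₀ / 2)) :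
    ν U ≤ ENNReal.ofReal (|C| * 2 ^ s + 1) * Metric.ediam U ^ s := by
  by_cases hne : (U ∩ L).Nonempty
  · obtain ⟨x, hxU, hxL⟩ := hne
    have hfin : Metric.ediam U ≠ ⊤ := ne_top_of_le_ne_top ENNReal.ofReal_ne_top hU
    have hD : Metric.ediam U = ENNReal.ofReal (Metric.ediam U).toReal := (ENNReal.ofReal_toReal hfin).symm
    generalize hDD : (Metric.ediam U).toReal = D at hD
    have hD0 : 0 ≤ D := hDD ▸ ENNReal.toReal_nonneg
    have hD1 : D ≤ r₀ / 2 := by
      rw [hD] at hU
      exact (ENNReal.ofReal_le_ofReal_iff (by linarith)).1 hU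
    have hsub : ∀ r : ℝ, D < r → U ⊆ ball x r := by
      intro r hr1 y hy
      rw [mem_ball]
      refine lt_of_le_of_lt ?_ hr1
      have h1 : edist y x ≤ Metric.ediam U := Metric.edist_le_ediam_of_mem hy hxU
      rw [hD, edist_dist] at h1
      exact (ENNReal.ofReal_le_ofReal_iff hD0).1 h1
    have hball : ∀ r : ℝ, D < r → r ≤ r₀ → ν U ≤ ENNReal.ofReal (|C| * r ^ s) := by
      intro r hr1 hr2
      have h2 := h x hxL r (lt_of_le_of_lt hD0 hr1) hr2
      have h3 : ν (ball x r) = ENNReal.ofReal (ν.real (ball x r)) := (ofReal_measureReal).symm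
      refine (measure_mono (hsub r hr1)).trans ?_
      rw [h3]
      refine ENNReal.ofReal_le_ofReal (h2.trans ?_)
      exact mul_le_mul_of_nonneg_right (le_abs_self C) (Real.rpow_nonneg (hD0.trans hr1.le) s)
    rcases hD0.eq_or_lt with h0 | h0
    · -- the diameter is zero
      have hz : ν U = 0 := by
        refine le_antisymm ?_ zero_le
        have hlim : Filter.Tendsto (fun r : ℝ => ENNReal.ofReal (|C| * r ^ s)) (nhdsWithin 0 (Set.Ioi 0)) (nhds (ENNReal.ofReal (|C| * (0 : ℝ) ^ s))) := by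
          refine (ENNReal.tendsto_ofReal ?_)
          refine Filter.Tendsto.mono_left ?_ nhdsWithin_le_nhds
          exact ((Real.continuousAt_rpow_const 0 s (Or.inr hs.le)).tendsto).const_mul |C|
        rw [Real.zero_rpow hs.ne', mul_zero, ENNReal.ofReal_zero] at hlim
        refine ge_of_tendsto hlim ?_
        have hev : ∀ᶠ r : ℝ in nhdsWithin 0 (Set.Ioi 0), r ∈ Set.Ioc 0 r₀ := Ioc_mem_nhdsGT hr
        filter_upwards [hev] with r hr3
        exact hball r (by rw [← h0]; exact hr3.1) hr3.2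
      rw [hz]
      exact zero_le
    · have h4 := hball (2 * D) (by linarith) (by linarith)
      refine h4.trans ?_
      rw [hD, ENNReal.ofReal_rpow_of_nonneg hD0 hs.le, ← ENNReal.ofReal_mul (by positivity)]
      refine ENNReal.ofReal_le_ofReal ?_
      rw [Real.mul_rpow (by norm_num) hD0]
      have h5 : 0 ≤ D ^ s := Real.rpow_nonneg hD0 s
      nlinarith
  · have hsub : U ⊆ Lᶜ := fun y hy hyL => hne ⟨y, hy, hyL⟩
    have hz : ν U = 0 := measure_mono_null hsub hL
    rw [hz]
    exact zero_le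

/-- `s = 0` trivial. `s > 0`: a set `U` of small diameter which meets `L` in `x` lies in `ball x (2 diam U)` (if `diam U > 0`), a singleton has measure `0`; if `U` does not meet `L` its measure is `0`. So `ν U ≤ C 2^s (diam U)^s`, and
`Measure.le_hausdorffMeasure` (for `(C 2^s)⁻¹ • ν`) gives `μH[s] L > 0`; `le_dimH_of_hausdorffMeasure_ne_zero` -/
theorem mdp {d : ℕ} (ν : Measure (E d)) [IsProbabilityMeasure ν] (L : Set (E d)) (hL : ν Lᶜ = 0) (s C r₀ : ℝ) (hs : 0 ≤ s) (hr : 0 < r₀)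
    (h : ∀ x ∈ L, ∀ r : ℝ, 0 < r → r ≤ r₀ → ν.real (ball x r) ≤ C * r ^ s) : ENNReal.ofReal s ≤ dimH L := by
  rcases hs.eq_or_lt with h0 | h0
  · rw [← h0, ENNReal.ofReal_zero]
    exact zero_le
  · have hK : 0 < |C| * 2 ^ s + 1 := by positivity
    have hC0 : ENNReal.ofReal (|C| * 2 ^ s + 1) ≠ 0 := by simpa using hK
    have hCt : ENNReal.ofReal (|C| * 2 ^ s + 1) ≠ ⊤ := ENNReal.ofReal_ne_top
    have hle : (ENNReal.ofReal (|C| * 2 ^ s + 1))⁻¹ • ν ≤ Measure.hausdorffMeasure s := by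
      refine Measure.le_hausdorffMeasure s _ (ENNReal.ofReal (r₀ / 2)) (by simpa using hr) ?_
      intro U hU
      rw [Measure.smul_apply, smul_eq_mul]
      calc (ENNReal.ofReal (|C| * 2 ^ s + 1))⁻¹ * ν U ≤
            (ENNReal.ofReal (|C| * 2 ^ s + 1))⁻¹ * (ENNReal.ofReal (|C| * 2 ^ s + 1) * Metric.ediam U ^ s) := by
            gcongr
            exact mdp_set ν L hL s C r₀ h0 hr h U hU
        _ = Metric.ediam U ^ s := by
            rw [← mul_assoc, ENNReal.inv_mul_cancel hC0 hCt, one_mul]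
    have hKK : ν L ≠ 0 := by
      intro h1
      have h2 : ν Set.univ ≤ ν L + ν Lᶜ := by
        calc ν Set.univ = ν (L ∪ Lᶜ) := by rw [Set.union_compl_self]
          _ ≤ ν L + ν Lᶜ := measure_union_le _ _
      rw [h1, hL, measure_univ] at h2
      simp at h2
    have hd : ((s.toNNReal : NNReal) : ℝ) = s := Real.coe_toNNReal s h0.le
    have hne : Measure.hausdorffMeasure ((s.toNNReal : NNReal) : ℝ) L ≠ 0 := by
      rw [hd]
      intro h1
      have h2 := hle L
      rw [h1, Measure.smul_apply, smul_eq_mul] at h2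
      have h3 : (ENNReal.ofReal (|C| * 2 ^ s + 1))⁻¹ * ν L = 0 := le_antisymm h2 zero_le
      rcases mul_eq_zero.1 h3 with h4 | h4
      · exact hCt (ENNReal.inv_eq_zero.1 h4)
      · exact hKK h4
    exact le_dimH_of_hausdorffMeasure_ne_zero hne

end Pool.Agent.MChaos
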