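import Pool.Agent.Lib_MP_a91488.MOA
import Pool.Agent.Lib_MP_a91488.MDP
import Pool.Agent.Lib_MP_a91488.CES

/-!
# Piece MOR: dimension of the limit set of a tree of dyadic cubes
-/

set_option autoImplicit false

open MeasureTheory Metric Filter
open scoped Topology

namespace Pool.Agent.MChaos

variable {d : ℕ}

open Classical in
/-- `L = ⋂_i ⋃_{z ∈ W i} cb (m i) z`, `ν L = 1` (`moa`), so `L` is nonempty. For `x ∈ L` and `2^(-m (i+1)) ≤ r < 2^(-m i)`: `ball x r ⊆ nb (m i) z` with `z ∈ W i`, `x ∈ cb (m i) z` (`ball_sub_nb`), so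
`ν (ball x r) ≤ 3^d 2^(-∑_{j<i} k j u j)`, `∑_{j<i} k j u j / m i → s` (`ces`), `m (i+1)/m i → 1`: `ν (ball x r) ≤ C r^(s')` for every `s' < s`; `mdp`, `s' → s` -/
theorem mor (m k : ℕ → ℕ) (hm : ∀ i, m (i + 1) = m i + k i) (hk : ∀ i, 0 < k i) (hk0 : Tendsto (fun i => (k i : ℝ) / m i) atTop (𝓝 0)) (hi : Tendsto (fun i : ℕ => (i : ℝ) / m i) atTop (𝓝 0))
    (A B : ℕ → V d → Prop) (z₀ : V d) (hz : z₀ ∈ Idx d (m 0)) (hA : A 0 z₀) (u : ℕ → ℝ) (s : ℝ) (hu : ∀ i, 0 ≤ u i) (hus : Tendsto u atTop (𝓝 s))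
    (h : ∀ i, ∀ z ∈ Idx d (m i), A i z → (2 : ℝ) ^ ((k i : ℝ) * u i) ≤ (((Chd (k i) z).filter (fun c => B i c ∧ A (i + 1) c)).card : ℝ)) :
    ∃ L : Set (E d), L ⊆ cube d ∧ L.Nonempty ∧ ENNReal.ofReal s ≤ dimH L ∧ ∀ x ∈ L, ∀ i, (∃ z ∈ Idx d (m i), x ∈ cb (m i) z ∧ A i z) ∧
      ∃ z ∈ Idx d (m i), ∃ c ∈ Chd (k i) z, x ∈ cb (m (i + 1)) c ∧ B i c := by
  obtain ⟨ν, hν, hν1, hν2⟩ := moa m k hm A B z₀ hz hA u hu h
  set W := Wt3 k A B z₀ with hW
  have hWidx := wt3_idx m k hm A B z₀ hz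
  have hWA := wt3_A k A B z₀ hA
  set L : Set (E d) := ⋂ i, ⋃ z ∈ W i, cb (m i) z with hL
  have hLν : ν Lᶜ = 0 := by
    rw [hL, Set.compl_iInter]
    exact measure_iUnion_null hν1
  have hLne : L.Nonempty := by
    by_contra hcon
    rw [Set.not_nonempty_iff_eq_empty] at hcon
    rw [hcon, Set.compl_empty, measure_univ] at hLν
    exact one_ne_zero hLν
  have hmem : ∀ x ∈ L, ∀ i, ∃ z ∈ W i, x ∈ cb (m i) z := by
    intro x hx i
    have := Set.mem_iInter.1 hx i
    simpa only [Set.mem_iUnion, exists_prop] using this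
  have hmono : StrictMono m := strictMono_nat_of_lt_succ (fun i => by rw [hm]; exact Nat.lt_add_of_pos_right (hk i))
  refine ⟨L, ?_, hLne, ?_, ?_⟩
  · intro x hx
    obtain ⟨z, hz', hxz⟩ := hmem x hx 0
    exact cb_sub _ _ (hWidx 0 hz') hxz
  · -- dimension
    -- the sums
    set a : ℕ → ℝ := fun i => Real.log 2 * ∑ j ∈ Finset.range i, (k j : ℝ) * u j with ha
    have hces : Tendsto (fun i => a i / m i) atTop (𝓝 (s * Real.log 2)) := by
      refine ces m k hm hk hi a u (fun _ => 0) s hus tendsto_const_nhds (fun i => ?_)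
      have : a (i + 1) - a i - u i * (k i * Real.log 2) = 0 := by
        simp only [ha, Finset.sum_range_succ]; ring
      rw [this]; simp
    have hlog2 : 0 < Real.log 2 := Real.log_pos one_lt_two
    -- for every s' < s
    have key : ∀ s' : ℝ, 0 ≤ s' → s' < s → ENNReal.ofReal s' ≤ dimH L := by
      intro s' hs'0 hs's
      have hratio : Tendsto (fun i => (m (i + 1) : ℝ) / m i) atTop (𝓝 1) := by
        have : Tendsto (fun i => 1 + (k i : ℝ) / m i) atTop (𝓝 (1 + 0)) := hk0.const_add 1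
        rw [add_zero] at this
        refine this.congr' ?_
        filter_upwards [eventually_gt_atTop 0] with i hi0
        have : (0 : ℝ) < m i := by
          have : 0 < m i := lt_of_le_of_lt (Nat.zero_le _) (hmono hi0)
          exact_mod_cast this
        rw [hm]; push_cast; field_simp
      have hlim : Tendsto (fun i => s' * Real.log 2 * ((m (i + 1) : ℝ) / m i)) atTop (𝓝 (s' * Real.log 2 * 1)) := hratio.const_mul _
      have hlt : s' * Real.log 2 * 1 < s * Real.log 2 := by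
        rw [mul_one]; exact mul_lt_mul_of_pos_right hs's hlog2
      have hev := hlim.eventually_lt hces hlt
      obtain ⟨i₀, hi₀⟩ := eventually_atTop.1 (hev.and (eventually_gt_atTop 0))
      have hbound : ∀ i, i₀ ≤ i → s' * Real.log 2 * m (i + 1) ≤ a i := by
        intro i hi1
        obtain ⟨h1, h2⟩ := hi₀ i hi1
        have hmi : (0 : ℝ) < m i := by
          have : 0 < m i := lt_of_le_of_lt (Nat.zero_le _) (hmono h2)
          exact_mod_cast this
        have h3 := mul_le_mul_of_nonneg_right h1.le hmi.le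
        rw [div_mul_cancel₀ _ hmi.ne', mul_assoc, div_mul_cancel₀ _ hmi.ne'] at h3
        exact h3
      refine mdp ν L hLν s' (3 ^ d) (1 / 2 ^ m i₀) hs'0 (by positivity) (fun x hx r hr hr1 => ?_)
      -- the last index with r ≤ 2^(-m i)
      have hex : ∃ i, ¬ r ≤ 1 / 2 ^ m i := by
        have h1 : Tendsto (fun i => (1 / 2 : ℝ) ^ m i) atTop (𝓝 0) := (tendsto_pow_atTop_nhds_zero_of_lt_one (by norm_num) (by norm_num)).comp hmono.tendsto_atTop
        obtain ⟨i, hi1⟩ := (h1.eventually_lt_const hr).exists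
        refine ⟨i, ?_⟩
        rw [not_le]
        simpa [one_div, inv_pow] using hi1
      obtain ⟨j, hj1, hj2⟩ : ∃ j, ¬ r ≤ 1 / 2 ^ m j ∧ ∀ i, i < j → r ≤ 1 / 2 ^ m i :=
        ⟨Nat.find hex, Nat.find_spec hex, fun i hi1 => not_not.1 (Nat.find_min hex hi1)⟩
      have hj0 : i₀ < j := by
        by_contra hcon
        push Not at hcon
        apply hj1
        exact hr1.trans (one_div_le_one_div_of_le (by positivity) (pow_le_pow_right₀ one_le_two (hmono.monotone hcon)))
      obtain ⟨i, rfl⟩ : ∃ i, j = i + 1 := ⟨j - 1, by omega⟩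
      have hii : i₀ ≤ i := by omega
      have hri : r ≤ 1 / 2 ^ m i := hj2 i (Nat.lt_succ_self i)
      obtain ⟨z, hzW, hxz⟩ := hmem x hx i
      have h1 : ν.real (ball x r) ≤ ν.real (nb (m i) z) :=
        measureReal_mono ((ball_subset_ball hri).trans (ball_sub_nb _ _ _ hxz))
      have h2 : ∏ j ∈ Finset.range i, (2 : ℝ) ^ (-((k j : ℝ) * u j)) = Real.exp (-a i) := by
        have : ∀ j : ℕ, (2 : ℝ) ^ (-((k j : ℝ) * u j)) = Real.exp (Real.log 2 * (-((k j : ℝ) * u j))) := fun j => Real.rpow_def_of_pos two_pos _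
        simp_rw [this]
        rw [← Real.exp_sum]
        congr 1
        simp only [ha, Finset.mul_sum, mul_neg, Finset.sum_neg_distrib]
      have h3 : Real.exp (-a i) ≤ r ^ s' := by
        rw [not_le] at hj1
        have h4 : Real.exp (-a i) ≤ (1 / 2 ^ m (i + 1) : ℝ) ^ s' := by
          have h5 : (1 / 2 ^ m (i + 1) : ℝ) ^ s' = Real.exp (-(s' * Real.log 2 * m (i + 1))) := by
            rw [Real.rpow_def_of_pos (by positivity), Real.log_div one_ne_zero (by positivity), Real.log_one, Real.log_pow]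
            congr 1; ring
          rw [h5]
          exact Real.exp_le_exp.2 (neg_le_neg (hbound i hii))
        exact h4.trans (Real.rpow_le_rpow (by positivity) hj1.le hs'0)
      calc ν.real (ball x r) ≤ _ := h1
        _ ≤ _ := hν2 i z hzW
        _ ≤ _ := by rw [h2]; gcongr
    by_contra hcon
    rw [not_le] at hcon
    obtain ⟨r, hr0, hr1, hr2⟩ := ENNReal.lt_iff_exists_real_btwn.1 hcon
    have hrs : r < s := by
      by_contra hc
      rw [not_lt] at hc
      exact absurd (ENNReal.ofReal_le_ofReal hc) (not_le.2 hr2)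
    exact absurd (key r hr0 hrs) (not_le.2 hr1)
  · intro x hx i
    constructor
    · obtain ⟨z, hz', hxz⟩ := hmem x hx i
      exact ⟨z, hWidx i hz', hxz, hWA i z hz'⟩
    · obtain ⟨c, hc, hxc⟩ := hmem x hx (i + 1)
      have hc' : c ∈ (W i).biUnion (fun z => (Chd (k i) z).filter (fun c => B i c ∧ A (i + 1) c)) := hc
      obtain ⟨z, hz', hc2⟩ := Finset.mem_biUnion.1 hc'
      obtain ⟨hc3, hc4, _⟩ := Finset.mem_filter.1 hc2
      exact ⟨z, hWidx i hz', c, hc3, hxc, hc4⟩

end Pool.Agent.MChaos
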