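import Pool.Agent.Lib_MP_a91488.LDefs
import Pool.Agent.Lib_MP_a91488.CHN
import Pool.Agent.Lib_MP_a91488.CUTS

/-!
# Piece OSC: oscillation of the fields on dyadic cubes
-/

set_option autoImplicit false

open MeasureTheory ProbabilityTheory Filter
open scoped Topology

namespace Pool.Agent.MChaos

variable {d : ℕ} {Ω : Type} [MeasurableSpace Ω] {P : Measure Ω} [IsProbabilityMeasure P] {X : ℕ → Ω → E d → ℝ}

/-- `CP.lip` with a large exponent `r` (`r ≥ r₀`, `r ≥ 2 d + 1`, `θ r ≥ d + 1`), `exp (sig2 (cut (m - l))) ≤ 2^(m - l)` (`cut_prop`): `E |SS x - SS y|^r ≤ C_r 2^(-l r) (2^m ‖x - y‖)^r`; `chain` on each of the `2^(d m)` cubes: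
`C 2^(d m) 2^(-l r) ≤ C 2^(-m)`. Integrability of all moments from `CP.expo`. -/
theorem osc_bound (hX : CP d P X) (θ : ℝ) (hθ : 0 < θ) : ∃ (C : ℝ) (t₀ : ℕ), 0 < C ∧ ∀ m l : ℕ, θ * m ≤ l → l + t₀ ≤ m →
    P.real (Osc X 0 (cut P X (m - l)) m 1) ≤ C * 2 ^ (-(m : ℝ)) := by
  obtain ⟨r₀, hr₀, hlip⟩ := hX.lip
  obtain ⟨t₀, ht₀⟩ := cut_prop hX
  obtain ⟨r, hr1, hr2, hr3⟩ : ∃ r : ℝ, r₀ ≤ r ∧ 2 * (d : ℝ) + 1 ≤ r ∧ (d : ℝ) + 1 ≤ θ * r := by
    refine ⟨max r₀ (max (2 * (d : ℝ) + 1) (((d : ℝ) + 1) / θ)), le_max_left _ _,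
      le_trans (le_max_left _ _) (le_max_right _ _), ?_⟩
    have h : ((d : ℝ) + 1) / θ ≤ max r₀ (max (2 * (d : ℝ) + 1) (((d : ℝ) + 1) / θ)) :=
      le_trans (le_max_right _ _) (le_max_right _ _)
    rw [div_le_iff₀ hθ] at h
    linarith
  obtain ⟨Cr, hCr⟩ := hlip r hr1
  obtain ⟨Cc, hCc, hch⟩ := chain d r hr2
  have hr0 : 0 < r := lt_of_lt_of_le hr₀ hr1
  refine ⟨Cc * (max Cr 0 + 1), t₀, by positivity, ?_⟩
  intro m l hml hlt
  have hlm : l ≤ m := by omega
  obtain ⟨-, hcut⟩ := ht₀ (m - l) (by omega)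
  have hd1 : (1 : ℝ) ≤ d := by exact_mod_cast hX.dpos
  have hlogd : 0 ≤ Real.log d := Real.log_nonneg hd1
  have hsig : sig2 P X (cut P X (m - l)) ≤ ((m : ℝ) - l) * Real.log 2 := by
    have h : ((m - l : ℕ) : ℝ) = (m : ℝ) - l := by
      rw [Nat.cast_sub hlm]
    rw [h] at hcut
    linarith
  have hexp : Real.exp (r * sig2 P X (cut P X (m - l))) ≤ (2 : ℝ) ^ (r * ((m : ℝ) - l)) := by
    rw [Real.rpow_def_of_pos (by norm_num : (0 : ℝ) < 2)]
    apply Real.exp_le_exp.2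
    have h := mul_le_mul_of_nonneg_left hsig hr0.le
    linarith
  have hint : ∀ x y : E d, Integrable (fun ω => |SS X 0 (cut P X (m - l)) ω x - SS X 0 (cut P X (m - l)) ω y| ^ r) P := by
    intro x y
    have hm : ∀ z : E d, Measurable (fun ω => SS X 0 (cut P X (m - l)) ω z) := fun z =>
      (SS_meas hX 0 (cut P X (m - l))).comp (measurable_id.prodMk measurable_const)
    have hi : ∀ z : E d, ∀ t : ℝ, Integrable (fun ω => Real.exp (t * SS X 0 (cut P X (m - l)) ω z)) P :=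
      fun z t => (mgf_prod hX t 0 (cut P X (m - l)) z).1
    have he : ∀ s : ℝ, Integrable (fun ω => Real.exp (s * (SS X 0 (cut P X (m - l)) ω x - SS X 0 (cut P X (m - l)) ω y))) P := by
      intro s
      have hdom : Integrable (fun ω => Real.exp ((2 * s) * SS X 0 (cut P X (m - l)) ω x) +
          Real.exp ((-(2 * s)) * SS X 0 (cut P X (m - l)) ω y)) P := (hi x (2 * s)).add (hi y (-(2 * s)))
      refine hdom.mono' ?_ ?_
      · exact ((((hm x).sub (hm y)).const_mul s).exp).aestronglyMeasurable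
      · refine Filter.Eventually.of_forall fun ω => ?_
        rw [Real.norm_eq_abs, abs_of_pos (Real.exp_pos _)]
        have h1 : Real.exp (s * (SS X 0 (cut P X (m - l)) ω x - SS X 0 (cut P X (m - l)) ω y)) =
            Real.exp (s * SS X 0 (cut P X (m - l)) ω x) * Real.exp (-s * SS X 0 (cut P X (m - l)) ω y) := by
          rw [← Real.exp_add]
          congr 1
          ring
        have h2 : Real.exp ((2 * s) * SS X 0 (cut P X (m - l)) ω x) = Real.exp (s * SS X 0 (cut P X (m - l)) ω x) ^ 2 := by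
          rw [sq, ← Real.exp_add]
          congr 1
          ring
        have h3 : Real.exp ((-(2 * s)) * SS X 0 (cut P X (m - l)) ω y) = Real.exp (-s * SS X 0 (cut P X (m - l)) ω y) ^ 2 := by
          rw [sq, ← Real.exp_add]
          congr 1
          ring
        rw [h1, h2, h3]
        nlinarith [sq_nonneg (Real.exp (s * SS X 0 (cut P X (m - l)) ω x) - Real.exp (-s * SS X 0 (cut P X (m - l)) ω y)),
          mul_pos (Real.exp_pos (s * SS X 0 (cut P X (m - l)) ω x)) (Real.exp_pos (-s * SS X 0 (cut P X (m - l)) ω y))]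
    exact integrable_rpow_abs_of_integrable_exp_mul (t := 1) (by norm_num) (he 1) (he (-1)) hr0.le
  have hK0 : 0 ≤ max Cr 0 * (2 : ℝ) ^ (-(r * (l : ℝ))) :=
    mul_nonneg (le_max_right _ _) (Real.rpow_nonneg (by norm_num) _)
  have hcube : ∀ z : V d, P.real {ω | ∃ x ∈ cb m z, ∃ y ∈ cb m z,
      1 < |SS X 0 (cut P X (m - l)) ω x - SS X 0 (cut P X (m - l)) ω y|} ≤
      Cc * (max Cr 0 * (2 : ℝ) ^ (-(r * (l : ℝ)))) := by
    intro z
    refine hch Ω P (fun ω x => SS X 0 (cut P X (m - l)) ω x) ?_ ?_ m z _ hK0 ?_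
    · intro x
      exact (SS_meas hX 0 (cut P X (m - l))).comp (measurable_id.prodMk measurable_const)
    · intro ω
      exact SS_cont hX 0 (cut P X (m - l)) ω
    · intro x _ y _
      refine ⟨hint x y, ?_⟩
      have h1 := hCr (cut P X (m - l)) x y
      have h2 : ∀ ω, SS X 0 (cut P X (m - l)) ω x - SS X 0 (cut P X (m - l)) ω y =
          ∑ k ∈ Finset.range (cut P X (m - l)), (X k ω x - X k ω y) := by
        intro ω
        unfold SS
        rw [← Finset.sum_sub_distrib, Nat.Ico_zero_eq_range]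
      simp only [h2]
      refine h1.trans ?_
      have hn : 0 ≤ ‖x - y‖ ^ r := Real.rpow_nonneg (norm_nonneg _) _
      calc Cr * Real.exp (r * sig2 P X (cut P X (m - l))) * ‖x - y‖ ^ r
          ≤ max Cr 0 * (2 : ℝ) ^ (r * ((m : ℝ) - l)) * ‖x - y‖ ^ r := by
            apply mul_le_mul_of_nonneg_right _ hn
            exact mul_le_mul (le_max_left _ _) hexp (Real.exp_pos _).le (le_max_right _ _)
        _ = max Cr 0 * (2 : ℝ) ^ (-(r * (l : ℝ))) * (2 ^ m * ‖x - y‖) ^ r := by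
            rw [Real.mul_rpow (by positivity) (norm_nonneg _), ← Real.rpow_natCast 2 m,
              ← Real.rpow_mul (by norm_num : (0 : ℝ) ≤ 2)]
            have h3 : (2 : ℝ) ^ (r * ((m : ℝ) - l)) = 2 ^ (-(r * (l : ℝ))) * 2 ^ ((m : ℝ) * r) := by
              rw [← Real.rpow_add (by norm_num : (0 : ℝ) < 2)]
              congr 1
              ring
            rw [h3]
            ring
  have hsub : Osc X 0 (cut P X (m - l)) m 1 ⊆ ⋃ z ∈ Idx d m, {ω | ∃ x ∈ cb m z, ∃ y ∈ cb m z,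
      1 < |SS X 0 (cut P X (m - l)) ω x - SS X 0 (cut P X (m - l)) ω y|} := by
    rintro ω ⟨z, hz, x, hx, y, hy, h⟩
    exact Set.mem_iUnion₂.2 ⟨z, hz, x, hx, y, hy, h⟩
  calc P.real (Osc X 0 (cut P X (m - l)) m 1)
      ≤ P.real (⋃ z ∈ Idx d m, {ω | ∃ x ∈ cb m z, ∃ y ∈ cb m z,
        1 < |SS X 0 (cut P X (m - l)) ω x - SS X 0 (cut P X (m - l)) ω y|}) :=
        measureReal_mono hsub (measure_ne_top _ _)
    _ ≤ ∑ z ∈ Idx d m, P.real {ω | ∃ x ∈ cb m z, ∃ y ∈ cb m z,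
        1 < |SS X 0 (cut P X (m - l)) ω x - SS X 0 (cut P X (m - l)) ω y|} :=
        measureReal_biUnion_finset_le _ _
    _ ≤ ∑ z ∈ Idx d m, Cc * (max Cr 0 * (2 : ℝ) ^ (-(r * (l : ℝ)))) :=
        Finset.sum_le_sum fun z _ => hcube z
    _ = (2 : ℝ) ^ ((d : ℝ) * m) * (Cc * (max Cr 0 * (2 : ℝ) ^ (-(r * (l : ℝ))))) := by
        rw [Finset.sum_const, nsmul_eq_mul, Idx_card]
        congr 1
        push_cast
        rw [← Real.rpow_natCast 2 (d * m)]
        push_cast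
        rfl
    _ = Cc * max Cr 0 * (2 : ℝ) ^ ((d : ℝ) * m - r * (l : ℝ)) := by
        have h3 : (2 : ℝ) ^ ((d : ℝ) * m - r * (l : ℝ)) = 2 ^ ((d : ℝ) * m) * 2 ^ (-(r * (l : ℝ))) := by
          rw [← Real.rpow_add (by norm_num : (0 : ℝ) < 2)]
          congr 1
        rw [h3]
        ring
    _ ≤ Cc * (max Cr 0 + 1) * 2 ^ (-(m : ℝ)) := by
        have h4 : (2 : ℝ) ^ ((d : ℝ) * m - r * (l : ℝ)) ≤ 2 ^ (-(m : ℝ)) := by
          apply Real.rpow_le_rpow_of_exponent_le (by norm_num)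
          have h5 : ((d : ℝ) + 1) * m ≤ θ * r * m := mul_le_mul_of_nonneg_right hr3 (Nat.cast_nonneg _)
          have h6 : r * (θ * m) ≤ r * l := mul_le_mul_of_nonneg_left hml hr0.le
          nlinarith
        have h7 : (0 : ℝ) ≤ 2 ^ ((d : ℝ) * m - r * (l : ℝ)) := Real.rpow_nonneg (by norm_num) _
        apply mul_le_mul _ h4 h7 (by positivity)
        apply mul_le_mul_of_nonneg_left _ hCc.le
        linarith

/-- `SS n n' = SS 0 n' - SS 0 n`; a cube of level `m + k` is contained in a cube of level `m` (`Chd_parent`, `Chd_sub`) -/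
theorem osc_sub (n n' m k : ℕ) (h : n ≤ n') : Osc X n n' (m + k) 3 ⊆ Osc X 0 n' (m + k) 1 ∪ Osc X 0 n m 1 := by
  rintro ω ⟨z, hz, x, hx, y, hy, h3⟩
  have hS : ∀ u : E d, SS X n n' ω u = SS X 0 n' ω u - SS X 0 n ω u := by
    intro u
    unfold SS
    rw [← Finset.sum_Ico_consecutive _ (Nat.zero_le n) h]
    ring
  by_cases h1 : 1 < |SS X 0 n' ω x - SS X 0 n' ω y|
  · exact Or.inl ⟨z, hz, x, hx, y, hy, h1⟩
  · right
    obtain ⟨w, hw, hzw⟩ := Chd_parent m k z hz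
    refine ⟨w, hw, x, Chd_sub m k w z hzw hx, y, Chd_sub m k w z hzw hy, ?_⟩
    rw [hS x, hS y] at h3
    push Not at h1
    by_contra h2
    push Not at h2
    have h4 : SS X 0 n' ω x - SS X 0 n ω x - (SS X 0 n' ω y - SS X 0 n ω y) =
        (SS X 0 n' ω x - SS X 0 n' ω y) - (SS X 0 n ω x - SS X 0 n ω y) := by ring
    rw [h4] at h3
    have h5 := abs_sub (SS X 0 n' ω x - SS X 0 n' ω y) (SS X 0 n ω x - SS X 0 n ω y)
    linarith

end Pool.Agent.MChaos
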