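import Mathlib

/-!
# Piece PARM: choice of the parameters
-/

set_option autoImplicit false

open Filter
open scoped Topology

namespace Pool.Agent.MChaos

/-- Recursion on the pair `(J, m)`: start with `J = 0`, `m = M' 0`, where `M' J = max (M J) (h J ^ 4) 10^4`; `m (i+1) = m i + (m i / h (J i) + 1)`, `J (i+1) = J i + 1` if `M' (J i + 1) ≤ m (i+1)`, else `J i`.
`m / h + 1 > m / h ≥ m^(3/4) ≥ 2 √m + 1`, so `√m` increases by at least one in each step: `i^2 ≤ m i`. -/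
theorem parm (h M : ℕ → ℕ) (hh : ∀ J, 2 ≤ h J) : ∃ J m : ℕ → ℕ, Monotone J ∧ Tendsto J atTop atTop ∧ (∀ i, J (i + 1) ≤ J i + 1) ∧
    (∀ i, M (J i) ≤ m i ∧ h (J i) ^ 4 ≤ m i ∧ i * i ≤ m i ∧ 100 ≤ m i) ∧ (∀ i, m (i + 1) = m i + (m i / h (J i) + 1)) := by
  classical
  let M' : ℕ → ℕ := fun J => max (M J) (max (h J ^ 4) 10000)
  let s : ℕ → ℕ × ℕ := fun i => Nat.rec ((0, M' 0) : ℕ × ℕ)
    (fun _ p => (if M' (p.1 + 1) ≤ p.2 + (p.2 / h p.1 + 1) then p.1 + 1 else p.1,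
      p.2 + (p.2 / h p.1 + 1))) i
  have s0 : s 0 = (0, M' 0) := rfl
  have s1 : ∀ i, s (i + 1) = (if M' ((s i).1 + 1) ≤ (s i).2 + ((s i).2 / h (s i).1 + 1)
      then (s i).1 + 1 else (s i).1, (s i).2 + ((s i).2 / h (s i).1 + 1)) := fun i => rfl
  have hm : ∀ i, (s (i + 1)).2 = (s i).2 + ((s i).2 / h (s i).1 + 1) := fun i => by rw [s1]
  have hJ : ∀ i, (s (i + 1)).1 = if M' ((s i).1 + 1) ≤ (s (i + 1)).2 then (s i).1 + 1 else (s i).1 := by
    intro i
    rw [hm, s1]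
  have hinv : ∀ i, M' (s i).1 ≤ (s i).2 := by
    intro i
    induction i with
    | zero => rw [s0]
    | succ i ih =>
      rw [hJ]
      split_ifs with hc
      · exact hc
      · rw [hm]; exact ih.trans (Nat.le_add_right _ _)
  have hmono : Monotone fun i => (s i).1 := by
    refine monotone_nat_of_le_succ fun i => ?_
    change (s i).1 ≤ (s (i + 1)).1
    rw [hJ]
    split_ifs <;> omega
  have hmm : ∀ i, i ≤ (s i).2 := by
    intro i
    induction i with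
    | zero => exact Nat.zero_le _
    | succ i ih => rw [hm]; exact (Nat.add_le_add_right ih 1).trans (Nat.add_le_add_left (Nat.le_add_left _ _) _)
  have hmmono : Monotone fun i => (s i).2 := by
    refine monotone_nat_of_le_succ fun i => ?_
    change (s i).2 ≤ (s (i + 1)).2
    rw [hm]; exact Nat.le_add_right _ _
  refine ⟨fun i => (s i).1, fun i => (s i).2, hmono, ?_, ?_, ?_, hm⟩
  · refine tendsto_atTop_atTop.2 fun b => ?_
    induction b with
    | zero => exact ⟨0, fun i _ => Nat.zero_le _⟩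
    | succ b ih =>
      obtain ⟨i₀, hi₀⟩ := ih
      by_contra hcon
      push Not at hcon
      have hall : ∀ i, i₀ ≤ i → (s i).1 = b := by
        intro i hi
        obtain ⟨j, hj, hj2⟩ := hcon i
        have h1 := hi₀ i hi
        have h2 : (s i).1 ≤ (s j).1 := hmono hj
        omega
      have h3 := hall (max i₀ (M' (b + 1)) + 1) (by omega)
      have h4 := hall (max i₀ (M' (b + 1))) (by omega)
      rw [hJ, h4, if_pos] at h3
      · omega
      · have := hmm (max i₀ (M' (b + 1)) + 1)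
        omega
  · intro i
    change (s (i + 1)).1 ≤ (s i).1 + 1
    rw [hJ]
    split_ifs <;> omega
  · have hb : ∀ i, M (s i).1 ≤ (s i).2 ∧ h (s i).1 ^ 4 ≤ (s i).2 ∧ 10000 ≤ (s i).2 := by
      intro i
      have h1 := hinv i
      have h2 : M' (s i).1 = max (M (s i).1) (max (h (s i).1 ^ 4) 10000) := rfl
      rw [h2] at h1
      exact ⟨(le_max_left _ _).trans h1, ((le_max_left _ _).trans (le_max_right _ _)).trans h1,
        ((le_max_right _ _).trans (le_max_right _ _)).trans h1⟩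
    have hsq : ∀ i, i * i ≤ (s i).2 := by
      intro i
      induction i with
      | zero => simp
      | succ i ih =>
        obtain ⟨_, h1, h2⟩ := hb i
        have h3 : 2 * i ≤ (s i).2 / h (s i).1 := by
          rw [Nat.le_div_iff_mul_le (by have := hh (s i).1; omega)]
          rw [← Nat.pow_le_pow_iff_left (n := 4) (by norm_num)]
          calc (2 * i * h (s i).1) ^ 4 = 16 * (i * i) * (i * i) * h (s i).1 ^ 4 := by ring
            _ ≤ (s i).2 * (s i).2 * (s i).2 * (s i).2 := by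
              have : 16 ≤ (s i).2 := by omega
              gcongr
            _ = (s i).2 ^ 4 := by ring
        rw [hm]
        nlinarith
    exact fun i => ⟨(hb i).1, (hb i).2.1, hsq i, le_trans (by norm_num) (hb i).2.2⟩

/-- `G J = {t/(J+1) : t integer, (t/(J+1))^2 ≤ 2 d - 2/(J+1)}` (finite); `T J = ± ⌊J |τ|⌋/(J+1)`: `T^2 ≤ 2 d (J/(J+1))^2`, `d (1 - (J/(J+1))^2) = d (2J+1)/(J+1)^2 ≥ 1/(J+1)` -/
theorem typ (d : ℕ) (hd : 0 < d) : ∃ G : ℕ → Finset ℝ, (∀ J : ℕ, ∀ τ ∈ G J, τ ^ 2 < 2 * d ∧ 0 ≤ d - τ ^ 2 / 2 - 1 / ((J : ℝ) + 1)) ∧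
    ∀ τ : ℝ, τ ^ 2 ≤ 2 * d → ∃ T : ℕ → ℝ, (∀ J, T J ∈ G J) ∧ Tendsto T atTop (𝓝 τ) := by
  classical
  have hd1 : (1 : ℝ) ≤ d := by exact_mod_cast hd
  let G : ℕ → Finset ℝ := fun J =>
    ((Finset.Icc (-(2 * (d : ℤ) * (J + 1))) (2 * (d : ℤ) * (J + 1))).image
      (fun t : ℤ => (t : ℝ) / ((J : ℝ) + 1))).filter (fun τ => τ ^ 2 ≤ 2 * d - 2 / ((J : ℝ) + 1))
  have hG : ∀ (J : ℕ) (t : ℤ), |t| ≤ 2 * (d : ℤ) * (J + 1) → ((t : ℝ) / ((J : ℝ) + 1)) ^ 2 ≤ 2 * d - 2 / ((J : ℝ) + 1) →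
      (t : ℝ) / ((J : ℝ) + 1) ∈ G J := by
    intro J t h1 h2
    refine Finset.mem_filter.2 ⟨Finset.mem_image.2 ⟨t, ?_, rfl⟩, h2⟩
    rw [Finset.mem_Icc]
    exact abs_le.1 h1
  refine ⟨G, fun J τ hτ => ?_, ?_⟩
  · have h1 := (Finset.mem_filter.1 hτ).2
    have h2 : (0 : ℝ) < 2 / ((J : ℝ) + 1) := by positivity
    have h3 : 2 / ((J : ℝ) + 1) = 2 * (1 / ((J : ℝ) + 1)) := by ring
    constructor
    · linarith
    · linarith
  · -- nonnegative `τ`
    have key : ∀ τ : ℝ, 0 ≤ τ → τ ^ 2 ≤ 2 * d → ∃ t : ℕ → ℤ, (∀ J : ℕ, |t J| ≤ 2 * (d : ℤ) * (J + 1)) ∧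
        (∀ J : ℕ, ((t J : ℝ) / ((J : ℝ) + 1)) ^ 2 ≤ 2 * d - 2 / ((J : ℝ) + 1)) ∧
        Tendsto (fun J : ℕ => (t J : ℝ) / ((J : ℝ) + 1)) atTop (𝓝 τ) := by
      intro τ h0 hτ
      have hτ2 : τ ≤ 2 * d := by
        nlinarith
      have hfl : ∀ J : ℕ, 0 ≤ ⌊(J : ℝ) * τ⌋ := fun J => Int.floor_nonneg.2 (by positivity)
      refine ⟨fun J => ⌊(J : ℝ) * τ⌋, fun J => ?_, fun J => ?_, ?_⟩
      · rw [abs_of_nonneg (hfl J)]
        have h1 : ((⌊(J : ℝ) * τ⌋ : ℤ) : ℝ) ≤ J * τ := Int.floor_le _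
        have h2 : (J : ℝ) * τ ≤ 2 * d * (J + 1) := by
          have : (0 : ℝ) ≤ J := Nat.cast_nonneg _
          nlinarith
        have h3 : ((⌊(J : ℝ) * τ⌋ : ℤ) : ℝ) ≤ ((2 * (d : ℤ) * (J + 1) : ℤ) : ℝ) := by
          push_cast
          linarith
        exact_mod_cast h3
      · have h1 : ((⌊(J : ℝ) * τ⌋ : ℤ) : ℝ) ≤ J * τ := Int.floor_le _
        have h2 : (0 : ℝ) ≤ ((⌊(J : ℝ) * τ⌋ : ℤ) : ℝ) := by exact_mod_cast hfl J
        have hJ : (0 : ℝ) < (J : ℝ) + 1 := by positivity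
        have hJ0 : (0 : ℝ) ≤ J := Nat.cast_nonneg _
        rw [div_pow, div_le_iff₀ (by positivity)]
        have h3 : (2 * (d : ℝ) - 2 / ((J : ℝ) + 1)) * ((J : ℝ) + 1) ^ 2 = 2 * d * (J + 1) ^ 2 - 2 * (J + 1) := by
          field_simp
        rw [h3]
        have h4 : ((⌊(J : ℝ) * τ⌋ : ℤ) : ℝ) ^ 2 ≤ (J * τ) ^ 2 := by gcongr
        have h5 : ((J : ℝ) * τ) ^ 2 ≤ J ^ 2 * (2 * d) := by
          rw [mul_pow]; gcongr
        nlinarith
      · have hlim : Tendsto (fun J : ℕ => τ - (τ + 1) * (1 / ((J : ℝ) + 1))) atTop (𝓝 τ) := by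
          have h1 := (tendsto_one_div_add_atTop_nhds_zero_nat (𝕜 := ℝ)).const_mul (τ + 1)
          have h2 := h1.const_sub τ
          simpa using h2
        refine tendsto_of_tendsto_of_tendsto_of_le_of_le hlim tendsto_const_nhds (fun J => ?_) (fun J => ?_)
        · change τ - (τ + 1) * (1 / ((J : ℝ) + 1)) ≤ ((⌊(J : ℝ) * τ⌋ : ℤ) : ℝ) / ((J : ℝ) + 1)
          have hJ : (0 : ℝ) < (J : ℝ) + 1 := by positivity
          rw [le_div_iff₀ hJ]
          have h1 := Int.lt_floor_add_one ((J : ℝ) * τ)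
          have h2 : (τ - (τ + 1) * (1 / ((J : ℝ) + 1))) * ((J : ℝ) + 1) = J * τ - 1 := by
            field_simp
            ring
          rw [h2]
          linarith
        · change ((⌊(J : ℝ) * τ⌋ : ℤ) : ℝ) / ((J : ℝ) + 1) ≤ τ
          have hJ : (0 : ℝ) < (J : ℝ) + 1 := by positivity
          rw [div_le_iff₀ hJ]
          have h1 : ((⌊(J : ℝ) * τ⌋ : ℤ) : ℝ) ≤ J * τ := Int.floor_le _
          nlinarith
    intro τ hτ
    rcases le_total 0 τ with h0 | h0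
    · obtain ⟨t, h1, h2, h3⟩ := key τ h0 hτ
      exact ⟨fun J => (t J : ℝ) / ((J : ℝ) + 1), fun J => hG J (t J) (h1 J) (h2 J), h3⟩
    · obtain ⟨t, h1, h2, h3⟩ := key (-τ) (by linarith) (by rw [neg_sq]; exact hτ)
      refine ⟨fun J => ((-t J : ℤ) : ℝ) / ((J : ℝ) + 1), fun J => hG J (-t J) (by rw [abs_neg]; exact h1 J) ?_, ?_⟩
      · have := h2 J
        push_cast
        rw [neg_div, neg_sq]
        exact this
      · have h4 := h3.neg
        rw [neg_neg] at h4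
        refine h4.congr fun J => ?_
        push_cast
        rw [neg_div]

end Pool.Agent.MChaos
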