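import Pool.Agent.Lib_MP_a91488.LOCP
import Pool.Agent.Lib_MP_a91488.PARM
import Pool.Agent.Lib_MP_a91488.OSC

/-!
# Piece SEQ: existence of the parameters
-/

set_option autoImplicit false

open MeasureTheory ProbabilityTheory Filter
open scoped Topology

namespace Pool.Agent.MChaos

variable {d : ℕ} {Ω : Type} [MeasurableSpace Ω] {P : Measure Ω} [IsProbabilityMeasure P] {X : ℕ → Ω → E d → ℝ}

theorem seq_tendsto_two (f : ℕ → ℝ) (hf : Tendsto f atTop atTop) : Tendsto (fun m => (2 : ℝ) ^ (f m)) atTop atTop := by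
  have h2 : ∀ x : ℝ, (2 : ℝ) ^ x = Real.exp (Real.log 2 * x) := fun x => Real.rpow_def_of_pos two_pos x
  simp_rw [h2]
  exact Real.tendsto_exp_atTop.comp (hf.const_mul_atTop (Real.log_pos one_lt_two))

theorem seq_ev1 (K : ℝ) : ∀ᶠ m : ℕ in atTop, K * (2 : ℝ) ^ (-(m : ℝ)) ≤ 2 ^ (-Real.sqrt m) / 8 := by
  have h1 : Tendsto (fun m : ℕ => (m : ℝ) - Real.sqrt m) atTop atTop := by
    have h3 : Tendsto (fun m : ℕ => (m : ℝ) / 2) atTop atTop := tendsto_natCast_atTop_atTop.atTop_div_const two_pos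
    refine tendsto_atTop_mono' _ ?_ h3
    filter_upwards [eventually_ge_atTop 4] with m hm
    have hm' : (4 : ℝ) ≤ m := by exact_mod_cast hm
    have h4 : Real.sqrt m ≤ m / 2 := by
      rw [Real.sqrt_le_left (by positivity)]
      nlinarith
    linarith
  have h2 := (seq_tendsto_two _ h1).eventually_ge_atTop (8 * K)
  filter_upwards [h2] with m hm
  have h5 : (2 : ℝ) ^ ((m : ℝ) - Real.sqrt m) * 2 ^ (-(m : ℝ)) = 2 ^ (-Real.sqrt m) := by
    rw [← Real.rpow_add two_pos]; congr 1; ring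
  have h6 : 0 < (2 : ℝ) ^ (-(m : ℝ)) := by positivity
  rw [← h5]
  nlinarith

theorem seq_ev2 (K : ℝ) (h : ℕ) (hh : 2 ≤ h) : ∀ᶠ m : ℕ in atTop, K ≤ (2 : ℝ) ^ (Real.sqrt m / (3 * h)) := by
  have h1 : Tendsto (fun m : ℕ => Real.sqrt m / (3 * h)) atTop atTop :=
    (Real.tendsto_sqrt_atTop.comp tendsto_natCast_atTop_atTop).atTop_div_const (by positivity)
  exact (seq_tendsto_two _ h1).eventually_ge_atTop K

/-- thresholds: for every `J` the step parameter `h J` and the threshold `M J` such that for `m ≥ M J` all estimates hold with precision `J`: `locp` for `G J` (`typ`) and `e = 1/(J+1)`; `osc_bound` with `θ = 1/h^2`, `l = m / h^2 + 1`;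
`osc` bound `(#G J + #G (J-1)) P(Osc) ≤ 2^(-√m)/8`; `4 #G J ≤ 2^(√m/(3 h))`; `m - l ≥ t₀` -/
theorem thresholds (hX : CP d P X) (β : ℝ) (hβ : β ^ 2 < 2 * d) (G : ℕ → Finset ℝ) (hG : ∀ J : ℕ, ∀ τ ∈ G J, τ ^ 2 < 2 * d) : ∃ h M : ℕ → ℕ, (∀ J, 2 ≤ h J) ∧ Monotone h ∧ Tendsto h atTop atTop ∧
    ∀ J m : ℕ, M J ≤ m → (∀ l l' : ℕ, l ≤ m / h J ^ 2 + 1 → l' ≤ 2 * m / h J ^ 2 + 1 → ∀ z ∈ Idx d m,
      P.real (LcE P X β (G J) (1 / ((J : ℝ) + 1)) m (m / h J + 1) (cut P X (m - l)) (cut P X (m + (m / h J + 1) - l')) z)ᶜ ≤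
        2 ^ (-Real.sqrt m) / 2 + (G J).card * P.real (Osc X (cut P X (m - l)) (cut P X (m + (m / h J + 1) - l')) (m + (m / h J + 1)) 3)) ∧
      (((G J).card : ℝ) + (G (J - 1)).card + 1) * P.real (Osc X 0 (cut P X (m - (m / h J ^ 2 + 1))) m 1) ≤ 2 ^ (-Real.sqrt m) / 8 ∧
      4 * ((G J).card : ℝ) ≤ 2 ^ (Real.sqrt m / (3 * h J)) := by
  have h1 := fun J : ℕ => locp hX β hβ (G J) (1 / ((J : ℝ) + 1)) (by positivity) (hG J)
  choose h₀ hh₀ hloc using h1
  let h : ℕ → ℕ := fun J => ∑ j ∈ Finset.range (J + 1), h₀ j + J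
  have hge : ∀ J, h₀ J ≤ h J := fun J =>
    (Finset.single_le_sum (f := h₀) (fun _ _ => Nat.zero_le _) (Finset.self_mem_range_succ J)).trans (Nat.le_add_right _ _)
  have hh2 : ∀ J, 2 ≤ h J := fun J => (hh₀ J).trans (hge J)
  have hmono : Monotone h := by
    intro a b hab
    refine Nat.add_le_add (Finset.sum_le_sum_of_subset ?_) hab
    intro x hx
    simp only [Finset.mem_range] at hx ⊢
    omega
  have hlim : Tendsto h atTop atTop := tendsto_atTop_mono (fun J => Nat.le_add_left J _) tendsto_id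
  have key : ∀ J : ℕ, ∃ M : ℕ, ∀ m : ℕ, M ≤ m → (∀ l l' : ℕ, l ≤ m / h J ^ 2 + 1 → l' ≤ 2 * m / h J ^ 2 + 1 → ∀ z ∈ Idx d m,
      P.real (LcE P X β (G J) (1 / ((J : ℝ) + 1)) m (m / h J + 1) (cut P X (m - l)) (cut P X (m + (m / h J + 1) - l')) z)ᶜ ≤
        2 ^ (-Real.sqrt m) / 2 + (G J).card * P.real (Osc X (cut P X (m - l)) (cut P X (m + (m / h J + 1) - l')) (m + (m / h J + 1)) 3)) ∧
      (((G J).card : ℝ) + (G (J - 1)).card + 1) * P.real (Osc X 0 (cut P X (m - (m / h J ^ 2 + 1))) m 1) ≤ 2 ^ (-Real.sqrt m) / 8 ∧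
      4 * ((G J).card : ℝ) ≤ 2 ^ (Real.sqrt m / (3 * h J)) := by
    intro J
    obtain ⟨M₁, hM₁⟩ := hloc J (h J) (hge J)
    have hpos : (0 : ℝ) < (h J : ℝ) ^ 2 := by
      have : (0 : ℝ) < h J := by exact_mod_cast (lt_of_lt_of_le two_pos (hh2 J))
      positivity
    obtain ⟨C, t₀, hC, hosc⟩ := osc_bound hX (1 / (h J : ℝ) ^ 2) (by positivity)
    have e1 := seq_ev1 ((((G J).card : ℝ) + (G (J - 1)).card + 1) * C)
    have e2 := seq_ev2 (4 * ((G J).card : ℝ)) (h J) (hh2 J)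
    obtain ⟨M₂, hM₂⟩ := eventually_atTop.1 (e1.and e2)
    refine ⟨max M₁ (max M₂ (2 * (t₀ + 2))), fun m hm => ?_⟩
    have a1 : M₁ ≤ m := (le_max_left _ _).trans hm
    have a2 : M₂ ≤ m := (le_max_left _ _).trans ((le_max_right _ _).trans hm)
    have a3 : 2 * (t₀ + 2) ≤ m := (le_max_right _ _).trans ((le_max_right _ _).trans hm)
    refine ⟨hM₁ m a1, ?_, (hM₂ m a2).2⟩
    have hdiv : m / h J ^ 2 ≤ m / 4 := by
      apply Nat.div_le_div_left _ (by norm_num)
      calc 4 = 2 ^ 2 := by norm_num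
        _ ≤ h J ^ 2 := Nat.pow_le_pow_left (hh2 J) 2
    have b1 : m / h J ^ 2 + 1 + t₀ ≤ m := by omega
    have b2 : 1 / (h J : ℝ) ^ 2 * m ≤ ((m / h J ^ 2 + 1 : ℕ) : ℝ) := by
      rw [one_div_mul_eq_div, div_le_iff₀ hpos]
      have : m < (m / h J ^ 2 + 1) * h J ^ 2 := by
        have := Nat.lt_mul_div_succ m (show 0 < h J ^ 2 by exact_mod_cast hpos)
        rw [mul_comm]; exact this
      have h3 : (m : ℝ) ≤ ((m / h J ^ 2 + 1) * h J ^ 2 : ℕ) := by exact_mod_cast this.le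
      push_cast at h3 ⊢
      exact h3
    have b3 := hosc m _ b2 b1
    calc (((G J).card : ℝ) + (G (J - 1)).card + 1) * P.real (Osc X 0 (cut P X (m - (m / h J ^ 2 + 1))) m 1)
        ≤ (((G J).card : ℝ) + (G (J - 1)).card + 1) * (C * 2 ^ (-(m : ℝ))) := by gcongr
      _ = (((G J).card : ℝ) + (G (J - 1)).card + 1) * C * 2 ^ (-(m : ℝ)) := by ring
      _ ≤ _ := (hM₂ m a2).1
  choose M hM using key
  exact ⟨h, M, hh2, hmono, hlim, hM⟩

/-- arithmetic of one step -/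
theorem seq_arith (m h h' : ℕ) (hm : 100 ≤ m) (hh : 2 ≤ h) (hle : h ≤ h') :
    m / h + 1 ≤ m ∧ m + (m / h + 1) ≤ 2 * m ∧ 2 * m / h ^ 2 + 1 ≤ m / h + 1 ∧ (m + (m / h + 1)) / h' ^ 2 + 1 ≤ 2 * m / h ^ 2 + 1 ∧ m / h ^ 2 + 1 ≤ m / 4 + 1 ∧ m / h ^ 2 + 1 ≤ m / h + 1 := by
  have h1 : m / h ≤ m / 2 := Nat.div_le_div_left hh (by norm_num)
  have h2 : m / h + 1 ≤ m := by omega
  have h3 : 2 * m / h ^ 2 ≤ m / h := by
    rw [sq, ← Nat.div_div_eq_div_mul]
    calc 2 * m / h / h ≤ (h * m) / h / h := by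
          apply Nat.div_le_div_right; apply Nat.div_le_div_right; exact Nat.mul_le_mul_right m hh
      _ = m / h := by rw [Nat.mul_div_cancel_left m (by omega)]
  have h4 : (m + (m / h + 1)) / h' ^ 2 ≤ 2 * m / h ^ 2 := by
    apply Nat.div_le_div (by omega) (Nat.pow_le_pow_left hle 2) (by positivity)
  have h5 : m / h ^ 2 ≤ m / 4 := by
    apply Nat.div_le_div_left _ (by norm_num)
    calc 4 = 2 ^ 2 := by norm_num
      _ ≤ h ^ 2 := Nat.pow_le_pow_left hh 2
  have h6 : m / h ^ 2 ≤ m / h := by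
    apply Nat.div_le_div_left _ (by omega)
    nlinarith
  refine ⟨h2, by omega, by omega, by omega, by omega, by omega⟩

/-- increase of the square root -/
theorem seq_sqrt (m h : ℕ) (hm : 100 ≤ m) (hh : 2 ≤ h) : Real.sqrt m + Real.sqrt m / (3 * h) ≤ Real.sqrt ((m + (m / h + 1) : ℕ) : ℝ) := by
  have hm' : (100 : ℝ) ≤ m := by exact_mod_cast hm
  have hh' : (2 : ℝ) ≤ h := by exact_mod_cast hh
  have h0 : (0 : ℝ) < h := by linarith
  apply Real.le_sqrt_of_sq_le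
  have h1 : (m : ℝ) + m / h ≤ ((m + (m / h + 1) : ℕ) : ℝ) := by
    have : (m : ℝ) / h ≤ ((m / h + 1 : ℕ) : ℝ) := by
      rw [div_le_iff₀ h0]
      have h2 := (Nat.lt_mul_div_succ m (show 0 < h by omega)).le
      have h3 : (m : ℝ) ≤ ((h * (m / h + 1) : ℕ) : ℝ) := by exact_mod_cast h2
      rw [Nat.cast_mul] at h3
      linarith
    push_cast at this ⊢
    linarith
  refine le_trans ?_ h1
  have h4 : Real.sqrt m ^ 2 = m := Real.sq_sqrt (by positivity)
  have h5 : (Real.sqrt m + Real.sqrt m / (3 * h)) ^ 2 = m * (1 + 1 / (3 * h)) ^ 2 := by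
    rw [show Real.sqrt m + Real.sqrt m / (3 * h) = Real.sqrt m * (1 + 1 / (3 * h)) by ring, mul_pow, h4]
  rw [h5]
  have h6 : (1 + 1 / (3 * (h : ℝ))) ^ 2 ≤ 1 + 1 / h := by
    have : 1 / (3 * (h : ℝ)) = (1 / h) / 3 := by field_simp
    rw [this]
    have h7 : 0 < 1 / (h : ℝ) := by positivity
    have h8 : 1 / (h : ℝ) ≤ 1 / 2 := one_div_le_one_div_of_le two_pos hh'
    nlinarith
  calc (m : ℝ) * (1 + 1 / (3 * h)) ^ 2 ≤ m * (1 + 1 / h) := by gcongr
    _ = m + m / h := by ring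

/-- `typ`, `thresholds`, `parm`: `e i = 1/(J i + 1)`, `G i = G (J i)`, `k i = m i / h (J i) + 1`, `l i = m i / h (J i)^2 + 1`, `S i = 2 * 2^(-√(m i))`.
`l (i+1) ≤ 2 m i / h (J i)^2 + 1 ≤ k i` (`m (i+1) ≤ 2 m i`, `h` monotone), `osc_sub`, `√(m (i+1)) - √(m i) ≥ k i/(2 √(m (i+1))) ≥ √(m i)/(3 h (J i))`, `√(m i) ≥ i` for the summability -/
theorem seq_exists (hX : CP d P X) (β : ℝ) (hβ : β ^ 2 < 2 * d) : ∃ s : Sq, SqOK P X β s := by
  obtain ⟨G, hG1, hG2⟩ := typ d hX.dpos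
  obtain ⟨h, M, hh, hmono, hlim, H⟩ := thresholds hX β hβ G (fun J τ hτ => (hG1 J τ hτ).1)
  obtain ⟨J, m, Jmono, Jlim, Jstep, Hm, mstep⟩ := parm h M hh
  have hM : ∀ i, M (J i) ≤ m i := fun i => (Hm i).1
  have hii : ∀ i, i * i ≤ m i := fun i => (Hm i).2.2.1
  have h100 : ∀ i, 100 ≤ m i := fun i => (Hm i).2.2.2
  have har : ∀ i, _ := fun i => seq_arith (m i) (h (J i)) (h (J (i + 1))) (h100 i) (hh _) (hmono (Jmono (Nat.le_succ i)))
  have hmpos : ∀ i, (0 : ℝ) < m i := fun i => by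
    have : (100 : ℝ) ≤ m i := by exact_mod_cast h100 i
    linarith
  have hlnext : ∀ i, m (i + 1) / h (J (i + 1)) ^ 2 + 1 ≤ 2 * m i / h (J i) ^ 2 + 1 := by
    intro i
    rw [mstep i]
    exact (har i).2.2.2.1
  have hlk : ∀ i, m (i + 1) / h (J (i + 1)) ^ 2 + 1 ≤ m i / h (J i) + 1 := fun i => (hlnext i).trans (har i).2.2.1
  have hll : ∀ i, m i / h (J i) ^ 2 + 1 ≤ m i := by
    intro i
    have := (har i).2.2.2.2.1
    have := h100 i
    omega
  have hml : ∀ i, m i - (m i / h (J i) ^ 2 + 1) ≤ m (i + 1) - (m (i + 1) / h (J (i + 1)) ^ 2 + 1) := by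
    intro i
    have a1 := hlk i
    have a2 := mstep i
    generalize m (i + 1) / h (J (i + 1)) ^ 2 = x1 at *
    generalize m i / h (J i) ^ 2 = x2 at *
    generalize m i / h (J i) = x3 at *
    omega
  have hid : Tendsto (fun i => m i - (m i / h (J i) ^ 2 + 1)) atTop atTop := by
    refine tendsto_atTop_mono (fun i => ?_) tendsto_id
    have a1 := (har i).2.2.2.2.1
    have a2 := h100 i
    have a3 := hii i
    have a4 : i ≤ m i / 2 := by
      rw [Nat.le_div_iff_mul_le two_pos]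
      rcases Nat.le_or_ge i 50 with h5 | h5
      · omega
      · nlinarith
    simp only [id]
    omega
  have hJ0 : Tendsto (fun i => 1 / ((J i : ℝ) + 1)) atTop (𝓝 0) := tendsto_one_div_add_atTop_nhds_zero_nat.comp Jlim
  have hm_lim : Tendsto (fun i => (m i : ℝ)) atTop atTop := by
    refine tendsto_natCast_atTop_atTop.comp (tendsto_atTop_mono (fun i => ?_) tendsto_id)
    have a3 := hii i
    have a2 := h100 i
    simp only [id]
    rcases Nat.eq_zero_or_pos i with h5 | h5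
    · omega
    · nlinarith
  have hk0 : Tendsto (fun i => ((m i / h (J i) + 1 : ℕ) : ℝ) / m i) atTop (𝓝 0) := by
    have t1 : Tendsto (fun i => 1 / (h (J i) : ℝ)) atTop (𝓝 0) :=
      (tendsto_one_div_atTop_nhds_zero_nat (𝕜 := ℝ)).comp (hlim.comp Jlim)
    have t2 : Tendsto (fun i => 1 / (m i : ℝ)) atTop (𝓝 0) := by
      simp_rw [one_div]
      exact tendsto_inv_atTop_zero.comp hm_lim
    have t3 := t1.add t2
    rw [add_zero] at t3
    refine squeeze_zero (fun i => by positivity) (fun i => ?_) t3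
    have a1 : ((m i / h (J i) : ℕ) : ℝ) ≤ (m i : ℝ) / h (J i) := Nat.cast_div_le
    push_cast
    rw [div_le_iff₀ (hmpos i), add_mul, one_div_mul_cancel (hmpos i).ne', one_div_mul_eq_div]
    linarith
  have hosc : ∀ i, (((G (J i)).card : ℝ) + (G (J i - 1)).card + 1) * P.real (Osc X 0 (cut P X (m i - (m i / h (J i) ^ 2 + 1))) (m i) 1) ≤ 2 ^ (-Real.sqrt (m i)) / 8 :=
    fun i => (H (J i) (m i) (hM i)).2.1
  have hsq : ∀ i, Real.sqrt (m i) + Real.sqrt (m i) / (3 * h (J i)) ≤ Real.sqrt (m (i + 1)) := by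
    intro i
    rw [mstep i]
    exact seq_sqrt (m i) (h (J i)) (h100 i) (hh _)
  have hsq1 : ∀ i, Real.sqrt (m i) ≤ Real.sqrt (m (i + 1)) := fun i => le_trans (by
    have : 0 ≤ Real.sqrt (m i) / (3 * h (J i)) := by positivity
    linarith) (hsq i)
  have hosc' : ∀ i, P.real (Osc X 0 (cut P X (m i - (m i / h (J i) ^ 2 + 1))) (m i) 1) ≤ 2 ^ (-Real.sqrt (m i)) / 8 := by
    intro i
    refine le_trans ?_ (hosc i)
    have a1 : 0 ≤ P.real (Osc X 0 (cut P X (m i - (m i / h (J i) ^ 2 + 1))) (m i) 1) := measureReal_nonneg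
    have a2 : (0 : ℝ) ≤ (G (J i)).card := by positivity
    have a3 : (0 : ℝ) ≤ (G (J i - 1)).card := by positivity
    nlinarith
  refine ⟨⟨m, fun i => m i / h (J i) + 1, fun i => m i / h (J i) ^ 2 + 1, fun i => 1 / ((J i : ℝ) + 1), fun i => G (J i)⟩, ?_⟩
  have hn : ∀ i, cut P X (m i - (m i / h (J i) ^ 2 + 1)) ≤ cut P X (m (i + 1) - (m (i + 1) / h (J (i + 1)) ^ 2 + 1)) := fun i => cut_mono hX (hml i)
  refine
    { hm := mstep
      hk := fun i => Nat.succ_pos _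
      hl := hll
      hn := hn
      hnm := hid
      he := fun i => by positivity
      he0 := hJ0
      hk0 := hk0
      hl0 := ?_
      hi0 := ?_
      hG := fun i τ hτ => (hG1 (J i) τ hτ).2
      hT := ?_
      fail := ?_
      osc := ?_ }
  · refine squeeze_zero (fun i => by positivity) (fun i => ?_) hk0
    have a1 := (har i).2.2.2.2.2
    have a2 : ((m i / h (J i) ^ 2 + 1 : ℕ) : ℝ) ≤ ((m i / h (J i) + 1 : ℕ) : ℝ) := by exact_mod_cast a1
    gcongr
  · refine squeeze_zero (fun i => by positivity) (fun i => ?_) (tendsto_one_div_atTop_nhds_zero_nat (𝕜 := ℝ))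
    rcases Nat.eq_zero_or_pos i with rfl | hi
    · simp
    · have hi' : (0 : ℝ) < i := by exact_mod_cast hi
      have a3 : (i : ℝ) * i ≤ m i := by exact_mod_cast hii i
      show (i : ℝ) / m i ≤ 1 / i
      rw [div_le_div_iff₀ (hmpos i) hi']
      linarith
  · intro τ hτ
    obtain ⟨T, hT1, hT2⟩ := hG2 τ hτ
    exact ⟨fun i => T (J i), fun i => hT1 _, hT2.comp Jlim⟩
  · refine ⟨fun i => 2 * 2 ^ (-Real.sqrt (m i)), ?_, fun i => by positivity, fun i => ?_⟩
    · have t1 : Tendsto (fun i => Real.sqrt (m i)) atTop atTop := Real.tendsto_sqrt_atTop.comp hm_lim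
      have t2 : Tendsto (fun i => ((2 : ℝ) ^ (Real.sqrt (m i)))⁻¹) atTop (𝓝 0) := tendsto_inv_atTop_zero.comp (seq_tendsto_two _ t1)
      have t3 : Tendsto (fun i => 2 * ((2 : ℝ) ^ (Real.sqrt (m i)))⁻¹) atTop (𝓝 (2 * 0)) := t2.const_mul 2
      rw [mul_zero] at t3
      refine t3.congr (fun i => ?_)
      rw [Real.rpow_neg two_pos.le]
    · refine ⟨2 ^ (-Real.sqrt (m i)) / 2 + (G (J i)).card * P.real (Osc X (cut P X (m i - (m i / h (J i) ^ 2 + 1))) (cut P X (m (i + 1) - (m (i + 1) / h (J (i + 1)) ^ 2 + 1))) (m (i + 1)) 3), ?_, ?_⟩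
      · intro z hz
        have a1 := (H (J i) (m i) (hM i)).1 (m i / h (J i) ^ 2 + 1) (m (i + 1) / h (J (i + 1)) ^ 2 + 1) le_rfl (hlnext i) z hz
        rw [← mstep i] at a1
        exact a1
      · have b1 : P.real (Osc X (cut P X (m i - (m i / h (J i) ^ 2 + 1))) (cut P X (m (i + 1) - (m (i + 1) / h (J (i + 1)) ^ 2 + 1))) (m (i + 1)) 3) ≤
            P.real (Osc X 0 (cut P X (m (i + 1) - (m (i + 1) / h (J (i + 1)) ^ 2 + 1))) (m (i + 1)) 1) + P.real (Osc X 0 (cut P X (m i - (m i / h (J i) ^ 2 + 1))) (m i) 1) := by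
          have c1 := osc_sub (X := X) _ _ (m i) (m i / h (J i) + 1) (hn i)
          rw [← mstep i] at c1
          exact (measureReal_mono c1).trans (measureReal_union_le _ _)
        have b2 : (((G (J i)).card : ℝ)) ≤ ((G (J (i + 1))).card : ℝ) + (G (J (i + 1) - 1)).card + 1 := by
          have c2 := Jstep i
          have c3 : J i ≤ J (i + 1) := Jmono (Nat.le_succ i)
          rcases Nat.eq_or_lt_of_le c3 with c4 | c4
          · have : J (i + 1) = J i := c4.symm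
            rw [this]
            have : (0 : ℝ) ≤ (G (J i - 1)).card := Nat.cast_nonneg _
            linarith
          · have : J (i + 1) - 1 = J i := by omega
            rw [this]
            have : (0 : ℝ) ≤ (G (J (i + 1))).card := by positivity
            linarith
        have b3 := hosc (i + 1)
        have b4 := hosc i
        have b5 : (0 : ℝ) ≤ P.real (Osc X 0 (cut P X (m (i + 1) - (m (i + 1) / h (J (i + 1)) ^ 2 + 1))) (m (i + 1)) 1) := measureReal_nonneg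
        have b6 : (0 : ℝ) ≤ P.real (Osc X 0 (cut P X (m i - (m i / h (J i) ^ 2 + 1))) (m i) 1) := measureReal_nonneg
        have b7 : ((G (J i)).card : ℝ) * P.real (Osc X 0 (cut P X (m (i + 1) - (m (i + 1) / h (J (i + 1)) ^ 2 + 1))) (m (i + 1)) 1) ≤ 2 ^ (-Real.sqrt (m (i + 1))) / 8 :=
          (mul_le_mul_of_nonneg_right b2 b5).trans b3
        have b8 : ((G (J i)).card : ℝ) * P.real (Osc X 0 (cut P X (m i - (m i / h (J i) ^ 2 + 1))) (m i) 1) ≤ 2 ^ (-Real.sqrt (m i)) / 8 := by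
          refine (mul_le_mul_of_nonneg_right ?_ b6).trans b4
          have : (0 : ℝ) ≤ (G (J i - 1)).card := by positivity
          linarith
        have b9 : (2 : ℝ) ^ (-Real.sqrt (m (i + 1))) ≤ 2 ^ (-Real.sqrt (m i)) :=
          Real.rpow_le_rpow_of_exponent_le one_le_two (neg_le_neg (hsq1 i))
        have b10 := (H (J i) (m i) (hM i)).2.2
        have b11 : 4 * ((G (J i)).card : ℝ) * 2 ^ (-Real.sqrt (m (i + 1))) ≤ 2 ^ (-Real.sqrt (m i)) := by
          calc 4 * ((G (J i)).card : ℝ) * 2 ^ (-Real.sqrt (m (i + 1))) ≤ 2 ^ (Real.sqrt (m i) / (3 * h (J i))) * 2 ^ (-Real.sqrt (m (i + 1))) := by gcongr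
            _ = 2 ^ (Real.sqrt (m i) / (3 * h (J i)) - Real.sqrt (m (i + 1))) := by rw [← Real.rpow_add two_pos]; rfl
            _ ≤ 2 ^ (-Real.sqrt (m i)) := Real.rpow_le_rpow_of_exponent_le one_le_two (by linarith [hsq i])
        have b12 : ((G (J i)).card : ℝ) * P.real (Osc X (cut P X (m i - (m i / h (J i) ^ 2 + 1))) (cut P X (m (i + 1) - (m (i + 1) / h (J (i + 1)) ^ 2 + 1))) (m (i + 1)) 3) ≤
            2 ^ (-Real.sqrt (m (i + 1))) / 8 + 2 ^ (-Real.sqrt (m i)) / 8 := by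
          refine (mul_le_mul_of_nonneg_left b1 (by positivity)).trans ?_
          rw [mul_add]
          exact add_le_add b7 b8
        have b13 : (0 : ℝ) < 2 ^ (-Real.sqrt (m i)) := by positivity
        show _ + 2 * ((G (J i)).card : ℝ) * (2 * 2 ^ (-Real.sqrt (m (i + 1)))) ≤ 2 * 2 ^ (-Real.sqrt (m i))
        have b14 : 2 * ((G (J i)).card : ℝ) * (2 * 2 ^ (-Real.sqrt (m (i + 1)))) = 4 * ((G (J i)).card : ℝ) * 2 ^ (-Real.sqrt (m (i + 1))) := by ring
        rw [b14]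
        linarith
  · have g1 : Summable (fun i : ℕ => ((1 : ℝ) / 2) ^ i) := summable_geometric_of_lt_one (by norm_num) (by norm_num)
    refine Summable.of_nonneg_of_le (fun i => measureReal_nonneg) (fun i => ?_) g1
    refine (hosc' i).trans ?_
    have c1 : (i : ℝ) ≤ Real.sqrt (m i) := by
      apply Real.le_sqrt_of_sq_le
      have : (i : ℝ) * i ≤ m i := by exact_mod_cast hii i
      rw [sq]; exact this
    have c2 : (2 : ℝ) ^ (-Real.sqrt (m i)) ≤ 2 ^ (-(i : ℝ)) := Real.rpow_le_rpow_of_exponent_le one_le_two (neg_le_neg c1)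
    have c3 : (2 : ℝ) ^ (-(i : ℝ)) = (1 / 2) ^ i := by
      rw [Real.rpow_neg two_pos.le, Real.rpow_natCast, one_div, inv_pow]
    have c4 : (0 : ℝ) < (1 / 2) ^ i := by positivity
    rw [← c3] at c4 ⊢
    linarith

end Pool.Agent.MChaos
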