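import Pool.Agent.Lib_MP_a91488.LBT
import Pool.Agent.Lib_MP_a91488.MOR
import Pool.Agent.Lib_MP_a91488.GTR
import Pool.Agent.Lib_MP_a91488.SEQ

/-!
# Piece LBF: the lower bound
-/

set_option autoImplicit false

open MeasureTheory ProbabilityTheory Filter
open scoped Topology ENNReal

namespace Pool.Agent.MChaos

variable {d : ℕ} {Ω : Type} [MeasurableSpace Ω] {P : Measure Ω} [IsProbabilityMeasure P] {X : ℕ → Ω → E d → ℝ}

/-- `seq_exists`, `gtr`, `gtr_ae`: fix `ω` and `i₀` (`Idx_zero`). For `τ` take `T` from `hT`; `mor` for the sequences shifted by `i₀`, `A i z := ω ∈ Gd (i₀+i) z`, `B i c := ω ∈ Typ .. (T (i₀+i)) .. c`, `u i = d - T^2/2 - e ≥ 0`; `lbt` -/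
theorem lbf (hX : CP d P X) (β : ℝ) (hβ : β ^ 2 < 2 * d) : ∀ᵐ ω ∂P, ∀ μ : Measure (E d), WL P X β ω μ → ∀ τ : ℝ, τ ^ 2 ≤ 2 * d →
    (Lev μ (d + β ^ 2 / 2 - β * τ)).Nonempty ∧ ENNReal.ofReal (d - τ ^ 2 / 2) ≤ dimH (Lev μ (d + β ^ 2 / 2 - β * τ)) := by
  classical
  obtain ⟨s, hs⟩ := seq_exists hX β hβ
  obtain ⟨Gd, S, hS, hGd, hGd2⟩ := gtr hX β s hs
  filter_upwards [gtr_ae β s hs Gd S hS hGd] with ω hω μ hμ τ hτ
  obtain ⟨i₀, hi₀, hosc⟩ := hω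
  obtain ⟨T, hTG, hT⟩ := hs.hT τ hτ
  have hshift : Tendsto (fun i => i₀ + i) atTop atTop := tendsto_atTop_mono (fun i => Nat.le_add_left i i₀) tendsto_id
  have key := mor (d := d) (fun i => s.m (i₀ + i)) (fun i => s.k (i₀ + i)) (fun i => hs.hm (i₀ + i)) (fun i => hs.hk (i₀ + i))
    (hs.hk0.comp hshift) ?_ (fun i z => ω ∈ Gd (i₀ + i) z)
    (fun i c => ω ∈ Typ X (nn P X s (i₀ + i)) (nn P X s (i₀ + i + 1)) (s.k (i₀ + i)) (s.m (i₀ + i + 1)) (T (i₀ + i)) (s.e (i₀ + i)) c)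
    (fun _ => 0) (Idx_zero _) hi₀ (fun i => d - T (i₀ + i) ^ 2 / 2 - s.e (i₀ + i)) (d - τ ^ 2 / 2) (fun i => hs.hG _ _ (hTG _)) ?_ ?_
  · obtain ⟨L, hLc, hLn, hLd, hL⟩ := key
    have hsub : L ⊆ Lev μ (d + β ^ 2 / 2 - β * τ) := by
      intro x hx
      refine lbt hX β s hs ω μ hμ i₀ hosc T τ hT x (hLc hx) (fun i hi => ?_) (fun i hi => ?_)
      · obtain ⟨j, rfl⟩ := Nat.exists_eq_add_of_le hi
        exact (hL x hx j).2
      · obtain ⟨j, rfl⟩ := Nat.exists_eq_add_of_le hi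
        obtain ⟨z, hz, hxz, hg⟩ := (hL x hx j).1
        exact ⟨z, hz, hxz, (hGd2 (i₀ + j) z hz ω hg).1⟩
    exact ⟨hLn.mono hsub, hLd.trans (dimH_mono hsub)⟩
  · have h1 : Tendsto (fun i : ℕ => ((i₀ + i : ℕ) : ℝ) / s.m (i₀ + i)) atTop (𝓝 0) := hs.hi0.comp hshift
    refine squeeze_zero (fun i => by positivity) (fun i => ?_) h1
    gcongr
    exact Nat.le_add_left i i₀
  · have h2 : Tendsto (fun i => (d : ℝ) - T i ^ 2 / 2 - s.e i) atTop (𝓝 (d - τ ^ 2 / 2 - 0)) :=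
      (tendsto_const_nhds.sub ((hT.pow 2).div_const 2)).sub hs.he0
    rw [sub_zero] at h2
    exact h2.comp hshift
  · intro i z hz hg
    exact (hGd2 (i₀ + i) z hz ω hg).2 (T (i₀ + i)) (hTG _)

end Pool.Agent.MChaos
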