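import Pool.Agent.Lib_MP_a91488.UBH
import Pool.Agent.Lib_MP_a91488.LDefs

/-!
# Piece LBM: the limit measure of dyadic cubes
-/

set_option autoImplicit false

open MeasureTheory ProbabilityTheory Filter
open scoped Topology

namespace Pool.Agent.MChaos

variable {d : ℕ} {Ω : Type} [MeasurableSpace Ω] {P : Measure Ω} [IsProbabilityMeasure P] {X : ℕ → Ω → E d → ℝ}

/-- the density of the first `n` fields on neighbouring cubes -/
theorem lbm_dens (hX : CP d P X) (β : ℝ) : ∃ C : ℝ, 0 < C ∧ ∀ (ω : Ω) (m n : ℕ), ∀ z ∈ Idx d m, ∀ x ∈ cb m z,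
    ω ∉ Osc X 0 n m 1 → ∀ c ∈ Nbr m z, ∀ y ∈ cb m c,
    Real.exp (β * SS X 0 n ω x - β ^ 2 / 2 * sig2 P X n - C) ≤ ∏ k ∈ Finset.Ico 0 n, wt P X β k ω y ∧
      ∏ k ∈ Finset.Ico 0 n, wt P X β k ω y ≤ Real.exp (β * SS X 0 n ω x - β ^ 2 / 2 * sig2 P X n + C) := by
  obtain ⟨C₁, hC₁, h1⟩ := exp1 hX β
  refine ⟨C₁ + 2 * |β|, by positivity, ?_⟩
  intro ω m n z hz x hx hosc c hc y hy
  have hcI : c ∈ Idx d m := (Nbr_symm m z c hz hc).1
  have hyc : y ∈ cube d := cb_sub m c hcI hy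
  have hs := h1 0 n (Nat.zero_le n) y hyc
  have h0 : sig2 P X 0 = 0 := by simp [sig2]
  rw [h0, sub_zero] at hs
  obtain ⟨w, hw1, hw2⟩ := Nbr_touch m z c hz hc
  have hno : ∀ z' ∈ Idx d m, ∀ a ∈ cb m z', ∀ b ∈ cb m z', |SS X 0 n ω a - SS X 0 n ω b| ≤ 1 := by
    intro z' hz' a ha b hb
    by_contra hlt
    push Not at hlt
    exact hosc ⟨z', hz', a, ha, b, hb, hlt⟩
  have ha := hno z hz x hx w hw1
  have hb := hno c hcI w hw2 y hy
  have hab : |SS X 0 n ω y - SS X 0 n ω x| ≤ 2 := by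
    rw [abs_le] at ha hb ⊢
    constructor <;> linarith
  have hβ : |β * (SS X 0 n ω y - SS X 0 n ω x)| ≤ 2 * |β| := by
    rw [abs_mul]
    nlinarith [abs_nonneg β]
  have hpos : 0 < ∫ ω', Real.exp (β * SS X 0 n ω' y) ∂P := integral_exp_pos (mgf_prod hX β 0 n y).1
  rw [prod_wt hX β 0 n ω y]
  set W := ∫ ω', Real.exp (β * SS X 0 n ω' y) ∂P with hW
  have e : Real.exp (β * SS X 0 n ω y) / W = Real.exp (β * SS X 0 n ω y - Real.log W) := by
    rw [Real.exp_sub, Real.exp_log hpos]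
  rw [e]
  rw [abs_le] at hs hβ
  constructor
  · apply Real.exp_le_exp.2
    linarith [hs.2, hβ.1]
  · apply Real.exp_le_exp.2
    linarith [hs.1, hβ.2]

theorem lbm_vol (m : ℕ) (z : V d) : volume (cb m z) ≠ ⊤ := by
  rw [cb_vol]
  exact ENNReal.ofReal_ne_top

/-- comparison of the masses -/
theorem lbm_TT (hX : CP d P X) (β : ℝ) : ∃ C : ℝ, 0 < C ∧ ∀ (ω : Ω) (m n : ℕ), ∀ z ∈ Idx d m, ∀ x ∈ cb m z,
    ω ∉ Osc X 0 n m 1 → ∀ c ∈ Nbr m z, ∀ N, n ≤ N →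
    Real.exp (β * SS X 0 n ω x - β ^ 2 / 2 * sig2 P X n - C) * TT P X β n N (cb m c) ω ≤ TT P X β 0 N (cb m c) ω ∧
      TT P X β 0 N (cb m c) ω ≤ Real.exp (β * SS X 0 n ω x - β ^ 2 / 2 * sig2 P X n + C) * TT P X β n N (cb m c) ω := by
  obtain ⟨C, hC, h⟩ := lbm_dens hX β
  refine ⟨C, hC, ?_⟩
  intro ω m n z hz x hx hosc c hc N hnN
  have key := h ω m n z hz x hx hosc c hc
  have hsplit : ∀ y, ∏ k ∈ Finset.Ico 0 N, wt P X β k ω y =
      (∏ k ∈ Finset.Ico 0 n, wt P X β k ω y) * ∏ k ∈ Finset.Ico n N, wt P X β k ω y :=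
    fun y => (Finset.prod_Ico_consecutive _ (Nat.zero_le n) hnN).symm
  have hnn : ∀ y, 0 ≤ ∏ k ∈ Finset.Ico n N, wt P X β k ω y :=
    fun y => Finset.prod_nonneg fun k _ => (wt_pos hX β k ω y).le
  unfold TT
  rw [← integral_const_mul, ← integral_const_mul]
  constructor
  · refine setIntegral_mono_on ((tt_integrable hX β n N ω _ (lbm_vol m c)).const_mul _)
      (tt_integrable hX β 0 N ω _ (lbm_vol m c)) (cb_meas m c) ?_
    intro y hy
    rw [hsplit y]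
    exact mul_le_mul_of_nonneg_right (key y hy).1 (hnn y)
  · refine setIntegral_mono_on (tt_integrable hX β 0 N ω _ (lbm_vol m c))
      ((tt_integrable hX β n N ω _ (lbm_vol m c)).const_mul _) (cb_meas m c) ?_
    intro y hy
    rw [hsplit y]
    exact mul_le_mul_of_nonneg_right (key y hy).2 (hnn y)

/-- On `cb m c`, `c ∈ Nbr m z`, the field `SS 0 n` differs from its value at `x ∈ cb m z` by at most `2` (`ω ∉ Osc`, `Nbr_touch`), `∏_{k<n} wt = exp (β SS)/E exp (β SS)` and `E exp (β SS 0 n y)` is `exp (β^2/2 sig2 n)` up to a constant (`exp1`), so for `N ≥ n`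
`TT 0 N (cb m c)` is `exp (β SS 0 n x - β^2/2 sig2 n)` times `TT n N (cb m c)` up to constants; `wl_cb`, `wl_nb` (`η → 0`) -/
theorem lbm (hX : CP d P X) (β : ℝ) : ∃ C : ℝ, 0 < C ∧ ∀ (ω : Ω) (μ : Measure (E d)), WL P X β ω μ → ∀ (m n : ℕ), ∀ z ∈ Idx d m, ∀ x ∈ cb m z, ∀ b₁ b₂ : ℝ, 0 < b₁ → 0 < b₂ →
    ω ∉ Osc X 0 n m 1 → (∀ c ∈ Nbr m z, ω ∈ UpE P X β n m b₂ c) → ω ∈ LoE P X β n m b₁ z →
    Real.exp (β * SS X 0 n ω x - β ^ 2 / 2 * sig2 P X n - C) * b₁ / 2 ^ (d * m) ≤ μ.real (cb m z) ∧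
      μ.real (nb m z) ≤ Real.exp (β * SS X 0 n ω x - β ^ 2 / 2 * sig2 P X n + C) * b₂ / 2 ^ (d * m) := by
  obtain ⟨C, hC, h⟩ := lbm_TT hX β
  refine ⟨C + d * Real.log 3, by positivity, ?_⟩
  intro ω μ hμ m n z hz x hx b₁ b₂ hb₁ hb₂ hosc hup hlo
  have hp : (0 : ℝ) < 2 ^ (d * m) := by positivity
  set L := β * SS X 0 n ω x - β ^ 2 / 2 * sig2 P X n with hL
  have hl3 : 0 ≤ (d : ℝ) * Real.log 3 := by positivity
  have hup' : ∀ᶠ N in atTop, ∀ c ∈ Nbr m z, TT P X β n N (cb m c) ω * 2 ^ (d * m) ≤ b₂ := by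
    rw [Filter.eventually_all_finset]
    intro c hc
    exact hup c hc
  have hlo' : ∀ᶠ N in atTop, b₁ ≤ TT P X β n N (cb m z) ω * 2 ^ (d * m) := hlo
  constructor
  · refine le_of_forall_pos_le_add fun η hη => ?_
    obtain ⟨N, hN1, hN2, hN3⟩ := (((wl_cb hX β ω μ hμ m η hη).and hlo').and (eventually_ge_atTop n)).exists.imp
      (fun N hN => (⟨hN.1.1, hN.1.2, hN.2⟩ : _ ∧ _ ∧ _))
    have h2 := (h ω m n z hz x hx hosc z (Nbr_self m z hz) N hN3).1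
    refine le_trans ?_ (le_trans h2 (hN1 z hz))
    rw [mul_div_assoc]
    have h3 : b₁ / 2 ^ (d * m) ≤ TT P X β n N (cb m z) ω := by
      rw [div_le_iff₀ hp]
      exact hN2
    have h4 : Real.exp (L - (C + d * Real.log 3)) ≤ Real.exp (L - C) := by
      apply Real.exp_le_exp.2
      linarith
    exact mul_le_mul h4 h3 (by positivity) (Real.exp_pos _).le
  · refine le_of_forall_pos_le_add fun η hη => ?_
    obtain ⟨N, hN1, hN2, hN3⟩ := (((wl_nb hX β ω μ hμ m η hη).and hup').and (eventually_ge_atTop n)).exists.imp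
      (fun N hN => (⟨hN.1.1, hN.1.2, hN.2⟩ : _ ∧ _ ∧ _))
    have h1 := hN1 z hz
    have h2 : ∑ c ∈ Nbr m z, TT P X β 0 N (cb m c) ω ≤ ∑ _c ∈ Nbr m z, Real.exp (L + C) * (b₂ / 2 ^ (d * m)) := by
      refine Finset.sum_le_sum fun c hc => ?_
      refine (h ω m n z hz x hx hosc c hc N hN3).2.trans ?_
      refine mul_le_mul_of_nonneg_left ?_ (Real.exp_pos _).le
      rw [le_div_iff₀ hp]
      exact hN2 c hc
    rw [Finset.sum_const, nsmul_eq_mul] at h2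
    have h3 : ((Nbr m z).card : ℝ) ≤ 3 ^ d := by exact_mod_cast Nbr_card m z
    have h4 : (3 : ℝ) ^ d = Real.exp (d * Real.log 3) := by
      rw [mul_comm, Real.exp_mul, Real.exp_log (by norm_num), Real.rpow_natCast]
    have h5 : ((Nbr m z).card : ℝ) * (Real.exp (L + C) * (b₂ / 2 ^ (d * m))) ≤
        Real.exp (L + (C + d * Real.log 3)) * b₂ / 2 ^ (d * m) := by
      have h6 : Real.exp (L + (C + d * Real.log 3)) = Real.exp (d * Real.log 3) * Real.exp (L + C) := by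
        rw [← Real.exp_add]
        congr 1
        ring
      rw [h6, mul_div_assoc, mul_assoc, ← h4]
      exact mul_le_mul_of_nonneg_right h3 (by positivity)
    linarith

end Pool.Agent.MChaos
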