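import Pool.Agent.Lib_MP_a91488.GEO

/-!
# Piece LOCD: local dimension from the masses of dyadic cubes
-/

set_option autoImplicit false

open MeasureTheory Metric Filter
open scoped Topology

namespace Pool.Agent.MChaos

/-- the index `I` with `t I ≤ s < t (I + 1)` -/
private theorem locd_idx (t : ℕ → ℝ) (ht : Tendsto t atTop atTop) (hr : Tendsto (fun i => t (i + 1) / t i) atTop (𝓝 1)) :
    ∃ I : ℝ → ℕ, Tendsto I atTop atTop ∧ (∀ᶠ s in atTop, t (I s) ≤ s ∧ s < t (I s + 1)) ∧
      Tendsto (fun s => t (I s) / s) atTop (𝓝 1) ∧ Tendsto (fun s => t (I s + 1) / s) atTop (𝓝 1) := by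
  classical
  have hex : ∀ s : ℝ, ∃ n, s < t n := fun s => (ht.eventually (eventually_gt_atTop s)).exists
  let I : ℝ → ℕ := fun s => Nat.find (hex s) - 1
  have hfind : ∀ n : ℕ, ∀ᶠ s in atTop, n < Nat.find (hex s) := by
    intro n
    have h1 : ∀ᶠ s : ℝ in atTop, ∀ k ∈ Finset.range (n + 1), t k ≤ s := by
      rw [Filter.eventually_all_finset]
      intro k _
      exact eventually_ge_atTop (t k)
    filter_upwards [h1] with s hs
    by_contra hcon
    have h2 : Nat.find (hex s) ≤ n := not_lt.1 hcon
    have h3 := hs (Nat.find (hex s)) (Finset.mem_range.2 (by omega))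
    exact absurd (Nat.find_spec (hex s)) (not_lt.2 h3)
  have hI : Tendsto I atTop atTop := by
    rw [Filter.tendsto_atTop]
    intro n
    filter_upwards [hfind n] with s hs
    show n ≤ Nat.find (hex s) - 1
    omega
  have hb : ∀ᶠ s in atTop, t (I s) ≤ s ∧ s < t (I s + 1) := by
    filter_upwards [hfind 0] with s hs
    constructor
    · have h1 : I s < Nat.find (hex s) := by
        show Nat.find (hex s) - 1 < Nat.find (hex s)
        omega
      exact not_lt.1 (Nat.find_min (hex s) h1)
    · have h1 : I s + 1 = Nat.find (hex s) := by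
        show Nat.find (hex s) - 1 + 1 = Nat.find (hex s)
        omega
      rw [h1]
      exact Nat.find_spec (hex s)
  have hpos : ∀ᶠ s in atTop, 0 < t (I s) := hI.eventually (ht.eventually (eventually_gt_atTop 0))
  have hr1 : Tendsto (fun s => t (I s + 1) / t (I s)) atTop (𝓝 1) := hr.comp hI
  have hr2 : Tendsto (fun s => (t (I s + 1) / t (I s))⁻¹) atTop (𝓝 1) := by
    have := hr1.inv₀ one_ne_zero
    rwa [inv_one] at this
  refine ⟨I, hI, hb, ?_, ?_⟩
  · refine tendsto_of_tendsto_of_tendsto_of_le_of_le' hr2 tendsto_const_nhds ?_ ?_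
    · filter_upwards [hb, hpos] with s hs hp
      rw [inv_div]
      exact div_le_div_of_nonneg_left hp.le (hp.trans_le hs.1) hs.2.le
    · filter_upwards [hb, hpos] with s hs hp
      exact (div_le_one (hp.trans_le hs.1)).2 hs.1
  · refine tendsto_of_tendsto_of_tendsto_of_le_of_le' tendsto_const_nhds hr1 ?_ ?_
    · filter_upwards [hb, hpos] with s hs hp
      exact (one_le_div (hp.trans_le hs.1)).2 hs.2.le
    · filter_upwards [hb, hpos] with s hs hp
      exact div_le_div_of_nonneg_left ((hp.trans_le hs.1).trans hs.2).le hp hs.1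

/-- For small `r` let `i` be the first index with `√d 2^(-m i) < r`: then `cb (m i) (z i) ⊆ ball x r` and `r ≤ √d 2^(-m (i-1))`, so `log μ(ball x r)/log r ≤ lo i * m i/(m (i-1) log 2 - log √d) → α`. Let `i` be the last index with `r ≤ 2^(-m i)`:
`ball x r ⊆ nb (m i) (z i)` (`ball_sub_nb`) and `r > 2^(-m (i+1))`, so `log μ(ball x r)/log r ≥ up i * m i/(m (i+1) log 2) → α` (`α ≥ 0` is not needed: split according to the sign of `up i`, or use that the ratio `m (i+1)/m i` tends to `1`) -/
theorem locd {d : ℕ} (hd : 0 < d) (μ : Measure (E d)) (hμ : IsFiniteMeasure μ) (x : E d) (α : ℝ) (m : ℕ → ℕ) (hm : StrictMono m) (hr : Tendsto (fun i => (m (i + 1) : ℝ) / m i) atTop (𝓝 1))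
    (z : ℕ → V d) (hz : ∀ i, x ∈ cb (m i) (z i)) (lo up : ℕ → ℝ) (hlo : ∀ᶠ i in atTop, Real.exp (-(lo i * m i)) ≤ μ.real (cb (m i) (z i)))
    (hup : ∀ᶠ i in atTop, μ.real (nb (m i) (z i)) ≤ Real.exp (-(up i * m i))) (hl : Tendsto lo atTop (𝓝 (α * Real.log 2))) (hu : Tendsto up atTop (𝓝 (α * Real.log 2))) :
    LocDim μ x α := by
  have hL : 0 < Real.log 2 := Real.log_pos (by norm_num)
  have hdR : (0 : ℝ) < Real.sqrt d := Real.sqrt_pos.2 (by exact_mod_cast hd)
  set c : ℝ := Real.log (Real.sqrt d) with hc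
  have hmt : Tendsto (fun i => (m i : ℝ)) atTop atTop := tendsto_natCast_atTop_atTop.comp hm.tendsto_atTop
  -- logarithmic scale
  let t : ℕ → ℝ := fun i => (m i : ℝ) * Real.log 2
  have ht : Tendsto t atTop atTop := hmt.atTop_mul_const hL
  have htr : Tendsto (fun i => t (i + 1) / t i) atTop (𝓝 1) := by
    refine hr.congr fun i => ?_
    show (m (i + 1) : ℝ) / m i = (m (i + 1) : ℝ) * Real.log 2 / ((m i : ℝ) * Real.log 2)
    rw [mul_div_mul_right _ _ hL.ne']
  obtain ⟨I, hI, hIb, hI1, hI2⟩ := locd_idx t ht htr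
  have hpow : ∀ n : ℕ, (1 : ℝ) / 2 ^ n = Real.exp (-((n : ℝ) * Real.log 2)) := by
    intro n
    rw [Real.exp_neg, Real.exp_nat_mul, Real.exp_log (by norm_num), one_div]
  -- small cubes are in the ball
  have hsub : ∀ i : ℕ, ∀ s : ℝ, s + c < t i → cb (m i) (z i) ⊆ ball x (Real.exp (-s)) := by
    intro i s hs y hy
    rw [mem_ball, dist_eq_norm]
    refine lt_of_le_of_lt (cb_diam (m i) (z i) y x hy (hz i)) ?_
    have h1 : Real.sqrt d / 2 ^ m i = Real.exp (c - t i) := by
      rw [Real.exp_sub, hc, Real.exp_log hdR, div_eq_mul_one_div, hpow, Real.exp_neg]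
      show _ = _ / Real.exp ((m i : ℝ) * Real.log 2)
      rw [div_eq_mul_inv]
    rw [h1, Real.exp_lt_exp]
    linarith
  have hsub2 : ∀ i : ℕ, ∀ s : ℝ, t i ≤ s → ball x (Real.exp (-s)) ⊆ nb (m i) (z i) := by
    intro i s hs
    refine (ball_subset_ball ?_).trans (ball_sub_nb (m i) (z i) x (hz i))
    rw [hpow, Real.exp_le_exp]
    show -s ≤ -(t i)
    linarith
  have hreal : ∀ s : ℝ, (∃ i, s + c < t i ∧ Real.exp (-(lo i * m i)) ≤ μ.real (cb (m i) (z i))) →
      0 < μ.real (ball x (Real.exp (-s))) := by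
    rintro s ⟨i, h1, h2⟩
    exact lt_of_lt_of_le (Real.exp_pos _) (h2.trans (measureReal_mono (hsub i s h1)))
  have hposall : ∀ s : ℝ, 0 < μ.real (ball x (Real.exp (-s))) := by
    intro s
    refine hreal s ?_
    have h1 : ∀ᶠ i in atTop, s + c < t i := ht.eventually (eventually_gt_atTop _)
    exact (h1.and hlo).exists
  constructor
  · intro r hr0
    have h1 := hposall (-Real.log r)
    rw [neg_neg, Real.exp_log hr0] at h1
    rw [Measure.real, ENNReal.toReal_pos_iff] at h1
    exact h1.1
  · -- the limit in the variable `s = - log r`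
    have key : Tendsto (fun s : ℝ => -Real.log (μ.real (ball x (Real.exp (-s)))) / s) atTop (𝓝 α) := by
      have hJ : Tendsto (fun s : ℝ => I (s + c) + 1) atTop atTop :=
        (tendsto_add_atTop_nat 1).comp (hI.comp (tendsto_atTop_add_const_right atTop c tendsto_id))
      have hsc : Tendsto (fun s : ℝ => (s + c) / s) atTop (𝓝 1) := by
        have h1 : Tendsto (fun s : ℝ => 1 + c * s⁻¹) atTop (𝓝 (1 + c * 0)) :=
          tendsto_const_nhds.add (tendsto_inv_atTop_zero.const_mul c)
        rw [mul_zero, add_zero] at h1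
        refine h1.congr' ?_
        filter_upwards [eventually_gt_atTop (0 : ℝ)] with s hs
        field_simp
      have hlow : Tendsto (fun s : ℝ => up (I s) * (t (I s) / s / Real.log 2)) atTop (𝓝 (α * Real.log 2 * (1 / Real.log 2))) :=
        (hu.comp hI).mul (hI1.div_const _)
      have hupp : Tendsto (fun s : ℝ => lo (I (s + c) + 1) * ((t (I (s + c) + 1) / (s + c)) * ((s + c) / s) / Real.log 2)) atTop
          (𝓝 (α * Real.log 2 * (1 * 1 / Real.log 2))) :=
        (hl.comp hJ).mul (((hI2.comp (tendsto_atTop_add_const_right atTop c tendsto_id)).mul hsc).div_const _)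
      have e1 : α * Real.log 2 * (1 / Real.log 2) = α := by field_simp
      have e2 : α * Real.log 2 * (1 * 1 / Real.log 2) = α := by field_simp
      rw [e1] at hlow
      rw [e2] at hupp
      refine tendsto_of_tendsto_of_tendsto_of_le_of_le' hlow hupp ?_ ?_
      · filter_upwards [hIb, hI.eventually hup, eventually_gt_atTop (0 : ℝ)] with s hs hs2 hs3
        have h1 : μ.real (ball x (Real.exp (-s))) ≤ Real.exp (-(up (I s) * m (I s))) :=
          (measureReal_mono (hsub2 (I s) s hs.1)).trans hs2
        have h2 : Real.log (μ.real (ball x (Real.exp (-s)))) ≤ -(up (I s) * m (I s)) := by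
          rw [← Real.log_exp (-(up (I s) * m (I s)))]
          exact Real.log_le_log (hposall s) h1
        have h3 : up (I s) * (t (I s) / s / Real.log 2) = up (I s) * m (I s) / s := by
          show up (I s) * ((m (I s) : ℝ) * Real.log 2 / s / Real.log 2) = up (I s) * m (I s) / s
          field_simp
        rw [h3]
        exact div_le_div_of_nonneg_right (by linarith) hs3.le
      · have hshift : Tendsto (fun s : ℝ => s + c) atTop atTop := tendsto_atTop_add_const_right atTop c tendsto_id
        filter_upwards [hshift.eventually hIb, hJ.eventually hlo, eventually_gt_atTop (0 : ℝ), hshift.eventually (eventually_gt_atTop (0 : ℝ))] with s hs hs2 hs3 hs4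
        have h1 : Real.exp (-(lo (I (s + c) + 1) * m (I (s + c) + 1))) ≤ μ.real (ball x (Real.exp (-s))) :=
          hs2.trans (measureReal_mono (hsub _ s hs.2))
        have h2 : -(lo (I (s + c) + 1) * m (I (s + c) + 1)) ≤ Real.log (μ.real (ball x (Real.exp (-s)))) := by
          rw [← Real.log_exp (-(lo (I (s + c) + 1) * m (I (s + c) + 1)))]
          exact Real.log_le_log (Real.exp_pos _) h1
        have h3 : lo (I (s + c) + 1) * ((t (I (s + c) + 1) / (s + c)) * ((s + c) / s) / Real.log 2) =
            lo (I (s + c) + 1) * m (I (s + c) + 1) / s := by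
          show lo (I (s + c) + 1) * (((m (I (s + c) + 1) : ℝ) * Real.log 2 / (s + c)) * ((s + c) / s) / Real.log 2) =
            lo (I (s + c) + 1) * m (I (s + c) + 1) / s
          field_simp
        rw [h3]
        exact div_le_div_of_nonneg_right (by linarith) hs3.le
    have hlog : Tendsto (fun r : ℝ => -Real.log r) (𝓝[>] 0) atTop :=
      tendsto_neg_atBot_atTop.comp Real.tendsto_log_nhdsGT_zero
    refine (key.comp hlog).congr' ?_
    filter_upwards [self_mem_nhdsWithin] with r hr0
    have hr0' : (0 : ℝ) < r := hr0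
    show -Real.log (μ.real (ball x (Real.exp (-(-Real.log r))))) / (-Real.log r) = Real.log (μ.real (ball x r)) / Real.log r
    rw [neg_neg, Real.exp_log hr0', neg_div_neg_eq]

end Pool.Agent.MChaos
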