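import Pool.Agent.Lib_MP_a91488.LBM
import Pool.Agent.Lib_MP_a91488.LOCD
import Pool.Agent.Lib_MP_a91488.CES
import Pool.Agent.Lib_MP_a91488.CUTS

/-!
# Piece LBT: points of the limit set of the tree of good vertices belong to the level set (deterministic)
-/

set_option autoImplicit false

open MeasureTheory ProbabilityTheory Filter
open scoped Topology

namespace Pool.Agent.MChaos

variable {d : ℕ} {Ω : Type} [MeasurableSpace Ω] {P : Measure Ω} [IsProbabilityMeasure P] {X : ℕ → Ω → E d → ℝ}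

private theorem lbt_SS_add {d : ℕ} {Ω : Type} (X : ℕ → Ω → E d → ℝ) (n n' : ℕ) (h : n ≤ n') (ω : Ω) (x : E d) :
    SS X 0 n' ω x = SS X 0 n ω x + SS X n n' ω x := by
  unfold SS
  exact (Finset.sum_Ico_consecutive _ (Nat.zero_le n) h).symm

private theorem lbt_pow (k : ℕ) : (2 : ℝ) ^ k = Real.exp (k * Real.log 2) := by
  rw [mul_comm, Real.exp_mul, Real.exp_log (by norm_num : (0 : ℝ) < 2), Real.rpow_natCast]

private theorem lbt_rpow (t : ℝ) : (2 : ℝ) ^ t = Real.exp (t * Real.log 2) := by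
  rw [mul_comm, Real.exp_mul, Real.exp_log (by norm_num : (0 : ℝ) < 2)]

/-- `a i = SS X 0 (nn i) ω x`, `i ≥ i₀`: `|a (i+1) - a i - T i k i log 2| ≤ e i k i + 2`: the increment is `SS (nn i) (nn (i+1)) ω x`; at the corner of the cube `cb (m (i+1)) c ∋ x` it is `T i k i log 2` up to `e i k i` (`Typ`), and on this cube `SS 0 (nn (i+1))` and `SS 0 (nn i)` oscillate by at most `1`
(`ω ∉ Osc`; the cube is contained in `cb (m i) z`); `ces` for the sequences shifted by `i₀` -/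
theorem lbt_field (β : ℝ) (s : Sq) (hs : SqOK P X β s) (ω : Ω) (i₀ : ℕ) (hosc : ∀ i, i₀ ≤ i → ω ∉ Osc X 0 (nn P X s i) (s.m i) 1) (T : ℕ → ℝ) (τ : ℝ) (hT : Tendsto T atTop (𝓝 τ)) (x : E d)
    (hx : ∀ i, i₀ ≤ i → ∃ z ∈ Idx d (s.m i), ∃ c ∈ Chd (s.k i) z, x ∈ cb (s.m (i + 1)) c ∧ ω ∈ Typ X (nn P X s i) (nn P X s (i + 1)) (s.k i) (s.m (i + 1)) (T i) (s.e i) c) :
    Tendsto (fun i => SS X 0 (nn P X s i) ω x / s.m i) atTop (𝓝 (τ * Real.log 2)) := by
  have hstep : ∀ i, i₀ ≤ i → |SS X 0 (nn P X s (i + 1)) ω x - SS X 0 (nn P X s i) ω x - T i * (s.k i * Real.log 2)| ≤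
      s.e i * s.k i + 2 := by
    intro i hi
    obtain ⟨z, hz, c, hc, hxc, ht⟩ := hx i hi
    have ho1 := hosc (i + 1) (by omega)
    have ho0 := hosc i hi
    have hcI : c ∈ Idx d (s.m (i + 1)) := by
      rw [hs.hm i]
      exact Chd_Idx _ _ z c hz hc
    have hcor : cor (s.m (i + 1)) c ∈ cb (s.m (i + 1)) c := cor_mem _ _
    have hsub : cb (s.m (i + 1)) c ⊆ cb (s.m i) z := by
      rw [hs.hm i]
      exact Chd_sub _ _ z c hc
    have h1 : |SS X 0 (nn P X s (i + 1)) ω x - SS X 0 (nn P X s (i + 1)) ω (cor (s.m (i + 1)) c)| ≤ 1 := by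
      by_contra h
      exact ho1 ⟨c, hcI, x, hxc, _, hcor, not_le.mp h⟩
    have h0 : |SS X 0 (nn P X s i) ω x - SS X 0 (nn P X s i) ω (cor (s.m (i + 1)) c)| ≤ 1 := by
      by_contra h
      exact ho0 ⟨z, hz, x, hsub hxc, _, hsub hcor, not_le.mp h⟩
    have h2 : |SS X (nn P X s i) (nn P X s (i + 1)) ω (cor (s.m (i + 1)) c) - T i * (s.k i * Real.log 2)| ≤
        s.e i * s.k i := ht
    have h3 := lbt_SS_add X (nn P X s i) (nn P X s (i + 1)) (hs.hn i) ω (cor (s.m (i + 1)) c)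
    rw [abs_le] at h1 h0 h2 ⊢
    constructor <;> linarith [h1.1, h1.2, h0.1, h0.2, h2.1, h2.2]
  have hsh : Tendsto (fun i : ℕ => i + i₀) atTop atTop := tendsto_add_atTop_nat i₀
  have hi : Tendsto (fun i : ℕ => (i : ℝ) / (s.m (i + i₀) : ℝ)) atTop (𝓝 0) := by
    have h := hs.hi0.comp hsh
    refine squeeze_zero (fun i => by positivity) (fun i => ?_) h
    show (i : ℝ) / (s.m (i + i₀) : ℝ) ≤ ((i + i₀ : ℕ) : ℝ) / (s.m (i + i₀) : ℝ)
    refine div_le_div_of_nonneg_right ?_ (Nat.cast_nonneg _)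
    exact_mod_cast Nat.le_add_right i i₀
  have h := ces (fun i => s.m (i + i₀)) (fun i => s.k (i + i₀)) (fun i => by
      show s.m (i + 1 + i₀) = s.m (i + i₀) + s.k (i + i₀)
      rw [Nat.add_right_comm]
      exact hs.hm _) (fun i => hs.hk _) hi
    (fun i => SS X 0 (nn P X s (i + i₀)) ω x) (fun i => T (i + i₀)) (fun i => s.e (i + i₀)) τ (hT.comp hsh)
    (hs.he0.comp hsh) (fun i => by
      show |SS X 0 (nn P X s (i + 1 + i₀)) ω x - SS X 0 (nn P X s (i + i₀)) ω x -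
        T (i + i₀) * ((s.k (i + i₀) : ℝ) * Real.log 2)| ≤ s.e (i + i₀) * (s.k (i + i₀) : ℝ) + 2
      rw [Nat.add_right_comm]
      exact hstep (i + i₀) (Nat.le_add_left _ _))
  exact (tendsto_add_atTop_iff_nat (f := fun i => SS X 0 (nn P X s i) ω x / (s.m i : ℝ)) i₀).1 h

/-- `lbm` with `b₁ = 2^(-(e i * m i))`, `b₂ = 2^(e i * m i)` (`LcE`), `sig2 (nn i) / m i → log 2` (`cut_prop`, `hl0`, `hnm`), `lbt_field`: `- log μ / m i → (d + β^2/2 - β τ) log 2`; `locd` (sequences shifted by `i₀`, `m (i+1)/m i = 1 + k i/m i → 1`) -/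
theorem lbt (hX : CP d P X) (β : ℝ) (s : Sq) (hs : SqOK P X β s) (ω : Ω) (μ : Measure (E d)) (hμ : WL P X β ω μ) (i₀ : ℕ) (hosc : ∀ i, i₀ ≤ i → ω ∉ Osc X 0 (nn P X s i) (s.m i) 1) (T : ℕ → ℝ) (τ : ℝ)
    (hT : Tendsto T atTop (𝓝 τ)) (x : E d) (hxc : x ∈ cube d)
    (hx : ∀ i, i₀ ≤ i → ∃ z ∈ Idx d (s.m i), ∃ c ∈ Chd (s.k i) z, x ∈ cb (s.m (i + 1)) c ∧ ω ∈ Typ X (nn P X s i) (nn P X s (i + 1)) (s.k i) (s.m (i + 1)) (T i) (s.e i) c)
    (hg : ∀ i, i₀ ≤ i → ∃ z ∈ Idx d (s.m i), x ∈ cb (s.m i) z ∧ ω ∈ LcE P X β (s.G i) (s.e i) (s.m i) (s.k i) (nn P X s i) (nn P X s (i + 1)) z) :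
    x ∈ Lev μ (d + β ^ 2 / 2 - β * τ) := by
  refine ⟨hxc, ?_⟩
  have hlim := lbt_field β s hs ω i₀ hosc T τ hT x hx
  have hmono : StrictMono s.m := strictMono_nat_of_lt_succ (fun i => by
    rw [hs.hm i]
    exact Nat.lt_add_of_pos_right (hs.hk i))
  have hmT : Tendsto (fun i => (s.m i : ℝ)) atTop atTop := tendsto_natCast_atTop_atTop.comp hmono.tendsto_atTop
  have hmpos : ∀ᶠ i in atTop, (0 : ℝ) < s.m i := hmT.eventually_gt_atTop 0
  have hinv : Tendsto (fun i => (s.m i : ℝ)⁻¹) atTop (𝓝 0) := tendsto_inv_atTop_zero.comp hmT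
  have hconst : ∀ a : ℝ, Tendsto (fun i => a / (s.m i : ℝ)) atTop (𝓝 0) := fun a => by
    have h := hinv.const_mul a
    rw [mul_zero] at h
    exact h.congr (fun i => (div_eq_mul_inv _ _).symm)
  have hsig : Tendsto (fun i => sig2 P X (nn P X s i) / s.m i) atTop (𝓝 (Real.log 2)) := by
    obtain ⟨t₀, h0⟩ := cut_prop hX
    have hbase : ∀ a : ℝ, Tendsto (fun i => (1 - (s.l i : ℝ) / s.m i) * Real.log 2 - a / s.m i) atTop (𝓝 (Real.log 2)) := fun a => by
      have h := ((tendsto_const_nhds (x := (1 : ℝ))).sub hs.hl0).mul_const (Real.log 2) |>.sub (hconst a)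
      simpa using h
    refine tendsto_of_tendsto_of_tendsto_of_le_of_le' (hbase (Real.log d / 2 + 1)) (hbase (Real.log d / 2)) ?_ ?_
    · filter_upwards [hmpos, hs.hnm.eventually_ge_atTop t₀] with i hi ht
      have h1 := (h0 _ ht).1
      rw [Nat.cast_sub (hs.hl i)] at h1
      rw [le_div_iff₀ hi, sub_mul, div_mul_cancel₀ _ hi.ne']
      have h2 : (1 - (s.l i : ℝ) / s.m i) * Real.log 2 * s.m i = ((s.m i : ℝ) - s.l i) * Real.log 2 := by
        field_simp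
      rw [h2]
      show _ ≤ sig2 P X (cut P X (s.m i - s.l i))
      linarith
    · filter_upwards [hmpos, hs.hnm.eventually_ge_atTop t₀] with i hi ht
      have h1 := (h0 _ ht).2
      rw [Nat.cast_sub (hs.hl i)] at h1
      rw [div_le_iff₀ hi, sub_mul, div_mul_cancel₀ _ hi.ne']
      have h2 : (1 - (s.l i : ℝ) / s.m i) * Real.log 2 * s.m i = ((s.m i : ℝ) - s.l i) * Real.log 2 := by
        field_simp
      rw [h2]
      show sig2 P X (cut P X (s.m i - s.l i)) ≤ _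
      linarith
  obtain ⟨C, hC, hlbm⟩ := lbm (P := P) (X := X) hX β
  -- the exponents
  have hlo : Tendsto (fun i => -((β * SS X 0 (nn P X s i) ω x - β ^ 2 / 2 * sig2 P X (nn P X s i) - C) / s.m i) +
      s.e i * Real.log 2 + d * Real.log 2) atTop (𝓝 ((d + β ^ 2 / 2 - β * τ) * Real.log 2)) := by
    have h := ((((hlim.const_mul β).sub (hsig.const_mul (β ^ 2 / 2))).sub (hconst C)).neg.add
      (hs.he0.mul_const (Real.log 2))).add (tendsto_const_nhds (x := (d : ℝ) * Real.log 2))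
    have he : -(β * (τ * Real.log 2) - β ^ 2 / 2 * Real.log 2 - 0) + 0 * Real.log 2 + (d : ℝ) * Real.log 2 =
        (d + β ^ 2 / 2 - β * τ) * Real.log 2 := by ring
    rw [he] at h
    refine h.congr (fun i => ?_)
    ring
  have hup : Tendsto (fun i => -((β * SS X 0 (nn P X s i) ω x - β ^ 2 / 2 * sig2 P X (nn P X s i) + C) / s.m i) -
      s.e i * Real.log 2 + d * Real.log 2) atTop (𝓝 ((d + β ^ 2 / 2 - β * τ) * Real.log 2)) := by
    have h := ((((hlim.const_mul β).sub (hsig.const_mul (β ^ 2 / 2))).add (hconst C)).neg.sub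
      (hs.he0.mul_const (Real.log 2))).add (tendsto_const_nhds (x := (d : ℝ) * Real.log 2))
    have he : -(β * (τ * Real.log 2) - β ^ 2 / 2 * Real.log 2 + 0) - 0 * Real.log 2 + (d : ℝ) * Real.log 2 =
        (d + β ^ 2 / 2 - β * τ) * Real.log 2 := by ring
    rw [he] at h
    refine h.congr (fun i => ?_)
    ring
  have hsh : Tendsto (fun i : ℕ => i + i₀) atTop atTop := tendsto_add_atTop_nat i₀
  have hg' : ∀ i, ∃ z ∈ Idx d (s.m (i + i₀)), x ∈ cb (s.m (i + i₀)) z ∧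
      ω ∈ LcE P X β (s.G (i + i₀)) (s.e (i + i₀)) (s.m (i + i₀)) (s.k (i + i₀)) (nn P X s (i + i₀)) (nn P X s (i + i₀ + 1)) z :=
    fun i => hg (i + i₀) (Nat.le_add_left _ _)
  choose z hzI hzx hzL using hg'
  have hmono' : StrictMono (fun i => s.m (i + i₀)) := fun a b hab => hmono (Nat.add_lt_add_right hab i₀)
  have hmpos' : ∀ᶠ i : ℕ in atTop, (0 : ℝ) < s.m (i + i₀) := hsh.eventually hmpos
  have hr : Tendsto (fun i => ((s.m (i + 1 + i₀) : ℕ) : ℝ) / (s.m (i + i₀) : ℝ)) atTop (𝓝 1) := by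
    have h := (tendsto_const_nhds (x := (1 : ℝ))).add (hs.hk0.comp hsh)
    rw [add_zero] at h
    refine h.congr' ?_
    filter_upwards [hmpos'] with i hi
    show 1 + (s.k (i + i₀) : ℝ) / s.m (i + i₀) = _
    rw [Nat.add_right_comm, hs.hm (i + i₀)]
    push_cast
    field_simp
  refine locd hX.dpos μ hμ.fin x (d + β ^ 2 / 2 - β * τ) (fun i => s.m (i + i₀)) hmono' hr z hzx _ _ ?_ ?_
    (hlo.comp hsh) (hup.comp hsh)
  · filter_upwards [hmpos'] with i hi
    have h := (hlbm ω μ hμ (s.m (i + i₀)) (nn P X s (i + i₀)) (z i) (hzI i) x (hzx i) _ _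
      (Real.rpow_pos_of_pos two_pos _) (Real.rpow_pos_of_pos two_pos _) (hosc _ (Nat.le_add_left _ _))
      (hzL i).2.1 (hzL i).2.2).1
    refine le_trans (le_of_eq ?_) h
    simp only [Function.comp_apply]
    rw [lbt_pow, lbt_rpow, ← Real.exp_add, ← Real.exp_sub]
    congr 1
    push_cast
    field_simp
    ring
  · filter_upwards [hmpos'] with i hi
    have h := (hlbm ω μ hμ (s.m (i + i₀)) (nn P X s (i + i₀)) (z i) (hzI i) x (hzx i) _ _
      (Real.rpow_pos_of_pos two_pos _) (Real.rpow_pos_of_pos two_pos _) (hosc _ (Nat.le_add_left _ _))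
      (hzL i).2.1 (hzL i).2.2).2
    refine le_trans h (le_of_eq ?_)
    simp only [Function.comp_apply]
    rw [lbt_pow, lbt_rpow, ← Real.exp_add, ← Real.exp_sub]
    congr 1
    push_cast
    field_simp
    ring

end Pool.Agent.MChaos
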