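import Pool.Agent.Lib_MP_a91488.IND
import Pool.Agent.Lib_MP_a91488.GEO

/-!
# Piece MRT: martingales
-/

set_option autoImplicit false

open MeasureTheory ProbabilityTheory Filter
open scoped Topology

namespace Pool.Agent.MChaos

variable {d : ℕ} {Ω : Type} [mΩ : MeasurableSpace Ω]

/-- integral of `f` against the chaos built from the fields `n ≤ k < N` -/
noncomputable def MF (P : Measure Ω) (X : ℕ → Ω → E d → ℝ) (γ : ℝ) (f : E d → ℝ) (n N : ℕ) (ω : Ω) : ℝ :=
  ∫ x in cube d, f x * ∏ k ∈ Finset.Ico n N, wt P X γ k ω x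

variable {P : Measure Ω} [IsProbabilityMeasure P] {X : ℕ → Ω → E d → ℝ}

/-- the filtration `Fbl X 0 N` -/
noncomputable def filt (hX : CP d P X) : Filtration ℕ mΩ where
  seq N := Fbl X 0 N
  mono' _ _ h := Fbl_mono 0 0 _ _ le_rfl h
  le' N := Fbl_le hX 0 N

private theorem mrt_unc (hX : CP d P X) (γ : ℝ) (n N : ℕ) :
    Measurable (fun p : Ω × E d => ∏ k ∈ Finset.Ico n N, wt P X γ k p.1 p.2) :=
  Finset.measurable_fun_prod _ fun k _ => wt_unc hX γ k

private theorem mrt_pos (hX : CP d P X) (γ : ℝ) (n N : ℕ) (ω : Ω) (x : E d) :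
    0 < ∏ k ∈ Finset.Ico n N, wt P X γ k ω x :=
  Finset.prod_pos fun k _ => wt_pos hX γ k ω x

private theorem mrt_ix (hX : CP d P X) (γ : ℝ) (n N : ℕ) (x : E d) :
    Integrable (fun ω => ∏ k ∈ Finset.Ico n N, wt P X γ k ω x) P := by
  by_contra h
  have h1 := prod_wt_mean hX γ n N x
  rw [integral_undef h] at h1
  exact zero_ne_one h1

private theorem mrt_fin : IsFiniteMeasure ((volume : Measure (E d)).restrict (cube d)) :=
  ⟨by rw [Measure.restrict_apply_univ, cube_vol]; exact ENNReal.one_lt_top⟩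

/-- joint integrability of the product -/
private theorem mrt_joint (hX : CP d P X) (γ : ℝ) (n N : ℕ) :
    Integrable (fun p : Ω × E d => ∏ k ∈ Finset.Ico n N, wt P X γ k p.1 p.2)
      (P.prod (volume.restrict (cube d))) := by
  have := mrt_fin (d := d)
  rw [integrable_prod_iff' (mrt_unc hX γ n N).aestronglyMeasurable]
  refine ⟨Filter.Eventually.of_forall fun x => mrt_ix hX γ n N x, ?_⟩
  have h2 : (fun y : E d => ∫ ω, ‖∏ k ∈ Finset.Ico n N, wt P X γ k ω y‖ ∂P) = fun _ => (1 : ℝ) := by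
    funext x
    rw [← prod_wt_mean hX γ n N x]
    refine integral_congr_ae (Filter.Eventually.of_forall fun ω => ?_)
    exact Real.norm_of_nonneg (mrt_pos hX γ n N ω x).le
  show Integrable (fun y : E d => ∫ ω, ‖∏ k ∈ Finset.Ico n N, wt P X γ k ω y‖ ∂P) _
  rw [h2]
  exact integrable_const _

private theorem mrt_jointf (hX : CP d P X) (γ B : ℝ) (f : E d → ℝ) (hf : Measurable f) (hB : ∀ x, |f x| ≤ B) (n N : ℕ) :
    Integrable (fun p : Ω × E d => f p.2 * ∏ k ∈ Finset.Ico n N, wt P X γ k p.1 p.2)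
      (P.prod (volume.restrict (cube d))) := by
  have hm : Measurable (fun p : Ω × E d => f p.2) := hf.comp measurable_snd
  refine Integrable.mono' ((mrt_joint hX γ n N).const_mul B)
    (hm.mul (mrt_unc hX γ n N)).aestronglyMeasurable (Filter.Eventually.of_forall fun p => ?_)
  show ‖f p.2 * ∏ k ∈ Finset.Ico n N, wt P X γ k p.1 p.2‖ ≤ B * ∏ k ∈ Finset.Ico n N, wt P X γ k p.1 p.2
  rw [norm_mul, Real.norm_of_nonneg (mrt_pos hX γ n N p.1 p.2).le, Real.norm_eq_abs]
  exact mul_le_mul_of_nonneg_right (hB _) (mrt_pos hX γ n N p.1 p.2).le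

private theorem mrt_tt (hX : CP d P X) (γ : ℝ) (n N : ℕ) :
    Integrable (TT P X γ n N (cube d)) P ∧ ∫ ω, TT P X γ n N (cube d) ω ∂P = 1 := by
  have hv : volume (cube d) ≠ ⊤ := by rw [cube_vol]; exact ENNReal.one_ne_top
  have h := tt_mean hX γ n N (cube d) cube_meas hv
  rw [cube_vol] at h
  simpa using h

private theorem mrt_le (hX : CP d P X) (γ B : ℝ) (f : E d → ℝ) (hB : ∀ x, |f x| ≤ B) (n N : ℕ) (ω : Ω) :
    |MF P X γ f n N ω| ≤ B * TT P X γ n N (cube d) ω := by
  have hv : volume (cube d) ≠ ⊤ := by rw [cube_vol]; exact ENNReal.one_ne_top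
  unfold MF TT
  rw [← integral_const_mul, ← Real.norm_eq_abs]
  refine norm_integral_le_of_norm_le ((tt_integrable hX γ n N ω (cube d) hv).const_mul B)
    (Filter.Eventually.of_forall fun x => ?_)
  rw [norm_mul, Real.norm_of_nonneg (mrt_pos hX γ n N ω x).le, Real.norm_eq_abs]
  exact mul_le_mul_of_nonneg_right (hB x) (mrt_pos hX γ n N ω x).le

/-- `|MF| ≤ B ∫ ∏ wt`, expectation at most `B` -/
theorem mf_int (hX : CP d P X) (γ B : ℝ) (f : E d → ℝ) (hf : Measurable f) (hB : ∀ x, |f x| ≤ B) (n N : ℕ) :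
    Integrable (MF P X γ f n N) P ∧ ∫ ω, |MF P X γ f n N ω| ∂P ≤ B := by
  have := mrt_fin (d := d)
  have hI : Integrable (MF P X γ f n N) P := (mrt_jointf hX γ B f hf hB n N).integral_prod_left
  refine ⟨hI, ?_⟩
  obtain ⟨h1, h2⟩ := mrt_tt hX γ n N
  calc ∫ ω, |MF P X γ f n N ω| ∂P ≤ ∫ ω, B * TT P X γ n N (cube d) ω ∂P :=
        integral_mono hI.abs (h1.const_mul B) (fun ω => mrt_le hX γ B f hB n N ω)
    _ = B := by rw [integral_const_mul, h2, mul_one]

/-- Fubini on a set `G` -/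
private theorem mrt_fub (hX : CP d P X) (γ B : ℝ) (f : E d → ℝ) (hf : Measurable f) (hB : ∀ x, |f x| ≤ B) (n N : ℕ) (G : Set Ω) :
    ∫ ω in G, MF P X γ f n N ω ∂P =
      ∫ x in cube d, f x * ∫ ω in G, ∏ k ∈ Finset.Ico n N, wt P X γ k ω x ∂P := by
  have := mrt_fin (d := d)
  have hJ : Integrable (fun p : Ω × E d => f p.2 * ∏ k ∈ Finset.Ico n N, wt P X γ k p.1 p.2)
      ((P.restrict G).prod (volume.restrict (cube d))) := by
    refine (mrt_jointf hX γ B f hf hB n N).mono_measure ?_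
    exact Measure.prod_mono Measure.restrict_le_self le_rfl
  have h := integral_integral_swap (f := fun (ω : Ω) (x : E d) => f x * ∏ k ∈ Finset.Ico n N, wt P X γ k ω x) hJ
  unfold MF
  rw [h]
  refine integral_congr_ae (Filter.Eventually.of_forall fun x => ?_)
  exact integral_const_mul _ _

private theorem mrt_step (hX : CP d P X) (γ : ℝ) (n N : ℕ) (hn : n ≤ N) (G : Set Ω) (hG : MeasurableSet[Fbl X 0 N] G) (x : E d) :
    ∫ ω in G, ∏ k ∈ Finset.Ico n (N + 1), wt P X γ k ω x ∂P = ∫ ω in G, ∏ k ∈ Finset.Ico n N, wt P X γ k ω x ∂P := by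
  have hG' : MeasurableSet G := Fbl_le hX 0 N G hG
  rw [← integral_indicator hG', ← integral_indicator hG']
  have hmA : Measurable[Fbl X 0 N] (fun ω => G.indicator (fun ω => ∏ k ∈ Finset.Ico n N, wt P X γ k ω x) ω) := by
    refine Measurable.indicator ?_ hG
    refine Finset.measurable_fun_prod _ fun k hk => ?_
    refine wt_Fbl γ 0 N k ?_ x
    rw [Finset.mem_Ico] at hk ⊢
    exact ⟨Nat.zero_le _, hk.2⟩
  have hmB : Measurable[Fbl X N (N + 1)] (fun ω => wt P X γ N ω x) :=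
    wt_Fbl γ N (N + 1) N (by simp) x
  have hind : IndepFun (fun ω => G.indicator (fun ω => ∏ k ∈ Finset.Ico n N, wt P X γ k ω x) ω) (fun ω => wt P X γ N ω x) P :=
    (indep_of_indep_of_le_left (indep_of_indep_of_le_right (indep_bl_one hX N) hmB.comap_le) hmA.comap_le)
  have hmul := hind.integral_fun_mul_eq_mul_integral
    ((hmA.mono (Fbl_le hX 0 N) le_rfl).aestronglyMeasurable)
    ((hmB.mono (Fbl_le hX N (N + 1)) le_rfl).aestronglyMeasurable)
  rw [(wt_mean hX γ N x).2, mul_one] at hmul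
  rw [← hmul]
  refine integral_congr_ae (Filter.Eventually.of_forall fun ω => ?_)
  show G.indicator (fun ω => ∏ k ∈ Finset.Ico n (N + 1), wt P X γ k ω x) ω
    = G.indicator (fun ω => ∏ k ∈ Finset.Ico n N, wt P X γ k ω x) ω * wt P X γ N ω x
  by_cases hω : ω ∈ G
  · rw [Set.indicator_of_mem hω, Set.indicator_of_mem hω, Finset.prod_Ico_succ_top hn]
  · rw [Set.indicator_of_notMem hω, Set.indicator_of_notMem hω, zero_mul]

/-- For `n ≤ N` and `G ∈ Fbl X 0 N`: `∫_G MF (N+1) = ∫_cube f(x) E[1_G ∏_{k<N} wt(x) wt_N(x)] dx = ∫_cube f(x) E[1_G ∏_{k<N} wt(x)] dx` by Fubini, independence (`indep_bl_one`) and `E wt_N(x) = 1`; for `N < n` both sides are the constant `∫ f`.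
`martingale_nat` or `martingale_of_setIntegral_eq_succ` -/
theorem mf_mart (hX : CP d P X) (γ B : ℝ) (f : E d → ℝ) (hf : Measurable f) (hB : ∀ x, |f x| ≤ B) (n : ℕ) : Martingale (MF P X γ f n) (filt hX) P := by
  refine martingale_of_setIntegral_eq_succ ?_ (fun N => (mf_int hX γ B f hf hB n N).1) ?_
  · intro N
    have h : Measurable[Fbl X n N] (MF P X γ f n N) := int_Fbl hX γ n N (cube d) f hf
    have h' : Measurable[Fbl X 0 N] (MF P X γ f n N) := h.mono (Fbl_mono n 0 N N (Nat.zero_le _) le_rfl) le_rfl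
    exact h'.stronglyMeasurable
  · intro N G hG
    have hG0 : MeasurableSet[Fbl X 0 N] G := hG
    rw [mrt_fub hX γ B f hf hB n N G, mrt_fub hX γ B f hf hB n (N + 1) G]
    refine integral_congr_ae (Filter.Eventually.of_forall fun x => ?_)
    show f x * ∫ ω in G, ∏ k ∈ Finset.Ico n N, wt P X γ k ω x ∂P =
      f x * ∫ ω in G, ∏ k ∈ Finset.Ico n (N + 1), wt P X γ k ω x ∂P
    rcases Nat.lt_or_ge N n with h | h
    · rw [Finset.Ico_eq_empty (by omega), Finset.Ico_eq_empty (by omega)]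
    · rw [mrt_step hX γ n N h G hG0 x]

/-- `Submartingale.exists_tendsto_of_abs_bddAbove` / `Submartingale.ae_tendsto_limitProcess` -/
theorem mf_conv (hX : CP d P X) (γ B : ℝ) (f : E d → ℝ) (hf : Measurable f) (hB : ∀ x, |f x| ≤ B) (n : ℕ) :
    ∀ᵐ ω ∂P, ∃ L : ℝ, Tendsto (fun N => MF P X γ f n N ω) atTop (𝓝 L) := by
  have h := (mf_mart hX γ B f hf hB n).submartingale.ae_tendsto_limitProcess (R := B.toNNReal) (fun N => by
    obtain ⟨h1, h2⟩ := mf_int hX γ B f hf hB n N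
    rw [eLpNorm_one_eq_lintegral_enorm, ← ofReal_integral_norm_eq_lintegral_enorm h1]
    exact ENNReal.ofReal_le_ofReal h2)
  filter_upwards [h] with ω hω
  exact ⟨_, hω⟩

/-- `f` = indicator of `A` -/
theorem tt_conv (hX : CP d P X) (γ : ℝ) (n : ℕ) (A : Set (E d)) (hA : MeasurableSet A) (hc : A ⊆ cube d) :
    ∀ᵐ ω ∂P, ∃ L : ℝ, Tendsto (fun N => TT P X γ n N A ω) atTop (𝓝 L) := by
  have h := mf_conv hX γ 1 (A.indicator fun _ => (1 : ℝ)) (measurable_const.indicator hA) (fun x => by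
    by_cases hx : x ∈ A
    · rw [Set.indicator_of_mem hx]; norm_num
    · rw [Set.indicator_of_notMem hx]; norm_num) n
  filter_upwards [h] with ω hω
  obtain ⟨L, hL⟩ := hω
  refine ⟨L, hL.congr fun N => ?_⟩
  unfold MF TT
  have h1 : (fun x : E d => A.indicator (fun _ => (1 : ℝ)) x * ∏ k ∈ Finset.Ico n N, wt P X γ k ω x)
      = A.indicator (fun x => ∏ k ∈ Finset.Ico n N, wt P X γ k ω x) := by
    funext x
    by_cases hx : x ∈ A
    · rw [Set.indicator_of_mem hx, Set.indicator_of_mem hx, one_mul]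
    · rw [Set.indicator_of_notMem hx, Set.indicator_of_notMem hx, zero_mul]
  rw [h1, setIntegral_indicator hA, Set.inter_eq_self_of_subset_right hc]

end Pool.Agent.MChaos
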