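import Pool.Agent.Lib_MP_a91488.LDefs
import Pool.Agent.Lib_MP_a91488.MOMC
import Pool.Agent.Lib_MP_a91488.MRT

/-!
# Piece RCD: masses of the limit measure for the fields of a smaller scale
-/

set_option autoImplicit false

open MeasureTheory ProbabilityTheory Filter
open scoped Topology

namespace Pool.Agent.MChaos

private theorem lim_gen {Ω : Type} [MeasurableSpace Ω] {P : Measure Ω} [IsProbabilityMeasure P]
    (S : ℕ → Set Ω) (B : Set Ω) (p : ℝ) (h : ∀ᵐ ω ∂P, ω ∈ B → ∀ᶠ N in atTop, ω ∈ S N)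
    (hp : ∀ᶠ N in atTop, P.real (S N) ≤ p) : P.real B ≤ p := by
  obtain ⟨N₀, hN₀⟩ := eventually_atTop.1 hp
  have hp0 : 0 ≤ p := le_trans measureReal_nonneg (hN₀ N₀ le_rfl)
  have hmono : Monotone (fun n : ℕ => ⋂ N ∈ Set.Ici n, S N) := by
    intro a b hab
    exact Set.biInter_mono (Set.Ici_subset_Ici.2 hab) fun _ _ => subset_rfl
  have h1 : P B ≤ P (⋃ n : ℕ, ⋂ N ∈ Set.Ici n, S N) := by
    refine measure_mono_ae ?_
    filter_upwards [h] with ω hω hB
    obtain ⟨n, hn⟩ := eventually_atTop.1 (hω hB)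
    exact Set.mem_iUnion.2 ⟨n, Set.mem_iInter₂.2 fun N hN => hn N hN⟩
  rw [hmono.measure_iUnion] at h1
  have h2 : ⨆ n : ℕ, P (⋂ N ∈ Set.Ici n, S N) ≤ ENNReal.ofReal p := by
    refine iSup_le fun n => ?_
    have h3 : P (⋂ N ∈ Set.Ici n, S N) ≤ P (S (max n N₀)) :=
      measure_mono (Set.biInter_subset_of_mem (Set.mem_Ici.2 (le_max_left _ _)))
    refine h3.trans ?_
    have h4 := hN₀ (max n N₀) (le_max_right _ _)
    rw [measureReal_def] at h4
    exact (ENNReal.le_ofReal_iff_toReal_le (measure_ne_top P _) hp0).2 h4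
  rw [measureReal_def]
  exact ENNReal.toReal_le_of_le_ofReal hp0 (h1.trans h2)

private theorem cb_vol_ne (m : ℕ) {d : ℕ} (z : V d) : volume (cb m z) ≠ ⊤ := by
  rw [cb_vol]
  exact ENNReal.ofReal_ne_top

private theorem cb_vol_ne0 (m : ℕ) {d : ℕ} (z : V d) : volume (cb m z) ≠ 0 := by
  rw [cb_vol]
  exact (ENNReal.ofReal_pos.2 (by positivity)).ne'

variable {d : ℕ} {Ω : Type} [MeasurableSpace Ω] {P : Measure Ω} [IsProbabilityMeasure P] {X : ℕ → Ω → E d → ℝ}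

/-- If `Y N ω` converges almost surely, then `P(∃ᶠ N, Y N < b) ≤ P(lim ≤ b) ≤ P(eventually Y N < 2 b) ≤ liminf P(Y N < 2 b)` -/
theorem lim_prob (Y : ℕ → Ω → ℝ) (hm : ∀ N, Measurable (Y N)) (hc : ∀ᵐ ω ∂P, ∃ L : ℝ, Tendsto (fun N => Y N ω) atTop (𝓝 L)) (b p : ℝ) (hb : 0 < b)
    (h : ∀ᶠ N in atTop, P.real {ω | Y N ω < 2 * b} ≤ p) : P.real {ω | ¬ ∀ᶠ N in atTop, b ≤ Y N ω} ≤ p := by
  refine lim_gen (fun N => {ω | Y N ω < 2 * b}) _ p ?_ h
  filter_upwards [hc] with ω hω hB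
  obtain ⟨L, hL⟩ := hω
  have h1 : ¬ ∀ᶠ N in atTop, b ≤ Y N ω := hB
  have h2 : L ≤ b := by
    by_contra hlt
    push Not at hlt
    exact h1 ((hL.eventually (lt_mem_nhds hlt)).mono fun N hN => hN.le)
  exact hL.eventually (gt_mem_nhds (by linarith))

theorem lim_prob' (Y : ℕ → Ω → ℝ) (hm : ∀ N, Measurable (Y N)) (hc : ∀ᵐ ω ∂P, ∃ L : ℝ, Tendsto (fun N => Y N ω) atTop (𝓝 L)) (b p : ℝ) (hb : 0 < b)
    (h : ∀ᶠ N in atTop, P.real {ω | b / 2 < Y N ω} ≤ p) : P.real {ω | ¬ ∀ᶠ N in atTop, Y N ω ≤ b} ≤ p := by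
  refine lim_gen (fun N => {ω | b / 2 < Y N ω}) _ p ?_ h
  filter_upwards [hc] with ω hω hB
  obtain ⟨L, hL⟩ := hω
  have h1 : ¬ ∀ᶠ N in atTop, Y N ω ≤ b := hB
  have h2 : b ≤ L := by
    by_contra hlt
    push Not at hlt
    exact h1 ((hL.eventually (gt_mem_nhds hlt)).mono fun N hN => hN.le)
  exact hL.eventually (lt_mem_nhds (by linarith))

/-- `tt_conv`, `lim_prob'`, Markov (`tt_mean`, `cb_vol`) -/
theorem upE_prob (hX : CP d P X) (β : ℝ) (n m : ℕ) (b : ℝ) (hb : 0 < b) (c : V d) (hc : c ∈ Idx d m) : P.real (UpE P X β n m b c)ᶜ ≤ 2 / b := by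
  have hset : (UpE P X β n m b c)ᶜ =
      {ω | ¬ ∀ᶠ N in atTop, TT P X β n N (cb m c) ω * 2 ^ (d * m) ≤ b} := rfl
  rw [hset]
  refine lim_prob' (fun N ω => TT P X β n N (cb m c) ω * 2 ^ (d * m))
    (fun N => (tt_meas hX β n N (cb m c) (cb_vol_ne m c)).mul_const _) ?_ b (2 / b) hb ?_
  · filter_upwards [tt_conv hX β n (cb m c) (cb_meas m c) (cb_sub m c hc)] with ω hω
    obtain ⟨L, hL⟩ := hω
    exact ⟨L * 2 ^ (d * m), hL.mul_const _⟩
  · refine Eventually.of_forall fun N => ?_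
    have hm := tt_mean hX β n N (cb m c) (cb_meas m c) (cb_vol_ne m c)
    have h1 := mul_meas_ge_le_integral_of_nonneg (μ := P)
      (f := fun ω => TT P X β n N (cb m c) ω * 2 ^ (d * m))
      (Eventually.of_forall fun ω => mul_nonneg (tt_nonneg hX β n N ω _) (by positivity))
      (hm.1.mul_const _) (b / 2)
    rw [integral_mul_const, hm.2, cb_vol, ENNReal.toReal_ofReal (by positivity),
      one_div_mul_cancel (by positivity)] at h1
    have h2 : P.real {ω | b / 2 < TT P X β n N (cb m c) ω * 2 ^ (d * m)} ≤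
        P.real {ω | b / 2 ≤ TT P X β n N (cb m c) ω * 2 ^ (d * m)} :=
      measureReal_mono (fun ω (hω : b / 2 < TT P X β n N (cb m c) ω * 2 ^ (d * m)) => by
        show b / 2 ≤ TT P X β n N (cb m c) ω * 2 ^ (d * m)
        exact hω.le) (measure_ne_top P _)
    refine h2.trans ?_
    rw [le_div_iff₀ hb]
    nlinarith [h1]

/-- `tt_conv`, `lim_prob`, Markov for `TT^(-1)`: `momc` with `q = -1` for `n = cut (m - l)`, `cut_diff`: `E (TT 2^(d m))^(-1) ≤ C 2^(β^2 l)` -/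
theorem loE_prob (hX : CP d P X) (β : ℝ) (hβ : β ^ 2 < 2 * d) : ∃ (C : ℝ) (t₀ : ℕ), 0 < C ∧ ∀ m l : ℕ, l + t₀ ≤ m → ∀ b : ℝ, 0 < b → ∀ c ∈ Idx d m,
    P.real (LoE P X β (cut P X (m - l)) m b c)ᶜ ≤ C * 2 ^ (β ^ 2 * l) * b := by
  have hd : (0 : ℝ) < d := by exact_mod_cast hX.dpos
  obtain ⟨C, t₁, hC, hmom⟩ := momc hX β (-1) hβ (by nlinarith [sq_nonneg β])
  obtain ⟨t₂, hcut⟩ := cut_diff hX
  refine ⟨2 * C * Real.exp (β ^ 2), max t₁ t₂, by positivity, ?_⟩
  intro m l hml b hb c hc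
  have hm1 : t₁ ≤ m := by have := le_max_left t₁ t₂; omega
  have hm2 : t₂ ≤ m - l := by have := le_max_right t₁ t₂; omega
  have hml' : m - l + l = m := by omega
  have hset : (LoE P X β (cut P X (m - l)) m b c)ᶜ =
      {ω | ¬ ∀ᶠ N in atTop, b ≤ TT P X β (cut P X (m - l)) N (cb m c) ω * 2 ^ (d * m)} := rfl
  rw [hset]
  set n := cut P X (m - l) with hn
  have hncut : n ≤ cut P X m := cut_mono hX (Nat.sub_le m l)
  refine lim_prob (fun N ω => TT P X β n N (cb m c) ω * 2 ^ (d * m))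
    (fun N => (tt_meas hX β n N (cb m c) (cb_vol_ne m c)).mul_const _) ?_ b _ hb ?_
  · filter_upwards [tt_conv hX β n (cb m c) (cb_meas m c) (cb_sub m c hc)] with ω hω
    obtain ⟨L, hL⟩ := hω
    exact ⟨L * 2 ^ (d * m), hL.mul_const _⟩
  · filter_upwards [eventually_ge_atTop (cut P X m)] with N hN
    have hpos : ∀ ω, 0 < TT P X β n N (cb m c) ω * 2 ^ (d * m) := fun ω =>
      mul_pos (tt_pos hX β n N ω (cb m c) (cb_meas m c) (cb_vol_ne m c) (cb_vol_ne0 m c))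
        (by positivity)
    have hint : Integrable (fun ω => (TT P X β n N (cb m c) ω * 2 ^ (d * m)) ^ (-1 : ℝ)) P := by
      have h1 := (tt_pow hX β (-1) n N (cb m c) (cb_meas m c) (cb_vol_ne m c)
        (cb_vol_ne0 m c)).mul_const (((2 : ℝ) ^ (d * m)) ^ (-1 : ℝ))
      refine h1.congr (Eventually.of_forall fun ω => ?_)
      exact (Real.mul_rpow (tt_nonneg hX β n N ω _) (by positivity)).symm
    have h1 := mul_meas_ge_le_integral_of_nonneg (μ := P)
      (f := fun ω => (TT P X β n N (cb m c) ω * 2 ^ (d * m)) ^ (-1 : ℝ))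
      (Eventually.of_forall fun ω => Real.rpow_nonneg (hpos ω).le _) hint (1 / (2 * b))
    have h2 := hmom m n N hm1 hncut hN c hc
    have h3 : P.real {ω | TT P X β n N (cb m c) ω * 2 ^ (d * m) < 2 * b} ≤
        P.real {ω | 1 / (2 * b) ≤ (TT P X β n N (cb m c) ω * 2 ^ (d * m)) ^ (-1 : ℝ)} := by
      refine measureReal_mono (fun ω hω => ?_) (measure_ne_top P _)
      have hω' : TT P X β n N (cb m c) ω * 2 ^ (d * m) < 2 * b := hω
      show 1 / (2 * b) ≤ (TT P X β n N (cb m c) ω * 2 ^ (d * m)) ^ (-1 : ℝ)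
      rw [Real.rpow_neg_one, ← one_div]
      exact one_div_le_one_div_of_le (hpos ω) hω'.le
    have h4 := hcut (m - l) l hm2
    rw [hml', ← hn] at h4
    have h5 : Real.exp ((((-1 : ℝ)) ^ 2 - (-1)) * β ^ 2 / 2 * (sig2 P X (cut P X m) - sig2 P X n)) ≤
        Real.exp (β ^ 2) * 2 ^ (β ^ 2 * l) := by
      have h6 : (2 : ℝ) ^ (β ^ 2 * l) = Real.exp (β ^ 2 * l * Real.log 2) := by
        rw [Real.rpow_def_of_pos (by norm_num)]
        congr 1
        ring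
      rw [h6, ← Real.exp_add]
      apply Real.exp_le_exp.2
      have h7 := (abs_le.1 h4).2
      have h8 : sig2 P X (cut P X m) - sig2 P X n ≤ 1 + l * Real.log 2 := by linarith
      nlinarith [mul_le_mul_of_nonneg_left h8 (sq_nonneg β)]
    have h9 : 1 / (2 * b) * P.real {ω | TT P X β n N (cb m c) ω * 2 ^ (d * m) < 2 * b} ≤
        C * (Real.exp (β ^ 2) * 2 ^ (β ^ 2 * l)) := by
      refine le_trans (mul_le_mul_of_nonneg_left h3 (by positivity)) (h1.trans (h2.trans ?_))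
      exact mul_le_mul_of_nonneg_left h5 hC.le
    have h10 : P.real {ω | TT P X β n N (cb m c) ω * 2 ^ (d * m) < 2 * b} ≤
        (C * (Real.exp (β ^ 2) * 2 ^ (β ^ 2 * l))) * (2 * b) := by
      rw [one_div, inv_mul_le_iff₀ (by positivity)] at h9
      linarith
    refine h10.trans (le_of_eq ?_)
    ring

end Pool.Agent.MChaos
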