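import Pool.Agent.Lib_MP_a91488.BLK
import Pool.Agent.Lib_MP_a91488.RCD

/-!
# Piece LOCP: the probability of local goodness
-/

set_option autoImplicit false

open MeasureTheory ProbabilityTheory

namespace Pool.Agent.MChaos

variable {d : ℕ} {Ω : Type} [MeasurableSpace Ω] {P : Measure Ω} [IsProbabilityMeasure P] {X : ℕ → Ω → E d → ℝ}

/-- `blk` with uniform constants for a finite set of types -/
theorem blk_unif (hX : CP d P X) (G : Finset ℝ) (ε : ℝ) (hε : 0 < ε) : (∀ τ ∈ G, τ ^ 2 < 2 * d) → ∃ η c C : ℝ, 0 < η ∧ 0 < c ∧ 0 < C ∧ ∃ t₀ : ℕ, ∀ τ ∈ G, ∀ m k l l' : ℕ, l + t₀ ≤ m → l' ≤ k → (l : ℝ) ≤ η * k → (l' : ℝ) ≤ η * k → ∀ z ∈ Idx d m,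
    P.real {ω | (Num X (cut P X (m - l)) (cut P X (m + k - l')) k (m + k) τ ε z ω : ℝ) < 2 * (2 : ℝ) ^ ((k : ℝ) * (d - τ ^ 2 / 2 - ε))} ≤
      C * 2 ^ (-(c * k)) + P.real (Osc X (cut P X (m - l)) (cut P X (m + k - l')) (m + k) 3) := by
  classical
  induction G using Finset.induction_on with
  | empty => exact fun _ => ⟨1, 1, 1, one_pos, one_pos, one_pos, 0, fun τ hτ => absurd hτ (Finset.notMem_empty _)⟩
  | insert τ₀ G hτ₀ ih =>
    intro hG
    obtain ⟨η₁, c₁, C₁, hη₁, hc₁, hC₁, t₁, h₁⟩ := ih (fun τ hτ => hG τ (Finset.mem_insert_of_mem hτ))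
    obtain ⟨η₂, c₂, C₂, hη₂, hc₂, hC₂, t₂, h₂⟩ := blk hX τ₀ ε (hG τ₀ (Finset.mem_insert_self _ _)) hε
    refine ⟨min η₁ η₂, min c₁ c₂, max C₁ C₂, lt_min hη₁ hη₂, lt_min hc₁ hc₂, lt_max_of_lt_left hC₁, max t₁ t₂, ?_⟩
    intro τ hτ m k l l' a1 a2 a3 a4 z hz
    have hk : (0 : ℝ) ≤ k := Nat.cast_nonneg _
    rcases Finset.mem_insert.1 hτ with rfl | hτ
    · refine (h₂ m k l l' ((Nat.add_le_add_left (le_max_right _ _) _).trans a1) a2 (a3.trans (by gcongr; exact min_le_right _ _)) (a4.trans (by gcongr; exact min_le_right _ _)) z hz).trans ?_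
      gcongr
      · exact le_max_right _ _
      · exact one_le_two
      · exact min_le_right _ _
    · refine (h₁ τ hτ m k l l' ((Nat.add_le_add_left (le_max_left _ _) _).trans a1) a2 (a3.trans (by gcongr; exact min_le_left _ _)) (a4.trans (by gcongr; exact min_le_left _ _)) z hz).trans ?_
      gcongr
      · exact le_max_left _ _
      · exact one_le_two
      · exact min_le_left _ _

/-- exponentials against `2^(-√m)` -/
theorem locp_ev (K a : ℝ) (ha : 0 < a) : ∀ᶠ m : ℕ in Filter.atTop, K * (2 : ℝ) ^ (-(a * m)) ≤ 2 ^ (-Real.sqrt m) / 8 := by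
  have h1 : Filter.Tendsto (fun m : ℕ => a * (m : ℝ) - Real.sqrt m) Filter.atTop Filter.atTop := by
    have h3 : Filter.Tendsto (fun m : ℕ => a / 2 * (m : ℝ)) Filter.atTop Filter.atTop := tendsto_natCast_atTop_atTop.const_mul_atTop (by positivity)
    refine Filter.tendsto_atTop_mono' _ ?_ h3
    filter_upwards [Filter.eventually_ge_atTop (Nat.ceil (4 / a ^ 2))] with m hm
    have hm' : 4 / a ^ 2 ≤ m := Nat.ceil_le.1 hm
    have h4 : Real.sqrt m ≤ a / 2 * m := by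
      rw [Real.sqrt_le_left (by positivity)]
      rw [div_le_iff₀ (by positivity)] at hm'
      have : (0 : ℝ) ≤ m := Nat.cast_nonneg _
      nlinarith
    linarith
  have h2' : ∀ x : ℝ, (2 : ℝ) ^ x = Real.exp (Real.log 2 * x) := fun x => Real.rpow_def_of_pos two_pos x
  have h2 : ∀ᶠ m : ℕ in Filter.atTop, 8 * K ≤ (2 : ℝ) ^ (a * (m : ℝ) - Real.sqrt m) := by
    simp_rw [h2']
    exact (Real.tendsto_exp_atTop.comp (h1.const_mul_atTop (Real.log_pos one_lt_two))).eventually_ge_atTop (8 * K)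
  filter_upwards [h2] with m hm
  have h5 : (2 : ℝ) ^ (a * (m : ℝ) - Real.sqrt m) * 2 ^ (-(a * (m : ℝ))) = 2 ^ (-Real.sqrt m) := by
    rw [← Real.rpow_add two_pos]; congr 1; ring
  have h6 : 0 < (2 : ℝ) ^ (-(a * (m : ℝ))) := by positivity
  rw [← h5]
  nlinarith

/-- Union bound: `blk` for every `τ ∈ G` (`k = m / h + 1 ≥ m / h`, `l, l' ≤ η k` if `h` is large and `m` large), `upE_prob` for the at most `3^d` neighbours (`b = 2^(e m)`), `loE_prob` (`b = 2^(-e m)`, `β^2 l ≤ e m / 2` if `h` is large);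
all exponential terms together are at most `2^(-√m)/2` for large `m`. -/
theorem locp (hX : CP d P X) (β : ℝ) (hβ : β ^ 2 < 2 * d) (G : Finset ℝ) (e : ℝ) (he : 0 < e) (hG : ∀ τ ∈ G, τ ^ 2 < 2 * d) : ∃ h₀ : ℕ, 2 ≤ h₀ ∧ ∀ h : ℕ, h₀ ≤ h → ∃ M : ℕ, ∀ m : ℕ, M ≤ m →
    ∀ l l' : ℕ, l ≤ m / h ^ 2 + 1 → l' ≤ 2 * m / h ^ 2 + 1 → ∀ z ∈ Idx d m,
      P.real (LcE P X β G e m (m / h + 1) (cut P X (m - l)) (cut P X (m + (m / h + 1) - l')) z)ᶜ ≤
        2 ^ (-Real.sqrt m) / 2 + G.card * P.real (Osc X (cut P X (m - l)) (cut P X (m + (m / h + 1) - l')) (m + (m / h + 1)) 3) := by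
  classical
  obtain ⟨η, c, C, hη, hc, hC, t₀, hblk⟩ := blk_unif hX G e he hG
  obtain ⟨C', t₁, hC', hlo⟩ := loE_prob hX β hβ
  refine ⟨Nat.ceil (8 / η) + Nat.ceil (4 * β ^ 2 / e) + 2, by omega, fun h hh => ?_⟩
  have hh2 : 2 ≤ h := by omega
  have hh2' : (2 : ℝ) ≤ h := by exact_mod_cast hh2
  have h0 : (0 : ℝ) < h := by linarith
  have hhη : 8 / η ≤ h := by
    refine (Nat.le_ceil _).trans ?_
    exact_mod_cast (by omega : Nat.ceil (8 / η) ≤ h)
  have hhβ : 4 * β ^ 2 / e ≤ h := by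
    refine (Nat.le_ceil _).trans ?_
    exact_mod_cast (by omega : Nat.ceil (4 * β ^ 2 / e) ≤ h)
  have e1 := locp_ev (G.card * C) (c / h) (by positivity)
  have e2 := locp_ev (3 ^ d * 2) e he
  have e3 := locp_ev (C' * 2 ^ (β ^ 2)) (e / 2) (by positivity)
  obtain ⟨M₁, hM₁⟩ := Filter.eventually_atTop.1 (e1.and (e2.and e3))
  refine ⟨max M₁ (max (2 * (t₀ + t₁ + 2)) (Nat.ceil (4 * h / η))), fun m hm l l' hl hl' z hz => ?_⟩
  have a1 : M₁ ≤ m := (le_max_left _ _).trans hm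
  have a2 : 2 * (t₀ + t₁ + 2) ≤ m := (le_max_left _ _).trans ((le_max_right _ _).trans hm)
  have a3 : Nat.ceil (4 * h / η) ≤ m := (le_max_right _ _).trans ((le_max_right _ _).trans hm)
  have a3' : 4 * h / η ≤ m := Nat.ceil_le.1 a3
  obtain ⟨b1, b2, b3⟩ := hM₁ m a1
  have hm0 : (0 : ℝ) ≤ m := Nat.cast_nonneg _
  -- arithmetic
  have hkreal : (m : ℝ) / h ≤ ((m / h + 1 : ℕ) : ℝ) := by
    rw [div_le_iff₀ h0]
    have h2 := (Nat.lt_mul_div_succ m (show 0 < h by omega)).le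
    have h3 : (m : ℝ) ≤ ((h * (m / h + 1) : ℕ) : ℝ) := by exact_mod_cast h2
    rw [Nat.cast_mul] at h3
    linarith
  have hl1 : (l' : ℝ) ≤ 2 * m / h ^ 2 + 1 := by
    have : (l' : ℝ) ≤ ((2 * m / h ^ 2 + 1 : ℕ) : ℝ) := by exact_mod_cast hl'
    refine this.trans ?_
    push_cast
    gcongr
    refine Nat.cast_div_le.trans ?_
    push_cast
    exact le_rfl
  have hl2 : (l : ℝ) ≤ m / h ^ 2 + 1 := by
    have : (l : ℝ) ≤ ((m / h ^ 2 + 1 : ℕ) : ℝ) := by exact_mod_cast hl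
    refine this.trans ?_
    push_cast
    gcongr
    refine Nat.cast_div_le.trans ?_
    push_cast
    exact le_rfl
  have hl3 : (2 : ℝ) * m / h ^ 2 + 1 ≤ η * ((m / h + 1 : ℕ) : ℝ) := by
    have c1 : (2 : ℝ) * m / h ^ 2 ≤ η / 4 * (m / h) := by
      have : (2 : ℝ) / h ≤ η / 4 := by
        rw [div_le_iff₀ h0]
        rw [div_le_iff₀ hη] at hhη
        linarith
      calc (2 : ℝ) * m / h ^ 2 = 2 / h * (m / h) := by field_simp
        _ ≤ η / 4 * (m / h) := by gcongr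
    have c2 : 1 ≤ η / 4 * (m / h) := by
      rw [div_le_iff₀ hη] at a3'
      rw [← mul_div_assoc, le_div_iff₀ h0]
      linarith
    have c3 : η * ((m : ℝ) / h) ≤ η * ((m / h + 1 : ℕ) : ℝ) := by gcongr
    have c4 : (0 : ℝ) ≤ η * (m / h) := by positivity
    linarith
  have hl4 : (m : ℝ) / h ^ 2 + 1 ≤ η * ((m / h + 1 : ℕ) : ℝ) := by
    refine le_trans ?_ hl3
    have : (m : ℝ) / h ^ 2 ≤ 2 * m / h ^ 2 := by gcongr; linarith
    linarith
  have hd1 : 2 * m / h ^ 2 ≤ m / h := by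
    rw [sq, ← Nat.div_div_eq_div_mul]
    calc 2 * m / h / h ≤ (h * m) / h / h := by
          apply Nat.div_le_div_right; apply Nat.div_le_div_right; exact Nat.mul_le_mul_right m hh2
      _ = m / h := by rw [Nat.mul_div_cancel_left m (by omega)]
  have hd2 : m / h ^ 2 ≤ m / 4 := by
    apply Nat.div_le_div_left _ (by norm_num)
    calc 4 = 2 ^ 2 := by norm_num
      _ ≤ h ^ 2 := Nat.pow_le_pow_left hh2 2
  have hlt0 : l + t₀ ≤ m := by
    generalize m / h ^ 2 = x at *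
    omega
  have hlt1 : l + t₁ ≤ m := by
    generalize m / h ^ 2 = x at *
    omega
  have hlk : l' ≤ m / h + 1 := by
    generalize 2 * m / h ^ 2 = x at *
    generalize m / h = y at *
    omega
  set n := cut P X (m - l) with hn
  set n' := cut P X (m + (m / h + 1) - l') with hn'
  set k := m / h + 1 with hk
  -- union bound
  have hsub : (LcE P X β G e m k n n' z)ᶜ ⊆ (⋃ τ ∈ G, {ω | (Num X n n' k (m + k) τ e z ω : ℝ) < 2 * (2 : ℝ) ^ ((k : ℝ) * (d - τ ^ 2 / 2 - e))}) ∪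
      ((⋃ c' ∈ Nbr m z, (UpE P X β n m ((2 : ℝ) ^ (e * m)) c')ᶜ) ∪ (LoE P X β n m ((2 : ℝ) ^ (-(e * m))) z)ᶜ) := by
    intro ω hω
    by_contra hcon
    simp only [Set.mem_union, Set.mem_iUnion, Set.mem_compl_iff, not_or, not_exists, Set.mem_ofPred_eq, not_lt, not_not] at hcon
    apply hω
    exact ⟨fun τ hτ => hcon.1 τ hτ, fun c' hc' => hcon.2.1 c' hc', hcon.2.2⟩
  have p1 : P.real (⋃ τ ∈ G, {ω | (Num X n n' k (m + k) τ e z ω : ℝ) < 2 * (2 : ℝ) ^ ((k : ℝ) * (d - τ ^ 2 / 2 - e))}) ≤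
      G.card * (C * 2 ^ (-(c * k))) + G.card * P.real (Osc X n n' (m + k) 3) := by
    refine (measureReal_biUnion_finset_le _ _).trans ?_
    refine (Finset.sum_le_sum (fun τ hτ => hblk τ hτ m k l l' hlt0 hlk (hl2.trans hl4) (hl1.trans hl3) z hz)).trans ?_
    rw [Finset.sum_const, nsmul_eq_mul, mul_add]
  have p2 : P.real (⋃ c' ∈ Nbr m z, (UpE P X β n m ((2 : ℝ) ^ (e * m)) c')ᶜ) ≤ 3 ^ d * 2 * 2 ^ (-(e * m)) := by
    refine (measureReal_biUnion_finset_le _ _).trans ?_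
    refine (Finset.sum_le_sum (fun c' hc' => upE_prob hX β n m ((2 : ℝ) ^ (e * m)) (by positivity) c' (Finset.mem_filter.1 hc').1)).trans ?_
    rw [Finset.sum_const, nsmul_eq_mul, Real.rpow_neg two_pos.le, ← div_eq_mul_inv, mul_div_assoc]
    have : ((Nbr m z).card : ℝ) ≤ 3 ^ d := by exact_mod_cast Nbr_card m z
    exact mul_le_mul_of_nonneg_right this (by positivity)
  have p3 : P.real (LoE P X β n m ((2 : ℝ) ^ (-(e * m))) z)ᶜ ≤ C' * 2 ^ (β ^ 2) * 2 ^ (-(e / 2 * m)) := by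
    refine (hlo m l hlt1 ((2 : ℝ) ^ (-(e * m))) (by positivity) z hz).trans ?_
    rw [mul_assoc, mul_assoc, ← Real.rpow_add two_pos, ← Real.rpow_add two_pos]
    refine mul_le_mul_of_nonneg_left (Real.rpow_le_rpow_of_exponent_le one_le_two ?_) hC'.le
    have q1 : β ^ 2 * l ≤ β ^ 2 * (m / h ^ 2 + 1) := by gcongr
    have q2 : β ^ 2 * (m / h ^ 2) ≤ e / 4 * m := by
      have : β ^ 2 / (h : ℝ) ^ 2 ≤ e / 4 := by
        rw [div_le_iff₀ he] at hhβ
        rw [div_le_iff₀ (by positivity)]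
        have : (h : ℝ) ≤ (h : ℝ) ^ 2 := by nlinarith
        have := mul_le_mul_of_nonneg_right this he.le
        linarith
      calc β ^ 2 * (m / (h : ℝ) ^ 2) = β ^ 2 / (h : ℝ) ^ 2 * m := by ring
        _ ≤ e / 4 * m := by gcongr
    have q3 : 0 ≤ e * m := by positivity
    have q4 : β ^ 2 * ((m : ℝ) / h ^ 2 + 1) = β ^ 2 * (m / h ^ 2) + β ^ 2 := by ring
    linarith
  have hck : (2 : ℝ) ^ (-(c * k)) ≤ 2 ^ (-(c / h * m)) := by
    apply Real.rpow_le_rpow_of_exponent_le one_le_two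
    have : c / h * m = c * (m / h) := by ring
    rw [this]
    have : c * ((m : ℝ) / h) ≤ c * k := by gcongr
    linarith
  have p4 : (G.card : ℝ) * (C * 2 ^ (-(c * k))) ≤ 2 ^ (-Real.sqrt m) / 8 := by
    refine le_trans ?_ b1
    rw [← mul_assoc]
    gcongr
  have hpos : (0 : ℝ) < 2 ^ (-Real.sqrt m) := by positivity
  calc P.real (LcE P X β G e m k n n' z)ᶜ ≤ _ := measureReal_mono hsub
    _ ≤ P.real (⋃ τ ∈ G, {ω | (Num X n n' k (m + k) τ e z ω : ℝ) < 2 * (2 : ℝ) ^ ((k : ℝ) * (d - τ ^ 2 / 2 - e))}) +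
        P.real ((⋃ c' ∈ Nbr m z, (UpE P X β n m ((2 : ℝ) ^ (e * m)) c')ᶜ) ∪ (LoE P X β n m ((2 : ℝ) ^ (-(e * m))) z)ᶜ) := measureReal_union_le _ _
    _ ≤ P.real (⋃ τ ∈ G, {ω | (Num X n n' k (m + k) τ e z ω : ℝ) < 2 * (2 : ℝ) ^ ((k : ℝ) * (d - τ ^ 2 / 2 - e))}) +
        (P.real (⋃ c' ∈ Nbr m z, (UpE P X β n m ((2 : ℝ) ^ (e * m)) c')ᶜ) + P.real (LoE P X β n m ((2 : ℝ) ^ (-(e * m))) z)ᶜ) := by
          gcongr
          exact measureReal_union_le _ _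
    _ ≤ _ := by linarith

end Pool.Agent.MChaos
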