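import Pool.Agent.Lib_MP_a91488.GEO
import Pool.Agent.Lib_MP_a91488.EXA

/-!
# Piece MOA: a measure on the limit set of a tree of dyadic cubes
-/

set_option autoImplicit false

open MeasureTheory Metric Filter
open scoped Topology

namespace Pool.Agent.MChaos

variable {d : ℕ}

open Classical in
/-- the vertices of the tree: `W 0 = {z₀}`, `W (i+1)` = the children `c` of vertices of `W i` with `B i c` and `A (i+1) c` -/
noncomputable def Wt3 (k : ℕ → ℕ) (A B : ℕ → V d → Prop) (z₀ : V d) : ℕ → Finset (V d)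
  | 0 => {z₀}
  | i + 1 => (Wt3 k A B z₀ i).biUnion (fun z => (Chd (k i) z).filter (fun c => B i c ∧ A (i + 1) c))

private theorem moa_mem_succ (k : ℕ → ℕ) (A B : ℕ → V d → Prop) (z₀ : V d) (i : ℕ) (c : V d) :
    c ∈ Wt3 k A B z₀ (i + 1) ↔ ∃ z ∈ Wt3 k A B z₀ i, c ∈ Chd (k i) z ∧ B i c ∧ A (i + 1) c := by
  classical
  rw [Wt3, Finset.mem_biUnion]
  simp only [Finset.mem_filter]

theorem wt3_idx (m k : ℕ → ℕ) (hm : ∀ i, m (i + 1) = m i + k i) (A B : ℕ → V d → Prop) (z₀ : V d) (hz : z₀ ∈ Idx d (m 0)) (i : ℕ) : Wt3 k A B z₀ i ⊆ Idx d (m i) := by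
  induction i with
  | zero =>
    intro c hc
    rw [Wt3, Finset.mem_singleton] at hc
    rw [hc]
    exact hz
  | succ i ih =>
    intro c hc
    obtain ⟨z, hz1, hz2, _⟩ := (moa_mem_succ k A B z₀ i c).1 hc
    rw [hm i]
    exact Chd_Idx (m i) (k i) z c (ih hz1) hz2

theorem wt3_A (k : ℕ → ℕ) (A B : ℕ → V d → Prop) (z₀ : V d) (hA : A 0 z₀) (i : ℕ) : ∀ z ∈ Wt3 k A B z₀ i, A i z := by
  cases i with
  | zero =>
    intro c hc
    rw [Wt3, Finset.mem_singleton] at hc
    rw [hc]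
    exact hA
  | succ i =>
    intro c hc
    obtain ⟨z, _, _, _, h⟩ := (moa_mem_succ k A B z₀ i c).1 hc
    exact h

private theorem moa_self (j : ℕ) (c : V d) : c ∈ Chd j (fun i => c i / 2 ^ j) := by
  simp only [Chd, Fintype.mem_piFinset, Finset.mem_Ico]
  intro i
  exact ⟨Nat.mul_div_le _ _, Nat.lt_mul_div_succ _ (by positivity)⟩

private theorem moa_chd (j : ℕ) (z c : V d) (h : c ∈ Chd j z) : (fun i => c i / 2 ^ j) = z :=
  Chd_unique j _ z c (moa_self j c) h

open Classical in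
/-- children -/
private noncomputable def moaCh (k : ℕ → ℕ) (A B : ℕ → V d → Prop) (i : ℕ) (z : V d) : Finset (V d) :=
  (Chd (k i) z).filter (fun c => B i c ∧ A (i + 1) c)

/-- weights -/
private noncomputable def moaW (k : ℕ → ℕ) (A B : ℕ → V d → Prop) : ℕ → V d → ℝ
  | 0, _ => 1
  | i + 1, c => moaW k A B i (fun t => c t / 2 ^ (k i)) / (moaCh k A B i (fun t => c t / 2 ^ (k i))).card

private theorem moaW_nonneg (k : ℕ → ℕ) (A B : ℕ → V d → Prop) (i : ℕ) : ∀ c : V d, 0 ≤ moaW k A B i c := by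
  induction i with
  | zero => intro c; exact zero_le_one
  | succ i ih => intro c; exact div_nonneg (ih _) (Nat.cast_nonneg _)

private theorem moaW_succ (k : ℕ → ℕ) (A B : ℕ → V d → Prop) (i : ℕ) (c p : V d) (h : c ∈ Chd (k i) p) :
    moaW k A B (i + 1) c = moaW k A B i p / (moaCh k A B i p).card := by
  have h3 := moa_chd (k i) p c h
  have h4 : moaW k A B (i + 1) c = moaW k A B i (fun t => c t / 2 ^ (k i)) / (moaCh k A B i (fun t => c t / 2 ^ (k i))).card := rfl
  rw [h4, h3]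

private theorem moa_step (k : ℕ → ℕ) (A B : ℕ → V d → Prop) (z₀ : V d) (i : ℕ)
    (hc : ∀ z ∈ Wt3 k A B z₀ i, 0 < (moaCh k A B i z).card) (g : V d → ℝ) :
    ∑ e ∈ Wt3 k A B z₀ (i + 1), moaW k A B (i + 1) e * g (fun t => e t / 2 ^ (k i)) = ∑ p ∈ Wt3 k A B z₀ i, moaW k A B i p * g p := by
  classical
  have h1 : Wt3 k A B z₀ (i + 1) = (Wt3 k A B z₀ i).biUnion (moaCh k A B i) := rfl
  rw [h1, Finset.sum_biUnion]
  · refine Finset.sum_congr rfl fun p hp => ?_
    have h2 : ∀ e ∈ moaCh k A B i p, moaW k A B (i + 1) e * g (fun t => e t / 2 ^ (k i)) = moaW k A B i p * g p / (moaCh k A B i p).card := by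
      intro e he
      have h5 := (Finset.mem_filter.1 he).1
      rw [moaW_succ k A B i e p h5, moa_chd (k i) p e h5]
      ring
    have h6 : ((moaCh k A B i p).card : ℝ) ≠ 0 := by
      have := hc p hp
      positivity
    rw [Finset.sum_congr rfl h2, Finset.sum_const, nsmul_eq_mul]
    field_simp
  · intro p _ q _ hpq
    change Disjoint (moaCh k A B i p) (moaCh k A B i q)
    rw [Finset.disjoint_left]
    intro e he he'
    exact hpq (Chd_unique (k i) p q e (Finset.mem_filter.1 he).1 (Finset.mem_filter.1 he').1)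

private theorem moa_dv (a b : ℕ) (e : V d) : (fun t => e t / 2 ^ (a + b)) = fun t => (fun s => e s / 2 ^ a) t / 2 ^ b := by
  funext t
  change e t / 2 ^ (a + b) = e t / 2 ^ a / 2 ^ b
  rw [pow_add, Nat.div_div_eq_div_mul]

private theorem moa_mono (m k : ℕ → ℕ) (hm : ∀ i, m (i + 1) = m i + k i) (i n : ℕ) : m i ≤ m (i + n) := by
  induction n with
  | zero => exact le_rfl
  | succ n ih =>
    rw [← add_assoc, hm]
    omega

private theorem moa_iter (m k : ℕ → ℕ) (hm : ∀ i, m (i + 1) = m i + k i) (A B : ℕ → V d → Prop) (z₀ : V d)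
    (hc : ∀ i, ∀ z ∈ Wt3 k A B z₀ i, 0 < (moaCh k A B i z).card) (i n : ℕ) : ∀ g : V d → ℝ,
    ∑ e ∈ Wt3 k A B z₀ (i + n), moaW k A B (i + n) e * g (fun t => e t / 2 ^ (m (i + n) - m i)) = ∑ p ∈ Wt3 k A B z₀ i, moaW k A B i p * g p := by
  induction n with
  | zero =>
    intro g
    simp
  | succ n ih =>
    intro g
    have h1 : m (i + (n + 1)) - m i = k (i + n) + (m (i + n) - m i) := by
      have := moa_mono m k hm i n
      rw [← add_assoc, hm]
      omega
    rw [h1, ← ih g]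
    rw [← moa_step k A B z₀ (i + n) (hc (i + n)) (fun p => g (fun t => p t / 2 ^ (m (i + n) - m i)))]
    refine Finset.sum_congr rfl fun e _ => ?_
    rw [moa_dv]
    rfl

private theorem moa_anc (m k : ℕ → ℕ) (hm : ∀ i, m (i + 1) = m i + k i) (A B : ℕ → V d → Prop) (z₀ : V d) (i n : ℕ) :
    ∀ e ∈ Wt3 k A B z₀ (i + n), (fun t => e t / 2 ^ (m (i + n) - m i)) ∈ Wt3 k A B z₀ i := by
  induction n with
  | zero =>
    intro e he
    have h1 : (fun t => e t / 2 ^ (m (i + 0) - m i)) = e := by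
      funext t
      simp
    rw [h1]
    exact he
  | succ n ih =>
    intro e he
    have h1 : m (i + (n + 1)) - m i = k (i + n) + (m (i + n) - m i) := by
      have := moa_mono m k hm i n
      rw [← add_assoc, hm]
      omega
    obtain ⟨z, hz1, hz2, _⟩ := (moa_mem_succ k A B z₀ (i + n) e).1 he
    have h2 := ih z hz1
    rw [← moa_chd (k (i + n)) z e hz2] at h2
    rw [h1, moa_dv]
    exact h2

private theorem moaW_le (m k : ℕ → ℕ) (hm : ∀ i, m (i + 1) = m i + k i) (A B : ℕ → V d → Prop) (z₀ : V d) (hz : z₀ ∈ Idx d (m 0)) (hA : A 0 z₀) (u : ℕ → ℝ)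
    (h : ∀ i, ∀ z ∈ Idx d (m i), A i z → (2 : ℝ) ^ ((k i : ℝ) * u i) ≤ ((moaCh k A B i z).card : ℝ)) (i : ℕ) :
    ∀ z ∈ Wt3 k A B z₀ i, moaW k A B i z ≤ ∏ j ∈ Finset.range i, (2 : ℝ) ^ (-((k j : ℝ) * u j)) := by
  induction i with
  | zero =>
    intro z _
    simp [moaW]
  | succ i ih =>
    intro e he
    obtain ⟨p, hp1, hp2, _⟩ := (moa_mem_succ k A B z₀ i e).1 he
    rw [moaW_succ k A B i e p hp2, Finset.prod_range_succ, div_eq_mul_inv]
    have h1 := h i p (wt3_idx m k hm A B z₀ hz i hp1) (wt3_A k A B z₀ hA i p hp1)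
    have h2 : (0 : ℝ) < (2 : ℝ) ^ ((k i : ℝ) * u i) := by positivity
    refine mul_le_mul (ih p hp1) ?_ (by positivity) (Finset.prod_nonneg fun j _ => by positivity)
    rw [Real.rpow_neg (by norm_num)]
    exact inv_anti₀ h2 h1

/-- approximating measures -/
private noncomputable def moaNu (m k : ℕ → ℕ) (A B : ℕ → V d → Prop) (z₀ : V d) (n : ℕ) : Measure (E d) :=
  ∑ c ∈ Wt3 k A B z₀ n, ENNReal.ofReal (moaW k A B n c) • Measure.dirac (cor (m n) c)

open Classical in
private theorem moaNu_real (m k : ℕ → ℕ) (A B : ℕ → V d → Prop) (z₀ : V d) (n : ℕ) (S : Set (E d)) (hS : MeasurableSet S) :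
    (moaNu m k A B z₀ n).real S = ∑ c ∈ Wt3 k A B z₀ n, moaW k A B n c * (if cor (m n) c ∈ S then 1 else 0) := by
  rw [Measure.real, moaNu, Measure.finsetSum_apply, ENNReal.toReal_sum]
  · refine Finset.sum_congr rfl fun c _ => ?_
    rw [Measure.smul_apply, smul_eq_mul, Measure.dirac_apply' _ hS, ENNReal.toReal_mul, ENNReal.toReal_ofReal (moaW_nonneg k A B n c)]
    by_cases hc : cor (m n) c ∈ S
    · simp [hc]
    · simp [hc]
  · intro c _
    rw [Measure.smul_apply, smul_eq_mul, Measure.dirac_apply' _ hS]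
    refine ENNReal.mul_ne_top ENNReal.ofReal_ne_top ?_
    by_cases hc : cor (m n) c ∈ S
    · simp [hc]
    · simp [hc]

private theorem moaNu_fin (m k : ℕ → ℕ) (A B : ℕ → V d → Prop) (z₀ : V d) (n : ℕ) : IsFiniteMeasure (moaNu m k A B z₀ n) := by
  constructor
  rw [moaNu, Measure.finsetSum_apply]
  refine ENNReal.sum_lt_top.2 fun c _ => ?_
  rw [Measure.smul_apply, smul_eq_mul]
  exact ENNReal.mul_lt_top ENNReal.ofReal_lt_top (measure_lt_top _ _)

private theorem moa_sub (D : ℕ → E d → ℝ) (b : ℕ → ℝ) (ν : ℕ → Measure (E d)) (hν : ∀ N, IsProbabilityMeasure (ν N)) (hb : ∀ j x, |D j x| ≤ b j) :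
    ∃ φ : ℕ → ℕ, StrictMono φ ∧ ∀ j, ∃ L : ℝ, Tendsto (fun N => ∫ x, D j x ∂(ν (φ N))) atTop (𝓝 L) := by
  have hK : IsCompact (Set.pi Set.univ (fun j : ℕ => Set.Icc (-(b j)) (b j))) := isCompact_univ_pi fun j => isCompact_Icc
  have hx : ∀ N, (fun j => ∫ x, D j x ∂(ν N)) ∈ Set.pi Set.univ (fun j : ℕ => Set.Icc (-(b j)) (b j)) := by
    intro N j _
    have h1 : ‖∫ x, D j x ∂(ν N)‖ ≤ b j * (ν N).real Set.univ :=
      norm_integral_le_of_norm_le_const (Eventually.of_forall fun x => by rw [Real.norm_eq_abs]; exact hb j x)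
    have h2 : (ν N).real Set.univ = 1 := by
      have := hν N
      exact probReal_univ
    rw [h2, mul_one, Real.norm_eq_abs] at h1
    exact abs_le.1 h1
  obtain ⟨a, _, φ, hφ, ha⟩ := hK.tendsto_subseq hx
  refine ⟨φ, hφ, fun j => ⟨a j, ?_⟩⟩
  exact (tendsto_pi_nhds.1 ha) j

open Classical in
/-- The weights `w 0 z₀ = 1`, `w (i+1) c = w i z / #(children of z)` for the parent `z` of `c` (unique, `Chd_unique`); `∑_{W i} w i = 1`, `w i ≤ ∏_{j<i} 2^(-k j u j)`.
`ν_i = ∑_{c ∈ W i} w i c δ_{cor (m i) c}` are probability measures on the cube, with `ν_j (nb (m i) z) ≤ ∑_{c ∈ Nbr} w i c ≤ 3^d ∏ ..` for `j ≥ i` (`cor_nb`) and `ν_j (⋃_{z ∈ W i} cb (m i) z) = 1`.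
A limit point `ν` (compactness of the set of probability measures on the compact cube; or `exa` along a subsequence such that all integrals of the functions `D j` converge): open sets / closed sets (`port_open`, `port_closed`). -/
theorem moa (m k : ℕ → ℕ) (hm : ∀ i, m (i + 1) = m i + k i) (A B : ℕ → V d → Prop) (z₀ : V d) (hz : z₀ ∈ Idx d (m 0)) (hA : A 0 z₀) (u : ℕ → ℝ) (hu : ∀ i, 0 ≤ u i)
    (h : ∀ i, ∀ z ∈ Idx d (m i), A i z → (2 : ℝ) ^ ((k i : ℝ) * u i) ≤ (((Chd (k i) z).filter (fun c => B i c ∧ A (i + 1) c)).card : ℝ)) :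
    ∃ ν : Measure (E d), IsProbabilityMeasure ν ∧ (∀ i, ν (⋃ z ∈ Wt3 k A B z₀ i, cb (m i) z)ᶜ = 0) ∧
      ∀ i, ∀ z ∈ Wt3 k A B z₀ i, ν.real (nb (m i) z) ≤ 3 ^ d * ∏ j ∈ Finset.range i, (2 : ℝ) ^ (-((k j : ℝ) * u j)) := by
  have h' : ∀ i, ∀ z ∈ Idx d (m i), A i z → (2 : ℝ) ^ ((k i : ℝ) * u i) ≤ ((moaCh k A B i z).card : ℝ) := h
  have hc : ∀ i, ∀ z ∈ Wt3 k A B z₀ i, 0 < (moaCh k A B i z).card := by
    intro i z hzW
    have h1 := h' i z (wt3_idx m k hm A B z₀ hz i hzW) (wt3_A k A B z₀ hA i z hzW)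
    have h2 : (0 : ℝ) < (2 : ℝ) ^ ((k i : ℝ) * u i) := by positivity
    exact_mod_cast lt_of_lt_of_le h2 h1
  have hmass : ∀ n, ∑ e ∈ Wt3 k A B z₀ n, moaW k A B n e = 1 := by
    intro n
    have h1 := moa_iter m k hm A B z₀ hc 0 n (fun _ => 1)
    simp only [zero_add, mul_one] at h1
    rw [h1, Wt3, Finset.sum_singleton]
    rfl
  have hreal1 : ∀ n (S : Set (E d)), MeasurableSet S → (∀ c ∈ Wt3 k A B z₀ n, cor (m n) c ∈ S) → (moaNu m k A B z₀ n).real S = 1 := by
    intro n S hS hcS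
    rw [moaNu_real m k A B z₀ n S hS]
    refine Eq.trans (Finset.sum_congr rfl fun c hcW => ?_) (hmass n)
    rw [if_pos (hcS c hcW), mul_one]
  have hfin : ∀ n, IsFiniteMeasure (moaNu m k A B z₀ n) := moaNu_fin m k A B z₀
  have hprob : ∀ n, IsProbabilityMeasure (moaNu m k A B z₀ n) := by
    intro n
    constructor
    have h1 := hreal1 n Set.univ MeasurableSet.univ (fun c _ => Set.mem_univ _)
    rw [Measure.real] at h1
    rw [← ENNReal.toReal_eq_one_iff]
    exact h1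
  have hnull : ∀ n (S : Set (E d)), MeasurableSet S → (∀ c ∈ Wt3 k A B z₀ n, cor (m n) c ∈ S) → (moaNu m k A B z₀ n) Sᶜ = 0 := by
    intro n S hS hcS
    have := hprob n
    rw [prob_compl_eq_zero_iff hS, ← ENNReal.toReal_eq_one_iff]
    exact hreal1 n S hS hcS
  have hsupp : ∀ n, (moaNu m k A B z₀ n) (cube d)ᶜ = 0 := by
    intro n
    refine hnull n (cube d) cube_meas fun c hcW => ?_
    exact cb_sub (m n) c (wt3_idx m k hm A B z₀ hz n hcW) (cor_mem (m n) c)
  obtain ⟨D, hD1, hD2, hD3⟩ := exd (d := d)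
  choose b hb using hD2
  obtain ⟨φ, hφ, hφ2⟩ := moa_sub D b (moaNu m k A B z₀) hprob hb
  obtain ⟨ν, hν1, hν2, hν3⟩ := exa D hD1 hD3 (fun N => moaNu m k A B z₀ (φ N)) (fun N => hfin (φ N)) (fun N => hsupp (φ N)) hφ2
  have huniv : ν.real Set.univ = 1 := by
    have h1 := hν3 (fun _ => 1) continuous_const
    have h2 : (fun N => ∫ _ : E d, (1 : ℝ) ∂(moaNu m k A B z₀ (φ N))) = fun _ => 1 := by
      funext N
      have := hprob (φ N)
      simp
    rw [h2] at h1
    have h3 := tendsto_nhds_unique tendsto_const_nhds h1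
    rw [h3]
    simp
  have hνp : IsProbabilityMeasure ν := by
    constructor
    rw [← ENNReal.toReal_eq_one_iff]
    exact huniv
  refine ⟨ν, hνp, fun i => ?_, fun i z hzW => ?_⟩
  · have hFc : IsClosed (⋃ z ∈ Wt3 k A B z₀ i, cb (m i) z) := by
      refine Set.Finite.isClosed_biUnion (Finset.finite_toSet _) fun z _ => cb_closed (m i) z
    have hge : ∀ η : ℝ, 0 < η → 1 ≤ ν.real (⋃ z ∈ Wt3 k A B z₀ i, cb (m i) z) + η := by
      intro η hη
      have h1 := port_closed (fun N => moaNu m k A B z₀ (φ N)) ν (fun N => hfin (φ N)) hν1 (fun N => hsupp (φ N)) hν2 hν3 _ hFc η hη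
      obtain ⟨N, hN1, hN2⟩ := (h1.and (eventually_ge_atTop i)).exists
      have h2 : (moaNu m k A B z₀ (φ N)).real (⋃ z ∈ Wt3 k A B z₀ i, cb (m i) z) = 1 := by
        refine hreal1 (φ N) _ hFc.measurableSet fun e heW => ?_
        have h3 : i ≤ φ N := le_trans hN2 (hφ.id_le N)
        obtain ⟨n, hn⟩ := Nat.exists_eq_add_of_le h3
        rw [hn] at heW ⊢
        have h4 := moa_anc m k hm A B z₀ i n e heW
        have h5 := moa_mono m k hm i n
        refine Set.mem_biUnion h4 ?_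
        have h6 : m (i + n) = m i + (m (i + n) - m i) := by omega
        have h7 := Chd_sub (m i) (m (i + n) - m i) _ e (moa_self (m (i + n) - m i) e)
        rw [← h6] at h7
        exact h7 (cor_mem _ _)
      rw [← h2]
      exact hN1
    rw [prob_compl_eq_zero_iff hFc.measurableSet, ← ENNReal.toReal_eq_one_iff]
    refine le_antisymm ?_ (le_of_forall_pos_le_add hge)
    have h8 := ENNReal.toReal_mono ENNReal.one_ne_top (prob_le_one (μ := ν) (s := ⋃ z ∈ Wt3 k A B z₀ i, cb (m i) z))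
    rw [ENNReal.toReal_one] at h8
    exact h8
  · have hle : ∀ η : ℝ, 0 < η → ν.real (nb (m i) z) ≤ 3 ^ d * ∏ j ∈ Finset.range i, (2 : ℝ) ^ (-((k j : ℝ) * u j)) + η := by
      intro η hη
      have h1 := port_open (fun N => moaNu m k A B z₀ (φ N)) ν (fun N => hfin (φ N)) hν1 (fun N => hsupp (φ N)) hν2 hν3 _ (nb_open (m i) z) η hη
      obtain ⟨N, hN1, hN2⟩ := (h1.and (eventually_ge_atTop i)).exists
      have h3 : i ≤ φ N := le_trans hN2 (hφ.id_le N)
      obtain ⟨n, hn⟩ := Nat.exists_eq_add_of_le h3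
      have h2 : (moaNu m k A B z₀ (φ N)).real (nb (m i) z) ≤ 3 ^ d * ∏ j ∈ Finset.range i, (2 : ℝ) ^ (-((k j : ℝ) * u j)) := by
        rw [hn, moaNu_real m k A B z₀ (i + n) _ (nb_open (m i) z).measurableSet]
        have h4 : ∑ e ∈ Wt3 k A B z₀ (i + n), moaW k A B (i + n) e * (if cor (m (i + n)) e ∈ nb (m i) z then 1 else 0) ≤
            ∑ e ∈ Wt3 k A B z₀ (i + n), moaW k A B (i + n) e * (fun p : V d => if p ∈ Nbr (m i) z then (1 : ℝ) else 0) (fun t => e t / 2 ^ (m (i + n) - m i)) := by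
          refine Finset.sum_le_sum fun e he => mul_le_mul_of_nonneg_left ?_ (moaW_nonneg k A B (i + n) e)
          by_cases hce : cor (m (i + n)) e ∈ nb (m i) z
          · have h5 := moa_mono m k hm i n
            have h6 : m (i + n) = m i + (m (i + n) - m i) := by omega
            have h7 := cor_nb (m i) (m (i + n) - m i) z (fun t => e t / 2 ^ (m (i + n) - m i)) e (wt3_idx m k hm A B z₀ hz i hzW)
              (wt3_idx m k hm A B z₀ hz i (moa_anc m k hm A B z₀ i n e he)) (moa_self _ e)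
            rw [← h6] at h7
            change _ ≤ (if (fun t => e t / 2 ^ (m (i + n) - m i)) ∈ Nbr (m i) z then (1 : ℝ) else 0)
            rw [if_pos hce, if_pos (h7 hce)]
          · rw [if_neg hce]
            change _ ≤ (if (fun t => e t / 2 ^ (m (i + n) - m i)) ∈ Nbr (m i) z then (1 : ℝ) else 0)
            split_ifs
            · exact zero_le_one
            · exact le_rfl
        refine le_trans h4 ?_
        rw [moa_iter m k hm A B z₀ hc i n (fun p : V d => if p ∈ Nbr (m i) z then (1 : ℝ) else 0)]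
        have h8 : ∀ p ∈ Wt3 k A B z₀ i, moaW k A B i p * (fun p : V d => if p ∈ Nbr (m i) z then (1 : ℝ) else 0) p ≤
            (∏ j ∈ Finset.range i, (2 : ℝ) ^ (-((k j : ℝ) * u j))) * (if p ∈ Nbr (m i) z then (1 : ℝ) else 0) := by
          intro p hp
          refine mul_le_mul_of_nonneg_right (moaW_le m k hm A B z₀ hz hA u h' i p hp) ?_
          change (0 : ℝ) ≤ (if p ∈ Nbr (m i) z then (1 : ℝ) else 0)
          split_ifs
          · exact zero_le_one
          · exact le_rfl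
        refine le_trans (Finset.sum_le_sum h8) ?_
        rw [← Finset.mul_sum, mul_comm]
        refine mul_le_mul_of_nonneg_right ?_ (Finset.prod_nonneg fun j _ => by positivity)
        rw [← Finset.sum_filter, Finset.sum_const, nsmul_eq_mul, mul_one]
        have h9 : ((Wt3 k A B z₀ i).filter (fun p => p ∈ Nbr (m i) z)).card ≤ 3 ^ d := by
          refine le_trans (Finset.card_le_card ?_) (Nbr_card (m i) z)
          intro p hp
          exact (Finset.mem_filter.1 hp).2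
        exact_mod_cast h9
      linarith
    exact le_of_forall_pos_le_add hle

end Pool.Agent.MChaos
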