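import Pool.Agent.Lib_MP_a91488.BRAN

/-!
# Piece MOMB: crude moment bounds
-/

set_option autoImplicit false

open MeasureTheory ProbabilityTheory

namespace Pool.Agent.MChaos

variable {d : ℕ} {Ω : Type} [MeasurableSpace Ω] {P : Measure Ω} [IsProbabilityMeasure P] {X : ℕ → Ω → E d → ℝ}

private theorem mbU (hX : CP d P X) (γ : ℝ) (n N : ℕ) :
    Measurable (fun z : Ω × E d => ∏ k ∈ Finset.Ico n N, wt P X γ k z.1 z.2) :=
  Finset.measurable_fun_prod _ fun k _ => wt_unc hX γ k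

private theorem mbP (hX : CP d P X) (γ : ℝ) (n N : ℕ) (ω : Ω) (x : E d) :
    0 < ∏ k ∈ Finset.Ico n N, wt P X γ k ω x :=
  Finset.prod_pos fun k _ => wt_pos hX γ k ω x

/-- joint integrability of the powers -/
private theorem mbI (hX : CP d P X) (γ p B : ℝ) (n N : ℕ) (A : Set (E d)) (hA : MeasurableSet A)
    (hv : volume A ≠ ⊤) (hB : ∀ x ∈ A, Integrable (fun ω => (∏ k ∈ Finset.Ico n N, wt P X γ k ω x) ^ p) P ∧
      ∫ ω, (∏ k ∈ Finset.Ico n N, wt P X γ k ω x) ^ p ∂P ≤ B) :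
    Integrable (fun z : Ω × E d => (∏ k ∈ Finset.Ico n N, wt P X γ k z.1 z.2) ^ p)
      (P.prod (volume.restrict A)) := by
  have : IsFiniteMeasure (volume.restrict A) := ⟨by simpa using lt_top_iff_ne_top.mpr hv⟩
  have hm : Measurable (fun z : Ω × E d => (∏ k ∈ Finset.Ico n N, wt P X γ k z.1 z.2) ^ p) :=
    (mbU hX γ n N).pow_const p
  rw [integrable_prod_iff' hm.aestronglyMeasurable]
  have h0 : ∀ᵐ x ∂(volume.restrict A), x ∈ A := ae_restrict_mem hA
  refine ⟨h0.mono fun x hx => (hB x hx).1, ?_⟩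
  have h1 : (fun y => ∫ ω, ‖(∏ k ∈ Finset.Ico n N, wt P X γ k ω y) ^ p‖ ∂P) =
      fun y => ∫ ω, (∏ k ∈ Finset.Ico n N, wt P X γ k ω y) ^ p ∂P := by
    funext y
    refine integral_congr_ae (Filter.Eventually.of_forall fun ω => ?_)
    exact Real.norm_of_nonneg (Real.rpow_nonneg (mbP hX γ n N ω y).le p)
  have h2 : StronglyMeasurable (fun y => ∫ ω, (∏ k ∈ Finset.Ico n N, wt P X γ k ω y) ^ p ∂P) :=
    hm.stronglyMeasurable.integral_prod_left'
  show Integrable (fun y => ∫ ω, ‖(∏ k ∈ Finset.Ico n N, wt P X γ k ω y) ^ p‖ ∂P) (volume.restrict A)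
  rw [h1]
  refine Integrable.mono' (integrable_const B) h2.aestronglyMeasurable (h0.mono fun x hx => ?_)
  rw [Real.norm_of_nonneg (integral_nonneg fun ω => Real.rpow_nonneg (mbP hX γ n N ω x).le p)]
  exact (hB x hx).2

/-- Jensen -/
private theorem mbJ (hX : CP d P X) (γ p : ℝ) (hp : 1 ≤ p ∨ p ≤ 0) (n N : ℕ) (ω : Ω) (A : Set (E d))
    (hA : MeasurableSet A) (hv : volume A ≠ ⊤) (h0 : volume A ≠ 0)
    (hi : Integrable (fun x => (∏ k ∈ Finset.Ico n N, wt P X γ k ω x) ^ p) (volume.restrict A)) :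
    (TT P X γ n N A ω / (volume A).toReal) ^ p ≤
      (∫ x in A, (∏ k ∈ Finset.Ico n N, wt P X γ k ω x) ^ p) / (volume A).toReal := by
  have : IsFiniteMeasure (volume.restrict A) := ⟨by simpa using lt_top_iff_ne_top.mpr hv⟩
  have hvp : 0 < (volume A).toReal := ENNReal.toReal_pos h0 hv
  have hT : 0 < TT P X γ n N A ω := tt_pos hX γ n N ω A hA hv h0
  have hU : 0 < TT P X γ n N A ω / (volume A).toReal := div_pos hT hvp
  have hwi : Integrable (fun x => ∏ k ∈ Finset.Ico n N, wt P X γ k ω x) (volume.restrict A) :=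
    tt_integrable hX γ n N ω A hv
  generalize hUU : TT P X γ n N A ω / (volume A).toReal = U at hU ⊢
  have hTU : TT P X γ n N A ω = U * (volume A).toReal := by
    rw [← hUU]
    field_simp
  have h3 : Integrable (fun x => (∏ k ∈ Finset.Ico n N, wt P X γ k ω x) / U) (volume.restrict A) :=
    hwi.div_const _
  have h4 : Integrable (fun x => (∏ k ∈ Finset.Ico n N, wt P X γ k ω x) / U - 1) (volume.restrict A) :=
    h3.sub (integrable_const 1)
  have h5 : Integrable (fun x => 1 + p * ((∏ k ∈ Finset.Ico n N, wt P X γ k ω x) / U - 1))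
      (volume.restrict A) := (integrable_const 1).add (h4.const_mul p)
  have h1 : Integrable (fun x => U ^ p * (1 + p * ((∏ k ∈ Finset.Ico n N, wt P X γ k ω x) / U - 1)))
      (volume.restrict A) := h5.const_mul _
  have h2 := integral_mono h1 hi (fun x => onea_tan p hp.symm hU (mbP hX γ n N ω x))
  have hT2 : ∫ x in A, ∏ k ∈ Finset.Ico n N, wt P X γ k ω x = U * (volume A).toReal := hTU
  rw [integral_const_mul, integral_add (integrable_const 1) (h4.const_mul p),
    integral_const_mul, integral_sub h3 (integrable_const 1), integral_div, hT2] at h2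
  rw [le_div_iff₀ hvp]
  refine le_trans (le_of_eq ?_) h2
  have h6 : ∫ x in A, (1 : ℝ) = (volume A).toReal := by
    simp [Measure.real]
  rw [h6]
  field_simp
  ring

/-- Jensen for the normalised volume on `A`, Fubini, `prod_mom` -/
theorem momb (hX : CP d P X) (γ p : ℝ) (hp : 1 ≤ p ∨ p ≤ 0) : ∃ C : ℝ, 0 < C ∧ ∀ n N : ℕ, n ≤ N → ∀ A : Set (E d), MeasurableSet A → A ⊆ cube d → volume A ≠ 0 →
    ∫ ω, (TT P X γ n N A ω / (volume A).toReal) ^ p ∂P ≤ C * Real.exp ((p ^ 2 - p) * γ ^ 2 / 2 * (sig2 P X N - sig2 P X n)) := by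
  obtain ⟨C, hC, hprod⟩ := prod_mom hX γ p
  refine ⟨C, hC, ?_⟩
  intro n N hnN A hA hAc h0
  have hv : volume A ≠ ⊤ := by
    have h1 : volume A ≤ 1 := by
      rw [← cube_vol (d := d)]
      exact measure_mono hAc
    exact ne_top_of_le_ne_top ENNReal.one_ne_top h1
  have : IsFiniteMeasure (volume.restrict A) := ⟨by simpa using lt_top_iff_ne_top.mpr hv⟩
  have hvp : 0 < (volume A).toReal := ENNReal.toReal_pos h0 hv
  generalize hBB : C * Real.exp ((p ^ 2 - p) * γ ^ 2 / 2 * (sig2 P X N - sig2 P X n)) = B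
  have hB : ∀ x ∈ A, Integrable (fun ω => (∏ k ∈ Finset.Ico n N, wt P X γ k ω x) ^ p) P ∧
      ∫ ω, (∏ k ∈ Finset.Ico n N, wt P X γ k ω x) ^ p ∂P ≤ B := by
    intro x hx
    have h := hprod n N hnN x (hAc hx)
    rw [hBB] at h
    exact h
  have hI := mbI hX γ p B n N A hA hv hB
  have hae : ∀ᵐ ω ∂P, Integrable (fun x => (∏ k ∈ Finset.Ico n N, wt P X γ k ω x) ^ p)
      (volume.restrict A) := hI.prod_right_ae
  have hle : ∀ᵐ ω ∂P, (TT P X γ n N A ω / (volume A).toReal) ^ p ≤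
      (∫ x in A, (∏ k ∈ Finset.Ico n N, wt P X γ k ω x) ^ p) / (volume A).toReal :=
    hae.mono fun ω hω => mbJ hX γ p hp n N ω A hA hv h0 hω
  have hi1 : Integrable (fun ω => (TT P X γ n N A ω / (volume A).toReal) ^ p) P := by
    have h1 := (tt_pow hX γ p n N A hA hv h0).div_const ((volume A).toReal ^ p)
    refine h1.congr (Filter.Eventually.of_forall fun ω => ?_)
    show TT P X γ n N A ω ^ p / (volume A).toReal ^ p = (TT P X γ n N A ω / (volume A).toReal) ^ p
    rw [Real.div_rpow (tt_nonneg hX γ n N ω A) hvp.le]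
  have hi2 : Integrable (fun ω => ∫ x in A, (∏ k ∈ Finset.Ico n N, wt P X γ k ω x) ^ p) P :=
    hI.integral_prod_left
  refine (integral_mono_ae hi1 (hi2.div_const _) hle).trans ?_
  rw [integral_div, div_le_iff₀ hvp]
  rw [integral_integral_swap (f := fun ω x => (∏ k ∈ Finset.Ico n N, wt P X γ k ω x) ^ p) hI]
  have h7 : ∫ x in A, (∫ ω, (∏ k ∈ Finset.Ico n N, wt P X γ k ω x) ^ p ∂P) ≤ ∫ x in A, B := by
    refine integral_mono_ae hI.integral_prod_right (integrable_const _) ?_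
    exact (ae_restrict_mem hA).mono fun x hx => (hB x hx).2
  refine h7.trans (le_of_eq ?_)
  rw [integral_const]
  simp only [Measure.real, Measure.restrict_apply MeasurableSet.univ, Set.univ_inter, smul_eq_mul]
  ring

/-- `momb`, `cut_diff`, `sig2_mono` -/
theorem momb_cut (hX : CP d P X) (γ p : ℝ) (hp : 1 ≤ p ∨ p ≤ 0) (j : ℕ) : ∃ (C : ℝ) (t₀ : ℕ), 0 < C ∧ ∀ m N : ℕ, t₀ ≤ m → cut P X m ≤ N → N ≤ cut P X (m + j) → ∀ z ∈ Idx d m,
    ∫ ω, TN P X γ m N z ω ^ p ∂P ≤ C := by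
  obtain ⟨C, hC, hmom⟩ := momb hX γ p hp
  obtain ⟨t₀, ht⟩ := cut_diff hX
  refine ⟨C * Real.exp ((p ^ 2 - p) * γ ^ 2 / 2 * (j * Real.log 2 + 1)), t₀,
    mul_pos hC (Real.exp_pos _), ?_⟩
  intro m N hm h1 h2 z hz
  have hvol : (volume (cb m z)).toReal = 1 / 2 ^ (d * m) := by
    rw [cb_vol, ENNReal.toReal_ofReal (by positivity)]
  have hv0 : volume (cb m z) ≠ 0 := by
    rw [cb_vol]
    simp
  have h3 := hmom (cut P X m) N h1 (cb m z) (cb_meas m z) (cb_sub m z hz) hv0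
  have h4 : ∀ ω, TN P X γ m N z ω = TT P X γ (cut P X m) N (cb m z) ω / (volume (cb m z)).toReal := by
    intro ω
    rw [hvol]
    unfold TN
    field_simp
  simp only [h4]
  refine h3.trans ?_
  refine mul_le_mul_of_nonneg_left ?_ hC.le
  rw [Real.exp_le_exp]
  have hpp : 0 ≤ (p ^ 2 - p) * γ ^ 2 / 2 := by
    have h5 : 0 ≤ p ^ 2 - p := by
      rcases hp with hp | hp <;> nlinarith
    positivity
  refine mul_le_mul_of_nonneg_left ?_ hpp
  have h6 := (abs_le.1 (ht m j hm)).2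
  have h7 : sig2 P X N ≤ sig2 P X (cut P X (m + j)) := sig2_mono h2
  linarith

/-- abstract recursion over the scales: with the constant `G = C + 2 B`, induction on the number `r` with `N < cut (m + (r + 1) j)` -/
theorem recur (ct : ℕ → ℕ) (hmono : Monotone ct) (hct : Filter.Tendsto ct Filter.atTop Filter.atTop) (t₀ j : ℕ) (hj : 0 < j) (B C : ℝ) (hB : 0 ≤ B) (hC : 0 ≤ C)
    (F : ℕ → ℕ → V d → ℝ) (hbase : ∀ m N : ℕ, t₀ ≤ m → ct m ≤ N → N ≤ ct (m + j) → ∀ z ∈ Idx d m, F m N z ≤ C)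
    (hstep : ∀ m N : ℕ, t₀ ≤ m → ct (m + j) ≤ N → ∀ z ∈ Idx d m, ∀ G : ℝ, (∀ c ∈ Chd j z, F (m + j) N c ≤ G) → F m N z ≤ G / 2 + B) :
    ∀ m N : ℕ, t₀ ≤ m → ct m ≤ N → ∀ z ∈ Idx d m, F m N z ≤ C + 2 * B := by
  have key : ∀ r : ℕ, ∀ m N : ℕ, t₀ ≤ m → ct m ≤ N → N < ct (m + (r + 1) * j) → ∀ z ∈ Idx d m,
      F m N z ≤ C + 2 * B := by
    intro r
    induction r with
    | zero =>
      intro m N hm h1 h2 z hz
      rw [zero_add, one_mul] at h2
      have := hbase m N hm h1 h2.le z hz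
      linarith
    | succ r ih =>
      intro m N hm h1 h2 z hz
      rcases le_total N (ct (m + j)) with h3 | h3
      · have := hbase m N hm h1 h3 z hz
        linarith
      · have h4 := hstep m N hm h3 z hz (C + 2 * B) (fun c hc =>
          ih (m + j) N (by omega) h3 (by
            have e : m + j + (r + 1) * j = m + (r + 1 + 1) * j := by ring
            rw [e]
            exact h2) c (Chd_Idx m j z c hz hc))
        linarith
  intro m N hm h1 z hz
  obtain ⟨K, hK⟩ := (hct.eventually_gt_atTop N).exists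
  refine key K m N hm h1 (lt_of_lt_of_le hK (hmono ?_)) z hz
  have : K + 1 ≤ (K + 1) * j := Nat.le_mul_of_pos_right _ hj
  omega

end Pool.Agent.MChaos
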