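import Mathlib

/-!
# Piece PZN: Paley-Zygmund inequality, negative moments of sums
-/

set_option autoImplicit false

open MeasureTheory ProbabilityTheory

namespace Pool.Agent.MChaos

/-- `1/2 ≤ E f 1(f ≥ 1/2) ≤ (E f^p)^(1/p) P(f ≥ 1/2)^(1-1/p)` -/
theorem paley (p C : ℝ) (hp : 1 < p) : ∃ c₀ : ℝ, 0 < c₀ ∧ c₀ ≤ 1 ∧ ∀ (Ω : Type) [MeasurableSpace Ω] (P : Measure Ω) [IsProbabilityMeasure P] (f : Ω → ℝ),
    Measurable f → (∀ ω, 0 ≤ f ω) → ∫ ω, f ω ∂P = 1 → Integrable (fun ω => f ω ^ p) P → ∫ ω, f ω ^ p ∂P ≤ C → c₀ ≤ P.real {ω | 1 / 2 ≤ f ω} := by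
  set C' : ℝ := max C 1 with hC'
  have hC1 : 1 ≤ C' := le_max_right _ _
  have hCC : C ≤ C' := le_max_left _ _
  have hp1 : 0 < p - 1 := by linarith
  set M : ℝ := (4 * C') ^ (1 / (p - 1)) with hM
  have hM1 : 1 ≤ M := Real.one_le_rpow (by linarith) (by positivity)
  have hM0 : 0 < M := by linarith
  have hMp : M ^ (p - 1) = 4 * C' := by
    rw [hM, ← Real.rpow_mul (by linarith), one_div, inv_mul_cancel₀ hp1.ne', Real.rpow_one]
  refine ⟨1 / (4 * M), by positivity, ?_, ?_⟩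
  · rw [div_le_one (by positivity)]
    linarith
  intro Ω _ P _ f hf h0 hf1 hip hC
  set S : Set Ω := {ω | 1 / 2 ≤ f ω} with hS
  have hSm : MeasurableSet S := measurableSet_le measurable_const hf
  have hfi : Integrable f P := by
    by_contra h
    rw [integral_undef h] at hf1
    exact zero_ne_one hf1
  have hpt : ∀ ω, f ω ≤ 1 / 2 + M * S.indicator (fun _ => (1 : ℝ)) ω + f ω ^ p / (4 * C') := by
    intro ω
    have hq : 0 ≤ f ω ^ p / (4 * C') := div_nonneg (Real.rpow_nonneg (h0 ω) _) (by linarith)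
    by_cases hω : ω ∈ S
    · rw [Set.indicator_of_mem hω, mul_one]
      by_cases hfM : f ω ≤ M
      · linarith
      · push Not at hfM
        have hfp : 0 < f ω := by linarith
        have h1 : f ω ^ p = f ω * f ω ^ (p - 1) := by
          rw [Real.rpow_sub_one hfp.ne']
          field_simp
        have h2 : M ^ (p - 1) ≤ f ω ^ (p - 1) := Real.rpow_le_rpow hM0.le hfM.le hp1.le
        have h3 : f ω ≤ f ω ^ p / (4 * C') := by
          rw [le_div_iff₀ (by linarith), h1, ← hMp]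
          exact mul_le_mul_of_nonneg_left h2 hfp.le
        linarith
    · rw [Set.indicator_of_notMem hω, mul_zero]
      have : f ω < 1 / 2 := by
        simpa [hS] using hω
      linarith
  have hind : Integrable (S.indicator fun _ => (1 : ℝ)) P := (integrable_const 1).indicator hSm
  have hint : (1 : ℝ) ≤ 1 / 2 + M * P.real S + (∫ ω, f ω ^ p ∂P) / (4 * C') := by
    have h1 : ∫ ω, f ω ∂P ≤ ∫ ω, (1 / 2 + M * S.indicator (fun _ => (1 : ℝ)) ω + f ω ^ p / (4 * C')) ∂P := by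
      refine integral_mono hfi ?_ hpt
      exact ((integrable_const _).add (hind.const_mul M)).add (hip.div_const _)
    rw [hf1] at h1
    have hA : Integrable (fun ω => 1 / 2 + M * S.indicator (fun _ => (1 : ℝ)) ω) P :=
      (integrable_const _).add (hind.const_mul M)
    have hB : ∫ ω, f ω ^ p / (4 * C') ∂P = (∫ ω, f ω ^ p ∂P) / (4 * C') := integral_div _ _
    rw [integral_add hA (hip.div_const _), hB,
      integral_add (integrable_const _) (hind.const_mul M), integral_const_mul,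
      integral_indicator hSm] at h1
    simpa using h1
  have h4 : (∫ ω, f ω ^ p ∂P) / (4 * C') ≤ 1 / 4 := by
    rw [div_le_iff₀ (by linarith)]
    linarith
  rw [div_le_iff₀ (by positivity)]
  linarith

/-- Fix an element `b` of `ι`. If some `f i ω ≥ c₁`, `i ≠ b`, then `(∑ f i)^(-q) ≤ c₁^(-q)`; otherwise `(∑ f i)^(-q) ≤ (f b)^(-q)`, and the event that all `f i < c₁` for `i ≠ b` has probability
at most `(1 - c₀)^(card ι - 1)` and is independent of `f b` -/
theorem neg_sum (q : ℝ) (hq : 0 < q) (Ω : Type) [MeasurableSpace Ω] (P : Measure Ω) [IsProbabilityMeasure P] (ι : Type) [Fintype ι] [DecidableEq ι] [Nonempty ι] (f : ι → Ω → ℝ)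
    (hm : ∀ i, Measurable (f i)) (h0 : ∀ i ω, 0 < f i ω) (hi : iIndepFun f P) (hq' : ∀ i, Integrable (fun ω => f i ω ^ (-q)) P)
    (c₀ c₁ F : ℝ) (hc₁ : 0 < c₁) (hc₀ : 0 ≤ c₀) (hc₀' : c₀ ≤ 1) (h1 : ∀ i, c₀ ≤ P.real {ω | c₁ ≤ f i ω}) (h2 : ∀ i, ∫ ω, f i ω ^ (-q) ∂P ≤ F) :
    Integrable (fun ω => (∑ i, f i ω) ^ (-q)) P ∧ ∫ ω, (∑ i, f i ω) ^ (-q) ∂P ≤ c₁ ^ (-q) + (1 - c₀) ^ (Fintype.card ι - 1) * F := by
  obtain ⟨b⟩ := ‹Nonempty ι›
  have hle : ∀ i ω, f i ω ≤ ∑ j, f j ω := fun i ω =>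
    Finset.single_le_sum (f := fun j => f j ω) (fun j _ => (h0 j ω).le) (Finset.mem_univ i)
  have hpos : ∀ ω, 0 < ∑ j, f j ω := fun ω => lt_of_lt_of_le (h0 b ω) (hle b ω)
  have hanti : ∀ {x y : ℝ}, 0 < x → x ≤ y → y ^ (-q) ≤ x ^ (-q) := fun hx hxy =>
    Real.rpow_le_rpow_of_nonpos hx hxy (by linarith)
  have hmS : Measurable fun ω => (∑ i, f i ω) ^ (-q) :=
    (Finset.measurable_sum _ fun i _ => hm i).pow_const _
  have hI : Integrable (fun ω => (∑ i, f i ω) ^ (-q)) P := by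
    refine (hq' b).mono' hmS.aestronglyMeasurable (Filter.Eventually.of_forall fun ω => ?_)
    rw [Real.norm_of_nonneg (Real.rpow_nonneg (hpos ω).le _)]
    exact hanti (h0 b ω) (hle b ω)
  refine ⟨hI, ?_⟩
  set g : ι → ℝ → ℝ := fun i => if i = b then fun x => x ^ (-q) else
    (Set.Iio c₁).indicator fun _ => (1 : ℝ) with hg
  have hgm : ∀ i, Measurable (g i) := by
    intro i
    by_cases h : i = b
    · simp only [hg, h, if_true]
      exact measurable_id.pow_const _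
    · simp only [hg, h, if_false]
      exact measurable_const.indicator measurableSet_Iio
  have hprod : ∫ ω, ∏ i, g i (f i ω) ∂P = ∏ i, ∫ ω, g i (f i ω) ∂P :=
    hi.integral_fun_prod_comp (fun i => (hm i).aemeasurable)
      (fun i => (hgm i).aestronglyMeasurable)
  have hsplit : ∀ ω, ∏ i, g i (f i ω) =
      f b ω ^ (-q) * ∏ i ∈ Finset.univ.erase b, (Set.Iio c₁).indicator (fun _ => (1 : ℝ)) (f i ω) := by
    intro ω
    rw [← Finset.mul_prod_erase Finset.univ _ (Finset.mem_univ b)]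
    congr 1
    · simp [hg]
    · refine Finset.prod_congr rfl fun i hi => ?_
      have : i ≠ b := Finset.ne_of_mem_erase hi
      simp [hg, this]
  have hind01 : ∀ i ω, 0 ≤ (Set.Iio c₁).indicator (fun _ => (1 : ℝ)) (f i ω) ∧
      (Set.Iio c₁).indicator (fun _ => (1 : ℝ)) (f i ω) ≤ 1 := by
    intro i ω
    by_cases h : f i ω ∈ Set.Iio c₁
    · rw [Set.indicator_of_mem h]; norm_num
    · rw [Set.indicator_of_notMem h]; norm_num
  have hpr01 : ∀ ω, 0 ≤ ∏ i ∈ Finset.univ.erase b, (Set.Iio c₁).indicator (fun _ => (1 : ℝ)) (f i ω) ∧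
      ∏ i ∈ Finset.univ.erase b, (Set.Iio c₁).indicator (fun _ => (1 : ℝ)) (f i ω) ≤ 1 := by
    intro ω
    exact ⟨Finset.prod_nonneg fun i _ => (hind01 i ω).1,
      Finset.prod_le_one (fun i _ => (hind01 i ω).1) fun i _ => (hind01 i ω).2⟩
  have hpt : ∀ ω, (∑ i, f i ω) ^ (-q) ≤ c₁ ^ (-q) + ∏ i, g i (f i ω) := by
    intro ω
    rw [hsplit]
    by_cases h : ∃ i, i ≠ b ∧ c₁ ≤ f i ω
    · obtain ⟨i, -, hi⟩ := h
      have := hanti hc₁ (hi.trans (hle i ω))
      have h3 : 0 ≤ f b ω ^ (-q) * ∏ i ∈ Finset.univ.erase b, (Set.Iio c₁).indicator (fun _ => (1 : ℝ)) (f i ω) :=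
        mul_nonneg (Real.rpow_nonneg (h0 b ω).le _) (hpr01 ω).1
      linarith
    · push Not at h
      have h3 : ∏ i ∈ Finset.univ.erase b, (Set.Iio c₁).indicator (fun _ => (1 : ℝ)) (f i ω) = 1 := by
        refine Finset.prod_eq_one fun i hi => ?_
        rw [Set.indicator_of_mem]
        exact h i (Finset.ne_of_mem_erase hi)
      rw [h3, mul_one]
      have := hanti (h0 b ω) (hle b ω)
      have h4 : 0 ≤ c₁ ^ (-q) := Real.rpow_nonneg hc₁.le _
      linarith
  have hgi : Integrable (fun ω => ∏ i, g i (f i ω)) P := by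
    refine (hq' b).mono' (Finset.measurable_prod _ fun i _ => (hgm i).comp (hm i)).aestronglyMeasurable
      (Filter.Eventually.of_forall fun ω => ?_)
    rw [hsplit, Real.norm_of_nonneg (mul_nonneg (Real.rpow_nonneg (h0 b ω).le _) (hpr01 ω).1)]
    exact mul_le_of_le_one_right (Real.rpow_nonneg (h0 b ω).le _) (hpr01 ω).2
  have h5 : ∫ ω, (∑ i, f i ω) ^ (-q) ∂P ≤ c₁ ^ (-q) + ∫ ω, ∏ i, g i (f i ω) ∂P := by
    have := integral_mono hI ((integrable_const (c₁ ^ (-q))).add hgi) hpt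
    rw [integral_add' (integrable_const _) hgi] at this
    simpa using this
  refine h5.trans (add_le_add le_rfl ?_)
  rw [hprod, ← Finset.mul_prod_erase Finset.univ _ (Finset.mem_univ b), mul_comm]
  have h6 : ∫ ω, g b (f b ω) ∂P ≤ F := by
    have : (fun ω => g b (f b ω)) = fun ω => f b ω ^ (-q) := by
      funext ω; simp [hg]
    rw [this]
    exact h2 b
  have h60 : 0 ≤ ∫ ω, g b (f b ω) ∂P := by
    have : (fun ω => g b (f b ω)) = fun ω => f b ω ^ (-q) := by
      funext ω; simp [hg]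
    rw [this]
    exact integral_nonneg fun ω => Real.rpow_nonneg (h0 b ω).le _
  have h7 : ∀ i ∈ Finset.univ.erase b, 0 ≤ ∫ ω, g i (f i ω) ∂P ∧ ∫ ω, g i (f i ω) ∂P ≤ 1 - c₀ := by
    intro i hi
    have hib : i ≠ b := Finset.ne_of_mem_erase hi
    have hSm : MeasurableSet {ω | c₁ ≤ f i ω} := measurableSet_le measurable_const (hm i)
    have : (fun ω => g i (f i ω)) = {ω | c₁ ≤ f i ω}ᶜ.indicator fun _ => (1 : ℝ) := by
      funext ω
      simp only [hg, hib, if_false, Set.indicator_apply, Set.mem_Iio, Set.mem_compl_iff,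
        Set.mem_ofPred_eq, not_le]
    rw [this, integral_indicator hSm.compl]
    have h8 : ∫ _ω in {ω | c₁ ≤ f i ω}ᶜ, (1 : ℝ) ∂P = P.real {ω | c₁ ≤ f i ω}ᶜ := by simp
    rw [h8, probReal_compl_eq_one_sub hSm]
    have h9 : P.real {ω | c₁ ≤ f i ω} ≤ 1 := measureReal_le_one
    exact ⟨by linarith, by linarith [h1 i]⟩
  have h10 : ∏ i ∈ Finset.univ.erase b, ∫ ω, g i (f i ω) ∂P ≤ (1 - c₀) ^ (Fintype.card ι - 1) := by
    calc ∏ i ∈ Finset.univ.erase b, ∫ ω, g i (f i ω) ∂P ≤ ∏ _i ∈ Finset.univ.erase b, (1 - c₀) :=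
          Finset.prod_le_prod (fun i hi => (h7 i hi).1) fun i hi => (h7 i hi).2
      _ = (1 - c₀) ^ (Fintype.card ι - 1) := by
          rw [Finset.prod_const, Finset.card_erase_of_mem (Finset.mem_univ b), Finset.card_univ]
  have h11 : 0 ≤ ∏ i ∈ Finset.univ.erase b, ∫ ω, g i (f i ω) ∂P := Finset.prod_nonneg fun i hi => (h7 i hi).1
  exact mul_le_mul h10 h6 h60 (pow_nonneg (by linarith) _)

end Pool.Agent.MChaos
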