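import Pool.Agent.Lib_MP_a91488.MOMP
import Pool.Agent.Lib_MP_a91488.PZN

/-!
# Piece MOMN: negative moments at all scales
-/

set_option autoImplicit false

open MeasureTheory ProbabilityTheory

namespace Pool.Agent.MChaos

/-- the coefficient of `G` is at most `1/2` for a suitable `j` -/
theorem momn_coef (a Cb c₀ : ℝ) (hC : 0 < Cb) (hc : 0 < c₀) (hc1 : c₀ ≤ 1) (d : ℕ) (hd : 0 < d) :
    ∃ j : ℕ, 0 < j ∧ Cb * 2 ^ (a * j) * (1 - c₀) ^ (2 ^ (d * (j - 1)) - 1) ≤ 1 / 2 := by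
  obtain ⟨k, hk⟩ := exists_nat_ge a
  set r : ℝ := max (1 - c₀) (1 / 2) with hr
  have hr0 : 0 < r := lt_of_lt_of_le (by norm_num) (le_max_right _ _)
  have hr1 : r < 1 := max_lt (by linarith) (by norm_num)
  have hlim := tendsto_pow_const_mul_const_pow_of_abs_lt_one k (r := r) (by rw [abs_of_pos hr0]; exact hr1)
  have hpos : 0 < r / (2 * Cb * 2 ^ k) := by positivity
  have hev := hlim.eventually (gt_mem_nhds hpos)
  obtain ⟨N, hN⟩ := Filter.eventually_atTop.1 hev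
  refine ⟨N + 1, Nat.succ_pos N, ?_⟩
  set n : ℕ := 2 ^ (d * N) with hn
  have h2N : 2 ^ N ≤ n := Nat.pow_le_pow_right (by norm_num) (Nat.le_mul_of_pos_left N hd)
  have hnN : N ≤ n := (Nat.lt_two_pow_self).le.trans h2N
  have hn1 : 1 ≤ n := Nat.one_le_two_pow
  have h1 : (n : ℝ) ^ k * r ^ n < r / (2 * Cb * 2 ^ k) := hN n hnN
  have h2 : (2 : ℝ) ^ (a * ((N + 1 : ℕ) : ℝ)) ≤ (2 * n : ℝ) ^ k := by
    calc (2 : ℝ) ^ (a * ((N + 1 : ℕ) : ℝ)) ≤ 2 ^ ((k : ℝ) * ((N + 1 : ℕ) : ℝ)) :=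
          Real.rpow_le_rpow_of_exponent_le (by norm_num) (mul_le_mul_of_nonneg_right hk (Nat.cast_nonneg _))
      _ = ((2 : ℝ) ^ (N + 1)) ^ k := by
          rw [← Nat.cast_mul, Real.rpow_natCast, ← pow_mul, mul_comm]
      _ ≤ (2 * n : ℝ) ^ k := by
          apply pow_le_pow_left₀ (by positivity)
          rw [pow_succ, mul_comm]
          have : ((2 ^ N : ℕ) : ℝ) ≤ (n : ℝ) := by exact_mod_cast h2N
          push_cast at this
          linarith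
  have h3 : (1 - c₀) ^ (n - 1) ≤ r ^ n / r := by
    calc (1 - c₀) ^ (n - 1) ≤ r ^ (n - 1) := pow_le_pow_left₀ (by linarith) (le_max_left _ _) _
      _ = r ^ n / r := by
          rw [eq_div_iff hr0.ne', ← pow_succ, Nat.sub_add_cancel hn1]
  have h4 : Cb * 2 ^ (a * ((N + 1 : ℕ) : ℝ)) * (1 - c₀) ^ (n - 1) ≤ Cb * (2 * n : ℝ) ^ k * (r ^ n / r) := by
    apply mul_le_mul (mul_le_mul_of_nonneg_left h2 hC.le) h3 (pow_nonneg (by linarith) _)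
    positivity
  have h5 : Cb * (2 * n : ℝ) ^ k * (r ^ n / r) = (Cb * 2 ^ k / r) * ((n : ℝ) ^ k * r ^ n) := by
    rw [mul_pow]; ring
  have h6 : (Cb * 2 ^ k / r) * ((n : ℝ) ^ k * r ^ n) ≤ (Cb * 2 ^ k / r) * (r / (2 * Cb * 2 ^ k)) :=
    mul_le_mul_of_nonneg_left h1.le (by positivity)
  have h7 : (Cb * 2 ^ k / r) * (r / (2 * Cb * 2 ^ k)) = 1 / 2 := by
    field_simp
  simp only [Nat.add_sub_cancel]
  linarith

variable {d : ℕ} {Ω : Type} [MeasurableSpace Ω] {P : Measure Ω} [IsProbabilityMeasure P] {X : ℕ → Ω → E d → ℝ}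

/-- Fix one parity class `e`: `TN m N z ≥ 2^(d m) ∑_{c ∈ Chp j z e} TT (cut m) N (cb (m+j) c)`; `bran` with exponent `-q` (`(-q)(-q-1) ≥ 0`); on the product space the variables `f c = TN (m+j) N c (ω c)` are independent,
`E f = 1`, `E f^p ≤ C` for some `p > 1` with `p γ^2 < 2 d` (`momp`), so `P(f ≥ 1/2) ≥ c₀ > 0` (`paley`), and `neg_sum` with `c₁ = 1/2`:
`E TN^(-q) ≤ C 2^((q^2+q) γ^2/2 j) 2^(d j q) (2^q + (1 - c₀)^(2^(d (j-1)) - 1) G)`; the coefficient of `G` tends to `0` as `j → ∞` (`d ≥ 1`) -/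
theorem momn_step (hX : CP d P X) (γ q : ℝ) (hq : 0 < q) (hγ : γ ^ 2 < 2 * d) : ∃ (t₀ j : ℕ) (B : ℝ), 0 < j ∧ 0 ≤ B ∧ ∀ m N : ℕ, t₀ ≤ m → cut P X (m + j) ≤ N → ∀ z ∈ Idx d m,
    ∀ G : ℝ, (∀ c ∈ Chd j z, ∫ ω, TN P X γ (m + j) N c ω ^ (-q) ∂P ≤ G) → ∫ ω, TN P X γ m N z ω ^ (-q) ∂P ≤ G / 2 + B := by
  classical
  have hd := hX.dpos
  -- the exponent `p`
  obtain ⟨p, hp1, hp2⟩ : ∃ p : ℝ, 1 < p ∧ p * γ ^ 2 < 2 * d := by
    have hg0 : 0 ≤ γ ^ 2 := sq_nonneg γ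
    refine ⟨1 + (2 * d - γ ^ 2) / (γ ^ 2 + 1), ?_, ?_⟩
    · have : 0 < (2 * d - γ ^ 2) / (γ ^ 2 + 1) := div_pos (by linarith) (by linarith)
      linarith
    · have h1 : (2 * d - γ ^ 2) / (γ ^ 2 + 1) * γ ^ 2 < 2 * d - γ ^ 2 := by
        rw [div_mul_eq_mul_div, div_lt_iff₀ (by linarith)]
        nlinarith
      linarith
  obtain ⟨Cp, t₁, hCp, hmomp⟩ := momp hX γ p hp1 hp2
  obtain ⟨c₀, hc0, hc1, hpal⟩ := paley p Cp hp1
  obtain ⟨Cb, t₂, hCb, hbran⟩ := bran hX γ (-q) (by nlinarith)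
  obtain ⟨j, hj, hcoef⟩ := momn_coef (((-q) ^ 2 - (-q)) * γ ^ 2 / 2 + d * q) Cb c₀ hCb hc0 hc1 d hd
  refine ⟨max t₁ t₂, j, Cb * 2 ^ (((-q) ^ 2 - (-q)) * γ ^ 2 / 2 * j) * (((2 : ℝ) ^ (d * j)) ^ q * (1 / 2) ^ (-q)), hj,
    by positivity, ?_⟩
  intro m N hm hN z hz G hG
  have hm1 : t₁ ≤ m + j := (le_max_left _ _).trans (hm.trans (Nat.le_add_right _ _))
  have hm2 : t₂ ≤ m := (le_max_right _ _).trans hm
  let e : V d := fun _ => 0
  have he : e ∈ Par d := by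
    rw [Par, Fintype.mem_piFinset]
    intro i
    exact Finset.mem_range.2 (by norm_num)
  have hcard : (Chp j z e).card = 2 ^ (d * (j - 1)) := Chp_card j hj z e he
  have hne : (Chp j z e).Nonempty := by
    rw [← Finset.card_pos, hcard]
    positivity
  have hsub : Chp j z e ⊆ Chd j z := Finset.filter_subset _ _
  obtain ⟨c1, hc1'⟩ := hne
  have : Nonempty ↥(Chp j z e) := ⟨⟨c1, hc1'⟩⟩
  have hG0 : 0 ≤ G := by
    refine le_trans (integral_nonneg fun ω => ?_) (hG c1 (hsub hc1'))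
    exact Real.rpow_nonneg ((tn_facts hX γ (m + j) N c1).2.1 ω).le _
  -- volumes
  have hvt : ∀ (m : ℕ) (c : V d), volume (cb m c) ≠ ⊤ := fun m c => by
    rw [cb_vol]; exact ENNReal.ofReal_ne_top
  have hv0 : ∀ (m : ℕ) (c : V d), volume (cb m c) ≠ 0 := fun m c => by
    rw [cb_vol]
    have : (0 : ℝ) < 1 / 2 ^ (d * m) := by positivity
    exact (ENNReal.ofReal_pos.2 this).ne'
  -- comparison with one class
  set S : Ω → ℝ := fun ω => 2 ^ (d * m) * ∑ c ∈ Chp j z e, TT P X γ (cut P X m) N (cb (m + j) c) ω with hS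
  have hTpos : ∀ c ω, 0 < TT P X γ (cut P X m) N (cb (m + j) c) ω := fun c ω =>
    tt_pos hX γ _ N ω _ (cb_meas _ _) (hvt _ _) (hv0 _ _)
  have hSle : ∀ ω, S ω ≤ TN P X γ m N z ω := by
    intro ω
    simp only [hS, TN]
    rw [tt_chd hX γ (cut P X m) N m j z ω, mul_comm]
    apply mul_le_mul_of_nonneg_right _ (by positivity)
    exact Finset.sum_le_sum_of_subset_of_nonneg hsub fun c _ _ => (hTpos c ω).le
  have hSge : ∀ ω, TT P X γ (cut P X m) N (cb (m + j) c1) ω ≤ S ω := by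
    intro ω
    have h1 : TT P X γ (cut P X m) N (cb (m + j) c1) ω ≤ ∑ c ∈ Chp j z e, TT P X γ (cut P X m) N (cb (m + j) c) ω :=
      Finset.single_le_sum (f := fun c => TT P X γ (cut P X m) N (cb (m + j) c) ω) (fun c _ => (hTpos c ω).le) hc1'
    have h2 : (1 : ℝ) ≤ 2 ^ (d * m) := one_le_pow₀ (by norm_num)
    have h3 : 0 ≤ ∑ c ∈ Chp j z e, TT P X γ (cut P X m) N (cb (m + j) c) ω := (hTpos c1 ω).le.trans h1
    simp only [hS]
    nlinarith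
  have hSpos : ∀ ω, 0 < S ω := fun ω => lt_of_lt_of_le (hTpos c1 ω) (hSge ω)
  have hanti : ∀ {x y : ℝ}, 0 < x → x ≤ y → y ^ (-q) ≤ x ^ (-q) := fun hx hxy =>
    Real.rpow_le_rpow_of_nonpos hx hxy (by linarith)
  have hSm : Measurable S := by
    refine Measurable.const_mul ?_ _
    exact Finset.measurable_fun_sum _ fun c _ => tt_meas hX γ _ N _ (hvt _ _)
  have hSint : Integrable (fun ω => S ω ^ (-q)) P := by
    refine (tt_pow hX γ (-q) (cut P X m) N (cb (m + j) c1) (cb_meas _ _) (hvt _ _) (hv0 _ _)).mono'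
      (hSm.pow_const _).aestronglyMeasurable (Filter.Eventually.of_forall fun ω => ?_)
    rw [Real.norm_of_nonneg (Real.rpow_nonneg (hSpos ω).le _)]
    exact hanti (hTpos c1 ω) (hSge ω)
  have hstep1 : ∫ ω, TN P X γ m N z ω ^ (-q) ∂P ≤ ∫ ω, S ω ^ (-q) ∂P :=
    integral_mono ((tn_facts hX γ m N z).2.2.2 (-q)) hSint fun ω => hanti (hSpos ω) (hSle ω)
  have hstep2 := hbran m j N hm2 hj hN z hz e he
  -- the product space
  let Q : Measure (↥(Chp j z e) → Ω) := Measure.pi fun _ : ↥(Chp j z e) => P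
  let f : ↥(Chp j z e) → (↥(Chp j z e) → Ω) → ℝ := fun c ω => TN P X γ (m + j) N c (ω c)
  have hmp : ∀ c : ↥(Chp j z e), MeasurePreserving (Function.eval c) Q P := fun c =>
    measurePreserving_eval (fun _ : ↥(Chp j z e) => P) c
  have hfm : ∀ c, Measurable (f c) := fun c =>
    (tn_facts hX γ (m + j) N c).1.comp (measurable_pi_apply c)
  have hf0 : ∀ c ω, 0 < f c ω := fun c ω => (tn_facts hX γ (m + j) N c).2.1 _
  have hfi : iIndepFun f Q :=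
    iIndepFun_pi (μ := fun _ : ↥(Chp j z e) => P) (X := fun (c : ↥(Chp j z e)) (ω : Ω) => TN P X γ (m + j) N c ω)
      fun c => (tn_facts hX γ (m + j) N c).1.aemeasurable
  have hfq : ∀ c, Integrable (fun ω => f c ω ^ (-q)) Q := fun c =>
    (hmp c).integrable_comp_of_integrable ((tn_facts hX γ (m + j) N c).2.2.2 (-q))
  have hfint : ∀ c : ↥(Chp j z e), ∫ ω, f c ω ^ (-q) ∂Q ≤ G := by
    intro c
    have hgen : ∀ g : Ω → ℝ, Measurable g → ∫ ω, g (ω c) ∂Q = ∫ ω, g ω ∂P := by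
      intro g hg
      conv_rhs => rw [← (hmp c).map_eq]
      rw [integral_map (hmp c).measurable.aemeasurable hg.aestronglyMeasurable]
    have h1 : ∫ ω, f c ω ^ (-q) ∂Q = ∫ ω, TN P X γ (m + j) N c ω ^ (-q) ∂P :=
      hgen (fun ω => TN P X γ (m + j) N c ω ^ (-q)) ((tn_facts hX γ (m + j) N c).1.pow_const _)
    rw [h1]
    exact hG c (hsub c.2)
  have hfp : ∀ c : ↥(Chp j z e), c₀ ≤ Q.real {ω | 1 / 2 ≤ f c ω} := by
    intro c
    have hcI : (c : V d) ∈ Idx d (m + j) := Chd_Idx m j z c hz (hsub c.2)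
    have h1 := hpal Ω P (TN P X γ (m + j) N c) (tn_facts hX γ (m + j) N c).1
      (fun ω => ((tn_facts hX γ (m + j) N c).2.1 ω).le) (tn_facts hX γ (m + j) N c).2.2.1
      ((tn_facts hX γ (m + j) N c).2.2.2 p) (hmomp (m + j) N hm1 hN c hcI)
    have h2 : Q.real {ω | 1 / 2 ≤ f c ω} = P.real {ω | 1 / 2 ≤ TN P X γ (m + j) N c ω} := by
      have hms : MeasurableSet {ω | 1 / 2 ≤ TN P X γ (m + j) N c ω} :=
        measurableSet_le measurable_const (tn_facts hX γ (m + j) N c).1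
      have h3 := (hmp c).measure_preimage hms.nullMeasurableSet
      unfold Measure.real
      rw [← h3]
      rfl
    rw [h2]
    exact h1
  obtain ⟨hI, hneg⟩ := neg_sum q hq (↥(Chp j z e) → Ω) Q ↥(Chp j z e) f hfm hf0 hfi hfq c₀ (1 / 2) G (by norm_num) hc0.le
    hc1 hfp hfint
  have hcard' : Fintype.card ↥(Chp j z e) = 2 ^ (d * (j - 1)) := by
    rw [Fintype.card_coe, hcard]
  rw [hcard'] at hneg
  have hscale : ∫ ω, (1 / 2 ^ (d * j) * ∑ c : ↥(Chp j z e), TN P X γ (m + j) N c (ω c)) ^ (-q) ∂Q =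
      ((2 : ℝ) ^ (d * j)) ^ q * ∫ ω, (∑ c, f c ω) ^ (-q) ∂Q := by
    rw [← integral_const_mul]
    refine integral_congr_ae (Filter.Eventually.of_forall fun ω => ?_)
    have h1 : 0 ≤ ∑ c, f c ω := Finset.sum_nonneg fun c _ => (hf0 c ω).le
    show (1 / 2 ^ (d * j) * ∑ c, f c ω) ^ (-q) = ((2 : ℝ) ^ (d * j)) ^ q * (∑ c, f c ω) ^ (-q)
    rw [Real.mul_rpow (by positivity) h1]
    congr 1
    rw [one_div, Real.inv_rpow (by positivity), Real.rpow_neg (by positivity), inv_inv]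
  have hA0 : 0 ≤ Cb * 2 ^ (((-q) ^ 2 - (-q)) * γ ^ 2 / 2 * j) := by positivity
  have hfin : ∫ ω, S ω ^ (-q) ∂P ≤ Cb * 2 ^ (((-q) ^ 2 - (-q)) * γ ^ 2 / 2 * j) *
      (((2 : ℝ) ^ (d * j)) ^ q * ((1 / 2) ^ (-q) + (1 - c₀) ^ (2 ^ (d * (j - 1)) - 1) * G)) := by
    refine hstep2.trans ?_
    apply mul_le_mul_of_nonneg_left _ hA0
    show ∫ ω, (1 / 2 ^ (d * j) * ∑ c : ↥(Chp j z e), TN P X γ (m + j) N c (ω c)) ^ (-q) ∂Q ≤ _
    rw [hscale]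
    exact mul_le_mul_of_nonneg_left hneg (by positivity)
  have hco : Cb * 2 ^ (((-q) ^ 2 - (-q)) * γ ^ 2 / 2 * j) * (((2 : ℝ) ^ (d * j)) ^ q * ((1 - c₀) ^ (2 ^ (d * (j - 1)) - 1) * G)) ≤ G / 2 := by
    have h1 : ((2 : ℝ) ^ (d * j)) ^ q = 2 ^ ((d : ℝ) * q * j) := by
      rw [← Real.rpow_natCast, ← Real.rpow_mul (by norm_num)]
      congr 1
      push_cast
      ring
    have h2 : (2 : ℝ) ^ ((((-q) ^ 2 - (-q)) * γ ^ 2 / 2 + d * q) * j) =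
        2 ^ (((-q) ^ 2 - (-q)) * γ ^ 2 / 2 * j) * 2 ^ ((d : ℝ) * q * j) := by
      rw [← Real.rpow_add (by norm_num)]
      congr 1
      ring
    rw [h2] at hcoef
    rw [h1]
    calc Cb * 2 ^ (((-q) ^ 2 - (-q)) * γ ^ 2 / 2 * j) * (2 ^ ((d : ℝ) * q * j) * ((1 - c₀) ^ (2 ^ (d * (j - 1)) - 1) * G))
        = (Cb * (2 ^ (((-q) ^ 2 - (-q)) * γ ^ 2 / 2 * j) * 2 ^ ((d : ℝ) * q * j)) * (1 - c₀) ^ (2 ^ (d * (j - 1)) - 1)) * G := by ring
      _ ≤ 1 / 2 * G := mul_le_mul_of_nonneg_right hcoef hG0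
      _ = G / 2 := by ring
  calc ∫ ω, TN P X γ m N z ω ^ (-q) ∂P ≤ ∫ ω, S ω ^ (-q) ∂P := hstep1
    _ ≤ _ := hfin
    _ = Cb * 2 ^ (((-q) ^ 2 - (-q)) * γ ^ 2 / 2 * j) * (((2 : ℝ) ^ (d * j)) ^ q * ((1 - c₀) ^ (2 ^ (d * (j - 1)) - 1) * G)) +
        Cb * 2 ^ (((-q) ^ 2 - (-q)) * γ ^ 2 / 2 * j) * (((2 : ℝ) ^ (d * j)) ^ q * (1 / 2) ^ (-q)) := by ring
    _ ≤ G / 2 + Cb * 2 ^ (((-q) ^ 2 - (-q)) * γ ^ 2 / 2 * j) * (((2 : ℝ) ^ (d * j)) ^ q * (1 / 2) ^ (-q)) := by linarith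

/-- `recur`, `momb_cut`, `momn_step` -/
theorem momn (hX : CP d P X) (γ q : ℝ) (hq : 0 < q) (hγ : γ ^ 2 < 2 * d) : ∃ (C : ℝ) (t₀ : ℕ), 0 < C ∧ ∀ m N : ℕ, t₀ ≤ m → cut P X m ≤ N → ∀ z ∈ Idx d m,
    ∫ ω, TN P X γ m N z ω ^ (-q) ∂P ≤ C := by
  obtain ⟨t₁, j, B, hj, hB, hstep⟩ := momn_step hX γ q hq hγ
  obtain ⟨C, t₂, hC, hbase⟩ := momb_cut hX γ (-q) (Or.inr (by linarith)) j
  refine ⟨C + 2 * B, max t₁ t₂, by linarith, ?_⟩
  exact recur (cut P X) (cut_mono hX) (cut_tendsto hX) (max t₁ t₂) j hj B C hB hC.le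
    (fun m N z => ∫ ω, TN P X γ m N z ω ^ (-q) ∂P)
    (fun m N hm h1 h2 z hz => hbase m N ((le_max_right _ _).trans hm) h1 h2 z hz)
    (fun m N hm h1 z hz G hG => hstep m N ((le_max_left _ _).trans hm) h1 z hz G hG)

end Pool.Agent.MChaos
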