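import Mathlib

/-!
# Piece ROS: Rosenthal's inequality for nonnegative variables
-/

set_option autoImplicit false

open MeasureTheory ProbabilityTheory

namespace Pool.Agent.MChaos

/-- `S = ∑ f i`, `S_i = S - f i` independent of `f i` (`iIndepFun.indepFun_finsetSum_of_notMem` or similar): `E S^p = ∑ E f_i S^(p-1) ≤ 2^(p-1) ∑ (E f_i^p + E f_i E S_i^(p-1)) ≤ 2^(p-1) (A + B E S^(p-1))`,
`A = ∑ E f_i^p`, `B = ∑ E f_i`, `E S^(p-1) ≤ (E S^p)^((p-1)/p)`, and Young: `2^(p-1) B y^((p-1)/p) ≤ y / 2 + C_p B^p`, `y = E S^p < ∞`. For `p = 1` trivial. -/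
theorem rosenthal (p : ℝ) (hp : 1 ≤ p) : ∃ C : ℝ, 0 < C ∧ ∀ (Ω : Type) [MeasurableSpace Ω] (P : Measure Ω) [IsProbabilityMeasure P] (ι : Type) [Fintype ι] [DecidableEq ι] (f : ι → Ω → ℝ),
    (∀ i, Measurable (f i)) → (∀ i ω, 0 ≤ f i ω) → iIndepFun f P → (∀ i, Integrable (fun ω => f i ω ^ p) P) →
      Integrable (fun ω => (∑ i, f i ω) ^ p) P ∧ ∫ ω, (∑ i, f i ω) ^ p ∂P ≤ C * (∑ i, ∫ ω, f i ω ^ p ∂P + (∑ i, ∫ ω, f i ω ∂P) ^ p) := by
  have hp0 : 0 ≤ p - 1 := by linarith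
  set K : ℝ := 2 ^ (p - 1) with hK
  have hK0 : 0 < K := Real.rpow_pos_of_pos (by norm_num) _
  set D : ℝ := K * (2 * K) ^ (p - 1) with hD
  have hD0 : 0 < D := mul_pos hK0 (Real.rpow_pos_of_pos (by linarith) _)
  -- `s * s ^ (p-1) = s ^ p`
  have hmul : ∀ s : ℝ, 0 ≤ s → s * s ^ (p - 1) = s ^ p := by
    intro s hs
    rcases hs.eq_or_lt with h | h
    · rw [← h, zero_mul, Real.zero_rpow (by linarith)]
    · rw [← Real.rpow_one_add' hs (by linarith)]
      congr 1; ring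
  -- quasi triangle inequality
  have hadd : ∀ a b : ℝ, 0 ≤ a → 0 ≤ b → (a + b) ^ (p - 1) ≤ K * (a ^ (p - 1) + b ^ (p - 1)) := by
    intro a b ha hb
    have h1 : a + b ≤ 2 * max a b := by
      have := le_max_left a b
      have := le_max_right a b
      linarith
    have hm : 0 ≤ max a b := le_trans ha (le_max_left a b)
    calc (a + b) ^ (p - 1) ≤ (2 * max a b) ^ (p - 1) := Real.rpow_le_rpow (by linarith) h1 hp0
      _ = K * (max a b) ^ (p - 1) := by rw [Real.mul_rpow (by norm_num) hm]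
      _ ≤ K * (a ^ (p - 1) + b ^ (p - 1)) := by
        apply mul_le_mul_of_nonneg_left _ hK0.le
        have h2 := Real.rpow_nonneg ha (p - 1)
        have h3 := Real.rpow_nonneg hb (p - 1)
        rcases max_choice a b with h | h <;> rw [h] <;> linarith
  -- pointwise Young inequality
  have hyoung : ∀ s B : ℝ, 0 ≤ s → 0 ≤ B → K * B * s ^ (p - 1) ≤ (1 / 2) * s ^ p + D * B ^ p := by
    intro s B hs hB
    have hsp : 0 ≤ s ^ p := Real.rpow_nonneg hs p
    have hBp : 0 ≤ B ^ p := Real.rpow_nonneg hB p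
    have hsp1 : 0 ≤ s ^ (p - 1) := Real.rpow_nonneg hs (p - 1)
    by_cases h : 2 * K * B ≤ s
    · have h1 : K * B * s ^ (p - 1) ≤ (1 / 2) * s * s ^ (p - 1) := mul_le_mul_of_nonneg_right (by linarith) hsp1
      rw [mul_assoc (1 / 2 : ℝ), hmul s hs] at h1
      have := mul_nonneg hD0.le hBp
      linarith
    · push Not at h
      have h1 : s ^ (p - 1) ≤ (2 * K * B) ^ (p - 1) := Real.rpow_le_rpow hs h.le hp0
      have h2 : K * B * s ^ (p - 1) ≤ K * B * (2 * K * B) ^ (p - 1) :=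
        mul_le_mul_of_nonneg_left h1 (mul_nonneg hK0.le hB)
      have h3 : K * B * (2 * K * B) ^ (p - 1) = D * B ^ p := by
        rw [Real.mul_rpow (by linarith : (0:ℝ) ≤ 2 * K) hB, ← hmul B hB, hD]
        ring
      linarith
  have hle1 : ∀ s : ℝ, 0 ≤ s → s ^ (p - 1) ≤ 1 + s ^ p := by
    intro s hs
    have hsp : 0 ≤ s ^ p := Real.rpow_nonneg hs p
    by_cases h : s ≤ 1
    · have := Real.rpow_le_one hs h hp0
      linarith
    · push Not at h
      have := Real.rpow_le_rpow_of_exponent_le h.le (by linarith : p - 1 ≤ p)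
      linarith
  have hle2 : ∀ s : ℝ, 0 ≤ s → s ≤ 1 + s ^ p := by
    intro s hs
    have hsp : 0 ≤ s ^ p := Real.rpow_nonneg hs p
    by_cases h : s ≤ 1
    · linarith
    · push Not at h
      have := Real.rpow_le_rpow_of_exponent_le h.le hp
      rw [Real.rpow_one] at this
      linarith
  refine ⟨2 * K + 2 * D, by linarith, ?_⟩
  intro Ω _ P _ ι _ _ f hm hnn hind hint
  have hS0 : ∀ ω, 0 ≤ ∑ i, f i ω := fun ω => Finset.sum_nonneg fun i _ => hnn i ω
  have hSm : Measurable (fun ω => ∑ i, f i ω) := Finset.measurable_fun_sum _ fun i _ => hm i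
  have hSp : Integrable (fun ω => (∑ i, f i ω) ^ p) P := by
    have hg : Integrable (fun ω => (Fintype.card ι : ℝ) ^ (p - 1) * ∑ i, f i ω ^ p) P :=
      (integrable_finsetSum _ fun i _ => hint i).const_mul _
    refine hg.mono' (hSm.pow_const p).aestronglyMeasurable (Filter.Eventually.of_forall fun ω => ?_)
    rw [Real.norm_of_nonneg (Real.rpow_nonneg (hS0 ω) p)]
    have h := Real.rpow_sum_le_const_mul_sum_rpow (Finset.univ : Finset ι) (fun i => f i ω) hp
    simp only [abs_of_nonneg (hnn _ ω)] at h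
    simpa using h
  refine ⟨hSp, ?_⟩
  have hSp1 : Integrable (fun ω => (∑ i, f i ω) ^ (p - 1)) P := by
    refine ((integrable_const (1:ℝ)).add hSp).mono' (hSm.pow_const _).aestronglyMeasurable (Filter.Eventually.of_forall fun ω => ?_)
    rw [Real.norm_of_nonneg (Real.rpow_nonneg (hS0 ω) _)]
    exact hle1 _ (hS0 ω)
  have hfi : ∀ i, Integrable (f i) P := by
    intro i
    refine ((integrable_const (1:ℝ)).add (hint i)).mono' (hm i).aestronglyMeasurable (Filter.Eventually.of_forall fun ω => ?_)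
    rw [Real.norm_of_nonneg (hnn i ω)]
    exact hle2 _ (hnn i ω)
  -- the sums without one term
  have hT0 : ∀ i ω, 0 ≤ ∑ j ∈ Finset.univ.erase i, f j ω := fun i ω => Finset.sum_nonneg fun j _ => hnn j ω
  have hTm : ∀ i, Measurable (fun ω => ∑ j ∈ Finset.univ.erase i, f j ω) := fun i => Finset.measurable_fun_sum _ fun j _ => hm j
  have hTS : ∀ i ω, ∑ j, f j ω = f i ω + ∑ j ∈ Finset.univ.erase i, f j ω := fun i ω =>
    (Finset.add_sum_erase Finset.univ (fun j => f j ω) (Finset.mem_univ i)).symm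
  have hTle : ∀ i ω, ∑ j ∈ Finset.univ.erase i, f j ω ≤ ∑ j, f j ω := fun i ω => by
    rw [hTS i ω]; linarith [hnn i ω]
  have hTp1 : ∀ i, Integrable (fun ω => (∑ j ∈ Finset.univ.erase i, f j ω) ^ (p - 1)) P := by
    intro i
    refine hSp1.mono' ((hTm i).pow_const _).aestronglyMeasurable (Filter.Eventually.of_forall fun ω => ?_)
    rw [Real.norm_of_nonneg (Real.rpow_nonneg (hT0 i ω) _)]
    exact Real.rpow_le_rpow (hT0 i ω) (hTle i ω) hp0
  have hindep : ∀ i, IndepFun (f i) (fun ω => (∑ j ∈ Finset.univ.erase i, f j ω) ^ (p - 1)) P := by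
    intro i
    have h1 : IndepFun (∑ j ∈ Finset.univ.erase i, f j) (f i) P :=
      hind.indepFun_finsetSum_of_notMem hm (Finset.notMem_erase i _)
    have h2 := h1.symm.comp (φ := id) (ψ := fun x : ℝ => x ^ (p - 1)) measurable_id (measurable_id.pow_const _)
    have h3 : ((fun x : ℝ => x ^ (p - 1)) ∘ (∑ j ∈ Finset.univ.erase i, f j)) = (fun ω => (∑ j ∈ Finset.univ.erase i, f j ω) ^ (p - 1)) := by
      funext ω
      simp [Finset.sum_apply]
    rw [h3] at h2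
    exact h2
  have hprodint : ∀ i, Integrable (fun ω => f i ω * (∑ j ∈ Finset.univ.erase i, f j ω) ^ (p - 1)) P := fun i =>
    (hindep i).integrable_mul (hfi i) (hTp1 i)
  have hprod : ∀ i, ∫ ω, f i ω * (∑ j ∈ Finset.univ.erase i, f j ω) ^ (p - 1) ∂P = (∫ ω, f i ω ∂P) * ∫ ω, (∑ j ∈ Finset.univ.erase i, f j ω) ^ (p - 1) ∂P := fun i =>
    (hindep i).integral_fun_mul_eq_mul_integral (hfi i).aestronglyMeasurable (hTp1 i).aestronglyMeasurable
  set B : ℝ := ∑ i, ∫ ω, f i ω ∂P with hB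
  have hB0 : 0 ≤ B := Finset.sum_nonneg fun i _ => integral_nonneg (hnn i)
  -- main estimate
  have hpt : ∀ ω, (∑ i, f i ω) ^ p ≤ ∑ i, K * (f i ω ^ p + f i ω * (∑ j ∈ Finset.univ.erase i, f j ω) ^ (p - 1)) := by
    intro ω
    rw [← hmul _ (hS0 ω), Finset.sum_mul]
    apply Finset.sum_le_sum
    intro i _
    have h1 := hadd (f i ω) (∑ j ∈ Finset.univ.erase i, f j ω) (hnn i ω) (hT0 i ω)
    rw [← hTS i ω] at h1
    calc f i ω * (∑ j, f j ω) ^ (p - 1) ≤ f i ω * (K * (f i ω ^ (p - 1) + (∑ j ∈ Finset.univ.erase i, f j ω) ^ (p - 1))) :=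
          mul_le_mul_of_nonneg_left h1 (hnn i ω)
      _ = K * (f i ω * f i ω ^ (p - 1) + f i ω * (∑ j ∈ Finset.univ.erase i, f j ω) ^ (p - 1)) := by ring
      _ = _ := by rw [hmul _ (hnn i ω)]
  have hint2 : ∀ i, Integrable (fun ω => K * (f i ω ^ p + f i ω * (∑ j ∈ Finset.univ.erase i, f j ω) ^ (p - 1))) P := fun i =>
    ((hint i).add (hprodint i)).const_mul K
  have hmain : ∫ ω, (∑ i, f i ω) ^ p ∂P ≤ K * ∑ i, ∫ ω, f i ω ^ p ∂P + K * B * ∫ ω, (∑ i, f i ω) ^ (p - 1) ∂P := by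
    calc ∫ ω, (∑ i, f i ω) ^ p ∂P ≤ ∫ ω, ∑ i, K * (f i ω ^ p + f i ω * (∑ j ∈ Finset.univ.erase i, f j ω) ^ (p - 1)) ∂P :=
          integral_mono hSp (integrable_finsetSum _ fun i _ => hint2 i) hpt
      _ = ∑ i, ∫ ω, K * (f i ω ^ p + f i ω * (∑ j ∈ Finset.univ.erase i, f j ω) ^ (p - 1)) ∂P :=
          integral_finsetSum _ fun i _ => hint2 i
      _ = ∑ i, K * (∫ ω, f i ω ^ p ∂P + (∫ ω, f i ω ∂P) * ∫ ω, (∑ j ∈ Finset.univ.erase i, f j ω) ^ (p - 1) ∂P) := by
          apply Finset.sum_congr rfl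
          intro i _
          rw [integral_const_mul, integral_add (hint i) (hprodint i), hprod i]
      _ ≤ ∑ i, K * (∫ ω, f i ω ^ p ∂P + (∫ ω, f i ω ∂P) * ∫ ω, (∑ i, f i ω) ^ (p - 1) ∂P) := by
          apply Finset.sum_le_sum
          intro i _
          apply mul_le_mul_of_nonneg_left _ hK0.le
          apply add_le_add le_rfl
          apply mul_le_mul_of_nonneg_left _ (integral_nonneg (hnn i))
          exact integral_mono (hTp1 i) hSp1 fun ω => Real.rpow_le_rpow (hT0 i ω) (hTle i ω) hp0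
      _ = K * ∑ i, ∫ ω, f i ω ^ p ∂P + K * B * ∫ ω, (∑ i, f i ω) ^ (p - 1) ∂P := by
          rw [← Finset.mul_sum, Finset.sum_add_distrib, ← Finset.sum_mul]
          ring
  have hy : K * B * ∫ ω, (∑ i, f i ω) ^ (p - 1) ∂P ≤ (1 / 2) * ∫ ω, (∑ i, f i ω) ^ p ∂P + D * B ^ p := by
    have h1 : ∫ ω, K * B * (∑ i, f i ω) ^ (p - 1) ∂P ≤ ∫ ω, ((1 / 2) * (∑ i, f i ω) ^ p + D * B ^ p) ∂P :=
      integral_mono (hSp1.const_mul _) ((hSp.const_mul _).add (integrable_const _)) fun ω => hyoung _ _ (hS0 ω) hB0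
    rw [integral_const_mul, integral_add (hSp.const_mul _) (integrable_const _), integral_const_mul] at h1
    simpa using h1
  have hA0 : 0 ≤ ∑ i, ∫ ω, f i ω ^ p ∂P := Finset.sum_nonneg fun i _ => integral_nonneg fun ω => Real.rpow_nonneg (hnn i ω) p
  have hBp : 0 ≤ B ^ p := Real.rpow_nonneg hB0 p
  have h5 : ∫ ω, (∑ i, f i ω) ^ p ∂P ≤ 2 * K * (∑ i, ∫ ω, f i ω ^ p ∂P) + 2 * D * B ^ p := by linarith
  have h6 : 0 ≤ D * (∑ i, ∫ ω, f i ω ^ p ∂P) := mul_nonneg hD0.le hA0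
  have h7 : 0 ≤ K * B ^ p := mul_nonneg hK0.le hBp
  nlinarith [h5, h6, h7]

end Pool.Agent.MChaos
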