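import Pool.Agent.Lib_MP_a91488.MOMB
import Pool.Agent.Lib_MP_a91488.ROS

/-!
# Piece MOMP: positive moments at all scales
-/

set_option autoImplicit false

open MeasureTheory ProbabilityTheory

namespace Pool.Agent.MChaos

variable {d : ℕ} {Ω : Type} [MeasurableSpace Ω] {P : Measure Ω} [IsProbabilityMeasure P] {X : ℕ → Ω → E d → ℝ}

theorem momp_arith (D D' p : ℝ) (a : ℕ) (hp : 1 < p) (hD : D = 2 ^ a) (hD' : 0 < D') (hle : D' ≤ D) :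
    (1 / D) ^ p * D' ≤ (2 : ℝ) ^ (-((a : ℝ) * (p - 1))) ∧ (1 / D) ^ p * D' ^ p ≤ 1 := by
  have hD0 : 0 < D := lt_of_lt_of_le hD' hle
  have h1 : (1 / D) ^ p = D ^ (-p) := by
    rw [one_div, Real.inv_rpow hD0.le, Real.rpow_neg hD0.le]
  constructor
  · have h2 : (1 / D) ^ p * D = (2 : ℝ) ^ (-((a : ℝ) * (p - 1))) := by
      rw [h1]
      nth_rewrite 2 [← Real.rpow_one D]
      rw [← Real.rpow_add hD0, hD, ← Real.rpow_natCast, ← Real.rpow_mul (by norm_num)]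
      congr 1
      ring
    rw [← h2]
    exact mul_le_mul_of_nonneg_left hle (Real.rpow_nonneg (by positivity) _)
  · rw [← Real.mul_rpow (by positivity) hD'.le]
    apply Real.rpow_le_one (by positivity) _ (by linarith)
    rw [one_div, inv_mul_le_iff₀ hD0, mul_one]
    exact hle

/-- one parity class -/
theorem momp_cell (hX : CP d P X) (γ p : ℝ) (hp : 1 < p) : ∃ (K : ℝ) (t₀ : ℕ), 0 < K ∧ ∀ m j N : ℕ, t₀ ≤ m → 0 < j → cut P X (m + j) ≤ N → ∀ z ∈ Idx d m,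
    ∀ G : ℝ, (∀ c ∈ Chd j z, ∫ ω, TN P X γ (m + j) N c ω ^ p ∂P ≤ G) → ∀ e ∈ Par d,
      ∫ ω, (2 ^ (d * m) * ∑ c ∈ Chp j z e, TT P X γ (cut P X m) N (cb (m + j) c) ω) ^ p ∂P ≤
        K * (2 ^ ((p ^ 2 - p) * γ ^ 2 / 2 * j) * ((2 : ℝ) ^ (-(((d * j : ℕ) : ℝ) * (p - 1))) * G + 1)) := by
  obtain ⟨C1, t₀, hC1, hbr⟩ := bran hX γ p (by nlinarith)
  obtain ⟨C2, hC2, hros⟩ := rosenthal p hp.le
  refine ⟨C1 * C2, t₀, by positivity, ?_⟩
  intro m j N hm hj hN z hz G hG e he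
  refine (hbr m j N hm hj hN z hz e he).trans ?_
  have hfa : ∀ c : V d, _ := fun c => tn_facts hX γ (m + j) N c
  have hcard : Fintype.card ↥(Chp j z e) = 2 ^ (d * (j - 1)) := by
    rw [Fintype.card_coe]
    exact Chp_card j hj z e he
  have hsub : ∀ c : ↥(Chp j z e), (c : V d) ∈ Chd j z := fun c => (Finset.mem_filter.1 c.2).1
  -- the product space
  have hev : ∀ c : ↥(Chp j z e), ∀ q : ℝ, Integrable (fun ω : (↥(Chp j z e) → Ω) => TN P X γ (m + j) N c (ω c) ^ q) (Measure.pi fun _ : ↥(Chp j z e) => P) ∧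
      ∫ ω : (↥(Chp j z e) → Ω), TN P X γ (m + j) N c (ω c) ^ q ∂(Measure.pi fun _ : ↥(Chp j z e) => P) = ∫ ω, TN P X γ (m + j) N c ω ^ q ∂P := by
    intro c q
    have hi := (hfa c).2.2.2 q
    exact ⟨integrable_comp_eval (μ := fun _ : ↥(Chp j z e) => P) (i := c) hi,
      integral_comp_eval (μ := fun _ : ↥(Chp j z e) => P) (i := c) hi.aestronglyMeasurable⟩
  have hev1 : ∀ c : ↥(Chp j z e), ∫ ω : (↥(Chp j z e) → Ω), TN P X γ (m + j) N c (ω c) ∂(Measure.pi fun _ : ↥(Chp j z e) => P) = 1 := by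
    intro c
    have h := (hev c 1).2
    simp only [Real.rpow_one] at h
    rw [h]
    exact (hfa c).2.2.1
  have hind : iIndepFun (fun (c : ↥(Chp j z e)) (ω : ↥(Chp j z e) → Ω) => TN P X γ (m + j) N c (ω c)) (Measure.pi fun _ : ↥(Chp j z e) => P) :=
    iIndepFun_pi (μ := fun _ : ↥(Chp j z e) => P) (X := fun (c : ↥(Chp j z e)) (ω : Ω) => TN P X γ (m + j) N c ω)
      (fun c => (hfa c).1.aemeasurable)
  obtain ⟨hI, h2⟩ := hros (↥(Chp j z e) → Ω) (Measure.pi fun _ : ↥(Chp j z e) => P) ↥(Chp j z e)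
    (fun c ω => TN P X γ (m + j) N c (ω c)) (fun c => (hfa c).1.comp (measurable_pi_apply c))
    (fun c ω => ((hfa c).2.1 _).le) hind (fun c => (hev c p).1)
  have hS0 : ∀ ω : (↥(Chp j z e) → Ω), 0 ≤ ∑ c : ↥(Chp j z e), TN P X γ (m + j) N c (ω c) := fun ω =>
    Finset.sum_nonneg fun c _ => ((hfa c).2.1 _).le
  have h3 : ∫ ω, (1 / 2 ^ (d * j) * ∑ c : ↥(Chp j z e), TN P X γ (m + j) N c (ω c)) ^ p ∂(Measure.pi fun _ : ↥(Chp j z e) => P) =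
      (1 / 2 ^ (d * j)) ^ p * ∫ ω, (∑ c : ↥(Chp j z e), TN P X γ (m + j) N c (ω c)) ^ p ∂(Measure.pi fun _ : ↥(Chp j z e) => P) := by
    rw [← integral_const_mul]
    congr 1
    funext ω
    exact Real.mul_rpow (by positivity) (hS0 ω)
  have hG0 : 0 ≤ G := by
    have hne : (Chd j z).Nonempty := by
      rw [← Finset.card_pos, Chd_card]
      positivity
    obtain ⟨c, hc⟩ := hne
    exact le_trans (integral_nonneg fun ω => Real.rpow_nonneg ((hfa c).2.1 ω).le _) (hG c hc)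
  have h4 : ∑ c : ↥(Chp j z e), ∫ ω : (↥(Chp j z e) → Ω), TN P X γ (m + j) N c (ω c) ^ p ∂(Measure.pi fun _ : ↥(Chp j z e) => P) ≤ 2 ^ (d * (j - 1)) * G := by
    calc _ ≤ ∑ _c : ↥(Chp j z e), G := Finset.sum_le_sum fun c _ => by
            rw [(hev c p).2]
            exact hG c (hsub c)
      _ = 2 ^ (d * (j - 1)) * G := by
            rw [Finset.sum_const, Finset.card_univ, hcard, nsmul_eq_mul]
            push_cast
            ring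
  have h5 : ∑ c : ↥(Chp j z e), ∫ ω : (↥(Chp j z e) → Ω), TN P X γ (m + j) N c (ω c) ∂(Measure.pi fun _ : ↥(Chp j z e) => P) = 2 ^ (d * (j - 1)) := by
    rw [Finset.sum_congr rfl fun c _ => hev1 c, Finset.sum_const, Finset.card_univ, hcard, nsmul_eq_mul]
    push_cast
    ring
  have hle : (2 : ℝ) ^ (d * (j - 1)) ≤ 2 ^ (d * j) := by
    apply pow_le_pow_right₀ (by norm_num)
    apply Nat.mul_le_mul_left
    omega
  obtain ⟨a1, a2⟩ := momp_arith (2 ^ (d * j)) (2 ^ (d * (j - 1))) p (d * j) hp rfl (by positivity) hle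
  rw [h3]
  have h6 : ∫ ω, (∑ c : ↥(Chp j z e), TN P X γ (m + j) N c (ω c)) ^ p ∂(Measure.pi fun _ : ↥(Chp j z e) => P) ≤
      C2 * (2 ^ (d * (j - 1)) * G + (2 ^ (d * (j - 1))) ^ p) := by
    refine h2.trans ?_
    rw [h5]
    apply mul_le_mul_of_nonneg_left _ hC2.le
    linarith [h4]
  have h7 : (1 / 2 ^ (d * j) : ℝ) ^ p * ∫ ω, (∑ c : ↥(Chp j z e), TN P X γ (m + j) N c (ω c)) ^ p ∂(Measure.pi fun _ : ↥(Chp j z e) => P) ≤
      C2 * ((2 : ℝ) ^ (-(((d * j : ℕ) : ℝ) * (p - 1))) * G + 1) := by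
    have hq : 0 ≤ (1 / 2 ^ (d * j) : ℝ) ^ p := Real.rpow_nonneg (by positivity) _
    calc _ ≤ (1 / 2 ^ (d * j) : ℝ) ^ p * (C2 * (2 ^ (d * (j - 1)) * G + (2 ^ (d * (j - 1))) ^ p)) := mul_le_mul_of_nonneg_left h6 hq
      _ = C2 * (((1 / 2 ^ (d * j) : ℝ) ^ p * 2 ^ (d * (j - 1))) * G + (1 / 2 ^ (d * j) : ℝ) ^ p * (2 ^ (d * (j - 1))) ^ p) := by ring
      _ ≤ _ := by
        apply mul_le_mul_of_nonneg_left _ hC2.le
        exact add_le_add (mul_le_mul_of_nonneg_right a1 hG0) a2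
  have h8 : 0 ≤ C1 * (2 : ℝ) ^ ((p ^ 2 - p) * γ ^ 2 / 2 * j) := mul_nonneg hC1.le (Real.rpow_nonneg (by norm_num) _)
  calc _ ≤ C1 * 2 ^ ((p ^ 2 - p) * γ ^ 2 / 2 * j) * (C2 * ((2 : ℝ) ^ (-(((d * j : ℕ) : ℝ) * (p - 1))) * G + 1)) := mul_le_mul_of_nonneg_left h7 h8
    _ = _ := by ring

/-- `TN m N z = 2^(d m) ∑_e ∑_{c ∈ Chp j z e} TT (cut m) N (cb (m+j) c)` (`tt_chd`, `sum_par`), power mean over the `2^d` classes `e`, `bran`, `rosenthal` on the product space (`iIndepFun_pi`) with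
`E TN = 1`, `Chp_card`: `E TN^p ≤ K 2^((p^2-p) γ^2/2 j) (2^(-d p j) 2^(d (j-1)) G + 1)`, where `G` bounds the `p`-th moments of the children. The exponent of `2^j` in front of `G` is `(p - 1)(p γ^2/2 - d) < 0`:
choose `j` so that the coefficient of `G` is at most `1/2` (note `G ≥ 0`). -/
theorem momp_step (hX : CP d P X) (γ p : ℝ) (hp : 1 < p) (hpγ : p * γ ^ 2 < 2 * d) : ∃ (t₀ j : ℕ) (B : ℝ), 0 < j ∧ 0 ≤ B ∧ ∀ m N : ℕ, t₀ ≤ m → cut P X (m + j) ≤ N → ∀ z ∈ Idx d m,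
    ∀ G : ℝ, (∀ c ∈ Chd j z, ∫ ω, TN P X γ (m + j) N c ω ^ p ∂P ≤ G) → ∫ ω, TN P X γ m N z ω ^ p ∂P ≤ G / 2 + B := by
  obtain ⟨K, t₀, hK, hcell⟩ := momp_cell hX γ p hp
  set L : ℝ := (2 ^ d : ℝ) ^ (p - 1) * (2 ^ d * K) with hL
  have hL0 : 0 < L := by
    have : (0 : ℝ) < (2 ^ d : ℝ) ^ (p - 1) := Real.rpow_pos_of_pos (by positivity) _
    positivity
  set a : ℝ := (p - 1) * (d - p * γ ^ 2 / 2) with ha
  have ha0 : 0 < a := mul_pos (by linarith) (by linarith)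
  have hy1 : (2 : ℝ) ^ (-a) < 1 := Real.rpow_lt_one_of_one_lt_of_neg (by norm_num) (by linarith)
  have hy0 : 0 < (2 : ℝ) ^ (-a) := Real.rpow_pos_of_pos (by norm_num) _
  obtain ⟨n, hn⟩ := exists_pow_lt_of_lt_one (show 0 < 1 / (2 * L) by positivity) hy1
  refine ⟨t₀, n + 1, L * 2 ^ ((p ^ 2 - p) * γ ^ 2 / 2 * ((n + 1 : ℕ) : ℝ)), Nat.succ_pos n,
    mul_nonneg hL0.le (Real.rpow_nonneg (by norm_num) _), ?_⟩
  intro m N hm hN z hz G hG
  set j := n + 1 with hj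
  have hfa : ∀ c : V d, _ := fun c => tn_facts hX γ (m + j) N c
  have hfm := tn_facts hX γ m N z
  have hG0 : 0 ≤ G := by
    have hne : (Chd j z).Nonempty := by
      rw [← Finset.card_pos, Chd_card]
      positivity
    obtain ⟨c, hc⟩ := hne
    exact le_trans (integral_nonneg fun ω => Real.rpow_nonneg ((hfa c).2.1 ω).le _) (hG c hc)
  -- the classes
  let Y : V d → Ω → ℝ := fun e ω => 2 ^ (d * m) * ∑ c ∈ Chp j z e, TT P X γ (cut P X m) N (cb (m + j) c) ω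
  have hfin : ∀ (k : ℕ) (c : V d), volume (cb k c) ≠ ⊤ := fun k c => by
    rw [cb_vol]; exact ENNReal.ofReal_ne_top
  have hY0 : ∀ e ω, 0 ≤ Y e ω := fun e ω =>
    mul_nonneg (by positivity) (Finset.sum_nonneg fun c _ => tt_nonneg hX γ _ _ ω _)
  have hYm : ∀ e, Measurable (Y e) := fun e =>
    (Finset.measurable_fun_sum _ fun c _ => tt_meas hX γ _ _ _ (hfin _ _)).const_mul _
  have hsum : ∀ ω, TN P X γ m N z ω = ∑ e ∈ Par d, Y e ω := by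
    intro ω
    show TT P X γ (cut P X m) N (cb m z) ω * 2 ^ (d * m) = ∑ e ∈ Par d, 2 ^ (d * m) * ∑ c ∈ Chp j z e, TT P X γ (cut P X m) N (cb (m + j) c) ω
    rw [← Finset.mul_sum, ← sum_par, ← tt_chd hX γ (cut P X m) N m j z ω, mul_comm]
  have hYle : ∀ e ∈ Par d, ∀ ω, Y e ω ≤ TN P X γ m N z ω := by
    intro e he ω
    rw [hsum ω]
    exact Finset.single_le_sum (f := fun e => Y e ω) (fun e _ => hY0 e ω) he
  have hYi : ∀ e ∈ Par d, Integrable (fun ω => Y e ω ^ p) P := by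
    intro e he
    refine (hfm.2.2.2 p).mono' ((hYm e).pow_const p).aestronglyMeasurable (Filter.Eventually.of_forall fun ω => ?_)
    rw [Real.norm_of_nonneg (Real.rpow_nonneg (hY0 e ω) p)]
    exact Real.rpow_le_rpow (hY0 e ω) (hYle e he ω) (by linarith)
  have h1 : ∫ ω, TN P X γ m N z ω ^ p ∂P ≤ (2 ^ d : ℝ) ^ (p - 1) * ∑ e ∈ Par d, ∫ ω, Y e ω ^ p ∂P := by
    rw [← integral_finsetSum _ hYi, ← integral_const_mul]
    apply integral_mono (hfm.2.2.2 p) ((integrable_finsetSum _ hYi).const_mul _)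
    intro ω
    show TN P X γ m N z ω ^ p ≤ (2 ^ d : ℝ) ^ (p - 1) * ∑ e ∈ Par d, Y e ω ^ p
    rw [hsum ω]
    have h := Real.rpow_sum_le_const_mul_sum_rpow_of_nonneg (Par d) (f := fun e => Y e ω) hp.le (fun e _ => hY0 e ω)
    rw [Par_card] at h
    push_cast at h
    exact h
  have h2 : ∑ e ∈ Par d, ∫ ω, Y e ω ^ p ∂P ≤ 2 ^ d * (K * (2 ^ ((p ^ 2 - p) * γ ^ 2 / 2 * j) * ((2 : ℝ) ^ (-(((d * j : ℕ) : ℝ) * (p - 1))) * G + 1))) := by
    calc _ ≤ ∑ _e ∈ Par d, (K * (2 ^ ((p ^ 2 - p) * γ ^ 2 / 2 * j) * ((2 : ℝ) ^ (-(((d * j : ℕ) : ℝ) * (p - 1))) * G + 1))) :=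
          Finset.sum_le_sum fun e he => hcell m j N hm (Nat.succ_pos n) hN z hz G hG e he
      _ = _ := by
          rw [Finset.sum_const, Par_card, nsmul_eq_mul]
          push_cast
          ring
  have h3 : (2 : ℝ) ^ ((p ^ 2 - p) * γ ^ 2 / 2 * j) * (2 : ℝ) ^ (-(((d * j : ℕ) : ℝ) * (p - 1))) = ((2 : ℝ) ^ (-a)) ^ j := by
    rw [← Real.rpow_add (by norm_num), ← Real.rpow_natCast ((2 : ℝ) ^ (-a)) j, ← Real.rpow_mul (by norm_num)]
    congr 1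
    rw [ha]
    push_cast
    ring
  have h4 : ((2 : ℝ) ^ (-a)) ^ j ≤ 1 / (2 * L) := by
    refine le_trans ?_ hn.le
    rw [hj, pow_succ]
    have : 0 < ((2 : ℝ) ^ (-a)) ^ n := by positivity
    nlinarith
  have h5 : L * ((2 : ℝ) ^ (-a)) ^ j ≤ 1 / 2 := by
    calc L * ((2 : ℝ) ^ (-a)) ^ j ≤ L * (1 / (2 * L)) := mul_le_mul_of_nonneg_left h4 hL0.le
      _ = 1 / 2 := by field_simp
  have h6 : 0 ≤ (2 ^ d : ℝ) ^ (p - 1) := Real.rpow_nonneg (by positivity) _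
  calc ∫ ω, TN P X γ m N z ω ^ p ∂P
      ≤ (2 ^ d : ℝ) ^ (p - 1) * (2 ^ d * (K * (2 ^ ((p ^ 2 - p) * γ ^ 2 / 2 * j) * ((2 : ℝ) ^ (-(((d * j : ℕ) : ℝ) * (p - 1))) * G + 1)))) :=
        h1.trans (mul_le_mul_of_nonneg_left h2 h6)
    _ = L * ((2 : ℝ) ^ ((p ^ 2 - p) * γ ^ 2 / 2 * j) * (2 : ℝ) ^ (-(((d * j : ℕ) : ℝ) * (p - 1)))) * G + L * 2 ^ ((p ^ 2 - p) * γ ^ 2 / 2 * (j : ℝ)) := by
        rw [hL]; ring
    _ = L * ((2 : ℝ) ^ (-a)) ^ j * G + L * 2 ^ ((p ^ 2 - p) * γ ^ 2 / 2 * (j : ℝ)) := by rw [h3]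
    _ ≤ 1 / 2 * G + L * 2 ^ ((p ^ 2 - p) * γ ^ 2 / 2 * (j : ℝ)) := by
        have := mul_le_mul_of_nonneg_right h5 hG0
        linarith
    _ = _ := by ring

/-- `recur`, `momb_cut`, `momp_step` -/
theorem momp (hX : CP d P X) (γ p : ℝ) (hp : 1 < p) (hpγ : p * γ ^ 2 < 2 * d) : ∃ (C : ℝ) (t₀ : ℕ), 0 < C ∧ ∀ m N : ℕ, t₀ ≤ m → cut P X m ≤ N → ∀ z ∈ Idx d m,
    ∫ ω, TN P X γ m N z ω ^ p ∂P ≤ C := by
  obtain ⟨t₁, j, B, hj, hB, hstep⟩ := momp_step hX γ p hp hpγ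
  obtain ⟨C, t₂, hC, hbase⟩ := momb_cut hX γ p (Or.inl hp.le) j
  refine ⟨C + 2 * B, max t₁ t₂, by linarith, ?_⟩
  exact recur (cut P X) (cut_mono hX) (cut_tendsto hX) (max t₁ t₂) j hj B C hB hC.le
    (fun m N z => ∫ ω, TN P X γ m N z ω ^ p ∂P)
    (fun m N hm h1 h2 z hz => hbase m N ((le_max_right _ _).trans hm) h1 h2 z hz)
    (fun m N hm h1 z hz G hG => hstep m N ((le_max_left _ _).trans hm) h1 z hz G hG)

end Pool.Agent.MChaos
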