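import Pool.Agent.Lib_MP_a91488.MRT

/-!
# Piece MUN: the measures `μ_n`
-/

set_option autoImplicit false

open MeasureTheory ProbabilityTheory Filter
open scoped Topology

namespace Pool.Agent.MChaos

variable {d : ℕ} {Ω : Type} [MeasurableSpace Ω] {P : Measure Ω} [IsProbabilityMeasure P] {X : ℕ → Ω → E d → ℝ}

/-- `prod_wt` for `Ico 0 N = range N` -/
theorem dens_eq (hX : CP d P X) (β : ℝ) (N : ℕ) (ω : Ω) (x : E d) : dens P X β N ω x = ∏ k ∈ Finset.Ico 0 N, wt P X β k ω x := by
  rw [prod_wt hX β 0 N ω x]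
  unfold dens SS
  rw [Finset.range_eq_Ico]

private theorem mun_pos (hX : CP d P X) (β : ℝ) (N : ℕ) (ω : Ω) (x : E d) : 0 < dens P X β N ω x := by
  rw [dens_eq hX]
  exact Finset.prod_pos fun k _ => wt_pos hX β k ω x

private theorem mun_meas (hX : CP d P X) (β : ℝ) (N : ℕ) (ω : Ω) : Measurable (fun x : E d => dens P X β N ω x) := by
  have h : Measurable (fun p : Ω × E d => ∏ k ∈ Finset.Ico 0 N, wt P X β k p.1 p.2) :=
    Finset.measurable_fun_prod _ fun k _ => wt_unc hX β k
  have h2 : Measurable (fun x : E d => ∏ k ∈ Finset.Ico 0 N, wt P X β k ω x) :=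
    h.comp (measurable_const.prodMk measurable_id)
  have h3 : (fun x : E d => dens P X β N ω x) = fun x : E d => ∏ k ∈ Finset.Ico 0 N, wt P X β k ω x := by
    funext x
    exact dens_eq hX β N ω x
  rw [h3]
  exact h2

private theorem mun_intg (hX : CP d P X) (β : ℝ) (N : ℕ) (ω : Ω) (A : Set (E d)) (hv : volume A ≠ ⊤) :
    IntegrableOn (fun x : E d => dens P X β N ω x) A := by
  have h3 : (fun x : E d => dens P X β N ω x) = fun x : E d => ∏ k ∈ Finset.Ico 0 N, wt P X β k ω x := by
    funext x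
    exact dens_eq hX β N ω x
  rw [h3]
  exact tt_integrable hX β 0 N ω A hv

theorem muN_fin (hX : CP d P X) (β : ℝ) (N : ℕ) (ω : Ω) : IsFiniteMeasure (muN P X β N ω) := by
  unfold muN
  refine isFiniteMeasure_withDensity_ofReal ?_
  have hv : volume (cube d) ≠ ⊤ := by
    rw [cube_vol]
    exact ENNReal.one_ne_top
  exact (mun_intg hX β N ω (cube d) hv).2

theorem muN_supp (β : ℝ) (N : ℕ) (ω : Ω) : muN P X β N ω (cube d)ᶜ = 0 := by
  unfold muN
  refine withDensity_absolutelyContinuous _ _ ?_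
  rw [Measure.restrict_apply cube_meas.compl]
  simp

/-- `integral_withDensity_eq_integral_toReal_smul` -/
theorem muN_int (hX : CP d P X) (β : ℝ) (N : ℕ) (ω : Ω) (f : E d → ℝ) : ∫ x, f x ∂(muN P X β N ω) = MF P X β f 0 N ω := by
  unfold muN MF
  rw [integral_withDensity_eq_integral_toReal_smul (mun_meas hX β N ω).ennreal_ofReal
    (Filter.Eventually.of_forall fun x => ENNReal.ofReal_lt_top)]
  refine integral_congr_ae (Filter.Eventually.of_forall fun x => ?_)
  show (ENNReal.ofReal (dens P X β N ω x)).toReal • f x = f x * ∏ k ∈ Finset.Ico 0 N, wt P X β k ω x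
  rw [ENNReal.toReal_ofReal (mun_pos hX β N ω x).le, dens_eq hX, smul_eq_mul, mul_comm]

theorem muN_real (hX : CP d P X) (β : ℝ) (N : ℕ) (ω : Ω) (A : Set (E d)) (hA : MeasurableSet A) : (muN P X β N ω).real A = TT P X β 0 N (A ∩ cube d) ω := by
  have hv : volume (A ∩ cube d) ≠ ⊤ := by
    refine ne_top_of_le_ne_top ?_ (measure_mono Set.inter_subset_right)
    rw [cube_vol]
    exact ENNReal.one_ne_top
  unfold muN Measure.real TT
  rw [withDensity_apply _ hA, Measure.restrict_restrict hA,
    ← ofReal_integral_eq_lintegral_ofReal (mun_intg hX β N ω (A ∩ cube d) hv)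
      (Filter.Eventually.of_forall fun x => (mun_pos hX β N ω x).le),
    ENNReal.toReal_ofReal (integral_nonneg fun x => (mun_pos hX β N ω x).le)]
  refine integral_congr_ae (Filter.Eventually.of_forall fun x => ?_)
  exact dens_eq hX β N ω x

end Pool.Agent.MChaos
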