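import Pool.Agent.Lib_MP_a91488.TAY

/-!
# Piece ONEA: average of one random weight
-/

set_option autoImplicit false

open MeasureTheory

namespace Pool.Agent.MChaos

variable {Ω D : Type} [MeasurableSpace Ω] [MeasurableSpace D] {P : Measure Ω} [IsProbabilityMeasure P] {w : Ω → D → ℝ} {a : D → ℝ} {s : ℝ} {M : ℝ → ℝ}

omit [IsProbabilityMeasure P] in
theorem onea_measD (hw : Wt P w a s M) (ω : Ω) : Measurable (w ω) :=
  hw.meas.comp measurable_prodMk_left

omit [IsProbabilityMeasure P] in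
theorem onea_measO (hw : Wt P w a s M) (x : D) : Measurable (fun ω => w ω x) :=
  hw.meas.comp measurable_prodMk_right

theorem onea_bern (p : ℝ) (hp : p ≤ 0 ∨ 1 ≤ p) {t : ℝ} (ht : 0 < t) : 1 + p * (t - 1) ≤ t ^ p := by
  rcases hp with hp | hp
  · have h1 : Real.log t ≤ t - 1 := Real.log_le_sub_one_of_pos ht
    have h2 : t ^ p = Real.exp (Real.log t * p) := Real.rpow_def_of_pos ht p
    have h3 : Real.log t * p + 1 ≤ Real.exp (Real.log t * p) := Real.add_one_le_exp _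
    rw [h2]
    nlinarith
  · have h := one_add_mul_self_le_rpow_one_add (s := t - 1) (by linarith) hp
    rwa [show 1 + (t - 1) = t by ring] at h

theorem onea_tan (p : ℝ) (hp : p ≤ 0 ∨ 1 ≤ p) {U v : ℝ} (hU : 0 < U) (hv : 0 < v) :
    U ^ p * (1 + p * (v / U - 1)) ≤ v ^ p := by
  have h1 := onea_bern p hp (div_pos hv hU)
  rw [Real.div_rpow hv.le hU.le] at h1
  have h2 : 0 < U ^ p := Real.rpow_pos_of_pos hU p
  calc U ^ p * (1 + p * (v / U - 1)) ≤ U ^ p * (v ^ p / U ^ p) :=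
        mul_le_mul_of_nonneg_left h1 h2.le
    _ = v ^ p := by field_simp

theorem onea_prod (hw : Wt P w a s M) (ρ : Measure D) [IsProbabilityMeasure ρ] (p : ℝ) :
    Integrable (fun z : Ω × D => w z.1 z.2 ^ p) (P.prod ρ) := by
  have hm : Measurable (fun z : Ω × D => w z.1 z.2 ^ p) := by
    have : Measurable (fun z : Ω × D => w z.1 z.2) := hw.meas
    exact this.pow_const p
  rw [integrable_prod_iff' hm.aestronglyMeasurable]
  refine ⟨Filter.Eventually.of_forall (fun x => (hw.mom x p).1), ?_⟩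
  have h1 : (fun y => ∫ x, ‖w x y ^ p‖ ∂P) = fun y => ∫ x, w x y ^ p ∂P := by
    ext y
    refine integral_congr_ae (Filter.Eventually.of_forall (fun x => ?_))
    exact Real.norm_of_nonneg (Real.rpow_nonneg (hw.pos x y).le p)
  have h2 : StronglyMeasurable (fun y => ∫ x, w x y ^ p ∂P) := by
    have h3 : StronglyMeasurable (Function.uncurry (fun (y : D) (x : Ω) => w x y ^ p)) :=
      (hm.comp measurable_swap).stronglyMeasurable
    exact h3.integral_prod_right
  show Integrable (fun y => ∫ x, ‖w x y ^ p‖ ∂P) ρ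
  rw [h1]
  refine Integrable.mono' (integrable_const (M p)) h2.aestronglyMeasurable
    (Filter.Eventually.of_forall (fun y => ?_))
  rw [Real.norm_of_nonneg (integral_nonneg (fun x => Real.rpow_nonneg (hw.pos x y).le p))]
  exact (hw.mom y p).2

theorem onea_int (hw : Wt P w a s M) (ρ : Measure D) [IsProbabilityMeasure ρ] (p : ℝ) :
    Integrable (fun ω => ∫ x, w ω x ^ p ∂ρ) P ∧ ∫ ω, ∫ x, w ω x ^ p ∂ρ ∂P ≤ M p := by
  have h := onea_prod hw ρ p
  refine ⟨h.integral_prod_left, ?_⟩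
  rw [integral_integral_swap (f := fun ω x => w ω x ^ p) h]
  have h2 : ∫ y, (∫ x, w x y ^ p ∂P) ∂ρ ≤ ∫ y, M p ∂ρ :=
    integral_mono h.integral_prod_right (integrable_const _) (fun y => (hw.mom y p).2)
  simpa using h2

theorem Wt.int_D (hw : Wt P w a s M) (ρ : Measure D) [IsFiniteMeasure ρ] (ω : Ω) : Integrable (w ω) ρ := by
  obtain ⟨B, hB⟩ := hw.bdd ω
  refine Integrable.mono' (integrable_const B) (onea_measD hw ω).aestronglyMeasurable
    (Filter.Eventually.of_forall (fun x => ?_))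
  rw [Real.norm_of_nonneg (hw.pos ω x).le]
  exact hB x

theorem Wt.U_pos (hw : Wt P w a s M) (ρ : Measure D) [IsProbabilityMeasure ρ] (ω : Ω) : 0 < ∫ x, w ω x ∂ρ := by
  rw [integral_pos_iff_support_of_nonneg (fun x => (hw.pos ω x).le) (hw.int_D ρ ω)]
  have : Function.support (fun x => w ω x) = Set.univ := by
    ext x
    simpa using (hw.pos ω x).ne'
  rw [this]
  simp

theorem Wt.U_meas (hw : Wt P w a s M) (ρ : Measure D) [IsProbabilityMeasure ρ] : Measurable (fun ω => ∫ x, w ω x ∂ρ) := by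
  have h : StronglyMeasurable (Function.uncurry w) := hw.meas.stronglyMeasurable
  exact h.integral_prod_right.measurable

theorem onea_mom_aux (hw : Wt P w a s M) (ρ : Measure D) [IsProbabilityMeasure ρ] (p : ℝ)
    (hp : p ≤ 0 ∨ 1 ≤ p) (hM : 0 ≤ M p) :
    Integrable (fun ω => (∫ x, w ω x ∂ρ) ^ p) P ∧ ∫ ω, (∫ x, w ω x ∂ρ) ^ p ∂P ≤ M p + 2 := by
  have hU : ∀ ω, 0 < ∫ x, w ω x ∂ρ := hw.U_pos ρ
  have hUm : Measurable (fun ω => (∫ x, w ω x ∂ρ) ^ p) := (hw.U_meas ρ).pow_const p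
  have hpr := onea_prod hw ρ p
  have hae : ∀ᵐ ω ∂P, Integrable (fun x => w ω x ^ p) ρ := hpr.prod_right_ae
  obtain ⟨hi, hb⟩ := onea_int hw ρ p
  have hle : ∀ᵐ ω ∂P, (∫ x, w ω x ∂ρ) ^ p ≤ ∫ x, w ω x ^ p ∂ρ := by
    filter_upwards [hae] with ω hω
    have hwi := hw.int_D ρ ω
    have h1 : Integrable (fun x => (∫ x, w ω x ∂ρ) ^ p *
        (1 + p * (w ω x / (∫ x, w ω x ∂ρ) - 1))) ρ :=
      ((integrable_const (1 : ℝ)).add
        (((hwi.div_const _).sub (integrable_const 1)).const_mul p)).const_mul _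
    have h2 := integral_mono h1 hω (fun x => onea_tan p hp (hU ω) (hw.pos ω x))
    refine le_trans (le_of_eq ?_) h2
    have h3 : Integrable (fun x => w ω x / (∫ x, w ω x ∂ρ)) ρ := hwi.div_const _
    have h4 : Integrable (fun x => w ω x / (∫ x, w ω x ∂ρ) - 1) ρ := h3.sub (integrable_const 1)
    rw [integral_const_mul, integral_add (integrable_const 1) (h4.const_mul p),
      integral_const_mul, integral_sub h3 (integrable_const 1), integral_div]
    rw [div_self (hU ω).ne']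
    simp
  have hI : Integrable (fun ω => (∫ x, w ω x ∂ρ) ^ p) P := by
    refine Integrable.mono' hi hUm.aestronglyMeasurable ?_
    filter_upwards [hle] with ω hω
    rw [Real.norm_of_nonneg (Real.rpow_nonneg (hU ω).le p)]
    exact hω
  refine ⟨hI, ?_⟩
  have := integral_mono_ae hI hi hle
  linarith

/-- `p ≥ 1` or `p ≤ 0`: Jensen, `U ^ p ≤ ∫ w ^ p dρ`, and Fubini; otherwise `U ^ p ≤ 1 + U` -/
theorem Wt.U_mom (hw : Wt P w a s M) (ρ : Measure D) [IsProbabilityMeasure ρ] (p : ℝ) :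
    Integrable (fun ω => (∫ x, w ω x ∂ρ) ^ p) P ∧ ∫ ω, (∫ x, w ω x ∂ρ) ^ p ∂P ≤ M p + 2 := by
  have hU : ∀ ω, 0 < ∫ x, w ω x ∂ρ := hw.U_pos ρ
  have hUm : Measurable (fun ω => (∫ x, w ω x ∂ρ) ^ p) := (hw.U_meas ρ).pow_const p
  obtain ⟨x0⟩ : Nonempty D := nonempty_of_isProbabilityMeasure ρ
  have hM : 0 ≤ M p := le_trans (integral_nonneg (fun ω => Real.rpow_nonneg (hw.pos ω x0).le p))
    (hw.mom x0 p).2
  rcases le_or_gt p 0 with hp0 | hp0
  · exact onea_mom_aux hw ρ p (Or.inl hp0) hM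
  rcases le_or_gt 1 p with hp1 | hp1
  · exact onea_mom_aux hw ρ p (Or.inr hp1) hM
  have hU1 : Integrable (fun ω => ∫ x, w ω x ∂ρ) P := by
    have := (onea_int hw ρ 1).1
    simpa using this
  have hU2 : ∫ ω, ∫ x, w ω x ∂ρ ∂P = 1 := by
    have h1 := onea_prod hw ρ 1
    simp only [Real.rpow_one] at h1
    rw [integral_integral_swap (f := fun ω x => w ω x) h1]
    simp [hw.mean]
  have hle : ∀ ω, (∫ x, w ω x ∂ρ) ^ p ≤ 1 + ∫ x, w ω x ∂ρ := by
    intro ω
    rcases le_or_gt (∫ x, w ω x ∂ρ) 1 with h | h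
    · have := Real.rpow_le_one (hU ω).le h hp0.le
      linarith [hU ω]
    · have := Real.rpow_le_rpow_of_exponent_le h.le hp1.le
      rw [Real.rpow_one] at this
      linarith
  have hint : Integrable (fun ω => 1 + ∫ x, w ω x ∂ρ) P := (integrable_const 1).add hU1
  have hI : Integrable (fun ω => (∫ x, w ω x ∂ρ) ^ p) P := by
    refine Integrable.mono' hint hUm.aestronglyMeasurable (Filter.Eventually.of_forall (fun ω => ?_))
    rw [Real.norm_of_nonneg (Real.rpow_nonneg (hU ω).le p)]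
    exact hle ω
  refine ⟨hI, ?_⟩
  have h3 := integral_mono hI hint hle
  rw [integral_add (integrable_const 1) hU1, hU2] at h3
  simp only [integral_const, probReal_univ, smul_eq_mul, mul_one] at h3
  linarith

/-- products: Hölder / AM-GM -/
theorem Wt.U_prod (hw : Wt P w a s M) (ρ : Measure D) [IsProbabilityMeasure ρ] (p : ℝ) (x y : D) :
    Integrable (fun ω => (∫ z, w ω z ∂ρ) ^ p * (w ω x * w ω y)) P ∧ Integrable (fun ω => (∫ z, w ω z ∂ρ) ^ p * w ω x) P := by
  have hU : ∀ ω, 0 < ∫ x, w ω x ∂ρ := hw.U_pos ρ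
  have hUm : Measurable (fun ω => (∫ x, w ω x ∂ρ) ^ p) := (hw.U_meas ρ).pow_const p
  have hU2 := (hw.U_mom ρ (2 * p)).1
  have hsq : ∀ ω, ((∫ z, w ω z ∂ρ) ^ p) ^ 2 = (∫ z, w ω z ∂ρ) ^ (2 * p) := by
    intro ω
    rw [mul_comm, Real.rpow_mul (hU ω).le, Real.rpow_two]
  have h4 : ∀ x : D, Integrable (fun ω => w ω x ^ 4) P := by
    intro x
    have := (hw.mom x ((4 : ℕ) : ℝ)).1
    simpa only [Real.rpow_natCast] using this
  have h2 : ∀ x : D, Integrable (fun ω => w ω x ^ 2) P := by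
    intro x
    have := (hw.mom x ((2 : ℕ) : ℝ)).1
    simpa only [Real.rpow_natCast] using this
  constructor
  · refine Integrable.mono' ((hU2.add (h4 x)).add (h4 y))
      (hUm.mul ((onea_measO hw x).mul (onea_measO hw y))).aestronglyMeasurable
      (Filter.Eventually.of_forall (fun ω => ?_))
    have h0 : 0 ≤ (∫ z, w ω z ∂ρ) ^ p := Real.rpow_nonneg (hU ω).le p
    have hx := (hw.pos ω x).le
    have hy := (hw.pos ω y).le
    rw [Real.norm_of_nonneg (mul_nonneg h0 (mul_nonneg hx hy))]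
    simp only [Pi.add_apply]
    rw [← hsq ω]
    nlinarith [sq_nonneg ((∫ z, w ω z ∂ρ) ^ p - w ω x * w ω y), sq_nonneg (w ω x ^ 2 - w ω y ^ 2),
      sq_nonneg (w ω x ^ 2), sq_nonneg (w ω y ^ 2), sq_nonneg ((∫ z, w ω z ∂ρ) ^ p)]
  · refine Integrable.mono' (hU2.add (h2 x))
      (hUm.mul (onea_measO hw x)).aestronglyMeasurable
      (Filter.Eventually.of_forall (fun ω => ?_))
    have h0 : 0 ≤ (∫ z, w ω z ∂ρ) ^ p := Real.rpow_nonneg (hU ω).le p
    have hx := (hw.pos ω x).le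
    rw [Real.norm_of_nonneg (mul_nonneg h0 hx)]
    simp only [Pi.add_apply]
    rw [← hsq ω]
    nlinarith [sq_nonneg ((∫ z, w ω z ∂ρ) ^ p - w ω x), sq_nonneg (w ω x),
      sq_nonneg ((∫ z, w ω z ∂ρ) ^ p)]

end Pool.Agent.MChaos
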