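import Pool.Agent.Lib_MP_a91488.FDefs

/-!
# Piece PRJ: extension of the fields from the cube to the whole space
-/

set_option autoImplicit false

open MeasureTheory ProbabilityTheory Filter
open scoped Topology

namespace Pool.Agent.MChaos

variable {d : ℕ} {Ω : Type} [MeasurableSpace Ω] {P : Measure Ω} [IsProbabilityMeasure P] {X : ℕ → Ω → E d → ℝ}

theorem prj_mem (x : E d) : prj x ∈ cube d := by
  intro i
  simp only [prj]
  exact ⟨le_max_left _ _, max_le zero_le_one (min_le_left _ _)⟩

theorem prj_eq (x : E d) (hx : x ∈ cube d) : prj x = x := by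
  ext i
  simp only [prj]
  have := hx i
  rw [min_eq_right this.2, max_eq_right this.1]

theorem prj_lip (x y : E d) : ‖prj x - prj y‖ ≤ ‖x - y‖ := by
  rw [EuclideanSpace.norm_eq, EuclideanSpace.norm_eq]
  apply Real.sqrt_le_sqrt
  apply Finset.sum_le_sum
  intro i _
  have h1 : |(prj x - prj y) i| ≤ |(x - y) i| := by
    have e1 : (prj x - prj y) i = max 0 (min 1 (x i)) - max 0 (min 1 (y i)) := rfl
    have e2 : (x - y) i = x i - y i := rfl
    rw [e1, e2]
    have h3 : |max 0 (min 1 (x i)) - max 0 (min 1 (y i))| ≤ |min 1 (x i) - min 1 (y i)| := by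
      simpa [max_comm] using abs_max_sub_max_le_abs (min 1 (x i)) (min 1 (y i)) 0
    have h4 : |min 1 (x i) - min 1 (y i)| ≤ |x i - y i| := by
      have := abs_min_sub_min_le_max (x i) 1 (y i) 1
      simpa [min_comm] using this
    exact h3.trans h4
  rw [Real.norm_eq_abs, Real.norm_eq_abs]
  exact pow_le_pow_left₀ (abs_nonneg _) h1 2

theorem prj_cont : Continuous (prj : E d → E d) := by
  have : LipschitzWith 1 (prj : E d → E d) := by
    apply LipschitzWith.of_dist_le_mul
    intro x y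
    rw [dist_eq_norm, dist_eq_norm]
    simpa using prj_lip x y
  exact this.continuous

theorem isCompact_cube : IsCompact (cube d) := by
  have h : cube d = (fun f : Fin d → ℝ => (WithLp.toLp 2 f : E d)) '' Set.Icc 0 1 := by
    ext x
    constructor
    · intro hx
      refine ⟨fun i => x i, ⟨fun i => (hx i).1, fun i => (hx i).2⟩, ?_⟩
      ext i; rfl
    · rintro ⟨f, hf, rfl⟩
      intro i
      exact ⟨hf.1 i, hf.2 i⟩
  rw [h]
  exact isCompact_Icc.image (PiLp.continuous_toLp 2 _)

theorem sig2_prj (n : ℕ) : sig2 P (fun k ω x => X k ω (prj x)) n = sig2 P X n := by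
  have h0 : prj (0 : E d) = 0 := prj_eq 0 (fun i => ⟨le_refl _, zero_le_one⟩)
  simp only [sig2, h0]

/-- all the conditions are conditions on points of the cube; `indep`: `iIndepFun.comp` with `f ↦ fun x => f ⟨prj x, prj_mem x⟩`; in `lip` the constant is replaced by its absolute value -/
theorem cond_cp (hd : 0 < d) (hX : Cond d P X) : CP d P (fun k ω x => X k ω (prj x)) := by
  have h0 : prj (0 : E d) = 0 := prj_eq 0 (fun i => ⟨le_refl _, zero_le_one⟩)
  constructor
  · exact hd
  · intro k x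
    exact hX.meas k _ (prj_mem x)
  · intro k ω
    exact (hX.cont k ω).comp_continuous prj_cont prj_mem
  · intro k ω
    obtain ⟨B, hB⟩ := isCompact_cube.exists_bound_of_continuousOn (hX.cont k ω)
    exact ⟨B, fun x => by simpa using hB _ (prj_mem x)⟩
  · have := hX.indep.comp (fun (_ : ℕ) (f : cube d → ℝ) (x : E d) => f ⟨prj x, prj_mem x⟩)
      (fun _ => measurable_pi_lambda _ (fun x => measurable_pi_apply _))
    exact this
  · intro k x
    exact hX.mean k _ (prj_mem x)
  · intro ε hε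
    obtain ⟨K, hK⟩ := hX.small ε hε
    exact ⟨K, fun k hk x => hK k hk _ (prj_mem x)⟩
  · simpa only [h0] using hX.div
  · obtain ⟨δ, C, hδ, h⟩ := hX.cov
    refine ⟨δ, C, hδ, ?_⟩
    intro n x hx y hy hxy
    rw [sig2_prj]
    simp only [prj_eq x hx, prj_eq y hy]
    exact h n x hx y hy hxy
  · obtain ⟨ε, C, hε, h⟩ := hX.third
    exact ⟨ε, C, hε, fun x n => h _ (prj_mem x) n⟩
  · obtain ⟨r₀, hr₀, h⟩ := hX.lip
    refine ⟨r₀, hr₀, ?_⟩
    intro r hr
    obtain ⟨C, hC⟩ := h r hr
    refine ⟨|C|, ?_⟩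
    intro n x y
    rw [sig2_prj]
    refine (hC n _ (prj_mem x) _ (prj_mem y)).trans ?_
    have hr0 : 0 < r := lt_of_lt_of_le hr₀ hr
    have h1 : ‖prj x - prj y‖ ^ r ≤ ‖x - y‖ ^ r := Real.rpow_le_rpow (norm_nonneg _) (prj_lip x y) hr0.le
    have h2 : C * Real.exp (r * sig2 P X n) ≤ |C| * Real.exp (r * sig2 P X n) :=
      mul_le_mul_of_nonneg_right (le_abs_self C) (Real.exp_pos _).le
    have h3 : 0 ≤ |C| * Real.exp (r * sig2 P X n) := mul_nonneg (abs_nonneg _) (Real.exp_pos _).le
    calc C * Real.exp (r * sig2 P X n) * ‖prj x - prj y‖ ^ r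
        ≤ |C| * Real.exp (r * sig2 P X n) * ‖prj x - prj y‖ ^ r :=
          mul_le_mul_of_nonneg_right h2 (Real.rpow_nonneg (norm_nonneg _) _)
      _ ≤ |C| * Real.exp (r * sig2 P X n) * ‖x - y‖ ^ r := mul_le_mul_of_nonneg_left h1 h3
  · intro t
    obtain ⟨C, hC⟩ := hX.expo t
    exact ⟨C, fun k x => hC k _ (prj_mem x)⟩

/-- the densities agree on the cube -/
theorem muN_prj (β : ℝ) (n : ℕ) (ω : Ω) : muN P (fun k ω x => X k ω (prj x)) β n ω = muN P X β n ω := by
  unfold muN
  apply withDensity_congr_ae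
  have hm : MeasurableSet (cube d) := isCompact_cube.measurableSet
  refine (ae_restrict_iff' hm).2 (Eventually.of_forall ?_)
  intro x hx
  simp only [dens, prj_eq x hx]

end Pool.Agent.MChaos
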