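import Mathlib

/-!
# MP_a91488_pr: one random variable, definitions
-/

set_option autoImplicit false

open MeasureTheory

namespace Pool.Agent.MChaos

/-- centered, exponential moments bounded by `Cb` -/
structure RV {Ω : Type} [MeasurableSpace Ω] (P : Measure Ω) (Cb : ℝ → ℝ) (X : Ω → ℝ) : Prop where
  meas : Measurable X
  mean : ∫ ω, X ω ∂P = 0
  expo : ∀ t : ℝ, Integrable (fun ω => Real.exp (t * X ω)) P ∧ ∫ ω, Real.exp (t * X ω) ∂P ≤ Cb t

/-- `(E |X|^s)^(3/s)` -/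
noncomputable def bq {Ω : Type} [MeasurableSpace Ω] (s : ℝ) (P : Measure Ω) (X : Ω → ℝ) : ℝ := (∫ ω, |X ω| ^ s ∂P) ^ (3 / s)

end Pool.Agent.MChaos
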