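import Pool.Agent.Lib_MP_a91488.RVA

/-!
# Piece RVB: moments of the normalised weight of one random variable
-/

set_option autoImplicit false

open MeasureTheory

namespace Pool.Agent.MChaos

theorem rvb_exp_sub_one (u : ℝ) : |Real.exp u - 1| ≤ |u| * (1 + Real.exp u) := by
  have he := Real.exp_pos u
  rcases abs_cases u with ⟨h1, h2⟩ | ⟨h1, h2⟩
  · rw [h1, abs_of_nonneg (by linarith [Real.one_le_exp h2])]
    have h3 := Real.add_one_le_exp (-u)
    have h4 : Real.exp u * Real.exp (-u) = 1 := by rw [← Real.exp_add]; simp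
    nlinarith
  · rw [h1, abs_of_nonpos (by
      have : Real.exp u ≤ 1 := by rw [Real.exp_le_one_iff]; linarith
      linarith)]
    have h3 := Real.add_one_le_exp u
    nlinarith

/-- `W = exp (t X) / E exp (t X)`, the denominator lies in `[1, Cb t]`. Moments: `W^p = exp (p t X) / (E exp (t X))^p`.
Third order: with `r = (3+s)/2 < s`, `|exp (t X) - 1| ≤ |t| |X| (1 + exp (t X))`, Hölder with exponents `s/r` and its conjugate:
`E |exp (t X) - 1|^r ≤ K (E |X|^s)^(r/s)`; `|E exp (t X) - 1| ≤ E |exp (t X) - 1| ≤ (E |exp (t X) - 1|^r)^(1/r)` -/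
theorem rv_wt (t s : ℝ) (hs : 3 < s) (Cb : ℝ → ℝ) : ∃ (M : ℝ → ℝ) (K : ℝ), (∀ p, 1 ≤ M p) ∧ 0 < K ∧
    ∀ (Ω : Type) [MeasurableSpace Ω] (P : Measure Ω) [IsProbabilityMeasure P] (X : Ω → ℝ), RV P Cb X →
      (∀ p : ℝ, Integrable (fun ω => (Real.exp (t * X ω) / ∫ ω', Real.exp (t * X ω') ∂P) ^ p) P ∧
        ∫ ω, (Real.exp (t * X ω) / ∫ ω', Real.exp (t * X ω') ∂P) ^ p ∂P ≤ M p) ∧
      (∫ ω, |Real.exp (t * X ω) / (∫ ω', Real.exp (t * X ω') ∂P) - 1| ^ ((3 + s) / 2) ∂P) ^ (3 / ((3 + s) / 2)) ≤ K * bq s P X := by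
  have hs0 : 0 < s := by linarith
  set r : ℝ := (3 + s) / 2 with hr
  have hr3 : 3 < r := by rw [hr]; linarith
  have hrs : r < s := by rw [hr]; linarith
  have hr0 : 0 < r := by linarith
  have hsr : 0 < s - r := by linarith
  obtain ⟨K0, hK0, hG⟩ := rva_G t (r * (s / (s - r))) (by positivity) Cb
  obtain ⟨K1, hK1, hL⟩ := rv_lp s hs0.le Cb
  set A1 : ℝ := 2 ^ r * 2 * (|t| ^ r * K0 ^ ((s - r) / s) + 1) with hA1
  have hA1pos : 0 < A1 := by positivity
  refine ⟨fun p => 1 + |Cb (p * t)| * |Cb t| ^ |p|, A1 ^ (3 / r), fun p => by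
    have : 0 ≤ |Cb (p * t)| * |Cb t| ^ |p| := by positivity
    linarith, by positivity, fun Ω _ P _ X hX => ?_⟩
  have hm := hX.meas
  have hD1 := rv_one_le hX t
  have hDC := (hX.expo t).2
  set D := ∫ ω', Real.exp (t * X ω') ∂P with hD
  have hD0 : 0 < D := by linarith
  have hCbt : D ≤ |Cb t| := hDC.trans (le_abs_self _)
  constructor
  · intro p
    have hW : ∀ ω, (Real.exp (t * X ω) / D) ^ p = Real.exp (p * t * X ω) * D ^ (-p) := by
      intro ω
      rw [Real.div_rpow (Real.exp_pos _).le hD0.le, ← Real.exp_mul, Real.rpow_neg hD0.le, div_eq_mul_inv]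
      congr 2
      ring
    simp_rw [hW]
    refine ⟨(hX.expo (p * t)).1.mul_const _, ?_⟩
    rw [integral_mul_const]
    have e1 : ∫ ω, Real.exp (p * t * X ω) ∂P ≤ |Cb (p * t)| := (hX.expo (p * t)).2.trans (le_abs_self _)
    have e2 : D ^ (-p) ≤ |Cb t| ^ |p| := by
      calc D ^ (-p) ≤ D ^ |p| := Real.rpow_le_rpow_of_exponent_le hD1 (neg_le_abs p)
        _ ≤ |Cb t| ^ |p| := Real.rpow_le_rpow hD0.le hCbt (abs_nonneg p)
    have e3 : 0 ≤ ∫ ω, Real.exp (p * t * X ω) ∂P := integral_nonneg fun ω => (Real.exp_pos _).le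
    have e4 : (∫ ω, Real.exp (p * t * X ω) ∂P) * D ^ (-p) ≤ |Cb (p * t)| * |Cb t| ^ |p| :=
      mul_le_mul e1 e2 (by positivity) (by positivity)
    linarith
  · have hXi := (hL Ω P X hX).1
    -- Hölder
    have hGi : Integrable (fun ω => ((1 + Real.exp (t * X ω)) ^ r) ^ (s / (s - r))) P ∧
        ∫ ω, ((1 + Real.exp (t * X ω)) ^ r) ^ (s / (s - r)) ∂P ≤ K0 := by
      have e : ∀ ω, ((1 + Real.exp (t * X ω)) ^ r) ^ (s / (s - r)) = (1 + Real.exp (t * X ω)) ^ (r * (s / (s - r))) := by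
        intro ω
        rw [← Real.rpow_mul (by positivity)]
      simp_rw [e]
      exact hG Ω P X hX
    have hH := rva_holder (P := P) (r := r) hr0 hrs hX.meas (G := fun ω => (1 + Real.exp (t * X ω)) ^ r) (by fun_prop)
      (fun ω => by positivity) hXi hGi.1
    have hm0 : 0 ≤ ∫ ω, |X ω| ^ s ∂P := integral_nonneg fun ω => by positivity
    set m := ∫ ω, |X ω| ^ s ∂P with hmdef
    set Y : Ω → ℝ := fun ω => Real.exp (t * X ω) - 1 with hY
    have hYm : Measurable Y := by rw [hY]; fun_prop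
    have hYle : ∀ ω, |Y ω| ^ r ≤ |t| ^ r * (|X ω| ^ r * (1 + Real.exp (t * X ω)) ^ r) := by
      intro ω
      have h1 : |Y ω| ≤ |t| * (|X ω| * (1 + Real.exp (t * X ω))) := by
        have := rvb_exp_sub_one (t * X ω)
        rw [abs_mul] at this
        rw [hY]
        linarith
      calc |Y ω| ^ r ≤ (|t| * (|X ω| * (1 + Real.exp (t * X ω)))) ^ r := Real.rpow_le_rpow (abs_nonneg _) h1 hr0.le
        _ = _ := by
            rw [Real.mul_rpow (abs_nonneg _) (by positivity), Real.mul_rpow (abs_nonneg _) (by positivity)]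
    have hI2 : Integrable (fun ω => |t| ^ r * (|X ω| ^ r * (1 + Real.exp (t * X ω)) ^ r)) P := hH.1.const_mul _
    have hYr : Measurable (fun ω => |Y ω| ^ r) := by fun_prop
    have hYi : Integrable (fun ω => |Y ω| ^ r) P := by
      refine hI2.mono' hYr.aestronglyMeasurable (Filter.Eventually.of_forall fun ω => ?_)
      rw [Real.norm_of_nonneg (by positivity)]
      exact hYle ω
    have hA : ∫ ω, |Y ω| ^ r ∂P ≤ (|t| ^ r * K0 ^ ((s - r) / s) + 1) * m ^ (r / s) := by
      calc ∫ ω, |Y ω| ^ r ∂P ≤ ∫ ω, |t| ^ r * (|X ω| ^ r * (1 + Real.exp (t * X ω)) ^ r) ∂P := integral_mono hYi hI2 hYle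
        _ = |t| ^ r * ∫ ω, |X ω| ^ r * (1 + Real.exp (t * X ω)) ^ r ∂P := integral_const_mul _ _
        _ ≤ |t| ^ r * (m ^ (r / s) * K0 ^ ((s - r) / s)) := by
            apply mul_le_mul_of_nonneg_left _ (by positivity)
            refine hH.2.trans ?_
            apply mul_le_mul_of_nonneg_left _ (by positivity)
            exact Real.rpow_le_rpow (integral_nonneg fun ω => by positivity) hGi.2 (by positivity)
        _ = |t| ^ r * K0 ^ ((s - r) / s) * m ^ (r / s) := by ring
        _ ≤ _ := by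
            apply mul_le_mul_of_nonneg_right _ (by positivity)
            linarith
    set A := ∫ ω, |Y ω| ^ r ∂P with hAdef
    have hA0 : 0 ≤ A := integral_nonneg fun ω => by positivity
    -- |D - 1|^r ≤ A
    have hYint : Integrable Y P := (hX.expo t).1.sub (integrable_const 1)
    have hDr : |D - 1| ^ r ≤ A := by
      have h1 : D - 1 = ∫ ω, Y ω ∂P := by
        rw [hY, integral_sub (hX.expo t).1 (integrable_const 1)]
        simp [hD]
      have h2 : |D - 1| ≤ ∫ ω, |Y ω| ∂P := by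
        rw [h1]; exact abs_integral_le_integral_abs
      have h3 := rva_holder (P := P) (r := 1) (s := r) one_pos (by linarith) hYm (G := fun ω => 1) (by fun_prop) (fun ω => by positivity)
        hYi (by simp)
      simp only [mul_one, Real.one_rpow, integral_const, probReal_univ, smul_eq_mul, Real.rpow_one] at h3
      have h4 : |D - 1| ≤ A ^ (1 / r) := h2.trans h3.2
      calc |D - 1| ^ r ≤ (A ^ (1 / r)) ^ r := Real.rpow_le_rpow (abs_nonneg _) h4 hr0.le
        _ = A := by
            rw [← Real.rpow_mul hA0]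
            rw [show 1 / r * r = 1 by field_simp, Real.rpow_one]
    have hWle : ∀ ω, |Real.exp (t * X ω) / D - 1| ^ r ≤ 2 ^ r * (|Y ω| ^ r + A) := by
      intro ω
      have h1 : |Real.exp (t * X ω) / D - 1| ≤ |Y ω| + |D - 1| := by
        have h2 : Real.exp (t * X ω) / D - 1 = (Y ω - (D - 1)) / D := by
          rw [hY]; field_simp; ring
        rw [h2, abs_div, abs_of_pos hD0, div_le_iff₀ hD0]
        have h3 : |Y ω - (D - 1)| ≤ |Y ω| + |D - 1| := abs_sub _ _
        have h4 : 0 ≤ |Y ω| + |D - 1| := by positivity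
        nlinarith
      have h5 : |Y ω| + |D - 1| ≤ 2 * max |Y ω| |D - 1| := by
        have := le_max_left |Y ω| |D - 1|
        have := le_max_right |Y ω| |D - 1|
        linarith
      have h6 : 0 ≤ max |Y ω| |D - 1| := le_max_of_le_left (abs_nonneg _)
      calc |Real.exp (t * X ω) / D - 1| ^ r ≤ (2 * max |Y ω| |D - 1|) ^ r := Real.rpow_le_rpow (abs_nonneg _) (h1.trans h5) hr0.le
        _ = 2 ^ r * (max |Y ω| |D - 1|) ^ r := Real.mul_rpow (by norm_num) h6
        _ ≤ 2 ^ r * (|Y ω| ^ r + A) := by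
            apply mul_le_mul_of_nonneg_left _ (by positivity)
            rcases max_cases |Y ω| |D - 1| with ⟨h, _⟩ | ⟨h, _⟩
            · rw [h]; linarith
            · rw [h]
              have : 0 ≤ |Y ω| ^ r := by positivity
              linarith
    have hI3 : Integrable (fun ω => 2 ^ r * (|Y ω| ^ r + A)) P := (hYi.add (integrable_const A)).const_mul _
    have hWm : Measurable (fun ω => |Real.exp (t * X ω) / D - 1| ^ r) := by fun_prop
    have hWi : Integrable (fun ω => |Real.exp (t * X ω) / D - 1| ^ r) P := by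
      refine hI3.mono' hWm.aestronglyMeasurable (Filter.Eventually.of_forall fun ω => ?_)
      rw [Real.norm_of_nonneg (by positivity)]
      exact hWle ω
    have hfin : ∫ ω, |Real.exp (t * X ω) / D - 1| ^ r ∂P ≤ A1 * m ^ (r / s) := by
      calc ∫ ω, |Real.exp (t * X ω) / D - 1| ^ r ∂P ≤ ∫ ω, 2 ^ r * (|Y ω| ^ r + A) ∂P := integral_mono hWi hI3 hWle
        _ = 2 ^ r * (A + A) := by
            rw [integral_const_mul, integral_add hYi (integrable_const A)]
            simp [hAdef]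
        _ = 2 ^ r * 2 * A := by ring
        _ ≤ 2 ^ r * 2 * ((|t| ^ r * K0 ^ ((s - r) / s) + 1) * m ^ (r / s)) := by
            apply mul_le_mul_of_nonneg_left hA (by positivity)
        _ = A1 * m ^ (r / s) := by rw [hA1]; ring
    have hW0 : 0 ≤ ∫ ω, |Real.exp (t * X ω) / D - 1| ^ r ∂P := integral_nonneg fun ω => by positivity
    calc (∫ ω, |Real.exp (t * X ω) / D - 1| ^ r ∂P) ^ (3 / r) ≤ (A1 * m ^ (r / s)) ^ (3 / r) :=
          Real.rpow_le_rpow hW0 hfin (by positivity)
      _ = A1 ^ (3 / r) * (m ^ (r / s)) ^ (3 / r) := Real.mul_rpow hA1pos.le (by positivity)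
      _ = A1 ^ (3 / r) * bq s P X := by
          congr 1
          rw [← Real.rpow_mul hm0]
          unfold bq
          congr 1
          field_simp

end Pool.Agent.MChaos
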