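import Pool.Agent.Lib_MP_a91488.RVA

/-!
# Piece RVC: covariance of two normalised weights
-/

set_option autoImplicit false

open MeasureTheory

namespace Pool.Agent.MChaos

private theorem rvc_bq_nonneg {Ω : Type} [MeasurableSpace Ω] (s : ℝ) (P : Measure Ω) (X : Ω → ℝ) :
    0 ≤ bq s P X :=
  Real.rpow_nonneg (integral_nonneg fun _ => Real.rpow_nonneg (abs_nonneg _) _) _

private theorem rvc_abs_add_rpow (s x y : ℝ) (hs : 0 ≤ s) :
    |x + y| ^ s ≤ 2 ^ s * (|x| ^ s + |y| ^ s) := by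
  have h1 : |x + y| ≤ 2 * max |x| |y| := by
    refine (abs_add_le x y).trans ?_
    have h2 := le_max_left |x| |y|
    have h3 := le_max_right |x| |y|
    linarith
  have h4 : (0 : ℝ) ≤ max |x| |y| := (abs_nonneg x).trans (le_max_left _ _)
  have h5 : (max |x| |y|) ^ s ≤ |x| ^ s + |y| ^ s := by
    have hx : 0 ≤ |x| ^ s := Real.rpow_nonneg (abs_nonneg x) s
    have hy : 0 ≤ |y| ^ s := Real.rpow_nonneg (abs_nonneg y) s
    rcases max_choice |x| |y| with h | h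
    · rw [h]
      linarith
    · rw [h]
      linarith
  calc |x + y| ^ s ≤ (2 * max |x| |y|) ^ s := Real.rpow_le_rpow (abs_nonneg _) h1 hs
    _ = 2 ^ s * (max |x| |y|) ^ s := Real.mul_rpow (by norm_num) h4
    _ ≤ 2 ^ s * (|x| ^ s + |y| ^ s) :=
      mul_le_mul_of_nonneg_left h5 (Real.rpow_nonneg (by norm_num) _)

/-- The sum of two centered variables with exponential moments. -/
private theorem rvc_add {Ω : Type} [MeasurableSpace Ω] {P : Measure Ω} [IsProbabilityMeasure P]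
    {Cb : ℝ → ℝ} {X Y : Ω → ℝ} (hX : RV P Cb X) (hY : RV P Cb Y) (hiX : Integrable X P)
    (hiY : Integrable Y P) : RV P (fun u => Cb (2 * u)) (fun ω => X ω + Y ω) := by
  refine ⟨hX.meas.add hY.meas, ?_, fun u => ?_⟩
  · rw [integral_add hiX hiY, hX.mean, hY.mean, add_zero]
  · have h1 := hX.expo (2 * u)
    have h2 := hY.expo (2 * u)
    have h3 : ∀ ω, Real.exp (u * (X ω + Y ω)) ≤
        (1 / 2) * (Real.exp (2 * u * X ω) + Real.exp (2 * u * Y ω)) := by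
      intro ω
      have e1 : Real.exp (u * (X ω + Y ω)) = Real.exp (u * X ω) * Real.exp (u * Y ω) := by
        rw [← Real.exp_add, mul_add]
      have e2 : Real.exp (2 * u * X ω) = Real.exp (u * X ω) ^ 2 := by
        rw [← Real.exp_nat_mul]
        congr 1
        push_cast
        ring
      have e3 : Real.exp (2 * u * Y ω) = Real.exp (u * Y ω) ^ 2 := by
        rw [← Real.exp_nat_mul]
        congr 1
        push_cast
        ring
      rw [e1, e2, e3]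
      nlinarith [sq_nonneg (Real.exp (u * X ω) - Real.exp (u * Y ω))]
    have hint : Integrable (fun ω => (1 / 2) * (Real.exp (2 * u * X ω) + Real.exp (2 * u * Y ω))) P :=
      (h1.1.add h2.1).const_mul _
    have hme : Measurable (fun ω => Real.exp (u * (X ω + Y ω))) :=
      Real.measurable_exp.comp ((hX.meas.add hY.meas).const_mul u)
    refine ⟨hint.mono' hme.aestronglyMeasurable (Filter.Eventually.of_forall fun ω => ?_), ?_⟩
    · rw [Real.norm_eq_abs, abs_of_pos (Real.exp_pos _)]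
      exact h3 ω
    · calc ∫ ω, Real.exp (u * (X ω + Y ω)) ∂P
          ≤ ∫ ω, (1 / 2) * (Real.exp (2 * u * X ω) + Real.exp (2 * u * Y ω)) ∂P :=
            integral_mono_of_nonneg (Filter.Eventually.of_forall fun ω => (Real.exp_pos _).le) hint
              (Filter.Eventually.of_forall h3)
        _ = (1 / 2) * (∫ ω, Real.exp (2 * u * X ω) ∂P + ∫ ω, Real.exp (2 * u * Y ω) ∂P) := by
            rw [integral_const_mul, integral_add h1.1 h2.1]
        _ ≤ Cb (2 * u) := by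
            have := h1.2
            have := h2.2
            linarith

/-- The third order quantity of a sum. -/
private theorem rvc_bq_add {Ω : Type} [MeasurableSpace Ω] {P : Measure Ω} (s : ℝ) (hs : 3 < s)
    {X Y : Ω → ℝ} (hX : Integrable (fun ω => |X ω| ^ s) P)
    (hY : Integrable (fun ω => |Y ω| ^ s) P) :
    bq s P (fun ω => X ω + Y ω) ≤ 8 * (bq s P X + bq s P Y) := by
  have hs0 : 0 < s := by linarith
  have h1 : ∫ ω, |X ω + Y ω| ^ s ∂P ≤ 2 ^ s * (∫ ω, |X ω| ^ s ∂P + ∫ ω, |Y ω| ^ s ∂P) := by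
    calc ∫ ω, |X ω + Y ω| ^ s ∂P ≤ ∫ ω, 2 ^ s * (|X ω| ^ s + |Y ω| ^ s) ∂P :=
          integral_mono_of_nonneg
            (Filter.Eventually.of_forall fun ω => Real.rpow_nonneg (abs_nonneg _) _)
            ((hX.add hY).const_mul _)
            (Filter.Eventually.of_forall fun ω => rvc_abs_add_rpow s _ _ hs0.le)
      _ = 2 ^ s * (∫ ω, |X ω| ^ s ∂P + ∫ ω, |Y ω| ^ s ∂P) := by
          rw [integral_const_mul, integral_add hX hY]
  have hx : 0 ≤ ∫ ω, |X ω| ^ s ∂P := integral_nonneg fun _ => Real.rpow_nonneg (abs_nonneg _) _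
  have hy : 0 ≤ ∫ ω, |Y ω| ^ s ∂P := integral_nonneg fun _ => Real.rpow_nonneg (abs_nonneg _) _
  have hxy : 0 ≤ ∫ ω, |X ω + Y ω| ^ s ∂P :=
    integral_nonneg fun _ => Real.rpow_nonneg (abs_nonneg _) _
  have h3 : 0 ≤ 3 / s := by positivity
  have h3' : 3 / s ≤ 1 := by
    rw [div_le_one hs0]
    exact hs.le
  have h8 : ((2 : ℝ) ^ s) ^ (3 / s) = 8 := by
    rw [← Real.rpow_mul (by norm_num), mul_div_cancel₀ _ hs0.ne']
    norm_num
  unfold bq
  calc (∫ ω, |X ω + Y ω| ^ s ∂P) ^ (3 / s)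
      ≤ (2 ^ s * (∫ ω, |X ω| ^ s ∂P + ∫ ω, |Y ω| ^ s ∂P)) ^ (3 / s) :=
        Real.rpow_le_rpow hxy h1 h3
    _ = 8 * (∫ ω, |X ω| ^ s ∂P + ∫ ω, |Y ω| ^ s ∂P) ^ (3 / s) := by
        rw [Real.mul_rpow (Real.rpow_nonneg (by norm_num) _) (add_nonneg hx hy), h8]
    _ ≤ 8 * ((∫ ω, |X ω| ^ s ∂P) ^ (3 / s) + (∫ ω, |Y ω| ^ s ∂P) ^ (3 / s)) :=
        mul_le_mul_of_nonneg_left (Real.rpow_add_le_add_rpow hx hy h3 h3') (by norm_num)

/-- The algebraic part. -/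
private theorem rvc_alg {u a b c x2 y2 xy bX bY K1 K2 K3 : ℝ} (hu : 0 ≤ u) (hK1 : 0 ≤ K1)
    (hK2 : 0 ≤ K2) (hK3 : 0 ≤ K3) (hbX : 0 ≤ bX) (hbY : 0 ≤ bY) (hx2 : 0 ≤ x2) (hy2 : 0 ≤ y2)
    (ha : 1 ≤ a) (hb : 1 ≤ b)
    (hc : |c - 1 - u * (x2 + 2 * xy + y2)| ≤ K1 * (bX + bY))
    (ha' : |a - 1 - u * x2| ≤ K2 * bX) (hb' : |b - 1 - u * y2| ≤ K2 * bY)
    (h1 : x2 ≤ K3) (h2 : y2 ≤ K3) (h3 : bX ≤ K3)
    (h5 : x2 * y2 ≤ K3 * (bX + bY)) (h6 : |xy| * (x2 + y2) ≤ K3 * (bX + bY))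
    (h7 : |xy| ≤ K3) :
    |c / (a * b) - 1 - 2 * u * xy| ≤ (K1 + K2 + (u ^ 2 * K3 + u * K2 * K3 + K2 ^ 2 * K3) +
      2 * u * (K3 * (u ^ 2 * K3 + u * K2 * K3 + K2 ^ 2 * K3) + u * K3 + K2 * K3)) * (bX + bY) := by
  set M := u ^ 2 * K3 + u * K2 * K3 + K2 ^ 2 * K3 with hM
  have hM0 : 0 ≤ M := by positivity
  have hB : 0 ≤ bX + bY := add_nonneg hbX hbY
  have hab : 1 ≤ a * b := by nlinarith
  have hab0 : 0 < a * b := by linarith
  -- the product of the deviations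
  have ha1 : a - 1 ≤ u * x2 + K2 * bX := by
    have := (abs_le.mp ha').2
    linarith
  have hb1 : b - 1 ≤ u * y2 + K2 * bY := by
    have := (abs_le.mp hb').2
    linarith
  have ha0 : 0 ≤ a - 1 := by linarith
  have hb0 : 0 ≤ b - 1 := by linarith
  have hprod : (a - 1) * (b - 1) ≤ M * (bX + bY) := by
    have e1 : (a - 1) * (b - 1) ≤ (u * x2 + K2 * bX) * (u * y2 + K2 * bY) :=
      mul_le_mul ha1 hb1 hb0 (by positivity)
    have e2 : u ^ 2 * (x2 * y2) ≤ u ^ 2 * (K3 * (bX + bY)) :=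
      mul_le_mul_of_nonneg_left h5 (by positivity)
    have e3 : u * K2 * (x2 * bY) ≤ u * K2 * (K3 * bY) :=
      mul_le_mul_of_nonneg_left (mul_le_mul_of_nonneg_right h1 hbY) (by positivity)
    have e4 : u * K2 * (bX * y2) ≤ u * K2 * (bX * K3) :=
      mul_le_mul_of_nonneg_left (mul_le_mul_of_nonneg_left h2 hbX) (by positivity)
    have e5 : K2 ^ 2 * (bX * bY) ≤ K2 ^ 2 * (K3 * bY) :=
      mul_le_mul_of_nonneg_left (mul_le_mul_of_nonneg_right h3 hbY) (by positivity)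
    have e6 : 0 ≤ K2 ^ 2 * (K3 * bX) := by positivity
    have e7 : (u * x2 + K2 * bX) * (u * y2 + K2 * bY) = u ^ 2 * (x2 * y2) + u * K2 * (x2 * bY) +
        u * K2 * (bX * y2) + K2 ^ 2 * (bX * bY) := by ring
    rw [e7] at e1
    have e8 : M * (bX + bY) = u ^ 2 * (K3 * (bX + bY)) + (u * K2 * (K3 * bY) +
        u * K2 * (bX * K3)) + (K2 ^ 2 * (K3 * bY) + K2 ^ 2 * (K3 * bX)) := by
      rw [hM]
      ring
    rw [e8]
    linarith
  have hprod0 : 0 ≤ (a - 1) * (b - 1) := mul_nonneg ha0 hb0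
  -- the three terms
  have t2 : |a * b - 1 - u * (x2 + y2)| ≤ (M + K2) * (bX + bY) := by
    have e : a * b - 1 - u * (x2 + y2) = (a - 1) * (b - 1) + (a - 1 - u * x2) +
        (b - 1 - u * y2) := by ring
    rw [e]
    calc |(a - 1) * (b - 1) + (a - 1 - u * x2) + (b - 1 - u * y2)|
        ≤ |(a - 1) * (b - 1) + (a - 1 - u * x2)| + |b - 1 - u * y2| := abs_add_le _ _
      _ ≤ |(a - 1) * (b - 1)| + |a - 1 - u * x2| + |b - 1 - u * y2| := by
          have := abs_add_le ((a - 1) * (b - 1)) (a - 1 - u * x2)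
          linarith
      _ ≤ M * (bX + bY) + K2 * bX + K2 * bY := by
          rw [abs_of_nonneg hprod0]
          linarith
      _ = (M + K2) * (bX + bY) := by ring
  have t3 : |xy| * (a * b - 1) ≤ (K3 * M + u * K3 + K2 * K3) * (bX + bY) := by
    have e : a * b - 1 = (a - 1) * (b - 1) + (a - 1) + (b - 1) := by ring
    have f1 : |xy| * ((a - 1) * (b - 1)) ≤ K3 * (M * (bX + bY)) :=
      mul_le_mul h7 hprod hprod0 hK3
    have f2 : |xy| * (a - 1) ≤ |xy| * (u * x2 + K2 * bX) :=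
      mul_le_mul_of_nonneg_left ha1 (abs_nonneg _)
    have f3 : |xy| * (b - 1) ≤ |xy| * (u * y2 + K2 * bY) :=
      mul_le_mul_of_nonneg_left hb1 (abs_nonneg _)
    have f4 : u * (|xy| * (x2 + y2)) ≤ u * (K3 * (bX + bY)) := mul_le_mul_of_nonneg_left h6 hu
    have f5 : K2 * (|xy| * (bX + bY)) ≤ K2 * (K3 * (bX + bY)) :=
      mul_le_mul_of_nonneg_left (mul_le_mul_of_nonneg_right h7 hB) hK2
    have f6 : |xy| * (u * x2 + K2 * bX) + |xy| * (u * y2 + K2 * bY) =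
        u * (|xy| * (x2 + y2)) + K2 * (|xy| * (bX + bY)) := by ring
    have f7 : |xy| * (a * b - 1) = |xy| * ((a - 1) * (b - 1)) + |xy| * (a - 1) +
        |xy| * (b - 1) := by
      rw [e]
      ring
    have f8 : (K3 * M + u * K3 + K2 * K3) * (bX + bY) = K3 * (M * (bX + bY)) +
        u * (K3 * (bX + bY)) + K2 * (K3 * (bX + bY)) := by ring
    rw [f7, f8]
    linarith
  have hnum : |c - a * b - 2 * u * xy * (a * b)| ≤ (K1 + K2 + M +
      2 * u * (K3 * M + u * K3 + K2 * K3)) * (bX + bY) := by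
    have e : c - a * b - 2 * u * xy * (a * b) = (c - 1 - u * (x2 + 2 * xy + y2)) -
        (a * b - 1 - u * (x2 + y2)) - 2 * u * (xy * (a * b - 1)) := by ring
    have g1 : |2 * u * (xy * (a * b - 1))| = 2 * u * (|xy| * (a * b - 1)) := by
      rw [abs_mul, abs_mul xy, abs_of_nonneg (by positivity : (0 : ℝ) ≤ 2 * u),
        abs_of_nonneg (by linarith : (0 : ℝ) ≤ a * b - 1)]
    have g2 : 2 * u * (|xy| * (a * b - 1)) ≤
        2 * u * ((K3 * M + u * K3 + K2 * K3) * (bX + bY)) :=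
      mul_le_mul_of_nonneg_left t3 (by positivity)
    rw [e]
    calc |(c - 1 - u * (x2 + 2 * xy + y2)) - (a * b - 1 - u * (x2 + y2)) -
          2 * u * (xy * (a * b - 1))|
        ≤ |(c - 1 - u * (x2 + 2 * xy + y2)) - (a * b - 1 - u * (x2 + y2))| +
          |2 * u * (xy * (a * b - 1))| := abs_sub _ _
      _ ≤ |c - 1 - u * (x2 + 2 * xy + y2)| + |a * b - 1 - u * (x2 + y2)| +
          |2 * u * (xy * (a * b - 1))| := by
          have := abs_sub (c - 1 - u * (x2 + 2 * xy + y2)) (a * b - 1 - u * (x2 + y2))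
          linarith
      _ ≤ K1 * (bX + bY) + (M + K2) * (bX + bY) +
          2 * u * ((K3 * M + u * K3 + K2 * K3) * (bX + bY)) := by
          rw [g1]
          linarith
      _ = _ := by ring
  have hdiv : c / (a * b) - 1 - 2 * u * xy = (c - a * b - 2 * u * xy * (a * b)) / (a * b) := by
    field_simp
  rw [hdiv, abs_div, abs_of_pos hab0]
  exact (div_le_self (abs_nonneg _) hab).trans hnum

/-- `E exp (t (X + Y)) = 1 + t^2/2 E (X + Y)^2 + O(b_X + b_Y)` (as in `rv_exp`, `|X + Y|^3 ≤ 4 (|X|^3 + |Y|^3)`, the moments of `exp (t (X + Y))` are bounded by Cauchy-Schwarz),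
`E exp (t X) E exp (t Y) = 1 + t^2/2 (E X^2 + E Y^2) + O(b_X + b_Y)` (`rv_exp`, `rv_sq`), difference of the second order terms: `t^2 E X Y`;
`(1 + A + R)/(1 + D + R') - 1 = (A - D + R - R')/(1 + D + R')`, the denominator is `≥ 1` and `≤ 1 + K (E X^2 + E Y^2) + K (b_X + b_Y)`; use `rv_sq` for `|E X Y| (E X^2 + E Y^2)` -/
theorem rv_cov (t s : ℝ) (hs : 3 < s) (Cb : ℝ → ℝ) : ∃ K : ℝ, 0 < K ∧
    ∀ (Ω : Type) [MeasurableSpace Ω] (P : Measure Ω) [IsProbabilityMeasure P] (X Y : Ω → ℝ), RV P Cb X → RV P Cb Y →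
      |∫ ω, (Real.exp (t * X ω) / ∫ ω', Real.exp (t * X ω') ∂P) * (Real.exp (t * Y ω) / ∫ ω', Real.exp (t * Y ω') ∂P) ∂P - 1 - t ^ 2 * ∫ ω, X ω * Y ω ∂P|
        ≤ K * (bq s P X + bq s P Y) := by
  obtain ⟨K1, hK1, hexp1⟩ := rv_exp t s hs (fun u => Cb (2 * u))
  obtain ⟨K2, hK2, hexp2⟩ := rv_exp t s hs Cb
  obtain ⟨K3, hK3, hsq⟩ := rv_sq s hs Cb
  obtain ⟨L1, _, hL1⟩ := rv_lp 1 (by norm_num) Cb
  obtain ⟨L2, _, hL2⟩ := rv_lp 2 (by norm_num) Cb
  obtain ⟨Ls, _, hLs⟩ := rv_lp s (by linarith) Cb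
  have hu : (0 : ℝ) ≤ t ^ 2 / 2 := by positivity
  refine ⟨8 * K1 + K2 + ((t ^ 2 / 2) ^ 2 * K3 + (t ^ 2 / 2) * K2 * K3 + K2 ^ 2 * K3) +
      2 * (t ^ 2 / 2) * (K3 * ((t ^ 2 / 2) ^ 2 * K3 + (t ^ 2 / 2) * K2 * K3 + K2 ^ 2 * K3) +
      (t ^ 2 / 2) * K3 + K2 * K3), by positivity, ?_⟩
  intro Ω _ P _ X Y hX hY
  have hiX : Integrable X P := by
    have h := (hL1 Ω P X hX).1
    refine h.mono' hX.meas.aestronglyMeasurable (Filter.Eventually.of_forall fun ω => ?_)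
    rw [Real.norm_eq_abs, Real.rpow_one]
  have hiY : Integrable Y P := by
    have h := (hL1 Ω P Y hY).1
    refine h.mono' hY.meas.aestronglyMeasurable (Filter.Eventually.of_forall fun ω => ?_)
    rw [Real.norm_eq_abs, Real.rpow_one]
  have hX2 : Integrable (fun ω => X ω ^ 2) P := by
    have h := (hL2 Ω P X hX).1
    refine h.mono' (hX.meas.pow_const 2).aestronglyMeasurable
      (Filter.Eventually.of_forall fun ω => ?_)
    rw [Real.norm_eq_abs, Real.rpow_two, abs_pow]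
  have hY2 : Integrable (fun ω => Y ω ^ 2) P := by
    have h := (hL2 Ω P Y hY).1
    refine h.mono' (hY.meas.pow_const 2).aestronglyMeasurable
      (Filter.Eventually.of_forall fun ω => ?_)
    rw [Real.norm_eq_abs, Real.rpow_two, abs_pow]
  have hxyb : ∀ ω, |X ω * Y ω| ≤ (1 / 2) * (X ω ^ 2 + Y ω ^ 2) := by
    intro ω
    rw [abs_mul, ← sq_abs (X ω), ← sq_abs (Y ω)]
    nlinarith [sq_nonneg (|X ω| - |Y ω|)]
  have hXY : Integrable (fun ω => X ω * Y ω) P := by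
    refine ((hX2.add hY2).const_mul (1 / 2)).mono' (hX.meas.mul hY.meas).aestronglyMeasurable
      (Filter.Eventually.of_forall fun ω => ?_)
    rw [Real.norm_eq_abs]
    exact hxyb ω
  obtain ⟨q1, q2, _, q4, q5⟩ := hsq Ω P X Y hX hY
  obtain ⟨r1, _, _, _, _⟩ := hsq Ω P Y X hY hX
  have hxy7 : |∫ ω, X ω * Y ω ∂P| ≤ K3 := by
    calc |∫ ω, X ω * Y ω ∂P| ≤ ∫ ω, |X ω * Y ω| ∂P := abs_integral_le_integral_abs
      _ ≤ ∫ ω, (1 / 2) * (X ω ^ 2 + Y ω ^ 2) ∂P :=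
          integral_mono_of_nonneg (Filter.Eventually.of_forall fun ω => abs_nonneg _)
            ((hX2.add hY2).const_mul (1 / 2)) (Filter.Eventually.of_forall hxyb)
      _ = (1 / 2) * (∫ ω, X ω ^ 2 ∂P + ∫ ω, Y ω ^ 2 ∂P) := by
          rw [integral_const_mul, integral_add hX2 hY2]
      _ ≤ K3 := by linarith
  have hsum := hexp1 Ω P (fun ω => X ω + Y ω) (rvc_add hX hY hiX hiY)
  have hbq := rvc_bq_add s hs (hLs Ω P X hX).1 (hLs Ω P Y hY).1
  have hsq2 : ∫ ω, (X ω + Y ω) ^ 2 ∂P = ∫ ω, X ω ^ 2 ∂P + 2 * ∫ ω, X ω * Y ω ∂P +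
      ∫ ω, Y ω ^ 2 ∂P := by
    have e : (fun ω => (X ω + Y ω) ^ 2) = fun ω => X ω ^ 2 + 2 * (X ω * Y ω) + Y ω ^ 2 := by
      funext ω
      ring
    have hA : Integrable (fun ω => X ω ^ 2 + 2 * (X ω * Y ω)) P := hX2.add (hXY.const_mul 2)
    have e3 : ∫ ω, (X ω ^ 2 + 2 * (X ω * Y ω)) + Y ω ^ 2 ∂P =
        ∫ ω, (X ω ^ 2 + 2 * (X ω * Y ω)) ∂P + ∫ ω, Y ω ^ 2 ∂P := integral_add hA hY2
    have e4 : ∫ ω, (X ω ^ 2 + 2 * (X ω * Y ω)) ∂P =
        ∫ ω, X ω ^ 2 ∂P + ∫ ω, 2 * (X ω * Y ω) ∂P := integral_add hX2 (hXY.const_mul 2)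
    have e5 : ∫ ω, 2 * (X ω * Y ω) ∂P = 2 * ∫ ω, X ω * Y ω ∂P := integral_const_mul _ _
    rw [e, e3, e4, e5]
  have hc : |∫ ω, Real.exp (t * (X ω + Y ω)) ∂P - 1 - t ^ 2 / 2 * (∫ ω, X ω ^ 2 ∂P +
      2 * ∫ ω, X ω * Y ω ∂P + ∫ ω, Y ω ^ 2 ∂P)| ≤ 8 * K1 * (bq s P X + bq s P Y) := by
    rw [← hsq2]
    refine hsum.trans ?_
    have := mul_le_mul_of_nonneg_left hbq hK1.le
    linarith
  have hint : ∫ ω, (Real.exp (t * X ω) / ∫ ω', Real.exp (t * X ω') ∂P) *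
      (Real.exp (t * Y ω) / ∫ ω', Real.exp (t * Y ω') ∂P) ∂P =
      (∫ ω, Real.exp (t * (X ω + Y ω)) ∂P) /
        ((∫ ω', Real.exp (t * X ω') ∂P) * ∫ ω', Real.exp (t * Y ω') ∂P) := by
    rw [← integral_div]
    refine integral_congr_ae (Filter.Eventually.of_forall fun ω => ?_)
    show (Real.exp (t * X ω) / ∫ ω', Real.exp (t * X ω') ∂P) *
      (Real.exp (t * Y ω) / ∫ ω', Real.exp (t * Y ω') ∂P) =
      Real.exp (t * (X ω + Y ω)) /
        ((∫ ω', Real.exp (t * X ω') ∂P) * ∫ ω', Real.exp (t * Y ω') ∂P)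
    rw [mul_add, Real.exp_add, div_mul_div_comm]
  have hfin := rvc_alg hu (mul_nonneg (by norm_num : (0 : ℝ) ≤ 8) hK1.le) hK2.le hK3.le
    (rvc_bq_nonneg s P X) (rvc_bq_nonneg s P Y)
    (integral_nonneg fun ω => sq_nonneg (X ω)) (integral_nonneg fun ω => sq_nonneg (Y ω))
    (rv_one_le hX t) (rv_one_le hY t) hc (hexp2 Ω P X hX) (hexp2 Ω P Y hY) q1 r1 q2 q4 q5 hxy7
  rw [hint]
  have e2 : t ^ 2 * ∫ ω, X ω * Y ω ∂P = 2 * (t ^ 2 / 2) * ∫ ω, X ω * Y ω ∂P := by ring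
  rw [e2]
  exact hfin

end Pool.Agent.MChaos
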