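import Pool.Agent.Lib_MP_a91488.Abs

/-!
# Piece TAY: Taylor inequalities for powers
-/

set_option autoImplicit false

namespace Pool.Agent.MChaos

private theorem tay_mid {u v : ℝ} (hu : 0 < u) (hv : v ∈ Set.uIcc 1 u) :
    0 < v ∧ |v - 1| ≤ |u - 1| ∧ ∀ s : ℝ, v ^ s ≤ 1 + u ^ s := by
  rcases le_total 1 u with h | h
  · rw [Set.uIcc_of_le h] at hv
    have hv0 : 0 < v := lt_of_lt_of_le one_pos hv.1
    refine ⟨hv0, ?_, fun s => ?_⟩
    · rw [abs_of_nonneg (by linarith [hv.1]), abs_of_nonneg (by linarith)]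
      linarith [hv.2]
    · rcases le_total 0 s with hs | hs
      · have := Real.rpow_le_rpow hv0.le hv.2 hs
        linarith
      · have h1 : v ^ s ≤ (1 : ℝ) ^ s := Real.rpow_le_rpow_of_nonpos one_pos hv.1 hs
        rw [Real.one_rpow] at h1
        have := Real.rpow_pos_of_pos hu s
        linarith
  · rw [Set.uIcc_of_ge h] at hv
    have hv0 : 0 < v := lt_of_lt_of_le hu hv.1
    refine ⟨hv0, ?_, fun s => ?_⟩
    · rw [abs_of_nonpos (by linarith [hv.2]), abs_of_nonpos (by linarith)]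
      linarith [hv.1]
    · rcases le_total 0 s with hs | hs
      · have h1 : v ^ s ≤ (1 : ℝ) ^ s := Real.rpow_le_rpow hv0.le hv.2 hs
        rw [Real.one_rpow] at h1
        have := Real.rpow_pos_of_pos hu s
        linarith
      · have := Real.rpow_le_rpow_of_nonpos hu hv.1 hs
        linarith

private theorem tay_step (h h' : ℝ → ℝ) (s K : ℝ) (k : ℕ) (hK : 0 ≤ K) (h1 : h 1 = 0)
    (hd : ∀ v, 0 < v → HasDerivAt h (h' v) v)
    (hb : ∀ v, 0 < v → |h' v| ≤ K * (|v - 1| ^ k * (1 + v ^ s))) (u : ℝ) (hu : 0 < u) :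
    |h u| ≤ 2 * K * (|u - 1| ^ (k + 1) * (1 + u ^ s)) := by
  have hus := Real.rpow_pos_of_pos hu s
  have key := Convex.norm_image_sub_le_of_norm_hasDerivWithin_le (f := h) (f' := h')
    (s := Set.uIcc 1 u) (C := 2 * K * (|u - 1| ^ k * (1 + u ^ s)))
    (fun v hv => (hd v (tay_mid hu hv).1).hasDerivWithinAt)
    (fun v hv => by
      obtain ⟨hv0, hv1, hv2⟩ := tay_mid hu hv
      have hvs := Real.rpow_pos_of_pos hv0 s
      rw [Real.norm_eq_abs]
      calc |h' v| ≤ K * (|v - 1| ^ k * (1 + v ^ s)) := hb v hv0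
        _ ≤ K * (|u - 1| ^ k * (2 * (1 + u ^ s))) := by
          apply mul_le_mul_of_nonneg_left _ hK
          apply mul_le_mul (pow_le_pow_left₀ (abs_nonneg _) hv1 k) _ (by positivity)
            (by positivity)
          linarith [hv2 s]
        _ = 2 * K * (|u - 1| ^ k * (1 + u ^ s)) := by ring)
    (convex_uIcc 1 u) Set.left_mem_uIcc Set.right_mem_uIcc
  rw [h1, sub_zero, Real.norm_eq_abs, Real.norm_eq_abs] at key
  calc |h u| ≤ 2 * K * (|u - 1| ^ k * (1 + u ^ s)) * |u - 1| := key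
    _ = 2 * K * (|u - 1| ^ (k + 1) * (1 + u ^ s)) := by ring

/-- `u` in `[1/2, 2]`: the derivative of `u ^ p` is bounded; `u > 2`: `u ^ p ≤ 2 |u - 1| u ^ (p-1)`; `u < 1/2`: `1 ≤ 2 |u - 1|`, `u ^ p ≤ u ^ (p - 1)` -/
theorem tay1 (p : ℝ) : ∃ K : ℝ, 0 < K ∧ ∀ u : ℝ, 0 < u → |u ^ p - 1| ≤ K * (|u - 1| * (1 + u ^ (p - 1))) := by
  refine ⟨2 * |p| + 1, by positivity, fun u hu => ?_⟩
  have hs := tay_step (fun u => u ^ p - 1) (fun u => p * u ^ (p - 1)) (p - 1) |p| 0
    (abs_nonneg p) (by simp) (fun v hv => (Real.hasDerivAt_rpow_const (Or.inl hv.ne')).sub_const 1)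
    (fun v hv => by
      have hvs := Real.rpow_pos_of_pos hv (p - 1)
      rw [abs_mul, abs_of_pos hvs, pow_zero, one_mul]
      exact mul_le_mul_of_nonneg_left (by linarith) (abs_nonneg p)) u hu
  have hus := Real.rpow_pos_of_pos hu (p - 1)
  rw [zero_add, pow_one] at hs
  refine hs.trans (mul_le_mul_of_nonneg_right (by linarith) (by positivity))

/-- `u` in `[1/2, 2]`: Taylor formula of order 3; `u > 2`: `|u - 1| ≥ u / 2`, all terms are `≤ C (u ^ q + u ^ 3)`; `u < 1/2`: all terms are `≤ C (1 + u ^ (q - 3))` -/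
theorem tay3 (q : ℝ) : ∃ K : ℝ, 0 < K ∧ ∀ u : ℝ, 0 < u →
    |u ^ q - 1 - q * (u - 1) - q * (q - 1) / 2 * (u - 1) ^ 2| ≤ K * (|u - 1| ^ 3 * (1 + u ^ (q - 3))) := by
  obtain ⟨K, hK, h1⟩ := tay1 (q - 2)
  have e1 : q - 2 - 1 = q - 3 := by ring
  rw [e1] at h1
  -- second level
  have h2 := tay_step (fun u => u ^ (q - 1) - 1 - (q - 1) * (u - 1))
    (fun u => (q - 1) * (u ^ (q - 2) - 1)) (q - 3) (|q - 1| * K) 1 (by positivity) (by simp)
    (fun v hv => by
      have hd := ((Real.hasDerivAt_rpow_const (x := v) (p := q - 1) (Or.inl hv.ne')).sub_const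
        1).sub (((hasDerivAt_id v).sub_const 1).const_mul (q - 1))
      have e2 : q - 1 - 1 = q - 2 := by ring
      rw [e2] at hd
      have e3 : (q - 1) * v ^ (q - 2) - (q - 1) * 1 = (q - 1) * (v ^ (q - 2) - 1) := by ring
      rw [e3] at hd
      exact hd)
    (fun v hv => by
      rw [abs_mul, pow_one, mul_assoc]
      exact mul_le_mul_of_nonneg_left (h1 v hv) (abs_nonneg _))
  -- third level
  have h3 := tay_step (fun u => u ^ q - 1 - q * (u - 1) - q * (q - 1) / 2 * (u - 1) ^ 2)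
    (fun u => q * (u ^ (q - 1) - 1 - (q - 1) * (u - 1))) (q - 3) (|q| * (2 * (|q - 1| * K))) 2
    (by positivity) (by simp)
    (fun v hv => by
      have hd := (((Real.hasDerivAt_rpow_const (x := v) (p := q) (Or.inl hv.ne')).sub_const
        1).sub (((hasDerivAt_id v).sub_const 1).const_mul q)).sub
        ((((hasDerivAt_id v).sub_const 1).pow 2).const_mul (q * (q - 1) / 2))
      refine hd.congr_deriv ?_
      simp
      ring)
    (fun v hv => by
      rw [abs_mul, mul_assoc |q|]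
      exact mul_le_mul_of_nonneg_left (h2 v hv) (abs_nonneg _))
  refine ⟨2 * (|q| * (2 * (|q - 1| * K))) + 1, by positivity, fun u hu => ?_⟩
  have hus := Real.rpow_pos_of_pos hu (q - 3)
  exact (h3 u hu).trans (mul_le_mul_of_nonneg_right (by linarith) (by positivity))

end Pool.Agent.MChaos
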