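import Pool.Agent.Lib_MP_a91488.MOMC
import Pool.Agent.Lib_MP_a91488.MUN

/-!
# Piece UBA: almost sure bounds of the moment sums
-/

set_option autoImplicit false

open MeasureTheory ProbabilityTheory Filter
open scoped Topology

namespace Pool.Agent.MChaos

variable {d : ℕ} {Ω : Type} [MeasurableSpace Ω] {P : Measure Ω} [IsProbabilityMeasure P] {X : ℕ → Ω → E d → ℝ}

private theorem uba_vt (m : ℕ) (z : V d) : volume (cb m z) ≠ ⊤ := by
  rw [cb_vol]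
  exact ENNReal.ofReal_ne_top

private theorem uba_v0 (m : ℕ) (z : V d) : volume (cb m z) ≠ 0 := by
  rw [cb_vol]
  exact (ENNReal.ofReal_pos.mpr (by positivity)).ne'

private theorem uba_int (hX : CP d P X) (β q : ℝ) (m N : ℕ) :
    Integrable (fun ω => ∑ z ∈ Idx d m, TT P X β 0 N (cb m z) ω ^ q) P :=
  integrable_finsetSum _ fun z _ => tt_pow hX β q 0 N (cb m z) (cb_meas m z) (uba_vt m z) (uba_v0 m z)

/-- `momc` for `n = 0`, `Idx_card`, `cut_prop`: `E ∑_z TT^q ≤ 2^(d m) 2^(-d m q) C exp ((q^2-q) β^2/2 sig2 (cut m)) ≤ C' 2^(-m ξ)`, `ξ = d q + q β^2/2 - q^2 β^2/2 - d` -/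
theorem uba_mean (hX : CP d P X) (β q : ℝ) (hβ : β ^ 2 < 2 * d) (hq : q * β ^ 2 < 2 * d) : ∃ (C : ℝ) (t₀ : ℕ), 0 < C ∧ ∀ m N : ℕ, t₀ ≤ m → cut P X m ≤ N →
    ∫ ω, ∑ z ∈ Idx d m, TT P X β 0 N (cb m z) ω ^ q ∂P ≤ C * 2 ^ (-(d * q + q * β ^ 2 / 2 - q ^ 2 * β ^ 2 / 2 - d) * m) := by
  obtain ⟨C, t₁, hC, h1⟩ := momc hX β q hβ hq
  obtain ⟨t₂, h2⟩ := cut_prop hX
  have hd : (0 : ℝ) < d := by exact_mod_cast hX.dpos
  have hd1 : (1 : ℝ) ≤ d := by exact_mod_cast hX.dpos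
  have hld : 0 ≤ Real.log d := Real.log_nonneg hd1
  refine ⟨C * Real.exp (|(q ^ 2 - q) * β ^ 2 / 2| * (Real.log d / 2 + 1)), max t₁ t₂, by positivity, ?_⟩
  intro m N hm hN
  have hm1 : t₁ ≤ m := le_trans (le_max_left _ _) hm
  have hm2 : t₂ ≤ m := le_trans (le_max_right _ _) hm
  obtain ⟨ha, hb⟩ := h2 m hm2
  set κ : ℝ := (q ^ 2 - q) * β ^ 2 / 2 with hκ
  set D : ℝ := Real.exp (|κ| * (Real.log d / 2 + 1)) with hD
  have h2pos : (0 : ℝ) < 2 := by norm_num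
  -- one cube
  have hone : ∀ z ∈ Idx d m, ∫ ω, TT P X β 0 N (cb m z) ω ^ q ∂P ≤
      (2 : ℝ) ^ (-(d * q) * (m : ℝ)) * (C * (D * (2 : ℝ) ^ (κ * (m : ℝ)))) := by
    intro z hz
    have h3 := h1 m 0 N hm1 (Nat.zero_le _) hN z hz
    have h4 : ∀ ω, (TT P X β 0 N (cb m z) ω * 2 ^ (d * m)) ^ q =
        (2 : ℝ) ^ (d * q * (m : ℝ)) * TT P X β 0 N (cb m z) ω ^ q := by
      intro ω
      rw [Real.mul_rpow (tt_nonneg hX β 0 N ω _) (by positivity), mul_comm]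
      congr 1
      rw [← Real.rpow_natCast, ← Real.rpow_mul h2pos.le]
      congr 1
      push_cast
      ring
    simp only [h4] at h3
    rw [integral_const_mul, sig2_zero, sub_zero] at h3
    have h5 : Real.exp ((q ^ 2 - q) * β ^ 2 / 2 * sig2 P X (cut P X m)) ≤ D * (2 : ℝ) ^ (κ * (m : ℝ)) := by
      rw [← hκ, hD, Real.rpow_def_of_pos h2pos, ← Real.exp_add]
      apply Real.exp_le_exp.mpr
      have h6 : κ * (sig2 P X (cut P X m) - m * Real.log 2) ≤ |κ| * (Real.log d / 2 + 1) := by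
        have h7 : |sig2 P X (cut P X m) - m * Real.log 2| ≤ Real.log d / 2 + 1 := by
          rw [abs_le]
          constructor <;> linarith
        calc κ * (sig2 P X (cut P X m) - m * Real.log 2) ≤ |κ * (sig2 P X (cut P X m) - m * Real.log 2)| := le_abs_self _
          _ = |κ| * |sig2 P X (cut P X m) - m * Real.log 2| := abs_mul _ _
          _ ≤ |κ| * (Real.log d / 2 + 1) := mul_le_mul_of_nonneg_left h7 (abs_nonneg _)
      have h8 : Real.log 2 * (κ * (m : ℝ)) = κ * (m * Real.log 2) := by ring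
      rw [h8]
      linarith [mul_sub κ (sig2 P X (cut P X m)) (m * Real.log 2)]
    have h9 : (2 : ℝ) ^ (-(d * q) * (m : ℝ)) * (2 : ℝ) ^ (d * q * (m : ℝ)) = 1 := by
      rw [← Real.rpow_add h2pos]
      have : -(d * q) * (m : ℝ) + d * q * (m : ℝ) = 0 := by ring
      rw [this, Real.rpow_zero]
    calc ∫ ω, TT P X β 0 N (cb m z) ω ^ q ∂P
        = (2 : ℝ) ^ (-(d * q) * (m : ℝ)) * ((2 : ℝ) ^ (d * q * (m : ℝ)) * ∫ ω, TT P X β 0 N (cb m z) ω ^ q ∂P) := by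
          rw [← mul_assoc, h9, one_mul]
      _ ≤ (2 : ℝ) ^ (-(d * q) * (m : ℝ)) * (C * (D * (2 : ℝ) ^ (κ * (m : ℝ)))) := by
          refine mul_le_mul_of_nonneg_left (le_trans h3 ?_) (Real.rpow_nonneg h2pos.le _)
          exact mul_le_mul_of_nonneg_left h5 hC.le
  rw [integral_finsetSum _ (fun z _ => tt_pow hX β q 0 N (cb m z) (cb_meas m z) (uba_vt m z) (uba_v0 m z))]
  refine le_trans (Finset.sum_le_sum hone) ?_
  rw [Finset.sum_const, Idx_card, nsmul_eq_mul]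
  push_cast
  have h10 : (2 : ℝ) ^ (d * m) = (2 : ℝ) ^ ((d : ℝ) * (m : ℝ)) := by
    rw [← Real.rpow_natCast]
    push_cast
    rfl
  rw [h10]
  have h11 : (2 : ℝ) ^ ((d : ℝ) * (m : ℝ)) * ((2 : ℝ) ^ (-(d * q) * (m : ℝ)) * (C * (D * (2 : ℝ) ^ (κ * (m : ℝ))))) =
      C * D * ((2 : ℝ) ^ ((d : ℝ) * (m : ℝ)) * (2 : ℝ) ^ (-(d * q) * (m : ℝ)) * (2 : ℝ) ^ (κ * (m : ℝ))) := by ring
  rw [h11, ← Real.rpow_add h2pos, ← Real.rpow_add h2pos]
  apply le_of_eq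
  congr 2
  rw [hκ]
  ring

/-- Fatou: `E liminf_N ∑_z TT^q ≤ C 2^(-m ξ)`; Markov and Borel-Cantelli: almost surely `liminf_N ∑ < 2^(-m (ξ - ε))` for large `m` -/
theorem uba (hX : CP d P X) (β q ε : ℝ) (hβ : β ^ 2 < 2 * d) (hq : q * β ^ 2 < 2 * d) (hε : 0 < ε) : ∀ᵐ ω ∂P, ∀ᶠ m : ℕ in atTop, ∃ᶠ N : ℕ in atTop,
    ∑ z ∈ Idx d m, TT P X β 0 N (cb m z) ω ^ q ≤ 2 ^ (-(d * q + q * β ^ 2 / 2 - q ^ 2 * β ^ 2 / 2 - d - ε) * m) := by
  obtain ⟨C, t₀, hC, h1⟩ := uba_mean hX β q hβ hq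
  set ξ : ℝ := d * q + q * β ^ 2 / 2 - q ^ 2 * β ^ 2 / 2 - d with hξ
  have h2pos : (0 : ℝ) < 2 := by norm_num
  have hSm : ∀ m N : ℕ, Measurable (fun ω => ∑ z ∈ Idx d m, TT P X β 0 N (cb m z) ω ^ q) := fun m N =>
    Finset.measurable_fun_sum _ fun z _ => (tt_meas hX β 0 N (cb m z) (uba_vt m z)).pow_const q
  have hS0 : ∀ (m N : ℕ) (ω : Ω), 0 ≤ ∑ z ∈ Idx d m, TT P X β 0 N (cb m z) ω ^ q := fun m N ω =>
    Finset.sum_nonneg fun z _ => Real.rpow_nonneg (tt_nonneg hX β 0 N ω _) q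
  -- the bad sets
  have hbad : ∀ m : ℕ, P {ω | t₀ ≤ m ∧ ∀ᶠ N : ℕ in atTop,
      2 ^ (-(ξ - ε) * (m : ℝ)) < ∑ z ∈ Idx d m, TT P X β 0 N (cb m z) ω ^ q} ≤
      ENNReal.ofReal (C * 2 ^ (-ε * (m : ℝ))) := by
    intro m
    by_cases hm : t₀ ≤ m
    · have hF : ∫⁻ ω, liminf (fun N : ℕ => ENNReal.ofReal (∑ z ∈ Idx d m, TT P X β 0 N (cb m z) ω ^ q)) atTop ∂P ≤
          ENNReal.ofReal (C * 2 ^ (-ξ * (m : ℝ))) := by
        refine le_trans (lintegral_liminf_le fun N => (hSm m N).ennreal_ofReal) ?_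
        refine liminf_le_of_frequently_le' (Eventually.frequently ?_)
        filter_upwards [eventually_ge_atTop (cut P X m)] with N hN
        rw [← ofReal_integral_eq_lintegral_ofReal (uba_int hX β q m N) (Eventually.of_forall (hS0 m N))]
        exact ENNReal.ofReal_le_ofReal (h1 m N hm hN)
      have hc : (0 : ℝ) < 2 ^ (-(ξ - ε) * (m : ℝ)) := Real.rpow_pos_of_pos h2pos _
      have hsub : {ω | t₀ ≤ m ∧ ∀ᶠ N : ℕ in atTop,
          2 ^ (-(ξ - ε) * (m : ℝ)) < ∑ z ∈ Idx d m, TT P X β 0 N (cb m z) ω ^ q} ⊆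
          {ω | ENNReal.ofReal (2 ^ (-(ξ - ε) * (m : ℝ))) ≤
            liminf (fun N : ℕ => ENNReal.ofReal (∑ z ∈ Idx d m, TT P X β 0 N (cb m z) ω ^ q)) atTop} := by
        intro ω hω
        have hev : ∀ᶠ N : ℕ in atTop, ENNReal.ofReal (2 ^ (-(ξ - ε) * (m : ℝ))) ≤
            ENNReal.ofReal (∑ z ∈ Idx d m, TT P X β 0 N (cb m z) ω ^ q) := by
          filter_upwards [hω.2] with N hN
          exact ENNReal.ofReal_le_ofReal hN.le
        exact le_liminf_of_le (by isBoundedDefault) hev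
      refine le_trans (measure_mono hsub) ?_
      refine le_trans (meas_ge_le_lintegral_div
        (Measurable.liminf fun N => (hSm m N).ennreal_ofReal).aemeasurable
        (ENNReal.ofReal_pos.mpr hc).ne' ENNReal.ofReal_ne_top) ?_
      refine le_trans (ENNReal.div_le_div_right hF _) ?_
      rw [← ENNReal.ofReal_div_of_pos hc]
      apply ENNReal.ofReal_le_ofReal
      rw [mul_div_assoc, ← Real.rpow_sub h2pos]
      apply le_of_eq
      congr 2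
      ring
    · have : {ω | t₀ ≤ m ∧ ∀ᶠ N : ℕ in atTop,
          2 ^ (-(ξ - ε) * (m : ℝ)) < ∑ z ∈ Idx d m, TT P X β 0 N (cb m z) ω ^ q} = ∅ := by
        ext ω
        simp [hm]
      rw [this]
      simp
  have hsum : Summable (fun m : ℕ => C * (2 : ℝ) ^ (-ε * (m : ℝ))) := by
    have h3 : ∀ m : ℕ, (2 : ℝ) ^ (-ε * (m : ℝ)) = ((2 : ℝ) ^ (-ε)) ^ m := fun m =>
      Real.rpow_mul_natCast h2pos.le (-ε) m
    simp only [h3]
    refine (summable_geometric_of_lt_one (Real.rpow_nonneg h2pos.le _) ?_).mul_left C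
    exact Real.rpow_lt_one_of_one_lt_of_neg (by norm_num) (by linarith)
  have hBC := ae_eventually_notMem (μ := P) (s := fun m : ℕ => {ω | t₀ ≤ m ∧ ∀ᶠ N : ℕ in atTop,
      2 ^ (-(ξ - ε) * (m : ℝ)) < ∑ z ∈ Idx d m, TT P X β 0 N (cb m z) ω ^ q})
    (ne_top_of_le_ne_top hsum.tsum_ofReal_ne_top (ENNReal.tsum_le_tsum hbad))
  filter_upwards [hBC] with ω hω
  filter_upwards [hω, eventually_ge_atTop t₀] with m hm hmt
  have h4 : ¬ ∀ᶠ N : ℕ in atTop,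
      2 ^ (-(ξ - ε) * (m : ℝ)) < ∑ z ∈ Idx d m, TT P X β 0 N (cb m z) ω ^ q := fun h => hm ⟨hmt, h⟩
  rw [not_eventually] at h4
  exact h4.mono fun N hN => not_lt.mp hN

end Pool.Agent.MChaos
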