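import Pool.Agent.Lib_MP_a91488.GEO

/-!
# Piece UBB: upper bound of the dimension of level sets by moment sums (deterministic)
-/

set_option autoImplicit false

open MeasureTheory Metric Filter
open scoped Topology ENNReal

namespace Pool.Agent.MChaos

variable {d : ℕ}

private theorem ubb_diam (m : ℕ) (z : V d) :
    ediam (cb m z) ≤ ENNReal.ofReal (Real.sqrt d / 2 ^ m) := by
  refine ediam_le fun x hx y hy => ?_
  rw [edist_dist, dist_eq_norm]
  exact ENNReal.ofReal_le_ofReal (cb_diam m z x y hx hy)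

/-- the main estimate: the Hausdorff measure vanishes for `t > s` -/
private theorem ubb_haus (S : Set (E d)) (s t : ℝ) (hst : s < t) (ht0 : 0 < t)
    (Z : ℕ → Finset (V d)) (hc : ∀ᶠ m : ℕ in atTop, S ⊆ ⋃ z ∈ Z m, cb m z)
    (hn : ∀ᶠ m : ℕ in atTop, ((Z m).card : ℝ) ≤ 2 ^ (s * m)) :
    Measure.hausdorffMeasure t S = 0 := by
  have hp : ∀ m : ℕ, (0 : ℝ) < 2 ^ m := fun m => by positivity
  have hr : Tendsto (fun m : ℕ => ENNReal.ofReal (Real.sqrt d / 2 ^ m)) atTop (𝓝 0) := by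
    have h := (tendsto_pow_atTop_nhds_zero_of_lt_one (r := (1 / 2 : ℝ)) (by norm_num)
      (by norm_num)).const_mul (Real.sqrt d)
    rw [mul_zero] at h
    have h2 : Tendsto (fun m : ℕ => Real.sqrt d / 2 ^ m) atTop (𝓝 0) := by
      refine h.congr (fun m => ?_)
      rw [one_div, inv_pow, div_eq_mul_inv]
    have h3 := ENNReal.tendsto_ofReal h2
    rwa [ENNReal.ofReal_zero] at h3
  have key := Measure.hausdorffMeasure_le_liminf_sum (X := E d) (β := ℕ)
    (ι := fun m => ↥(Z m)) t S (l := atTop) (fun m => ENNReal.ofReal (Real.sqrt d / 2 ^ m)) hr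
    (fun m z => cb m (z : V d)) (Eventually.of_forall fun m z => ubb_diam m z.1)
    (hc.mono fun m hm => by
      refine hm.trans ?_
      intro x hx
      obtain ⟨z, hz, hxz⟩ := Set.mem_iUnion₂.1 hx
      exact Set.mem_iUnion.2 ⟨⟨z, hz⟩, hxz⟩)
  refine le_antisymm (key.trans ?_) bot_le
  have hbound : ∀ᶠ m : ℕ in atTop, ∑ z : ↥(Z m), ediam (cb m (z : V d)) ^ t ≤
      ENNReal.ofReal (Real.sqrt d ^ t * 2 ^ (-(t - s) * m)) := by
    filter_upwards [hn] with m hm
    calc ∑ z : ↥(Z m), ediam (cb m (z : V d)) ^ t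
        ≤ ∑ _z : ↥(Z m), ENNReal.ofReal ((Real.sqrt d / 2 ^ m) ^ t) := by
          refine Finset.sum_le_sum fun z _ => ?_
          rw [← ENNReal.ofReal_rpow_of_nonneg (by positivity) ht0.le]
          exact ENNReal.rpow_le_rpow (ubb_diam m z.1) ht0.le
      _ = ENNReal.ofReal ((Z m).card * (Real.sqrt d / 2 ^ m) ^ t) := by
          rw [Finset.sum_const, Finset.card_univ, Fintype.card_coe, nsmul_eq_mul,
            ENNReal.ofReal_mul (by positivity), ENNReal.ofReal_natCast]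
      _ ≤ _ := by
          refine ENNReal.ofReal_le_ofReal ?_
          calc ((Z m).card : ℝ) * (Real.sqrt d / 2 ^ m) ^ t
              ≤ 2 ^ (s * m) * (Real.sqrt d / 2 ^ m) ^ t :=
                mul_le_mul_of_nonneg_right hm (by positivity)
            _ = Real.sqrt d ^ t * 2 ^ (-(t - s) * m) := by
                rw [Real.div_rpow (Real.sqrt_nonneg _) (hp m).le, ← Real.rpow_natCast 2 m,
                  ← Real.rpow_mul (by norm_num), div_eq_mul_inv, ← Real.rpow_neg (by norm_num)]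
                rw [mul_left_comm, ← Real.rpow_add (by norm_num)]
                congr 2
                ring
  have hlim : Tendsto (fun m : ℕ => ENNReal.ofReal (Real.sqrt d ^ t * 2 ^ (-(t - s) * m)))
      atTop (𝓝 0) := by
    have h1 : (2 : ℝ) ^ (-(t - s)) < 1 :=
      Real.rpow_lt_one_of_one_lt_of_neg (by norm_num) (by linarith)
    have h := (tendsto_pow_atTop_nhds_zero_of_lt_one (r := (2 : ℝ) ^ (-(t - s)))
      (by positivity) h1).const_mul (Real.sqrt d ^ t)
    rw [mul_zero] at h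
    have h3 := ENNReal.tendsto_ofReal h
    rw [ENNReal.ofReal_zero] at h3
    refine h3.congr fun m => ?_
    rw [Real.rpow_mul (by norm_num), Real.rpow_natCast]
  rw [← hlim.liminf_eq]
  exact liminf_le_liminf hbound

/-- covering lemma: if for all large `m` the set `S` is covered by at most `2^(s m)` cubes of level `m`, then `dimH S ≤ s`: for `s' > s`, `∑ diam^s' ≤ C 2^(s m) 2^(-s' m) → 0`, so `μH[s'] S = 0` (`hausdorffMeasure_le_liminf_sum` or `mkMetric`),
`dimH_le_of_hausdorffMeasure_ne_top` -/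
theorem dim_cover (S : Set (E d)) (s : ℝ) (hs : 0 ≤ s) (Z : ℕ → Finset (V d)) (hc : ∀ᶠ m : ℕ in atTop, S ⊆ ⋃ z ∈ Z m, cb m z) (hn : ∀ᶠ m : ℕ in atTop, ((Z m).card : ℝ) ≤ 2 ^ (s * m)) :
    dimH S ≤ ENNReal.ofReal s := by
  refine ENNReal.le_of_forall_pos_le_add fun ε hε _ => ?_
  have hε' : (0 : ℝ) < ε := hε
  have h := ubb_haus S s (s + ε) (by linarith) (by linarith) Z hc hn
  have h2 : dimH S ≤ ((s + ε).toNNReal : NNReal) := by
    refine dimH_le_of_hausdorffMeasure_ne_top ?_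
    rw [Real.coe_toNNReal _ (by linarith), h]
    exact ENNReal.zero_ne_top
  refine h2.trans ?_
  change ENNReal.ofReal (s + ε) ≤ _
  rw [ENNReal.ofReal_add hs hε'.le, ENNReal.ofReal_coe_nnreal]

/-- points which have mass at least `2^(-m β)` in the ball of radius `2^(-m)` for all `m ≥ m₀` -/
private def UL (μ : Measure (E d)) (β : ℝ) (m₀ : ℕ) : Set (E d) :=
  {x | x ∈ cube d ∧ ∀ m : ℕ, m₀ ≤ m → (2 : ℝ) ^ (-(m * β)) ≤ μ.real (ball x (1 / 2 ^ m))}

private theorem ubb_sub (μ : Measure (E d)) (hμ : IsFiniteMeasure μ) (α β : ℝ) (hαβ : α < β) :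
    Lev μ α ⊆ ⋃ m₀, UL μ β m₀ := by
  rintro x ⟨hx, hpos, hlim⟩
  have h1 : ∀ᶠ r : ℝ in 𝓝[>] 0, Real.log (μ.real (ball x r)) / Real.log r < β :=
    hlim.eventually (eventually_lt_nhds hαβ)
  have h2 : Tendsto (fun m : ℕ => (1 : ℝ) / 2 ^ m) atTop (𝓝[>] 0) := by
    rw [tendsto_nhdsWithin_iff]
    refine ⟨?_, Eventually.of_forall fun m => ?_⟩
    · refine (tendsto_pow_atTop_nhds_zero_of_lt_one (r := (1 / 2 : ℝ)) (by norm_num)
        (by norm_num)).congr fun m => ?_
      rw [one_div_pow]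
    · show (0 : ℝ) < 1 / 2 ^ m
      positivity
  obtain ⟨m₀, hm₀⟩ := eventually_atTop.1 (h2.eventually h1)
  refine Set.mem_iUnion.2 ⟨max m₀ 1, hx, fun m hm => ?_⟩
  have hm1 : m₀ ≤ m := le_trans (le_max_left _ _) hm
  have hm2 : 1 ≤ m := le_trans (le_max_right _ _) hm
  have h3 := hm₀ m hm1
  have hlog : Real.log ((1 : ℝ) / 2 ^ m) = -(m * Real.log 2) := by
    rw [one_div, Real.log_inv, Real.log_pow]
  have hl2 : 0 < Real.log 2 := Real.log_pos (by norm_num)
  have hm0 : (0 : ℝ) < m := by exact_mod_cast hm2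
  have hneg : Real.log ((1 : ℝ) / 2 ^ m) < 0 := by
    rw [hlog]
    have : 0 < (m : ℝ) * Real.log 2 := mul_pos hm0 hl2
    linarith
  have hμ0 : 0 < μ (ball x (1 / 2 ^ m)) := hpos _ (by positivity)
  rw [div_lt_iff_of_neg hneg] at h3
  have hpos' : 0 < μ.real (ball x (1 / 2 ^ m)) :=
    ENNReal.toReal_pos hμ0.ne' (measure_ne_top μ _)
  rw [Real.rpow_def_of_pos (by norm_num), ← Real.le_log_iff_exp_le hpos']
  rw [hlog] at h3
  linarith

/-- the set `UL` is covered by few cubes -/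
private theorem ubb_cov (μ : Measure (E d)) (hμ : IsFiniteMeasure μ) (q κ β : ℝ) (hq : 0 < q)
    (h : ∀ᶠ m : ℕ in atTop, ∑ z ∈ Idx d m, μ.real (nb m z) ^ q ≤ 2 ^ (-κ * m)) :
    ∃ Z : ℕ → Finset (V d), (∀ m₀ : ℕ, ∀ᶠ m : ℕ in atTop, UL μ β m₀ ⊆ ⋃ z ∈ Z m, cb m z) ∧
      ∀ᶠ m : ℕ in atTop, ((Z m).card : ℝ) ≤ 2 ^ ((q * β - κ) * m) := by
  classical
  refine ⟨fun m => (Idx d m).filter fun z => (2 : ℝ) ^ (-(m * β)) ≤ μ.real (nb m z),
    fun m₀ => ?_, ?_⟩
  · filter_upwards [eventually_ge_atTop m₀] with m hm x hx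
    obtain ⟨z, hz, hxz⟩ := cube_cover m x hx.1
    refine Set.mem_iUnion₂.2 ⟨z, Finset.mem_filter.2 ⟨hz, ?_⟩, hxz⟩
    exact (hx.2 m hm).trans (measureReal_mono (ball_sub_nb m z x hxz) (measure_ne_top μ _))
  · filter_upwards [h] with m hm
    set Z := (Idx d m).filter fun z => (2 : ℝ) ^ (-(m * β)) ≤ μ.real (nb m z) with hZ
    have h1 : (Z.card : ℝ) * (2 : ℝ) ^ (-(q * β) * m) ≤ 2 ^ (-κ * m) := by
      calc (Z.card : ℝ) * (2 : ℝ) ^ (-(q * β) * m)
          = ∑ _z ∈ Z, (2 : ℝ) ^ (-(q * β) * m) := by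
            rw [Finset.sum_const, nsmul_eq_mul]
        _ ≤ ∑ z ∈ Z, μ.real (nb m z) ^ q := by
            refine Finset.sum_le_sum fun z hz => ?_
            have h2 := (Finset.mem_filter.1 hz).2
            have h3 := Real.rpow_le_rpow (by positivity) h2 hq.le
            rw [← Real.rpow_mul (by norm_num)] at h3
            refine le_trans (le_of_eq ?_) h3
            congr 1
            ring
        _ ≤ ∑ z ∈ Idx d m, μ.real (nb m z) ^ q :=
            Finset.sum_le_sum_of_subset_of_nonneg (Finset.filter_subset _ _)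
              fun z _ _ => Real.rpow_nonneg measureReal_nonneg q
        _ ≤ _ := hm
    have h4 : (0 : ℝ) < 2 ^ (q * β * m) := by positivity
    have h5 := mul_le_mul_of_nonneg_right h1 h4.le
    rw [mul_assoc, ← Real.rpow_add (by norm_num), ← Real.rpow_add (by norm_num)] at h5
    have e1 : -(q * β) * (m : ℝ) + q * β * m = 0 := by ring
    have e2 : -κ * (m : ℝ) + q * β * m = (q * β - κ) * m := by ring
    rw [e1, e2, Real.rpow_zero, mul_one] at h5
    exact h5

/-- Let `x ∈ Lev μ α`, `η > 0`: for large `m`, `μ (ball x 2^(-m)) ≥ 2^(-m (α + η))` and the ball is contained in `nb m z` for a cube `cb m z ∋ x` (`cube_cover`, `ball_sub_nb`).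
The number of `z` with `μ (nb m z) ≥ 2^(-m (α + η))` is at most `2^(m (q (α + η) - κ))`. If this exponent is negative there is no such `z`. `Lev μ α` is the countable union over `m₀` of the sets where this holds for all `m ≥ m₀`
(`dimH_iUnion`); `dim_cover`; let `η → 0` along a sequence. -/
theorem ubb (μ : Measure (E d)) (hμ : IsFiniteMeasure μ) (q κ : ℝ) (hq : 0 < q) (h : ∀ᶠ m : ℕ in atTop, ∑ z ∈ Idx d m, μ.real (nb m z) ^ q ≤ 2 ^ (-κ * m)) (α : ℝ) :
    dimH (Lev μ α) ≤ ENNReal.ofReal (q * α - κ) ∧ (q * α - κ < 0 → Lev μ α = ∅) := by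
  have hempty : q * α - κ < 0 → Lev μ α = ∅ := by
    intro hneg
    have hβ : α < α + (-(q * α - κ)) / (2 * q) := by
      have : 0 < (-(q * α - κ)) / (2 * q) := div_pos (by linarith) (by linarith)
      linarith
    obtain ⟨Z, hZ1, hZ2⟩ := ubb_cov μ hμ q κ (α + (-(q * α - κ)) / (2 * q)) hq h
    have hs : q * (α + (-(q * α - κ)) / (2 * q)) - κ < 0 := by
      have : q * (α + (-(q * α - κ)) / (2 * q)) - κ = (q * α - κ) / 2 := by
        field_simp
        ring
      rw [this]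
      linarith
    rw [Set.eq_empty_iff_forall_notMem]
    intro x hx
    obtain ⟨m₀, hx0⟩ := Set.mem_iUnion.1 (ubb_sub μ hμ α _ hβ hx)
    obtain ⟨m, ⟨h1, h2⟩, h3⟩ := (((hZ1 m₀).and hZ2).and (eventually_ge_atTop 1)).exists
    obtain ⟨z, hz, -⟩ := Set.mem_iUnion₂.1 (h1 hx0)
    have h4 : (1 : ℝ) ≤ (Z m).card := by
      have : 0 < (Z m).card := Finset.card_pos.2 ⟨z, hz⟩
      exact_mod_cast this
    have h5 : (2 : ℝ) ^ ((q * (α + (-(q * α - κ)) / (2 * q)) - κ) * m) < 1 := by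
      refine Real.rpow_lt_one_of_one_lt_of_neg (by norm_num) ?_
      have hm0 : (0 : ℝ) < m := by exact_mod_cast h3
      exact mul_neg_of_neg_of_pos hs hm0
    linarith
  refine ⟨?_, hempty⟩
  rcases lt_or_ge (q * α - κ) 0 with hneg | hnn
  · rw [hempty hneg, dimH_empty]
    exact bot_le
  · refine ENNReal.le_of_forall_pos_le_add fun ε hε _ => ?_
    have hε' : (0 : ℝ) < ε := hε
    have hβ : α < α + ε / q := by
      have : 0 < (ε : ℝ) / q := div_pos hε' hq
      linarith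
    obtain ⟨Z, hZ1, hZ2⟩ := ubb_cov μ hμ q κ (α + ε / q) hq h
    have hs : q * (α + ε / q) - κ = q * α - κ + ε := by
      field_simp
      ring
    rw [hs] at hZ2
    refine (dimH_mono (ubb_sub μ hμ α _ hβ)).trans ?_
    rw [dimH_iUnion]
    refine iSup_le fun m₀ => ?_
    refine (dim_cover _ (q * α - κ + ε) (by linarith) Z (hZ1 m₀) hZ2).trans ?_
    rw [ENNReal.ofReal_add hnn hε'.le, ENNReal.ofReal_coe_nnreal]

end Pool.Agent.MChaos
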