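import Pool.Agent.Lib_MP_a91488.CPA
import Pool.Agent.Lib_MP_a91488.RVB
import Pool.Agent.Lib_MP_a91488.RVC

/-!
# Piece WKA: the weights of the fields satisfy the hypotheses of the comparison theorem
-/

set_option autoImplicit false

open MeasureTheory ProbabilityTheory Filter
open scoped Topology

namespace Pool.Agent.MChaos

variable {d : ℕ} {Ω : Type} [MeasurableSpace Ω] {P : Measure Ω} [IsProbabilityMeasure P] {X : ℕ → Ω → E d → ℝ}

/-- `fun ω => ω` from `Ω` to `SP X k` is measurable (`meas` gives that the comap sigma algebra is smaller) -/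
theorem meas_SP (hX : CP d P X) (k : ℕ) : @Measurable Ω (SP X k) _ _ (fun ω => ω) := by
  intro s hs
  obtain ⟨t, ht, rfl⟩ := hs
  have h : Measurable (fun (ω : Ω) (x : E d) => X k ω x) := measurable_pi_iff.mpr (fun x => hX.meas k x)
  exact h ht

theorem PP_prob (hX : CP d P X) (k : ℕ) : IsProbabilityMeasure (PP P X k) :=
  Measure.isProbabilityMeasure_map (meas_SP hX k).aemeasurable

/-- integrals over `SP X k`: `integral_map` -/
theorem int_PP (hX : CP d P X) (k : ℕ) (f : SP X k → ℝ) (hf : Measurable f) : ∫ ω, f ω ∂(PP P X k) = ∫ ω : Ω, f (ω : SP X k) ∂P :=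
  integral_map (meas_SP hX k).aemeasurable hf.aestronglyMeasurable

theorem SP_eval (k : ℕ) (x : E d) : Measurable (fun ω : SP X k => X k (ω : Ω) x) := by
  intro s hs
  exact ⟨{g | g x ∈ s}, measurable_pi_apply x hs, rfl⟩

theorem SP_unc (hX : CP d P X) (k : ℕ) : Measurable (Function.uncurry (fun (ω : SP X k) (x : E d) => X k (ω : Ω) x)) := by
  have h : Measurable (Function.uncurry (fun (x : E d) (ω : SP X k) => X k (ω : Ω) x)) :=
    measurable_uncurry_of_continuous_of_measurable (fun ω => hX.cont k ω) (fun x => SP_eval k x)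
  exact h.comp measurable_swap

theorem den_meas (hX : CP d P X) (g : ℝ → ℝ) (hg : Measurable g) (k : ℕ) : Measurable (fun x : E d => ∫ ω', g (X k ω' x) ∂P) := by
  have h : Measurable (fun p : E d × Ω => g (X k p.2 p.1)) := hg.comp ((hX.unc k).comp measurable_swap)
  exact (h.stronglyMeasurable.integral_prod_right (ν := P)).measurable

theorem wS_unc (hX : CP d P X) (γ : ℝ) (k : ℕ) : Measurable (Function.uncurry (wS P X γ k)) := by
  have h1 : Measurable (fun p : SP X k × E d => Real.exp (γ * X k (p.1 : Ω) p.2)) :=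
    Real.measurable_exp.comp ((SP_unc hX k).const_mul γ)
  have h2 : Measurable (fun p : SP X k × E d => ∫ ω', Real.exp (γ * X k ω' p.2) ∂P) :=
    (den_meas hX (fun r => Real.exp (γ * r)) (by fun_prop) k).comp measurable_snd
  exact h1.div h2

theorem wS_meas (hX : CP d P X) (γ : ℝ) (k : ℕ) (x : E d) : Measurable (fun ω : SP X k => wS P X γ k ω x) :=
  (wS_unc hX γ k).comp (measurable_id.prodMk measurable_const)

theorem intble_PP (hX : CP d P X) (k : ℕ) (f : SP X k → ℝ) (hf : Measurable f) (hi : Integrable (fun ω : Ω => f (ω : SP X k)) P) :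
    Integrable f (PP P X k) :=
  (integrable_map_measure hf.aestronglyMeasurable (meas_SP hX k).aemeasurable).mpr hi

/-- Measurability of `uncurry (wS ..)` for the small sigma algebra: `X k` is continuous in `x` and measurable in `ω` for the comap sigma algebra; the denominator is a measurable function of `x`.
Let `3 + ε` be the exponent of `third`, `b k x = K (E |X k x| ^ (3+ε)) ^ (3/(3+ε)) = K bq (3+ε) P (X k · x)`, `s = (3 + (3+ε))/2`: `rv_wt`, `rv_cov` -/
theorem wt_Wt (hX : CP d P X) (γ : ℝ) : ∃ (s : ℝ) (M : ℝ → ℝ) (b : ℕ → E d → ℝ) (C : ℝ), 3 < s ∧ (∀ p, 1 ≤ M p) ∧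
    (∀ k, Wt (PP P X k) (wS P X γ k) (b k) s M) ∧ (∀ n x, ∑ k ∈ Finset.range n, b k x ≤ C) ∧
    (∀ k x y, |cw (PP P X k) (wS P X γ k) x y - γ ^ 2 * ∫ ω, X k ω x * X k ω y ∂P| ≤ b k x + b k y) := by
  obtain ⟨Cb, hrv⟩ := hX.rv
  obtain ⟨ε, C3, hε, h3⟩ := hX.third
  obtain ⟨M, K, hM, hK, hwt⟩ := rv_wt γ (3 + ε) (by linarith) Cb
  obtain ⟨K', hK', hcov⟩ := rv_cov γ (3 + ε) (by linarith) Cb
  have hKK : 0 < max K K' := lt_max_of_lt_left hK
  have hbq0 : ∀ k x, 0 ≤ bq (3 + ε) P (fun ω => X k ω x) := by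
    intro k x
    unfold bq
    exact Real.rpow_nonneg (integral_nonneg (fun ω => Real.rpow_nonneg (abs_nonneg _) _)) _
  have hsum : ∀ n x, ∑ k ∈ Finset.range n, bq (3 + ε) P (fun ω => X k ω x) ≤ C3 := by
    intro n x
    exact h3 x n
  refine ⟨(3 + (3 + ε)) / 2, M, fun k x => max K K' * bq (3 + ε) P (fun ω => X k ω x), max K K' * C3, by linarith, hM, ?_, ?_, ?_⟩
  · intro k
    refine ⟨wS_unc hX γ k, ?_, ?_, ?_, ?_, ?_, ?_, ?_, ?_⟩
    · intro ω x
      exact wt_pos hX γ k ω x
    · intro ω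
      exact wt_bdd hX γ k ω
    · intro x
      rw [int_PP hX k (fun ω => wS P X γ k ω x) (wS_meas hX γ k x)]
      exact (wt_mean hX γ k x).2
    · intro x p
      have h1 := (hwt Ω P (fun ω => X k ω x) (hrv k x)).1 p
      have hm : Measurable (fun ω : SP X k => wS P X γ k ω x ^ p) := (wS_meas hX γ k x).pow_const p
      refine ⟨intble_PP hX k _ hm h1.1, ?_⟩
      rw [int_PP hX k (fun ω => wS P X γ k ω x ^ p) hm]
      exact h1.2
    · have h : Measurable (fun x : E d => ∫ ω, |X k ω x| ^ (3 + ε) ∂P) :=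
        den_meas hX (fun r => |r| ^ (3 + ε)) (by fun_prop) k
      exact (h.pow_const _).const_mul _
    · intro x
      exact mul_nonneg hKK.le (hbq0 k x)
    · refine ⟨max K K' * C3, fun x => ?_⟩
      refine mul_le_mul_of_nonneg_left ?_ hKK.le
      calc bq (3 + ε) P (fun ω => X k ω x) ≤ ∑ j ∈ Finset.range (k + 1), bq (3 + ε) P (fun ω => X j ω x) :=
            Finset.single_le_sum (f := fun j => bq (3 + ε) P (fun ω => X j ω x)) (fun j _ => hbq0 j x) (Finset.mem_range.mpr (Nat.lt_succ_self k))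
        _ ≤ C3 := hsum (k + 1) x
    · intro x
      have h1 := (hwt Ω P (fun ω => X k ω x) (hrv k x)).2
      have hm : Measurable (fun ω : SP X k => |wS P X γ k ω x - 1| ^ ((3 + (3 + ε)) / 2)) :=
        (((wS_meas hX γ k x).sub_const 1).abs).pow_const _
      rw [int_PP hX k (fun ω => |wS P X γ k ω x - 1| ^ ((3 + (3 + ε)) / 2)) hm]
      exact h1.trans (mul_le_mul_of_nonneg_right (le_max_left _ _) (hbq0 k x))
  · intro n x
    rw [← Finset.mul_sum]
    exact mul_le_mul_of_nonneg_left (hsum n x) hKK.le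
  · intro k x y
    have h1 := hcov Ω P (fun ω => X k ω x) (fun ω => X k ω y) (hrv k x) (hrv k y)
    have hm : Measurable (fun ω : SP X k => wS P X γ k ω x * wS P X γ k ω y) := (wS_meas hX γ k x).mul (wS_meas hX γ k y)
    unfold cw
    rw [int_PP hX k (fun ω => wS P X γ k ω x * wS P X γ k ω y) hm]
    refine h1.trans ?_
    have h2 : K' * (bq (3 + ε) P (fun ω => X k ω x) + bq (3 + ε) P (fun ω => X k ω y)) ≤
        max K K' * (bq (3 + ε) P (fun ω => X k ω x) + bq (3 + ε) P (fun ω => X k ω y)) :=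
      mul_le_mul_of_nonneg_right (le_max_right _ _) (add_nonneg (hbq0 k x) (hbq0 k y))
    exact h2.trans_eq (mul_add _ _ _)

end Pool.Agent.MChaos
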